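import Pool.Agent.H.MP_7b4a29_c.MMH

/-!
# Two by two matrices; the algebraic identity behind the index of the Bott projection
-/

namespace H7c

variable {B : Type} [CStarAlgebra B]

/-- A two by two matrix. -/
noncomputable def m2 (a b c d : B) : MM (Fin 2) B := MM.of ![![a, b], ![c, d]]

theorem m2_mul (a b c d a' b' c' d' : B) : m2 a b c d * m2 a' b' c' d' =
    m2 (a * a' + b * c') (a * b' + b * d') (c * a' + d * c') (c * b' + d * d') := by
  refine MM.ext fun i j => ?_
  rw [MM.e_mul, Fin.sum_univ_two]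
  fin_cases i <;> fin_cases j <;> rfl

theorem m2_add (a b c d a' b' c' d' : B) : m2 a b c d + m2 a' b' c' d' =
    m2 (a + a') (b + b') (c + c') (d + d') := by
  refine MM.ext fun i j => ?_
  rw [MM.e_add]
  fin_cases i <;> fin_cases j <;> rfl

theorem m2_star (a b c d : B) : star (m2 a b c d) = m2 (star a) (star c) (star b) (star d) := by
  refine MM.ext fun i j => ?_
  rw [MM.e_star]
  fin_cases i <;> fin_cases j <;> rfl

theorem m2_one : (1 : MM (Fin 2) B) = m2 1 0 0 1 := by
  refine MM.ext fun i j => ?_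
  rw [MM.e_one]
  fin_cases i <;> fin_cases j <;> rfl

theorem m2_congr {a b c d a' b' c' d' : B} (h1 : a = a') (h2 : b = b') (h3 : c = c')
    (h4 : d = d') : m2 a b c d = m2 a' b' c' d' := by
  rw [h1, h2, h3, h4]

/-- The data: `c, s` are the cosine and sine functions of the position, `v` the cyclic shift and `E`
the matrix unit from the last to the first position. -/
structure BoD (c s v E : B) : Prop where
  cs : star c = c
  ss : star s = s
  comm : c * s = s * c
  sq : c * c + s * s = 1
  v1 : star v * v = 1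
  v2 : v * star v = 1
  cv : c * v = v * c - E
  sv : s * v = v * s + E
  cE : c * E = 0
  sE : s * E = E
  Ec : E * c = E
  Es : E * s = 0
  sqE : s * s * v = v * (s * s) + E
  EsE : E * star v * (E * star v) = E * star v
  vE : star v * E * (star v * E) = star v * E
  hE : star (E * star v) = E * star v
  hvE : star (star v * E) = star v * E

namespace BoD

variable {c s v E : B} (h : BoD c s v E)

/-- The rotation matrix. -/
noncomputable def R (c s : B) : MM (Fin 2) B := m2 c (-s) s c

/-- The diagonal matrix. -/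
noncomputable def Dg (v : B) : MM (Fin 2) B := m2 v 0 0 1

/-- The projection on the second coordinate. -/
noncomputable def pp (B : Type) [CStarAlgebra B] : MM (Fin 2) B := m2 0 0 0 1

/-- The Bott projection, in terms of `c, s, v`. -/
noncomputable def Bo (c s v : B) : MM (Fin 2) B :=
  m2 (c * c * (s * s) * (2 - v - star v))
    (c * s * (s * s) * (star v - 1) + c * s * (c * c) * (1 - v))
    (c * s * (s * s) * (v - 1) + c * s * (c * c) * (1 - star v))
    (1 - 2 * (c * c * (s * s)) + c * c * (s * s) * (v + star v))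

include h

theorem m2_R_star : star (R c s) = m2 c s (-s) c := by
  unfold R
  rw [m2_star, star_neg, h.cs, h.ss]

omit h in
theorem m2_Dg_star (v : B) : star (Dg v) = m2 (star v) 0 0 1 := by
  unfold Dg
  rw [m2_star, star_zero, star_one]

/-- The rewriting rules. -/
theorem m2_rules : s * c = c * s ∧ v * c = c * v + E ∧ v * s = s * v - E ∧
    star v * c = c * star v - star E ∧ star v * s = s * star v + star E ∧
    c * star E = star E ∧ s * star E = 0 ∧ star E * c = 0 ∧ star E * s = star E := by
  have g1 := congrArg star h.cv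
  have g2 := congrArg star h.sv
  have g3 := congrArg star h.Ec
  have g4 := congrArg star h.Es
  have g5 := congrArg star h.cE
  have g6 := congrArg star h.sE
  rw [star_mul, star_sub, star_mul, h.cs] at g1
  rw [star_mul, star_add, star_mul, h.ss] at g2
  rw [star_mul, h.cs] at g3
  rw [star_mul, h.ss, star_zero] at g4
  rw [star_mul, h.cs, star_zero] at g5
  rw [star_mul, h.ss] at g6
  refine ⟨h.comm.symm, ?_, ?_, g1, g2, g3, g4, g5, g6⟩
  · rw [h.cv, sub_add_cancel]
  · rw [h.sv, add_sub_cancel_right]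

/-- The matrix in the middle of the main identity. -/
theorem m2_mid : Dg v * R c s * pp B * star (R c s) * star (Dg v) + m2 (E * star v) 0 0 0 =
    m2 (s * s) (-(v * (s * c))) (-(c * s * star v)) (c * c) := by
  rw [m2_R_star h, m2_Dg_star]
  unfold Dg R pp
  rw [m2_mul, m2_mul, m2_mul, m2_mul, m2_add]
  refine m2_congr ?_ ?_ ?_ ?_
  · have e1 : s * s = (v * (s * s) + E) * star v := by
      rw [← h.sqE, mul_assoc, h.v2, mul_one]
    rw [e1]
    simp only [mul_zero, zero_mul, zero_add, add_zero, mul_one, mul_neg, neg_mul,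
      neg_neg, add_mul, mul_assoc]
  · simp only [mul_zero, zero_mul, zero_add, add_zero, mul_one, mul_neg, neg_mul, mul_assoc]
  · simp only [mul_zero, zero_mul, zero_add, add_zero, one_mul, mul_one, mul_neg, neg_mul,
      neg_zero, mul_assoc]
  · simp only [mul_zero, zero_mul, zero_add, add_zero, one_mul, mul_one, mul_neg, neg_mul,
      neg_zero]

theorem R_unitary : star (R c s) * R c s = 1 ∧ R c s * star (R c s) = 1 := by
  have hs : star (R c s) = m2 c s (-s) c := m2_R_star h
  rw [hs, m2_one]
  unfold R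
  rw [m2_mul, m2_mul]
  constructor
  · refine m2_congr h.sq ?_ ?_ ?_
    · rw [mul_neg, h.comm, neg_add_cancel]
    · rw [neg_mul, h.comm, neg_add_cancel]
    · rw [neg_mul, mul_neg, neg_neg, add_comm]
      exact h.sq
  · refine m2_congr ?_ ?_ ?_ ?_
    · rw [neg_mul, mul_neg, neg_neg]
      exact h.sq
    · rw [neg_mul, h.comm, add_neg_cancel]
    · rw [mul_neg, h.comm, add_neg_cancel]
    · rw [add_comm]
      exact h.sq

theorem Dg_unitary : star (Dg v) * Dg v = 1 ∧ Dg v * star (Dg v) = 1 := by
  have hs : star (Dg v) = m2 (star v) 0 0 1 := m2_Dg_star v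
  rw [hs, m2_one]
  unfold Dg
  rw [m2_mul, m2_mul]
  simp only [mul_zero, zero_mul, add_zero, zero_add, mul_one, h.v1, h.v2, and_self]

/-- The functions `c² s²`, `c s`, … vanish at both ends, so they commute with `v`:
`c s v = v c s` because `c s v = c (v s + E) = c v s = (v c - E) s = v c s`. -/
theorem cs_comm : c * s * v = v * (c * s) := by
  have h1 : c * s * v = c * (v * s) := by
    rw [mul_assoc, h.sv, mul_add, h.cE, add_zero]
  rw [h1, ← mul_assoc, h.cv, sub_mul, h.Es, sub_zero, mul_assoc]

/-- The main identity, with `e0 = E v*`.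

Proof. `T = R* D R` has the entries `T12 = s c - c v s`, `T22 = c² + s v s`, and
`R* D R p R* D* R = T p T*` has the entries `T_i2 T_j2*`. Rules: `v s² v* = s² - e0`
(from `sqE`), `c e0 = 0`, `s e0 = e0`, `c v = v c - E`, `s v = v s + E`, `c E = 0`, `E c = E`, `E s = 0`,
`v* s = s v* + ..`.
Entry 11: `s²c² - s c s v* c - c v s s c + c v s² v* c`; `c v s² v* c = c (s² - e0) c = c² s²`;
`c v s² c = v c² s²` since `c v s² c = (v c - E) s² c` and `E s = 0`. Result `c² s² (2 - v - v*)`.
Entry 12: `s c³ + s²c v* s - c v s c² - c v s² v* s`, where `c v s² v* s = c s³`,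
`s²c v* s = c s³ v*` and `c v s c² = c³ s v`. Result `c s³ (v* - 1) + c³ s (1 - v)`.
Entry 22: `c⁴ + c² s v* s + s v s c² + s v s² v* s`, where `s v s² v* s = s⁴ - e0`,
`s v s c² = v s² c²`. Result `c⁴ + s⁴ + s² c² (v + v*) - e0`.
The extra term `R* (e0 ⊗ E11) R` is `e0 ⊗ E22` because `c e0 = 0` and `s e0 s = e0`. -/
theorem main : Bo c s v =
    star (R c s) * (Dg v * R c s * pp B * star (R c s) * star (Dg v) +
      m2 (E * star v) 0 0 0) * R c s := by
  rw [m2_mid h, m2_R_star h]
  unfold Bo R
  rw [m2_mul, m2_mul]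
  have hw := m2_rules h
  obtain ⟨r1, r2, r3, r4, r5, r6, r7, r8, r9⟩ := hw
  have t0 : ∀ t, s * (c * t) = c * (s * t) := fun t => by rw [← mul_assoc, r1, mul_assoc]
  have t1 : ∀ t, v * (c * t) = c * (v * t) + E * t := fun t => by
    rw [← mul_assoc, r2, add_mul, mul_assoc]
  have t2 : ∀ t, v * (s * t) = s * (v * t) - E * t := fun t => by
    rw [← mul_assoc, r3, sub_mul, mul_assoc]
  have t3 : ∀ t, star v * (c * t) = c * (star v * t) - star E * t := fun t => by
    rw [← mul_assoc, r4, sub_mul, mul_assoc]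
  have t4 : ∀ t, star v * (s * t) = s * (star v * t) + star E * t := fun t => by
    rw [← mul_assoc, r5, add_mul, mul_assoc]
  have t5 : ∀ t, c * (E * t) = 0 := fun t => by rw [← mul_assoc, h.cE, zero_mul]
  have t6 : ∀ t, s * (E * t) = E * t := fun t => by rw [← mul_assoc, h.sE]
  have t7 : ∀ t, E * (c * t) = E * t := fun t => by rw [← mul_assoc, h.Ec]
  have t8 : ∀ t, E * (s * t) = 0 := fun t => by rw [← mul_assoc, h.Es, zero_mul]
  have t9 : ∀ t, c * (star E * t) = star E * t := fun t => by rw [← mul_assoc, r6]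
  have t10 : ∀ t, s * (star E * t) = 0 := fun t => by rw [← mul_assoc, r7, zero_mul]
  have t11 : ∀ t, star E * (c * t) = 0 := fun t => by rw [← mul_assoc, r8, zero_mul]
  have t12 : ∀ t, star E * (s * t) = star E * t := fun t => by rw [← mul_assoc, r9]
  have sq4 : c * (c * (c * c)) + s * (s * (s * s)) + (2 : B) * (c * (c * (s * s))) = 1 := by
    have e1 : (c * c + s * s) * (c * c + s * s) = 1 := by rw [h.sq, one_mul]
    rw [← e1]
    simp only [mul_add, add_mul, mul_assoc, r1, t0, two_mul]
    abel
  refine m2_congr ?_ ?_ ?_ ?_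
  · simp only [mul_add, add_mul, mul_sub, sub_mul, mul_neg, neg_mul, mul_assoc, r1, r2, r3, r4,
      r5, r6, r7, r8, r9, t0, t1, t2, t3, t4, t5, t6, t7, t8, t9, t10, t11, t12, h.cE, h.sE, h.Ec,
      h.Es, mul_zero, zero_mul, mul_one, mul_two]
    abel
  · simp only [mul_add, add_mul, mul_sub, sub_mul, mul_neg, neg_mul, mul_assoc, r1, r2, r3, r4,
      r5, r6, r7, r8, r9, t0, t1, t2, t3, t4, t5, t6, t7, t8, t9, t10, t11, t12, h.cE, h.sE, h.Ec,
      h.Es, mul_zero, zero_mul, mul_one]
    abel
  · simp only [mul_add, add_mul, mul_sub, sub_mul, mul_neg, neg_mul, mul_assoc, r1, r2, r3, r4,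
      r5, r6, r7, r8, r9, t0, t1, t2, t3, t4, t5, t6, t7, t8, t9, t10, t11, t12, h.cE, h.sE, h.Ec,
      h.Es, mul_zero, zero_mul, mul_one]
    abel
  · rw [← sq4]
    simp only [mul_add, add_mul, mul_sub, sub_mul, mul_neg, neg_mul, mul_assoc, r1, r2, r3, r4,
      r5, r6, r7, r8, r9, t0, t1, t2, t3, t4, t5, t6, t7, t8, t9, t10, t11, t12, h.cE, h.sE, h.Ec,
      h.Es, mul_zero, zero_mul, mul_one]
    abel

/-- `C = R* D R` conjugates the Bott projection to `p + eN ⊗ E11`, `eN = v* E`. -/
theorem conj : star (star (R c s) * Dg v * R c s) * Bo c s v * (star (R c s) * Dg v * R c s) =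
    pp B + m2 (star v * E) 0 0 0 := by
  obtain ⟨u1, u2⟩ := h.R_unitary
  obtain ⟨d1, d2⟩ := h.Dg_unitary
  have hm := h.main
  have e1 : R c s * Bo c s v * star (R c s) =
      Dg v * R c s * pp B * star (R c s) * star (Dg v) + m2 (E * star v) 0 0 0 := by
    rw [hm]
    calc R c s * (star (R c s) * (Dg v * R c s * pp B * star (R c s) * star (Dg v) +
          m2 (E * star v) 0 0 0) * R c s) * star (R c s)
        = (R c s * star (R c s)) * (Dg v * R c s * pp B * star (R c s) * star (Dg v) +
          m2 (E * star v) 0 0 0) * (R c s * star (R c s)) := by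
          simp only [mul_assoc]
      _ = _ := by rw [u2, one_mul, mul_one]
  have e2 : star (Dg v) * m2 (E * star v) 0 0 0 * Dg v = m2 (star v * E) 0 0 0 := by
    rw [m2_Dg_star]
    unfold Dg
    rw [m2_mul, m2_mul]
    refine m2_congr ?_ ?_ ?_ ?_
    · simp only [mul_zero, zero_mul, add_zero, zero_add]
      rw [mul_assoc, mul_assoc, h.v1, mul_one]
    · simp
    · simp
    · simp
  have e3 : star (R c s) * m2 (star v * E) 0 0 0 * R c s = m2 (star v * E) 0 0 0 := by
    rw [m2_R_star h]
    unfold R
    rw [m2_mul, m2_mul]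
    have k1 : c * (star v * E) = star v * E := by
      have := congrArg star (show star v * E * c = star v * E by rw [mul_assoc, h.Ec])
      rw [star_mul, h.hvE, h.cs] at this
      exact this
    have k2 : s * (star v * E) = 0 := by
      have := congrArg star (show star v * E * s = 0 by rw [mul_assoc, h.Es, mul_zero])
      rw [star_mul, h.hvE, h.ss, star_zero] at this
      exact this
    refine m2_congr ?_ ?_ ?_ ?_
    · simp only [mul_zero, zero_mul, add_zero, k1]
      rw [mul_assoc, h.Ec]
    · simp only [mul_zero, zero_mul, add_zero, k1, mul_neg]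
      rw [mul_assoc, h.Es, mul_zero, neg_zero]
    · simp only [mul_zero, zero_mul, add_zero, neg_mul, k2, neg_zero]
    · simp only [mul_zero, zero_mul, add_zero, neg_mul, k2, neg_zero]
  have e4 : star (star (R c s) * Dg v * R c s) = star (R c s) * star (Dg v) * R c s := by
    rw [star_mul, star_mul, star_star, mul_assoc]
  rw [e4]
  calc star (R c s) * star (Dg v) * R c s * Bo c s v * (star (R c s) * Dg v * R c s)
      = star (R c s) * (star (Dg v) * (R c s * Bo c s v * star (R c s)) * Dg v) * R c s := by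
        simp only [mul_assoc]
    _ = star (R c s) * ((star (Dg v) * Dg v) * (R c s * pp B * star (R c s)) *
          (star (Dg v) * Dg v) + star (Dg v) * m2 (E * star v) 0 0 0 * Dg v) * R c s := by
        rw [e1]
        simp only [mul_add, add_mul, mul_assoc]
    _ = (star (R c s) * R c s) * pp B * (star (R c s) * R c s) +
          star (R c s) * m2 (star v * E) 0 0 0 * R c s := by
        rw [d1, e2]
        simp only [mul_add, add_mul, mul_assoc, one_mul, mul_one]
    _ = _ := by rw [u1, e3, one_mul, mul_one]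

end BoD

/-- For a point of the torus: `c, s` real numbers with `c² + s² = 1`, `y` of modulus one. The Bott
matrix is a projection. -/
theorem Bo_proj (c s : ℝ) (h : c * c + s * s = 1) (y : ℂ) (hy : star y * y = 1) :
    BoD.Bo (B := ℂ) c s y * BoD.Bo (B := ℂ) c s y = BoD.Bo (B := ℂ) c s y ∧
      star (BoD.Bo (B := ℂ) c s y) = BoD.Bo (B := ℂ) c s y := by
  have hd : BoD (B := ℂ) (c : ℂ) (s : ℂ) y 0 := by
    have hc : star (c : ℂ) = c := Complex.conj_ofReal c
    have hs : star (s : ℂ) = s := Complex.conj_ofReal s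
    have hsq : (c : ℂ) * c + (s : ℂ) * s = 1 := by
      rw [← Complex.ofReal_mul, ← Complex.ofReal_mul, ← Complex.ofReal_add, h, Complex.ofReal_one]
    exact
      { cs := hc, ss := hs, comm := mul_comm _ _, sq := hsq, v1 := hy,
        v2 := by rw [mul_comm]; exact hy
        cv := by rw [sub_zero]; exact mul_comm _ _
        sv := by rw [add_zero]; exact mul_comm _ _
        cE := mul_zero _, sE := mul_zero _, Ec := zero_mul _, Es := zero_mul _
        sqE := by rw [add_zero]; exact mul_comm _ _
        EsE := by simp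
        vE := by simp
        hE := by simp
        hvE := by simp }
  obtain ⟨u1, u2⟩ := hd.R_unitary
  obtain ⟨d1, d2⟩ := hd.Dg_unitary
  have hm := hd.main
  have hz : m2 ((0 : ℂ) * star y) 0 0 0 = 0 := by
    rw [zero_mul]
    refine MM.ext fun i j => ?_
    rw [MM.e_zero]
    fin_cases i <;> fin_cases j <;> rfl
  rw [hz, add_zero] at hm
  have hp1 : BoD.pp ℂ * BoD.pp ℂ = BoD.pp ℂ := by
    unfold BoD.pp
    rw [m2_mul]
    refine m2_congr ?_ ?_ ?_ ?_ <;> simp
  have hp2 : star (BoD.pp ℂ) = BoD.pp ℂ := by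
    unfold BoD.pp
    rw [m2_star]
    refine m2_congr ?_ ?_ ?_ ?_ <;> simp
  obtain ⟨U, hU⟩ : ∃ U, U = star (BoD.R (c : ℂ) s) * BoD.Dg y * BoD.R (c : ℂ) s := ⟨_, rfl⟩
  have hUs : star U = star (BoD.R (c : ℂ) s) * star (BoD.Dg y) * BoD.R (c : ℂ) s := by
    rw [hU, star_mul, star_mul, star_star, mul_assoc]
  have hU1 : star U * U = 1 := by
    rw [hUs, hU]
    calc star (BoD.R (c : ℂ) s) * star (BoD.Dg y) * BoD.R (c : ℂ) s *
          (star (BoD.R (c : ℂ) s) * BoD.Dg y * BoD.R (c : ℂ) s)
        = star (BoD.R (c : ℂ) s) * (star (BoD.Dg y) * (BoD.R (c : ℂ) s *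
          star (BoD.R (c : ℂ) s)) * BoD.Dg y) * BoD.R (c : ℂ) s := by simp only [mul_assoc]
      _ = 1 := by rw [u2, mul_one, d1, mul_one, u1]
  have hB : BoD.Bo (c : ℂ) s y = U * BoD.pp ℂ * star U := by
    rw [hm, hUs, hU]
    simp only [mul_assoc]
  rw [hB]
  constructor
  · calc U * BoD.pp ℂ * star U * (U * BoD.pp ℂ * star U)
        = U * (BoD.pp ℂ * (star U * U) * BoD.pp ℂ) * star U := by simp only [mul_assoc]
      _ = U * BoD.pp ℂ * star U := by rw [hU1, mul_one, hp1]
  · rw [star_mul, star_mul, star_star, hp2, mul_assoc]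

end H7c
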