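import Pool.Agent.H.MP_7b4a29_c.CycF
import Pool.Agent.H.MP_7b4a29_c.M2

/-!
# Transfer matrices between cycles
-/

open Filter Topology

namespace H7c

/-- The hypothesis that enough rows exist, with a norm bound. -/
def RowyS (I : Ix) {P : Type} [CStarAlgebra P] (τ : P →ₗ[ℂ] ℂ) : Prop :=
  ∀ (S : Sz I) (n : ℕ) (a : Fin n → RM S P), (∀ i, JM S τ (a i)) →
    ∃ X : Row S P, (∀ l, ‖∑ i, X.v l i * star (X.v l i)‖ ≤ 4) ∧ ∀ i, Row.gram X X * a i = a i

theorem RowyS.rowy {I : Ix} {P : Type} [CStarAlgebra P] {τ : P →ₗ[ℂ] ℂ} (h : RowyS I τ) :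
    Rowy I τ := by
  intro S n a ha
  obtain ⟨X, _, hX⟩ := h S n a ha
  exact ⟨X, hX⟩

variable {D : Type} [CStarAlgebra D] {J : D → Prop} {Y : Type} [TopologicalSpace Y]
  [CompactSpace Y] {y0 : Y}

/-- The diagonal matrix with the entries `c.κ f` and `(T k).κ f`. -/
noncomputable def dgT {n : Type} [Fintype n] [DecidableEq n] (c : Cyc J Y y0)
    (T : n → Cyc J Y y0) (f : C(Y, ℂ)) : MM (Option n) D :=
  MM.of (fun i j => if i = j then (match i with | none => c.κ f | some k => (T k).κ f) else 0)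

/-- The cycles `c` and `c'` are transferred to each other, up to `e` on `F`, by a unitary matrix `G`
equal to `1` modulo `J`, after adding the same cycles `T k`. -/
def GTn (c c' : Cyc J Y y0) (F : Finset C(Y, ℂ)) (e : ℝ) : Prop :=
  ∃ (n : Type) (_ : Fintype n) (_ : DecidableEq n) (T : n → Cyc J Y y0) (G : MM (Option n) D),
    star G * G = 1 ∧ G * star G = 1 ∧ (∀ i j, J (MM.e (G - 1) i j)) ∧
    ∀ f ∈ F, ‖G * dgT c T f - dgT c' T f * G‖ ≤ e

/-! ### Auxiliary material -/

section gtaAux

variable {n m : Type} [Fintype n] [DecidableEq n] [Fintype m] [DecidableEq m]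

/-- Extension by zero. -/
noncomputable def gta_E (i : n → m) (x : MM n D) : MM m D :=
  MM.of (fun a b => Function.extend i (fun p => Function.extend i (fun q => MM.e x p q) 0 b) 0 a)

theorem gta_E_ii {i : n → m} (hi : Function.Injective i) (x : MM n D) (p q : n) :
    MM.e (gta_E i x) (i p) (i q) = MM.e x p q := by
  rw [gta_E, MM.e_of, hi.extend_apply, hi.extend_apply]

theorem gta_E_l {i : n → m} (x : MM n D) (a b : m) (ha : a ∉ Set.range i) :
    MM.e (gta_E i x) a b = 0 := by
  rw [gta_E, MM.e_of, Function.extend_apply' _ _ _ (fun h => ha h)]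
  rfl

theorem gta_E_r {i : n → m} (hi : Function.Injective i) (x : MM n D) (a b : m)
    (hb : b ∉ Set.range i) : MM.e (gta_E i x) a b = 0 := by
  by_cases ha : a ∈ Set.range i
  · obtain ⟨p, rfl⟩ := ha
    rw [gta_E, MM.e_of, hi.extend_apply, Function.extend_apply' _ _ _ (fun h => hb h)]
    rfl
  · exact gta_E_l x a b ha

theorem gta_ext {i : n → m} {x y : MM m D} (h : ∀ p q, MM.e x (i p) (i q) = MM.e y (i p) (i q))
    (h1 : ∀ a b, a ∉ Set.range i → MM.e x a b = MM.e y a b)
    (h2 : ∀ a b, b ∉ Set.range i → MM.e x a b = MM.e y a b) : x = y := by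
  refine MM.ext fun a b => ?_
  by_cases ha : a ∈ Set.range i
  · by_cases hb : b ∈ Set.range i
    · obtain ⟨p, rfl⟩ := ha
      obtain ⟨q, rfl⟩ := hb
      exact h p q
    · exact h2 a b hb
  · exact h1 a b ha

/-- Extension by zero as a homomorphism. -/
noncomputable def gta_emb (i : n → m) (hi : Function.Injective i) : MM n D →⋆ₙₐ[ℂ] MM m D where
  toFun := gta_E i
  map_smul' c x := by
    refine gta_ext (i := i) (fun p q => ?_) (fun a b h => ?_) (fun a b h => ?_)
    · rw [MM.e_smul, gta_E_ii hi, gta_E_ii hi, MM.e_smul]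
      rfl
    · rw [MM.e_smul, gta_E_l _ _ _ h, gta_E_l _ _ _ h, smul_zero]
    · rw [MM.e_smul, gta_E_r hi _ _ _ h, gta_E_r hi _ _ _ h, smul_zero]
  map_zero' := by
    refine gta_ext (i := i) (fun p q => ?_) (fun a b h => ?_) (fun a b h => ?_)
    · rw [gta_E_ii hi, MM.e_zero, MM.e_zero]
    · rw [MM.e_zero, gta_E_l _ _ _ h]
    · rw [MM.e_zero, gta_E_r hi _ _ _ h]
  map_add' x y := by
    refine gta_ext (i := i) (fun p q => ?_) (fun a b h => ?_) (fun a b h => ?_)
    · rw [MM.e_add, gta_E_ii hi, gta_E_ii hi, gta_E_ii hi, MM.e_add]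
    · rw [MM.e_add, gta_E_l _ _ _ h, gta_E_l _ _ _ h, gta_E_l _ _ _ h, add_zero]
    · rw [MM.e_add, gta_E_r hi _ _ _ h, gta_E_r hi _ _ _ h, gta_E_r hi _ _ _ h, add_zero]
  map_mul' x y := by
    refine gta_ext (i := i) (fun p q => ?_) (fun a b h => ?_) (fun a b h => ?_)
    · rw [gta_E_ii hi, MM.e_mul, MM.e_mul]
      refine Fintype.sum_of_injective i hi _ _ (fun k hk => ?_) (fun k => ?_)
      · rw [gta_E_l y _ _ hk, mul_zero]
      · rw [gta_E_ii hi, gta_E_ii hi]
    · rw [MM.e_mul, gta_E_l _ _ _ h]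
      exact (Finset.sum_eq_zero fun k _ => by rw [gta_E_l x _ _ h, zero_mul]).symm
    · rw [MM.e_mul, gta_E_r hi _ _ _ h]
      exact (Finset.sum_eq_zero fun k _ => by rw [gta_E_r hi y _ _ h, mul_zero]).symm
  map_star' x := by
    refine gta_ext (i := i) (fun p q => ?_) (fun a b h => ?_) (fun a b h => ?_)
    · rw [MM.e_star, gta_E_ii hi, gta_E_ii hi, MM.e_star]
    · rw [MM.e_star, gta_E_l _ _ _ h, gta_E_r hi _ _ _ h, star_zero]
    · rw [MM.e_star, gta_E_r hi _ _ _ h, gta_E_l _ _ _ h, star_zero]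

theorem gta_emb_apply (i : n → m) (hi : Function.Injective i) (x : MM n D) :
    gta_emb i hi x = gta_E i x := rfl

/-- Multiplication by diagonal matrices. -/
theorem gta_mul_diag (x : MM n D) (d : n → D) (i j : n) :
    MM.e (x * MM.of (fun i j => if i = j then d i else 0)) i j = MM.e x i j * d j := by
  rw [MM.e_mul, Finset.sum_eq_single j]
  · rw [MM.e_of, if_pos rfl]
  · intro k _ hk
    rw [MM.e_of, if_neg hk, mul_zero]
  · intro h
    exact absurd (Finset.mem_univ _) h

theorem gta_diag_mul (x : MM n D) (d : n → D) (i j : n) :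
    MM.e (MM.of (fun i j => if i = j then d i else 0) * x) i j = d i * MM.e x i j := by
  rw [MM.e_mul, Finset.sum_eq_single i]
  · rw [MM.e_of, if_pos rfl]
  · intro k _ hk
    rw [MM.e_of, if_neg (Ne.symm hk), zero_mul]
  · intro h
    exact absurd (Finset.mem_univ _) h

/-- The diagonal of `dgT`. -/
noncomputable def gta_d {k : Type} (c : Cyc J Y y0) (T : k → Cyc J Y y0) (f : C(Y, ℂ)) :
    Option k → D
  | none => c.κ f
  | some j => (T j).κ f

theorem gta_dgT (c : Cyc J Y y0) (T : n → Cyc J Y y0) (f : C(Y, ℂ)) :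
    dgT c T f = MM.of (fun i j => if i = j then gta_d c T f i else 0) := by
  refine MM.ext fun i j => ?_
  rw [dgT, MM.e_of, MM.e_of]
  cases i <;> rfl

theorem gta_J_sum (hJ : Idl J) {k : Type} (s : Finset k) (g : k → D) (h : ∀ i ∈ s, J (g i)) :
    J (∑ i ∈ s, g i) := Finset.sum_induction g J (fun a b => hJ.add a b) hJ.zero h

theorem gta_J_mul (hJ : Idl J) {A B : MM n D} (hA : ∀ i j, J (MM.e (A - 1) i j))
    (hB : ∀ i j, J (MM.e (B - 1) i j)) (i j : n) : J (MM.e (A * B - 1) i j) := by
  have h1 : A * B - 1 = (A - 1) * B + (B - 1) := by noncomm_ring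
  rw [h1, MM.e_add]
  refine hJ.add _ _ ?_ (hB i j)
  rw [MM.e_mul]
  exact gta_J_sum hJ _ _ fun k _ => hJ.mul_right _ _ (hA i k)

theorem gta_J_star (hJ : Idl J) {A : MM n D} (hA : ∀ i j, J (MM.e (A - 1) i j)) (i j : n) :
    J (MM.e (star A - 1) i j) := by
  have h1 : star A - 1 = star (A - 1) := by rw [star_sub, star_one]
  rw [h1, MM.e_star]
  exact hJ.star _ (hA j i)

theorem gta_J_emb (hJ : Idl J) {i : n → m} {G : MM n D} {G' : MM m D}
    (hG : ∀ a b, J (MM.e (G - 1) a b)) (hi : Function.Injective i)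
    (h1 : ∀ a b, MM.e G' (i a) (i b) = MM.e G a b)
    (h2 : ∀ a b, a ∉ Set.range i → MM.e G' a b = if a = b then 1 else 0)
    (h3 : ∀ a b, b ∉ Set.range i → MM.e G' a b = if a = b then 1 else 0) (a b : m) :
    J (MM.e (G' - 1) a b) := by
  rw [MM.e_sub, MM.e_one]
  by_cases ha : a ∈ Set.range i
  · by_cases hb : b ∈ Set.range i
    · obtain ⟨p, rfl⟩ := ha
      obtain ⟨q, rfl⟩ := hb
      have h := hG p q
      rw [MM.e_sub, MM.e_one] at h
      rw [h1]
      by_cases hpq : p = q
      · rw [if_pos hpq] at h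
        rw [if_pos (congrArg i hpq)]
        exact h
      · rw [if_neg hpq] at h
        rw [if_neg (fun h' => hpq (hi h'))]
        exact h
    · rw [h3 a b hb, sub_self]
      exact hJ.zero
  · rw [h2 a b ha, sub_self]
    exact hJ.zero

end gtaAux

variable (hJ : Idl J)

/-- A matrix over `Option n` as a matrix over `Option n'` for an embedding of index sets, with the
identity on the rest. -/
theorem exists_embed {n m : Type} [Fintype n] [DecidableEq n] [Fintype m] [DecidableEq m]
    (i : n → m) (hi : Function.Injective i) (G : MM n D) (h1 : star G * G = 1)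
    (h2 : G * star G = 1) : ∃ G' : MM m D, star G' * G' = 1 ∧ G' * star G' = 1 ∧
      (∀ a b, MM.e G' (i a) (i b) = MM.e G a b) ∧
      (∀ a b, a ∉ Set.range i → MM.e G' a b = if a = b then 1 else 0) ∧
      ∀ a b, b ∉ Set.range i → MM.e G' a b = if a = b then 1 else 0 := by
  have e1 : star (G - 1) * (G - 1) + star (G - 1) + (G - 1) = 0 := by
    have e3 : star (G - 1) * (G - 1) + star (G - 1) + (G - 1) = star G * G - 1 := by
      rw [star_sub, star_one]
      noncomm_ring
    rw [e3, h1, sub_self]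
  have e2 : (G - 1) * star (G - 1) + star (G - 1) + (G - 1) = 0 := by
    have e3 : (G - 1) * star (G - 1) + star (G - 1) + (G - 1) = G * star G - 1 := by
      rw [star_sub, star_one]
      noncomm_ring
    rw [e3, h2, sub_self]
  refine ⟨gta_emb i hi (G - 1) + 1, ?_, ?_, fun a b => ?_, fun a b h => ?_, fun a b h => ?_⟩
  · have h3 := congrArg (gta_emb i hi) e1
    rw [map_add, map_add, map_mul, map_star, map_zero] at h3
    rw [star_add, star_one, add_mul, mul_add, one_mul, mul_one, ← add_assoc, h3, zero_add]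
  · have h3 := congrArg (gta_emb i hi) e2
    rw [map_add, map_add, map_mul, map_star, map_zero] at h3
    have h4 : (gta_emb i hi (G - 1) + 1) * star (gta_emb i hi (G - 1) + 1) =
        gta_emb i hi (G - 1) * star (gta_emb i hi (G - 1)) + star (gta_emb i hi (G - 1)) +
          gta_emb i hi (G - 1) + 1 := by
      rw [star_add, star_one]
      noncomm_ring
    rw [h4, h3, zero_add]
  · rw [MM.e_add, gta_emb_apply, gta_E_ii hi, MM.e_sub, MM.e_one, MM.e_one]
    by_cases h : a = b
    · rw [if_pos h, if_pos (congrArg i h), sub_add_cancel]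
    · rw [if_neg h, if_neg (fun h' => h (hi h')), sub_zero, add_zero]
  · rw [MM.e_add, gta_emb_apply, gta_E_l _ _ _ h, zero_add, MM.e_one]
  · rw [MM.e_add, gta_emb_apply, gta_E_r hi _ _ _ h, zero_add, MM.e_one]

/-- The norm of a matrix supported in the range of an embedding is the norm of the small matrix. -/
theorem norm_embed {n m : Type} [Fintype n] [DecidableEq n] [Fintype m] [DecidableEq m]
    (i : n → m) (hi : Function.Injective i) (x : MM n D) (y : MM m D)
    (h : ∀ a b, MM.e y (i a) (i b) = MM.e x a b)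
    (h1 : ∀ a b, a ∉ Set.range i → MM.e y a b = 0) (h2 : ∀ a b, b ∉ Set.range i → MM.e y a b = 0) :
    ‖y‖ ≤ ‖x‖ := by
  have e1 : y = gta_emb i hi x := by
    refine gta_ext (i := i) (fun p q => ?_) (fun a b ha => ?_) (fun a b hb => ?_)
    · rw [h, gta_emb_apply, gta_E_ii hi]
    · rw [h1 a b ha, gta_emb_apply, gta_E_l _ _ _ ha]
    · rw [h2 a b hb, gta_emb_apply, gta_E_r hi _ _ _ hb]
  rw [e1]
  exact NonUnitalStarAlgHom.norm_apply_le (gta_emb i hi) x

section gtaAux2

/-- The error of an embedded matrix. -/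
theorem gta_err {k k' : Type} [Fintype k] [DecidableEq k] [Fintype k'] [DecidableEq k']
    {i : Option k → Option k'} (hi : Function.Injective i)
    (c c' : Cyc J Y y0) (T : k → Cyc J Y y0) (T' : k' → Cyc J Y y0) (f : C(Y, ℂ))
    {G : MM (Option k) D} {G' : MM (Option k') D}
    (h1 : ∀ a b, MM.e G' (i a) (i b) = MM.e G a b)
    (h2 : ∀ a b, a ∉ Set.range i → MM.e G' a b = if a = b then 1 else 0)
    (h3 : ∀ a b, b ∉ Set.range i → MM.e G' a b = if a = b then 1 else 0)
    (e1 : ∀ a, gta_d c T' f (i a) = gta_d c T f a) (e2 : ∀ a, gta_d c' T' f (i a) = gta_d c' T f a)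
    (e3 : ∀ a, a ∉ Set.range i → gta_d c T' f a = gta_d c' T' f a) {ε : ℝ}
    (he : ‖G * dgT c T f - dgT c' T f * G‖ ≤ ε) :
    ‖G' * dgT c T' f - dgT c' T' f * G'‖ ≤ ε := by
  refine le_trans ?_ he
  refine norm_embed i hi _ _ (fun a b => ?_) (fun a b ha => ?_) (fun a b hb => ?_)
  · rw [gta_dgT, gta_dgT, gta_dgT, gta_dgT, MM.e_sub, MM.e_sub, gta_mul_diag, gta_diag_mul,
      gta_mul_diag, gta_diag_mul, h1, e1, e2]
  · rw [gta_dgT, gta_dgT, MM.e_sub, gta_mul_diag, gta_diag_mul, h2 a b ha]
    by_cases hab : a = b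
    · subst hab
      rw [if_pos rfl, one_mul, mul_one, e3 a ha, sub_self]
    · rw [if_neg hab, zero_mul, mul_zero, sub_self]
  · rw [gta_dgT, gta_dgT, MM.e_sub, gta_mul_diag, gta_diag_mul, h3 a b hb]
    by_cases hab : a = b
    · subst hab
      rw [if_pos rfl, one_mul, mul_one, e3 a hb, sub_self]
    · rw [if_neg hab, zero_mul, mul_zero, sub_self]

end gtaAux2

include hJ in
theorem GTn.refl (c : Cyc J Y y0) (F : Finset C(Y, ℂ)) (e : ℝ) (he : 0 ≤ e) : GTn c c F e := by
  refine ⟨Empty, inferInstance, inferInstance, fun x => x.elim, 1, by rw [star_one, one_mul],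
    by rw [star_one, mul_one], fun i j => ?_, fun f _ => ?_⟩
  · rw [sub_self, MM.e_zero]
    exact hJ.zero
  · rw [one_mul, mul_one, sub_self, norm_zero]
    exact he

include hJ in
/-- Take `star G`: `star G * dgT c' - dgT c * star G = star G * (dgT c' * G - G * dgT c) * star G`. -/
theorem GTn.symm {c c' : Cyc J Y y0} {F : Finset C(Y, ℂ)} {e : ℝ} (h : GTn c c' F e) :
    GTn c' c F e := by
  obtain ⟨n, i1, i2, T, G, h1, h2, h3, h4⟩ := h
  refine ⟨n, i1, i2, T, star G, by rw [star_star, h2], by rw [star_star, h1],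
    fun i j => gta_J_star hJ h3 i j, fun f hf => ?_⟩
  have hU : star G ∈ unitary (MM (Option n) D) :=
    Unitary.mem_iff.2 ⟨by rw [star_star, h2], by rw [star_star, h1]⟩
  have e1 : star G * dgT c' T f - dgT c T f * star G =
      star G * (dgT c' T f * G - G * dgT c T f) * star G := by
    calc star G * dgT c' T f - dgT c T f * star G
        = star G * dgT c' T f * 1 - 1 * dgT c T f * star G := by rw [mul_one, one_mul]
      _ = star G * dgT c' T f * (G * star G) - (star G * G) * dgT c T f * star G := by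
          rw [h1, h2]
      _ = star G * (dgT c' T f * G - G * dgT c T f) * star G := by noncomm_ring
  rw [e1, CStarRing.norm_mul_mem_unitary _ hU, CStarRing.norm_mem_unitary_mul _ hU, norm_sub_rev]
  exact h4 f hf

include hJ in
/-- With the index sets `n`, `n'` and the cycles `T`, `T'` take `n ⊕ n'` and `Sum.elim T T'`, and the
product `G2 * G1` of the extensions of the two matrices (`exists_embed` for
`Option n → Option (n ⊕ n')` and `Option n' → Option (n ⊕ n')`). The error of `G1` between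
`dgT c (Sum.elim T T')` and `dgT c' (Sum.elim T T')` is supported in the range of the first embedding
(`norm_embed`), the error of `G2` in the second one. -/
theorem GTn.trans {c c' c'' : Cyc J Y y0} {F : Finset C(Y, ℂ)} {e e' : ℝ} (h : GTn c c' F e)
    (h' : GTn c' c'' F e') : GTn c c'' F (e + e') := by
  obtain ⟨n, i1, i2, T, G, h1, h2, h3, h4⟩ := h
  obtain ⟨n', i1', i2', T', G', h1', h2', h3', h4'⟩ := h'
  have hi : Function.Injective (Option.map (Sum.inl : n → n ⊕ n')) :=
    Option.map_injective Sum.inl_injective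
  have hi' : Function.Injective (Option.map (Sum.inr : n' → n ⊕ n')) :=
    Option.map_injective Sum.inr_injective
  obtain ⟨A, a1, a2, a3, a4, a5⟩ := exists_embed _ hi G h1 h2
  obtain ⟨B, b1, b2, b3, b4, b5⟩ := exists_embed _ hi' G' h1' h2'
  refine ⟨n ⊕ n', inferInstance, inferInstance, Sum.elim T T', B * A, ?_, ?_, ?_, ?_⟩
  · rw [star_mul]
    calc star A * star B * (B * A) = star A * (star B * B) * A := by noncomm_ring
      _ = 1 := by rw [b1, mul_one, a1]
  · rw [star_mul]
    calc B * A * (star A * star B) = B * (A * star A) * star B := by noncomm_ring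
      _ = 1 := by rw [a2, mul_one, b2]
  · exact gta_J_mul hJ (gta_J_emb hJ h3' hi' b3 b4 b5) (gta_J_emb hJ h3 hi a3 a4 a5)
  · intro f hf
    have k1 : ‖A * dgT c (Sum.elim T T') f - dgT c' (Sum.elim T T') f * A‖ ≤ e := by
      refine gta_err hi c c' T (Sum.elim T T') f a3 a4 a5 (fun a => ?_) (fun a => ?_)
        (fun a ha => ?_) (h4 f hf)
      · cases a <;> rfl
      · cases a <;> rfl
      · match a, ha with
        | none, ha => exact absurd ⟨none, rfl⟩ ha
        | some (Sum.inl k), ha => exact absurd ⟨some k, rfl⟩ ha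
        | some (Sum.inr k), ha => rfl
    have k2 : ‖B * dgT c' (Sum.elim T T') f - dgT c'' (Sum.elim T T') f * B‖ ≤ e' := by
      refine gta_err hi' c' c'' T' (Sum.elim T T') f b3 b4 b5 (fun a => ?_) (fun a => ?_)
        (fun a ha => ?_) (h4' f hf)
      · cases a <;> rfl
      · cases a <;> rfl
      · match a, ha with
        | none, ha => exact absurd ⟨none, rfl⟩ ha
        | some (Sum.inr k), ha => exact absurd ⟨some k, rfl⟩ ha
        | some (Sum.inl k), ha => rfl
    have e1 : B * A * dgT c (Sum.elim T T') f - dgT c'' (Sum.elim T T') f * (B * A) =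
        B * (A * dgT c (Sum.elim T T') f - dgT c' (Sum.elim T T') f * A) +
        (B * dgT c' (Sum.elim T T') f - dgT c'' (Sum.elim T T') f * B) * A := by
      noncomm_ring
    rw [e1]
    refine (norm_add_le _ _).trans (add_le_add ?_ ?_)
    · rw [CStarRing.norm_mem_unitary_mul _ (Unitary.mem_iff.2 ⟨b1, b2⟩)]
      exact k1
    · rw [CStarRing.norm_mul_mem_unitary _ (Unitary.mem_iff.2 ⟨a1, a2⟩)]
      exact k2

/-- Replace the cycles by cycles with the same `κ` up to `δ` on `F`. -/
theorem GTn.congr {c c' d d' : Cyc J Y y0} {F : Finset C(Y, ℂ)} {e : ℝ} (h : GTn c c' F e)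
    (h1 : ∀ f, c.κ f = d.κ f) (h2 : ∀ f, c'.κ f = d'.κ f) : GTn d d' F e := by
  obtain ⟨n, i1, i2, T, G, g1, g2, g3, g4⟩ := h
  refine ⟨n, i1, i2, T, G, g1, g2, g3, fun f hf => ?_⟩
  have e1 : dgT d T f = dgT c T f := by
    rw [gta_dgT, gta_dgT]
    refine MM.ext fun i j => ?_
    rw [MM.e_of, MM.e_of]
    cases i with
    | none => simp only [gta_d, h1]
    | some k => rfl
  have e2 : dgT d' T f = dgT c' T f := by
    rw [gta_dgT, gta_dgT]
    refine MM.ext fun i j => ?_
    rw [MM.e_of, MM.e_of]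
    cases i with
    | none => simp only [gta_d, h2]
    | some k => rfl
  rw [e1, e2]
  exact g4 f hf

variable {I : Ix} {P : Type} [CStarAlgebra P] {τ : P →ₗ[ℂ] ℂ}

/-! ### Auxiliary material for `gtn_rel1` -/

section gtaRow

variable {S : Sz I} (X : Option Unit → Row S P)

/-- The matrix `X_i a X_j*`. -/
noncomputable def gta_K (a : RM S P) : MM (Option Unit) (R1 I P) :=
  MM.of (fun i j => Row.sand (X i) (X j) a)

theorem gta_e_K (a : RM S P) (i j : Option Unit) :
    MM.e (gta_K X a) i j = Row.sand (X i) (X j) a := MM.e_of _ _ _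

theorem gta_K_add (a b : RM S P) : gta_K X (a + b) = gta_K X a + gta_K X b := by
  refine MM.ext fun i j => ?_
  rw [MM.e_add, gta_e_K, gta_e_K, gta_e_K, map_add]

theorem gta_K_zero : gta_K X (0 : RM S P) = 0 := by
  refine MM.ext fun i j => ?_
  rw [MM.e_zero, gta_e_K, map_zero]

theorem gta_K_star (a : RM S P) : star (gta_K X a) = gta_K X (star a) := by
  refine MM.ext fun i j => ?_
  rw [MM.e_star, gta_e_K, gta_e_K, Row.sand_star]

theorem gta_K_mul (a b : RM S P) (h : ∀ i, Row.gram (X i) (X i) * b = b) :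
    gta_K X a * gta_K X b = (2 : ℂ) • gta_K X (a * b) := by
  refine MM.ext fun i j => ?_
  rw [MM.e_mul, MM.e_smul, gta_e_K, Fintype.sum_option, Fintype.sum_unique]
  simp only [gta_e_K, Row.sand_mul]
  rw [mul_assoc, mul_assoc, h, h, two_smul]

theorem gta_K_mul' (a b : RM S P) (h : ∀ i, a * Row.gram (X i) (X i) = a) :
    gta_K X a * gta_K X b = (2 : ℂ) • gta_K X (a * b) := by
  refine MM.ext fun i j => ?_
  rw [MM.e_mul, MM.e_smul, gta_e_K, Fintype.sum_option, Fintype.sum_unique]
  simp only [gta_e_K, Row.sand_mul]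
  rw [h, h, two_smul]

/-- The unitary `1 + ½ X z X*`. -/
noncomputable def gta_G (z : RM S P) : MM (Option Unit) (R1 I P) :=
  1 + (1 / 2 : ℂ) • gta_K X z

theorem gta_star_half (x : MM (Option Unit) (R1 I P)) :
    star ((1 / 2 : ℂ) • x) = (1 / 2 : ℂ) • star x := by
  rw [star_smul]
  congr 1
  norm_num

variable {X} (d : CM τ Y y0 S) (hX : ∀ i, (X i).Ad d.ζ)

include hX

theorem gta_G_u1 : star (gta_G X (d.ζ - 1)) * gta_G X (d.ζ - 1) = 1 := by
  have h1 := gta_K_mul X (star (d.ζ - 1)) (d.ζ - 1) hX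
  have h2 := congrArg (gta_K X) d.zeta_rel1
  rw [gta_K_add, gta_K_add, gta_K_zero] at h2
  have h5 : ∀ x y : MM (Option Unit) (R1 I P), (1 + y) * (1 + x) = 1 + x + (y + y * x) := by
    intro x y
    noncomm_ring
  rw [gta_G, star_add, star_one, gta_star_half, gta_K_star, h5, smul_mul_smul_comm, h1, smul_smul]
  have h3 : (1 / 2 * (1 / 2) * 2 : ℂ) = 1 / 2 := by norm_num
  rw [h3]
  have h4 : (1 : MM (Option Unit) (R1 I P)) + (1 / 2 : ℂ) • gta_K X (d.ζ - 1) +
      ((1 / 2 : ℂ) • gta_K X (star (d.ζ - 1)) +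
        (1 / 2 : ℂ) • gta_K X (star (d.ζ - 1) * (d.ζ - 1))) =
      1 + (1 / 2 : ℂ) • (gta_K X (star (d.ζ - 1)) + gta_K X (d.ζ - 1) +
        gta_K X (star (d.ζ - 1) * (d.ζ - 1))) := by
    rw [smul_add, smul_add]
    abel
  rw [h4, h2, smul_zero, add_zero]

theorem gta_G_u2 : gta_G X (d.ζ - 1) * star (gta_G X (d.ζ - 1)) = 1 := by
  have h0 : ∀ i, (d.ζ - 1) * Row.gram (X i) (X i) = d.ζ - 1 := fun i =>
    d.zeta_sub_mul_of (Row.gram_star _ _) (hX i)
  have h1 := gta_K_mul' X (d.ζ - 1) (star (d.ζ - 1)) h0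
  have h2 := congrArg (gta_K X) d.zeta_rel2
  rw [gta_K_add, gta_K_add, gta_K_zero] at h2
  have h5 : ∀ x y : MM (Option Unit) (R1 I P), (1 + y) * (1 + x) = 1 + x + (y + y * x) := by
    intro x y
    noncomm_ring
  rw [gta_G, star_add, star_one, gta_star_half, gta_K_star, h5, smul_mul_smul_comm, h1, smul_smul]
  have h3 : (1 / 2 * (1 / 2) * 2 : ℂ) = 1 / 2 := by norm_num
  rw [h3]
  have h4 : (1 : MM (Option Unit) (R1 I P)) + (1 / 2 : ℂ) • gta_K X (star (d.ζ - 1)) +
      ((1 / 2 : ℂ) • gta_K X (d.ζ - 1) +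
        (1 / 2 : ℂ) • gta_K X ((d.ζ - 1) * star (d.ζ - 1))) =
      1 + (1 / 2 : ℂ) • (gta_K X (star (d.ζ - 1)) + gta_K X (d.ζ - 1) +
        gta_K X ((d.ζ - 1) * star (d.ζ - 1))) := by
    rw [smul_add, smul_add]
    abel
  rw [h4, h2, smul_zero, add_zero]

theorem gta_G_int (f : C(Y, ℂ)) :
    gta_G X (d.ζ - 1) * MM.of (fun i j => if i = j then
      (if i = none then Row.sand (X none) (X none) (d.hat f) else 0) else 0) =
    MM.of (fun i j => if i = j then
      (if i = some () then Row.sand (X (some ())) (X (some ())) (d.hat f) else 0) else 0) *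
      gta_G X (d.ζ - 1) := by
  have k1 : ∀ i, MM.e (gta_G X (d.ζ - 1)) i none * Row.sand (X none) (X none) (d.hat f) =
      (if i = none then Row.sand (X none) (X none) (d.hat f) else 0) -
        Row.sand (X i) (X none) (d.hat f) := by
    intro i
    have h1 : Row.gram (X none) (X none) * d.hat f = d.hat f := d.mul_hat_of (hX none) f
    rw [gta_G, MM.e_add, MM.e_one, MM.e_smul, gta_e_K, add_mul, smul_mul_assoc, Row.sand_mul,
      mul_assoc, h1, d.zeta_sub_hat, map_smul, smul_smul, ite_mul, one_mul, zero_mul]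
    have h2 : (1 / 2 * -2 : ℂ) = -1 := by norm_num
    rw [h2, neg_one_smul, ← sub_eq_add_neg]
  have k2 : ∀ j, Row.sand (X (some ())) (X (some ())) (d.hat f) *
      MM.e (gta_G X (d.ζ - 1)) (some ()) j =
      (if some () = j then Row.sand (X (some ())) (X (some ())) (d.hat f) else 0) -
        Row.sand (X (some ())) (X j) (d.hat f) := by
    intro j
    have h1 : Row.gram (X (some ())) (X (some ())) * (d.ζ - 1) = d.ζ - 1 := hX (some ())
    rw [gta_G, MM.e_add, MM.e_one, MM.e_smul, gta_e_K, mul_add, mul_smul_comm, Row.sand_mul,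
      mul_assoc, h1, d.hat_zeta_sub, map_smul, smul_smul, mul_ite, mul_one, mul_zero]
    have h2 : (1 / 2 * -2 : ℂ) = -1 := by norm_num
    rw [h2, neg_one_smul, ← sub_eq_add_neg]
  refine MM.ext fun i j => ?_
  rw [gta_mul_diag, gta_diag_mul]
  match i, j with
  | none, none =>
    rw [if_pos rfl, k1, if_pos rfl, sub_self, if_neg (by simp), zero_mul]
  | none, some () =>
    rw [if_neg (by simp), mul_zero, if_neg (by simp), zero_mul]
  | some (), none =>
    rw [if_pos rfl, k1, if_neg (by simp), if_pos rfl, k2, if_neg (by simp)]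
  | some (), some () =>
    rw [if_neg (by simp), mul_zero, if_pos rfl, k2, if_pos rfl, sub_self]

theorem gta_G_J (hτ : PTr τ) (i j : Option Unit) : J1 I τ (MM.e (gta_G X (d.ζ - 1) - 1) i j) := by
  rw [gta_G, add_sub_cancel_left, MM.e_smul, gta_e_K]
  exact (J1.idl hτ).smul _ _ (Row.sand_J _ _ hτ d.j)

end gtaRow

theorem gta_triv_dgT (hJ : Idl J) (c : Cyc J Y y0) (f : C(Y, ℂ)) :
    dgT c (fun _ : Unit => Cyc.triv J Y y0 hJ) f = algebraMap ℂ (MM (Option Unit) D) (f y0) +
      MM.of (fun i j => if i = j then (if i = none then c.hat f else 0) else 0) := by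
  refine MM.ext fun i j => ?_
  rw [gta_dgT, MM.e_of, MM.e_add, MM.mmh_algebraMap, MM.e_of]
  by_cases h : i = j
  · rw [if_pos h, if_pos h, if_pos h]
    match i with
    | none =>
      rw [if_pos rfl, ← Algebra.algebraMap_eq_smul_one]
      exact c.kappa_eq f
    | some () =>
      rw [if_neg (by simp), add_zero, ← Algebra.algebraMap_eq_smul_one]
      rfl
  · rw [if_neg h, if_neg h, if_neg h, smul_zero, add_zero]

/-- Two compressions `c = X d X*`, `c' = X' d X'*` of a matrix cycle are transferred exactly, with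
`n = Unit` and the trivial cycle.

Proof. Write `z = d.ζ - 1`, `a = d.hat f`; `gram X X * z = z`, `gram X' X' * z = z`, and the same
from the right (`Cyc.zeta_sub_mul_of`, `Row.gram_star`), also for `a` in place of `z`
(`Cyc.mul_hat_of`, `Cyc.hat_mul_of`). Let
`G1 = 1 + ½ m2 (X z X*) (-X z X'*) (-X' z X*) (X' z X'*)` (`X z X'*` stands for `sand X X' z`). With
`Row.sand_mul`, `Row.sand_star`, `Cyc.zeta_rel1`, `Cyc.zeta_rel2`: `G1` is unitary
(`r* r z = 2 z` for `r = (X, -X')`), and
`G1 * m2 (X a X*) 0 0 0 = m2 0 0 (X' a X*) 0 = m2 0 0 0 (X' a X'*) * G1`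
because `z * a = -2 a`, `a * z = -2 a`. Hence `G1 (c ⊕ triv) = (triv ⊕ c') G1`.
In the same way `G2 = 1 + ½ m2 (X' z X'*) (-X' z X'*) (-X' z X'*) (X' z X'*)` satisfies
`G2 (triv ⊕ c') = (c' ⊕ triv) G2`. Take `G = G2 * G1` (transported to the index set `Option Unit` by
`MM.ri`). The entries of `G - 1` are in `J1` by `Row.sand_J` and `J1.idl`. -/
theorem gtn_rel1 (hτ : PTr τ) {c c' : C1 I τ Y y0} (h : Rel1 c c') (F : Finset C(Y, ℂ)) :
    GTn c c' F 0 := by
  obtain ⟨S, d, X, X', hX, hX', h1, h2⟩ := h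
  have hJ : Idl (J1 I τ) := J1.idl hτ
  let XA : Option Unit → Row S P := fun i => match i with
    | none => X
    | some _ => X'
  let XB : Option Unit → Row S P := fun _ => X'
  have hA : ∀ i, (XA i).Ad d.ζ := fun i => match i with
    | none => hX
    | some _ => hX'
  have hB : ∀ i, (XB i).Ad d.ζ := fun _ => hX'
  have a1 := gta_G_u1 d hA
  have a2 := gta_G_u2 d hA
  have b1 := gta_G_u1 d hB
  have b2 := gta_G_u2 d hB
  set A := gta_G XA (d.ζ - 1) with hAdef
  set B := gta_G XB (d.ζ - 1) with hBdef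
  refine ⟨Unit, inferInstance, inferInstance, fun _ => Cyc.triv (J1 I τ) Y y0 hJ, star B * A,
    ?_, ?_, ?_, ?_⟩
  · rw [star_mul, star_star]
    calc star A * B * (star B * A) = star A * (B * star B) * A := by noncomm_ring
      _ = 1 := by rw [b2, mul_one, a1]
  · rw [star_mul, star_star]
    calc star B * A * (star A * B) = star B * (A * star A) * B := by noncomm_ring
      _ = 1 := by rw [a2, mul_one, b1]
  · exact gta_J_mul hJ (gta_J_star hJ (gta_G_J d hB hτ)) (gta_G_J d hA hτ)
  · intro f _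
    have e1 : dgT c (fun _ : Unit => Cyc.triv (J1 I τ) Y y0 hJ) f = algebraMap ℂ _ (f y0) +
        MM.of (fun i j => if i = j then (if i = none then c.hat f else 0) else 0) :=
      gta_triv_dgT hJ c f
    have e2 : dgT c' (fun _ : Unit => Cyc.triv (J1 I τ) Y y0 hJ) f = algebraMap ℂ _ (f y0) +
        MM.of (fun i j => if i = j then (if i = none then c'.hat f else 0) else 0) :=
      gta_triv_dgT hJ c' f
    have i1 : A * MM.of (fun i j => if i = j then (if i = none then c.hat f else 0) else 0) =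
        MM.of (fun i j => if i = j then (if i = some () then c'.hat f else 0) else 0) * A := by
      rw [h1, h2]
      exact gta_G_int d hA f
    have i2 : star B * MM.of (fun i j => if i = j then (if i = some () then c'.hat f else 0) else 0) =
        MM.of (fun i j => if i = j then (if i = none then c'.hat f else 0) else 0) * star B := by
      have h3 := gta_G_int d hB (star f)
      have h4 := congrArg star h3
      rw [star_mul, star_mul] at h4
      have h5 : ∀ k : Option Unit, star (MM.of (fun i j => if i = j then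
          (if i = k then Row.sand X' X' (d.hat (star f)) else 0) else 0)) =
          (MM.of (fun i j => if i = j then (if i = k then Row.sand X' X' (d.hat f) else 0) else 0)
            : MM (Option Unit) (R1 I P)) := by
        intro k
        refine MM.ext fun i j => ?_
        rw [MM.e_star, MM.e_of, MM.e_of]
        by_cases hij : i = j
        · subst hij
          rw [if_pos rfl, if_pos rfl]
          by_cases hk : i = k
          · rw [if_pos hk, if_pos hk, Row.sand_star, d.hat_star, star_star]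
          · rw [if_neg hk, if_neg hk, star_zero]
        · rw [if_neg hij, if_neg (Ne.symm hij), star_zero]
      rw [h2]
      have h6 := h5 none
      have h7 := h5 (some ())
      rw [← h6, ← h7]
      exact h4.symm
    rw [e1, e2]
    have e3 : star B * A * (algebraMap ℂ (MM (Option Unit) (R1 I P)) (f y0) +
        MM.of (fun i j => if i = j then (if i = none then c.hat f else 0) else 0)) =
        (algebraMap ℂ (MM (Option Unit) (R1 I P)) (f y0) +
        MM.of (fun i j => if i = j then (if i = none then c'.hat f else 0) else 0)) *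
          (star B * A) := by
      rw [mul_add, add_mul, Algebra.commutes]
      congr 1
      rw [mul_assoc, i1, ← mul_assoc, i2, mul_assoc]
    rw [e3, sub_self, norm_zero]

end H7c
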