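import Pool.Agent.H.MP_7b4a29_c.ChB
import Pool.Agent.H.MP_7b4a29_c.GTa
import Pool.Agent.H.MP_47f0a1_an.Dft

/-!
# The chain with an additional slot: the main estimate
-/

open Filter Topology

namespace H7c

variable {D : Type} [CStarAlgebra D] {J : D → Prop} {Z : Type} [TopologicalSpace Z]
  [CompactSpace Z]

/-- The homomorphism `b` absorbs homomorphisms modulo `J`. -/
def Absb (J : D → Prop) (b : C(Z, ℂ) →⋆ₐ[ℂ] D) : Prop :=
  ∀ (X : Type) [Fintype X] [DecidableEq X] (T : X → C(Z, ℂ) →⋆ₐ[ℂ] D) (n : ℕ) (y : Fin n → D),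
    (∀ i, J (y i)) → ∃ v : X → D, (∀ x f, b f * v x = v x * T x f) ∧
      (∀ x x' i, star (v x) * v x' * y i = if x = x' then y i else 0) ∧
      (∀ x i, y i * v x = 0) ∧ ‖∑ x, v x * star (v x)‖ ≤ 4

/-- Matrices over a C*-algebra: `Matrix` and `MM`. The norm of a row times a matrix times a column,
from `MM.norm_sand_le`. -/
theorem norm_rmc {X : Type} [Fintype X] [DecidableEq X] (p v : X → D) (m : MM X D) (C E : ℝ)
    (hC : 0 ≤ C) (hE : 0 ≤ E) (hp : ‖∑ x, p x * star (p x)‖ ≤ C ^ 2)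
    (hv : ‖∑ x, v x * star (v x)‖ ≤ E ^ 2) :
    ‖∑ x, ∑ y, p x * MM.e m x y * star (v y)‖ ≤ C * E * ‖m‖ := MM.norm_sand_le m p v C E hC hE hp hv

/-! ### Auxiliary statements -/

section chC

theorem chC_dft_J (hJ : Idl J) {U : D} (h : J (1 - U * star U)) : J (H47.dft U) :=
  hJ.cfc _ h (H47.dft_arg_sa U) Real.sqrt Real.continuous_sqrt Real.sqrt_zero

theorem chC_rel {U : D} (hU : ‖U‖ ≤ 1) : H47.Rel0 U (H47.dft U) (H47.dft (star U)) 1 :=
  have hU' : ‖star U‖ ≤ 1 := by rwa [norm_star]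
  { fs := H47.dft_sa U
    gs := H47.dft_sa (star U)
    ff := H47.dft_sq U hU
    gg := by rw [H47.dft_sq _ hU', star_star]
    Uf := H47.dft_inter U hU
    fU := H47.dft_inter' U hU
    ww := by rw [star_one, one_mul]
    ww' := by rw [star_one, mul_one] }

theorem chC_entry (hJ : Idl J) {N : ℕ} {U f g : D} (hf : J f) (hg : J g) (q : Fin 2 → Fin 2 → D)
    (h00 : J (q 0 0 - U)) (h01 : J (q 0 1)) (h10 : J (q 1 0)) (h11 : J (q 1 1 - 1))
    (x y : IdO N) : J ((Gt N U f g q - Bt N U f g) x y) := by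
  have h0 := hJ.zero
  have hf' := hJ.neg hf
  have z1 : (0 : D) - 0 = 0 := sub_zero 0
  rcases x with _ | (i | j) <;> rcases y with _ | (i' | j')
  · exact h11
  · simp only [Matrix.sub_apply, Gt, Bt, Matrix.of_apply, sub_zero]
    split_ifs
    · exact h10
    · exact h0
  · have e : (Gt N U f g q - Bt N U f g) none (some (Sum.inr j')) = 0 := by simp [Gt, Bt]
    rw [e]
    exact h0
  · simp only [Matrix.sub_apply, Gt, Bt, Matrix.of_apply, sub_zero]
    split_ifs
    · exact h01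
    · exact h0
  · simp only [Matrix.sub_apply, Gt, Bt, H47.Gm, H47.Bm, Matrix.of_apply]
    split_ifs
    · exact h00
    · rw [sub_self]
      exact h0
    · rw [sub_self]
      exact h0
  · simp only [Matrix.sub_apply, Gt, Bt, H47.Gm, H47.Bm, Matrix.of_apply]
    split_ifs
    · exact hJ.sub hf' hf'
    · exact hJ.sub hf' h0
    · exact hJ.sub h0 hf'
    · exact hJ.sub h0 h0
  · have e : (Gt N U f g q - Bt N U f g) (some (Sum.inr j)) none = 0 := by simp [Gt, Bt]
    rw [e]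
    exact h0
  · simp only [Matrix.sub_apply, Gt, Bt, H47.Gm, H47.Bm, Matrix.of_apply]
    split_ifs
    · exact hJ.sub hg hg
    · exact hJ.sub hg h0
    · exact hJ.sub h0 hg
    · exact hJ.sub h0 h0
  · simp only [Matrix.sub_apply, Gt, Bt, H47.Gm, H47.Bm, Matrix.of_apply, sub_self]
    exact h0

theorem chC_absb {b : C(Z, ℂ) →⋆ₐ[ℂ] D} (hb : Absb J b) (X : Type) [Fintype X] [DecidableEq X]
    (T : X → C(Z, ℂ) →⋆ₐ[ℂ] D) (ι : Type) [Fintype ι] (y : ι → D) (hy : ∀ i, J (y i)) :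
    ∃ v : X → D, (∀ x f, b f * v x = v x * T x f) ∧
      (∀ x x' i, star (v x) * v x' * y i = if x = x' then y i else 0) ∧
      (∀ x i, y i * v x = 0) ∧ ‖∑ x, v x * star (v x)‖ ≤ 4 := by
  obtain ⟨v, h1, h2, h3, h4⟩ := hb X T _ (y ∘ (Fintype.equivFin ι).symm) (fun i => hy _)
  refine ⟨v, h1, fun x x' i => ?_, fun x i => ?_, h4⟩
  · have h5 := h2 x x' (Fintype.equivFin ι i)
    rw [Function.comp_apply, Equiv.symm_apply_apply] at h5
    exact h5
  · have h5 := h3 x (Fintype.equivFin ι i)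
    rw [Function.comp_apply, Equiv.symm_apply_apply] at h5
    exact h5

/-- The homomorphisms at the indices. -/
def chC_T (a b : ℕ → C(Z, ℂ) →⋆ₐ[ℂ] D) (t : C(Z, ℂ) →⋆ₐ[ℂ] D) {N : ℕ} :
    IdO N → C(Z, ℂ) →⋆ₐ[ℂ] D
  | none => t
  | some (.inl k) => b k
  | some (.inr j) => a (j + 1)

theorem chC_T_apply (a b : ℕ → C(Z, ℂ) →⋆ₐ[ℂ] D) (t : C(Z, ℂ) →⋆ₐ[ℂ] D) {N : ℕ} (x : IdO N)
    (h : C(Z, ℂ)) :
    chC_T a b t x h = dO N (fun k => b k h) (fun j => a (j + 1) h) (t h) x := by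
  rcases x with _ | (k | j) <;> rfl

theorem chC_one_sub {U : D} (hU : ‖U‖ ≤ 1) : ‖1 - U * star U‖ ≤ 1 := by
  rw [← H47.dft_sq U hU]
  have h := H47.dft_norm U hU
  exact (norm_mul_le _ _).trans (mul_le_one₀ h (norm_nonneg _) h)

/-- The norm of the row `P`. -/
theorem chC_P {N : ℕ} {U f g : D} {q : Fin 2 → Fin 2 → D} {v : IdO N → D} (hU : ‖U‖ ≤ 1)
    (h0 : H47.Rel0 U f g 1) (h1 : RelA U f g q v) (hv : ‖∑ x, v x * star (v x)‖ ≤ 5) :
    ‖∑ x, Pt U f g v () x * star (Pt U f g v () x)‖ ≤ 6 := by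
  have h2 := congrFun (congrFun (Pt_mul_star h0 h1) ()) ()
  have h3 : (Pt U f g v * (Pt U f g v).conjTranspose) () () =
      ∑ x, Pt U f g v () x * star (Pt U f g v () x) := by
    rw [Matrix.mul_apply]
    rfl
  have h4 : (H47.s1 U * (rowO v * (rowO v).conjTranspose) * H47.s1 (star U) +
      H47.s1 (1 - U * star U)) () () =
      U * (∑ x, v x * star (v x)) * star U + (1 - U * star U) := by
    rw [Matrix.add_apply, Matrix.mul_apply, Fintype.sum_unique, Matrix.mul_apply,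
      Fintype.sum_unique, Matrix.mul_apply]
    rfl
  rw [h3, h4] at h2
  rw [h2]
  have hU' : ‖star U‖ ≤ 1 := by rwa [norm_star]
  have h5 : ‖U * (∑ x, v x * star (v x)) * star U‖ ≤ 5 := by
    refine (norm_mul_le _ _).trans ?_
    have h6 : ‖U * (∑ x, v x * star (v x))‖ ≤ 5 := by
      refine (norm_mul_le _ _).trans ?_
      nlinarith [norm_nonneg U, norm_nonneg (∑ x, v x * star (v x))]
    nlinarith [norm_nonneg (star U), norm_nonneg (U * (∑ x, v x * star (v x)))]
  have h6 := chC_one_sub hU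
  have h7 := norm_add_le (U * (∑ x, v x * star (v x)) * star U) (1 - U * star U)
  linarith

/-- The two slots. -/
def chC_i (N : ℕ) : Fin 2 → IdO N := ![some (Sum.inl (Fin.last N)), none]

theorem chC_i_inj (N : ℕ) : Function.Injective (chC_i N) := by
  intro a b h
  fin_cases a <;> fin_cases b
  · rfl
  · exact absurd h (by simp [chC_i])
  · exact absurd h (by simp [chC_i])
  · rfl

/-- The last term. -/
theorem chC_last {N : ℕ} {U f g : D} {q : MM (Fin 2) D} {v : IdO N → D} {a b : ℕ → D} {t : D}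
    (h0 : H47.Rel0 U f g 1) (h2 : RelB U f g v a b t) :
    ‖(MM.of (fun x y => (Matrix.diagonal (dO N a b t) * Gt N U f g (fun i j => MM.e q i j) -
      Gt N U f g (fun i j => MM.e q i j) * Matrix.diagonal (dO N b a t)) x y) :
        MM (IdO N) D)‖ ≤ ‖q * m2 (b N) 0 0 t - m2 (a N) 0 0 t * q‖ := by
  rw [norm_sub_rev]
  have key := fun x y => ct_defect (q := fun i j => MM.e q i j) h0 h2 x y
  refine norm_embed (chC_i N) (chC_i_inj N) _ _ (fun x y => ?_) (fun x y hx => ?_)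
    (fun x y hy => ?_)
  · rw [MM.e_of, key, MM.e_sub, MM.e_mul, MM.e_mul, Fin.sum_univ_two, Fin.sum_univ_two]
    have e00 : MM.e (m2 (a N) 0 0 t) 0 0 = a N := rfl
    have e01 : MM.e (m2 (a N) 0 0 t) 0 1 = 0 := rfl
    have e10 : MM.e (m2 (a N) 0 0 t) 1 0 = 0 := rfl
    have e11 : MM.e (m2 (a N) 0 0 t) 1 1 = t := rfl
    have d00 : MM.e (m2 (b N) 0 0 t) 0 0 = b N := rfl
    have d01 : MM.e (m2 (b N) 0 0 t) 0 1 = 0 := rfl
    have d10 : MM.e (m2 (b N) 0 0 t) 1 0 = 0 := rfl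
    have d11 : MM.e (m2 (b N) 0 0 t) 1 1 = t := rfl
    fin_cases x <;> fin_cases y
    · simp [chC_i, e00, e01, d00, d10]
    · simp [chC_i, e00, e01, d01, d11]
    · simp [chC_i, e10, e11, d00, d10]
    · simp [chC_i, e10, e11, d01, d11]
  · rw [MM.e_of, key]
    rcases x with _ | x
    · exact absurd ⟨1, rfl⟩ hx
    · have hx' : x ≠ Sum.inl (Fin.last N) := fun h => hx ⟨0, by rw [h]; rfl⟩
      rcases y with _ | y
      · simp [hx']
      · simp [hx']
  · rw [MM.e_of, key]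
    rcases y with _ | y
    · exact absurd ⟨1, rfl⟩ hy
    · have hy' : y ≠ Sum.inl (Fin.last N) := fun h => hy ⟨0, by rw [h]; rfl⟩
      rcases x with _ | x
      · simp [hy']
      · simp [hy']

/-- The norm of the middle matrix. -/
theorem chC_mid {N : ℕ} {U f g : D} {q : MM (Fin 2) D} {v : IdO N → D} {a b : ℕ → D} {t : D}
    (h0 : H47.Rel0 U f g 1) (hq : UQ (fun i j => MM.e q i j)) (h2 : RelB U f g v a b t)
    {ε : ℝ} (hε : 0 ≤ ε) (ha : ∀ k < N, ‖a k - a (k + 1)‖ ≤ ε)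
    (hb : ∀ k < N, ‖b k - b (k + 1)‖ ≤ ε)
    (hqi : ‖q * m2 (b N) 0 0 t - m2 (a N) 0 0 t * q‖ ≤ ε) :
    ‖(MM.of (fun x y => ((Matrix.diagonal (dO N a (fun j => b (j + 1)) t) -
          Matrix.diagonal (dO N a b t)) * Gt N U f g (fun i j => MM.e q i j) -
        Gt N U f g (fun i j => MM.e q i j) * (Matrix.diagonal (dO N b (fun j => a (j + 1)) t) -
          Matrix.diagonal (dO N b a t)) +
        (Matrix.diagonal (dO N a b t) * Gt N U f g (fun i j => MM.e q i j) -
          Gt N U f g (fun i j => MM.e q i j) * Matrix.diagonal (dO N b a t))) x y) :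
        MM (IdO N) D)‖ ≤ 3 * ε := by
  set Q : Fin 2 → Fin 2 → D := fun i j => MM.e q i j with hQ
  set G : MM (IdO N) D := MM.of (fun x y => Gt N U f g Q x y) with hG
  set d1 : IdO N → D := fun x => dO N a (fun j => b (j + 1)) t x - dO N a b t x with hd1
  set d2 : IdO N → D := fun x => dO N b (fun j => a (j + 1)) t x - dO N b a t x with hd2
  set A1 : MM (IdO N) D := MM.of (fun i j => if i = j then d1 i else 0) with hA1
  set A2 : MM (IdO N) D := MM.of (fun i j => if i = j then d2 i else 0) with hA2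
  have hlast := (chC_last (q := q) h0 h2).trans hqi
  set Y : MM (IdO N) D := MM.of (fun x y => (Matrix.diagonal (dO N a b t) * Gt N U f g Q -
      Gt N U f g Q * Matrix.diagonal (dO N b a t)) x y) with hY
  have e : (MM.of (fun x y => ((Matrix.diagonal (dO N a (fun j => b (j + 1)) t) -
          Matrix.diagonal (dO N a b t)) * Gt N U f g Q -
        Gt N U f g Q * (Matrix.diagonal (dO N b (fun j => a (j + 1)) t) -
          Matrix.diagonal (dO N b a t)) +
        (Matrix.diagonal (dO N a b t) * Gt N U f g Q -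
          Gt N U f g Q * Matrix.diagonal (dO N b a t))) x y) : MM (IdO N) D) =
      A1 * G - G * A2 + Y := by
    refine MM.ext fun x y => ?_
    rw [MM.e_add, MM.e_sub, hA1, hA2, gta_diag_mul, gta_mul_diag, hG, hY, MM.e_of, MM.e_of,
      MM.e_of, Matrix.add_apply, Matrix.sub_apply, Matrix.diagonal_sub, Matrix.diagonal_sub,
      Matrix.diagonal_mul, Matrix.mul_diagonal]
  rw [e]
  have hu := Gt_unitary N h0 hq
  have hG1 : star G * G = 1 := by
    refine MM.ext fun x y => ?_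
    have h := congrFun (congrFun hu.1 x) y
    rw [Matrix.mul_apply, Matrix.one_apply] at h
    rw [MM.e_mul, MM.e_one, ← h]
    refine Finset.sum_congr rfl fun k _ => ?_
    rw [MM.e_star, hG, MM.e_of, MM.e_of]
    rfl
  have hGn : ‖G‖ ≤ 1 := by
    have h := CStarRing.norm_star_mul_self (x := G)
    rw [hG1] at h
    have h' := norm_one_le' (MM (IdO N) D)
    nlinarith [norm_nonneg G]
  have hA1n : ‖A1‖ ≤ ε := by
    refine MM.norm_diag_le d1 ε hε fun x => ?_
    rcases x with _ | (k | j)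
    · have h : d1 none = 0 := sub_self t
      rw [h, norm_zero]
      exact hε
    · have h : d1 (some (Sum.inl k)) = 0 := sub_self (a k)
      rw [h, norm_zero]
      exact hε
    · have h : d1 (some (Sum.inr j)) = b (j + 1) - b j := rfl
      rw [h, norm_sub_rev]
      exact hb j j.2
  have hA2n : ‖A2‖ ≤ ε := by
    refine MM.norm_diag_le d2 ε hε fun x => ?_
    rcases x with _ | (k | j)
    · have h : d2 none = 0 := sub_self t
      rw [h, norm_zero]
      exact hε
    · have h : d2 (some (Sum.inl k)) = 0 := sub_self (b k)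
      rw [h, norm_zero]
      exact hε
    · have h : d2 (some (Sum.inr j)) = a (j + 1) - a j := rfl
      rw [h, norm_sub_rev]
      exact ha j j.2
  have n1 : ‖A1 * G‖ ≤ ε := (norm_mul_le _ _).trans (by
    nlinarith [norm_nonneg A1, norm_nonneg G])
  have n2 : ‖G * A2‖ ≤ ε := (norm_mul_le _ _).trans (by
    nlinarith [norm_nonneg A2, norm_nonneg G])
  have n3 := norm_add_le (A1 * G - G * A2) Y
  have n4 := norm_sub_le (A1 * G) (G * A2)
  linarith

/-- The main estimate. -/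
theorem chC_est {N : ℕ} {U f g : D} {q : MM (Fin 2) D} {v : IdO N → D} {a b : ℕ → D} {t : D}
    (hU : ‖U‖ ≤ 1) (h0 : H47.Rel0 U f g 1) (hq : UQ (fun i j => MM.e q i j))
    (h1 : RelA U f g (fun i j => MM.e q i j) v) (h2 : RelB U f g v a b t)
    (hv : ‖∑ x, v x * star (v x)‖ ≤ 5)
    {ε : ℝ} (hε : 0 ≤ ε) (ha : ∀ k < N, ‖a k - a (k + 1)‖ ≤ ε)
    (hb : ∀ k < N, ‖b k - b (k + 1)‖ ≤ ε)
    (hqi : ‖q * m2 (b N) 0 0 t - m2 (a N) 0 0 t * q‖ ≤ ε) :
    ‖ut U f g (fun i j => MM.e q i j) v () () * b 0 -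
      a 0 * ut U f g (fun i j => MM.e q i j) v () ()‖ ≤ 20 * ε := by
  have hI := congrFun (congrFun (ct_inter (q := fun i j => MM.e q i j) h0 h1.v0 h2) ()) ()
  have hmid := chC_mid h0 hq h2 hε ha hb hqi
  obtain ⟨X, hX⟩ : ∃ X, X = ((Matrix.diagonal (dO N a (fun j => b (j + 1)) t) -
          Matrix.diagonal (dO N a b t)) * Gt N U f g (fun i j => MM.e q i j) -
        Gt N U f g (fun i j => MM.e q i j) * (Matrix.diagonal (dO N b (fun j => a (j + 1)) t) -
          Matrix.diagonal (dO N b a t)) +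
        (Matrix.diagonal (dO N a b t) * Gt N U f g (fun i j => MM.e q i j) -
          Gt N U f g (fun i j => MM.e q i j) * Matrix.diagonal (dO N b a t))) := ⟨_, rfl⟩
  rw [← hX] at hI hmid
  obtain ⟨u, hu⟩ : ∃ u, u = ut U f g (fun i j => MM.e q i j) v := ⟨_, rfl⟩
  rw [← hu] at hI ⊢
  have hL : (H47.s1 (a 0) * u - u * H47.s1 (b 0)) () () = a 0 * u () () - u () () * b 0 := by
    rw [Matrix.sub_apply, Matrix.mul_apply, Matrix.mul_apply, Fintype.sum_unique,
      Fintype.sum_unique]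
    rfl
  have hR : (Pt U f g v * X * (rowO v).conjTranspose) () () =
      ∑ x, ∑ y, Pt U f g v () x * MM.e (MM.of (fun x y => X x y) : MM (IdO N) D) x y *
        star (v y) := by
    rw [Matrix.mul_apply, Finset.sum_comm]
    refine Finset.sum_congr rfl fun y _ => ?_
    rw [Matrix.mul_apply, Finset.sum_mul]
    refine Finset.sum_congr rfl fun x _ => ?_
    rw [MM.e_of]
    rfl
  rw [norm_sub_rev, ← hL, hI, hR]
  have h6 : (0 : ℝ) ≤ 6 := by norm_num
  have h5 : (0 : ℝ) ≤ 5 := by norm_num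
  have hn := norm_rmc (fun x => Pt U f g v () x) v (MM.of (fun x y => X x y) : MM (IdO N) D)
    (√6) (√5) (Real.sqrt_nonneg _) (Real.sqrt_nonneg _)
    (by rw [Real.sq_sqrt h6]; exact chC_P hU h0 h1 hv) (by rw [Real.sq_sqrt h5]; exact hv)
  refine hn.trans ?_
  have hs : √6 * √5 ≤ 6 := by
    rw [← Real.sqrt_mul h6, Real.sqrt_le_iff]
    norm_num
  have hs0 : 0 ≤ √6 * √5 := by positivity
  have hm0 := norm_nonneg (MM.of (fun x y => X x y) : MM (IdO N) D)
  calc √6 * √5 * ‖(MM.of (fun x y => X x y) : MM (IdO N) D)‖ ≤ 6 * (3 * ε) :=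
        mul_le_mul hs hmid hm0 (by norm_num)
    _ ≤ 20 * ε := by linarith

end chC

/-- The unitary given by the chain.

Proof. `f = H47.dft U`, `g = H47.dft (star U)`: `Rel0 U f g 1` by `dft_sa`, `dft_sq`, `dft_inter`,
`dft_inter'`; `f, g ∈ J`: `f * f = 1 - U U* ∈ J` and `f = cfc sqrt (f * f)` (`Idl.cfc`, with
`Real.sqrt`), and `a k` commutes with `f`: `a k` commutes with `U U*` (`a_k U U* = U b_k U* = U U* a_k`, the
second by adjoints, for all functions) and `f` is a limit of polynomials in `1 - U U*`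
(`Commute.cfc`-type statements; `a k h` need not be normal: use that the commutant of the self-adjoint
element `1 - U U*` contains `a k h`, `IsSelfAdjoint.commute_cfc` or `Commute.cfc_real`).
All entries of `Gt - Bt` are in `J`: they are `0, ±f, ±g, q 0 0 - U, q 0 1, q 1 0, q 1 1 - 1`.
Apply `hb` to `X = {x : IdO N // x ≠ oo}`, `T x = ` the homomorphism at the index `x` in
`dO N b (a (· + 1)) t`, and the finite family of all entries of `Gt - Bt`, their adjoints, the entries of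
`Btᴴ * (Gt - Bt)` and `g`. Put `v oo = 1`. `ct_unitary` gives the unitary `u` (the entry of `ut`), and
`ct_inter`, `ct_defect` give, for `h ∈ F`,
`a 0 h * u - u * b 0 h = P X v*` with `‖X‖ ≤ ε + ε + ε` (`‖Gt‖ ≤ 1`; diagonal matrices:
`MM.norm_diag_le`; the last term: `norm_embed` for the two slots), `‖∑ v v*‖ ≤ 5` and
`‖P P*‖ ≤ 6` (`Pt_mul_star`). So the norm is at most `√6 √5 3 ε ≤ 20 ε`. -/
theorem mstar (hJ : Idl J) (a b : ℕ → C(Z, ℂ) →⋆ₐ[ℂ] D) (t : C(Z, ℂ) →⋆ₐ[ℂ] D) (N : ℕ)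
    (hN : 0 < N) (hb : Absb J (b 0)) (U : D) (hU : ‖U‖ ≤ 1) (h1 : J (1 - star U * U))
    (h2 : J (1 - U * star U)) (hab : ∀ k ≤ N, ∀ f, a k f * U = U * b k f)
    (q : MM (Fin 2) D) (hq : star q * q = 1) (hq' : q * star q = 1)
    (hqJ : ∀ i j, J (MM.e (q - m2 U 0 0 1) i j)) (F : Finset C(Z, ℂ)) (ε : ℝ) (hε : 0 ≤ ε)
    (ha : ∀ k < N, ∀ f ∈ F, ‖a k f - a (k + 1) f‖ ≤ ε)
    (hbs : ∀ k < N, ∀ f ∈ F, ‖b k f - b (k + 1) f‖ ≤ ε)
    (hqi : ∀ f ∈ F, ‖q * m2 (b N f) 0 0 (t f) - m2 (a N f) 0 0 (t f) * q‖ ≤ ε) :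
    ∃ u : D, star u * u = 1 ∧ u * star u = 1 ∧ ∀ f ∈ F, ‖u * b 0 f - a 0 f * u‖ ≤ 20 * ε := by
  have h0 : H47.Rel0 U (H47.dft U) (H47.dft (star U)) 1 := chC_rel hU
  have hfJ : J (H47.dft U) := chC_dft_J hJ h2
  have hgJ : J (H47.dft (star U)) := chC_dft_J hJ (by rw [star_star]; exact h1)
  obtain ⟨f, hf⟩ : ∃ f, f = H47.dft U := ⟨_, rfl⟩
  obtain ⟨g, hg⟩ : ∃ g, g = H47.dft (star U) := ⟨_, rfl⟩
  have hf2 : f = cfc Real.sqrt (1 - U * star U) := hf
  have hg2 : g = cfc Real.sqrt (1 - star U * star (star U)) := hg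
  rw [← hf, ← hg] at h0
  rw [← hf] at hfJ
  rw [← hg] at hgJ
  obtain ⟨Q, hQ⟩ : ∃ Q : Fin 2 → Fin 2 → D, Q = fun i j => MM.e q i j := ⟨_, rfl⟩
  have hUQ : UQ Q := by
    refine ⟨fun i j => ?_, fun i j => ?_⟩
    · have h := congrArg (fun m => MM.e m i j) hq
      simp only [MM.e_mul, MM.e_star, MM.e_one] at h
      rw [hQ]
      exact h
    · have h := congrArg (fun m => MM.e m i j) hq'
      simp only [MM.e_mul, MM.e_star, MM.e_one] at h
      rw [hQ]
      exact h
  obtain ⟨DD, hDD⟩ : ∃ DD, DD = Gt N U f g Q - Bt N U f g := ⟨_, rfl⟩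
  have hE : ∀ x y, J (DD x y) := by
    intro x y
    rw [hDD]
    have k00 := hqJ 0 0
    have k01 := hqJ 0 1
    have k10 := hqJ 1 0
    have k11 := hqJ 1 1
    rw [MM.e_sub] at k00 k01 k10 k11
    have e00 : MM.e (m2 U 0 0 1) 0 0 = U := rfl
    have e01 : MM.e (m2 U 0 0 1) 0 1 = 0 := rfl
    have e10 : MM.e (m2 U 0 0 1) 1 0 = 0 := rfl
    have e11 : MM.e (m2 U 0 0 1) 1 1 = 1 := rfl
    rw [e00] at k00
    rw [e01, sub_zero] at k01
    rw [e10, sub_zero] at k10
    rw [e11] at k11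
    refine chC_entry hJ hfJ hgJ Q ?_ ?_ ?_ ?_ x y
    · rw [hQ]; exact k00
    · rw [hQ]; exact k01
    · rw [hQ]; exact k10
    · rw [hQ]; exact k11
  obtain ⟨v', w1, w2, w3, w4⟩ := chC_absb hb {x : IdO N // x ≠ oo} (fun x => chC_T a b t x.1)
    ((IdO N × IdO N) ⊕ (IdO N × IdO N) ⊕ (IdO N × IdO N) ⊕ Unit)
    (Sum.elim (fun p => DD p.1 p.2) (Sum.elim (fun p => star (DD p.1 p.2))
      (Sum.elim (fun p => ((Bt N U f g).conjTranspose * DD) p.1 p.2) (fun _ => g)))) (by
      rintro (p | p | p | p)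
      · exact hE _ _
      · exact hJ.star _ (hE _ _)
      · change J (((Bt N U f g).conjTranspose * DD) p.1 p.2)
        rw [Matrix.mul_apply]
        exact hJ.sum _ _ fun k _ => hJ.mul_left _ _ (hE _ _)
      · exact hgJ)
  obtain ⟨v, hv⟩ : ∃ v : IdO N → D, v = fun x => if h : x = oo then 1 else v' ⟨x, h⟩ := ⟨_, rfl⟩
  have hv0 : v oo = 1 := by
    rw [hv]
    exact dif_pos rfl
  have hvx : ∀ x (h : x ≠ oo), v x = v' ⟨x, h⟩ := by
    intro x h
    rw [hv]
    exact dif_neg h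
  have hA : RelA U f g Q v := by
    refine ⟨hv0, fun x hx => ?_, fun x y i j hx hy => ?_, fun x y i j hx hy => ?_,
      fun x y i j hx hy => ?_⟩
    · rw [hvx x hx]
      exact w3 ⟨x, hx⟩ (Sum.inr (Sum.inr (Sum.inr ())))
    · rw [hvx x hx, hvx y hy, ← hDD]
      have h := w2 ⟨x, hx⟩ ⟨y, hy⟩ (Sum.inl (i, j))
      simp only [Sum.elim_inl, Subtype.mk.injEq] at h
      exact h
    · rw [hvx x hx, hvx y hy, ← hDD]
      have h := w2 ⟨x, hx⟩ ⟨y, hy⟩ (Sum.inr (Sum.inl (i, j)))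
      simp only [Sum.elim_inl, Sum.elim_inr, Subtype.mk.injEq] at h
      exact h
    · rw [hvx x hx, hvx y hy, ← hDD]
      have h := w2 ⟨x, hx⟩ ⟨y, hy⟩ (Sum.inr (Sum.inr (Sum.inl (i, j))))
      simp only [Sum.elim_inl, Sum.elim_inr, Subtype.mk.injEq] at h
      exact h
  have hnv : ‖∑ x, v x * star (v x)‖ ≤ 5 := by
    rw [Fintype.sum_eq_add_sum_subtype_ne (fun x => v x * star (v x)) oo]
    have e1 : ∑ i : {i : IdO N // i ≠ oo}, v i.1 * star (v i.1) =
        ∑ i : {i : IdO N // i ≠ oo}, v' i * star (v' i) :=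
      Finset.sum_congr rfl fun i _ => by rw [hvx i.1 i.2]
    rw [e1, hv0, star_one, mul_one]
    have h := norm_add_le (1 : D) (∑ i : {i : IdO N // i ≠ oo}, v' i * star (v' i))
    have h' := norm_one_le' D
    linarith
  have hab' : ∀ k ≤ N, ∀ h, b k h * star U = star U * a k h := by
    intro k hk h
    have h3 := congrArg star (hab k hk (star h))
    rw [star_mul, star_mul, ← map_star, ← map_star, star_star] at h3
    exact h3.symm
  have hBr : ∀ h : C(Z, ℂ), RelB U f g v (fun k => a k h) (fun k => b k h) (t h) := by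
    intro h
    have hv1 : ∀ (h : C(Z, ℂ)) x,
        b 0 h * v x = v x * dO N (fun k => b k h) (fun j => a (j + 1) h) (t h) x := by
      intro h x
      by_cases hx : x = oo
      · subst hx
        rw [hv0, mul_one, one_mul]
        rfl
      · rw [hvx x hx, ← chC_T_apply a b t x h]
        exact w1 ⟨x, hx⟩ h
    refine ⟨fun k hk => hab k hk h, fun k hk => hab' k hk h, fun k hk => ?_, fun k hk => ?_,
      fun x => hv1 h x, fun x => ?_⟩
    · rw [hf2]
      have hc : Commute (1 - U * star U) (a k h) := by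
        have h3 : U * star U * a k h = a k h * (U * star U) := by
          rw [mul_assoc, ← hab' k hk h, ← mul_assoc, ← hab k hk h, mul_assoc]
        change (1 - U * star U) * a k h = a k h * (1 - U * star U)
        rw [sub_mul, mul_sub, one_mul, mul_one, h3]
      exact (hc.cfc_real Real.sqrt).symm
    · rw [hg2]
      have hc : Commute (1 - star U * star (star U)) (b k h) := by
        have h3 : star U * U * b k h = b k h * (star U * U) := by
          rw [mul_assoc, ← hab k hk h, ← mul_assoc, ← hab' k hk h, mul_assoc]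
        change (1 - star U * star (star U)) * b k h = b k h * (1 - star U * star (star U))
        rw [star_star, sub_mul, mul_sub, one_mul, mul_one, h3]
      exact (hc.cfc_real Real.sqrt).symm
    · have h3 := congrArg star (hv1 (star h) x)
      rw [star_mul, star_mul, ← map_star, star_star] at h3
      rw [h3]
      congr 1
      rcases x with _ | (k | j)
      · change star (t (star h)) = t h
        rw [← map_star, star_star]
      · change star (b k (star h)) = b k h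
        rw [← map_star, star_star]
      · change star (a (j + 1) (star h)) = a (j + 1) h
        rw [← map_star, star_star]
  obtain ⟨hu1, hu2⟩ := ct_unitary hN h0 hUQ hA
  refine ⟨ut U f g Q v () (), ?_, ?_, fun h hh => ?_⟩
  · have h := congrFun (congrFun hu1 ()) ()
    rw [Matrix.mul_apply, Fintype.sum_unique] at h
    exact h
  · have h := congrFun (congrFun hu2 ()) ()
    rw [Matrix.mul_apply, Fintype.sum_unique] at h
    exact h
  · subst hQ
    exact chC_est hU h0 hUQ hA (hBr h) hnv hε (fun k hk => ha k hk h hh)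
      (fun k hk => hbs k hk h hh) (hqi h hh)

end H7c
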