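import Pool.Agent.H.MP_7b4a29_c.Fre
import Pool.Agent.H.MP_7b4a29_c.ChC
import Pool.Agent.H.MP_47f0a1_an.Part

/-!
# Absorption over a Fock model
-/

open Filter Topology MeasureTheory H47

namespace H7c

theorem absm_diag {P : Type} [CStarAlgebra P] {ι : Type} [Fintype ι] [DecidableEq ι]
    (x c : ι → P) (C E : ℝ) (hC : 0 ≤ C) (hE : 0 ≤ E)
    (hx : ‖∑ i, x i * star (x i)‖ ≤ C ^ 2) (hc : ∀ i, ‖c i‖ ≤ E) :
    ‖∑ i, x i * c i * star (x i)‖ ≤ C * C * E := by
  have h1 := MM.norm_sand_le (MM.of (fun i j => if i = j then c i else 0)) x x C C hC hC hx hx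
  have h2 := MM.norm_diag_le c E hE hc
  have h3 : ∑ i, ∑ j, x i * MM.e (MM.of (fun i j => if i = j then c i else 0)) i j * star (x j)
      = ∑ i, x i * c i * star (x i) := by
    refine Finset.sum_congr rfl fun i _ => ?_
    rw [Finset.sum_eq_single i]
    · rw [MM.e_of, if_pos rfl]
    · intro j _ hj
      rw [MM.e_of, if_neg (Ne.symm hj), mul_zero, zero_mul]
    · intro h
      exact absurd (Finset.mem_univ _) h
  rw [h3] at h1
  exact h1.trans (mul_le_mul_of_nonneg_left h2 (mul_nonneg hC hC))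

/-- A positive sum whose square is dominated by it. -/
theorem absm_sq {a : ℝ} (h : a * a ≤ a) : a ≤ 1 := by
  by_contra hc
  push Not at hc
  nlinarith

theorem absm_ssm {P : Type} [CStarAlgebra P] {N : ℕ} (a b : Fin N → P) :
    star (∑ j, a j) * ∑ j, b j = ∑ j, ∑ j', star (a j) * b j' := by
  rw [star_sum, Finset.sum_mul_sum]

theorem absm_sms {P : Type} [CStarAlgebra P] {N : ℕ} (a b : Fin N → P) :
    (∑ j, a j) * star (∑ j, b j) = ∑ j, ∑ j', a j * star (b j') := by
  rw [star_sum, Finset.sum_mul_sum]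

theorem absm_ms {P : Type} [CStarAlgebra P] {ι : Type} [Fintype ι] (a : P) (f : ι → P) :
    a * ∑ j, f j = ∑ j, a * f j := Finset.mul_sum _ _ _

theorem absm_sm {P : Type} [CStarAlgebra P] {ι : Type} [Fintype ι] (a : P) (f : ι → P) :
    (∑ j, f j) * a = ∑ j, f j * a := Finset.sum_mul _ _ _

theorem absm_vv {P : Type} [CStarAlgebra P] {ι : Type} [Fintype ι] (v : ι → P) :
    (∑ x, v x * star (v x)) * star (∑ x, v x * star (v x)) =
      ∑ x, ∑ x', v x * star (v x) * star (v x' * star (v x')) := by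
  rw [star_sum, Finset.sum_mul_sum]

theorem absm_sd {P : Type} [CStarAlgebra P] {ι : Type} [Fintype ι] (f g : ι → P) :
    ∑ j, f j - ∑ j, g j = ∑ j, (f j - g j) := (Finset.sum_sub_distrib _ _).symm

theorem absm_row {P : Type} [CStarAlgebra P] {X : Type} [Fintype X] [DecidableEq X] (v g : X → P)
    (hvg : ∀ x x', star (v x) * v x' = if x = x' then g x else 0) (hgn : ∀ x, ‖g x‖ ≤ 1) :
    ‖∑ x, v x * star (v x)‖ ≤ 1 := by
  refine absm_sq ?_
  have h1 : (∑ x, v x * star (v x)) * star (∑ x, v x * star (v x)) =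
      ∑ x, v x * g x * star (v x) := by
    rw [absm_vv]
    refine Finset.sum_congr rfl fun x _ => ?_
    rw [Finset.sum_eq_single x]
    · have h2 := hvg x x
      rw [if_pos rfl] at h2
      rw [star_mul, star_star, ← h2]
      simp only [mul_assoc]
    · intro x' _ hx'
      have h2 := hvg x x'
      rw [if_neg (Ne.symm hx')] at h2
      calc v x * star (v x) * star (v x' * star (v x'))
          = v x * (star (v x) * v x') * star (v x') := by
            rw [star_mul, star_star]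
            simp only [mul_assoc]
        _ = 0 := by rw [h2, mul_zero, zero_mul]
    · intro h
      exact absurd (Finset.mem_univ _) h
  rw [← CStarRing.norm_self_mul_star, h1]
  have h3 := absm_diag v g (√‖∑ x, v x * star (v x)‖) 1 (Real.sqrt_nonneg _) zero_le_one
    (by rw [Real.sq_sqrt (norm_nonneg _)]) hgn
  rwa [mul_one, Real.mul_self_sqrt (norm_nonneg _)] at h3

theorem absm_norm_le {P : Type} [CStarAlgebra P] {X : Type} [Fintype X] [DecidableEq X]
    (v : X → P) (h : ‖∑ x, v x * star (v x)‖ ≤ 1) (x : X) : ‖v x‖ ≤ 1 := by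
  have h1 := MM.norm_sand_le (1 : MM X P) v (fun j => if j = x then 1 else 0) 1 1 zero_le_one
    zero_le_one (by rwa [one_pow]) (by
      rw [Finset.sum_eq_single x (fun j _ hj => by rw [if_neg hj, zero_mul])
        (fun h => absurd (Finset.mem_univ _) h), if_pos rfl, star_one, mul_one, one_pow]
      exact norm_one_le' _)
  have h2 : ∑ i, ∑ j, v i * MM.e (1 : MM X P) i j * star (if j = x then (1 : P) else 0) =
      v x := by
    rw [Finset.sum_eq_single x]
    · rw [Finset.sum_eq_single x]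
      · rw [MM.e_one, if_pos rfl]
        simp
      · intro j _ hj
        rw [if_neg hj, star_zero, mul_zero]
      · intro h
        exact absurd (Finset.mem_univ _) h
    · intro i _ hi
      refine Finset.sum_eq_zero fun j _ => ?_
      by_cases hj : j = x
      · subst hj
        rw [MM.e_one, if_neg hi, mul_zero, zero_mul]
      · rw [if_neg hj, star_zero, mul_zero]
    · intro h
      exact absurd (Finset.mem_univ _) h
  rw [h2, one_mul, one_mul] at h1
  exact h1.trans (norm_one_le' _)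

theorem absm_sat {P : Type} [CStarAlgebra P] {Z2 : Type} [MetricSpace Z2] [CompactSpace Z2]
    (I : Ix) (b : C(Z2, ℂ) →⋆ₐ[ℂ] R1 I P) (X : Type) [Fintype X] [DecidableEq X]
    (T : X → C(Z2, ℂ) →⋆ₐ[ℂ] R1 I P) (n : ℕ) (y : Fin n → R1 I P)
    (h : ∀ (F : Finset C(Z2, ℂ)) (ε : ℝ), 0 < ε → ∃ v : X → R1 I P,
      (∀ x, ∀ f ∈ F, ‖b f * v x - v x * T x f‖ ≤ ε) ∧
      (∀ x x' i, star (v x) * v x' * y i = if x = x' then y i else 0) ∧
      (∀ x i, y i * v x = 0) ∧ ‖∑ x, v x * star (v x)‖ ≤ 1) :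
    ∃ v : X → R1 I P, (∀ x f, b f * v x = v x * T x f) ∧
      (∀ x x' i, star (v x) * v x' * y i = if x = x' then y i else 0) ∧
      (∀ x i, y i * v x = 0) ∧ ‖∑ x, v x * star (v x)‖ ≤ 2 := by
  classical
  obtain ⟨f, hf⟩ : ∃ f : ℕ → C(Z2, ℂ), DenseRange f :=
    ⟨TopologicalSpace.denseSeq _, TopologicalSpace.denseRange_denseSeq _⟩
  have h0 : ∀ k : ℕ, ∃ z : X → I.L → P, (∀ x l, ‖z x l‖ ≤ 2) ∧
      (∀ x, ∀ p ≤ k, ‖b (f p) * cl I (z x) - cl I (z x) * T x (f p)‖ ≤ 1 / (k + 2)) ∧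
      (∀ x x' i, star (cl I (z x)) * cl I (z x') * y i = if x = x' then y i else 0) ∧
      (∀ x i, y i * cl I (z x) = 0) ∧ ‖∑ x, cl I (z x) * star (cl I (z x))‖ ≤ 1 := by
    intro k
    obtain ⟨v, h1, h2, h3, h4⟩ := h ((Finset.range (k + 1)).image f) (1 / (k + 2))
      (by positivity)
    have h5 : ∀ x, ∃ z : I.L → P, (∀ l, ‖z l‖ ≤ ‖v x‖ + 1) ∧ cl I z = v x := fun x =>
      exists_rep I (v x)
    choose z hz1 hz2 using h5
    refine ⟨z, fun x l => (hz1 x l).trans ?_, ?_, ?_, ?_, ?_⟩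
    · have := absm_norm_le v h4 x
      linarith
    · intro x p hp
      rw [hz2]
      exact h1 x _ (Finset.mem_image.2 ⟨p, Finset.mem_range.2 (by omega), rfl⟩)
    · intro x x' i
      rw [hz2, hz2]
      exact h2 x x' i
    · intro x i
      rw [hz2]
      exact h3 x i
    · simp only [hz2]
      exact h4
  choose z hz2 hzc hzg hzy hzn using h0
  have hzb : ∀ k x, Bd (z k x) := fun k x => ⟨2, hz2 k x⟩
  obtain ⟨Φ, hΦ⟩ : ∃ Φ : ℕ → I.L → (X → P) → ℝ, ∀ p l u, Φ p l u =
      max (⨆ x, ‖SQ.rep I (b (f p)) l * u x - u x * SQ.rep I (T x (f p)) l‖)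
        (max (⨆ q : X × X × Fin n, ‖star (u q.1) * u q.2.1 * SQ.rep I (y q.2.2) l -
          (if q.1 = q.2.1 then SQ.rep I (y q.2.2) l else 0)‖)
        (max (⨆ q : X × Fin n, ‖SQ.rep I (y q.2) l * u q.1‖)
          (‖∑ x, u x * star (u x)‖ - 1))) := ⟨_, fun _ _ _ => rfl⟩
  -- the classes of the families that occur
  have bA : ∀ (u : X → I.L → P), (∀ x, Bd (u x)) → ∀ p x, Bd (fun l =>
      SQ.rep I (b (f p)) l * u x l - u x l * SQ.rep I (T x (f p)) l) := fun u hu p x =>
    ((SQ.rep_bd I _).mul (hu x)).sub ((hu x).mul (SQ.rep_bd I _))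
  have eA : ∀ (u : X → I.L → P), (∀ x, Bd (u x)) → ∀ p x, cl I (fun l =>
      SQ.rep I (b (f p)) l * u x l - u x l * SQ.rep I (T x (f p)) l) =
      b (f p) * cl I (u x) - cl I (u x) * T x (f p) := by
    intro u hu p x
    rw [cl_sub I ((SQ.rep_bd I _).mul (hu x)) ((hu x).mul (SQ.rep_bd I _)),
      cl_mul I (SQ.rep_bd I _) (hu x), cl_mul I (hu x) (SQ.rep_bd I _), SQ.cl_rep, SQ.cl_rep]
  have bI : ∀ (x x' : X) i, Bd (fun l => if x = x' then SQ.rep I (y i) l else 0) := by
    intro x x' i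
    by_cases hx : x = x'
    · simp only [if_pos hx]
      exact SQ.rep_bd I _
    · simp only [if_neg hx]
      exact Bd.zero
  have eI : ∀ (x x' : X) i, cl I (fun l => if x = x' then SQ.rep I (y i) l else 0) =
      if x = x' then y i else 0 := by
    intro x x' i
    by_cases hx : x = x'
    · simp only [if_pos hx]
      exact SQ.cl_rep I _
    · simp only [if_neg hx]
      exact cl_zero I
  have bB : ∀ (u : X → I.L → P), (∀ x, Bd (u x)) → ∀ x x' i, Bd (fun l =>
      star (u x l) * u x' l * SQ.rep I (y i) l - (if x = x' then SQ.rep I (y i) l else 0)) :=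
    fun u hu x x' i => (((hu x).star.mul (hu x')).mul (SQ.rep_bd I _)).sub (bI x x' i)
  have eB : ∀ (u : X → I.L → P), (∀ x, Bd (u x)) → ∀ x x' i, cl I (fun l =>
      star (u x l) * u x' l * SQ.rep I (y i) l - (if x = x' then SQ.rep I (y i) l else 0)) =
      star (cl I (u x)) * cl I (u x') * y i - if x = x' then y i else 0 := by
    intro u hu x x' i
    rw [cl_sub I (((hu x).star.mul (hu x')).mul (SQ.rep_bd I _)) (bI x x' i), eI,
      cl_mul I ((hu x).star.mul (hu x')) (SQ.rep_bd I _), cl_mul I (hu x).star (hu x'),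
      cl_star I (hu x), SQ.cl_rep]
  have bC : ∀ (u : X → I.L → P), (∀ x, Bd (u x)) → ∀ x i, Bd (fun l =>
      SQ.rep I (y i) l * u x l) := fun u hu x i => (SQ.rep_bd I _).mul (hu x)
  have eC : ∀ (u : X → I.L → P), (∀ x, Bd (u x)) → ∀ x i, cl I (fun l =>
      SQ.rep I (y i) l * u x l) = y i * cl I (u x) := by
    intro u hu x i
    rw [cl_mul I (SQ.rep_bd I _) (hu x), SQ.cl_rep]
  have bD : ∀ (u : X → I.L → P), (∀ x, Bd (u x)) → Bd (fun l => ∑ x, u x l * star (u x l)) :=
    fun u hu => Bd.sum I _ (fun x l => u x l * star (u x l)) fun x _ => (hu x).mul (hu x).star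
  have eD : ∀ (u : X → I.L → P), (∀ x, Bd (u x)) → cl I (fun l => ∑ x, u x l * star (u x l)) =
      ∑ x, cl I (u x) * star (cl I (u x)) := by
    intro u hu
    rw [cl_sum I _ (fun x l => u x l * star (u x l)) fun x _ => (hu x).mul (hu x).star]
    refine Finset.sum_congr rfl fun x _ => ?_
    rw [cl_mul I (hu x) (hu x).star, cl_star I (hu x)]
  obtain ⟨u, hu1, hu2⟩ := saturate I (X := fun _ => X → P) Φ (fun k l x => z k x l) (by
    intro k i hik
    have hk : (0 : ℝ) < 1 / (k + 1) := by positivity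
    have hA : ∀ᶠ l in I.F, ∀ x, ‖SQ.rep I (b (f i)) l * z k x l -
        z k x l * SQ.rep I (T x (f i)) l‖ ≤ 1 / (k + 1) := by
      rw [Filter.eventually_all]
      intro x
      refine (eventually_norm_lt I (bA (z k) (hzb k) i x) ?_).mono fun l hl => hl.le
      rw [eA (z k) (hzb k)]
      exact (hzc k x i hik).trans_lt (one_div_lt_one_div_of_lt (by positivity) (by linarith))
    have hB : ∀ᶠ l in I.F, ∀ q : X × X × Fin n,
        ‖star (z k q.1 l) * z k q.2.1 l * SQ.rep I (y q.2.2) l -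
          (if q.1 = q.2.1 then SQ.rep I (y q.2.2) l else 0)‖ ≤ 1 / (k + 1) := by
      rw [Filter.eventually_all]
      intro q
      refine (eventually_norm_lt I (bB (z k) (hzb k) q.1 q.2.1 q.2.2) ?_).mono fun l hl => hl.le
      rw [eB (z k) (hzb k), hzg, sub_self, norm_zero]
      exact hk
    have hC : ∀ᶠ l in I.F, ∀ q : X × Fin n, ‖SQ.rep I (y q.2) l * z k q.1 l‖ ≤ 1 / (k + 1) := by
      rw [Filter.eventually_all]
      intro q
      refine (eventually_norm_lt I (bC (z k) (hzb k) q.1 q.2) ?_).mono fun l hl => hl.le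
      rw [eC (z k) (hzb k), hzy, norm_zero]
      exact hk
    have hD : ∀ᶠ l in I.F, ‖∑ x, z k x l * star (z k x l)‖ < 1 + 1 / (k + 1) := by
      refine eventually_norm_lt I (bD (z k) (hzb k)) ?_
      rw [eD (z k) (hzb k)]
      linarith [hzn k]
    filter_upwards [hA, hB, hC, hD] with l h1 h2 h3 h4
    rw [hΦ]
    exact max_le (Real.iSup_le h1 hk.le) (max_le (Real.iSup_le h2 hk.le)
      (max_le (Real.iSup_le h3 hk.le) (by linarith))))
  obtain ⟨w, hw⟩ : ∃ w : X → I.L → P, ∀ x l, w x l = u l x := ⟨_, fun _ _ => rfl⟩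
  have hwb : ∀ x, Bd (w x) := by
    refine fun x => ⟨2, fun l => ?_⟩
    obtain ⟨k, hk⟩ := hu1 l
    rw [hw, hk]
    exact hz2 k x l
  have hall : ∀ p, ∀ δ : ℝ, 0 < δ → ∀ᶠ l in I.F,
      (∀ x, ‖SQ.rep I (b (f p)) l * w x l - w x l * SQ.rep I (T x (f p)) l‖ ≤ δ) ∧
      (∀ q : X × X × Fin n, ‖star (w q.1 l) * w q.2.1 l * SQ.rep I (y q.2.2) l -
        (if q.1 = q.2.1 then SQ.rep I (y q.2.2) l else 0)‖ ≤ δ) ∧
      (∀ q : X × Fin n, ‖SQ.rep I (y q.2) l * w q.1 l‖ ≤ δ) ∧
      ‖∑ x, w x l * star (w x l)‖ ≤ 1 + δ := by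
    intro p δ hδ
    filter_upwards [hu2 p δ hδ] with l hl
    rw [hΦ] at hl
    have h1 := (le_max_left _ _).trans hl
    have h2 := (le_max_left _ _).trans ((le_max_right _ _).trans hl)
    have h3 := (le_max_left _ _).trans ((le_max_right _ _).trans ((le_max_right _ _).trans hl))
    have h4 := (le_max_right _ _).trans ((le_max_right _ _).trans ((le_max_right _ _).trans hl))
    refine ⟨fun x => ?_, fun q => ?_, fun q => ?_, ?_⟩
    · rw [hw]
      exact (le_ciSup (Set.finite_range _).bddAbove x).trans h1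
    · rw [hw, hw]
      exact (le_ciSup (f := fun q : X × X × Fin n => ‖star (u l q.1) * u l q.2.1 *
        SQ.rep I (y q.2.2) l - (if q.1 = q.2.1 then SQ.rep I (y q.2.2) l else 0)‖)
        (Set.finite_range _).bddAbove q).trans h2
    · rw [hw]
      exact (le_ciSup (f := fun q : X × Fin n => ‖SQ.rep I (y q.2) l * u l q.1‖)
        (Set.finite_range _).bddAbove q).trans h3
    · simp only [hw]
      linarith
  have hc : ∀ t : C(Z2, ℂ) →⋆ₐ[ℂ] R1 I P, Continuous t := fun t =>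
    AddMonoidHomClass.continuous_of_bound t 1 fun g => by
      rw [one_mul]
      exact NonUnitalStarAlgHom.norm_apply_le t g
  refine ⟨fun x => cl I (w x), fun x g => ?_, fun x x' i => ?_, fun x i => ?_, ?_⟩
  · refine hf.induction_on (p := fun g => b g * cl I (w x) = cl I (w x) * T x g) g ?_ ?_
    · exact isClosed_eq ((hc b).mul continuous_const) (continuous_const.mul (hc (T x)))
    · intro p
      rw [← sub_eq_zero, ← eA w hwb p x, cl_eq_zero_iff I (bA w hwb p x)]
      exact ji_tendsto (fun l => norm_nonneg _) fun δ hδ => (hall p δ hδ).mono fun l hl => hl.1 x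
  · rw [← sub_eq_zero, ← eB w hwb x x' i, cl_eq_zero_iff I (bB w hwb x x' i)]
    exact ji_tendsto (fun l => norm_nonneg _) fun δ hδ => (hall 0 δ hδ).mono fun l hl =>
      hl.2.1 (x, x', i)
  · rw [← eC w hwb x i, cl_eq_zero_iff I (bC w hwb x i)]
    exact ji_tendsto (fun l => norm_nonneg _) fun δ hδ => (hall 0 δ hδ).mono fun l hl =>
      hl.2.2.1 (x, i)
  · rw [← eD w hwb]
    refine norm_cl_le I zero_le_two (bD w hwb) ((hall 0 1 one_pos).mono fun l hl => ?_)
    have := hl.2.2.2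
    linarith

section lab

variable {Z : Type} [MetricSpace Z] [CompactSpace Z] [MeasurableSpace Z] [BorelSpace Z]
  {μ : Measure Z} [IsProbabilityMeasure μ]
  {K : Type} [NormedAddCommGroup K] [InnerProductSpace ℂ K] [CompleteSpace K]
  (M : FModel C(Z, ℂ) (intL μ) K) (I : Ix)

theorem absm_labels (k : I.L → ℕ) (ι : Type) [Fintype ι] [DecidableEq ι] :
    ∃ (L : ι → KK I K) (S : ι → R1 I M.PA), (∀ p, inK M I (S p) = L p + star (L p)) ∧
      ∀ p q a, a ∈ Sm M I k →
        star (L p) * inK M I a * L q = if p = q then tcK M I a else 0 := by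
  refine ⟨fun p => fL M I k (Fintype.equivFin ι p), fun p => fS M I k (Fintype.equivFin ι p),
    fun p => inK_fS M I k _, fun p q a ha => ?_⟩
  have h := fL_compress M I k (Fintype.equivFin ι p) (Fintype.equivFin ι q) ha
  rw [h]
  by_cases hpq : p = q
  · rw [if_pos hpq, if_pos (congrArg _ hpq)]
  · rw [if_neg hpq, if_neg fun h => hpq ((Fintype.equivFin ι).injective h)]

theorem absm_Sm (s : Set (R1 I M.PA)) (hs : s.Finite) : ∃ k, ∀ a ∈ s, a ∈ Sm M I k := by
  obtain ⟨n, f, hf⟩ := hs.fin_embedding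
  obtain ⟨k, hk⟩ := exists_Sm M I n f
  refine ⟨k, fun a ha => ?_⟩
  rw [← hf] at ha
  obtain ⟨i, rfl⟩ := ha
  exact hk i

theorem absm_cut (s : Set (R1 I M.PA)) (hs : s.Finite) (hJ : ∀ a ∈ s, J1 I M.trP a) :
    ∃ e : R1 I M.PA, J1 I M.trP e ∧ star e = e ∧ ‖e‖ ≤ 1 ∧ ‖1 - e‖ ≤ 1 ∧
      ∀ a ∈ s, e * a = a ∧ a * e = a := by
  obtain ⟨n, f, hf⟩ := hs.fin_embedding
  obtain ⟨e, h1, h2, h3, h4, h5⟩ := exists_cutJ2 I (fun _ => ptr_trP M) n f (fun i => hJ _ (by
    rw [← hf]
    exact ⟨i, rfl⟩))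
  refine ⟨e, h1, h2, h3, h4, fun a ha => ?_⟩
  rw [← hf] at ha
  obtain ⟨i, rfl⟩ := ha
  exact h5 i

variable {M I} {X : Type} [DecidableEq X] {N : ℕ} {k : I.L → ℕ}
  {L : X × Fin N → KK I K} {S : X × Fin N → R1 I M.PA}
  (hS : ∀ p, inK M I (S p) = L p + star (L p))
  (hL : ∀ p q a, a ∈ Sm M I k → star (L p) * inK M I a * L q = if p = q then tcK M I a else 0)

include hS hL

theorem absm_lin (α γ : Fin N → R1 I M.PA) (x : X)
    (hγ : ∀ j j', γ j * star (γ j') ∈ Sm M I k) (hγJ : ∀ j, J1 I M.trP (γ j * star (γ j))) :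
    inK M I (∑ j, α j * S (x, j) * γ j) =
      ∑ j, inK M I (α j) * L (x, j) * inK M I (γ j) := by
  have h0 : ∑ j, inK M I (α j) * star (L (x, j)) * inK M I (γ j) = 0 := by
    rw [← CStarRing.mul_star_self_eq_zero_iff, absm_sms]
    refine Finset.sum_eq_zero fun j _ => Finset.sum_eq_zero fun j' _ => ?_
    have h1 := hL (x, j) (x, j') _ (hγ j j')
    have h2 : inK M I (α j) * star (L (x, j)) * inK M I (γ j) *
        star (inK M I (α j') * star (L (x, j')) * inK M I (γ j')) =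
        inK M I (α j) * (star (L (x, j)) * inK M I (γ j * star (γ j')) * L (x, j')) *
          star (inK M I (α j')) := by
      rw [star_mul, star_mul, star_star, map_mul, map_star]
      simp only [mul_assoc]
    rw [h2, h1]
    by_cases hj : j = j'
    · subst hj
      rw [if_pos rfl, tcK_J M I (hγJ j), mul_zero, zero_mul]
    · rw [if_neg fun h => hj (congrArg Prod.snd h), mul_zero, zero_mul]
  have h3 : inK M I (∑ j, α j * S (x, j) * γ j) =
      ∑ j, inK M I (α j) * L (x, j) * inK M I (γ j) +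
        ∑ j, inK M I (α j) * star (L (x, j)) * inK M I (γ j) := by
    rw [map_sum, ← Finset.sum_add_distrib]
    refine Finset.sum_congr rfl fun j _ => ?_
    rw [map_mul, map_mul, hS, mul_add, add_mul]
  rw [h3, h0, add_zero]

theorem absm_gram (α γ α' γ' : Fin N → R1 I M.PA) (x x' : X)
    (hα : ∀ j j', star (α j) * α' j' ∈ Sm M I k)
    (hγ : ∀ j j', γ j * star (γ j') ∈ Sm M I k) (hγJ : ∀ j, J1 I M.trP (γ j * star (γ j)))
    (hγ' : ∀ j j', γ' j * star (γ' j') ∈ Sm M I k) (hγJ' : ∀ j, J1 I M.trP (γ' j * star (γ' j)))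
    (s : Fin N → ℂ) (hs : ∀ j, tcK M I (star (α j) * α' j) = algebraMap ℂ (KK I K) (s j)) :
    star (∑ j, α j * S (x, j) * γ j) * (∑ j, α' j * S (x', j) * γ' j) =
      if x = x' then ∑ j, s j • (star (γ j) * γ' j) else 0 := by
  apply inK_inj M I
  rw [map_mul, map_star, absm_lin hS hL α γ x hγ hγJ, absm_lin hS hL α' γ' x' hγ' hγJ',
    absm_ssm]
  have h2 : ∀ j j', star (inK M I (α j) * L (x, j) * inK M I (γ j)) *
      (inK M I (α' j') * L (x', j') * inK M I (γ' j')) =
      if x = x' then (if j = j' then s j • inK M I (star (γ j) * γ' j) else 0) else 0 := by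
    intro j j'
    have h1 := hL (x, j) (x', j') _ (hα j j')
    have h3 : star (inK M I (α j) * L (x, j) * inK M I (γ j)) *
        (inK M I (α' j') * L (x', j') * inK M I (γ' j')) =
        star (inK M I (γ j)) * (star (L (x, j)) * inK M I (star (α j) * α' j') * L (x', j')) *
          inK M I (γ' j') := by
      rw [star_mul, star_mul, map_mul, map_star]
      simp only [mul_assoc]
    rw [h3, h1]
    by_cases hx : x = x'
    · subst hx
      rw [if_pos rfl]
      by_cases hj : j = j'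
      · subst hj
        rw [if_pos rfl, if_pos rfl, hs, Algebra.algebraMap_eq_smul_one, mul_smul_comm, mul_one,
          smul_mul_assoc, map_mul, map_star]
      · rw [if_neg fun h => hj (congrArg Prod.snd h), if_neg hj, mul_zero, zero_mul]
    · rw [if_neg fun h => hx (congrArg Prod.fst h), if_neg hx, mul_zero, zero_mul]
  simp only [h2]
  by_cases hx : x = x'
  · subst hx
    simp only [if_true, Finset.sum_ite_eq, Finset.mem_univ, map_sum, map_smul]
  · simp only [if_neg hx, Finset.sum_const_zero, map_zero]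

end lab

section fn

variable {Z2 : Type} [MetricSpace Z2] [CompactSpace Z2] [MeasurableSpace Z2] [BorelSpace Z2]

theorem absm_osc (ν : Measure Z2) [IsProbabilityMeasure ν] (w u : C(Z2, ℂ)) (δ : ℝ)
    (h : ∀ x, ‖w x‖ ≤ δ * ‖u x‖) :
    ‖intL ν (star w * w)‖ ≤ δ ^ 2 * ‖intL ν (star u * u)‖ := by
  rw [base_intL_star_mul, base_intL_star_mul, Complex.norm_real, Complex.norm_real,
    Real.norm_of_nonneg (integral_nonneg fun x => by positivity),
    Real.norm_of_nonneg (integral_nonneg fun x => by positivity), ← integral_const_mul]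
  have hi : ∀ f : C(Z2, ℂ), Integrable (fun x => ‖f x‖ ^ 2) ν := by
    intro f
    have hc : Continuous (fun x => ‖f x‖ ^ 2) := by fun_prop
    exact hc.integrable_of_hasCompactSupport (HasCompactSupport.of_compactSpace _)
  refine integral_mono (hi w) ((hi u).const_mul _) fun x => ?_
  have h1 := pow_le_pow_left₀ (norm_nonneg _) (h x) 2
  rw [mul_pow] at h1
  exact h1

omit [MeasurableSpace Z2] [BorelSpace Z2] in
theorem absm_oscsum {N : ℕ} (w h : Fin N → C(Z2, ℂ)) (δ : ℝ)
    (hw : ∀ j x, ‖w j x‖ ≤ δ * ‖h j x‖) (hs : ∀ j, star (h j) = h j)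
    (hh : ∑ j, h j * h j = 1) : ‖∑ j, star (w j) * w j‖ ≤ δ ^ 2 := by
  rw [ContinuousMap.norm_le _ (by positivity)]
  intro x
  have h1 : ∑ j, ‖h j x‖ ^ 2 = 1 := by
    have h2 : (∑ j, h j * h j) x = 1 := by rw [hh, ContinuousMap.one_apply]
    rw [ContinuousMap.sum_apply] at h2
    have h3 : ∀ j, (h j * h j) x = ((‖h j x‖ ^ 2 : ℝ) : ℂ) := by
      intro j
      have h4 : star (h j) x = h j x := by rw [hs]
      rw [ContinuousMap.star_apply] at h4
      rw [ContinuousMap.mul_apply]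
      nth_rewrite 1 [← h4]
      rw [Complex.star_def, mul_comm, Complex.mul_conj, Complex.normSq_eq_norm_sq]
    simp only [h3] at h2
    exact_mod_cast h2
  rw [ContinuousMap.sum_apply]
  calc ‖∑ j, (star (w j) * w j) x‖ ≤ ∑ j, ‖(star (w j) * w j) x‖ := norm_sum_le _ _
    _ ≤ ∑ j, δ ^ 2 * ‖h j x‖ ^ 2 := by
        refine Finset.sum_le_sum fun j _ => ?_
        rw [ContinuousMap.mul_apply, ContinuousMap.star_apply, norm_mul, norm_star, ← sq,
          ← mul_pow]
        exact pow_le_pow_left₀ (norm_nonneg _) (hw j x) 2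
    _ = δ ^ 2 := by rw [← Finset.mul_sum, h1, mul_one]

end fn

variable {Z : Type} [MetricSpace Z] [CompactSpace Z] [MeasurableSpace Z] [BorelSpace Z]
  {μ : Measure Z} [IsProbabilityMeasure μ]
  {K : Type} [NormedAddCommGroup K] [InnerProductSpace ℂ K] [CompleteSpace K]
  (M : FModel C(Z, ℂ) (intL μ) K)
  {Z2 : Type} [MetricSpace Z2] [CompactSpace Z2] [MeasurableSpace Z2] [BorelSpace Z2]
  {ν : Measure Z2} [IsProbabilityMeasure ν] [ν.IsOpenPosMeasure]

/-- A homomorphism with the traces given by the measure `ν`. -/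
def TrH (I : Ix) (ν : Measure Z2) [IsFiniteMeasure ν] (b : C(Z2, ℂ) →⋆ₐ[ℂ] R1 I M.PA) : Prop :=
  ∀ f, tcK M I (b f) = algebraMap ℂ (KK I K) (intL ν f)

theorem absm_idl (I : Ix) : Idl (J1 I M.trP) := IsJ.idl I (fun _ => ptr_trP M)

omit [ν.IsOpenPosMeasure] in
theorem absm_tc (I : Ix) (b : C(Z2, ℂ) →⋆ₐ[ℂ] R1 I M.PA) (hb : TrH M I ν b) (d : R1 I M.PA)
    (hd : J1 I M.trP d) (hds : star d = d) (w w' : C(Z2, ℂ)) :
    tcK M I (star (b w * (1 - d)) * (b w' * (1 - d))) =
      algebraMap ℂ (KK I K) (intL ν (star w * w')) := by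
  have h1 : star (b w * (1 - d)) * (b w' * (1 - d)) = b (star w * w') -
      (d * b (star w * w') + b (star w * w') * d - d * (b (star w * w') * d)) := by
    rw [star_mul, star_sub, star_one, hds, map_mul, map_star]
    noncomm_ring
  have h2 : J1 I M.trP (d * b (star w * w') + b (star w * w') * d -
      d * (b (star w * w') * d)) :=
    (absm_idl M I).sub ((absm_idl M I).add _ _ ((absm_idl M I).mul_right _ _ hd)
      ((absm_idl M I).mul_left _ _ hd)) ((absm_idl M I).mul_right _ _ hd)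
  rw [h1, map_sub, tcK_J M I h2, sub_zero, hb]

/-- The operators `v` are of this form. -/
noncomputable def absm_V (I : Ix) (b t : C(Z2, ℂ) →⋆ₐ[ℂ] R1 I M.PA) {N : ℕ}
    (S : Fin N → R1 I M.PA) (d e : R1 I M.PA) (w u : Fin N → C(Z2, ℂ)) : R1 I M.PA :=
  ∑ j, (b (w j) * (1 - d)) * S j * (e * t (u j))

section core

variable {M} {I : Ix} {X : Type} [DecidableEq X] {N : ℕ} {k : I.L → ℕ}
  {L : X × Fin N → KK I K} {S : X × Fin N → R1 I M.PA}
  (hS : ∀ p, inK M I (S p) = L p + star (L p))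
  (hL : ∀ p q a, a ∈ Sm M I k → star (L p) * inK M I a * L q = if p = q then tcK M I a else 0)
  {b : C(Z2, ℂ) →⋆ₐ[ℂ] R1 I M.PA} (hb : TrH M I ν b) {d e : R1 I M.PA} (hd : J1 I M.trP d)
  (hds : star d = d) (he : J1 I M.trP e) (hdk : d ∈ Sm M I k) (hek : e ∈ Sm M I k)

include hS hL hb hd hds he hdk hek

omit [ν.IsOpenPosMeasure] in
theorem absm_gramV (t t' : C(Z2, ℂ) →⋆ₐ[ℂ] R1 I M.PA) (x x' : X)
    (w u w' u' : Fin N → C(Z2, ℂ)) (hw : ∀ j, b (w j) ∈ Sm M I k) (hw' : ∀ j, b (w' j) ∈ Sm M I k)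
    (hu : ∀ j, t (u j) ∈ Sm M I k) (hu' : ∀ j, t' (u' j) ∈ Sm M I k) :
    star (absm_V M I b t (fun j => S (x, j)) d e w u) *
        absm_V M I b t' (fun j => S (x', j)) d e w' u' =
      if x = x' then ∑ j, intL ν (star (w j) * w' j) •
        (star (e * t (u j)) * (e * t' (u' j))) else 0 := by
  have h1d : (1 - d) ∈ Sm M I k := by
    have h := Sm_add M I (Sm_one M I k) (Sm_smul M I (-1) hdk)
    rwa [neg_one_smul, ← sub_eq_add_neg] at h
  unfold absm_V
  refine absm_gram hS hL (fun j => b (w j) * (1 - d)) (fun j => e * t (u j))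
    (fun j => b (w' j) * (1 - d)) (fun j => e * t' (u' j)) x x' (fun j j' => ?_)
    (fun j j' => ?_) (fun j => ?_) (fun j j' => ?_) (fun j => ?_) _
    (fun j => absm_tc M I b hb d hd hds (w j) (w' j))
  · exact Sm_mul M I (Sm_star M I (Sm_mul M I (hw j) h1d)) (Sm_mul M I (hw' j') h1d)
  · exact Sm_mul M I (Sm_mul M I hek (hu j)) (Sm_star M I (Sm_mul M I hek (hu j')))
  · exact (absm_idl M I).mul_right _ _ ((absm_idl M I).mul_right _ _ he)
  · exact Sm_mul M I (Sm_mul M I hek (hu' j)) (Sm_star M I (Sm_mul M I hek (hu' j')))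
  · exact (absm_idl M I).mul_right _ _ ((absm_idl M I).mul_right _ _ he)

omit [ν.IsOpenPosMeasure] in
theorem absm_normV (hen : ‖e‖ ≤ 1) (t : C(Z2, ℂ) →⋆ₐ[ℂ] R1 I M.PA) (x : X)
    (w u : Fin N → C(Z2, ℂ)) (hw : ∀ j, b (w j) ∈ Sm M I k)
    (hu : ∀ j, t (u j) ∈ Sm M I k) (C E : ℝ) (hC : 0 ≤ C) (hE : 0 ≤ E)
    (h1 : ∀ j, ‖intL ν (star (w j) * w j)‖ ≤ E) (h2 : ‖∑ j, star (u j) * u j‖ ≤ C ^ 2) :
    ‖absm_V M I b t (fun j => S (x, j)) d e w u‖ * ‖absm_V M I b t (fun j => S (x, j)) d e w u‖ ≤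
      C * C * E := by
  rw [← CStarRing.norm_star_mul_self, absm_gramV hS hL hb hd hds he hdk hek t t x x w u w u hw hw
    hu hu, if_pos rfl]
  have h3 : ∀ j, intL ν (star (w j) * w j) • (star (e * t (u j)) * (e * t (u j))) =
      t (star (u j)) * (intL ν (star (w j) * w j) • (star e * e)) * star (t (star (u j))) := by
    intro j
    rw [star_mul, map_star, star_star, mul_smul_comm, smul_mul_assoc]
    congr 1
    simp only [mul_assoc]
  simp only [h3]
  refine absm_diag (fun j => t (star (u j))) _ C E hC hE ?_ (fun j => ?_)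
  · have h4 : ∑ j, t (star (u j)) * star (t (star (u j))) = t (∑ j, star (u j) * u j) := by
      rw [map_sum]
      refine Finset.sum_congr rfl fun j _ => ?_
      rw [map_mul, ← map_star, star_star]
    rw [h4]
    exact (NonUnitalStarAlgHom.norm_apply_le t _).trans h2
  · rw [norm_smul, CStarRing.norm_star_mul_self]
    calc ‖intL ν (star (w j) * w j)‖ * (‖e‖ * ‖e‖) ≤ E * (1 * 1) := by
          gcongr
          exact h1 j
      _ = E := by ring

end core

/-- Approximate absorption.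

Proof. Let `(h j, z j, m j)` be a partition for `F`, `ε / 2` (`exists_part` for `ν`). Let `e` be a unit
(`exists_cutJ2`) in the ideal for the elements `T x (h j) * y i` and let `d` be a unit in the ideal for
the elements `y i * b (h j)` (so `y i * b (h j) * (1 - d) = 0`). Choose `k` (`exists_Sm`) for the finitely many
elements `b (h j)`, `b (g * h j)` (`g ∈ F`), `T x (h j)`, `T x (g * h j)`, `d`, `e`; all products are
in `Sm M I k`. With distinct new labels `(x, j)` put
`v x = ∑ j, m_j^{-1/2} • b (h j) * (1 - d) * fS (x, j) * e * T x (h j)`. In `KK I K` write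
`fS = L + L*`. The part with `L*` vanishes: `R = ∑ m_j^{-1/2} β_j L_j* e t_j` satisfies
`R R* = ∑ m_j⁻¹ β_j tcK (e t_j t_j e) β_j* = 0` by `tcK_J`. So `v x = ∑ m_j^{-1/2} β_j L_{x,j} e t_j`,
`β_j = b (h j) (1 - d)`. Then
`v x* v x' = δ ∑ m_j⁻¹ t_j e tcK (β_j* β_j) e t_j = δ ∑ t_j e² t_j`, because
`tcK ((1 - d) b (h j)² (1 - d)) = tcK (b (h j)²) = m_j` (`d` in the ideal). So
`‖(v x* v x')‖ ≤ 1`, hence `‖∑ v x v x*‖ ≤ 1` (the norm of `V V*` is that of `V* V`),
`v x* v x' y i = δ ∑ t_j e² t_j y i = δ y i`, `y i * v x = 0`. For `g ∈ F`: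
`b g v x - v x T x g = ∑ m_j^{-1/2} b ((g - g (z j)) h j) (1 - d) L e t_j - ∑ m_j^{-1/2} β_j L e T x (h j (g - g (z j)))`;
the square of the norm of the first sum is that of
`∑ m_j⁻¹ t_j e tcK ((1 - d) b (|g - g (z j)|² h j²) (1 - d)) e t_j ≤ (ε / 2)²`, and of the second that of
`∑ T x (..)* e e T x (..)`, at most `‖T x (∑ |g - g (z j)|² h j²)‖ ≤ (ε / 2)²`
(`ν.IsOpenPosMeasure` makes `m_j > 0`). -/
theorem abs_approx (I : Ix) (b : C(Z2, ℂ) →⋆ₐ[ℂ] R1 I M.PA) (hb : TrH M I ν b)
    (X : Type) [Fintype X] [DecidableEq X] (T : X → C(Z2, ℂ) →⋆ₐ[ℂ] R1 I M.PA) (n : ℕ)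
    (y : Fin n → R1 I M.PA) (hy : ∀ i, J1 I M.trP (y i)) (F : Finset C(Z2, ℂ)) (ε : ℝ)
    (hε : 0 < ε) :
    ∃ v : X → R1 I M.PA, (∀ x, ∀ f ∈ F, ‖b f * v x - v x * T x f‖ ≤ ε) ∧
      (∀ x x' i, star (v x) * v x' * y i = if x = x' then y i else 0) ∧
      (∀ x i, y i * v x = 0) ∧ ‖∑ x, v x * star (v x)‖ ≤ 1 := by
  obtain ⟨p⟩ := exists_part ν F (ε / 2) (half_pos hε)
  have hI := absm_idl M I
  obtain ⟨e, heJ, hes, hen, -, heu⟩ := absm_cut M I
    (Set.range fun q : X × Fin p.n × Fin n => T q.1 (p.h q.2.1) * y q.2.2) (Set.finite_range _)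
    (by
      rintro a ⟨q, rfl⟩
      exact hI.mul_left _ _ (hy _))
  obtain ⟨d, hdJ, hds, -, -, hdu⟩ := absm_cut M I
    (Set.range fun q : Fin n × Fin p.n => y q.1 * b (p.h q.2)) (Set.finite_range _)
    (by
      rintro a ⟨q, rfl⟩
      exact hI.mul_right _ _ (hy _))
  obtain ⟨u, hu⟩ : ∃ u : Fin p.n → C(Z2, ℂ), ∀ j, u j = (((√(p.m j))⁻¹ : ℝ) : ℂ) • p.h j :=
    ⟨_, fun _ => rfl⟩
  obtain ⟨o, ho⟩ : ∃ o : C(Z2, ℂ) → Fin p.n → C(Z2, ℂ),
      ∀ f j, o f j = f - (f (p.z j)) • (1 : C(Z2, ℂ)) := ⟨_, fun _ _ => rfl⟩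
  obtain ⟨G, hG⟩ : ∃ G : Set C(Z2, ℂ), G = Set.range u ∪ Set.range p.h ∪
      Set.range (fun q : F × Fin p.n => o q.1 q.2 * u q.2) ∪
      Set.range (fun q : F × Fin p.n => o q.1 q.2 * p.h q.2) := ⟨_, rfl⟩
  have hGf : G.Finite := by
    rw [hG]
    exact (((Set.finite_range _).union (Set.finite_range _)).union (Set.finite_range _)).union
      (Set.finite_range _)
  obtain ⟨k, hk⟩ := absm_Sm M I (b '' G ∪ (⋃ x, T x '' G) ∪ {d, e})
    (((hGf.image _).union (Set.finite_iUnion fun x => hGf.image _)).union (Set.toFinite _))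
  have hdk : d ∈ Sm M I k := hk _ (Or.inr (Or.inl rfl))
  have hek : e ∈ Sm M I k := hk _ (Or.inr (Or.inr rfl))
  have hbk : ∀ g ∈ G, b g ∈ Sm M I k := fun g hg => hk _ (Or.inl (Or.inl ⟨g, hg, rfl⟩))
  have hTk : ∀ x, ∀ g ∈ G, T x g ∈ Sm M I k := fun x g hg =>
    hk _ (Or.inl (Or.inr (Set.mem_iUnion.2 ⟨x, g, hg, rfl⟩)))
  have hGu : ∀ j, u j ∈ G := fun j => by
    rw [hG]
    exact Or.inl (Or.inl (Or.inl ⟨j, rfl⟩))
  have hGh : ∀ j, p.h j ∈ G := fun j => by
    rw [hG]
    exact Or.inl (Or.inl (Or.inr ⟨j, rfl⟩))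
  have hGou : ∀ f ∈ F, ∀ j, o f j * u j ∈ G := fun f hf j => by
    rw [hG]
    exact Or.inl (Or.inr ⟨(⟨f, hf⟩, j), rfl⟩)
  have hGoh : ∀ f ∈ F, ∀ j, o f j * p.h j ∈ G := fun f hf j => by
    rw [hG]
    exact Or.inr ⟨(⟨f, hf⟩, j), rfl⟩
  obtain ⟨L, S, hS, hL⟩ := absm_labels M I k (X × Fin p.n)
  -- scalars
  have hmass : ∀ j, intL ν (star (u j) * u j) = 1 := by
    intro j
    have h1 : star (u j) * u j = ((((√(p.m j))⁻¹ : ℝ) : ℂ) * (((√(p.m j))⁻¹ : ℝ) : ℂ)) •
        (p.h j * p.h j) := by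
      rw [hu, star_smul, p.sa, smul_mul_smul_comm, Complex.star_def, Complex.conj_ofReal]
    rw [h1, map_smul, p.mass, smul_eq_mul, ← Complex.ofReal_mul, ← Complex.ofReal_mul,
      ← mul_inv, Real.mul_self_sqrt (p.pos j).le, inv_mul_cancel₀ (p.pos j).ne',
      Complex.ofReal_one]
  have hosch : ∀ f ∈ F, ∀ j x, ‖(o f j * p.h j) x‖ ≤ ε / 2 * ‖p.h j x‖ := by
    intro f hf j x
    have h1 : (o f j * p.h j) x = (f x - f (p.z j)) * p.h j x := by
      rw [ContinuousMap.mul_apply, ho, ContinuousMap.sub_apply, ContinuousMap.smul_apply,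
        ContinuousMap.one_apply, smul_eq_mul, mul_one]
    rw [h1]
    exact p.osc f hf j x
  have hoscu : ∀ f ∈ F, ∀ j x, ‖(o f j * u j) x‖ ≤ ε / 2 * ‖u j x‖ := by
    intro f hf j x
    have h1 : (o f j * u j) x = (((√(p.m j))⁻¹ : ℝ) : ℂ) * (o f j * p.h j) x := by
      rw [hu, mul_smul_comm, ContinuousMap.smul_apply, smul_eq_mul]
    have h2 : u j x = (((√(p.m j))⁻¹ : ℝ) : ℂ) * p.h j x := by
      rw [hu, ContinuousMap.smul_apply, smul_eq_mul]
    rw [h1, h2, norm_mul, norm_mul]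
    have h3 := mul_le_mul_of_nonneg_left (hosch f hf j x)
      (norm_nonneg (((√(p.m j))⁻¹ : ℝ) : ℂ))
    linarith
  have hsumh : ∑ j, star (p.h j) * p.h j = 1 := by
    rw [← p.sum]
    exact Finset.sum_congr rfl fun j _ => by rw [p.sa]
  -- the Gram relations
  have hgram : ∀ x x', star (absm_V M I b (T x) (fun j => S (x, j)) d e u p.h) *
      absm_V M I b (T x') (fun j => S (x', j)) d e u p.h =
      if x = x' then ∑ j, star (e * T x (p.h j)) * (e * T x (p.h j)) else 0 := by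
    intro x x'
    rw [absm_gramV hS hL hb hdJ hds heJ hdk hek (T x) (T x') x x' u p.h u p.h
      (fun j => hbk _ (hGu j)) (fun j => hbk _ (hGu j)) (fun j => hTk x _ (hGh j))
      (fun j => hTk x' _ (hGh j))]
    by_cases hx : x = x'
    · subst hx
      rw [if_pos rfl, if_pos rfl]
      exact Finset.sum_congr rfl fun j _ => by rw [hmass, one_smul]
    · rw [if_neg hx, if_neg hx]
  refine ⟨fun x => absm_V M I b (T x) (fun j => S (x, j)) d e u p.h, fun x f hf => ?_,
    fun x x' i => ?_, fun x i => ?_, ?_⟩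
  · have h1 : b f * absm_V M I b (T x) (fun j => S (x, j)) d e u p.h -
        absm_V M I b (T x) (fun j => S (x, j)) d e u p.h * T x f =
        absm_V M I b (T x) (fun j => S (x, j)) d e (fun j => o f j * u j) p.h -
        absm_V M I b (T x) (fun j => S (x, j)) d e u (fun j => o f j * p.h j) := by
      unfold absm_V
      rw [absm_ms, absm_sm, absm_sd, absm_sd]
      refine Finset.sum_congr rfl fun j _ => ?_
      have hb1 : b (o f j * u j) = b f * b (u j) - f (p.z j) • b (u j) := by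
        rw [map_mul, ho, map_sub, map_smul, map_one, sub_mul, smul_mul_assoc, one_mul]
      have ht1 : T x (o f j * p.h j) = T x (p.h j) * T x f - f (p.z j) • T x (p.h j) := by
        rw [mul_comm, map_mul, ho, map_sub, map_smul, map_one, mul_sub, mul_smul_comm, mul_one]
      rw [hb1, ht1]
      simp only [sub_mul, mul_sub, smul_mul_assoc, mul_smul_comm, mul_assoc, mul_one,
        smul_sub]
      abel
    have hh1 : ‖∑ j, star (p.h j) * p.h j‖ ≤ (1 : ℝ) ^ 2 := by
      rw [hsumh, one_pow]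
      exact norm_one_le' _
    have h2 := absm_normV hS hL hb hdJ hds heJ hdk hek hen (T x) x (fun j => o f j * u j) p.h
      (fun j => hbk _ (hGou f hf j)) (fun j => hTk x _ (hGh j)) 1 ((ε / 2) ^ 2) zero_le_one
      (by positivity) (fun j => by
        have h3 := absm_osc ν (o f j * u j) (u j) (ε / 2) (hoscu f hf j)
        rwa [hmass, norm_one, mul_one] at h3) hh1
    have h3 := absm_normV hS hL hb hdJ hds heJ hdk hek hen (T x) x u (fun j => o f j * p.h j)
      (fun j => hbk _ (hGu j)) (fun j => hTk x _ (hGoh f hf j)) (ε / 2) 1 (by positivity)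
      zero_le_one (fun j => by rw [hmass, norm_one])
      (absm_oscsum _ p.h (ε / 2) (hosch f hf) p.sa p.sum)
    rw [h1]
    refine (norm_sub_le _ _).trans ?_
    have h4 := abs_le_of_sq_le_sq' (a := ‖absm_V M I b (T x) (fun j => S (x, j)) d e
      (fun j => o f j * u j) p.h‖) (b := ε / 2) (by nlinarith) (by positivity)
    have h5 := abs_le_of_sq_le_sq' (a := ‖absm_V M I b (T x) (fun j => S (x, j)) d e u
      (fun j => o f j * p.h j)‖) (b := ε / 2) (by nlinarith) (by positivity)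
    linarith [h4.2, h5.2]
  · rw [hgram]
    by_cases hx : x = x'
    · subst hx
      rw [if_pos rfl, if_pos rfl, absm_sm]
      have h1 : ∀ j, star (e * T x (p.h j)) * (e * T x (p.h j)) * y i =
          T x (p.h j * p.h j) * y i := by
        intro j
        have h2 : e * (T x (p.h j) * y i) = T x (p.h j) * y i := (heu _ ⟨(x, j, i), rfl⟩).1
        calc star (e * T x (p.h j)) * (e * T x (p.h j)) * y i
            = T x (star (p.h j)) * (star e * (e * (T x (p.h j) * y i))) := by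
              rw [star_mul, map_star]
              simp only [mul_assoc]
          _ = T x (p.h j * p.h j) * y i := by
              rw [hes, h2, h2, p.sa, map_mul, mul_assoc]
      simp only [h1]
      rw [← absm_sm, ← map_sum, p.sum, map_one, one_mul]
    · rw [if_neg hx, if_neg hx, zero_mul]
  · unfold absm_V
    rw [absm_ms]
    refine Finset.sum_eq_zero fun j _ => ?_
    have h1 : y i * b (p.h j) * d = y i * b (p.h j) := (hdu _ ⟨(i, j), rfl⟩).2
    have h2 : y i * (b (u j) * (1 - d)) = 0 := by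
      rw [hu, map_smul, smul_mul_assoc, mul_smul_comm, ← mul_assoc, mul_sub, mul_one, h1, sub_self,
        smul_zero]
    calc y i * (b (u j) * (1 - d) * S (x, j) * (e * T x (p.h j)))
        = y i * (b (u j) * (1 - d)) * (S (x, j) * (e * T x (p.h j))) := by
          simp only [mul_assoc]
      _ = 0 := by rw [h2, zero_mul]
  · refine absm_row _ (fun x => ∑ j, star (e * T x (p.h j)) * (e * T x (p.h j))) hgram
      (fun x => ?_)
    have h1 : ∑ j, star (e * T x (p.h j)) * (e * T x (p.h j)) =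
        ∑ j, T x (p.h j) * (star e * e) * star (T x (p.h j)) := by
      refine Finset.sum_congr rfl fun j _ => ?_
      rw [← map_star, p.sa, star_mul, ← map_star, p.sa]
      simp only [mul_assoc]
    rw [h1]
    have h2 := absm_diag (fun j => T x (p.h j)) (fun _ => star e * e) 1 1 zero_le_one
      zero_le_one (by
        have h4 : ∑ j, T x (p.h j) * star (T x (p.h j)) = T x (∑ j, p.h j * p.h j) := by
          rw [map_sum]
          refine Finset.sum_congr rfl fun j _ => ?_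
          rw [map_mul, ← map_star, p.sa]
        rw [h4, p.sum, map_one, one_pow]
        exact norm_one_le' _) (fun _ => by
        rw [CStarRing.norm_star_mul_self]
        exact mul_le_one₀ hen (norm_nonneg _) hen)
    rwa [mul_one, mul_one] at h2

/-- Exact absorption, by `saturate`: `C(Z2, ℂ)` is separable (`Z2` is compact metrizable); the
conditions for the representatives at the index `l` are countably many. -/
theorem absb (I : Ix) (b : C(Z2, ℂ) →⋆ₐ[ℂ] R1 I M.PA) (hb : TrH M I ν b) :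
    Absb (J1 I M.trP) b := by
  intro X _ _ T n y hy
  obtain ⟨v, h1, h2, h3, h4⟩ := absm_sat I b X T n y
    (fun F ε hε => abs_approx M I b hb X T n y hy F ε hε)
  exact ⟨v, h1, h2, h3, h4.trans (by norm_num)⟩

end H7c
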