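import Pool.Agent.H.MP_7b4a29_c.AsmB

/-!
# The two homomorphisms between the two algebras
-/

open Filter Topology MeasureTheory H47

namespace H7c

section asm

variable {Z1 : Type} [MetricSpace Z1] [CompactSpace Z1] [MeasurableSpace Z1] [BorelSpace Z1]
  {μ1 : Measure Z1} [IsProbabilityMeasure μ1] [μ1.IsOpenPosMeasure]
  {K1 : Type} [NormedAddCommGroup K1] [InnerProductSpace ℂ K1] [CompleteSpace K1]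
  (M1 : FModel C(Z1, ℂ) (intL μ1) K1) {z1 : Z1}
  (G1 : Geo Z1 μ1 z1 UnitAddCircle (0 : UnitAddCircle))
  {Z3 : Type} [MetricSpace Z3] [CompactSpace Z3] [MeasurableSpace Z3] [BorelSpace Z3]
  {μ3 : Measure Z3} [IsProbabilityMeasure μ3] [μ3.IsOpenPosMeasure]
  {K3 : Type} [NormedAddCommGroup K3] [InnerProductSpace ℂ K3] [CompleteSpace K3]
  (M3 : FModel C(Z3, ℂ) (intL μ3) K3) {z3 : Z3}
  {Y3 : Type} [TopologicalSpace Y3] [CompactSpace Y3] [T2Space Y3] {y3 : Y3}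
  {q3 : C((UnitAddCircle × Unit) × T2, Y3)} (hq3 : IsQ (Bp (bB (∅ : Set Unit))) y3 q3)
  (G3 : Geo Z3 μ3 z3 Y3 y3)

include G1 G3 hq3 in
/-- The core of the argument: the two homomorphisms `α`, `β`.

Proof. `ρ₁`, `ρ₃` from `Geo.exists_cyc` for `M1.incP`, `M3.incP`, `κ₀`, `κβ` from `exists_isCmp`; `α`, `β` from
`transfer` (`asm_e1`, `asm_e2`) for the label `j = 0`; then `thmV` with `asm_e4` (for the first statement) and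
`asm_e3` (for the second). -/
theorem core : ∃ (α : C(Z3, ℂ) →⋆ₐ[ℂ] M1.PA) (β : C(Z1, ℂ) →⋆ₐ[ℂ] M3.PA),
    (∀ f, M1.trP (α f) = intL μ3 f) ∧ (∀ f, M3.trP (β f) = intL μ1 f) ∧
    (∀ (Ψ : M1.PA →⋆ₐ[ℂ] M3.PA) (N : M3.PA →⋆ₐ[ℂ] M3.PA) (j' : ℕ),
      (∀ x, M3.trP (Ψ x) = M1.trP x) → (∀ x, M3.trP (N x) = M3.trP x) →
      (∀ f, N (M3.incP f) = M3.incP f) → (∀ f, Ψ (M1.incP f) = N (β f)) →
      (∀ f, Ψ (M1.kapP 0 f) = M3.kapP j' f) → ∀ (F : Finset C(Z3, ℂ)) (ε : ℝ), 0 < ε →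
      ∃ u : M3.PA, star u * u = 1 ∧ u * star u = 1 ∧
        ∀ f ∈ F, ‖u * M3.incP f - Ψ (α f) * u‖ ≤ ε) ∧
    (∀ (Φ : M3.PA →⋆ₐ[ℂ] M1.PA) (N : M1.PA →⋆ₐ[ℂ] M1.PA) (j' : ℕ),
      (∀ x, M1.trP (Φ x) = M3.trP x) → (∀ x, M1.trP (N x) = M1.trP x) →
      (∀ f, N (M1.incP f) = M1.incP f) → (∀ f, Φ (M3.incP f) = N (α f)) →
      (∀ f, Φ (M3.kapP 0 f) = M1.kapP j' f) → ∀ (F : Finset C(Z1, ℂ)) (ε : ℝ), 0 < ε →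
      ∃ u : M1.PA, star u * u = 1 ∧ u * star u = 1 ∧
        ∀ f ∈ F, ‖u * M1.incP f - Φ (β f) * u‖ ≤ ε) := by
  have hR1 : Rowy I0 M1.trP := (rowyS M1 I0).rowy
  have hR3 : Rowy I0 M3.trP := (rowyS M3 I0).rowy
  obtain ⟨ρ₁, hρ₁, -⟩ := G1.exists_cyc (ptr_trP M1) M1.incP (fun f => M1.trP_incP f) I0
  obtain ⟨ρ₃, hρ₃, -⟩ := G3.exists_cyc (ptr_trP M3) M3.incP (fun f => M3.trP_incP f) I0
  obtain ⟨κ₀, hκ₀⟩ := exists_isCmp (ptr_trP M1) hR1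
    (com (ptr_trP M1) (fz_PB I0) (lft ρ₁) (JQ0 hq3 I0))
  obtain ⟨κβ, hκβ⟩ := exists_isCmp (ptr_trP M3) hR3
    (com (ptr_trP M3) (two_PB I0) (lft ρ₃) (JW0 hq3 I0))
  obtain ⟨α, κα, Uα, vα, hα1, hα2, hα3, hα4⟩ := transfer M1 G3 0 κ₀
    (fun σ hσ => asm_e1 M1 G1 hq3 ρ₁ hρ₁ κ₀ hκ₀ σ hσ)
  obtain ⟨β, κb, Ub, vb, hβ1, hβ2, hβ3, hβ4⟩ := transfer M3 G1 0 κβ
    (fun σ hσ => asm_e2 M3 hq3 G3 ρ₃ hρ₃ κβ hκβ σ hσ)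
  refine ⟨α, β, hα3, hβ3, ?_, ?_⟩
  · intro Ψ N j' hΨ hN hN1 hΨ1 hk F ε hε
    obtain ⟨e₃, he₃, -⟩ := G3.exists_cyc (ptr_trP M3) M3.incP (fun f => M3.trP_incP f) I2
    exact thmV M1 G3 M3 Ψ hΨ hk hα1 κ₀ hα2 e₃ he₃
      (asm_e4 M1 G1 M3 hq3 G3 ρ₁ hρ₁ κ₀ hκ₀ ρ₃ hρ₃ κβ hκβ β hβ3 hβ4 Ψ hΨ N hN hN1 hΨ1 e₃ he₃)
      F ε hε
  · intro Φ N j' hΦ hN hN1 hΦ1 hk F ε hε
    obtain ⟨e₁, he₁, -⟩ := G1.exists_cyc (ptr_trP M1) M1.incP (fun f => M1.trP_incP f) I2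
    exact thmV M3 G1 M1 Φ hΦ hk hβ1 κβ hβ2 e₁ he₁
      (asm_e3 M1 G1 M3 hq3 G3 ρ₁ hρ₁ κ₀ hκ₀ ρ₃ hρ₃ κβ hκβ α hα3 hα4 Φ hΦ N hN hN1 hΦ1 e₁ he₁)
      F ε hε

end asm

end H7c
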