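import Pool.Agent.H.MP_7b4a29_c.Hty

/-!
# Homotopies between maps of cubes; the flip
-/

open Filter Topology

namespace H7c

/-- The cube. -/
abbrev Cube (n : ℕ) : Type := Fin n → unitInterval

/-- Its boundary. -/
def bd (n : ℕ) : Set (Cube n) := {v | ∃ i, v i = 0 ∨ v i = 1}

/-- Coordinates in `[-1, 1]`. -/
noncomputable def cc {n : ℕ} (v : Cube n) : Fin n → ℝ := fun i => 2 * (v i : ℝ) - 1

/-- Cut off to the cube. -/
noncomputable def cut {n : ℕ} (x : Fin n → ℝ) : Cube n :=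
  fun i => Set.projIcc (0 : ℝ) 1 zero_le_one ((x i + 1) / 2)

theorem cut_cc {n : ℕ} (v : Cube n) : cut (cc v) = v := by
  funext i
  have h1 : ((2 * (v i : ℝ) - 1) + 1) / 2 = (v i : ℝ) := by ring
  show Set.projIcc (0 : ℝ) 1 zero_le_one (((2 * (v i : ℝ) - 1) + 1) / 2) = v i
  rw [h1]
  exact Set.projIcc_val zero_le_one (v i)

theorem cut_bd {n : ℕ} (x : Fin n → ℝ) (h : ∃ i, 1 ≤ |x i|) : cut x ∈ bd n := by
  obtain ⟨i, hi⟩ := h
  refine ⟨i, ?_⟩
  rcases le_abs.1 hi with h1 | h1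
  · right
    show Set.projIcc (0 : ℝ) 1 zero_le_one ((x i + 1) / 2) = 1
    exact Set.projIcc_of_right_le zero_le_one (by linarith)
  · left
    show Set.projIcc (0 : ℝ) 1 zero_le_one ((x i + 1) / 2) = 0
    exact Set.projIcc_of_le_left zero_le_one (by linarith)

theorem cc_bd {n : ℕ} (v : Cube n) (h : v ∈ bd n) : ∃ i, |cc v i| = 1 := by
  obtain ⟨i, hi⟩ := h
  refine ⟨i, ?_⟩
  show |2 * (v i : ℝ) - 1| = 1
  rcases hi with h1 | h1
  · rw [h1]; norm_num
  · rw [h1]; norm_num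

/-- A homotopy given by a family of maps of `ℝⁿ`. -/
theorem exists_cubeH {n : ℕ} (M : ℝ → (Fin n → ℝ) → (Fin n → ℝ))
    (hM : Continuous fun p : ℝ × (Fin n → ℝ) => M p.1 p.2)
    (hb : ∀ s ∈ Set.Icc (0 : ℝ) 1, ∀ x : Fin n → ℝ, (∃ i, |x i| = 1) → (∀ i, |x i| ≤ 1) →
      ∃ i, 1 ≤ |M s x i|) :
    ∃ G : C(unitInterval × Cube n, Cube n), (∀ s, ∀ v ∈ bd n, G (s, v) ∈ bd n) ∧
      ∀ s v, G (s, v) = cut (M s (cc v)) := by
  have hcc : Continuous fun v : Cube n => cc v := by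
    refine continuous_pi fun i => ?_
    show Continuous fun v : Cube n => 2 * (v i : ℝ) - 1
    fun_prop
  have hcut : Continuous fun x : Fin n → ℝ => (cut x : Cube n) := by
    refine continuous_pi fun i => ?_
    show Continuous fun x : Fin n → ℝ => Set.projIcc (0 : ℝ) 1 zero_le_one ((x i + 1) / 2)
    exact continuous_projIcc.comp (by fun_prop)
  have hG : Continuous fun p : unitInterval × Cube n => cut (M p.1 (cc p.2)) := by
    refine hcut.comp ?_
    exact hM.comp ((continuous_subtype_val.comp continuous_fst).prodMk (hcc.comp continuous_snd))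
  refine ⟨⟨_, hG⟩, fun s v hv => ?_, fun s v => rfl⟩
  refine cut_bd _ (hb s s.2 (cc v) (cc_bd v hv) fun i => ?_)
  have h0 := (v i).2.1
  have h1 := (v i).2.2
  show |2 * (v i : ℝ) - 1| ≤ 1
  rw [abs_le]
  constructor <;> linarith

/-- The rotations. -/
noncomputable def rot5 (s : ℝ) (v : Fin 5 → ℝ) : Fin 5 → ℝ :=
  let c := Real.cos (Real.pi * s / 2)
  let d := Real.sin (Real.pi * s / 2)
  let C := Real.cos (Real.pi * s)
  let D := Real.sin (Real.pi * s)
  ![v 0, C * (c * v 1 - d * v 3) - D * (c * v 2 - d * v 4),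
    D * (c * v 1 - d * v 3) + C * (c * v 2 - d * v 4), d * v 1 + c * v 3, d * v 2 + c * v 4]

theorem rot5_zero (v : Fin 5 → ℝ) : rot5 0 v = v := by
  funext i
  fin_cases i <;> simp [rot5]

theorem rot5_one (v : Fin 5 → ℝ) : rot5 1 v = ![v 0, v 3, v 4, v 1, v 2] := by
  funext i
  fin_cases i <;> simp [rot5]

theorem rot5_norm (s : ℝ) (v : Fin 5 → ℝ) : ∑ i, rot5 s v i ^ 2 = ∑ i, v i ^ 2 := by
  have h1 := Real.sin_sq_add_cos_sq (Real.pi * s / 2)
  have h2 := Real.sin_sq_add_cos_sq (Real.pi * s)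
  simp only [Fin.sum_univ_five, rot5]
  set c := Real.cos (Real.pi * s / 2)
  set d := Real.sin (Real.pi * s / 2)
  set C := Real.cos (Real.pi * s)
  set D := Real.sin (Real.pi * s)
  show (v 0) ^ 2 + (C * (c * v 1 - d * v 3) - D * (c * v 2 - d * v 4)) ^ 2 +
    (D * (c * v 1 - d * v 3) + C * (c * v 2 - d * v 4)) ^ 2 + (d * v 1 + c * v 3) ^ 2 +
    (d * v 2 + c * v 4) ^ 2 = _
  linear_combination ((c * v 1 - d * v 3) ^ 2 + (c * v 2 - d * v 4) ^ 2) * h2 +
    (v 1 ^ 2 + v 3 ^ 2 + v 2 ^ 2 + v 4 ^ 2) * h1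

theorem rot5_continuous : Continuous fun p : ℝ × (Fin 5 → ℝ) => rot5 p.1 p.2 := by
  refine continuous_pi fun i => ?_
  fin_cases i
  · show Continuous fun p : ℝ × (Fin 5 → ℝ) => p.2 0
    fun_prop
  · show Continuous fun p : ℝ × (Fin 5 → ℝ) =>
      Real.cos (Real.pi * p.1) * (Real.cos (Real.pi * p.1 / 2) * p.2 1 -
        Real.sin (Real.pi * p.1 / 2) * p.2 3) -
      Real.sin (Real.pi * p.1) * (Real.cos (Real.pi * p.1 / 2) * p.2 2 -
        Real.sin (Real.pi * p.1 / 2) * p.2 4)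
    fun_prop
  · show Continuous fun p : ℝ × (Fin 5 → ℝ) =>
      Real.sin (Real.pi * p.1) * (Real.cos (Real.pi * p.1 / 2) * p.2 1 -
        Real.sin (Real.pi * p.1 / 2) * p.2 3) +
      Real.cos (Real.pi * p.1) * (Real.cos (Real.pi * p.1 / 2) * p.2 2 -
        Real.sin (Real.pi * p.1 / 2) * p.2 4)
    fun_prop
  · show Continuous fun p : ℝ × (Fin 5 → ℝ) =>
      Real.sin (Real.pi * p.1 / 2) * p.2 1 + Real.cos (Real.pi * p.1 / 2) * p.2 3
    fun_prop
  · show Continuous fun p : ℝ × (Fin 5 → ℝ) =>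
      Real.sin (Real.pi * p.1 / 2) * p.2 2 + Real.cos (Real.pi * p.1 / 2) * p.2 4
    fun_prop

/-- The flip of the cube. -/
def flip5 (v : Cube 5) : Cube 5 := ![v 0, v 3, v 4, v 1, v 2]

/-- The flip is homotopic to the identity through boundary preserving maps, in three steps:
`(1 + 2 s) v`, `3 rot5 s v`, `(3 - 2 s) flip v`, each cut off to the cube. In the second step: if
`|x i| = 1` for some `i` then `∑ (rot5 s x) i ^ 2 ≥ 1`, so some `|rot5 s x i| ≥ 1/√5 ≥ 1/3`. -/
theorem flip5_hty : ∃ G : Fin 3 → C(unitInterval × Cube 5, Cube 5),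
    (∀ k s, ∀ v ∈ bd 5, G k (s, v) ∈ bd 5) ∧ (∀ v, G 0 (0, v) = v) ∧
    (∀ v, G 0 (1, v) = G 1 (0, v)) ∧ (∀ v, G 1 (1, v) = G 2 (0, v)) ∧
    ∀ v, G 2 (1, v) = flip5 v := by
  obtain ⟨G0, hG0, hG0'⟩ := exists_cubeH (n := 5) (fun s x => fun i => (1 + 2 * s) * x i)
    (by fun_prop) (fun s hs x hx _ => by
      obtain ⟨i, hi⟩ := hx
      refine ⟨i, ?_⟩
      show 1 ≤ |(1 + 2 * s) * x i|
      rw [abs_mul, hi, mul_one, abs_of_nonneg (by linarith [hs.1])]
      linarith [hs.1])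
  obtain ⟨G1, hG1, hG1'⟩ := exists_cubeH (n := 5) (fun s x => fun i => 3 * rot5 s x i)
    (continuous_pi fun i => continuous_const.mul ((continuous_apply i).comp rot5_continuous))
    (fun s hs x hx _ => by
      obtain ⟨i, hi⟩ := hx
      by_contra hcon
      push Not at hcon
      have h1 : ∀ j, rot5 s x j ^ 2 ≤ 1 / 9 := fun j => by
        have h2 : |3 * rot5 s x j| < 1 := hcon j
        rw [abs_lt] at h2
        nlinarith [h2.1, h2.2]
      have h3 : ∑ j, rot5 s x j ^ 2 ≤ ∑ j : Fin 5, (1 / 9 : ℝ) := Finset.sum_le_sum fun j _ => h1 j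
      rw [rot5_norm] at h3
      have h4 : x i ^ 2 ≤ ∑ j, x j ^ 2 :=
        Finset.single_le_sum (f := fun j => x j ^ 2) (fun j _ => sq_nonneg _) (Finset.mem_univ i)
      have h5 : x i ^ 2 = 1 := by rw [← sq_abs, hi]; norm_num
      have h6 : ∑ j : Fin 5, (1 / 9 : ℝ) = 5 / 9 := by
        rw [Finset.sum_const, Finset.card_univ, Fintype.card_fin]; norm_num
      rw [h6] at h3
      linarith)
  let fl : (Fin 5 → ℝ) → (Fin 5 → ℝ) := fun x => ![x 0, x 3, x 4, x 1, x 2]
  have hfl : ∀ (x : Fin 5 → ℝ) (i : Fin 5), ∃ j, fl x j = x i := by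
    intro x i
    fin_cases i
    · exact ⟨0, rfl⟩
    · exact ⟨3, rfl⟩
    · exact ⟨4, rfl⟩
    · exact ⟨1, rfl⟩
    · exact ⟨2, rfl⟩
  have hflc : Continuous fl := by
    refine continuous_pi fun i => ?_
    fin_cases i
    · exact continuous_apply 0
    · exact continuous_apply 3
    · exact continuous_apply 4
    · exact continuous_apply 1
    · exact continuous_apply 2
  obtain ⟨G2, hG2, hG2'⟩ := exists_cubeH (n := 5) (fun s x => fun i => (3 - 2 * s) * fl x i)
    (continuous_pi fun i => (continuous_const.sub (continuous_const.mul continuous_fst)).mul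
      ((continuous_apply i).comp (hflc.comp continuous_snd)))
    (fun s hs x hx _ => by
      obtain ⟨i, hi⟩ := hx
      obtain ⟨j, hj⟩ := hfl x i
      refine ⟨j, ?_⟩
      show 1 ≤ |(3 - 2 * s) * fl x j|
      rw [abs_mul, hj, hi, mul_one, abs_of_nonneg (by linarith [hs.2])]
      linarith [hs.2])
  refine ⟨![G0, G1, G2], ?_, fun v => ?_, fun v => ?_, fun v => ?_, fun v => ?_⟩
  · intro k
    fin_cases k
    · exact hG0
    · exact hG1
    · exact hG2
  · show G0 (0, v) = v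
    rw [hG0']
    have e : (fun i => (1 + 2 * ((0 : unitInterval) : ℝ)) * cc v i) = cc v := by
      funext i
      rw [Set.Icc.coe_zero]
      ring
    rw [e, cut_cc]
  · show G0 (1, v) = G1 (0, v)
    rw [hG0', hG1']
    congr 1
    funext i
    rw [Set.Icc.coe_zero, Set.Icc.coe_one, rot5_zero]
    ring
  · show G1 (1, v) = G2 (0, v)
    rw [hG1', hG2']
    congr 1
    funext i
    rw [Set.Icc.coe_zero, Set.Icc.coe_one, rot5_one]
    show 3 * fl (cc v) i = (3 - 2 * 0) * fl (cc v) i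
    ring
  · show G2 (1, v) = flip5 v
    rw [hG2']
    have e : (fun i => (3 - 2 * ((1 : unitInterval) : ℝ)) * fl (cc v) i) = cc (flip5 v) := by
      funext i
      rw [Set.Icc.coe_one]
      have e1 : (3 - 2 * (1 : ℝ)) * fl (cc v) i = fl (cc v) i := by ring
      rw [e1]
      fin_cases i <;> rfl
    rw [e, cut_cc]

/-- Straight line homotopies: if `g0`, `g1` are boundary preserving maps of the cube such that every
boundary point is in a face whose segment between the images stays in the boundary, then they are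
homotopic. Here for coordinatewise maps `v ↦ (φ (v i))`, where `φ` fixes `0` and `1`. -/
theorem line_hty {n : ℕ} (φ ψ : C(unitInterval, unitInterval)) (h0 : φ 0 = 0) (h1 : φ 1 = 1)
    (k0 : ψ 0 = 0) (k1 : ψ 1 = 1) :
    ∃ G : C(unitInterval × Cube n, Cube n), (∀ s, ∀ v ∈ bd n, G (s, v) ∈ bd n) ∧
      (∀ v, G (0, v) = fun i => φ (v i)) ∧ (∀ v, G (1, v) = fun i => ψ (v i)) ∧
      ∀ s v i, ((G (s, v) i : unitInterval) : ℝ) = (1 - (s : ℝ)) * φ (v i) + s * ψ (v i) := by
  have hmem : ∀ (s : unitInterval) (x y : unitInterval),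
      (1 - (s : ℝ)) * (x : ℝ) + s * (y : ℝ) ∈ Set.Icc (0 : ℝ) 1 := by
    intro s x y
    have s0 := s.2.1
    have s1 := s.2.2
    have x0 := x.2.1
    have x1 := x.2.2
    have y0 := y.2.1
    have y1 := y.2.2
    have h1 : 0 ≤ (1 - (s : ℝ)) * (x : ℝ) := mul_nonneg (by linarith) x0
    have h2 : 0 ≤ (s : ℝ) * (y : ℝ) := mul_nonneg s0 y0
    have h3 : (1 - (s : ℝ)) * (x : ℝ) ≤ (1 - (s : ℝ)) * 1 :=
      mul_le_mul_of_nonneg_left x1 (by linarith)
    have h4 : (s : ℝ) * (y : ℝ) ≤ s * 1 := mul_le_mul_of_nonneg_left y1 s0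
    exact ⟨by linarith, by linarith⟩
  have hG : Continuous fun p : unitInterval × Cube n => (fun i =>
      (⟨(1 - (p.1 : ℝ)) * (φ (p.2 i) : ℝ) + p.1 * (ψ (p.2 i) : ℝ), hmem _ _ _⟩ : unitInterval)) := by
    refine continuous_pi fun i => ?_
    refine Continuous.subtype_mk ?_ _
    have h1 : Continuous fun p : unitInterval × Cube n => (φ (p.2 i) : ℝ) :=
      continuous_subtype_val.comp (φ.continuous.comp ((continuous_apply i).comp continuous_snd))
    have h2 : Continuous fun p : unitInterval × Cube n => (ψ (p.2 i) : ℝ) :=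
      continuous_subtype_val.comp (ψ.continuous.comp ((continuous_apply i).comp continuous_snd))
    have h3 : Continuous fun p : unitInterval × Cube n => (p.1 : ℝ) :=
      continuous_subtype_val.comp continuous_fst
    exact ((continuous_const.sub h3).mul h1).add (h3.mul h2)
  refine ⟨⟨_, hG⟩, fun s v hv => ?_, fun v => ?_, fun v => ?_, fun s v i => rfl⟩
  · obtain ⟨i, hi⟩ := hv
    refine ⟨i, ?_⟩
    rcases hi with hi | hi
    · left
      refine Subtype.ext ?_
      show (1 - (s : ℝ)) * (φ (v i) : ℝ) + s * (ψ (v i) : ℝ) = ((0 : unitInterval) : ℝ)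
      rw [hi, h0, k0, Set.Icc.coe_zero]
      ring
    · right
      refine Subtype.ext ?_
      show (1 - (s : ℝ)) * (φ (v i) : ℝ) + s * (ψ (v i) : ℝ) = ((1 : unitInterval) : ℝ)
      rw [hi, h1, k1, Set.Icc.coe_one]
      ring
  · funext i
    refine Subtype.ext ?_
    show (1 - ((0 : unitInterval) : ℝ)) * (φ (v i) : ℝ) + ((0 : unitInterval) : ℝ) * (ψ (v i) : ℝ) = _
    rw [Set.Icc.coe_zero]
    ring
  · funext i
    refine Subtype.ext ?_
    show (1 - ((1 : unitInterval) : ℝ)) * (φ (v i) : ℝ) + ((1 : unitInterval) : ℝ) * (ψ (v i) : ℝ) = _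
    rw [Set.Icc.coe_one]
    ring

end H7c
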