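import Pool.Agent.H.MP_7b4a29_c.BOne
import Pool.Agent.H.MP_7b4a29_c.CubeH

/-!
# The composition of `JW` and `JQ`; the key lemma
-/

open Filter Topology

namespace H7c

/-- The projection of `circle × point`. -/
noncomputable def q0 : C(UnitAddCircle × Unit, UnitAddCircle) := ⟨Prod.fst, continuous_fst⟩

theorem isQ_q0 : IsQ (bB (∅ : Set Unit)) (0 : UnitAddCircle) q0 := by
  refine ⟨fun y => ⟨(y, ()), rfl⟩, fun x => ?_, fun x x' h _ => ?_⟩
  · show x.1 = 0 ↔ (x.1 = 0 ∨ x.2 ∈ (∅ : Set Unit))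
    constructor
    · exact fun h => Or.inl h
    · rintro (h | h)
      · exact h
      · exact absurd h (Set.notMem_empty _)
  · exact Prod.ext h rfl

/-- The re-association. -/
noncomputable def asc : C(UnitAddCircle × (Unit × T2), (UnitAddCircle × Unit) × T2) :=
  ⟨fun z => ((z.1, z.2.1), z.2.2), by fun_prop⟩

variable {Y3 : Type} [TopologicalSpace Y3] [CompactSpace Y3] [T2Space Y3] {y3 : Y3}
  {q3 : C((UnitAddCircle × Unit) × T2, Y3)} (hq3 : IsQ (Bp (bB (∅ : Set Unit))) y3 q3)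

include hq3 in
/-- `IsQ.homeo` for `Homeomorph.prodAssoc`. -/
theorem isQ_asc : IsQ (bB (Bp (∅ : Set Unit))) y3 (q3.comp asc) := by
  refine IsQ.homeo hq3 (Homeomorph.prodAssoc UnitAddCircle Unit T2).symm fun x => ?_
  show (x.1 = 0 ∨ (x.2.1 ∈ (∅ : Set Unit) ∨ x.2.2 ∈ dT)) ↔
    ((x.1 = 0 ∨ x.2.1 ∈ (∅ : Set Unit)) ∨ x.2.2 ∈ dT)
  exact or_assoc.symm

variable {Y5 : Type} [TopologicalSpace Y5] [CompactSpace Y5] [T2Space Y5] {y5 : Y5}
  {q5 : C((UnitAddCircle × (Unit × T2)) × T2, Y5)}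
  (hq5 : IsQ (Bp (bB (Bp (∅ : Set Unit)))) y5 q5)

/-- The cube as the source of the quotient map of `Y5`. -/
noncomputable def k5 : C(Cube 5, (UnitAddCircle × (Unit × T2)) × T2) :=
  ⟨fun v => ((ic (v 0), ((), (ic (v 1), ic (v 2)))), (ic (v 3), ic (v 4))), by fun_prop⟩

theorem btwo_ic (s t : unitInterval) (h : ic s = ic t) (h0 : s ≠ 0) (h1 : s ≠ 1) : s = t := by
  have h2 : (((s : ℝ) - (t : ℝ) : ℝ) : UnitAddCircle) = 0 := by
    rw [AddCircle.coe_sub]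
    exact sub_eq_zero.2 h
  obtain ⟨n, hn⟩ := (AddCircle.coe_eq_zero_iff (1 : ℝ)).1 h2
  rw [zsmul_eq_mul, mul_one] at hn
  have s0 : (0 : ℝ) < s := lt_of_le_of_ne s.2.1 fun h3 => h0 (Subtype.ext h3.symm)
  have s1 : (s : ℝ) < 1 := lt_of_le_of_ne s.2.2 fun h3 => h1 (Subtype.ext h3)
  have t0 := t.2.1
  have t1 := t.2.2
  have h3 : (n : ℝ) < 1 := by rw [hn]; linarith
  have h4 : (-1 : ℝ) < n := by rw [hn]; linarith
  have h5 : n < 1 := by exact_mod_cast h3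
  have h6 : -1 < n := by exact_mod_cast h4
  have h7 : n = 0 := by omega
  rw [h7, Int.cast_zero] at hn
  exact Subtype.ext (sub_eq_zero.1 hn.symm)

theorem btwo_ic0 (s : unitInterval) : ic s = 0 ↔ (s = 0 ∨ s = 1) := by
  have e0 : ic 0 = 0 := by
    show (((0 : unitInterval) : ℝ) : UnitAddCircle) = 0
    rw [Set.Icc.coe_zero, QuotientAddGroup.mk_zero]
  have e1 : ic 1 = 0 := by
    show (((1 : unitInterval) : ℝ) : UnitAddCircle) = 0
    rw [Set.Icc.coe_one]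
    exact AddCircle.coe_period (1 : ℝ)
  constructor
  · intro h
    by_contra h1
    rw [not_or] at h1
    exact h1.1 (btwo_ic s 0 (h.trans e0.symm) h1.1 h1.2)
  · rintro (h | h)
    · rw [h, e0]
    · rw [h, e1]

theorem btwo_bd (v : Cube 5) : k5 v ∈ Bp (bB (Bp (∅ : Set Unit))) ↔ v ∈ bd 5 := by
  have h1 : k5 v ∈ Bp (bB (Bp (∅ : Set Unit))) ↔
      ((ic (v 0) = 0 ∨ (() ∈ (∅ : Set Unit) ∨ (ic (v 1) = 0 ∨ ic (v 2) = 0))) ∨
        (ic (v 3) = 0 ∨ ic (v 4) = 0)) := Iff.rfl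
  have h2 : v ∈ bd 5 ↔ ∃ i, v i = 0 ∨ v i = 1 := Iff.rfl
  rw [h1, h2, btwo_ic0, btwo_ic0, btwo_ic0, btwo_ic0, btwo_ic0]
  constructor
  · rintro ((h | (h | (h | h))) | (h | h))
    · exact ⟨0, h⟩
    · exact absurd h (Set.notMem_empty _)
    · exact ⟨1, h⟩
    · exact ⟨2, h⟩
    · exact ⟨3, h⟩
    · exact ⟨4, h⟩
  · rintro ⟨i, h⟩
    fin_cases i
    · exact Or.inl (Or.inl h)
    · exact Or.inl (Or.inr (Or.inr (Or.inl h)))
    · exact Or.inl (Or.inr (Or.inr (Or.inr h)))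
    · exact Or.inr (Or.inl h)
    · exact Or.inr (Or.inr h)

include hq5 in
theorem isQ_k5 : IsQ (bd 5) y5 (q5.comp k5) := by
  refine ⟨fun y => ?_, fun v => ?_, fun v v' h hv => ?_⟩
  · obtain ⟨z, hz⟩ := hq5.surj y
    obtain ⟨⟨a, u, b, c⟩, d, e⟩ := z
    obtain ⟨a', ha⟩ := ic_surj a
    obtain ⟨b', hb⟩ := ic_surj b
    obtain ⟨c', hc⟩ := ic_surj c
    obtain ⟨d', hd⟩ := ic_surj d
    obtain ⟨e', he⟩ := ic_surj e
    refine ⟨![a', b', c', d', e'], ?_⟩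
    rw [← hz]
    show q5 ((ic a', ((), (ic b', ic c'))), (ic d', ic e')) = _
    rw [ha, hb, hc, hd, he]
  · show q5 (k5 v) = y5 ↔ v ∈ bd 5
    rw [hq5.base, btwo_bd]
  · have h1 : k5 v ∉ Bp (bB (Bp (∅ : Set Unit))) := fun h2 => hv ((btwo_bd v).1 h2)
    have h3 : k5 v = k5 v' := hq5.inj (k5 v) (k5 v') h h1
    have h4 : ∀ i, v i ≠ 0 ∧ v i ≠ 1 := by
      intro i
      by_contra h5
      apply hv
      refine ⟨i, ?_⟩
      by_contra h6
      rw [not_or] at h6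
      exact h5 h6
    have e0 : ic (v 0) = ic (v' 0) := congrArg (fun z => z.1.1) h3
    have e1 : ic (v 1) = ic (v' 1) := congrArg (fun z => z.1.2.2.1) h3
    have e2 : ic (v 2) = ic (v' 2) := congrArg (fun z => z.1.2.2.2) h3
    have e3 : ic (v 3) = ic (v' 3) := congrArg (fun z => z.2.1) h3
    have e4 : ic (v 4) = ic (v' 4) := congrArg (fun z => z.2.2) h3
    funext i
    fin_cases i
    · exact btwo_ic _ _ e0 (h4 0).1 (h4 0).2
    · exact btwo_ic _ _ e1 (h4 1).1 (h4 1).2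
    · exact btwo_ic _ _ e2 (h4 2).1 (h4 2).2
    · exact btwo_ic _ _ e3 (h4 3).1 (h4 3).2
    · exact btwo_ic _ _ e4 (h4 4).1 (h4 4).2

/-- The flip `(t, (u, y)), y' ↦ (t, (u, y')), y` upstairs. -/
noncomputable def flp : C((UnitAddCircle × (Unit × T2)) × T2, (UnitAddCircle × (Unit × T2)) × T2) :=
  ⟨fun z => ((z.1.1, (z.1.2.1, z.2)), z.1.2.2), by fun_prop⟩

include hq5 in
/-- The flip descends, and the descended map is homotopic to the identity in three steps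
(`flip5_hty`, `IsQ.exists_hty`, `isQ_k5`; the values of the flip on the cube are given by
`flip5`). -/
theorem exists_flip : ∃ (σ : C(Y5, Y5)) (_ : σ y5 = y5) (H : Fin 3 → C(unitInterval × Y5, Y5)),
    (∀ z, σ (q5 z) = q5 (flp z)) ∧ (∀ k s, H k (s, y5) = y5) ∧ (∀ y, H 0 (0, y) = y) ∧
    (∀ y, H 0 (1, y) = H 1 (0, y)) ∧ (∀ y, H 1 (1, y) = H 2 (0, y)) ∧
    ∀ y, H 2 (1, y) = σ y := by
  obtain ⟨G, hG, g0, g1, g2, g3⟩ := flip5_hty
  have hk := isQ_k5 hq5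
  have hne : (bd 5).Nonempty := ⟨fun _ => 0, 0, Or.inl rfl⟩
  have hB : ∀ z ∈ Bp (bB (Bp (∅ : Set Unit))), flp z ∈ Bp (bB (Bp (∅ : Set Unit))) := by
    rintro z ((h | (h | h)) | h)
    · exact Or.inl (Or.inl h)
    · exact absurd h (Set.notMem_empty _)
    · exact Or.inr h
    · exact Or.inl (Or.inr (Or.inr h))
  have hne' : (Bp (bB (Bp (∅ : Set Unit)))).Nonempty :=
    ⟨k5 fun _ => 0, (btwo_bd _).2 ⟨0, Or.inl rfl⟩⟩
  obtain ⟨σ, hσ0, hσ⟩ := hq5.exists_map hq5 flp hB hne'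
  choose H hH0 hH using fun k => hk.exists_hty hk (G k) (hG k) hne
  have hH' : ∀ k s v, H k (s, q5 (k5 v)) = q5 (k5 (G k (s, v))) := hH
  refine ⟨σ, hσ0, H, hσ, hH0, fun y => ?_, fun y => ?_, fun y => ?_, fun y => ?_⟩
  · obtain ⟨v, rfl⟩ := hk.surj y
    show H 0 (0, q5 (k5 v)) = q5 (k5 v)
    rw [hH', g0]
  · obtain ⟨v, rfl⟩ := hk.surj y
    show H 0 (1, q5 (k5 v)) = H 1 (0, q5 (k5 v))
    rw [hH', hH', g1]
  · obtain ⟨v, rfl⟩ := hk.surj y
    show H 1 (1, q5 (k5 v)) = H 2 (0, q5 (k5 v))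
    rw [hH', hH', g2]
  · obtain ⟨v, rfl⟩ := hk.surj y
    show H 2 (1, q5 (k5 v)) = σ (q5 (k5 v))
    rw [hH', g3, hσ]
    rfl

variable {I : Ix} {P : Type} [CStarAlgebra P] {τ : P →ₗ[ℂ] ℂ} {S : Sz I}

variable (I) in
/-- `JW` from the circle to `Y3`: `C(circle) → C(Y3, RM (two I) ℂ)`. -/
noncomputable abbrev JW0 : BH (two I) Y3 y3 UnitAddCircle (0 : UnitAddCircle) := JW I isQ_q0 hq3

variable (I) in
/-- `JQ` from `Y3` to the circle: `C(Y3) → C(circle, RM (fz I) ℂ)`. -/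
noncomputable abbrev JQ0 : BH (fz I) UnitAddCircle (0 : UnitAddCircle) Y3 y3 := JQ I isQ_q0 hq3

theorem btwo_m1 {ι κ : Type} [Fintype ι] [DecidableEq ι] [Fintype κ] [DecidableEq κ]
    (ξ : MM ι ℂ) : MM.ri (Equiv.prodComm κ ι) (MM.amp κ ξ) = MM.scl κ ℂ ξ := by
  refine MM.ext fun p q => ?_
  rw [MM.e_ri, MM.e_amp, MM.e_scl]
  rfl

theorem btwo_m2 {ι κ : Type} [Fintype ι] [DecidableEq ι] [Fintype κ] [DecidableEq κ]
    (ξ : MM κ ℂ) : MM.ri (Equiv.prodComm κ ι) (MM.scl ι ℂ ξ) = MM.amp ι ξ := by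
  refine MM.ext fun p q => ?_
  rw [MM.e_ri, MM.e_amp, MM.e_scl]
  rfl

/-- Swapping the factors of sizes: `rel` of `Equiv.prodComm` exchanges `ampR` and `sclR`. -/
theorem rel_ampR (N M : Sz I) (x : RM N ℂ) :
    rel (S := N.prod M) (S' := M.prod N) (fun _ => Equiv.prodComm _ _) ℂ (ampR N M x) =
      sclR M ℂ N x := by
  obtain ⟨ξ, hξ, rfl⟩ := cl_surj I x
  obtain ⟨y1, b1, h1, k1⟩ := rowc_ex_amp (S := N) (N := M) hξ
  obtain ⟨y2, b2, h2, k2⟩ := cmpb_ex_rel (S := N.prod M) (S' := M.prod N)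
    (fun l => Equiv.prodComm (M.ty l) (N.ty l)) b1
  obtain ⟨y3, b3, h3, k3⟩ := rowc_ex_scl (S := M) (P := ℂ) hξ
  rw [h1, h3]
  refine h2.trans ?_
  congr 1
  funext l
  rw [k2, k1, k3]
  exact btwo_m1 (ξ l)

theorem rel_sclR (N M : Sz I) (x : RM M ℂ) :
    rel (S := N.prod M) (S' := M.prod N) (fun _ => Equiv.prodComm _ _) ℂ (sclR N ℂ M x) =
      ampR M N x := by
  obtain ⟨ξ, hξ, rfl⟩ := cl_surj I x
  obtain ⟨y1, b1, h1, k1⟩ := rowc_ex_scl (S := N) (P := ℂ) hξ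
  obtain ⟨y2, b2, h2, k2⟩ := cmpb_ex_rel (S := N.prod M) (S' := M.prod N)
    (fun l => Equiv.prodComm (M.ty l) (N.ty l)) b1
  obtain ⟨y3, b3, h3, k3⟩ := rowc_ex_amp (S := M) (N := N) hξ
  rw [h1, h3]
  refine h2.trans ?_
  congr 1
  funext l
  rw [k2, k1, k3]
  exact btwo_m2 (ξ l)

/-- The constant unitary function. -/
noncomputable def btwo_W {D : Type} [CStarAlgebra D] (w : unitary D) : unitary C(T2, D) :=
  mapU (cns T2 D) w

theorem btwo_uev {D : Type} [CStarAlgebra D] (w : unitary D) (z : T2) : uev (btwo_W w) z = w :=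
  Subtype.ext rfl

/-- The two homomorphisms on `circle × torus`. -/
theorem btwo_hom (w : unitary (RM (two I) ℂ)) (F : C(UnitAddCircle × T2, ℂ)) :
    ext (two I) (ff I) (Fn (btwo_W w) (ContinuousMap.id T2) F) =
      rel (S := (two I).prod (fz I)) (S' := (fz I).prod (two I))
        (fun _ => Equiv.prodComm _ _) ℂ (ext (fz I) (uh w) (kQ I UnitAddCircle F)) := by
  have h1 := tens2_ext
    (s := (ext (two I) (ff I)).comp (Fn (btwo_W w) (ContinuousMap.id T2)))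
    (t := (rel (S := (two I).prod (fz I)) (S' := (fz I).prod (two I))
        (fun _ => Equiv.prodComm _ _) ℂ).comp ((ext (fz I) (uh w)).comp (kQ I UnitAddCircle)))
    (fun g => ?_) (fun g => ?_)
  · exact congrArg (fun φ : C(UnitAddCircle × T2, ℂ) →⋆ₐ[ℂ] RM ((fz I).prod (two I)) ℂ => φ F) h1
  · rw [StarAlgHom.comp_apply, StarAlgHom.comp_apply, StarAlgHom.comp_apply]
    have e1 : Fn (btwo_W w) (ContinuousMap.id T2) (c1 UnitAddCircle T2 g) =
        cns T2 (RM (two I) ℂ) (uh w g) := by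
      refine ContinuousMap.ext fun z => ?_
      rw [Fn_apply, btwo_uev, cns_apply]
      rfl
    have e2 : kQ I UnitAddCircle (c1 UnitAddCircle T2 g) = sc UnitAddCircle (RM (fz I) ℂ) g := by
      refine ContinuousMap.ext fun t => ?_
      rw [kQ_apply, sc_apply]
      have e3 : (⟨fun y => c1 UnitAddCircle T2 g (t, y), (c1 UnitAddCircle T2 g).continuous.comp
          (Continuous.prodMk_right t)⟩ : C(T2, ℂ)) = algebraMap ℂ C(T2, ℂ) (g t) := by
        refine ContinuousMap.ext fun y => ?_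
        rfl
      rw [e3, AlgHomClass.commutes]
    rw [e1, e2, ext_cns, ext_sc]
    exact (rel_ampR (two I) (fz I) (uh w g)).symm
  · rw [StarAlgHom.comp_apply, StarAlgHom.comp_apply, StarAlgHom.comp_apply]
    have e1 : Fn (btwo_W w) (ContinuousMap.id T2) (c2 UnitAddCircle T2 g) =
        sc T2 (RM (two I) ℂ) g := by
      refine ContinuousMap.ext fun z => ?_
      rw [Fn_apply, btwo_uev, sc_apply]
      have e3 : slc (c2 UnitAddCircle T2 g) (ContinuousMap.id T2 z) =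
          algebraMap ℂ C(UnitAddCircle, ℂ) (g z) := by
        refine ContinuousMap.ext fun y => ?_
        rfl
      rw [e3, AlgHomClass.commutes]
    have e2 : kQ I UnitAddCircle (c2 UnitAddCircle T2 g) =
        cns UnitAddCircle (RM (fz I) ℂ) (ff I g) := by
      refine ContinuousMap.ext fun t => ?_
      rw [kQ_apply, cns_apply]
      rfl
    rw [e1, e2, ext_cns, ext_sc]
    exact (rel_sclR (two I) (fz I) (ff I g)).symm

/-- The two composites.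

Proof. Let `y = q3 ((t, u), z)`, `w = W(t, z)` (the unitary `uev (WW I Unit) ((t, u), z)` of
`RM (two I) ℂ`). Both sides are the value at `F = f ∘ q3 ∘ ((t', z') ↦ ((t', u), z'))` of a homomorphism of
`C(UnitAddCircle × T2, ℂ)`.
Right side: by `BH.comp_apply`, `JW_h` (with `isQ_q0`) and `JQ_h`:
`ext (fz I) (uh w) (t' ↦ ff (F (t', ·)))`; on `F = c1 g` this is `ampR (uh w g)`, on `F = c2 h` it is
`sclR (ff h)`; after `rel` it is `sclR (uh w g)`, `ampR (ff h)`.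
Left side: by `BH.comp_apply`, `JQ_h`, `ext_pull`, `BH.pre_h`, the property of `σ`, and `JW_h`:
`ext (two I) (ff I) (z' ↦ uh w (F (·, z')))`; for `F = c1 g` the function is the constant `uh w g`, which
gives `sclR (uh w g)`; for `F = c2 h` it is `sc h`, which gives `ampR (ff h)`.
So the two homomorphisms agree by `tens2_ext`. -/
theorem comp_flip (σ : C(Y5, Y5)) (hσ0 : σ y5 = y5) (hσ : ∀ z, σ (q5 z) = q5 (flp z))
    (f : C(Y3, ℂ)) (y : Y3) :
    ((JQ I (isQ_asc hq3) hq5).comp ((JW I (isQ_asc hq3) hq5).pre σ hσ0)).h f y =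
      rel (S := (two I).prod (fz I)) (S' := (fz I).prod (two I))
        (fun _ => Equiv.prodComm _ _) ℂ (((JW0 hq3 I).comp (JQ0 hq3 I)).h f y) := by
  obtain ⟨⟨⟨t, u⟩, z⟩, rfl⟩ := hq3.surj y
  obtain ⟨w, hw⟩ : ∃ w, w = uev (WW I Unit) ((t, u), z) := ⟨_, rfl⟩
  obtain ⟨F, hF⟩ : ∃ F : C(UnitAddCircle × T2, ℂ), ∀ t' z', F (t', z') = f (q3 ((t', u), z')) :=
    ⟨⟨fun p => f (q3 ((p.1, u), p.2)), by fun_prop⟩, fun _ _ => rfl⟩
  -- the left hand side
  have l1 : (evx (RM (fz I) ℂ) (q3 ((t, u), z))).comp (JQ I (isQ_asc hq3) hq5).h =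
      (ff I).comp (ContinuousMap.compStarAlgHom' ℂ ℂ (⟨fun z' => q5 ((t, (u, z)), z'),
        q5.continuous.comp (Continuous.prodMk_right _)⟩ : C(T2, Y5))) := by
    refine StarAlgHom.ext fun g => ?_
    exact JQ_h I (isQ_asc hq3) hq5 g (t, (u, z))
  have l2 : ((JQ I (isQ_asc hq3) hq5).comp ((JW I (isQ_asc hq3) hq5).pre σ hσ0)).h f
      (q3 ((t, u), z)) = ext (two I) (ff I) (Fn (btwo_W w) (ContinuousMap.id T2) F) := by
    rw [BH.comp_apply, l1, ext_pull]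
    congr 1
    refine ContinuousMap.ext fun z' => ?_
    rw [Fn_apply, btwo_uev]
    show ((JW I (isQ_asc hq3) hq5).pre σ hσ0).h f (q5 ((t, (u, z)), z')) = _
    rw [BH.pre_h, hσ]
    show (JW I (isQ_asc hq3) hq5).h f (q5 ((t, (u, z')), z)) = _
    rw [JW_h]
    have l3 : uev (WW I (Unit × T2)) ((t, (u, z')), z) = w := by
      rw [hw]
      refine Subtype.ext ?_
      rw [coe_uev, coe_uev, WW_apply, WW_apply]
    have l4 : slc (f.comp (q3.comp asc)) (u, z') = slc F (ContinuousMap.id T2 z') := by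
      refine ContinuousMap.ext fun t' => ?_
      exact (hF t' z').symm
    rw [l3, ← l4]
  -- the right hand side
  have r1 : (evx (RM (two I) ℂ) (q3 ((t, u), z))).comp (JW0 hq3 I).h = uh w := by
    refine StarAlgHom.ext fun g => ?_
    have r2 := JW_h I isQ_q0 hq3 g ((t, u), z)
    rw [← hw] at r2
    exact r2
  have r3 : (JQ0 hq3 I).h f = kQ I UnitAddCircle F := by
    refine ContinuousMap.ext fun t' => ?_
    rw [kQ_apply]
    have r4 := JQ_h I isQ_q0 hq3 f (t', u)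
    refine r4.trans ?_
    congr 1
    refine ContinuousMap.ext fun z' => ?_
    exact (hF t' z').symm
  rw [l2, BH.comp_apply, r1, r3]
  exact btwo_hom w F

theorem btwo_closed : IsClosed (Bp (bB (Bp (∅ : Set Unit)))) := by
  have h1 : IsClosed dT := by
    have h2 : dT = {y : T2 | y.1 = 0} ∪ {y : T2 | y.2 = 0} := rfl
    rw [h2]
    exact (isClosed_eq continuous_fst continuous_const).union
      (isClosed_eq continuous_snd continuous_const)
  have h3 : IsClosed (Bp (∅ : Set Unit)) := by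
    have h2 : Bp (∅ : Set Unit) = (Prod.fst ⁻¹' (∅ : Set Unit)) ∪ (Prod.snd ⁻¹' dT) := rfl
    rw [h2]
    exact (isClosed_empty.preimage continuous_fst).union (h1.preimage continuous_snd)
  have h4 : IsClosed (bB (Bp (∅ : Set Unit))) := by
    have h2 : bB (Bp (∅ : Set Unit)) = {z : UnitAddCircle × (Unit × T2) | z.1 = 0} ∪
        (Prod.snd ⁻¹' (Bp (∅ : Set Unit))) := rfl
    rw [h2]
    exact (isClosed_eq continuous_fst continuous_const).union (h3.preimage continuous_snd)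
  have h2 : Bp (bB (Bp (∅ : Set Unit))) =
      (Prod.fst ⁻¹' (bB (Bp (∅ : Set Unit)))) ∪ (Prod.snd ⁻¹' dT) := rfl
  rw [h2]
  exact (h4.preimage continuous_fst).union (h1.preimage continuous_snd)

section btwoPre

variable {M N : Sz I} {Z : Type} [TopologicalSpace Z] [CompactSpace Z] [T2Space Z] {z0 : Z}
  {Y : Type} [TopologicalSpace Y] [CompactSpace Y] [T2Space Y] {y0 : Y}
  {Y'' : Type} [TopologicalSpace Y''] [CompactSpace Y''] [T2Space Y''] {y0'' : Y''}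

theorem btwo_pre_congr (hτ : PTr τ) (hR : Rowy I τ) (hN : (M.prod N).PB)
    (d : CM τ Z z0 S) (J : BH M Z z0 Y y0) (J' : BH N Y y0 Y'' y0'') {g g' : C(Y, Y)}
    (h : g = g') (hg : g y0 = y0) (hg' : g' y0 = y0) :
    EqvM (com hτ hN d (J.comp (J'.pre g hg))) (com hτ hN d (J.comp (J'.pre g' hg'))) := by
  subst h
  exact EqvM.refl _

theorem btwo_pre_id (hτ : PTr τ) (hR : Rowy I τ) (hN : (M.prod N).PB)
    (d : CM τ Z z0 S) (J : BH M Z z0 Y y0) (J' : BH N Y y0 Y'' y0'') :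
    EqvM (com hτ hN d (J.comp (J'.pre (ContinuousMap.id Y) rfl)))
      (com hτ hN d (J.comp J')) := by
  refine eqvM_of_h hτ hR hN d ?_
  refine StarAlgHom.ext fun f => ?_
  refine ContinuousMap.ext fun y => ?_
  rw [BH.comp_apply, BH.comp_apply]
  congr 1

end btwoPre

/-- The second composition.

Proof. `Y5`, `q5` exist by `exists_quot` (the set `Bp (bB (Bp ∅))` is closed and nonempty).
`(d ∘ JW0) ∘ JQ0 ∼ d ∘ (JW0.comp JQ0)` (`eqvM_com_com`) `∼ d ∘ (JQ.comp (JW.pre σ))` (`eqvM_com_rel`,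
`comp_flip`) `∼ d ∘ (JQ.comp JW)` (`exists_flip`, `eqvM_comp_pre_hty` three times) `∼ d` (`b1'`). -/
theorem b2 (hτ : PTr τ) (hR : Rowy I τ) (d : CM τ Y3 y3 S) :
    EqvM (com hτ (fz_PB I) (com hτ (two_PB I) d (JW0 hq3 I)) (JQ0 hq3 I)) d := by
  have hcl : IsClosed (Bp (bB (Bp (∅ : Set Unit)))) := btwo_closed
  have hne : (Bp (bB (Bp (∅ : Set Unit)))).Nonempty :=
    ⟨k5 fun _ => 0, (btwo_bd _).2 ⟨0, Or.inl rfl⟩⟩
  obtain ⟨Y5, _, _, _, y5, q5, hq5⟩ := exists_quot _ _ hcl hne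
  obtain ⟨σ, hσ0, H, hσ, h0, g0, g1, g2, g3⟩ := exists_flip hq5
  have hPB := PB.prod (fz_PB I) (two_PB I)
  have e1 := eqvM_com_com hτ hR (two_PB I) (fz_PB I) d (JW0 hq3 I) (JQ0 hq3 I)
  have e2 : EqvM (com hτ (PB.prod (two_PB I) (fz_PB I)) d ((JW0 hq3 I).comp (JQ0 hq3 I)))
      (com hτ hPB d ((JQ I (isQ_asc hq3) hq5).comp ((JW I (isQ_asc hq3) hq5).pre σ hσ0))) :=
    eqvM_com_rel hτ hR (PB.prod (two_PB I) (fz_PB I)) hPB (fun _ => Equiv.prodComm _ _) d _ _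
      (comp_flip hq3 hq5 σ hσ0 hσ)
  have p0 := eqvM_comp_pre_hty hτ hR hPB d (JQ I (isQ_asc hq3) hq5) (JW I (isQ_asc hq3) hq5)
    (H 0) (h0 0)
  have p1 := eqvM_comp_pre_hty hτ hR hPB d (JQ I (isQ_asc hq3) hq5) (JW I (isQ_asc hq3) hq5)
    (H 1) (h0 1)
  have p2 := eqvM_comp_pre_hty hτ hR hPB d (JQ I (isQ_asc hq3) hq5) (JW I (isQ_asc hq3) hq5)
    (H 2) (h0 2)
  have m1 : hm (H 0) 1 = hm (H 1) 0 := ContinuousMap.ext g1
  have m2 : hm (H 1) 1 = hm (H 2) 0 := ContinuousMap.ext g2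
  have m3 : hm (H 2) 1 = σ := ContinuousMap.ext g3
  have m0 : hm (H 0) 0 = ContinuousMap.id Y5 := ContinuousMap.ext g0
  have c1 := btwo_pre_congr hτ hR hPB d (JQ I (isQ_asc hq3) hq5) (JW I (isQ_asc hq3) hq5)
    m1 (h0 0 1) (h0 1 0)
  have c2 := btwo_pre_congr hτ hR hPB d (JQ I (isQ_asc hq3) hq5) (JW I (isQ_asc hq3) hq5)
    m2 (h0 1 1) (h0 2 0)
  have c3 := btwo_pre_congr hτ hR hPB d (JQ I (isQ_asc hq3) hq5) (JW I (isQ_asc hq3) hq5)
    m3 (h0 2 1) hσ0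
  have c0 := btwo_pre_congr hτ hR hPB d (JQ I (isQ_asc hq3) hq5) (JW I (isQ_asc hq3) hq5)
    m0 (h0 0 0) rfl
  have c4 := btwo_pre_id hτ hR hPB d (JQ I (isQ_asc hq3) hq5) (JW I (isQ_asc hq3) hq5)
  have e4 := b1' hτ hR (isQ_asc hq3) hq5 d
  have t0 := EqvM.trans hτ hR e1 e2
  have t1 := EqvM.trans hτ hR t0 c3.symm
  have t2 := EqvM.trans hτ hR t1 p2.symm
  have t3 := EqvM.trans hτ hR t2 c2.symm
  have t4 := EqvM.trans hτ hR t3 p1.symm
  have t5 := EqvM.trans hτ hR t4 c1.symm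
  have t6 := EqvM.trans hτ hR t5 p0.symm
  have t7 := EqvM.trans hτ hR t6 c0
  have t8 := EqvM.trans hτ hR t7 c4
  exact EqvM.trans hτ hR t8 e4

/-- The key lemma. -/
theorem key (hτ : PTr τ) (hR : Rowy I τ) {S' : Sz I} (d : CM τ Y3 y3 S) (d' : CM τ Y3 y3 S')
    (h : EqvM (com hτ (two_PB I) d (JW0 hq3 I)) (com hτ (two_PB I) d' (JW0 hq3 I))) :
    EqvM d d' := by
  have h1 := EqvM.com hτ (fz_PB I) hR h (JQ0 hq3 I)
  exact EqvM.trans hτ hR (b2 hq3 hτ hR d).symm (EqvM.trans hτ hR h1 (b2 hq3 hτ hR d'))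

end H7c
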