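import Pool.Agent.H.MP_7b4a29_c.Fre
import Pool.Agent.H.MP_7b4a29_c.GTa

/-!
# Rows over a Fock model
-/

open Filter Topology MeasureTheory H47

namespace H7c

variable {Z : Type} [MetricSpace Z] [CompactSpace Z] [MeasurableSpace Z] [BorelSpace Z]
  {μ : Measure Z} [IsProbabilityMeasure μ]
  {K : Type} [NormedAddCommGroup K] [InnerProductSpace ℂ K] [CompleteSpace K]
  (M : FModel C(Z, ℂ) (intL μ) K)

/-! ### Auxiliary material -/

section rowymAux

variable {Q : Type} [CStarAlgebra Q] {ι : Type} [Fintype ι] [DecidableEq ι]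

/-- The norm of a row is the norm of its Gram matrix. -/
theorem rowym_sum_le (x : ι → Q) :
    ‖∑ i, x i * star (x i)‖ ≤ ‖MM.of (fun i j => star (x i) * x j)‖ := by
  rcases isEmpty_or_nonempty ι with hι | ⟨⟨i0⟩⟩
  · rw [Finset.univ_eq_empty, Finset.sum_empty, norm_zero]
    exact norm_nonneg _
  · obtain ⟨X, hX⟩ : ∃ X : MM ι Q, X = MM.of (fun i j => if i = i0 then x j else 0) := ⟨_, rfl⟩
    have h1 : MM.of (fun i j => star (x i) * x j) = star X * X := by
      apply MM.ext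
      intro i j
      rw [MM.e_mul, MM.e_of]
      simp only [MM.e_star, hX, MM.e_of]
      rw [Finset.sum_eq_single i0]
      · simp
      · intro b _ hb
        simp [hb]
      · intro h
        exact absurd (Finset.mem_univ _) h
    have h2 : MM.e (X * star X) i0 i0 = ∑ i, x i * star (x i) := by
      rw [MM.e_mul]
      simp only [MM.e_star, hX, MM.e_of, if_true]
    rw [h1, ← h2]
    refine (MM.norm_e_le _ _ _).trans ?_
    rw [CStarRing.norm_self_mul_star, CStarRing.norm_star_mul_self]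

theorem rowym_add (x y : ι → Q) (C D : ℝ) (hC : 0 ≤ C) (hD : 0 ≤ D)
    (hx : ‖∑ i, x i * star (x i)‖ ≤ C ^ 2) (hy : ‖∑ i, y i * star (y i)‖ ≤ D ^ 2) :
    ‖∑ i, (x i + y i) * star (x i + y i)‖ ≤ (C + D) ^ 2 := by
  have h1 := row_norm_X x C hC hx
  have h2 := row_norm_X y D hD hy
  have h3 : row_X (fun i => x i + y i) = row_X x + row_X y := by
    refine MM.ext fun p q => ?_
    rw [MM.e_add]
    cases p with
    | none =>
      cases q with
      | none => rw [row_X_nn, row_X_nn, row_X_nn, add_zero]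
      | some i => rw [row_X_ns, row_X_ns, row_X_ns]
    | some i => rw [row_X_s, row_X_s, row_X_s, add_zero]
  have h4 : MM.e (row_X (fun i => x i + y i) * star (row_X (fun i => x i + y i))) none none =
      ∑ i, (x i + y i) * star (x i + y i) := by
    rw [MM.e_mul, Fintype.sum_option]
    simp only [MM.e_star, row_X_nn, row_X_ns, zero_mul, zero_add]
  rw [← h4]
  refine (MM.norm_e_le _ _ _).trans ?_
  rw [CStarRing.norm_self_mul_star, ← sq, h3]
  exact pow_le_pow_left₀ (norm_nonneg _) ((norm_add_le _ _).trans (add_le_add h1 h2)) 2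

/-- The Gram matrix of a sum of rows. -/
theorem rowym_gram (x y : ι → Q) (C D : ℝ) (hC : 0 ≤ C) (hD : 0 ≤ D)
    (hx : ‖∑ i, x i * star (x i)‖ ≤ C ^ 2) (hy : ‖∑ i, y i * star (y i)‖ ≤ D ^ 2) :
    ‖MM.of (fun i j => star (x i + y i) * (x j + y j)) - MM.of (fun i j => star (x i) * x j)‖ ≤
      2 * (C * D) + D * D := by
  have h1 : MM.of (fun i j => star (x i + y i) * (x j + y j)) -
      MM.of (fun i j => star (x i) * x j) = MM.of (fun i j => star (x i) * y j) +
        MM.of (fun i j => star (y i) * x j) + MM.of (fun i j => star (y i) * y j) := by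
    refine MM.ext fun i j => ?_
    rw [MM.e_sub, MM.e_add, MM.e_add, MM.e_of, MM.e_of, MM.e_of, MM.e_of, MM.e_of, star_add]
    noncomm_ring
  rw [h1]
  have h2 := MM.norm_gram_le x y C D hC hD hx hy
  have h3 := MM.norm_gram_le y x D C hD hC hy hx
  have h4 := MM.norm_gram_le y y D D hD hD hy hy
  refine (norm_add_le _ _).trans ?_
  have h5 := norm_add_le (MM.of (fun i j => star (x i) * y j)) (MM.of (fun i j => star (y i) * x j))
  nlinarith

end rowymAux

theorem rowym_st (u : M.PA) :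
    M.st ((u : K →L[ℂ] K) * star (u : K →L[ℂ] K)) = ((nsq M.trP u : ℝ) : ℂ) := by
  have h1 : nsq M.trP u = nsq M.trP (star u) := (nsq_star (ptr_trP M) u).symm
  have h2 : nsq M.trP (star u) =
      (M.st (star (star (u : K →L[ℂ] K)) * star (u : K →L[ℂ] K))).re := rfl
  have h3 := M.st_star_mul (star (u : K →L[ℂ] K))
  rw [h1, h2, h3]
  rw [star_star] at h3
  rw [h3, Complex.ofReal_re]

/-- The estimate for one matrix: `e` a self-adjoint matrix with entries in `E {j | j < k}` and norm at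
most `1`; the row `X_z = ∑_y s_{k + i y} e_{yz}`.

Proof. In operators: `X = A + B`, `A_z = ∑_y ℓ_{k + i y} e_{yz}`, `B_z = ∑_y ℓ_{k + i y}* e_{yz}`.
`A_z* A_z' = ∑_y e_{yz}* e_{yz'} = (e* e)_{zz'}` (`FModel.compress_fam`).
The column `B*` : `∑_z B_z B_z*`: its norm is the norm of `C* C` for the column
`C_z = B_z* = ∑_y e_{yz}* ℓ_{k + i y}`: `∑_z C_z* C_z = ∑_z ∑_y τ(e_{yz} e_{yz}*) = nsq e`.
So the norms of the rows: `‖A‖ ≤ 1`, `‖B‖² ≤ nsq e`; the Gram matrix of `X` differs from `e* e` by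
`A* B + B* A + B* B`, of norm at most `2 δ + δ²` with `δ² = nsq e` (`MM.norm_gram_le` for operators). -/
theorem row_model {ι : Type} [Fintype ι] [DecidableEq ι] (k : ℕ) (i : ι → ℕ)
    (hi : Function.Injective i) (e : MM ι M.PA)
    (he : ∀ a b, ((MM.e e a b : M.PA) : K →L[ℂ] K) ∈ M.E {j | j < k}) (he1 : ‖e‖ ≤ 1) :
    ∃ X : ι → M.PA,
      ‖∑ z, X z * star (X z)‖ ≤ (1 + Real.sqrt (nsq (MM.tr ι M.trP) e)) ^ 2 ∧
      ‖MM.of (fun z z' => star (X z) * X z') - star e * e‖ ≤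
        2 * Real.sqrt (nsq (MM.tr ι M.trP) e) + nsq (MM.tr ι M.trP) e := by
  classical
  obtain ⟨φ, hφ⟩ : ∃ φ : M.PA →⋆ₐ[ℂ] (K →L[ℂ] K), φ = (M.E Set.univ).subtype := ⟨_, rfl⟩
  have hφa : ∀ x : M.PA, φ x = (x : K →L[ℂ] K) := fun x => by rw [hφ]; rfl
  have hφi : Function.Injective φ := by
    intro x y hxy
    rw [hφa, hφa] at hxy
    exact Subtype.ext hxy
  have hφn : ∀ x : M.PA, ‖φ x‖ = ‖x‖ := fun x => NonUnitalStarAlgHom.norm_map φ hφi x
  obtain ⟨E, hE⟩ : ∃ E : ι → ι → (K →L[ℂ] K), E = fun y z => ((MM.e e y z : M.PA) : K →L[ℂ] K) :=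
    ⟨_, rfl⟩
  have hE' : ∀ y z, E y z = ((MM.e e y z : M.PA) : K →L[ℂ] K) := fun y z => by rw [hE]
  have hEm : ∀ y z, E y z ∈ M.E {j | j < k} := fun y z => by rw [hE']; exact he y z
  have hS : ∀ y, k + i y ∉ {j : ℕ | j < k} := fun y h => by
    have : k + i y < k := h
    omega
  have hinj : Function.Injective fun y => k + i y := fun a b hab => hi (by
    have : k + i a = k + i b := hab
    omega)
  have hab : ∀ s t, ∀ x ∈ M.E {j | j < k}, star (M.ell (k + i s)) * x * M.ell (k + i t) =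
      if s = t then algebraMap ℂ (K →L[ℂ] K) (M.st x) else 0 := fun s t x hx =>
    M.compress_fam {j | j < k} (fun y => k + i y) hinj hS s t x hx
  obtain ⟨A, hA⟩ : ∃ A : ι → (K →L[ℂ] K), A = fun z => ∑ y, 1 * M.ell (k + i y) * E y z := ⟨_, rfl⟩
  obtain ⟨C, hC⟩ : ∃ C : ι → (K →L[ℂ] K), C = fun z => ∑ y, star (E y z) * M.ell (k + i y) * 1 :=
    ⟨_, rfl⟩
  have hAA : ∀ z z', star (A z) * A z' = ∑ y, star (E y z) * E y z' := by
    intro z z'
    rw [hA]
    show star (∑ y, 1 * M.ell (k + i y) * E y z) * (∑ y, 1 * M.ell (k + i y) * E y z') = _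
    rw [cre_mul (M.E {j | j < k}) M.st (fun y => M.ell (k + i y)) (fun y => M.ell (k + i y)) hab
      (fun _ => 1) (fun y => E y z) (fun _ => 1) (fun y => E y z') (fun _ => one_mem _)
      (fun _ => one_mem _)]
    refine Finset.sum_congr rfl fun y _ => ?_
    rw [star_one, one_mul, M.st_one, one_smul]
  have hCC : ∀ z, star (C z) * C z =
      ((∑ y, nsq M.trP (MM.e e y z) : ℝ) : ℂ) • (1 : K →L[ℂ] K) := by
    intro z
    rw [hC]
    show star (∑ y, star (E y z) * M.ell (k + i y) * 1) *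
      (∑ y, star (E y z) * M.ell (k + i y) * 1) = _
    rw [cre_mul (M.E {j | j < k}) M.st (fun y => M.ell (k + i y)) (fun y => M.ell (k + i y)) hab
      (fun y => star (E y z)) (fun _ => 1) (fun y => star (E y z)) (fun _ => 1)
      (fun y => star_mem (hEm y z)) (fun y => star_mem (hEm y z)), Complex.ofReal_sum,
      Finset.sum_smul]
    refine Finset.sum_congr rfl fun y _ => ?_
    rw [star_one, one_mul, star_star, hE', rowym_st]
  -- the two norms
  have hn0 : 0 ≤ nsq (MM.tr ι M.trP) e := nsq_nonneg (ptr_trP M).mat e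
  obtain ⟨δ, hδ⟩ : ∃ δ : ℝ, δ = Real.sqrt (nsq (MM.tr ι M.trP) e) := ⟨_, rfl⟩
  have hδ0 : 0 ≤ δ := by rw [hδ]; exact Real.sqrt_nonneg _
  have hδ2 : δ * δ = nsq (MM.tr ι M.trP) e := by rw [hδ]; exact Real.mul_self_sqrt hn0
  have hmE : MM.mapH φ (star e * e) = MM.of (fun z z' => star (A z) * A z') := by
    refine MM.ext fun z z' => ?_
    rw [MM.e_mapH, MM.e_of, hAA, MM.e_mul, map_sum]
    refine Finset.sum_congr rfl fun y _ => ?_
    rw [map_mul, MM.e_star, map_star, hφa, hφa, hE', hE']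
  have hnA : ‖∑ z, A z * star (A z)‖ ≤ 1 ^ 2 := by
    refine (rowym_sum_le A).trans ?_
    rw [← hmE, MM.norm_mapH φ hφi, CStarRing.norm_star_mul_self]
    nlinarith [norm_nonneg e]
  have hnB : ‖∑ z, star (C z) * star (star (C z))‖ ≤ δ ^ 2 := by
    have h1 : ∑ z, star (C z) * star (star (C z)) =
        ((nsq (MM.tr ι M.trP) e : ℝ) : ℂ) • (1 : K →L[ℂ] K) := by
      rw [nsq_mat, Finset.sum_comm, Complex.ofReal_sum, Finset.sum_smul]
      refine Finset.sum_congr rfl fun z _ => ?_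
      rw [star_star, hCC]
    rw [h1, norm_smul, Complex.norm_real, Real.norm_eq_abs, abs_of_nonneg hn0, sq, hδ2]
    exact mul_le_of_le_one_right hn0 (norm_one_le' _)
  -- the row
  have hXm : ∀ y, M.s (k + i y) ∈ M.E Set.univ := fun y => M.s_mem _ _ (Set.mem_univ _)
  obtain ⟨X, hX⟩ : ∃ X : ι → M.PA, X = fun z =>
      ∑ y, (⟨M.s (k + i y), hXm y⟩ : M.PA) * MM.e e y z := ⟨_, rfl⟩
  have hX1 : ∀ z, φ (X z) = A z + star (C z) := by
    intro z
    rw [hX, hA, hC]
    show φ (∑ y, (⟨M.s (k + i y), hXm y⟩ : M.PA) * MM.e e y z) =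
      (∑ y, 1 * M.ell (k + i y) * E y z) + star (∑ y, star (E y z) * M.ell (k + i y) * 1)
    rw [map_sum, star_sum, ← Finset.sum_add_distrib]
    refine Finset.sum_congr rfl fun y _ => ?_
    rw [map_mul, hφa, hφa, one_mul, mul_one, star_mul, star_star, ← add_mul, hE']
    rfl
  refine ⟨X, ?_, ?_⟩
  · rw [← hφn, map_sum]
    have h1 : ∀ z, φ (X z * star (X z)) = (A z + star (C z)) * star (A z + star (C z)) := by
      intro z
      rw [map_mul, map_star, hX1]
    simp only [h1]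
    rw [← hδ]
    exact rowym_add A (fun z => star (C z)) 1 δ zero_le_one hδ0 hnA hnB
  · rw [← MM.norm_mapH φ hφi, map_sub, hmE]
    have h1 : MM.mapH φ (MM.of (fun z z' => star (X z) * X z')) =
        MM.of (fun z z' => star (A z + star (C z)) * (A z' + star (C z'))) := by
      refine MM.ext fun z z' => ?_
      rw [MM.e_mapH, MM.e_of, MM.e_of, map_mul, map_star, hX1, hX1]
    rw [h1]
    refine (rowym_gram A (fun z => star (C z)) 1 δ zero_le_one hδ0 hnA hnB).trans ?_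
    rw [← hδ, hδ2, one_mul]

theorem rowym_adj (x : K →L[ℂ] K)
    (hx : x ∈ StarAlgebra.adjoin ℂ (Set.range M.inc ∪ M.s '' Set.univ)) :
    ∃ k : ℕ, x ∈ M.E {j | j < k} := by
  have hmono : ∀ {a b : ℕ}, a ≤ b → M.E {j | j < a} ≤ M.E {j | j < b} := fun {a b} hab =>
    M.E_mono fun j (hj : j < a) => lt_of_lt_of_le hj hab
  induction hx using StarAlgebra.adjoin_induction with
  | mem b hb =>
    rcases hb with ⟨a, rfl⟩ | ⟨j, _, rfl⟩
    · exact ⟨0, M.inc_mem _ a⟩
    · exact ⟨j + 1, M.s_mem _ j (Nat.lt_succ_self j)⟩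
  | algebraMap c => exact ⟨0, algebraMap_mem _ c⟩
  | add b d _ _ h1 h2 =>
    obtain ⟨k1, h1⟩ := h1
    obtain ⟨k2, h2⟩ := h2
    exact ⟨max k1 k2, add_mem (hmono (le_max_left _ _) h1) (hmono (le_max_right _ _) h2)⟩
  | mul b d _ _ h1 h2 =>
    obtain ⟨k1, h1⟩ := h1
    obtain ⟨k2, h2⟩ := h2
    exact ⟨max k1 k2, mul_mem (hmono (le_max_left _ _) h1) (hmono (le_max_right _ _) h2)⟩
  | star b _ h1 =>
    obtain ⟨k1, h1⟩ := h1
    exact ⟨k1, star_mem h1⟩

theorem rowym_dense (x : M.PA) (ε : ℝ) (hε : 0 < ε) :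
    ∃ (k : ℕ) (y : M.PA), ‖x - y‖ ≤ ε ∧ (y : K →L[ℂ] K) ∈ M.E {j | j < k} := by
  have h1 : (x : K →L[ℂ] K) ∈ closure
      ((StarAlgebra.adjoin ℂ (Set.range M.inc ∪ M.s '' Set.univ) : StarSubalgebra ℂ (K →L[ℂ] K)) :
        Set (K →L[ℂ] K)) := x.2
  obtain ⟨y, hy, hxy⟩ := Metric.mem_closure_iff.1 h1 ε hε
  obtain ⟨k, hk⟩ := rowym_adj M y hy
  refine ⟨k, ⟨y, M.E_mono (Set.subset_univ _) hk⟩, ?_, hk⟩
  rw [dist_eq_norm] at hxy
  exact hxy.le

/-- A matrix can be approximated by matrices with entries in some `E {j | j < k}`. -/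
theorem mat_approx {ι : Type} [Fintype ι] [DecidableEq ι] (e : MM ι M.PA) (ε : ℝ) (hε : 0 < ε) :
    ∃ (k : ℕ) (e' : MM ι M.PA), ‖e - e'‖ ≤ ε ∧
      ∀ a b, ((MM.e e' a b : M.PA) : K →L[ℂ] K) ∈ M.E {j | j < k} := by
  obtain ⟨ε', hε', h1⟩ : ∃ ε' : ℝ, 0 < ε' ∧ ε' * ((Fintype.card ι : ℝ) * Fintype.card ι) ≤ ε := by
    refine ⟨ε / ((Fintype.card ι : ℝ) * Fintype.card ι + 1), by positivity, ?_⟩
    rw [div_mul_eq_mul_div, div_le_iff₀ (by positivity)]
    nlinarith
  choose k y hy1 hy2 using fun a b => rowym_dense M (MM.e e a b) ε' hε'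
  obtain ⟨k0, hk0⟩ : ∃ k0 : ℕ, ∀ a b, k a b ≤ k0 := by
    refine ⟨Finset.univ.sup fun p : ι × ι => k p.1 p.2, fun a b => ?_⟩
    exact Finset.le_sup (f := fun p : ι × ι => k p.1 p.2) (Finset.mem_univ (a, b))
  refine ⟨k0, MM.of y, ?_, fun a b => ?_⟩
  · refine (MM.norm_le_sum _).trans ?_
    have h2 : ∑ a, ∑ b, ‖MM.e (e - MM.of y) a b‖ ≤ ∑ _a : ι, ∑ _b : ι, ε' :=
      Finset.sum_le_sum fun a _ => Finset.sum_le_sum fun b _ => by
        rw [MM.e_sub, MM.e_of]
        exact hy1 a b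
    refine h2.trans ?_
    simp only [Finset.sum_const, Finset.card_univ, nsmul_eq_mul]
    calc (Fintype.card ι : ℝ) * ((Fintype.card ι : ℝ) * ε')
        = ε' * ((Fintype.card ι : ℝ) * Fintype.card ι) := by ring
      _ ≤ ε := h1
  · rw [MM.e_of]
    exact M.E_mono (fun j (hj : j < k a b) => lt_of_lt_of_le hj (hk0 a b)) (hy2 a b)

/-- There are enough rows.

Proof. `e` from `exists_cutJ` for the traces `MM.tr (S.ty l) M.trP` (`PTr.mat`, `ptr_trP`). Represent `e`
by `e l` with rapidly decreasing `nsq`, approximate by `e' l` with entries in `E {j | j < k l}`, within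
`ε l → 0` chosen such that also `nsq (e' l) → 0` (`nsq_sub_le`, `nsq_le_norm`, the trace of `1` is the
cardinality of `S.ty l`), and divide by `1 + ε l` to have norm at most `1` (representatives of norm
at most `1`: rescale, `‖e‖ ≤ 1`). Apply `row_model`; where `nsq (e' l) > 1` take the zero row. The Gram
matrix has the class `star e * e = e * e`, and `e * e * a = a`. -/
theorem rowyS (I : Ix) : RowyS I M.trP := by
  intro S n a ha
  have hτ : PTr M.trP := ptr_trP M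
  have hT : ∀ l, PTr (MM.tr (S.ty l) M.trP) := fun l => hτ.mat
  obtain ⟨e, ⟨x, hx, hxe, hk⟩, hes, he1, -, hea⟩ := exists_cutJ I hT n a ha
  have hw : ∀ l, (0 : ℝ) < (I.w l : ℝ) + 1 := fun l => by positivity
  have hcd : ∀ l, (0 : ℝ) < (Fintype.card (S.ty l) : ℝ) + 1 := fun l => by positivity
  choose k y hy1 hy2 using fun l => mat_approx M (x l)
    (1 / (((I.w l : ℝ) + 1) * ((Fintype.card (S.ty l) : ℝ) + 1)))
    (one_div_pos.2 (mul_pos (hw l) (hcd l)))
  have hcard : ∀ l, ((MM.tr (S.ty l) M.trP) 1).re = Fintype.card (S.ty l) := by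
    intro l
    rw [MM.tr_apply, Complex.re_sum]
    have h1 : ∀ i : S.ty l, (M.trP (MM.e (1 : MM (S.ty l) M.PA) i i)).re = 1 := by
      intro i
      rw [MM.e_one, if_pos rfl]
      have h2 : M.trP 1 = 1 := M.st_one
      rw [h2, Complex.one_re]
    rw [Finset.sum_congr rfl fun i _ => h1 i, Finset.sum_const, Finset.card_univ, nsmul_eq_mul,
      mul_one]
  have hw0 : Tendsto (fun l => 1 / ((I.w l : ℝ) + 1)) I.F (𝓝 0) := by
    have h1 : Tendsto (fun l => (I.w l : ℝ) + 1) I.F atTop :=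
      tendsto_atTop_add_const_right _ _ (tendsto_natCast_atTop_atTop.comp I.tw)
    refine h1.inv_tendsto_atTop.congr fun l => ?_
    rw [Pi.inv_apply, one_div]
  have hw1 : ∀ l, 1 / (((I.w l : ℝ) + 1) * ((Fintype.card (S.ty l) : ℝ) + 1)) ≤
      1 / ((I.w l : ℝ) + 1) := by
    intro l
    refine one_div_le_one_div_of_le (hw l) ?_
    have h1 : (1 : ℝ) ≤ (Fintype.card (S.ty l) : ℝ) + 1 := by
      have : (0 : ℝ) ≤ (Fintype.card (S.ty l) : ℝ) := Nat.cast_nonneg _
      linarith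
    exact le_mul_of_one_le_right (hw l).le h1
  have hxy : Tendsto (fun l => ‖x l - y l‖) I.F (𝓝 0) :=
    squeeze_zero (fun l => norm_nonneg _) (fun l => (hy1 l).trans (hw1 l)) hw0
  -- the two-norms
  have hnxy : ∀ l, nsq (MM.tr (S.ty l) M.trP) (x l - y l) ≤ 1 / ((I.w l : ℝ) + 1) := by
    intro l
    refine (nsq_le_norm (hT l) _).trans ?_
    rw [hcard]
    have h1 := hy1 l
    have h2 : (0 : ℝ) ≤ (Fintype.card (S.ty l) : ℝ) := Nat.cast_nonneg _
    have h3 : (1 : ℝ) ≤ (I.w l : ℝ) + 1 := by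
      have : (0 : ℝ) ≤ (I.w l : ℝ) := Nat.cast_nonneg _
      linarith
    have h4 : ‖x l - y l‖ ^ 2 ≤
        (1 / (((I.w l : ℝ) + 1) * ((Fintype.card (S.ty l) : ℝ) + 1))) ^ 2 :=
      pow_le_pow_left₀ (norm_nonneg _) h1 2
    refine (mul_le_mul_of_nonneg_right h4 h2).trans ?_
    have h5 : (1 / (((I.w l : ℝ) + 1) * ((Fintype.card (S.ty l) : ℝ) + 1))) ^ 2 *
        (Fintype.card (S.ty l) : ℝ) = 1 / ((I.w l : ℝ) + 1) * ((1 / ((I.w l : ℝ) + 1)) *
          ((Fintype.card (S.ty l) : ℝ) / ((Fintype.card (S.ty l) : ℝ) + 1) *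
            (1 / ((Fintype.card (S.ty l) : ℝ) + 1)))) := by
      have := (hw l).ne'
      have := (hcd l).ne'
      field_simp
    rw [h5]
    refine mul_le_of_le_one_right (by positivity) ?_
    refine mul_le_one₀ ?_ (by positivity) (mul_le_one₀ ?_ (by positivity) ?_)
    · rw [div_le_one (hw l)]
      exact h3
    · rw [div_le_one (hcd l)]
      linarith
    · rw [div_le_one (hcd l)]
      linarith
  have hny : Tendsto (fun l => nsq (MM.tr (S.ty l) M.trP) (y l)) I.F (𝓝 0) := by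
    have h0 := hk 0
    simp only [pow_zero, one_mul] at h0
    have h1 := (h0.const_mul 2).add (hw0.const_mul 2)
    rw [mul_zero, add_zero] at h1
    refine squeeze_zero (fun l => nsq_nonneg (hT l) _) (fun l => ?_) h1
    have h2 := nsq_sub_le (hT l) (x l) (x l - y l)
    rw [sub_sub_cancel] at h2
    have h3 := hnxy l
    linarith
  -- normalization
  obtain ⟨m, hm⟩ : ∃ m : I.L → ℝ, m = fun l => max 1 ‖y l‖ := ⟨_, rfl⟩
  have hm1 : ∀ l, 1 ≤ m l := fun l => by rw [hm]; exact le_max_left _ _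
  have hmy : ∀ l, ‖y l‖ ≤ m l := fun l => by rw [hm]; exact le_max_right _ _
  have hm0 : Tendsto (fun l => m l - 1) I.F (𝓝 0) := by
    rw [Metric.tendsto_nhds]
    intro η hη
    have h1 : ‖cl I x‖ < 1 + η / 2 := by
      rw [hxe]
      linarith
    have h2 := hxy.eventually_lt_const (show (0 : ℝ) < η / 2 by linarith)
    filter_upwards [eventually_norm_lt I hx h1, h2] with l hl1 hl2
    have h3 : ‖y l‖ < 1 + η := by
      have h4 : y l = x l - (x l - y l) := by rw [sub_sub_cancel]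
      have h5 := norm_sub_le (x l) (x l - y l)
      rw [← h4] at h5
      linarith
    rw [Real.dist_eq, sub_zero, abs_of_nonneg (by linarith [hm1 l])]
    have h6 : m l < 1 + η := by
      rw [hm]
      exact max_lt (by linarith) h3
    linarith
  obtain ⟨z, hz⟩ : ∃ z : ∀ l, MM (S.ty l) M.PA, z = fun l => (((m l)⁻¹ : ℝ) : ℂ) • y l :=
    ⟨_, rfl⟩
  have hmi0 : ∀ l, 0 ≤ (m l)⁻¹ := fun l => inv_nonneg.2 (by linarith [hm1 l])
  have hmi1 : ∀ l, (m l)⁻¹ ≤ 1 := fun l => inv_le_one_of_one_le₀ (hm1 l)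
  have hcn : ∀ l, ‖(((m l)⁻¹ : ℝ) : ℂ)‖ = (m l)⁻¹ := fun l => by
    rw [Complex.norm_real, Real.norm_eq_abs, abs_of_nonneg (hmi0 l)]
  have hz1 : ∀ l, ‖z l‖ ≤ 1 := by
    intro l
    rw [hz]
    show ‖(((m l)⁻¹ : ℝ) : ℂ) • y l‖ ≤ 1
    rw [norm_smul, hcn]
    calc (m l)⁻¹ * ‖y l‖ ≤ (m l)⁻¹ * m l := mul_le_mul_of_nonneg_left (hmy l) (hmi0 l)
      _ = 1 := inv_mul_cancel₀ (by linarith [hm1 l])
  have hzy : ∀ l, ‖z l - y l‖ ≤ m l - 1 := by
    intro l
    have h1 : z l - y l = ((((m l)⁻¹ - 1 : ℝ)) : ℂ) • y l := by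
      rw [hz, Complex.ofReal_sub, sub_smul, Complex.ofReal_one, one_smul]
    rw [h1, norm_smul, Complex.norm_real, Real.norm_eq_abs, abs_sub_comm,
      abs_of_nonneg (by linarith [hmi1 l])]
    calc (1 - (m l)⁻¹) * ‖y l‖ ≤ (1 - (m l)⁻¹) * m l :=
          mul_le_mul_of_nonneg_left (hmy l) (by linarith [hmi1 l])
      _ = m l - 1 := by rw [sub_mul, inv_mul_cancel₀ (by linarith [hm1 l]), one_mul]
  have hnz : Tendsto (fun l => nsq (MM.tr (S.ty l) M.trP) (z l)) I.F (𝓝 0) := by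
    refine squeeze_zero (fun l => nsq_nonneg (hT l) _) (fun l => ?_) hny
    rw [hz]
    show nsq (MM.tr (S.ty l) M.trP) ((((m l)⁻¹ : ℝ) : ℂ) • y l) ≤ _
    rw [nsq_smul, hcn]
    refine mul_le_of_le_one_left (nsq_nonneg (hT l) _) ?_
    exact pow_le_one₀ (hmi0 l) (hmi1 l)
  have hzb : Bd z := ⟨1, hz1⟩
  have hze : cl I z = e := by
    rw [← hxe, cl_eq_iff I hzb hx]
    have h1 := hm0.add hxy
    rw [add_zero] at h1
    refine squeeze_zero (fun l => norm_nonneg _) (fun l => ?_) h1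
    calc ‖z l - x l‖ ≤ ‖z l - y l‖ + ‖y l - x l‖ := norm_sub_le_norm_sub_add_norm_sub _ _ _
      _ ≤ (m l - 1) + ‖x l - y l‖ := add_le_add (hzy l) (by rw [norm_sub_rev])
  have hzm : ∀ l a b, ((MM.e (z l) a b : M.PA) : K →L[ℂ] K) ∈ M.E {j | j < k l} := by
    intro l a b
    rw [hz]
    show ((MM.e ((((m l)⁻¹ : ℝ) : ℂ) • y l) a b : M.PA) : K →L[ℂ] K) ∈ M.E {j | j < k l}
    rw [MM.e_smul]
    exact (M.E {j | j < k l}).smul_mem (hy2 l a b) _
  -- the rows
  have hv : ∀ l, ∃ v : S.ty l → M.PA, ‖∑ i, v i * star (v i)‖ ≤ 4 ∧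
      (nsq (MM.tr (S.ty l) M.trP) (z l) ≤ 1 →
        ‖MM.of (fun i j => star (v i) * v j) - star (z l) * z l‖ ≤
          2 * Real.sqrt (nsq (MM.tr (S.ty l) M.trP) (z l)) +
            nsq (MM.tr (S.ty l) M.trP) (z l)) := by
    intro l
    by_cases hc : nsq (MM.tr (S.ty l) M.trP) (z l) ≤ 1
    · obtain ⟨v, hv1, hv2⟩ := row_model M (k l) (fun i : S.ty l =>
        ((Fintype.equivFin (S.ty l) i : Fin _) : ℕ))
        (fun i j hij => (Fintype.equivFin (S.ty l)).injective (Fin.ext hij)) (z l) (hzm l) (hz1 l)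
      refine ⟨v, hv1.trans ?_, fun _ => hv2⟩
      have h1 : Real.sqrt (nsq (MM.tr (S.ty l) M.trP) (z l)) ≤ 1 := by
        rw [Real.sqrt_le_one]
        exact hc
      have h2 := Real.sqrt_nonneg (nsq (MM.tr (S.ty l) M.trP) (z l))
      nlinarith
    · refine ⟨fun _ => 0, ?_, fun h => absurd h hc⟩
      simp
  choose v hv1 hv2 using hv
  refine ⟨⟨v, 2, by norm_num, fun l => (hv1 l).trans (by norm_num)⟩, hv1, fun i => ?_⟩
  have hg : Row.gram (⟨v, 2, by norm_num, fun l => (hv1 l).trans (by norm_num)⟩ : Row S M.PA)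
      (⟨v, 2, by norm_num, fun l => (hv1 l).trans (by norm_num)⟩ : Row S M.PA) = e * e := by
    have h1 : e * e = cl I (fun l => star (z l) * z l) := by
      rw [cl_mul I hzb.star hzb, cl_star I hzb, hze, hes]
    rw [h1]
    refine (cl_eq_iff I (Row.gram_bd (⟨v, 2, by norm_num, fun l => (hv1 l).trans (by norm_num)⟩ :
      Row S M.PA) (⟨v, 2, by norm_num, fun l => (hv1 l).trans (by norm_num)⟩ : Row S M.PA))
      (hzb.star.mul hzb)).2 ?_
    have h2 := (hnz.sqrt.const_mul 2).add hnz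
    rw [Real.sqrt_zero, mul_zero, add_zero] at h2
    refine squeeze_zero' (Eventually.of_forall fun l => norm_nonneg _) ?_ h2
    filter_upwards [hnz.eventually (ge_mem_nhds one_pos)] with l hl
    exact hv2 l hl
  rw [hg, mul_assoc, hea, hea]

end H7c
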