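import Pool.Agent.H.MP_7b4a29_c.ThmV
import Pool.Agent.H.MP_7b4a29_c.BTwo
import Pool.Agent.H.MP_7b4a29_c.RowyM

/-!
# Invariance under subsequences of the two cycles
-/

open Filter Topology MeasureTheory H47

namespace H7c

section gen

variable {I : Ix} {P : Type} [CStarAlgebra P] {τ : P →ₗ[ℂ] ℂ}
  {Y3 : Type} [TopologicalSpace Y3] [CompactSpace Y3] [T2Space Y3] {y3 : Y3}
  {q3 : C((UnitAddCircle × Unit) × T2, Y3)} (hq3 : IsQ (Bp (bB (∅ : Set Unit))) y3 q3)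
  {Y : Type} [TopologicalSpace Y] [CompactSpace Y] [T2Space Y] {y0 : Y}
  {Y' : Type} [TopologicalSpace Y'] [CompactSpace Y'] [T2Space Y'] {y0' : Y'}

/-- Compressions of compositions of equivalent cycles are equivalent: `eqvM_com_lft`, `eqvM_iff`. -/
theorem eqv_isCmp (hτ : PTr τ) (hR : Rowy I τ) {N : Sz I} (hN : N.PB) (J : BH N Y y0 Y' y0')
    {c c' : C1 I τ Y y0} (h : Eqv c c') {e e' : C1 I τ Y' y0'}
    (he : IsCmp (com hτ hN (lft c) J) e) (he' : IsCmp (com hτ hN (lft c') J) e') : Eqv e e' :=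
  (eqvM_iff _ _).1 (eqvM_com_lft hτ hN hR h J) e e' he he'

/-- `b1`: first `JQ0`, then `JW0`. (`IsCmp.eqvM`, `EqvM.com`, `b1`, `EqvM.trans`, `eqvM_iff`,
`isCmp_lft`.) -/
theorem eqv_b1 (hτ : PTr τ) (hR : Rowy I τ) (ρ : C1 I τ UnitAddCircle (0 : UnitAddCircle))
    (κ : C1 I τ Y3 y3) (e : C1 I τ UnitAddCircle (0 : UnitAddCircle))
    (h1 : IsCmp (com hτ (fz_PB I) (lft ρ) (JQ0 hq3 I)) κ)
    (h2 : IsCmp (com hτ (two_PB I) (lft κ) (JW0 hq3 I)) e) : Eqv e ρ := by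
  have a1 := IsCmp.eqvM h1 hτ hR
  have a2 := EqvM.com hτ (two_PB I) hR a1 (JW0 hq3 I)
  have a3 := b1 hτ hR isQ_q0 hq3 (lft ρ)
  have a4 := IsCmp.eqvM h2 hτ hR
  exact (eqv_iff_lft e ρ hτ).1 (EqvM.trans hτ hR (EqvM.trans hτ hR a4 a2) a3)

/-- `key` for cycles over `R1 I P`. -/
theorem eqv_key (hτ : PTr τ) (hR : Rowy I τ) (κ κ' : C1 I τ Y3 y3)
    (e e' : C1 I τ UnitAddCircle (0 : UnitAddCircle))
    (h1 : IsCmp (com hτ (two_PB I) (lft κ) (JW0 hq3 I)) e)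
    (h2 : IsCmp (com hτ (two_PB I) (lft κ') (JW0 hq3 I)) e') (h : Eqv e e') : Eqv κ κ' := by
  have a1 := IsCmp.eqvM h1 hτ hR
  have a2 := IsCmp.eqvM h2 hτ hR
  have a3 := (eqv_iff_lft e e' hτ).2 h
  exact (eqv_iff_lft κ κ' hτ).1 (key hq3 hτ hR _ _
    (EqvM.trans hτ hR a1.symm (EqvM.trans hτ hR a3 a2)))

end gen

section asm

variable {Z1 : Type} [MetricSpace Z1] [CompactSpace Z1] [MeasurableSpace Z1] [BorelSpace Z1]
  {μ1 : Measure Z1} [IsProbabilityMeasure μ1] [μ1.IsOpenPosMeasure]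
  {K1 : Type} [NormedAddCommGroup K1] [InnerProductSpace ℂ K1] [CompleteSpace K1]
  (M1 : FModel C(Z1, ℂ) (intL μ1) K1) {z1 : Z1}
  (G1 : Geo Z1 μ1 z1 UnitAddCircle (0 : UnitAddCircle))
  {Z3 : Type} [MetricSpace Z3] [CompactSpace Z3] [MeasurableSpace Z3] [BorelSpace Z3]
  {μ3 : Measure Z3} [IsProbabilityMeasure μ3] [μ3.IsOpenPosMeasure]
  {K3 : Type} [NormedAddCommGroup K3] [InnerProductSpace ℂ K3] [CompleteSpace K3]
  (M3 : FModel C(Z3, ℂ) (intL μ3) K3) {z3 : Z3}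
  {Y3 : Type} [TopologicalSpace Y3] [CompactSpace Y3] [T2Space Y3] {y3 : Y3}
  {q3 : C((UnitAddCircle × Unit) × T2, Y3)} (hq3 : IsQ (Bp (bB (∅ : Set Unit))) y3 q3)
  (G3 : Geo Z3 μ3 z3 Y3 y3)

/-- The cycle of the circle is invariant under subsequences after the composition with `JQ0`.

Proof. `ρ` is the cycle of `M1.incP` (`he`), `κ` a compression of `ρ ∘ JQ0`. Let `e` be a compression of
`κ ∘ JW0` (`exists_isCmp`); `e ∼ ρ` by `eqv_b1`. `Cyc.re e` is a compression of `Cyc.re κ ∘ JW0`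
(`isCmp_re_JW`), and `Cyc.re e ∼ Cyc.re ρ ∼ ρ ∼ e` (`Geo.col_re`); `eqv_key`. -/
theorem asm_e1 (ρ : C1 I0 M1.trP UnitAddCircle (0 : UnitAddCircle))
    (hρ : ∀ f, ρ.κ f = fam I0 M1.incP (G1.cw I0) f) (κ : C1 I0 M1.trP Y3 y3)
    (hκ : IsCmp (com (ptr_trP M1) (fz_PB I0) (lft ρ) (JQ0 hq3 I0)) κ) (σ : ℕ → ℕ)
    (hσ : StrictMono σ) : Eqv (Cyc.re (subIx σ hσ) (ptr_trP M1) κ) κ := by
  have hτ := ptr_trP M1
  have hR : Rowy I0 M1.trP := (rowyS M1 I0).rowy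
  have hγ : ∀ f, M1.trP (M1.incP f) = ∫ z, f z ∂μ1 := fun f => M1.trP_incP f
  obtain ⟨e, he⟩ := exists_isCmp hτ hR (com hτ (two_PB I0) (lft κ) (JW0 hq3 I0))
  have a1 : Eqv e ρ := eqv_b1 hq3 hτ hR ρ κ e hκ he
  have a2 := isCmp_re_JW (subIx σ hσ) hτ isQ_q0 hq3 κ e he
  have a3 := Eqv.re (subIx σ hσ) hτ a1
  have a4 := G1.col_re hτ M1.incP hγ (subIx σ hσ) ρ hρ ρ hρ
  exact eqv_key hq3 hτ hR _ κ _ e a2 he (a3.trans (a4.trans a1.symm))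

/-- The same for `JW0`: `isCmp_re_JW`, `Geo.col_re`, `eqv_isCmp`. -/
theorem asm_e2 (ρ : C1 I0 M3.trP Y3 y3)
    (hρ : ∀ f, ρ.κ f = fam I0 M3.incP (G3.cw I0) f)
    (κ : C1 I0 M3.trP UnitAddCircle (0 : UnitAddCircle))
    (hκ : IsCmp (com (ptr_trP M3) (two_PB I0) (lft ρ) (JW0 hq3 I0)) κ) (σ : ℕ → ℕ)
    (hσ : StrictMono σ) : Eqv (Cyc.re (subIx σ hσ) (ptr_trP M3) κ) κ := by
  have hτ := ptr_trP M3
  have hR : Rowy I0 M3.trP := (rowyS M3 I0).rowy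
  have hγ : ∀ f, M3.trP (M3.incP f) = ∫ z, f z ∂μ3 := fun f => M3.trP_incP f
  have a2 := isCmp_re_JW (subIx σ hσ) hτ isQ_q0 hq3 ρ κ hκ
  have a4 := G3.col_re hτ M3.incP hγ (subIx σ hσ) ρ hρ ρ hρ
  exact eqv_isCmp hτ hR (two_PB I0) (JW0 hq3 I0) a4 a2 hκ

end asm

end H7c
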