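import Pool.Agent.H.MP_7b4a29_c.AsmA

/-!
# The two compositions
-/

open Filter Topology MeasureTheory H47

namespace H7c

section aux

variable {P P' : Type} [CStarAlgebra P] [CStarAlgebra P'] {τ : P →ₗ[ℂ] ℂ} {τ' : P' →ₗ[ℂ] ℂ}
  {X : Type} [TopologicalSpace X] [CompactSpace X] {Y : Type} [TopologicalSpace Y]
  [CompactSpace Y] [T2Space Y] {y0 : Y}

/-- The `κ` of two images. -/
theorem asmb_kappa {hτ' : PTr τ'} (c0 : I0.L → C(X, Y)) (c2 : I2.L → C(X, Y))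
    (hc : ∀ l, c2 l = c0 (pi1.f l)) (Φ : P →⋆ₐ[ℂ] P') (hΦ : ∀ x, τ' (Φ x) = τ x)
    (N : P' →⋆ₐ[ℂ] P') (hN : ∀ x, τ' (N x) = τ' x)
    (γ : C(X, ℂ) →⋆ₐ[ℂ] P) (α : C(X, ℂ) →⋆ₐ[ℂ] P') (h : ∀ f, Φ (γ f) = N (α f))
    (ρ : C1 I0 τ Y y0) (hρ : ∀ f, ρ.κ f = fam I0 γ c0 f)
    (e : C1 I2 τ' Y y0) (he : ∀ f, e.κ f = fam I2 α c2 f) (f : C(Y, ℂ)) :
    (Cyc.mapP N hN e).κ f = (Cyc.re pi1 hτ' (Cyc.mapP Φ hΦ ρ)).κ f := by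
  have h1 : (Cyc.mapP N hN e).κ f = mapR1 I2 N (e.κ f) := rfl
  have h2 : (Cyc.re pi1 hτ' (Cyc.mapP Φ hΦ ρ)).κ f = SQ.re pi1 (mapR1 I0 Φ (ρ.κ f)) := rfl
  have h3 : N.comp α = Φ.comp γ := StarAlgHom.ext fun g => (h g).symm
  have h4 : c2 = fun l => c0 (pi1.f l) := funext hc
  rw [h1, h2, he, hρ, fam_mapR1, fam_mapR1, fam_re, h3, h4]

/-- Homomorphisms which fix the image of `γ`. -/
theorem asmb_inc (c0 : I0.L → C(X, Y)) (hτ : PTr τ) (N : P →⋆ₐ[ℂ] P) (hN : ∀ x, τ (N x) = τ x)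
    (γ : C(X, ℂ) →⋆ₐ[ℂ] P) (h : ∀ f, N (γ f) = γ f) (ρ : C1 I0 τ Y y0)
    (hρ : ∀ f, ρ.κ f = fam I0 γ c0 f) :
    Eqv (Cyc.mapP N hN (Cyc.re pi2 hτ ρ)) (Cyc.re pi2 hτ ρ) := by
  refine eqv_of_kappa hτ fun f => ?_
  have h1 : (Cyc.mapP N hN (Cyc.re pi2 hτ ρ)).κ f = mapR1 I2 N (SQ.re pi2 (ρ.κ f)) := rfl
  have h2 : (Cyc.re pi2 hτ ρ).κ f = SQ.re pi2 (ρ.κ f) := rfl
  have h3 : N.comp γ = γ := StarAlgHom.ext fun g => h g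
  rw [h1, h2, hρ, fam_re, fam_mapR1, h3]

end aux

section asm

variable {Z1 : Type} [MetricSpace Z1] [CompactSpace Z1] [MeasurableSpace Z1] [BorelSpace Z1]
  {μ1 : Measure Z1} [IsProbabilityMeasure μ1] [μ1.IsOpenPosMeasure]
  {K1 : Type} [NormedAddCommGroup K1] [InnerProductSpace ℂ K1] [CompleteSpace K1]
  (M1 : FModel C(Z1, ℂ) (intL μ1) K1) {z1 : Z1}
  (G1 : Geo Z1 μ1 z1 UnitAddCircle (0 : UnitAddCircle))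
  {Z3 : Type} [MetricSpace Z3] [CompactSpace Z3] [MeasurableSpace Z3] [BorelSpace Z3]
  {μ3 : Measure Z3} [IsProbabilityMeasure μ3] [μ3.IsOpenPosMeasure]
  {K3 : Type} [NormedAddCommGroup K3] [InnerProductSpace ℂ K3] [CompleteSpace K3]
  (M3 : FModel C(Z3, ℂ) (intL μ3) K3) {z3 : Z3}
  {Y3 : Type} [TopologicalSpace Y3] [CompactSpace Y3] [T2Space Y3] {y3 : Y3}
  {q3 : C((UnitAddCircle × Unit) × T2, Y3)} (hq3 : IsQ (Bp (bB (∅ : Set Unit))) y3 q3)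
  (G3 : Geo Z3 μ3 z3 Y3 y3)

/-- The first composition. Here `Φ : M3.PA → M1.PA` with `Φ ∘ incP = N ∘ α`, `N` fixes `incP`.

Proof. Let `e` be a compression of `κ₀ ∘ JW0`; `e ∼ ρ₁` by `eqv_b1`.
`Cyc.re pi1 (Cyc.mapP Φ κβ)` is a compression of `Cyc.re pi1 (Cyc.mapP Φ ρ₃) ∘ JW0` (`isCmp_mapP`,
`isCmp_re_JW`). `Cyc.re pi1 (Cyc.mapP Φ ρ₃)` has the `κ` `fam I2 (Φ ∘ incP) (cw) = fam I2 (N ∘ α) (cw)`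
(`fam_mapR1`, `fam_re`; the weight of `(n, m)` is `n`), so it is equivalent to `Cyc.mapP N e₂`, where `e₂` is
the cycle of `α` over `I2` (`Geo.exists_cyc`, `hα`), and to `Cyc.mapP N (Cyc.re pi2 κ₀)` (`h2`).
`Cyc.mapP N (Cyc.re pi2 e)` is a compression of `Cyc.mapP N (Cyc.re pi2 κ₀) ∘ JW0`, so it is equivalent to
`Cyc.re pi1 (Cyc.mapP Φ κβ)` (`eqv_isCmp`). `Cyc.mapP N (Cyc.re pi2 e) ∼ Cyc.mapP N (Cyc.re pi2 ρ₁)`, which has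
the same `κ` as `Cyc.re pi2 ρ₁`, and that is equivalent to `e₁` (`Geo.col_re`). -/
theorem asm_e3 (ρ₁ : C1 I0 M1.trP UnitAddCircle (0 : UnitAddCircle))
    (hρ₁ : ∀ f, ρ₁.κ f = fam I0 M1.incP (G1.cw I0) f) (κ₀ : C1 I0 M1.trP Y3 y3)
    (hκ₀ : IsCmp (com (ptr_trP M1) (fz_PB I0) (lft ρ₁) (JQ0 hq3 I0)) κ₀)
    (ρ₃ : C1 I0 M3.trP Y3 y3) (hρ₃ : ∀ f, ρ₃.κ f = fam I0 M3.incP (G3.cw I0) f)
    (κβ : C1 I0 M3.trP UnitAddCircle (0 : UnitAddCircle))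
    (hκβ : IsCmp (com (ptr_trP M3) (two_PB I0) (lft ρ₃) (JW0 hq3 I0)) κβ)
    (α : C(Z3, ℂ) →⋆ₐ[ℂ] M1.PA) (hα : ∀ f, M1.trP (α f) = intL μ3 f)
    (h2 : ∀ e : C1 I2 M1.trP Y3 y3, (∀ f, e.κ f = fam I2 α (G3.cw I2) f) →
      Eqv e (Cyc.re pi2 (ptr_trP M1) κ₀))
    (Φ : M3.PA →⋆ₐ[ℂ] M1.PA) (hΦ : ∀ x, M1.trP (Φ x) = M3.trP x)
    (N : M1.PA →⋆ₐ[ℂ] M1.PA) (hN : ∀ x, M1.trP (N x) = M1.trP x)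
    (hN1 : ∀ f, N (M1.incP f) = M1.incP f) (hΦ1 : ∀ f, Φ (M3.incP f) = N (α f))
    (e₁ : C1 I2 M1.trP UnitAddCircle (0 : UnitAddCircle))
    (he₁ : ∀ f, e₁.κ f = fam I2 M1.incP (G1.cw I2) f) :
    Eqv (Cyc.re pi1 (ptr_trP M1) (Cyc.mapP Φ hΦ κβ)) e₁ := by
  obtain ⟨e, he⟩ := exists_isCmp (ptr_trP M1) (rowyS M1 I0).rowy
    (com (ptr_trP M1) (two_PB I0) (lft κ₀) (JW0 hq3 I0))
  have hbe : Eqv e ρ₁ := eqv_b1 hq3 (ptr_trP M1) (rowyS M1 I0).rowy ρ₁ κ₀ e hκ₀ he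
  have hA := isCmp_re_JW pi1 (ptr_trP M1) isQ_q0 hq3 (Cyc.mapP Φ hΦ ρ₃) (Cyc.mapP Φ hΦ κβ)
    (isCmp_mapP Φ (ptr_trP M3) (ptr_trP M1) hΦ (two_PB I0) ρ₃ (JW0 hq3 I0) κβ hκβ)
  have hB := isCmp_mapP N (ptr_trP M1) (ptr_trP M1) hN (two_PB I2)
    (Cyc.re pi2 (ptr_trP M1) κ₀) (JW0 hq3 I2) (Cyc.re pi2 (ptr_trP M1) e)
    (isCmp_re_JW pi2 (ptr_trP M1) isQ_q0 hq3 κ₀ e he)
  obtain ⟨e₂, he₂, -⟩ := G3.exists_cyc (ptr_trP M1) α hα I2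
  have h3 : Eqv (Cyc.re pi1 (ptr_trP M1) (Cyc.mapP Φ hΦ ρ₃))
      (Cyc.mapP N hN (Cyc.re pi2 (ptr_trP M1) κ₀)) := by
    refine Eqv.trans (eqv_of_kappa (ptr_trP M1) (fun f => ?_)) (Eqv.mapP N hN (h2 e₂ he₂))
    exact asmb_kappa (G3.cw I0) (G3.cw I2) (fun _ => rfl) Φ hΦ N hN M3.incP α hΦ1 ρ₃ hρ₃ e₂ he₂ f
  have h4 := eqv_isCmp (ptr_trP M1) (rowyS M1 I2).rowy (two_PB I2) (JW0 hq3 I2) h3 hA hB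
  refine h4.trans ((Eqv.mapP N hN (Eqv.re pi2 (ptr_trP M1) hbe)).trans (Eqv.trans ?_
    (G1.col_re (ptr_trP M1) M1.incP M1.trP_incP pi2 ρ₁ hρ₁ e₁ he₁)))
  exact asmb_inc (G1.cw I0) (ptr_trP M1) N hN M1.incP hN1 ρ₁ hρ₁

/-- The second composition. Here `Ψ : M1.PA → M3.PA` with `Ψ ∘ incP = N ∘ β`, `N` fixes `incP`.

Proof. By `eqv_key` over `I2` for `Cyc.re pi1 (Cyc.mapP Ψ κ₀)` and `e₃`. Let `e` be a compression of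
`κ₀ ∘ JW0`; `e ∼ ρ₁`. `Cyc.re pi1 (Cyc.mapP Ψ e)` is a compression of `Cyc.re pi1 (Cyc.mapP Ψ κ₀) ∘ JW0`
(`isCmp_mapP`, `isCmp_re_JW`), and it is equivalent to `Cyc.re pi1 (Cyc.mapP Ψ ρ₁)`, which has the `κ`
`fam I2 (Ψ ∘ incP) (cw) = fam I2 (N ∘ β) (cw)`, so it is equivalent to `Cyc.mapP N e₂` with the cycle `e₂` of `β`
over `I2`, and to `Cyc.mapP N (Cyc.re pi2 κβ)` (`h2`). The latter is a compression of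
`Cyc.mapP N (Cyc.re pi2 ρ₃) ∘ JW0`, and `Cyc.mapP N (Cyc.re pi2 ρ₃) ∼ Cyc.re pi2 ρ₃ ∼ e₃` (`Geo.col_re`), so it is
equivalent (`eqv_isCmp`) to any compression of `e₃ ∘ JW0`. -/
theorem asm_e4 (ρ₁ : C1 I0 M1.trP UnitAddCircle (0 : UnitAddCircle))
    (hρ₁ : ∀ f, ρ₁.κ f = fam I0 M1.incP (G1.cw I0) f) (κ₀ : C1 I0 M1.trP Y3 y3)
    (hκ₀ : IsCmp (com (ptr_trP M1) (fz_PB I0) (lft ρ₁) (JQ0 hq3 I0)) κ₀)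
    (ρ₃ : C1 I0 M3.trP Y3 y3) (hρ₃ : ∀ f, ρ₃.κ f = fam I0 M3.incP (G3.cw I0) f)
    (κβ : C1 I0 M3.trP UnitAddCircle (0 : UnitAddCircle))
    (hκβ : IsCmp (com (ptr_trP M3) (two_PB I0) (lft ρ₃) (JW0 hq3 I0)) κβ)
    (β : C(Z1, ℂ) →⋆ₐ[ℂ] M3.PA) (hβ : ∀ f, M3.trP (β f) = intL μ1 f)
    (h2 : ∀ e : C1 I2 M3.trP UnitAddCircle (0 : UnitAddCircle),
      (∀ f, e.κ f = fam I2 β (G1.cw I2) f) → Eqv e (Cyc.re pi2 (ptr_trP M3) κβ))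
    (Ψ : M1.PA →⋆ₐ[ℂ] M3.PA) (hΨ : ∀ x, M3.trP (Ψ x) = M1.trP x)
    (N : M3.PA →⋆ₐ[ℂ] M3.PA) (hN : ∀ x, M3.trP (N x) = M3.trP x)
    (hN1 : ∀ f, N (M3.incP f) = M3.incP f) (hΨ1 : ∀ f, Ψ (M1.incP f) = N (β f))
    (e₃ : C1 I2 M3.trP Y3 y3) (he₃ : ∀ f, e₃.κ f = fam I2 M3.incP (G3.cw I2) f) :
    Eqv (Cyc.re pi1 (ptr_trP M3) (Cyc.mapP Ψ hΨ κ₀)) e₃ := by
  obtain ⟨e, he⟩ := exists_isCmp (ptr_trP M1) (rowyS M1 I0).rowy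
    (com (ptr_trP M1) (two_PB I0) (lft κ₀) (JW0 hq3 I0))
  have hbe : Eqv e ρ₁ := eqv_b1 hq3 (ptr_trP M1) (rowyS M1 I0).rowy ρ₁ κ₀ e hκ₀ he
  have hA := isCmp_re_JW pi1 (ptr_trP M3) isQ_q0 hq3 (Cyc.mapP Ψ hΨ κ₀) (Cyc.mapP Ψ hΨ e)
    (isCmp_mapP Ψ (ptr_trP M1) (ptr_trP M3) hΨ (two_PB I0) κ₀ (JW0 hq3 I0) e he)
  obtain ⟨E, hE⟩ := exists_isCmp (ptr_trP M3) (rowyS M3 I2).rowy
    (com (ptr_trP M3) (two_PB I2) (lft e₃) (JW0 hq3 I2))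
  refine eqv_key hq3 (ptr_trP M3) (rowyS M3 I2).rowy _ e₃ _ E hA hE ?_
  obtain ⟨e₂, he₂, -⟩ := G1.exists_cyc (ptr_trP M3) β hβ I2
  have hB := isCmp_mapP N (ptr_trP M3) (ptr_trP M3) hN (two_PB I2)
    (Cyc.re pi2 (ptr_trP M3) ρ₃) (JW0 hq3 I2) (Cyc.re pi2 (ptr_trP M3) κβ)
    (isCmp_re_JW pi2 (ptr_trP M3) isQ_q0 hq3 ρ₃ κβ hκβ)
  have h3 : Eqv (Cyc.re pi1 (ptr_trP M3) (Cyc.mapP Ψ hΨ ρ₁))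
      (Cyc.mapP N hN (Cyc.re pi2 (ptr_trP M3) κβ)) := by
    refine Eqv.trans (eqv_of_kappa (ptr_trP M3) (fun f => ?_)) (Eqv.mapP N hN (h2 e₂ he₂))
    exact asmb_kappa (G1.cw I0) (G1.cw I2) (fun _ => rfl) Ψ hΨ N hN M1.incP β hΨ1 ρ₁ hρ₁ e₂ he₂ f
  have h5 : Eqv (Cyc.mapP N hN (Cyc.re pi2 (ptr_trP M3) ρ₃)) e₃ :=
    (asmb_inc (G3.cw I0) (ptr_trP M3) N hN M3.incP hN1 ρ₃ hρ₃).trans
      (G3.col_re (ptr_trP M3) M3.incP M3.trP_incP pi2 ρ₃ hρ₃ e₃ he₃)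
  have h4 := eqv_isCmp (ptr_trP M3) (rowyS M3 I2).rowy (two_PB I2) (JW0 hq3 I2) h5 hB hE
  exact (Eqv.re pi1 (ptr_trP M3) (Eqv.mapP Ψ hΨ hbe)).trans (h3.trans h4)

end asm

end H7c
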