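import Pool.Agent.H.MP_7b4a29_c.Cmp
import Pool.Agent.H.MP_7b4a29_c.M2

/-!
# Blocks: matrices over `RM S P` as matrix families
-/

open Filter Topology

namespace H7c

/-- Matrix units. -/
noncomputable def mu {n : Type} [Fintype n] [DecidableEq n] (i j : n) : MM n ℂ :=
  MM.of (fun a b => if a = i ∧ b = j then 1 else 0)

theorem bl_e_mu {n : Type} [Fintype n] [DecidableEq n] (i j a b : n) :
    MM.e (mu i j) a b = if a = i ∧ b = j then 1 else 0 := rfl

theorem mu_mul {n : Type} [Fintype n] [DecidableEq n] (i j k l : n) :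
    mu i j * mu k l = if j = k then mu i l else 0 := by
  apply MM.ext
  intro a b
  rw [MM.e_mul]
  simp only [bl_e_mu]
  rw [Finset.sum_eq_single j]
  · by_cases h : j = k
    · subst h
      rw [if_pos rfl, bl_e_mu]
      by_cases h1 : a = i
      · by_cases h2 : b = l
        · simp [h1, h2]
        · simp [h1, h2]
      · simp [h1]
    · rw [if_neg h, MM.e_zero, if_neg (fun h1 : j = k ∧ b = l => h h1.1), mul_zero]
  · intro c _ hc
    rw [if_neg (fun h : a = i ∧ c = j => hc h.2), zero_mul]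
  · intro h
    exact absurd (Finset.mem_univ _) h

theorem mu_star {n : Type} [Fintype n] [DecidableEq n] (i j : n) : star (mu i j) = mu j i := by
  apply MM.ext
  intro a b
  rw [MM.e_star, bl_e_mu, bl_e_mu]
  by_cases h1 : a = j
  · by_cases h2 : b = i
    · simp [h1, h2]
    · simp [h1, h2]
  · simp [h1]

theorem mu_sum {n : Type} [Fintype n] [DecidableEq n] : ∑ i : n, mu i i = 1 := by
  apply MM.ext
  intro a b
  rw [MM.e_sum, MM.e_one]
  simp only [bl_e_mu]
  rw [Finset.sum_eq_single a]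
  · by_cases h : a = b
    · simp [h]
    · simp [h, Ne.symm h]
  · intro c _ hc
    rw [if_neg (fun h : a = c ∧ b = c => hc h.1.symm)]
  · intro h
    exact absurd (Finset.mem_univ _) h

theorem eq_sum_mu {n : Type} [Fintype n] [DecidableEq n] (x : MM n ℂ) :
    x = ∑ i, ∑ j, MM.e x i j • mu i j := by
  apply MM.ext
  intro a b
  rw [MM.e_sum]
  simp only [MM.e_sum, MM.e_smul, bl_e_mu]
  rw [Finset.sum_eq_single a]
  · rw [Finset.sum_eq_single b]
    · simp
    · intro c _ hc
      rw [if_neg (fun h : a = a ∧ b = c => hc h.2.symm), smul_zero]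
    · intro h
      exact absurd (Finset.mem_univ _) h
  · intro c _ hc
    refine Finset.sum_eq_zero fun d _ => ?_
    rw [if_neg (fun h : a = c ∧ b = d => hc h.1.symm), smul_zero]
  · intro h
    exact absurd (Finset.mem_univ _) h

section blgen

variable {n : Type} [Fintype n] [DecidableEq n] {B D : Type} [CStarAlgebra B] [CStarAlgebra D]
  (A : B →⋆ₐ[ℂ] D) (U : MM n ℂ →⋆ₐ[ℂ] D)

/-- The map `x ↦ ∑ A(x_ij) U(e_ij)`. -/
noncomputable def bl_T (x : MM n B) : D := ∑ i, ∑ j, A (MM.e x i j) * U (mu i j)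

theorem bl_T_diag (a : B) : bl_T A U (MM.of (fun i j => if i = j then a else 0)) = A a := by
  have h1 : ∀ i : n, ∑ j, A (MM.e (MM.of (fun i j => if i = j then a else 0)) i j) * U (mu i j) =
      A a * U (mu i i) := by
    intro i
    rw [Finset.sum_eq_single i]
    · rw [MM.e_of, if_pos rfl]
    · intro j _ hj
      rw [MM.e_of, if_neg (Ne.symm hj), map_zero, zero_mul]
    · intro h
      exact absurd (Finset.mem_univ _) h
  rw [bl_T, Finset.sum_congr rfl fun i _ => h1 i, ← Finset.mul_sum, ← map_sum, mu_sum, map_one,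
    mul_one]

theorem bl_T_one : bl_T A U 1 = 1 := by
  have h1 : (1 : MM n B) = MM.of (fun i j => if i = j then 1 else 0) := by
    apply MM.ext
    intro i j
    rw [MM.e_one, MM.e_of]
  rw [h1, bl_T_diag, map_one]

theorem bl_T_smul (c : ℂ) (x : MM n B) : bl_T A U (c • x) = c • bl_T A U x := by
  rw [bl_T, bl_T, Finset.smul_sum]
  refine Finset.sum_congr rfl fun i _ => ?_
  rw [Finset.smul_sum]
  refine Finset.sum_congr rfl fun j _ => ?_
  rw [MM.e_smul, map_smul, smul_mul_assoc]

theorem bl_T_add (x y : MM n B) : bl_T A U (x + y) = bl_T A U x + bl_T A U y := by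
  rw [bl_T, bl_T, bl_T, ← Finset.sum_add_distrib]
  refine Finset.sum_congr rfl fun i _ => ?_
  rw [← Finset.sum_add_distrib]
  refine Finset.sum_congr rfl fun j _ => ?_
  rw [MM.e_add, map_add, add_mul]

theorem bl_T_mul (hAU : ∀ a x, A a * U x = U x * A a) (x y : MM n B) :
    bl_T A U (x * y) = bl_T A U x * bl_T A U y := by
  rw [bl_T, bl_T, bl_T, Finset.sum_mul]
  refine Finset.sum_congr rfl fun i _ => ?_
  have h1 : (∑ j, A (MM.e x i j) * U (mu i j)) * (∑ k, ∑ l, A (MM.e y k l) * U (mu k l)) =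
      ∑ j, ∑ l, A (MM.e x i j * MM.e y j l) * U (mu i l) := by
    rw [Finset.sum_mul]
    refine Finset.sum_congr rfl fun j _ => ?_
    rw [Finset.mul_sum, Finset.sum_eq_single j]
    · rw [Finset.mul_sum]
      refine Finset.sum_congr rfl fun l _ => ?_
      rw [mul_assoc, ← mul_assoc (U (mu i j)), ← hAU, mul_assoc, ← map_mul U, mu_mul,
        if_pos rfl, ← mul_assoc, ← map_mul A]
    · intro k _ hk
      rw [Finset.mul_sum]
      refine Finset.sum_eq_zero fun l _ => ?_
      rw [mul_assoc, ← mul_assoc (U (mu i j)), ← hAU, mul_assoc, ← map_mul U, mu_mul,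
        if_neg (Ne.symm hk), map_zero, mul_zero, mul_zero]
    · intro h
      exact absurd (Finset.mem_univ _) h
  rw [h1, Finset.sum_comm]
  refine Finset.sum_congr rfl fun l _ => ?_
  rw [MM.e_mul, map_sum, Finset.sum_mul]

theorem bl_T_star (hAU : ∀ a x, A a * U x = U x * A a) (x : MM n B) :
    bl_T A U (star x) = star (bl_T A U x) := by
  rw [bl_T, bl_T, star_sum, Finset.sum_comm]
  refine Finset.sum_congr rfl fun i _ => ?_
  rw [star_sum]
  refine Finset.sum_congr rfl fun j _ => ?_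
  rw [MM.e_star, star_mul, ← map_star, ← map_star, mu_star, hAU]

end blgen

variable {I : Ix} (S : Sz I) (P : Type) [CStarAlgebra P] (n : Type) [Fintype n] [DecidableEq n]

/-- Scalar matrices of a fixed size. -/
noncomputable def cm (I : Ix) : MM n ℂ →⋆ₐ[ℂ] RM (Sz.con I n) ℂ := cst I (MM n ℂ)

theorem cm_apply (x : MM n ℂ) : cm n I x = cl I (fun _ => x) := rfl

theorem bl_comm (a : RM S P) (x : MM n ℂ) :
    ampR S (Sz.con I n) a * ((sclR S P (Sz.con I n)).comp (cm n I)) x =
      ((sclR S P (Sz.con I n)).comp (cm n I)) x * ampR S (Sz.con I n) a :=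
  ampR_sclR_comm a (cm n I x)

/-- The block homomorphism `x ↦ ∑ x_ij ⊗ e_ij`. The homomorphism property follows from
`ampR_sclR_comm` and `mu_mul`, `mu_star`, `mu_sum`. -/
noncomputable def bl : MM n (RM S P) →⋆ₐ[ℂ] RM (S.prod (Sz.con I n)) P where
  toFun x := ∑ i, ∑ j, ampR S (Sz.con I n) (MM.e x i j) * sclR S P (Sz.con I n) (cm n I (mu i j))
  map_one' := by
    exact bl_T_one (ampR S (Sz.con I n)) ((sclR S P (Sz.con I n)).comp (cm n I))
  map_mul' := by
    exact bl_T_mul (ampR S (Sz.con I n)) ((sclR S P (Sz.con I n)).comp (cm n I))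
      (bl_comm S P n)
  map_zero' := by
    have h := bl_T_smul (ampR S (Sz.con I n)) ((sclR S P (Sz.con I n)).comp (cm n I)) 0 0
    rw [zero_smul, zero_smul] at h
    exact h
  map_add' := by
    exact bl_T_add (ampR S (Sz.con I n)) ((sclR S P (Sz.con I n)).comp (cm n I))
  commutes' := by
    intro c
    have h := bl_T_smul (ampR S (Sz.con I n)) ((sclR S P (Sz.con I n)).comp (cm n I)) c 1
    rw [bl_T_one, ← Algebra.algebraMap_eq_smul_one, ← Algebra.algebraMap_eq_smul_one] at h
    exact h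
  map_star' := by
    exact bl_T_star (ampR S (Sz.con I n)) ((sclR S P (Sz.con I n)).comp (cm n I))
      (bl_comm S P n)

variable {S P n}

theorem bl_apply (x : MM n (RM S P)) : bl S P n x =
    ∑ i, ∑ j, ampR S (Sz.con I n) (MM.e x i j) * sclR S P (Sz.con I n) (cm n I (mu i j)) := rfl

/-- `diag(a, …, a)` goes to `a ⊗ 1`. -/
theorem bl_diag (a : RM S P) :
    bl S P n (MM.of (fun i j => if i = j then a else 0)) = ampR S (Sz.con I n) a := by
  exact bl_T_diag (ampR S (Sz.con I n)) ((sclR S P (Sz.con I n)).comp (cm n I)) a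

/-- Scalar matrices. -/
theorem bl_scl (x : MM n ℂ) :
    bl S P n (MM.of (fun i j => algebraMap ℂ (RM S P) (MM.e x i j))) =
      sclR S P (Sz.con I n) (cm n I x) := by
  rw [bl_apply]
  conv_rhs => rw [eq_sum_mu x, map_sum, map_sum]
  refine Finset.sum_congr rfl fun i _ => ?_
  rw [map_sum, map_sum]
  refine Finset.sum_congr rfl fun j _ => ?_
  rw [MM.e_of, AlgHomClass.commutes, map_smul, map_smul, ← Algebra.smul_def]

/-- Two by two matrices. -/
theorem bl_m2 (a b c d : RM S P) : bl S P (Fin 2) (m2 a b c d) =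
    ampR S (Sz.con I (Fin 2)) a * sclR S P (Sz.con I (Fin 2)) (cm (Fin 2) I (mu 0 0)) +
    ampR S (Sz.con I (Fin 2)) b * sclR S P (Sz.con I (Fin 2)) (cm (Fin 2) I (mu 0 1)) +
    (ampR S (Sz.con I (Fin 2)) c * sclR S P (Sz.con I (Fin 2)) (cm (Fin 2) I (mu 1 0)) +
    ampR S (Sz.con I (Fin 2)) d * sclR S P (Sz.con I (Fin 2)) (cm (Fin 2) I (mu 1 1))) := by
  rw [bl_apply, Fin.sum_univ_two, Fin.sum_univ_two, Fin.sum_univ_two]
  rfl

/-- Pull-back of functions with values in a C*-algebra. -/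
noncomputable def bl_pull (A : Type) [CStarAlgebra A] {Y Y' : Type} [TopologicalSpace Y]
    [CompactSpace Y] [TopologicalSpace Y'] [CompactSpace Y'] (g : C(Y', Y)) :
    C(Y, A) →⋆ₐ[ℂ] C(Y', A) where
  toFun F := F.comp g
  map_one' := rfl
  map_mul' _ _ := rfl
  map_zero' := rfl
  map_add' _ _ := rfl
  commutes' _ := rfl
  map_star' _ := rfl

/-- `ext` and a pull-back: `tens_ext`. -/
theorem ext_pull {N : Sz I} {Y Y' : Type} [TopologicalSpace Y] [CompactSpace Y] [T2Space Y]
    [TopologicalSpace Y'] [CompactSpace Y'] [T2Space Y'] (k : C(Y', ℂ) →⋆ₐ[ℂ] RM S P)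
    (g : C(Y', Y)) (F : C(Y, RM N ℂ)) :
    ext N (k.comp (ContinuousMap.compStarAlgHom' ℂ ℂ g)) F = ext N k (F.comp g) := by
  have h : ext N (k.comp (ContinuousMap.compStarAlgHom' ℂ ℂ g)) =
      (ext N k).comp (bl_pull (RM N ℂ) g) := by
    refine tens_ext (fun x => ?_) fun f => ?_
    · rw [ext_cns, StarAlgHom.comp_apply]
      exact (ext_cns k x).symm
    · rw [ext_sc, StarAlgHom.comp_apply]
      exact (ext_sc k (f.comp g)).symm
  exact DFunLike.congr_fun h F

/-- The value of `ext` on `∑ f_ij ⊗ e_ij`. -/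
theorem ext_mat {Y : Type} [TopologicalSpace Y] [CompactSpace Y] [T2Space Y]
    (k : C(Y, ℂ) →⋆ₐ[ℂ] RM S P) (F : n → n → C(Y, ℂ)) :
    ext (Sz.con I n) k (∑ i, ∑ j, sc Y (RM (Sz.con I n) ℂ) (F i j) *
      cns Y (RM (Sz.con I n) ℂ) (cm n I (mu i j))) = bl S P n (MM.of (fun i j => k (F i j))) := by
  rw [bl_apply, map_sum]
  refine Finset.sum_congr rfl fun i _ => ?_
  rw [map_sum]
  refine Finset.sum_congr rfl fun j _ => ?_
  rw [map_mul, ext_sc, ext_cns, MM.e_of]

end H7c
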