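import Mathlib

/-!
# The homomorphism `C(circle) → D` given by a unitary
-/

open Filter Topology

namespace H7c

variable {D : Type} [CStarAlgebra D]

theorem uh_fourier_nat (n : ℕ) :
    (fourier (n : ℤ) : C(UnitAddCircle, ℂ)) = (fourier 1) ^ n := by
  induction n with
  | zero =>
    ext x
    simp
  | succ n ih =>
    ext x
    have h1 := congrArg (fun f : C(UnitAddCircle, ℂ) => f x) ih
    simp only [ContinuousMap.coe_pow, Pi.pow_apply] at h1
    rw [Nat.cast_succ, fourier_add, h1, pow_succ]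
    simp

theorem uh_fourier_neg (n : ℤ) :
    (fourier (-n) : C(UnitAddCircle, ℂ)) = star (fourier n) := by
  ext x
  rw [fourier_neg]
  rfl

theorem uh_ind {P : C(UnitAddCircle, ℂ) → Prop} (hc : IsClosed {f | P f})
    (hadd : ∀ f g, P f → P g → P (f + g)) (hsmul : ∀ (c : ℂ) f, P f → P (c • f))
    (hn : ∀ n : ℕ, P ((fourier 1) ^ n)) (hn' : ∀ n : ℕ, P (star ((fourier 1) ^ n)))
    (f : C(UnitAddCircle, ℂ)) : P f := by
  have h0 : P 0 := by
    have h1 := hsmul 0 _ (hn 0)
    have h2 : (0 : ℂ) • ((fourier 1 : C(UnitAddCircle, ℂ)) ^ 0) = 0 := by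
      ext x
      simp
    rwa [h2] at h1
  have hz : ∀ n : ℤ, P (fourier n) := by
    intro n
    obtain ⟨m, rfl | rfl⟩ := n.eq_nat_or_neg
    · rw [uh_fourier_nat]
      exact hn m
    · rw [uh_fourier_neg, uh_fourier_nat]
      exact hn' m
  have h2 : ∀ g ∈ Submodule.span ℂ (Set.range (fourier : ℤ → C(UnitAddCircle, ℂ))), P g := by
    intro g hg
    induction hg using Submodule.span_induction with
    | mem g hg =>
      obtain ⟨n, rfl⟩ := hg
      exact hz n
    | zero => exact h0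
    | add g g' _ _ h3 h4 => exact hadd g g' h3 h4
    | smul c g _ h3 => exact hsmul c g h3
  have h3 : f ∈ (Submodule.span ℂ (Set.range (fourier : ℤ → C(UnitAddCircle, ℂ)))).topologicalClosure := by
    rw [span_fourier_closure_eq_top]
    trivial
  have h4 : closure ((Submodule.span ℂ
      (Set.range (fourier : ℤ → C(UnitAddCircle, ℂ))) : Submodule ℂ C(UnitAddCircle, ℂ)) :
        Set C(UnitAddCircle, ℂ)) ⊆ {f | P f} := by
    have h5 := closure_mono (s := ((Submodule.span ℂ
      (Set.range (fourier : ℤ → C(UnitAddCircle, ℂ))) : Submodule ℂ C(UnitAddCircle, ℂ)) :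
        Set C(UnitAddCircle, ℂ))) (t := {f | P f}) (fun g hg => h2 g hg)
    rwa [hc.closure_eq] at h5
  exact h4 h3

open scoped CStarAlgebra in
theorem uh_cont (s : C(UnitAddCircle, ℂ) →⋆ₐ[ℂ] D) : Continuous s :=
  map_continuous s

/-- Homomorphisms of `C(circle)` are determined by the value at the generator: the trigonometric
polynomials are dense (`span_fourier_closure_eq_top` or Stone–Weierstrass). -/
theorem uh_ext {s t : C(UnitAddCircle, ℂ) →⋆ₐ[ℂ] D} (h : s (fourier 1) = t (fourier 1)) :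
    s = t := by
  apply StarAlgHom.ext
  intro f
  refine uh_ind (P := fun f => s f = t f) ?_ ?_ ?_ ?_ ?_ f
  · exact isClosed_eq (uh_cont s) (uh_cont t)
  · intro f g hf hg
    rw [map_add, map_add, hf, hg]
  · intro c f hf
    rw [map_smul, map_smul, hf]
  · intro n
    rw [map_pow, map_pow, h]
  · intro n
    rw [map_star, map_star, map_pow, map_pow, h]

/-- The continuous functional calculus of the unitary `u`, composed with the map from the spectrum
to the circle (`AddCircle.homeomorphCircle'` or an argument). -/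
theorem exists_uh (u : unitary D) :
    ∃ k : C(UnitAddCircle, ℂ) →⋆ₐ[ℂ] D, k (fourier 1) = (u : D) := by
  have hu : IsStarNormal (u : D) := inferInstance
  have hsp : ∀ z : spectrum ℂ (u : D), (z : ℂ) ∈ Submonoid.unitSphere ℂ := by
    intro z
    exact Unitary.spectrum_subset_circle u z.2
  obtain ⟨k, hk⟩ : ∃ k : C(spectrum ℂ (u : D), Circle), ∀ z, ((k z : Circle) : ℂ) = z :=
    ⟨⟨fun z => ⟨(z : ℂ), hsp z⟩, Continuous.subtype_mk continuous_subtype_val _⟩, fun z => rfl⟩
  obtain ⟨g, hg⟩ : ∃ g : C(spectrum ℂ (u : D), UnitAddCircle), ∀ z,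
      g z = (AddCircle.homeomorphCircle one_ne_zero).symm (k z) :=
    ⟨⟨fun z => (AddCircle.homeomorphCircle one_ne_zero).symm (k z),
      (AddCircle.homeomorphCircle one_ne_zero).symm.continuous.comp k.continuous⟩, fun z => rfl⟩
  refine ⟨(cfcHom (R := ℂ) (p := IsStarNormal) hu).comp (ContinuousMap.compStarAlgHom' ℂ ℂ g), ?_⟩
  rw [StarAlgHom.comp_apply]
  have h1 : ContinuousMap.compStarAlgHom' ℂ ℂ g (fourier 1) =
      (ContinuousMap.id ℂ).restrict (spectrum ℂ (u : D)) := by
    ext z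
    have h2 : (fourier 1 : C(UnitAddCircle, ℂ)) (g z) = (z : ℂ) := by
      rw [fourier_one, ← AddCircle.homeomorphCircle_apply one_ne_zero, hg,
        Homeomorph.apply_symm_apply, hk]
    exact h2
  rw [h1]
  exact cfcHom_id hu

/-- The homomorphism given by a unitary. -/
noncomputable def uh (u : unitary D) : C(UnitAddCircle, ℂ) →⋆ₐ[ℂ] D := (exists_uh u).choose

theorem uh_gen (u : unitary D) : uh u (fourier 1) = (u : D) := (exists_uh u).choose_spec

theorem uh_eq (u : unitary D) (s : C(UnitAddCircle, ℂ) →⋆ₐ[ℂ] D) (h : s (fourier 1) = (u : D)) :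
    s = uh u := uh_ext (by rw [h, uh_gen])

theorem uh_pow_dist {D : Type} [CStarAlgebra D] (u v : unitary D) (n : ℕ) :
    ‖(u : D) ^ n - (v : D) ^ n‖ ≤ n * ‖(u : D) - (v : D)‖ := by
  induction n with
  | zero => simp
  | succ n ih =>
    have h1 : (u : D) ^ (n + 1) - (v : D) ^ (n + 1) =
        ((u ^ n : unitary D) : D) * ((u : D) - (v : D)) + ((u : D) ^ n - (v : D) ^ n) * (v : D) := by
      rw [SubmonoidClass.coe_pow, pow_succ, pow_succ]
      noncomm_ring
    rw [h1]
    refine (norm_add_le _ _).trans ?_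
    rw [CStarRing.norm_coe_unitary_mul, CStarRing.norm_mul_coe_unitary]
    push_cast
    linarith

/-- Uniform continuity: approximate `f` by a trigonometric polynomial `∑ c_k e_k`, `|k| ≤ m`;
`‖u^k - v^k‖ ≤ |k| ‖u - v‖`. -/
theorem uh_unif (f : C(UnitAddCircle, ℂ)) (ε : ℝ) (hε : 0 < ε) : ∃ δ : ℝ, 0 < δ ∧
    ∀ (D : Type) [CStarAlgebra D] (u v : unitary D), ‖(u : D) - (v : D)‖ ≤ δ →
      ‖uh u f - uh v f‖ ≤ ε := by
  have hpow : ∀ n : ℕ, ∀ ε : ℝ, 0 < ε → ∃ δ : ℝ, 0 < δ ∧
    ∀ (D : Type) [CStarAlgebra D] (u v : unitary D), ‖(u : D) - (v : D)‖ ≤ δ →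
      ‖(u : D) ^ n - (v : D) ^ n‖ ≤ ε := by
    intro n ε hε
    refine ⟨ε / (n + 1), by positivity, ?_⟩
    intro D _ u v huv
    refine (uh_pow_dist u v n).trans ?_
    have h1 : (n : ℝ) * ‖(u : D) - (v : D)‖ ≤ (n + 1) * (ε / (n + 1)) :=
      mul_le_mul (by linarith) huv (norm_nonneg _) (by positivity)
    rwa [mul_div_cancel₀ _ (by positivity : ((n : ℝ) + 1) ≠ 0)] at h1
  revert ε
  refine uh_ind (P := fun f => ∀ ε : ℝ, 0 < ε → ∃ δ : ℝ, 0 < δ ∧
    ∀ (D : Type) [CStarAlgebra D] (u v : unitary D), ‖(u : D) - (v : D)‖ ≤ δ →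
      ‖uh u f - uh v f‖ ≤ ε) ?_ ?_ ?_ ?_ ?_ f
  · refine isClosed_of_closure_subset ?_
    intro f hf ε hε
    obtain ⟨g, hg, hfg⟩ := Metric.mem_closure_iff.1 hf (ε / 3) (by positivity)
    obtain ⟨δ, hδ, h1⟩ := hg (ε / 3) (by positivity)
    refine ⟨δ, hδ, ?_⟩
    intro D _ u v huv
    have h2 := h1 D u v huv
    have h3 : ‖uh u (f - g)‖ ≤ ‖f - g‖ := NonUnitalStarAlgHom.norm_apply_le _ _
    have h4 : ‖uh v (f - g)‖ ≤ ‖f - g‖ := NonUnitalStarAlgHom.norm_apply_le _ _
    rw [dist_eq_norm] at hfg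
    have h5 : uh u f - uh v f = uh u (f - g) + (uh u g - uh v g) - uh v (f - g) := by
      rw [map_sub, map_sub]
      abel
    rw [h5]
    have h6 := norm_sub_le (uh u (f - g) + (uh u g - uh v g)) (uh v (f - g))
    have h7 := norm_add_le (uh u (f - g)) (uh u g - uh v g)
    linarith
  · intro f g hf hg ε hε
    obtain ⟨δ1, hδ1, h1⟩ := hf (ε / 2) (by positivity)
    obtain ⟨δ2, hδ2, h2⟩ := hg (ε / 2) (by positivity)
    refine ⟨min δ1 δ2, lt_min hδ1 hδ2, ?_⟩
    intro D _ u v huv
    have h3 := h1 D u v (huv.trans (min_le_left _ _))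
    have h4 := h2 D u v (huv.trans (min_le_right _ _))
    have h5 : uh u (f + g) - uh v (f + g) = (uh u f - uh v f) + (uh u g - uh v g) := by
      rw [map_add, map_add]
      abel
    rw [h5]
    refine (norm_add_le _ _).trans ?_
    linarith
  · intro c f hf ε hε
    obtain ⟨δ, hδ, h1⟩ := hf (ε / (‖c‖ + 1)) (by positivity)
    refine ⟨δ, hδ, ?_⟩
    intro D _ u v huv
    have h2 := h1 D u v huv
    rw [map_smul, map_smul, ← smul_sub, norm_smul]
    have h3 : ‖c‖ * ‖uh u f - uh v f‖ ≤ (‖c‖ + 1) * (ε / (‖c‖ + 1)) :=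
      mul_le_mul (by linarith) h2 (norm_nonneg _) (by positivity)
    rwa [mul_div_cancel₀ _ (by positivity : (‖c‖ + 1) ≠ 0)] at h3
  · intro n ε hε
    obtain ⟨δ, hδ, h1⟩ := hpow n ε hε
    refine ⟨δ, hδ, ?_⟩
    intro D _ u v huv
    rw [map_pow, map_pow, uh_gen, uh_gen]
    exact h1 D u v huv
  · intro n ε hε
    obtain ⟨δ, hδ, h1⟩ := hpow n ε hε
    refine ⟨δ, hδ, ?_⟩
    intro D _ u v huv
    rw [map_star, map_star, map_pow, map_pow, uh_gen, uh_gen, ← star_sub, norm_star]
    exact h1 D u v huv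

theorem uh_path {T : Type} [TopologicalSpace T] (u : T → unitary D)
    (hu : Continuous fun s => (u s : D)) (f : C(UnitAddCircle, ℂ)) :
    Continuous fun s => uh (u s) f := by
  rw [continuous_iff_continuousAt]
  intro s0
  rw [ContinuousAt, Metric.tendsto_nhds]
  intro ε hε
  obtain ⟨δ, hδ, h1⟩ := uh_unif f (ε / 2) (by positivity)
  have h2 := (Metric.tendsto_nhds.1 (hu.tendsto s0)) δ hδ
  filter_upwards [h2] with s hs
  rw [dist_eq_norm] at hs ⊢
  have h3 := h1 D (u s) (u s0) hs.le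
  linarith

theorem uh_one (f : C(UnitAddCircle, ℂ)) : uh (1 : unitary D) f = algebraMap ℂ D (f 0) := by
  have h1 := uh_eq (1 : unitary D)
    ((StarAlgHom.ofId ℂ D).comp (ContinuousMap.evalStarAlgHom ℂ ℂ (0 : UnitAddCircle))) (by
      rw [StarAlgHom.comp_apply, ContinuousMap.evalStarAlgHom_apply, fourier_eval_zero, map_one]
      rfl)
  rw [← h1]
  rfl

/-- Intertwining. -/
theorem uh_intertw (u v : unitary D) (x : D) (h : (u : D) * x = x * (v : D))
    (f : C(UnitAddCircle, ℂ)) : uh u f * x = x * uh v f := by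
  have hs : star (u : D) * x = x * star (v : D) := by
    have h1 : star (u : D) * ((u : D) * x) * star (v : D) = x * star (v : D) := by
      rw [← mul_assoc (star (u : D)), Unitary.coe_star_mul_self, one_mul]
    rw [← h1, h, ← mul_assoc (star (u : D)), mul_assoc (star (u : D) * x),
      Unitary.mul_star_self_of_mem v.2, mul_one]
  refine uh_ind (P := fun f => uh u f * x = x * uh v f) ?_ ?_ ?_ ?_ ?_ f
  · exact isClosed_eq ((uh_cont _).mul continuous_const) (continuous_const.mul (uh_cont _))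
  · intro f g hf hg
    rw [map_add, map_add, add_mul, mul_add, hf, hg]
  · intro c f hf
    rw [map_smul, map_smul, smul_mul_assoc, mul_smul_comm, hf]
  · intro n
    rw [map_pow, map_pow, uh_gen, uh_gen]
    induction n with
    | zero => rw [pow_zero, pow_zero, one_mul, mul_one]
    | succ n ih => rw [pow_succ, pow_succ, mul_assoc, h, ← mul_assoc, ih, mul_assoc]
  · intro n
    rw [map_star, map_star, map_pow, map_pow, uh_gen, uh_gen, star_pow, star_pow]
    induction n with
    | zero => rw [pow_zero, pow_zero, one_mul, mul_one]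
    | succ n ih => rw [pow_succ, pow_succ, mul_assoc, hs, ← mul_assoc, ih, mul_assoc]

/-- An element commuting with `u` commutes with all `uh u f` (also with `star u`: multiply
`x u = u x` by `star u` from both sides). -/
theorem uh_comm (u : unitary D) (x : D) (h : x * (u : D) = (u : D) * x)
    (f : C(UnitAddCircle, ℂ)) : x * uh u f = uh u f * x :=
  (uh_intertw u u x h.symm f).symm

/-- If `u x = x` and `x u = x` then `uh u f * x = f 0 • x`. -/
theorem uh_mul_of_fix (u : unitary D) (x : D) (h : (u : D) * x = x) (f : C(UnitAddCircle, ℂ)) :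
    uh u f * x = f 0 • x := by
  have h1 := uh_intertw u 1 x (by rw [h, OneMemClass.coe_one, mul_one]) f
  rw [h1, uh_one, ← Algebra.commutes, Algebra.smul_def]

/-- The image of a unitary. -/
noncomputable def mapU {D' : Type} [CStarAlgebra D'] (φ : D →⋆ₐ[ℂ] D') (u : unitary D) :
    unitary D' := ⟨φ u, by
      rw [Unitary.mem_iff, ← map_star, ← map_mul, ← map_mul, Unitary.star_mul_self_of_mem u.2,
        Unitary.mul_star_self_of_mem u.2, map_one]
      exact ⟨rfl, rfl⟩⟩

theorem coe_mapU {D' : Type} [CStarAlgebra D'] (φ : D →⋆ₐ[ℂ] D') (u : unitary D) :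
    (mapU φ u : D') = φ u := rfl

theorem map_uh {D' : Type} [CStarAlgebra D'] (φ : D →⋆ₐ[ℂ] D') (u : unitary D)
    (f : C(UnitAddCircle, ℂ)) : φ (uh u f) = uh (mapU φ u) f := by
  rw [← uh_eq (mapU φ u) (φ.comp (uh u)) (by rw [StarAlgHom.comp_apply, uh_gen, coe_mapU])]
  rfl

/-- If `e` is a projection commuting with the unitary `u`, then `1 - e + u e` is a unitary and
`uh (1 - e + u e) f = f 0 • (1 - e) + uh u f * e`. -/
theorem uh_cut (u w : unitary D) (e : D) (he : e * e = e) (hs : star e = e)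
    (hc : (u : D) * e = e * (u : D)) (hw : (w : D) = 1 - e + (u : D) * e)
    (f : C(UnitAddCircle, ℂ)) : uh w f = f 0 • (1 - e) + uh u f * e := by
  have hwe : (w : D) * e = (u : D) * e := by
    rw [hw, add_mul, sub_mul, one_mul, he, sub_self, zero_add, mul_assoc, he]
  have h1 : uh w f * e = e * uh u f := uh_intertw w u e (by rw [hwe, hc]) f
  have h2 : uh w f * (1 - e) = f 0 • (1 - e) := by
    refine uh_mul_of_fix w (1 - e) ?_ f
    rw [mul_sub, mul_one, hwe, hw]
    abel
  have h3 : e * uh u f = uh u f * e := uh_comm u e hc.symm f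
  calc uh w f = uh w f * (1 - e) + uh w f * e := by rw [← mul_add, sub_add_cancel, mul_one]
    _ = _ := by rw [h1, h2, h3]

end H7c
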