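import Pool.Agent.H.MP_7b4a29_c.Tens2
import Pool.Agent.H.MP_7b4a29_c.Uh

/-!
# Functions on `circle × X₁` at a unitary valued function
-/

open Filter Topology

namespace H7c

variable {D : Type} [CStarAlgebra D]

/-- The unitary `(1 - Q + θ Q) (1 - p + θ* p)`. -/
noncomputable def wz (Q p θ : D) : D := (1 - Q + θ * Q) * (1 - p + star θ * p)

theorem fn_star {θ : D} (hθ : ∀ x, θ * x = x * θ) (x : D) : star θ * x = x * star θ := by
  have h := congrArg star (hθ (star x))
  rw [star_mul, star_mul, star_star] at h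
  exact h.symm

theorem fn_mul {e a b : D} (he : e * e = e) (hb : e * b = b * e) :
    (1 - e + a * e) * (1 - e + b * e) = 1 - e + a * b * e := by
  calc (1 - e + a * e) * (1 - e + b * e)
      = 1 - e - e + e * e + (b * e - e * b * e) + a * (e - e * e) + a * (e * b) * e := by
        noncomm_ring
    _ = 1 - e + a * b * e := by
        rw [hb, he, mul_assoc b e e, he, sub_self, sub_self, mul_zero, ← mul_assoc a b e,
          mul_assoc (a * b) e e, he]
        abel

theorem fn_un {e θ : D} (he : e * e = e) (hes : star e = e)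
    (h1 : star θ * θ = 1) (h2 : θ * star θ = 1) (hθ : ∀ x, θ * x = x * θ) :
    1 - e + θ * e ∈ unitary D := by
  have hs : star (1 - e + θ * e) = 1 - e + star θ * e := by
    rw [star_add, star_sub, star_one, star_mul, hes, fn_star hθ]
  rw [Unitary.mem_iff, hs, fn_mul he (hθ e).symm, fn_mul he (fn_star hθ e).symm, h1, h2, one_mul,
    sub_add_cancel]
  exact ⟨rfl, rfl⟩

theorem wz_mem {Q p θ : D} (hQ : Q * Q = Q) (hQs : star Q = Q) (hp : p * p = p) (hps : star p = p)
    (h1 : star θ * θ = 1) (h2 : θ * star θ = 1) (hθ : ∀ x, θ * x = x * θ) :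
    wz Q p θ ∈ unitary D := by
  have h3 : star (star θ) * star θ = 1 := by rw [star_star]; exact h2
  have h4 : star θ * star (star θ) = 1 := by rw [star_star]; exact h1
  exact mul_mem (fn_un hQ hQs h1 h2 hθ) (fn_un hp hps h3 h4 (fn_star hθ))

theorem map_wz {D' : Type} [CStarAlgebra D'] (φ : D →⋆ₐ[ℂ] D') (Q p θ : D) :
    φ (wz Q p θ) = wz (φ Q) (φ p) (φ θ) := by
  simp only [wz, map_mul, map_add, map_sub, map_one, map_star]

theorem wz_one (Q p : D) : wz Q p 1 = 1 := by
  rw [wz, star_one, one_mul, one_mul, sub_add_cancel, sub_add_cancel, one_mul]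

theorem wz_self {p θ : D} (hp : p * p = p) (h1 : star θ * θ = 1) (h2 : θ * star θ = 1)
    (hθ : ∀ x, θ * x = x * θ) : wz p p θ = 1 := by
  rw [wz, fn_mul hp (fn_star hθ p).symm, h2, one_mul, sub_add_cancel]

/-- `(1 - p - e + θ (p + e)) (1 - p + θ* p) = 1 - e + θ e`. -/
theorem wz_orth {p e θ : D} (hp : p * p = p) (hpe : e * p = 0) (hep : p * e = 0)
    (h2 : θ * star θ = 1) (h1 : star θ * θ = 1) (hθ : ∀ x, θ * x = x * θ) :
    wz (p + e) p θ = 1 - e + θ * e := by
  have h3 : p * star θ = star θ * p := (fn_star hθ p).symm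
  have h4 : e * star θ = star θ * e := (fn_star hθ e).symm
  rw [wz]
  calc (1 - (p + e) + θ * (p + e)) * (1 - p + star θ * p)
      = 1 - p - e - p + p * p + e * p + (star θ * p - p * star θ * p - e * star θ * p) +
          θ * (p + e - p * p - e * p) + θ * (p * star θ) * p + θ * (e * star θ) * p := by
        noncomm_ring
    _ = 1 - e + θ * e := by
        rw [h3, h4, hp, hpe, mul_assoc (star θ) p p, hp, mul_assoc (star θ) e p, hpe, mul_zero,
          ← mul_assoc θ, ← mul_assoc θ, h2, one_mul, one_mul, hp, hpe, sub_self, sub_zero]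
        have h5 : p + e - p - 0 = e := by abel
        rw [h5]
        abel

variable {Z : Type} [TopologicalSpace Z] [CompactSpace Z] [T2Space Z]
  {X : Type} [TopologicalSpace X] [CompactSpace X] [T2Space X]

/-- The value of a unitary function. -/
noncomputable def uev (W : unitary C(Z, D)) (z : Z) : unitary D := mapU (evx D z) W

theorem coe_uev (W : unitary C(Z, D)) (z : Z) : (uev W z : D) = (W : C(Z, D)) z := rfl

theorem fn_comm (W : unitary C(Z, D)) (ξ : C(Z, X)) (x : C(UnitAddCircle, ℂ)) (f : C(X, ℂ)) :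
    uh W x * ((sc Z D).comp (ContinuousMap.compStarAlgHom' ℂ ℂ ξ)) f =
      ((sc Z D).comp (ContinuousMap.compStarAlgHom' ℂ ℂ ξ)) f * uh W x := by
  ext z
  rw [ContinuousMap.mul_apply, ContinuousMap.mul_apply, StarAlgHom.comp_apply, sc_apply]
  exact (Algebra.commutes _ _).symm

/-- The homomorphism `f ↦ (z ↦ f(W z, ξ z))`. -/
noncomputable def Fn (W : unitary C(Z, D)) (ξ : C(Z, X)) :
    C(UnitAddCircle × X, ℂ) →⋆ₐ[ℂ] C(Z, D) :=
  tens2 (uh W) ((sc Z D).comp (ContinuousMap.compStarAlgHom' ℂ ℂ ξ)) (fun x f => fn_comm W ξ x f)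

/-- The slice of a function. -/
noncomputable def slc (f : C(UnitAddCircle × X, ℂ)) (x : X) : C(UnitAddCircle, ℂ) :=
  ⟨fun t => f (t, x), f.continuous.comp (Continuous.prodMk_left x)⟩

/-- By `tens2_ext`, for fixed `z`: the left hand side is `evx z ∘ Fn W ξ`, and the right hand side is a
homomorphism in `f`. -/
theorem Fn_apply (W : unitary C(Z, D)) (ξ : C(Z, X)) (f : C(UnitAddCircle × X, ℂ)) (z : Z) :
    Fn W ξ f z = uh (uev W z) (slc f (ξ z)) := by
  have h : (evx D z).comp (Fn W ξ) = (uh (uev W z)).comp (ContinuousMap.compStarAlgHom' ℂ ℂ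
      (⟨fun t => (t, ξ z), Continuous.prodMk_left (ξ z)⟩ : C(UnitAddCircle, UnitAddCircle × X))) := by
    refine tens2_ext (fun f => ?_) fun f => ?_
    · rw [StarAlgHom.comp_apply, StarAlgHom.comp_apply, Fn, tens2_c1, map_uh]
      rfl
    · rw [StarAlgHom.comp_apply, StarAlgHom.comp_apply, Fn, tens2_c2, StarAlgHom.comp_apply,
        evx_apply, sc_apply]
      have h1 : ContinuousMap.compStarAlgHom' ℂ ℂ
          (⟨fun t => (t, ξ z), Continuous.prodMk_left (ξ z)⟩ : C(UnitAddCircle, UnitAddCircle × X))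
          (c2 UnitAddCircle X f) = algebraMap ℂ C(UnitAddCircle, ℂ) (f (ξ z)) := by
        ext t
        rfl
      rw [h1, AlgHomClass.commutes]
      rfl
  exact DFunLike.congr_fun h f

theorem Fn_path {T : Type} [TopologicalSpace T] (W : T → unitary C(Z, D))
    (hW : Continuous fun s => (W s : C(Z, D))) (ξ : C(Z, X)) (f : C(UnitAddCircle × X, ℂ)) :
    Continuous fun s => Fn (W s) ξ f := by
  exact tens2_path (fun s => uh (W s)) (fun _ => (sc Z D).comp (ContinuousMap.compStarAlgHom' ℂ ℂ ξ))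
    (fun s x f => fn_comm (W s) ξ x f) (fun x => uh_path W hW x) (fun _ => continuous_const) f

end H7c
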