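import Pool.Agent.H.MP_7b4a29_c.Tens

/-!
# Homomorphisms from `C(X × X', ℂ)` given by commuting homomorphisms
-/

open Filter Topology

namespace H7c

variable {X : Type} [TopologicalSpace X] [CompactSpace X] [T2Space X]
  {D : Type} [CStarAlgebra D]

/-! ### Products of spaces -/

variable {X' : Type} [TopologicalSpace X'] [CompactSpace X'] [T2Space X']

/-- The functions of the first coordinate. -/
noncomputable def c1 (X X' : Type) [TopologicalSpace X] [TopologicalSpace X'] :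
    C(X, ℂ) →⋆ₐ[ℂ] C(X × X', ℂ) := ContinuousMap.compStarAlgHom' ℂ ℂ ⟨Prod.fst, continuous_fst⟩

/-- The functions of the second coordinate. -/
noncomputable def c2 (X X' : Type) [TopologicalSpace X] [TopologicalSpace X'] :
    C(X', ℂ) →⋆ₐ[ℂ] C(X × X', ℂ) := ContinuousMap.compStarAlgHom' ℂ ℂ ⟨Prod.snd, continuous_snd⟩

/-- Currying. -/
noncomputable def tens2_cur (X X' : Type) [TopologicalSpace X] [CompactSpace X] [TopologicalSpace X']
    [CompactSpace X'] : C(X × X', ℂ) →⋆ₐ[ℂ] C(X, C(X', ℂ)) where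
  toFun F := F.curry
  map_one' := rfl
  map_mul' _ _ := rfl
  map_zero' := rfl
  map_add' _ _ := rfl
  commutes' _ := rfl
  map_star' _ := rfl

/-- Uncurrying. -/
noncomputable def tens2_unc (X X' : Type) [TopologicalSpace X] [CompactSpace X] [TopologicalSpace X']
    [CompactSpace X'] [T2Space X'] : C(X, C(X', ℂ)) →⋆ₐ[ℂ] C(X × X', ℂ) where
  toFun F := F.uncurry
  map_one' := rfl
  map_mul' _ _ := rfl
  map_zero' := rfl
  map_add' _ _ := rfl
  commutes' _ := rfl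
  map_star' _ := rfl

theorem tens2_unc_cur (F : C(X × X', ℂ)) : tens2_unc X X' (tens2_cur X X' F) = F := rfl

theorem tens2_cur_c1 (f : C(X, ℂ)) : tens2_cur X X' (c1 X X' f) = sc X C(X', ℂ) f := rfl

theorem tens2_cur_c2 (f : C(X', ℂ)) : tens2_cur X X' (c2 X X' f) = cns X C(X', ℂ) f := rfl

theorem tens2_unc_sc (f : C(X, ℂ)) : tens2_unc X X' (sc X C(X', ℂ) f) = c1 X X' f := rfl

theorem tens2_unc_cns (f : C(X', ℂ)) : tens2_unc X X' (cns X C(X', ℂ) f) = c2 X X' f := rfl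

theorem tens2_ext {s t : C(X × X', ℂ) →⋆ₐ[ℂ] D} (h1 : ∀ f, s (c1 X X' f) = t (c1 X X' f))
    (h2 : ∀ f, s (c2 X X' f) = t (c2 X X' f)) : s = t := by
  have h : s.comp (tens2_unc X X') = t.comp (tens2_unc X X') := by
    refine tens_ext (fun g => ?_) fun f => ?_
    · rw [StarAlgHom.comp_apply, StarAlgHom.comp_apply, tens2_unc_cns]
      exact h2 g
    · rw [StarAlgHom.comp_apply, StarAlgHom.comp_apply, tens2_unc_sc]
      exact h1 f
  refine StarAlgHom.ext fun F => ?_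
  have h3 := DFunLike.congr_fun h (tens2_cur X X' F)
  rw [StarAlgHom.comp_apply, StarAlgHom.comp_apply, tens2_unc_cur] at h3
  exact h3

/-- From `exists_tens` for `A = C(X', ℂ)` and `ContinuousMap.curry`. -/
theorem exists_tens2 (a : C(X, ℂ) →⋆ₐ[ℂ] D) (b : C(X', ℂ) →⋆ₐ[ℂ] D)
    (hab : ∀ x f, a x * b f = b f * a x) :
    ∃ t : C(X × X', ℂ) →⋆ₐ[ℂ] D, (∀ f, t (c1 X X' f) = a f) ∧ ∀ f, t (c2 X X' f) = b f := by
  refine ⟨(tens (X := X) (A := C(X', ℂ)) b a fun x f => (hab f x).symm).comp (tens2_cur X X'),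
    fun f => ?_, fun f => ?_⟩
  · rw [StarAlgHom.comp_apply, tens2_cur_c1, tens_sc]
  · rw [StarAlgHom.comp_apply, tens2_cur_c2, tens_cns]

/-- The homomorphism of `C(X × X')` given by commuting homomorphisms. -/
noncomputable def tens2 (a : C(X, ℂ) →⋆ₐ[ℂ] D) (b : C(X', ℂ) →⋆ₐ[ℂ] D)
    (hab : ∀ x f, a x * b f = b f * a x) : C(X × X', ℂ) →⋆ₐ[ℂ] D := (exists_tens2 a b hab).choose

theorem tens2_c1 (a : C(X, ℂ) →⋆ₐ[ℂ] D) (b : C(X', ℂ) →⋆ₐ[ℂ] D)
    (hab : ∀ x f, a x * b f = b f * a x) (f : C(X, ℂ)) : tens2 a b hab (c1 X X' f) = a f :=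
  (exists_tens2 a b hab).choose_spec.1 f

theorem tens2_c2 (a : C(X, ℂ) →⋆ₐ[ℂ] D) (b : C(X', ℂ) →⋆ₐ[ℂ] D)
    (hab : ∀ x f, a x * b f = b f * a x) (f : C(X', ℂ)) : tens2 a b hab (c2 X X' f) = b f :=
  (exists_tens2 a b hab).choose_spec.2 f

theorem tens2_comp {D' : Type} [CStarAlgebra D'] (a : C(X, ℂ) →⋆ₐ[ℂ] D) (b : C(X', ℂ) →⋆ₐ[ℂ] D)
    (hab : ∀ x f, a x * b f = b f * a x) (φ : D →⋆ₐ[ℂ] D') (F : C(X × X', ℂ)) :
    φ (tens2 a b hab F) = tens2 (φ.comp a) (φ.comp b) (fun x f => by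
      simp only [StarAlgHom.comp_apply, ← map_mul, hab]) F := by
  have h : φ.comp (tens2 a b hab) = tens2 (φ.comp a) (φ.comp b) (fun x f => by
      simp only [StarAlgHom.comp_apply, ← map_mul, hab]) := by
    refine tens2_ext (fun f => ?_) fun f => ?_
    · rw [StarAlgHom.comp_apply, tens2_c1, tens2_c1, StarAlgHom.comp_apply]
    · rw [StarAlgHom.comp_apply, tens2_c2, tens2_c2, StarAlgHom.comp_apply]
  exact DFunLike.congr_fun h F

theorem tens2_path {T : Type} [TopologicalSpace T] (a : T → C(X, ℂ) →⋆ₐ[ℂ] D)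
    (b : T → C(X', ℂ) →⋆ₐ[ℂ] D) (hab : ∀ s x f, a s x * b s f = b s f * a s x)
    (ha : ∀ x, Continuous fun s => a s x) (hb : ∀ f, Continuous fun s => b s f)
    (F : C(X × X', ℂ)) : Continuous fun s => tens2 (a s) (b s) (hab s) F := by
  have h : ∀ s, tens2 (a s) (b s) (hab s) = (tens (X := X) (A := C(X', ℂ)) (b s) (a s)
      fun x f => (hab s f x).symm).comp (tens2_cur X X') := fun s => by
    refine tens2_ext (fun f => ?_) fun f => ?_
    · rw [StarAlgHom.comp_apply, tens2_c1, tens2_cur_c1, tens_sc]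
    · rw [StarAlgHom.comp_apply, tens2_c2, tens2_cur_c2, tens_cns]
  simp only [h, StarAlgHom.comp_apply]
  exact tens_path (X := X) (A := C(X', ℂ)) b a (fun s x f => (hab s f x).symm) hb ha _

end H7c
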