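import Pool.Agent.H.MP_7b4a29_c.CmpB
import Pool.Agent.H.MP_7b4a29_c.Uh
import Pool.Agent.H.MP_7b4a29_c.Tens2
import Pool.Agent.H.MP_7b4a29_c.M2

/-!
# The cyclic shift and the position; the asymptotic homomorphism of the torus
-/

open Filter Topology

namespace H7c

variable (I : Ix)

/-- The size `w l + 2`. -/
def fz : Sz I := ⟨fun l => Fin (I.w l + 2), fun _ => inferInstance, fun _ => inferInstance⟩

theorem fz_PB : (fz I).PB := by
  refine ⟨1, 3, ?_⟩
  filter_upwards [I.tw.eventually_ge_atTop 1] with l hl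
  have h1 : Fintype.card ((fz I).ty l) = I.w l + 2 := Fintype.card_fin _
  rw [h1, pow_one]
  have h2 : (1 : ℝ) ≤ (I.w l : ℝ) := by exact_mod_cast hl
  push_cast
  linarith

/-- The position `k / (N - 1)`, `N = w l + 2`. -/
noncomputable def ps (l : I.L) (k : Fin (I.w l + 2)) : unitInterval :=
  ⟨(k.1 : ℝ) / (I.w l + 1), by
    have h1 : (0 : ℝ) < (I.w l : ℝ) + 1 := by positivity
    have h2 : (k.1 : ℝ) ≤ (I.w l : ℝ) + 1 := by
      have h4 := k.2
      have h3 : k.1 ≤ I.w l + 1 := by omega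
      exact_mod_cast h3
    exact ⟨by positivity, (div_le_one h1).2 h2⟩⟩

/-- Diagonal matrices. -/
noncomputable def fz_dg {n : ℕ} (d : Fin (n + 2) → ℂ) : MM (Fin (n + 2)) ℂ :=
  MM.of (fun i j => if i = j then d i else 0)

/-- The shift. -/
noncomputable def fz_sh (n : ℕ) : MM (Fin (n + 2)) ℂ :=
  MM.of (fun i j => if i = j + 1 then 1 else 0)

/-- The matrix unit. -/
noncomputable def fz_un (n : ℕ) : MM (Fin (n + 2)) ℂ :=
  MM.of (fun i j => if i = 0 ∧ j = Fin.last _ then 1 else 0)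

section mat

variable {n : ℕ}

theorem fz_e_dg (d : Fin (n + 2) → ℂ) (i j : Fin (n + 2)) :
    MM.e (fz_dg d) i j = if i = j then d i else 0 := rfl

theorem fz_e_sh (i j : Fin (n + 2)) : MM.e (fz_sh n) i j = if i = j + 1 then 1 else 0 := rfl

theorem fz_e_un (i j : Fin (n + 2)) :
    MM.e (fz_un n) i j = if i = 0 ∧ j = Fin.last _ then 1 else 0 := rfl

theorem fz_dg_one : fz_dg (fun _ : Fin (n + 2) => (1 : ℂ)) = 1 := by
  apply MM.ext
  intro i j
  rw [MM.e_one]
  rfl

theorem fz_dg_mul (c d : Fin (n + 2) → ℂ) : fz_dg (fun i => c i * d i) = fz_dg c * fz_dg d :=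
  map_mul (MM.mm_diag : (Fin (n + 2) → ℂ) →⋆ₙₐ[ℂ] MM (Fin (n + 2)) ℂ) c d

theorem fz_dg_zero : fz_dg (fun _ : Fin (n + 2) => (0 : ℂ)) = 0 :=
  map_zero (MM.mm_diag : (Fin (n + 2) → ℂ) →⋆ₙₐ[ℂ] MM (Fin (n + 2)) ℂ)

theorem fz_dg_add (c d : Fin (n + 2) → ℂ) : fz_dg (fun i => c i + d i) = fz_dg c + fz_dg d :=
  map_add (MM.mm_diag : (Fin (n + 2) → ℂ) →⋆ₙₐ[ℂ] MM (Fin (n + 2)) ℂ) c d

theorem fz_dg_star (c : Fin (n + 2) → ℂ) : fz_dg (fun i => star (c i)) = star (fz_dg c) :=
  map_star (MM.mm_diag : (Fin (n + 2) → ℂ) →⋆ₙₐ[ℂ] MM (Fin (n + 2)) ℂ) c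

theorem fz_dg_alg (c : ℂ) : fz_dg (fun _ : Fin (n + 2) => c) = algebraMap ℂ (MM (Fin (n + 2)) ℂ) c := by
  apply MM.ext
  intro i j
  rw [MM.mmh_algebraMap, fz_e_dg]
  split_ifs
  · rw [smul_eq_mul, mul_one]
  · rw [smul_zero]

theorem fz_norm_dg (d : Fin (n + 2) → ℂ) {C : ℝ} (hC : 0 ≤ C) (h : ∀ i, ‖d i‖ ≤ C) :
    ‖fz_dg d‖ ≤ C := MM.norm_diag_le d C hC h

theorem fz_last_add : (Fin.last (n + 1) : Fin (n + 2)) + 1 = 0 := Fin.last_add_one _

theorem fz_sh_unit : star (fz_sh n) * fz_sh n = 1 ∧ fz_sh n * star (fz_sh n) = 1 := by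
  constructor
  · apply MM.ext
    intro i j
    rw [MM.e_mul, MM.e_one]
    simp only [MM.e_star, fz_e_sh]
    rw [Finset.sum_eq_single (i + 1)]
    · rw [if_pos rfl, star_one, one_mul]
      by_cases h : i = j
      · rw [if_pos h, if_pos (by rw [h])]
      · rw [if_neg h, if_neg (fun h' => h (add_right_cancel h'))]
    · intro k _ hk
      rw [if_neg hk, star_zero, zero_mul]
    · intro h
      exact absurd (Finset.mem_univ _) h
  · apply MM.ext
    intro i j
    rw [MM.e_mul, MM.e_one]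
    simp only [MM.e_star, fz_e_sh]
    rw [Finset.sum_eq_single (i - 1)]
    · rw [if_pos (sub_add_cancel i 1).symm, one_mul, sub_add_cancel]
      by_cases h : i = j
      · rw [if_pos h, if_pos h.symm, star_one]
      · rw [if_neg h, if_neg (fun h' => h h'.symm), star_zero]
    · intro k _ hk
      rw [if_neg (fun h' => hk (by rw [h', add_sub_cancel_right])), zero_mul]
    · intro h
      exact absurd (Finset.mem_univ _) h

theorem fz_norm_sh : ‖fz_sh n‖ ≤ 1 := by
  have h1 := (fz_sh_unit (n := n)).1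
  have h2 := CStarRing.norm_star_mul_self (x := fz_sh n)
  rw [h1] at h2
  have h3 := norm_one_le' (MM (Fin (n + 2)) ℂ)
  have h4 := norm_nonneg (fz_sh n)
  nlinarith

theorem fz_norm1 {ι : Type} [Fintype ι] [DecidableEq ι] (i0 j0 : ι) :
    ‖(MM.of (fun i j => if i = i0 ∧ j = j0 then 1 else 0) : MM ι ℂ)‖ ≤ 1 := by
  have h1 := MM.mm_single (P := ℂ) i0 j0 1
  rw [norm_one] at h1
  have h2 : (MM.of (fun i j => if i = i0 ∧ j = j0 then 1 else 0) : MM ι ℂ) =
      MM.of (fun i j => if i = i0 then (if j = j0 then 1 else 0) else 0) := by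
    apply MM.ext
    intro i j
    rw [MM.e_of, MM.e_of, ite_and]
  rw [h2]
  exact h1

theorem fz_norm_un : ‖fz_un n‖ ≤ 1 := fz_norm1 (0 : Fin (n + 2)) (Fin.last _)

theorem fz_dmul (d : Fin (n + 2) → ℂ) (x : MM (Fin (n + 2)) ℂ) (i j : Fin (n + 2)) :
    MM.e (fz_dg d * x) i j = d i * MM.e x i j := by
  rw [MM.e_mul, Finset.sum_eq_single i]
  · rw [fz_e_dg, if_pos rfl]
  · intro k _ hk
    rw [fz_e_dg, if_neg (fun h => hk h.symm), zero_mul]
  · intro h
    exact absurd (Finset.mem_univ _) h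

theorem fz_muld (d : Fin (n + 2) → ℂ) (x : MM (Fin (n + 2)) ℂ) (i j : Fin (n + 2)) :
    MM.e (x * fz_dg d) i j = MM.e x i j * d j := by
  rw [MM.e_mul, Finset.sum_eq_single j]
  · rw [fz_e_dg, if_pos rfl]
  · intro k _ hk
    rw [fz_e_dg, if_neg hk, mul_zero]
  · intro h
    exact absurd (Finset.mem_univ _) h

theorem fz_comm (d : Fin (n + 2) → ℂ) :
    fz_dg d * fz_sh n - fz_sh n * fz_dg d - (d 0 - d (Fin.last _)) • fz_un n =
      fz_sh n * fz_dg (fun j => if j = Fin.last _ then 0 else d (j + 1) - d j) := by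
  apply MM.ext
  intro i j
  rw [MM.e_sub, MM.e_sub, MM.e_smul, fz_dmul, fz_muld, fz_muld, fz_e_sh, fz_e_un, smul_eq_mul]
  by_cases h1 : i = j + 1
  · rw [if_pos h1, h1]
    by_cases h2 : j = Fin.last _
    · rw [if_pos h2, h2, fz_last_add, if_pos ⟨rfl, rfl⟩]
      ring
    · rw [if_neg h2, if_neg (fun h => h2 h.2)]
      ring
  · have h3 : ¬ (i = 0 ∧ j = Fin.last _) := by
      rintro ⟨h4, h5⟩
      apply h1
      rw [h4, h5, fz_last_add]
    rw [if_neg h1, if_neg h3]
    ring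

theorem fz_DE (d : Fin (n + 2) → ℂ) : fz_dg d * fz_un n = d 0 • fz_un n := by
  apply MM.ext
  intro i j
  rw [MM.e_smul, fz_dmul, fz_e_un, smul_eq_mul]
  by_cases h : i = 0 ∧ j = Fin.last _
  · rw [if_pos h, h.1]
  · rw [if_neg h, mul_zero, mul_zero]

theorem fz_ED (d : Fin (n + 2) → ℂ) : fz_un n * fz_dg d = d (Fin.last _) • fz_un n := by
  apply MM.ext
  intro i j
  rw [MM.e_smul, fz_muld, fz_e_un, smul_eq_mul]
  by_cases h : i = 0 ∧ j = Fin.last _
  · rw [if_pos h, h.2]
    ring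
  · rw [if_neg h, mul_zero, zero_mul]

theorem fz_e_unit1 {ι : Type} [Fintype ι] [DecidableEq ι] (k a b : ι) :
    MM.e (MM.unit1 k : MM ι ℂ) a b = if a = k ∧ b = k then 1 else 0 := rfl

theorem fz_ES : fz_un n * star (fz_sh n) = MM.unit1 0 := by
  apply MM.ext
  intro i j
  rw [fz_e_unit1, MM.e_mul, Finset.sum_eq_single (Fin.last (n + 1))]
  · rw [MM.e_star, fz_e_un, fz_e_sh, fz_last_add]
    by_cases h1 : i = 0
    · by_cases h2 : j = 0
      · rw [if_pos ⟨h1, rfl⟩, if_pos h2, if_pos ⟨h1, h2⟩, star_one, one_mul]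
      · rw [if_neg h2, if_neg (fun h : i = 0 ∧ j = 0 => h2 h.2), star_zero, mul_zero]
    · rw [if_neg (fun h : i = 0 ∧ Fin.last (n + 1) = Fin.last (n + 1) => h1 h.1),
        if_neg (fun h : i = 0 ∧ j = 0 => h1 h.1), zero_mul]
  · intro k _ hk
    rw [fz_e_un, if_neg (fun h => hk h.2), zero_mul]
  · intro h
    exact absurd (Finset.mem_univ _) h

theorem fz_SE : star (fz_sh n) * fz_un n = MM.unit1 (Fin.last (n + 1)) := by
  apply MM.ext
  intro i j
  rw [fz_e_unit1, MM.e_mul, Finset.sum_eq_single (0 : Fin (n + 2))]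
  · rw [MM.e_star, fz_e_un, fz_e_sh]
    have h0 : (0 : Fin (n + 2)) = i + 1 ↔ i = Fin.last _ := by
      constructor
      · intro h
        have h3 := fz_last_add (n := n)
        exact add_right_cancel (h.symm.trans h3.symm)
      · intro h
        rw [h]
        exact fz_last_add.symm
    by_cases h1 : i = Fin.last _
    · by_cases h2 : j = Fin.last _
      · rw [if_pos (h0.2 h1), if_pos ⟨rfl, h2⟩, if_pos ⟨h1, h2⟩, star_one, one_mul]
      · rw [if_neg (fun h : (0 : Fin (n + 2)) = 0 ∧ j = Fin.last _ => h2 h.2),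
          if_neg (fun h : i = Fin.last _ ∧ j = Fin.last _ => h2 h.2), mul_zero]
    · rw [if_neg (fun h => h1 (h0.1 h)), if_neg (fun h : i = Fin.last _ ∧ j = Fin.last _ => h1 h.1),
        star_zero, zero_mul]
  · intro k _ hk
    rw [fz_e_un, if_neg (fun h => hk h.1), mul_zero]
  · intro h
    exact absurd (Finset.mem_univ _) h

theorem fz_unit_star {ι : Type} [Fintype ι] [DecidableEq ι] (k : ι) :
    star (MM.unit1 k : MM ι ℂ) = MM.unit1 k := by
  apply MM.ext
  intro i j
  rw [MM.e_star, fz_e_unit1, fz_e_unit1]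
  by_cases h : i = k ∧ j = k
  · rw [if_pos h, if_pos h.symm, star_one]
  · rw [if_neg h, if_neg (fun h' => h h'.symm), star_zero]

theorem fz_unit_mul {ι : Type} [Fintype ι] [DecidableEq ι] (k : ι) :
    (MM.unit1 k : MM ι ℂ) * MM.unit1 k = MM.unit1 k := by
  apply MM.ext
  intro i j
  rw [MM.e_mul, Finset.sum_eq_single k]
  · rw [fz_e_unit1, fz_e_unit1, fz_e_unit1]
    by_cases h1 : i = k
    · by_cases h2 : j = k
      · rw [if_pos ⟨h1, rfl⟩, if_pos ⟨rfl, h2⟩, if_pos ⟨h1, h2⟩, one_mul]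
      · rw [if_neg (fun h : k = k ∧ j = k => h2 h.2), if_neg (fun h : i = k ∧ j = k => h2 h.2),
          mul_zero]
    · rw [if_neg (fun h : i = k ∧ k = k => h1 h.1), if_neg (fun h : i = k ∧ j = k => h1 h.1),
        zero_mul]
  · intro b _ hb
    rw [fz_e_unit1, if_neg (fun h : i = k ∧ b = k => hb h.2), zero_mul]
  · intro h
    exact absurd (Finset.mem_univ _) h

end mat

/-- The diagonal matrices of the position. -/
noncomputable def fz_D (g : C(unitInterval, ℂ)) (l : I.L) : MM ((fz I).ty l) ℂ :=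
  fz_dg (fun i : Fin (I.w l + 2) => g (ps I l i))

theorem fz_bdD (g : C(unitInterval, ℂ)) : Bd (A := fun l => MM ((fz I).ty l) ℂ) (fz_D I g) :=
  ⟨‖g‖, fun l => fz_norm_dg (fun i : Fin (I.w l + 2) => g (ps I l i)) (norm_nonneg _)
    (fun i => g.norm_coe_le_norm _)⟩

/-- Functions of the position. -/
noncomputable def pos : C(unitInterval, ℂ) →⋆ₐ[ℂ] RM (fz I) ℂ where
  toFun g := cl I (fun l => MM.of (fun i j => if i = j then g (ps I l i) else 0))
  map_one' := by
    exact (congrArg (cl I) (funext fun l => fz_dg_one)).trans (cl_one I)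
  map_mul' := by
    intro f g
    exact (congrArg (cl I) (funext fun l => fz_dg_mul (fun i => f (ps I l i)) (fun i => g (ps I l i)))).trans
      (cl_mul I (fz_bdD I f) (fz_bdD I g))
  map_zero' := by
    exact (congrArg (cl I) (funext fun l => fz_dg_zero)).trans (cl_zero I)
  map_add' := by
    intro f g
    exact (congrArg (cl I) (funext fun l => fz_dg_add (fun i => f (ps I l i)) (fun i => g (ps I l i)))).trans
      (cl_add I (fz_bdD I f) (fz_bdD I g))
  commutes' := by
    intro c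
    exact (congrArg (cl I) (funext fun l => fz_dg_alg c)).trans (cl_algebraMap I c)
  map_star' := by
    intro g
    exact (congrArg (cl I) (funext fun l => fz_dg_star (fun i => g (ps I l i)))).trans
      (cl_star I (fz_bdD I g))

/-- The cyclic shift `e_k ↦ e_{k+1}`. -/
noncomputable def shf (l : I.L) : MM (Fin (I.w l + 2)) ℂ := MM.of (fun i j => if i = j + 1 then 1 else 0)

theorem shf_unitary (l : I.L) : star (shf I l) * shf I l = 1 ∧ shf I l * star (shf I l) = 1 := by
  exact fz_sh_unit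

/-- The shifts as a family. -/
noncomputable def fz_S (l : I.L) : MM ((fz I).ty l) ℂ := fz_sh (I.w l)

theorem fz_bdS : Bd (A := fun l => MM ((fz I).ty l) ℂ) (fz_S I) := ⟨1, fun l => fz_norm_sh (n := I.w l)⟩

/-- The class of the shifts. -/
noncomputable def vv : unitary (RM (fz I) ℂ) := ⟨cl I (shf I), by
  have hb := fz_bdS I
  refine Unitary.mem_iff.2 ⟨?_, ?_⟩
  · refine (congrArg (· * cl I (fz_S I)) (cl_star I hb).symm).trans ?_
    refine (cl_mul I hb.star hb).symm.trans ?_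
    rw [← cl_one I]
    congr 1
    funext l
    exact (shf_unitary I l).1
  · refine (congrArg (cl I (fz_S I) * ·) (cl_star I hb).symm).trans ?_
    refine (cl_mul I hb hb.star).symm.trans ?_
    rw [← cl_one I]
    congr 1
    funext l
    exact (shf_unitary I l).2⟩

/-- The class of the matrix units `e_{0, N-1}`. -/
noncomputable def EE : RM (fz I) ℂ :=
  cl I (fun l => MM.of (fun (i j : Fin (I.w l + 2)) => if i = 0 ∧ j = Fin.last _ then 1 else 0))

/-- The matrix units as a family. -/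
noncomputable def fz_E (l : I.L) : MM ((fz I).ty l) ℂ := fz_un (I.w l)

theorem fz_bdE : Bd (A := fun l => MM ((fz I).ty l) ℂ) (fz_E I) :=
  ⟨1, fun l => fz_norm_un (n := I.w l)⟩

theorem fz_ps_zero (l : I.L) : ps I l 0 = 0 := by
  apply Subtype.ext
  change (((0 : Fin (I.w l + 2)).1 : ℕ) : ℝ) / (I.w l + 1) = 0
  simp

theorem fz_ps_last (l : I.L) : ps I l (Fin.last _) = 1 := by
  apply Subtype.ext
  change (((Fin.last (I.w l + 1)).1 : ℕ) : ℝ) / (I.w l + 1) = 1
  rw [Fin.val_last]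
  push_cast
  exact div_self (by positivity)

theorem fz_ps_dist (l : I.L) (j : Fin (I.w l + 2)) (hj : j ≠ Fin.last _) :
    dist (ps I l (j + 1)) (ps I l j) = 1 / ((I.w l : ℝ) + 1) := by
  have h1 : (j + 1).1 = j.1 + 1 := Fin.val_add_one_of_lt (Fin.lt_last_iff_ne_last.2 hj)
  have h2 : ((ps I l (j + 1) : unitInterval) : ℝ) - ((ps I l j : unitInterval) : ℝ) =
      1 / ((I.w l : ℝ) + 1) := by
    change ((j + 1).1 : ℝ) / (I.w l + 1) - ((j.1 : ℕ) : ℝ) / (I.w l + 1) = _
    rw [h1, ← sub_div]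
    congr 1
    push_cast
    ring
  rw [Subtype.dist_eq, Real.dist_eq, h2, abs_of_nonneg (by positivity)]

/-- The differences. -/
noncomputable def fz_d (g : C(unitInterval, ℂ)) (l : I.L) (j : Fin (I.w l + 2)) : ℂ :=
  if j = Fin.last _ then 0 else g (ps I l (j + 1)) - g (ps I l j)

/-- The diagonal matrix of the differences. -/
noncomputable def fz_dd (g : C(unitInterval, ℂ)) (l : I.L) : MM ((fz I).ty l) ℂ :=
  fz_dg (fz_d I g l)

theorem fz_comm2 (g : C(unitInterval, ℂ)) (l : I.L) :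
    fz_D I g l * fz_S I l - fz_S I l * fz_D I g l - (g 0 - g 1) • fz_E I l =
      fz_S I l * fz_dd I g l := by
  have h1 := fz_comm (fun i : Fin (I.w l + 2) => g (ps I l i))
  simp only [fz_ps_zero, fz_ps_last] at h1
  exact h1

theorem fz_DE2 (g : C(unitInterval, ℂ)) (l : I.L) : fz_D I g l * fz_E I l = g 0 • fz_E I l := by
  have h1 := fz_DE (fun i : Fin (I.w l + 2) => g (ps I l i))
  simp only [fz_ps_zero] at h1
  exact h1

theorem fz_ED2 (g : C(unitInterval, ℂ)) (l : I.L) : fz_E I l * fz_D I g l = g 1 • fz_E I l := by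
  have h1 := fz_ED (fun i : Fin (I.w l + 2) => g (ps I l i))
  simp only [fz_ps_last] at h1
  exact h1

/-- The commutator with the shift. The matrix `diag(g(a_k)) v - v diag(g(a_k))` has the entries
`g(a_{k+1}) - g(a_k)` at `(k+1, k)`, which tend to `0` uniformly (uniform continuity), and
`g(0) - g(1)` at `(0, N-1)`. The norm of `v* diag(d)` is at most the maximum of the `d_k`
(`MM.norm_diag_le`). -/
theorem pos_vv (g : C(unitInterval, ℂ)) :
    pos I g * (vv I : RM (fz I) ℂ) - (vv I : RM (fz I) ℂ) * pos I g = (g 0 - g 1) • EE I := by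
  have hD := fz_bdD I g
  have hS := fz_bdS I
  have hE := fz_bdE I
  have e1 : pos I g * (vv I : RM (fz I) ℂ) - (vv I : RM (fz I) ℂ) * pos I g -
      (g 0 - g 1) • EE I =
      cl I (fun l => fz_D I g l * fz_S I l - fz_S I l * fz_D I g l - (g 0 - g 1) • fz_E I l) := by
    rw [cl_sub I ((hD.mul hS).sub (hS.mul hD)) (Bd.smul _ hE), cl_sub I (hD.mul hS) (hS.mul hD),
      cl_mul I hD hS, cl_mul I hS hD, cl_smul I _ hE]
    rfl
  rw [← sub_eq_zero, e1]
  rw [cl_eq_zero_iff I (((hD.mul hS).sub (hS.mul hD)).sub (Bd.smul _ hE)), Metric.tendsto_nhds]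
  intro ε hε
  have huc := CompactSpace.uniformContinuous_of_continuous g.continuous
  rw [Metric.uniformContinuous_iff] at huc
  obtain ⟨δ, hδ, h1⟩ := huc (ε / 2) (by positivity)
  obtain ⟨n, hn⟩ := exists_nat_one_div_lt hδ
  filter_upwards [I.tw.eventually_ge_atTop n] with l hl
  rw [fz_comm2 I g l, Real.dist_eq, sub_zero, abs_of_nonneg (norm_nonneg _)]
  have h2 : ‖fz_dg (fz_d I g l)‖ ≤ ε / 2 := by
    refine fz_norm_dg _ (by positivity) (fun j => ?_)
    unfold fz_d
    by_cases hj : j = Fin.last _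
    · rw [if_pos hj, norm_zero]
      positivity
    · rw [if_neg hj, ← dist_eq_norm]
      refine (h1 ?_).le
      refine lt_of_le_of_lt ?_ hn
      refine (le_of_eq (fz_ps_dist I l j hj)).trans ?_
      have h3 : (n : ℝ) ≤ (I.w l : ℝ) := by exact_mod_cast hl
      exact one_div_le_one_div_of_le (by positivity) (by linarith)
  have h3 : ‖fz_sh (I.w l)‖ ≤ 1 := fz_norm_sh
  change ‖fz_sh (I.w l) * fz_dg (fz_d I g l)‖ < ε
  calc ‖fz_sh (I.w l) * fz_dg (fz_d I g l)‖ ≤ ‖fz_sh (I.w l)‖ * ‖fz_dg (fz_d I g l)‖ :=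
        norm_mul_le _ _
    _ ≤ 1 * (ε / 2) := mul_le_mul h3 h2 (norm_nonneg _) zero_le_one
    _ < ε := by linarith

theorem pos_EE (g : C(unitInterval, ℂ)) : pos I g * EE I = g 0 • EE I := by
  have hD := fz_bdD I g
  have hE := fz_bdE I
  have e1 : pos I g * EE I = cl I (fun l => fz_D I g l * fz_E I l) := (cl_mul I hD hE).symm
  have e2 : g 0 • EE I = cl I (fun l => g 0 • fz_E I l) := (cl_smul I _ hE).symm
  rw [e1, e2]
  congr 1
  funext l
  exact fz_DE2 I g l

theorem EE_pos (g : C(unitInterval, ℂ)) : EE I * pos I g = g 1 • EE I := by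
  have hD := fz_bdD I g
  have hE := fz_bdE I
  have e1 : EE I * pos I g = cl I (fun l => fz_E I l * fz_D I g l) := (cl_mul I hE hD).symm
  have e2 : g 1 • EE I = cl I (fun l => g 1 • fz_E I l) := (cl_smul I _ hE).symm
  rw [e1, e2]
  congr 1
  funext l
  exact fz_ED2 I g l

theorem EE_star_vv : EE I * star (vv I : RM (fz I) ℂ) = prj (fz I) (fun _ => (0 : Fin _)) := by
  have hS := fz_bdS I
  have hE := fz_bdE I
  have e0 : star (vv I : RM (fz I) ℂ) = cl I (fun l => star (fz_S I l)) := (cl_star I hS).symm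
  have e1 : EE I * cl I (fun l => star (fz_S I l)) = cl I (fun l => fz_E I l * star (fz_S I l)) :=
    (cl_mul I hE hS.star).symm
  rw [e0, e1]
  unfold prj
  congr 1
  funext l
  exact fz_ES

theorem star_vv_EE : star (vv I : RM (fz I) ℂ) * EE I = prj (fz I) (fun _ => Fin.last _) := by
  have hS := fz_bdS I
  have hE := fz_bdE I
  have e0 : star (vv I : RM (fz I) ℂ) = cl I (fun l => star (fz_S I l)) := (cl_star I hS).symm
  have e1 : cl I (fun l => star (fz_S I l)) * EE I = cl I (fun l => star (fz_S I l) * fz_E I l) :=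
    (cl_mul I hS.star hE).symm
  rw [e0, e1]
  unfold prj
  congr 1
  funext l
  exact fz_SE

theorem prj_proj (N : Sz I) (k : ∀ l, N.ty l) :
    prj N k * prj N k = prj N k ∧ star (prj N k) = prj N k := by
  have hb : Bd (A := fun l => MM (N.ty l) ℂ) (fun l => MM.unit1 (k l)) :=
    ⟨1, fun l => fz_norm1 (k l) (k l)⟩
  unfold prj
  constructor
  · rw [← cl_mul I hb hb]
    congr 1
    funext l
    exact fz_unit_mul (k l)
  · rw [← cl_star I hb]
    congr 1
    funext l
    exact fz_unit_star (k l)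

/-- A periodic function on the interval as a function on the circle (`AddCircle.liftIco`-type
constructions, or the quotient by the endpoints). -/
theorem exists_per (g : C(unitInterval, ℂ)) (h : g 0 = g 1) :
    ∃ g' : C(UnitAddCircle, ℂ), ∀ t : unitInterval, g' ((t : ℝ) : UnitAddCircle) = g t := by
  have hp0 : (0 : ℝ) ∈ Set.Icc (0 : ℝ) 1 := ⟨le_rfl, zero_le_one⟩
  have hp1 : (1 : ℝ) ∈ Set.Icc (0 : ℝ) 1 := ⟨zero_le_one, le_rfl⟩
  obtain ⟨f, hf⟩ : ∃ f : ℝ → ℂ, f = fun x => g (Set.projIcc 0 1 zero_le_one x) := ⟨_, rfl⟩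
  have hfc : Continuous f := by
    rw [hf]
    exact g.continuous.comp continuous_projIcc
  have hft : ∀ t : unitInterval, f (t : ℝ) = g t := by
    intro t
    rw [hf]
    simp only [Set.projIcc_val]
  have hf0 : f 0 = g 0 := hft 0
  have hf1 : f 1 = g 1 := hft 1
  have hcont : Continuous (AddCircle.liftIco (1 : ℝ) 0 f) :=
    AddCircle.liftIco_continuous (by rw [zero_add, hf0, hf1, h]) hfc.continuousOn
  refine ⟨⟨AddCircle.liftIco (1 : ℝ) 0 f, hcont⟩, fun t => ?_⟩
  change AddCircle.liftIco (1 : ℝ) 0 f ((t : ℝ) : AddCircle (1 : ℝ)) = g t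
  by_cases ht : (t : ℝ) < 1
  · rw [AddCircle.liftIco_coe_apply (by rw [zero_add]; exact ⟨t.2.1, ht⟩)]
    exact hft t
  · have ht1 : (t : ℝ) = 1 := le_antisymm t.2.2 (not_lt.1 ht)
    have ht2 : t = 1 := Subtype.ext ht1
    have h3 : ((t : ℝ) : AddCircle (1 : ℝ)) = ((0 : ℝ) : AddCircle (1 : ℝ)) := by
      rw [ht1, AddCircle.coe_period, QuotientAddGroup.mk_zero]
    rw [h3, AddCircle.liftIco_coe_apply (by rw [zero_add]; exact ⟨le_rfl, zero_lt_one⟩), hf0, h, ht2]

/-- The function on the circle. -/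
noncomputable def per (g : C(unitInterval, ℂ)) (h : g 0 = g 1) : C(UnitAddCircle, ℂ) :=
  (exists_per g h).choose

theorem per_apply (g : C(unitInterval, ℂ)) (h : g 0 = g 1) (t : unitInterval) :
    per g h ((t : ℝ) : UnitAddCircle) = g t := (exists_per g h).choose_spec t

/-- The parametrization of the circle by the interval. -/
noncomputable def ic : C(unitInterval, UnitAddCircle) :=
  ⟨fun t => ((t : ℝ) : UnitAddCircle), (AddCircle.continuous_mk' (1 : ℝ)).comp
    continuous_subtype_val⟩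

theorem ic_surj : Function.Surjective ic := by
  intro y
  have h1 : y ∈ ((↑) : ℝ → AddCircle (1 : ℝ)) '' Set.Ico 0 (0 + 1) := by
    rw [AddCircle.coe_image_Ico_eq]
    trivial
  obtain ⟨x, hx, hxy⟩ := h1
  rw [zero_add] at hx
  exact ⟨⟨x, hx.1, hx.2.le⟩, hxy⟩

/-- Functions of the position on the circle commute with the shift: `pos_vv` for `g ∘ ic`. -/
theorem pos_comm (g : C(UnitAddCircle, ℂ)) (f : C(UnitAddCircle, ℂ)) :
    pos I (g.comp ic) * uh (vv I) f = uh (vv I) f * pos I (g.comp ic) := by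
  have h1 := pos_vv I (g.comp ic)
  have h2 : (g.comp ic) 0 = (g.comp ic) 1 := by
    change g (ic 0) = g (ic 1)
    congr 1
    change (((0 : unitInterval) : ℝ) : UnitAddCircle) = (((1 : unitInterval) : ℝ) : UnitAddCircle)
    have h3 : (((1 : unitInterval) : ℝ) : UnitAddCircle) = 0 := AddCircle.coe_period (1 : ℝ)
    rw [h3]
    rfl
  rw [h2, sub_self, zero_smul, sub_eq_zero] at h1
  exact (uh_intertw (vv I) (vv I) _ h1.symm f).symm

/-- The asymptotic homomorphism of the torus. -/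
noncomputable def ff : C(UnitAddCircle × UnitAddCircle, ℂ) →⋆ₐ[ℂ] RM (fz I) ℂ :=
  tens2 ((pos I).comp (ContinuousMap.compStarAlgHom' ℂ ℂ ic)) (uh (vv I))
    (fun g f => pos_comm I g f)

theorem ff_c1 (g : C(UnitAddCircle, ℂ)) : ff I (c1 _ _ g) = pos I (g.comp ic) := tens2_c1 _ _ _ g

theorem ff_c2 (f : C(UnitAddCircle, ℂ)) : ff I (c2 _ _ f) = uh (vv I) f := tens2_c2 _ _ _ f

/-- The angle: cosine and sine of `(1 - a) π / 2`. -/
noncomputable def cof : C(unitInterval, ℂ) :=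
  ⟨fun a => (Real.cos ((1 - (a : ℝ)) * (Real.pi / 2)) : ℂ), by fun_prop⟩

noncomputable def sif : C(unitInterval, ℂ) :=
  ⟨fun a => (Real.sin ((1 - (a : ℝ)) * (Real.pi / 2)) : ℂ), by fun_prop⟩

theorem cof_zero : cof 0 = 0 := by
  change ((Real.cos ((1 - ((0 : unitInterval) : ℝ)) * (Real.pi / 2)) : ℝ) : ℂ) = 0
  have hc : ((0 : unitInterval) : ℝ) = 0 := rfl
  rw [hc, sub_zero, one_mul, Real.cos_pi_div_two, Complex.ofReal_zero]

theorem cof_one : cof 1 = 1 := by
  change ((Real.cos ((1 - ((1 : unitInterval) : ℝ)) * (Real.pi / 2)) : ℝ) : ℂ) = 1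
  have hc : ((1 : unitInterval) : ℝ) = 1 := rfl
  rw [hc, sub_self, zero_mul, Real.cos_zero, Complex.ofReal_one]

theorem sif_zero : sif 0 = 1 := by
  change ((Real.sin ((1 - ((0 : unitInterval) : ℝ)) * (Real.pi / 2)) : ℝ) : ℂ) = 1
  have hc : ((0 : unitInterval) : ℝ) = 0 := rfl
  rw [hc, sub_zero, one_mul, Real.sin_pi_div_two, Complex.ofReal_one]

theorem sif_one : sif 1 = 0 := by
  change ((Real.sin ((1 - ((1 : unitInterval) : ℝ)) * (Real.pi / 2)) : ℝ) : ℂ) = 0
  have hc : ((1 : unitInterval) : ℝ) = 1 := rfl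
  rw [hc, sub_self, zero_mul, Real.sin_zero, Complex.ofReal_zero]

/-- The data for the algebraic identity. -/
theorem boD : BoD (pos I cof) (pos I sif) (vv I : RM (fz I) ℂ) (EE I) := by
  have hcs : star cof = cof := by
    ext t
    exact Complex.conj_ofReal _
  have hss : star sif = sif := by
    ext t
    exact Complex.conj_ofReal _
  have hsq : cof * cof + sif * sif = 1 := by
    ext t
    have h1 := Real.cos_sq_add_sin_sq ((1 - (t : ℝ)) * (Real.pi / 2))
    have h2 := congrArg (fun r : ℝ => (r : ℂ)) h1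
    simp only [Complex.ofReal_add, Complex.ofReal_mul, Complex.ofReal_one, sq] at h2
    exact h2
  have hv := Unitary.mem_iff.1 (vv I).2
  have hcv := pos_vv I cof
  rw [cof_zero, cof_one, zero_sub, neg_smul, one_smul] at hcv
  have hsv := pos_vv I sif
  rw [sif_zero, sif_one, sub_zero, one_smul] at hsv
  have hcE := pos_EE I cof
  rw [cof_zero, zero_smul] at hcE
  have hsE := pos_EE I sif
  rw [sif_zero, one_smul] at hsE
  have hEc := EE_pos I cof
  rw [cof_one, one_smul] at hEc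
  have hEs := EE_pos I sif
  rw [sif_one, zero_smul] at hEs
  have hsv' : pos I sif * (vv I : RM (fz I) ℂ) = (vv I : RM (fz I) ℂ) * pos I sif + EE I := by
    rw [← hsv]
    abel
  have p1 := prj_proj I (fz I) (fun _ => (0 : Fin _))
  have p2 := prj_proj I (fz I) (fun _ => Fin.last _)
  rw [← EE_star_vv] at p1
  rw [← star_vv_EE] at p2
  refine ⟨?_, ?_, ?_, ?_, hv.1, hv.2, ?_, hsv', hcE, hsE, hEc, hEs, ?_, p1.1, p2.1, p1.2, p2.2⟩
  · rw [← map_star, hcs]
  · rw [← map_star, hss]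
  · rw [← map_mul, ← map_mul, mul_comm]
  · rw [← map_mul, ← map_mul, ← map_add, hsq, map_one]
  · rw [eq_sub_iff_add_eq, ← sub_eq_zero] at *
    rw [← sub_eq_zero] at hcv
    rw [← hcv]
    abel
  · rw [mul_assoc, hsv', mul_add, hsE, ← mul_assoc, hsv', add_mul, hEs, add_zero, mul_assoc]

end H7c
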