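import Pool.Agent.H.MP_7b4a29_c.IsQ
import Pool.Agent.H.MP_7b4a29_c.Fz
import Pool.Agent.H.MP_7b4a29_c.Bl
import Pool.Agent.H.MP_7b4a29_c.Fn

/-!
# The based homomorphisms `JQ` and `JW`
-/

open Filter Topology

namespace H7c

/-- The torus. -/
abbrev T2 : Type := UnitAddCircle × UnitAddCircle

/-- The boundary in the torus. -/
def dT : Set T2 := {y | y.1 = 0 ∨ y.2 = 0}

/-- The subset to be collapsed after multiplication with the torus. -/
def Bp {X : Type} (B : Set X) : Set (X × T2) := {z | z.1 ∈ B ∨ z.2 ∈ dT}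

/-- The subset to be collapsed in `circle × X`. -/
def bB {X : Type} (B : Set X) : Set (UnitAddCircle × X) := {z | z.1 = 0 ∨ z.2 ∈ B}

section JQ

variable {X : Type} [TopologicalSpace X] [CompactSpace X] [T2Space X] {B : Set X}
  {Y : Type} [TopologicalSpace Y] [CompactSpace Y] [T2Space Y] {y0 : Y} {q : C(X, Y)}
  {Yp : Type} [TopologicalSpace Yp] [CompactSpace Yp] [T2Space Yp] {yp : Yp}
  {qp : C(X × T2, Yp)} (I : Ix)

/-- The homomorphism `G ↦ (x ↦ ff (G (x, ·)))`. -/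
noncomputable def kQ (X : Type) [TopologicalSpace X] [CompactSpace X] [T2Space X] :
    C(X × T2, ℂ) →⋆ₐ[ℂ] C(X, RM (fz I) ℂ) :=
  tens2 (sc X (RM (fz I) ℂ)) ((cns X (RM (fz I) ℂ)).comp (ff I)) (fun x f => sc_cns_comm x (ff I f))

/-- By `tens2_ext`, for fixed `x`. -/
theorem kQ_apply (G : C(X × T2, ℂ)) (x : X) :
    kQ I X G x = ff I ⟨fun y => G (x, y), G.continuous.comp (Continuous.prodMk_right x)⟩ := by
  have h : (evx (RM (fz I) ℂ) x).comp (kQ I X) = (ff I).comp (ContinuousMap.compStarAlgHom' ℂ ℂ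
      (⟨fun y => (x, y), Continuous.prodMk_right x⟩ : C(T2, X × T2))) := by
    refine tens2_ext (fun f => ?_) fun f => ?_
    · have e1 : kQ I X (c1 X T2 f) = sc X (RM (fz I) ℂ) f := tens2_c1 _ _ _ f
      rw [StarAlgHom.comp_apply, StarAlgHom.comp_apply, e1, evx_apply, sc_apply]
      have h1 : ContinuousMap.compStarAlgHom' ℂ ℂ
          (⟨fun y => (x, y), Continuous.prodMk_right x⟩ : C(T2, X × T2)) (c1 X T2 f) =
          algebraMap ℂ C(T2, ℂ) (f x) := by
        ext t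
        rfl
      rw [h1, AlgHomClass.commutes]
    · have e1 : kQ I X (c2 X T2 f) = cns X (RM (fz I) ℂ) (ff I f) := tens2_c2 _ _ _ f
      rw [StarAlgHom.comp_apply, StarAlgHom.comp_apply, e1, evx_apply, cns_apply]
      rfl
  exact DFunLike.congr_fun h G

theorem jqw_JQ (hqp : IsQ (Bp B) yp qp) (f : C(Yp, ℂ)) (x : X) (hx : x ∈ B) :
    ((kQ I X).comp (ContinuousMap.compStarAlgHom' ℂ ℂ qp)) f x =
      algebraMap ℂ (RM (fz I) ℂ) (f yp) := by
  rw [StarAlgHom.comp_apply, kQ_apply]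
  have h1 : (⟨fun y => (ContinuousMap.compStarAlgHom' ℂ ℂ qp f) (x, y),
      (ContinuousMap.compStarAlgHom' ℂ ℂ qp f).continuous.comp (Continuous.prodMk_right x)⟩ :
        C(T2, ℂ)) = algebraMap ℂ C(T2, ℂ) (f yp) := by
    ext y
    have h2 : qp (x, y) = yp := (hqp.base (x, y)).2 (Or.inl hx)
    change f (qp (x, y)) = f yp
    rw [h2]
  rw [h1, AlgHomClass.commutes]

/-- `F ↦ (x ↦ ff (F (x, ·)))`. -/
noncomputable def JQ (hq : IsQ B y0 q) (hqp : IsQ (Bp B) yp qp) : BH (fz I) Y y0 Yp yp :=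
  BH.ofQ hq ((kQ I X).comp (ContinuousMap.compStarAlgHom' ℂ ℂ qp)) (fun f x hx =>
    jqw_JQ I hqp f x hx)

theorem JQ_h (hq : IsQ B y0 q) (hqp : IsQ (Bp B) yp qp) (F : C(Yp, ℂ)) (x : X) :
    (JQ I hq hqp).h F (q x) =
      ff I ⟨fun y => F (qp (x, y)), (F.continuous.comp qp.continuous).comp
        (Continuous.prodMk_right x)⟩ := by
  rw [JQ, BH.ofQ_h, StarAlgHom.comp_apply, kQ_apply]
  rfl

end JQ

section JW

/-- The size two. -/
abbrev two (I : Ix) : Sz I := Sz.con I (Fin 2)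

theorem two_PB (I : Ix) : (two I).PB := by
  refine ⟨0, 2, Eventually.of_forall fun l => ?_⟩
  have h1 : Fintype.card ((two I).ty l) = 2 := Fintype.card_fin 2
  rw [h1, pow_zero, mul_one]
  norm_num

theorem jqw_v1 : (cof * cof * (sif * sif)) 0 = (cof * cof * (sif * sif)) 1 := by
  simp only [ContinuousMap.mul_apply, cof_zero, sif_one, mul_zero, zero_mul]

theorem jqw_v2 : (cof * sif * (sif * sif)) 0 = (cof * sif * (sif * sif)) 1 := by
  simp only [ContinuousMap.mul_apply, cof_zero, sif_one, mul_zero, zero_mul]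

theorem jqw_v3 : (cof * sif * (cof * cof)) 0 = (cof * sif * (cof * cof)) 1 := by
  simp only [ContinuousMap.mul_apply, cof_zero, sif_one, mul_zero, zero_mul]

variable (I : Ix)

/-- The entries of the Bott projection as functions on the torus. -/
noncomputable def pe : Fin 2 → Fin 2 → C(T2, ℂ) :=
  ![![c1 _ _ (per (cof * cof * (sif * sif)) jqw_v1) * (2 - c2 _ _ (fourier 1) - star (c2 _ _ (fourier 1))),
    c1 _ _ (per (cof * sif * (sif * sif)) jqw_v2) * (star (c2 _ _ (fourier 1)) - 1) +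
      c1 _ _ (per (cof * sif * (cof * cof)) jqw_v3) * (1 - c2 _ _ (fourier 1))],
    ![c1 _ _ (per (cof * sif * (sif * sif)) jqw_v2) * (c2 _ _ (fourier 1) - 1) +
      c1 _ _ (per (cof * sif * (cof * cof)) jqw_v3) * (1 - star (c2 _ _ (fourier 1))),
    1 - 2 * c1 _ _ (per (cof * cof * (sif * sif)) jqw_v1) + c1 _ _ (per (cof * cof * (sif * sif)) jqw_v1) * (c2 _ _ (fourier 1) + star (c2 _ _ (fourier 1)))]]

theorem jqw_c1 (g : C(unitInterval, ℂ)) (h : g 0 = g 1) (a : unitInterval) (b : UnitAddCircle) :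
    (c1 UnitAddCircle UnitAddCircle (per g h)) (ic a, b) = g a := per_apply g h a

theorem jqw_c2 (f : C(UnitAddCircle, ℂ)) (a b : UnitAddCircle) :
    (c2 UnitAddCircle UnitAddCircle f) (a, b) = f b := rfl

/-- The values: with `y.1 = ic a` and `y.2 = b`, the entries of the Bott matrix. -/
theorem pe_apply (a : unitInterval) (b : UnitAddCircle) (i j : Fin 2) :
    pe i j (ic a, b) =
      MM.e (BoD.Bo (B := ℂ) (Real.cos ((1 - (a : ℝ)) * (Real.pi / 2)))
        (Real.sin ((1 - (a : ℝ)) * (Real.pi / 2))) (fourier 1 b : ℂ)) i j := by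
  have hc : ((Real.cos ((1 - (a : ℝ)) * (Real.pi / 2)) : ℝ) : ℂ) = cof a := rfl
  have hs : ((Real.sin ((1 - (a : ℝ)) * (Real.pi / 2)) : ℝ) : ℂ) = sif a := rfl
  rw [hc, hs]
  have h2 : (2 : C(T2, ℂ)) (ic a, b) = 2 := rfl
  have h00 : pe 0 0 (ic a, b) = cof a * cof a * (sif a * sif a) *
      (2 - (fourier 1 b : ℂ) - star (fourier 1 b : ℂ)) := by
    change ((c1 _ _ (per (cof * cof * (sif * sif)) jqw_v1) *
      (2 - c2 _ _ (fourier 1) - star (c2 _ _ (fourier 1))) : C(T2, ℂ)) : T2 → ℂ) (ic a, b) = _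
    rw [ContinuousMap.mul_apply, jqw_c1, ContinuousMap.sub_apply, ContinuousMap.sub_apply, h2,
      ContinuousMap.star_apply, jqw_c2]
    rfl
  have h01 : pe 0 1 (ic a, b) = cof a * sif a * (sif a * sif a) * (star (fourier 1 b : ℂ) - 1) +
      cof a * sif a * (cof a * cof a) * (1 - (fourier 1 b : ℂ)) := by
    change ((c1 _ _ (per (cof * sif * (sif * sif)) jqw_v2) * (star (c2 _ _ (fourier 1)) - 1) +
      c1 _ _ (per (cof * sif * (cof * cof)) jqw_v3) * (1 - c2 _ _ (fourier 1)) : C(T2, ℂ)) :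
        T2 → ℂ) (ic a, b) = _
    rw [ContinuousMap.add_apply, ContinuousMap.mul_apply, ContinuousMap.mul_apply, jqw_c1, jqw_c1,
      ContinuousMap.sub_apply, ContinuousMap.sub_apply, ContinuousMap.one_apply,
      ContinuousMap.star_apply, jqw_c2]
    rfl
  have h10 : pe 1 0 (ic a, b) = cof a * sif a * (sif a * sif a) * ((fourier 1 b : ℂ) - 1) +
      cof a * sif a * (cof a * cof a) * (1 - star (fourier 1 b : ℂ)) := by
    change ((c1 _ _ (per (cof * sif * (sif * sif)) jqw_v2) * (c2 _ _ (fourier 1) - 1) +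
      c1 _ _ (per (cof * sif * (cof * cof)) jqw_v3) * (1 - star (c2 _ _ (fourier 1))) : C(T2, ℂ)) :
        T2 → ℂ) (ic a, b) = _
    rw [ContinuousMap.add_apply, ContinuousMap.mul_apply, ContinuousMap.mul_apply, jqw_c1, jqw_c1,
      ContinuousMap.sub_apply, ContinuousMap.sub_apply, ContinuousMap.one_apply,
      ContinuousMap.star_apply, jqw_c2]
    rfl
  have h11 : pe 1 1 (ic a, b) = 1 - 2 * (cof a * cof a * (sif a * sif a)) +
      cof a * cof a * (sif a * sif a) * ((fourier 1 b : ℂ) + star (fourier 1 b : ℂ)) := by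
    change ((1 - 2 * c1 _ _ (per (cof * cof * (sif * sif)) jqw_v1) +
      c1 _ _ (per (cof * cof * (sif * sif)) jqw_v1) *
      (c2 _ _ (fourier 1) + star (c2 _ _ (fourier 1))) : C(T2, ℂ)) : T2 → ℂ) (ic a, b) = _
    rw [ContinuousMap.add_apply, ContinuousMap.sub_apply, ContinuousMap.one_apply,
      ContinuousMap.mul_apply, ContinuousMap.mul_apply, jqw_c1, h2, ContinuousMap.add_apply,
      ContinuousMap.star_apply, jqw_c2]
    rfl
  fin_cases i <;> fin_cases j
  · exact h00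
  · exact h01
  · exact h10
  · exact h11

/-- The Bott projection. -/
noncomputable def PP : C(T2, RM (two I) ℂ) :=
  ∑ i, ∑ j, sc T2 (RM (two I) ℂ) (pe i j) * cns T2 (RM (two I) ℂ) (cm (Fin 2) I (mu i j))

/-- The constant projection. -/
noncomputable def p2 : RM (two I) ℂ := cm (Fin 2) I (mu 1 1)

theorem jqw_PP (y : T2) : PP I y = cm (Fin 2) I (∑ i, ∑ j, pe i j y • mu i j) := by
  have h1 : PP I y = evx (RM (two I) ℂ) y (PP I) := rfl
  rw [h1, PP, map_sum, map_sum]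
  refine Finset.sum_congr rfl fun i _ => ?_
  rw [map_sum, map_sum]
  refine Finset.sum_congr rfl fun j _ => ?_
  rw [map_mul, evx_apply, evx_apply, sc_apply, cns_apply, map_smul, Algebra.smul_def]

theorem PP_apply (a : unitInterval) (b : UnitAddCircle) :
    PP I (ic a, b) = cm (Fin 2) I (BoD.Bo (B := ℂ) (Real.cos ((1 - (a : ℝ)) * (Real.pi / 2)))
        (Real.sin ((1 - (a : ℝ)) * (Real.pi / 2))) (fourier 1 b : ℂ)) := by
  rw [jqw_PP]
  congr 1
  conv_rhs => rw [eq_sum_mu (BoD.Bo (B := ℂ) (Real.cos ((1 - (a : ℝ)) * (Real.pi / 2)))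
        (Real.sin ((1 - (a : ℝ)) * (Real.pi / 2))) (fourier 1 b : ℂ))]
  refine Finset.sum_congr rfl fun i _ => Finset.sum_congr rfl fun j _ => ?_
  rw [pe_apply]

theorem jqw_fou (b : UnitAddCircle) : star (fourier 1 b : ℂ) * (fourier 1 b : ℂ) = 1 := by
  have h1 : star (fourier 1 b : ℂ) = fourier (-1) b := by
    rw [fourier_neg]
    rfl
  rw [h1, ← fourier_add, neg_add_cancel, fourier_zero]

theorem jqw_fou2 (b : UnitAddCircle) : (fourier 1 b : ℂ) * star (fourier 1 b : ℂ) = 1 := by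
  rw [mul_comm, jqw_fou]

theorem jqw_ex (y : T2) : ∃ (a : unitInterval) (b : UnitAddCircle), y = (ic a, b) := by
  obtain ⟨y1, y2⟩ := y
  obtain ⟨a, rfl⟩ := ic_surj y1
  exact ⟨a, y2, rfl⟩

theorem jqw_proj (y : T2) : PP I y * PP I y = PP I y ∧ star (PP I y) = PP I y := by
  obtain ⟨a, b, rfl⟩ := jqw_ex y
  have h0 : Real.cos ((1 - (a : ℝ)) * (Real.pi / 2)) * Real.cos ((1 - (a : ℝ)) * (Real.pi / 2)) +
      Real.sin ((1 - (a : ℝ)) * (Real.pi / 2)) * Real.sin ((1 - (a : ℝ)) * (Real.pi / 2)) = 1 := by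
    rw [← sq, ← sq, Real.cos_sq_add_sin_sq]
  have h1 := Bo_proj _ _ h0 (fourier 1 b : ℂ) (jqw_fou b)
  rw [PP_apply, ← map_mul, ← map_star, h1.1, h1.2]
  exact ⟨rfl, rfl⟩

/-- `Bo_proj` and `ic_surj`. -/
theorem PP_proj : PP I * PP I = PP I ∧ star (PP I) = PP I := by
  constructor
  · ext1 y
    exact (jqw_proj I y).1
  · ext1 y
    exact (jqw_proj I y).2

theorem p2_proj : p2 I * p2 I = p2 I ∧ star (p2 I) = p2 I := by
  rw [p2, ← map_mul, ← map_star, mu_mul, mu_star, if_pos rfl]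
  exact ⟨rfl, rfl⟩

theorem jqw_mu : (BoD.pp ℂ) = mu 1 1 := by
  apply MM.ext
  intro i j
  rw [BoD.pp, m2, mu, MM.e_of, MM.e_of]
  fin_cases i <;> fin_cases j <;> simp

theorem jqw_Bo0 (v : ℂ) : BoD.Bo (B := ℂ) 0 1 v = mu 1 1 := by
  rw [← jqw_mu, BoD.Bo, BoD.pp]
  refine m2_congr ?_ ?_ ?_ ?_ <;> ring

theorem jqw_Bo1 (c s : ℂ) : BoD.Bo (B := ℂ) c s 1 = mu 1 1 := by
  rw [← jqw_mu, BoD.Bo, BoD.pp, star_one]
  refine m2_congr ?_ ?_ ?_ ?_ <;> ring

/-- On the boundary the projection is constant. -/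
theorem PP_dT (y : T2) (hy : y ∈ dT) : PP I y = p2 I := by
  rcases hy with hy | hy
  · have h1 : y = (ic 0, y.2) := by
      refine Prod.ext ?_ rfl
      rw [hy]
      rfl
    rw [h1, PP_apply, p2]
    congr 1
    have hc : ((Real.cos ((1 - ((0 : unitInterval) : ℝ)) * (Real.pi / 2)) : ℝ) : ℂ) = 0 := cof_zero
    have hs : ((Real.sin ((1 - ((0 : unitInterval) : ℝ)) * (Real.pi / 2)) : ℝ) : ℂ) = 1 := sif_zero
    rw [hc, hs, jqw_Bo0]
  · obtain ⟨a, b, rfl⟩ := jqw_ex y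
    have h1 : b = 0 := hy
    rw [h1, PP_apply, p2]
    congr 1
    have h2 : (fourier 1 (0 : UnitAddCircle) : ℂ) = 1 := fourier_eval_zero 1
    rw [h2, jqw_Bo1]

/-- `ext` of the asymptotic homomorphism of the torus at the Bott projection. By `ext_mat`,
`ff_c1`, `ff_c2`, `per_apply`, `uh_gen`. -/
theorem ext_ff_PP : ext (two I) (ff I) (PP I) =
    bl (fz I) ℂ (Fin 2) (BoD.Bo (pos I cof) (pos I sif) (vv I : RM (fz I) ℂ)) := by
  have h0 := ext_mat (n := Fin 2) (ff I) pe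
  have hc1 : ∀ (g : C(unitInterval, ℂ)) (h : g 0 = g 1),
      ff I (c1 _ _ (per g h)) = pos I g := by
    intro g h
    rw [ff_c1]
    congr 1
    ext t
    exact per_apply g h t
  have hc2 : ff I (c2 _ _ (fourier 1)) = (vv I : RM (fz I) ℂ) := by
    rw [ff_c2, uh_gen]
  have h2 : ff I (2 : C(T2, ℂ)) = 2 := map_ofNat (ff I) 2
  have h00 : ff I (pe 0 0) = pos I cof * pos I cof * (pos I sif * pos I sif) *
      (2 - (vv I : RM (fz I) ℂ) - star (vv I : RM (fz I) ℂ)) := by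
    change ff I (c1 _ _ (per (cof * cof * (sif * sif)) jqw_v1) *
      (2 - c2 _ _ (fourier 1) - star (c2 _ _ (fourier 1)))) = _
    rw [map_mul, hc1, map_sub, map_sub, h2, map_star, hc2, map_mul, map_mul, map_mul]
  have h01 : ff I (pe 0 1) = pos I cof * pos I sif * (pos I sif * pos I sif) *
      (star (vv I : RM (fz I) ℂ) - 1) +
      pos I cof * pos I sif * (pos I cof * pos I cof) * (1 - (vv I : RM (fz I) ℂ)) := by
    change ff I (c1 _ _ (per (cof * sif * (sif * sif)) jqw_v2) * (star (c2 _ _ (fourier 1)) - 1) +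
      c1 _ _ (per (cof * sif * (cof * cof)) jqw_v3) * (1 - c2 _ _ (fourier 1))) = _
    rw [map_add, map_mul (ff I), hc1, map_sub (ff I), map_star (ff I), hc2, map_mul (ff I), hc1,
      map_sub (ff I), hc2, map_one]
    simp only [map_mul]
  have h10 : ff I (pe 1 0) = pos I cof * pos I sif * (pos I sif * pos I sif) *
      ((vv I : RM (fz I) ℂ) - 1) +
      pos I cof * pos I sif * (pos I cof * pos I cof) * (1 - star (vv I : RM (fz I) ℂ)) := by
    change ff I (c1 _ _ (per (cof * sif * (sif * sif)) jqw_v2) * (c2 _ _ (fourier 1) - 1) +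
      c1 _ _ (per (cof * sif * (cof * cof)) jqw_v3) * (1 - star (c2 _ _ (fourier 1)))) = _
    rw [map_add, map_mul (ff I), hc1, map_sub (ff I), hc2, map_mul (ff I), hc1, map_sub (ff I),
      map_star (ff I), hc2, map_one]
    simp only [map_mul]
  have h11 : ff I (pe 1 1) = 1 - 2 * (pos I cof * pos I cof * (pos I sif * pos I sif)) +
      pos I cof * pos I cof * (pos I sif * pos I sif) *
      ((vv I : RM (fz I) ℂ) + star (vv I : RM (fz I) ℂ)) := by
    change ff I (1 - 2 * c1 _ _ (per (cof * cof * (sif * sif)) jqw_v1) +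
      c1 _ _ (per (cof * cof * (sif * sif)) jqw_v1) *
      (c2 _ _ (fourier 1) + star (c2 _ _ (fourier 1)))) = _
    rw [map_add, map_sub, map_one, map_mul (ff I), h2, hc1, map_mul (ff I), hc1, map_add (ff I),
      map_star (ff I), hc2]
    simp only [map_mul]
  refine h0.trans ?_
  congr 1
  apply MM.ext
  intro i j
  rw [MM.e_of]
  fin_cases i <;> fin_cases j
  · exact h00
  · exact h01
  · exact h10
  · exact h11

theorem jqw_th (X : Type) [TopologicalSpace X] [CompactSpace X] [T2Space X]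
    (g : C(UnitAddCircle, ℂ)) (hg : ∀ t, star (g t) * g t = 1) :
    let θ : C((UnitAddCircle × X) × T2, RM (two I) ℂ) := sc _ _ (g.comp ⟨fun z => z.1.1, by fun_prop⟩)
    star θ * θ = 1 ∧ θ * star θ = 1 ∧ ∀ x, θ * x = x * θ := by
  intro θ
  have h1 : star (g.comp (⟨fun z => z.1.1, by fun_prop⟩ :
      C((UnitAddCircle × X) × T2, UnitAddCircle))) *
      (g.comp (⟨fun z => z.1.1, by fun_prop⟩ : C((UnitAddCircle × X) × T2, UnitAddCircle))) = 1 := by
    ext z
    exact hg z.1.1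
  have h2 : star θ * θ = 1 := by
    rw [← map_star, ← map_mul, h1, map_one]
  have h3 : θ * star θ = 1 := by
    rw [← map_star, ← map_mul, mul_comm, h1, map_one]
  refine ⟨h2, h3, fun x => ?_⟩
  ext1 z
  exact Algebra.commutes (R := ℂ) (A := RM (two I) ℂ) (g z.1.1) (x z)

theorem jqw_W (X : Type) [TopologicalSpace X] [CompactSpace X] [T2Space X] :
    wz ((PP I).comp ⟨Prod.snd, continuous_snd⟩) (cns _ _ (p2 I))
      (sc _ _ ((fourier 1 : C(UnitAddCircle, ℂ)).comp ⟨fun z => z.1.1, by fun_prop⟩)) ∈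
      unitary C((UnitAddCircle × X) × T2, RM (two I) ℂ) := by
  obtain ⟨h1, h2, h3⟩ := jqw_th I X (fourier 1) jqw_fou
  refine wz_mem ?_ ?_ ?_ ?_ h1 h2 h3
  · ext1 z
    exact (jqw_proj I z.2).1
  · ext1 z
    exact (jqw_proj I z.2).2
  · rw [← map_mul, (p2_proj I).1]
  · rw [← map_star, (p2_proj I).2]

variable {X : Type} [TopologicalSpace X] [CompactSpace X] [T2Space X] {B : Set X}
  {Y : Type} [TopologicalSpace Y] [CompactSpace Y] [T2Space Y] {y0 : Y}
  {q : C(UnitAddCircle × X, Y)}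
  {Yp : Type} [TopologicalSpace Yp] [CompactSpace Yp] [T2Space Yp] {yp : Yp}
  {qp : C((UnitAddCircle × X) × T2, Yp)}

/-- The unitary `W(t, x, y) = (1 - P(y) + t P(y)) (1 - p + t* p)`. -/
noncomputable def WW (X : Type) [TopologicalSpace X] [CompactSpace X] [T2Space X] :
    unitary C((UnitAddCircle × X) × T2, RM (two I) ℂ) :=
  ⟨wz ((PP I).comp ⟨Prod.snd, continuous_snd⟩) (cns _ _ (p2 I))
    (sc _ _ ((fourier 1 : C(UnitAddCircle, ℂ)).comp ⟨fun z => z.1.1, by fun_prop⟩)), jqw_W I X⟩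

theorem WW_apply (z : (UnitAddCircle × X) × T2) :
    (WW I X : C((UnitAddCircle × X) × T2, RM (two I) ℂ)) z =
      wz (PP I z.2) (p2 I) (algebraMap ℂ _ (fourier 1 z.1.1 : ℂ)) := by
  exact map_wz (evx (RM (two I) ℂ) z) _ _ _

/-- The homomorphism upstairs. -/
noncomputable def kW (X : Type) [TopologicalSpace X] [CompactSpace X] [T2Space X] :
    C(UnitAddCircle × X, ℂ) →⋆ₐ[ℂ] C((UnitAddCircle × X) × T2, RM (two I) ℂ) :=
  Fn (WW I X) ⟨fun z => z.1.2, by fun_prop⟩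

theorem jqw_kW (F : C(UnitAddCircle × X, ℂ)) (z : (UnitAddCircle × X) × T2) :
    kW I X F z = uh (uev (WW I X) z) (slc F z.1.2) := Fn_apply _ _ _ _

theorem jqw_slc (F : C(UnitAddCircle × X, ℂ)) (x : X) (c : ℂ) (h : ∀ t, F (t, x) = c) :
    slc F x = algebraMap ℂ C(UnitAddCircle, ℂ) c := by
  ext t
  exact h t

theorem jqw_one (F : C(UnitAddCircle × X, ℂ)) (z : (UnitAddCircle × X) × T2)
    (h : wz (PP I z.2) (p2 I) (algebraMap ℂ _ (fourier 1 z.1.1 : ℂ)) = 1) :
    kW I X F z = algebraMap ℂ (RM (two I) ℂ) (F (0, z.1.2)) := by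
  have h1 : uev (WW I X) z = 1 := by
    apply Subtype.ext
    rw [coe_uev, WW_apply, h]
    rfl
  rw [jqw_kW, h1, uh_one]
  rfl

theorem jqw_base (hq : IsQ (bB B) y0 q) (f : C(Y, ℂ)) (z : (UnitAddCircle × X) × T2)
    (hz : z ∈ Bp (bB B)) :
    ((kW I X).comp (ContinuousMap.compStarAlgHom' ℂ ℂ q)) f z =
      algebraMap ℂ (RM (two I) ℂ) (f y0) := by
  have hb : ∀ x : UnitAddCircle × X, x ∈ bB B →
      (ContinuousMap.compStarAlgHom' ℂ ℂ q f) x = f y0 := by
    intro x hx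
    have h2 : q x = y0 := (hq.base x).2 hx
    change f (q x) = f y0
    rw [h2]
  have h0 := hb (0, z.1.2) (Or.inl rfl)
  rw [StarAlgHom.comp_apply]
  rcases hz with (hz | hz) | hz
  · rw [jqw_one, h0]
    have h1 : z.1.1 = 0 := hz
    rw [h1, fourier_eval_zero, map_one, wz_one]
  · rw [jqw_kW, jqw_slc _ _ (f y0) (fun t => hb (t, z.1.2) (Or.inr hz)), AlgHomClass.commutes]
  · rw [jqw_one, h0]
    rw [PP_dT I z.2 hz]
    refine wz_self (p2_proj I).1 ?_ ?_ (fun x => Algebra.commutes _ _)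
    · rw [← algebraMap_star_comm, ← map_mul, jqw_fou, map_one]
    · rw [← algebraMap_star_comm, ← map_mul, jqw_fou2, map_one]

/-- `f ↦ ((t, x, y) ↦ f(W(t, y), x))`.

The condition on `Bp (bB B)`: if `t = 0` or `y ∈ dT` then `W = 1` (`wz_one`, `wz_self`) and
`uh_one` gives `f (q (0, x)) = f y0`; if `x ∈ B` then `slc` is constant. -/
noncomputable def JW (hq : IsQ (bB B) y0 q) (hqp : IsQ (Bp (bB B)) yp qp) :
    BH (two I) Yp yp Y y0 :=
  BH.ofQ hqp ((kW I X).comp (ContinuousMap.compStarAlgHom' ℂ ℂ q)) (fun f z hz =>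
    jqw_base I hq f z hz)

theorem JW_h (hq : IsQ (bB B) y0 q) (hqp : IsQ (Bp (bB B)) yp qp) (f : C(Y, ℂ))
    (z : (UnitAddCircle × X) × T2) :
    (JW I hq hqp).h f (qp z) = uh (uev (WW I X) z) (slc (f.comp q) z.1.2) := by
  rw [JW, BH.ofQ_h, StarAlgHom.comp_apply, jqw_kW]
  rfl

end JW

end H7c
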