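import Pool.Agent.H.MP_7b4a29_c.VPath
import Pool.Agent.H.MP_7b4a29_c.JQW

/-!
# The composition of `JQ` and `JW` is homotopic to the unit
-/

open Filter Topology

namespace H7c

variable {I : Ix} {P : Type} [CStarAlgebra P] {τ : P →ₗ[ℂ] ℂ}
  {X : Type} [TopologicalSpace X] [CompactSpace X] [T2Space X] {B : Set X}
  {Y : Type} [TopologicalSpace Y] [CompactSpace Y] [T2Space Y] {y0 : Y}
  {q : C(UnitAddCircle × X, Y)}
  {Yp : Type} [TopologicalSpace Yp] [CompactSpace Yp] [T2Space Yp] {yp : Yp}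
  {qp : C((UnitAddCircle × X) × T2, Yp)}

variable (I) in
/-- The algebra of blocks. -/
abbrev B2 : Type := RM ((fz I).prod (two I)) ℂ

/-- The scalar unitary function. -/
noncomputable def boneT (X : Type) [TopologicalSpace X] [CompactSpace X] [T2Space X]
    (D : Type) [CStarAlgebra D] : C(UnitAddCircle × X, D) :=
  sc (UnitAddCircle × X) D ((fourier 1 : C(UnitAddCircle, ℂ)).comp ⟨Prod.fst, continuous_fst⟩)

theorem bone_T (X : Type) [TopologicalSpace X] [CompactSpace X] [T2Space X]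
    (D : Type) [CStarAlgebra D] :
    star (boneT X D) * boneT X D = 1 ∧ boneT X D * star (boneT X D) = 1 ∧
      ∀ x, boneT X D * x = x * boneT X D := by
  have h1 : star ((fourier 1 : C(UnitAddCircle, ℂ)).comp (⟨Prod.fst, continuous_fst⟩ :
      C(UnitAddCircle × X, UnitAddCircle))) *
      ((fourier 1 : C(UnitAddCircle, ℂ)).comp (⟨Prod.fst, continuous_fst⟩ :
      C(UnitAddCircle × X, UnitAddCircle))) = 1 := by
    ext z
    exact jqw_fou z.1
  unfold boneT
  refine ⟨?_, ?_, fun x => ?_⟩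
  · rw [← map_star, ← map_mul, h1, map_one]
  · rw [← map_star, ← map_mul, mul_comm, h1, map_one]
  · ext1 z
    exact Algebra.commutes (R := ℂ) (A := D) (fourier 1 z.1 : ℂ) (x z)

theorem bone_alg (D : Type) [CStarAlgebra D] (t : UnitAddCircle) :
    star (algebraMap ℂ D (fourier 1 t : ℂ)) * algebraMap ℂ D (fourier 1 t : ℂ) = 1 ∧
    algebraMap ℂ D (fourier 1 t : ℂ) * star (algebraMap ℂ D (fourier 1 t : ℂ)) = 1 ∧
    ∀ x, algebraMap ℂ D (fourier 1 t : ℂ) * x = x * algebraMap ℂ D (fourier 1 t : ℂ) := by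
  refine ⟨?_, ?_, fun x => Algebra.commutes _ _⟩
  · rw [← algebraMap_star_comm, ← map_mul, jqw_fou, map_one]
  · rw [← algebraMap_star_comm, ← map_mul, jqw_fou2, map_one]

/-- The homomorphism given by a projection `Q`: `f ↦ ((t, x) ↦ f(wz Q p t, x))`. -/
theorem exists_kF (X : Type) [TopologicalSpace X] [CompactSpace X] [T2Space X] (Q p : B2 I)
    (hQ : Q * Q = Q) (hQs : star Q = Q) (hp : p * p = p) (hps : star p = p) :
    ∃ W : unitary C(UnitAddCircle × X, B2 I), ∀ z, (W : C(UnitAddCircle × X, B2 I)) z =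
      wz Q p (algebraMap ℂ (B2 I) (fourier 1 z.1 : ℂ)) := by
  obtain ⟨h1, h2, h3⟩ := bone_T X (B2 I)
  refine ⟨⟨wz (cns (UnitAddCircle × X) (B2 I) Q) (cns (UnitAddCircle × X) (B2 I) p)
    (boneT X (B2 I)), wz_mem ?_ ?_ ?_ ?_ h1 h2 h3⟩, fun z => ?_⟩
  · rw [← map_mul, hQ]
  · rw [← map_star, hQs]
  · rw [← map_mul, hp]
  · rw [← map_star, hps]
  · exact map_wz (evx (B2 I) z) _ _ _

/-- The unitary function. -/
noncomputable def wF (X : Type) [TopologicalSpace X] [CompactSpace X] [T2Space X] (Q p : B2 I)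
    (hQ : Q * Q = Q ∧ star Q = Q) (hp : p * p = p ∧ star p = p) :
    unitary C(UnitAddCircle × X, B2 I) :=
  (exists_kF X Q p hQ.1 hQ.2 hp.1 hp.2).choose

theorem wF_apply (Q p : B2 I) (hQ : Q * Q = Q ∧ star Q = Q) (hp : p * p = p ∧ star p = p)
    (z : UnitAddCircle × X) : (wF X Q p hQ hp : C(UnitAddCircle × X, B2 I)) z =
      wz Q p (algebraMap ℂ (B2 I) (fourier 1 z.1 : ℂ)) :=
  (exists_kF X Q p hQ.1 hQ.2 hp.1 hp.2).choose_spec z

theorem bone_base (hq : IsQ (bB B) y0 q) (Q p : B2 I)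
    (hQ : Q * Q = Q ∧ star Q = Q) (hp : p * p = p ∧ star p = p) (f : C(Y, ℂ))
    (z : UnitAddCircle × X) (hz : z ∈ bB B) :
    ((Fn (wF X Q p hQ hp) ⟨Prod.snd, continuous_snd⟩).comp
      (ContinuousMap.compStarAlgHom' ℂ ℂ q)) f z = algebraMap ℂ (B2 I) (f y0) := by
  have hb : ∀ x : UnitAddCircle × X, x ∈ bB B →
      (ContinuousMap.compStarAlgHom' ℂ ℂ q f) x = f y0 := by
    intro x hx
    have h2 : q x = y0 := (hq.base x).2 hx
    change f (q x) = f y0
    rw [h2]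
  have h0 := hb (0, z.2) (Or.inl rfl)
  rw [StarAlgHom.comp_apply, Fn_apply]
  rcases hz with hz | hz
  · have h1 : uev (wF X Q p hQ hp) z = 1 := by
      apply Subtype.ext
      rw [coe_uev, wF_apply, hz, fourier_eval_zero, map_one, wz_one]
      rfl
    rw [h1, uh_one]
    exact congrArg (algebraMap ℂ (B2 I)) h0
  · have h1 : slc (ContinuousMap.compStarAlgHom' ℂ ℂ q f)
        ((⟨Prod.snd, continuous_snd⟩ : C(UnitAddCircle × X, X)) z) =
        algebraMap ℂ C(UnitAddCircle, ℂ) (f y0) :=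
      jqw_slc _ _ (f y0) (fun t => hb (t, z.2) (Or.inr hz))
    rw [h1, AlgHomClass.commutes]

/-- The based homomorphism `f ↦ ((t, x) ↦ f(wz Q p t, x))`. -/
noncomputable def JF (hq : IsQ (bB B) y0 q) (Q p : B2 I)
    (hQ : Q * Q = Q ∧ star Q = Q) (hp : p * p = p ∧ star p = p) :
    BH ((fz I).prod (two I)) Y y0 Y y0 :=
  BH.ofQ hq ((Fn (wF X Q p hQ hp) ⟨Prod.snd, continuous_snd⟩).comp
    (ContinuousMap.compStarAlgHom' ℂ ℂ q)) (by
    intro f z hz
    exact bone_base hq Q p hQ hp f z hz)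

theorem JF_h (hq : IsQ (bB B) y0 q) (Q p : B2 I)
    (hQ : Q * Q = Q ∧ star Q = Q) (hp : p * p = p ∧ star p = p) (f : C(Y, ℂ))
    (z : UnitAddCircle × X) :
    (JF hq Q p hQ hp).h f (q z) = uh (uev (wF X Q p hQ hp) z) (slc (f.comp q) z.2) := by
  rw [JF, BH.ofQ_h, StarAlgHom.comp_apply, Fn_apply]
  rfl

theorem bone_wF (Q p : B2 I) (hQ : Q * Q = Q ∧ star Q = Q) (hp : p * p = p ∧ star p = p) :
    (wF X Q p hQ hp : C(UnitAddCircle × X, B2 I)) =
      (1 - cns (UnitAddCircle × X) (B2 I) Q + boneT X (B2 I) * cns (UnitAddCircle × X) (B2 I) Q) *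
      (1 - cns (UnitAddCircle × X) (B2 I) p +
        star (boneT X (B2 I)) * cns (UnitAddCircle × X) (B2 I) p) := by
  ext1 z
  rw [wF_apply]
  rfl

/-- A continuous path of projections gives a continuous path of based homomorphisms. -/
theorem JF_path (hq : IsQ (bB B) y0 q) (Q : unitInterval → B2 I) (p : B2 I)
    (hQ : ∀ s, Q s * Q s = Q s ∧ star (Q s) = Q s) (hp : p * p = p ∧ star p = p)
    (hc : Continuous Q) (f : C(Y, ℂ)) : Continuous fun s => (JF hq (Q s) p (hQ s) hp).h f := by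
  have h0 : Continuous fun s => cns (UnitAddCircle × X) (B2 I) (Q s) :=
    (isq_cont (cns (UnitAddCircle × X) (B2 I))).comp hc
  have h1 : Continuous fun s => (wF X (Q s) p (hQ s) hp : C(UnitAddCircle × X, B2 I)) := by
    have h2 : (fun s => (wF X (Q s) p (hQ s) hp : C(UnitAddCircle × X, B2 I))) = fun s =>
        (1 - cns (UnitAddCircle × X) (B2 I) (Q s) +
          boneT X (B2 I) * cns (UnitAddCircle × X) (B2 I) (Q s)) *
        (1 - cns (UnitAddCircle × X) (B2 I) p +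
          star (boneT X (B2 I)) * cns (UnitAddCircle × X) (B2 I) p) :=
      funext fun s => bone_wF (Q s) p (hQ s) hp
    rw [h2]
    exact ((continuous_const.sub h0).add (continuous_const.mul h0)).mul continuous_const
  exact BH.ofQ_path hq (fun s => (Fn (wF X (Q s) p (hQ s) hp) ⟨Prod.snd, continuous_snd⟩).comp
    (ContinuousMap.compStarAlgHom' ℂ ℂ q)) (fun s f z hz => bone_base hq (Q s) p (hQ s) hp f z hz)
    (fun g => Fn_path (fun s => wF X (Q s) p (hQ s) hp) h1 ⟨Prod.snd, continuous_snd⟩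
      (ContinuousMap.compStarAlgHom' ℂ ℂ q g)) f

theorem bone_congr (hq : IsQ (bB B) y0 q) {Q Q' p : B2 I} (h : Q = Q')
    (hQ : Q * Q = Q ∧ star Q = Q) (hQ' : Q' * Q' = Q' ∧ star Q' = Q')
    (hp : p * p = p ∧ star p = p) : (JF hq Q p hQ hp).h = (JF hq Q' p hQ' hp).h := by
  subst h
  rfl

variable (I) in
/-- The image of the Bott projection. -/
noncomputable def Q0 : B2 I :=
  bl (fz I) ℂ (Fin 2) (BoD.Bo (pos I cof) (pos I sif) (vv I : RM (fz I) ℂ))

variable (I) in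
noncomputable def pt : B2 I := bl (fz I) ℂ (Fin 2) (BoD.pp (RM (fz I) ℂ))

theorem Q0_proj : Q0 I * Q0 I = Q0 I ∧ star (Q0 I) = Q0 I := by
  have h : Q0 I = ext (two I) (ff I) (PP I) := (ext_ff_PP I).symm
  rw [h, ← map_mul, ← map_star, (PP_proj I).1, (PP_proj I).2]
  exact ⟨rfl, rfl⟩

theorem bone_pp (D : Type) [CStarAlgebra D] :
    BoD.pp D * BoD.pp D = BoD.pp D ∧ star (BoD.pp D) = BoD.pp D := by
  unfold BoD.pp
  rw [m2_mul, m2_star]
  simp only [mul_zero, add_zero, zero_add, mul_one, star_zero, star_one, and_self]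

theorem pt_proj : pt I * pt I = pt I ∧ star (pt I) = pt I := by
  unfold pt
  rw [← map_mul, ← map_star, (bone_pp (RM (fz I) ℂ)).1, (bone_pp (RM (fz I) ℂ)).2]
  exact ⟨rfl, rfl⟩

variable (I) in
/-- The unitary on the torus for a fixed point of the circle. -/
noncomputable def boneW (t : UnitAddCircle) : unitary C(T2, RM (two I) ℂ) :=
  ⟨wz (PP I) (cns T2 (RM (two I) ℂ) (p2 I)) (algebraMap ℂ C(T2, RM (two I) ℂ) (fourier 1 t : ℂ)),
    wz_mem (PP_proj I).1 (PP_proj I).2 (by rw [← map_mul, (p2_proj I).1])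
      (by rw [← map_star, (p2_proj I).2]) (bone_alg C(T2, RM (two I) ℂ) t).1
      (bone_alg C(T2, RM (two I) ℂ) t).2.1 (bone_alg C(T2, RM (two I) ℂ) t).2.2⟩

theorem bone_W_ev (z : UnitAddCircle × X) (y : T2) :
    mapU (evx (RM (two I) ℂ) y) (boneW I z.1) = uev (WW I X) (z, y) := by
  apply Subtype.ext
  rw [coe_mapU, coe_uev, WW_apply]
  refine (map_wz (evx (RM (two I) ℂ) y) _ _ _).trans ?_
  rw [AlgHomClass.commutes]
  rfl

theorem bone_W_ext (t : UnitAddCircle) :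
    (mapU (ext (two I) (ff I)) (boneW I t) : B2 I) =
      wz (Q0 I) (pt I) (algebraMap ℂ (B2 I) (fourier 1 t : ℂ)) := by
  rw [coe_mapU]
  refine (map_wz (ext (two I) (ff I)) _ _ _).trans ?_
  have h1 : ext (two I) (ff I) (PP I) = Q0 I := ext_ff_PP I
  have h2 : ext (two I) (ff I) (cns T2 (RM (two I) ℂ) (p2 I)) = pt I :=
    (ext_cns (ff I) (p2 I)).trans (bl_pp (fz I)).symm
  rw [h1, h2, AlgHomClass.commutes]

/-- The composition, upstairs.

Proof. By `BH.comp_apply` the left hand side is `ext (two I) (evx (q z) ∘ JQ.h) (JW.h f)`, and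
`evx (q z) ∘ JQ.h = ff ∘ (pull-back along y ↦ qp (z, y))` (`JQ_h`); by `ext_pull` this is
`ext (two I) (ff I) (y ↦ JW.h f (qp (z, y)))`; by `JW_h` the function is
`uh W_z (slc (f ∘ q) z.2)` with the unitary `W_z = wz PP (cns p2) t` of `C(T2, RM (two I) ℂ)` (compare the
values at every `y`, `map_uh` for `evx`), so by `map_uh` for `ext (two I) (ff I)`, `map_wz`,
`ext_ff_PP`, `ext_cns`, `bl_pp` the value is `uh (wz Q0 pt t) (slc (f ∘ q) z.2)`. -/
theorem comp_QW (hq : IsQ (bB B) y0 q) (hqp : IsQ (Bp (bB B)) yp qp) (f : C(Y, ℂ))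
    (z : UnitAddCircle × X) :
    ((JQ I hq hqp).comp (JW I hq hqp)).h f (q z) =
      (JF hq (Q0 I) (pt I) Q0_proj pt_proj).h f (q z) := by
  obtain ⟨g, hg⟩ : ∃ g : C(T2, Yp), g = ⟨fun y => qp (z, y), qp.continuous.comp
    (Continuous.prodMk_right z)⟩ := ⟨_, rfl⟩
  have h1 : (evx (RM (fz I) ℂ) (q z)).comp (JQ I hq hqp).h =
      (ff I).comp (ContinuousMap.compStarAlgHom' ℂ ℂ g) := by
    refine StarAlgHom.ext fun F => ?_
    rw [StarAlgHom.comp_apply, StarAlgHom.comp_apply, evx_apply, JQ_h, hg]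
    rfl
  have h2 : ((JW I hq hqp).h f).comp g = uh (boneW I z.1) (slc (f.comp q) z.2) := by
    ext1 y
    have h3 : uh (boneW I z.1) (slc (f.comp q) z.2) y =
        evx (RM (two I) ℂ) y (uh (boneW I z.1) (slc (f.comp q) z.2)) := rfl
    rw [h3, map_uh, bone_W_ev, hg]
    exact JW_h I hq hqp f (z, y)
  rw [BH.comp_apply, h1, ext_pull, h2, map_uh, JF_h]
  congr 1
  congr 1
  apply Subtype.ext
  rw [bone_W_ext, coe_uev, wF_apply]

/-- There is a continuous path of projections from `Q0` to `pt + e` with a coordinate projection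
`e`: conjugate by `bl (star R * Dg (u s) * R)`, where `u` is the path of `exists_vpath`;
`BoD.conj`, `star_vv_EE`, `bl_prj`. -/
theorem exists_Qpath (I : Ix) : ∃ (Q : unitInterval → B2 I) (_ : Continuous Q),
    (∀ s, Q s * Q s = Q s ∧ star (Q s) = Q s) ∧ Q 0 = Q0 I ∧
      Q 1 = pt I + prj ((fz I).prod (two I)) (fun _ => (Fin.last _, (0 : Fin 2))) := by
  obtain ⟨p, hp, hp0, hp1⟩ := exists_vpath I
  have hB := boD I
  obtain ⟨R, hR⟩ : ∃ R : B2 I, R = bl (fz I) ℂ (Fin 2) (BoD.R (pos I cof) (pos I sif)) := ⟨_, rfl⟩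
  have hR1 : star R * R = 1 := by
    rw [hR, ← map_star, ← map_mul, hB.R_unitary.1, map_one]
  have hR2 : R * star R = 1 := by
    rw [hR, ← map_star, ← map_mul, hB.R_unitary.2, map_one]
  obtain ⟨G, hG⟩ : ∃ G : unitInterval → B2 I,
    G = fun s => bl (fz I) ℂ (Fin 2) (BoD.Dg (p s : RM (fz I) ℂ)) := ⟨_, rfl⟩
  have hGs : ∀ s, G s * star (G s) = 1 := by
    intro s
    rw [hG]
    change bl (fz I) ℂ (Fin 2) (BoD.Dg (p s : RM (fz I) ℂ)) *
      star (bl (fz I) ℂ (Fin 2) (BoD.Dg (p s : RM (fz I) ℂ))) = 1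
    rw [← map_star, ← map_mul, BoD.m2_Dg_star]
    unfold BoD.Dg
    rw [m2_mul]
    simp only [mul_zero, zero_mul, add_zero, zero_add, mul_one,
      Unitary.mul_star_self_of_mem (p s).2]
    rw [← m2_one, map_one]
  have hGc : Continuous G := by
    have h1 : G = fun s => ampR (fz I) (Sz.con I (Fin 2)) (p s : RM (fz I) ℂ) *
        sclR (fz I) ℂ (Sz.con I (Fin 2)) (cm (Fin 2) I (mu 0 0)) +
        ampR (fz I) (Sz.con I (Fin 2)) 0 *
        sclR (fz I) ℂ (Sz.con I (Fin 2)) (cm (Fin 2) I (mu 0 1)) +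
        (ampR (fz I) (Sz.con I (Fin 2)) 0 *
        sclR (fz I) ℂ (Sz.con I (Fin 2)) (cm (Fin 2) I (mu 1 0)) +
        ampR (fz I) (Sz.con I (Fin 2)) 1 *
        sclR (fz I) ℂ (Sz.con I (Fin 2)) (cm (Fin 2) I (mu 1 1))) := by
      rw [hG]
      funext s
      exact bl_m2 (p s : RM (fz I) ℂ) 0 0 1
    rw [h1]
    have h2 : Continuous fun s => ampR (fz I) (Sz.con I (Fin 2)) (p s : RM (fz I) ℂ) :=
      (isq_cont (ampR (fz I) (Sz.con I (Fin 2)))).comp hp
    exact ((h2.mul continuous_const).add continuous_const).add continuous_const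
  obtain ⟨C, hC⟩ : ∃ C : unitInterval → B2 I, C = fun s => star R * G s * R := ⟨_, rfl⟩
  have hCs : ∀ s, C s * star (C s) = 1 := by
    intro s
    rw [hC]
    change star R * G s * R * star (star R * G s * R) = 1
    rw [star_mul, star_mul, star_star]
    calc star R * G s * R * (star R * (star (G s) * R))
        = star R * (G s * (R * star R) * star (G s)) * R := by simp only [mul_assoc]
      _ = 1 := by rw [hR2, mul_one, hGs, mul_one, hR1]
  have hCc : Continuous C := by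
    rw [hC]
    exact (continuous_const.mul hGc).mul continuous_const
  refine ⟨fun s => star (C s) * Q0 I * C s, (hCc.star.mul continuous_const).mul hCc,
    fun s => ⟨?_, ?_⟩, ?_, ?_⟩
  · change star (C s) * Q0 I * C s * (star (C s) * Q0 I * C s) = star (C s) * Q0 I * C s
    calc star (C s) * Q0 I * C s * (star (C s) * Q0 I * C s)
        = star (C s) * (Q0 I * (C s * star (C s)) * Q0 I) * C s := by simp only [mul_assoc]
      _ = star (C s) * Q0 I * C s := by rw [hCs, mul_one, Q0_proj.1]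
  · change star (star (C s) * Q0 I * C s) = star (C s) * Q0 I * C s
    rw [star_mul, star_mul, star_star, Q0_proj.2, mul_assoc]
  · change star (C 0) * Q0 I * C 0 = Q0 I
    have hG0 : G 0 = 1 := by
      rw [hG]
      change bl (fz I) ℂ (Fin 2) (BoD.Dg (p 0 : RM (fz I) ℂ)) = 1
      rw [hp0]
      unfold BoD.Dg
      rw [OneMemClass.coe_one, ← m2_one, map_one]
    have hC0 : C 0 = 1 := by
      rw [hC]
      change star R * G 0 * R = 1
      rw [hG0, mul_one, hR1]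
    rw [hC0, star_one, one_mul, mul_one]
  · change star (C 1) * Q0 I * C 1 = _
    have hC1 : C 1 = bl (fz I) ℂ (Fin 2) (star (BoD.R (pos I cof) (pos I sif)) *
        BoD.Dg (vv I : RM (fz I) ℂ) * BoD.R (pos I cof) (pos I sif)) := by
      rw [hC]
      change star R * G 1 * R = _
      rw [hG, hR, map_mul, map_mul, map_star]
      change _ * bl (fz I) ℂ (Fin 2) (BoD.Dg (p 1 : RM (fz I) ℂ)) * _ = _
      rw [hp1]
    rw [hC1]
    unfold Q0
    rw [← map_star, ← map_mul, ← map_mul, hB.conj, map_add, star_vv_EE]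
    have h3 := bl_prj (fz I) (fun _ => Fin.last _)
    rw [h3]
    rfl

/-- At the end of the path: `wz (pt + e) pt t = 1 - e + t e` (`wz_orth`), `uh_cut`, `uh_scal`. -/
theorem JF_end (hq : IsQ (bB B) y0 q) (e : B2 I)
    (he : e = prj ((fz I).prod (two I)) (fun _ => (Fin.last _, (0 : Fin 2)))) (Q : B2 I)
    (hQe : Q = pt I + e) (hQ : Q * Q = Q ∧ star Q = Q) (f : C(Y, ℂ)) (y : Y) :
    (JF hq Q (pt I) hQ pt_proj).h f y = f y • e + f y0 • (1 - e) := by
  obtain ⟨z, rfl⟩ := hq.surj y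
  obtain ⟨h1, h2, h3⟩ := bone_alg (B2 I) z.1
  have he1 : e * e = e ∧ star e = e := by
    rw [he]
    exact prj_proj I _ _
  have ho : e * pt I = 0 ∧ pt I * e = 0 := by
    have h4 : e = bl (fz I) ℂ (Fin 2) (m2 (prj (fz I) (fun _ => Fin.last _)) 0 0 0) := by
      rw [he]
      exact (bl_prj (fz I) (fun _ => Fin.last _)).symm
    rw [h4]
    exact prj_orth (fz I) (fun _ => Fin.last _)
  have hw : (uev (wF X Q (pt I) hQ pt_proj) z : B2 I) =
      1 - e + algebraMap ℂ (B2 I) (fourier 1 z.1 : ℂ) * e := by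
    rw [coe_uev, wF_apply, hQe]
    exact wz_orth pt_proj.1 ho.1 ho.2 h2 h1 h3
  obtain ⟨u, hu⟩ : ∃ u : unitary (B2 I), (u : B2 I) = algebraMap ℂ (B2 I) (fourier 1 z.1 : ℂ) :=
    ⟨⟨_, Unitary.mem_iff.2 ⟨h1, h2⟩⟩, rfl⟩
  rw [JF_h, uh_cut u (uev (wF X Q (pt I) hQ pt_proj) z) e he1.1 he1.2 (by rw [hu]; exact h3 e)
    (by rw [hw, hu]), uh_scal u z.1 hu, ← Algebra.smul_def, add_comm]
  have h5 : slc (f.comp q) z.2 0 = f y0 := by
    change f (q (0, z.2)) = f y0
    rw [(hq.base (0, z.2)).2 (Or.inl rfl)]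
  rw [h5]
  rfl

variable {S : Sz I}

theorem bone_b1 (hτ : PTr τ) (hR : Rowy I τ) (hq : IsQ (bB B) y0 q)
    (hqp : IsQ (Bp (bB B)) yp qp) (d : CM τ Y y0 S) :
    EqvM (com hτ (PB.prod (fz_PB I) (two_PB I)) d ((JQ I hq hqp).comp (JW I hq hqp))) d := by
  obtain ⟨Q, hc, hQ, hQ0, hQ1⟩ := exists_Qpath I
  have e1 : EqvM (com hτ (PB.prod (fz_PB I) (two_PB I)) d ((JQ I hq hqp).comp (JW I hq hqp)))
      (com hτ (PB.prod (fz_PB I) (two_PB I)) d (JF hq (Q 0) (pt I) (hQ 0) pt_proj)) := by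
    refine eqvM_of_h hτ hR (PB.prod (fz_PB I) (two_PB I)) d ?_
    have h1 : ((JQ I hq hqp).comp (JW I hq hqp)).h =
        (JF hq (Q0 I) (pt I) Q0_proj pt_proj).h :=
      BH.ext_q hq (fun f x => comp_QW hq hqp f x)
    exact h1.trans (bone_congr hq hQ0.symm Q0_proj (hQ 0) pt_proj)
  have e2 : EqvM (com hτ (PB.prod (fz_PB I) (two_PB I)) d (JF hq (Q 0) (pt I) (hQ 0) pt_proj))
      (com hτ (PB.prod (fz_PB I) (two_PB I)) d (JF hq (Q 1) (pt I) (hQ 1) pt_proj)) :=
    eqvM_com_path hτ (PB.prod (fz_PB I) (two_PB I)) hR d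
      (fun s => JF hq (Q s) (pt I) (hQ s) pt_proj)
      (fun f => JF_path hq Q (pt I) hQ pt_proj hc f)
  have e3 : EqvM (com hτ (PB.prod (fz_PB I) (two_PB I)) d (JF hq (Q 1) (pt I) (hQ 1) pt_proj))
      d :=
    eqvM_unit hτ (PB.prod (fz_PB I) (two_PB I)) d (fun _ => (Fin.last _, (0 : Fin 2))) _
      (fun f y => JF_end hq _ rfl (Q 1) hQ1 (hQ 1) f y)
  exact EqvM.trans hτ hR e1 (EqvM.trans hτ hR e2 e3)

/-- The first composition.

Proof. `eqvM_com_com`, `eqvM_of_h` with `comp_QW` (`BH.ext_q`), `eqvM_com_path` with `JF_path`,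
`exists_Qpath`, and `eqvM_unit` with `JF_end`. -/
theorem b1 (hτ : PTr τ) (hR : Rowy I τ) (hq : IsQ (bB B) y0 q) (hqp : IsQ (Bp (bB B)) yp qp)
    (d : CM τ Y y0 S) :
    EqvM (com hτ (two_PB I) (com hτ (fz_PB I) d (JQ I hq hqp)) (JW I hq hqp)) d := by
  exact EqvM.trans hτ hR (eqvM_com_com hτ hR (fz_PB I) (two_PB I) d (JQ I hq hqp) (JW I hq hqp))
    (bone_b1 hτ hR hq hqp d)

/-- The same for the composite based homomorphism. -/
theorem b1' (hτ : PTr τ) (hR : Rowy I τ) (hq : IsQ (bB B) y0 q) (hqp : IsQ (Bp (bB B)) yp qp)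
    (d : CM τ Y y0 S) :
    EqvM (com hτ (PB.prod (fz_PB I) (two_PB I)) d ((JQ I hq hqp).comp (JW I hq hqp))) d :=
  bone_b1 hτ hR hq hqp d

end H7c
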