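import Pool.Agent.H.MP_47f0a1_an.MatsB
import Pool.Agent.H.MP_47f0a1_an.Chain1
import Pool.Agent.H.MP_47f0a1_an.Chain2
import Pool.Agent.H.MP_47f0a1_an.Chain3

/-!
# The chain with an additional slot: the matrices and the unitarity
-/

open Matrix H47

namespace H7c

/-- The index set of the chain with one more slot. -/
abbrev IdO (N : ℕ) : Type := Option (Idx N)

/-- The distinguished index. -/
abbrev oo {N : ℕ} : IdO N := some (Sum.inl 0)

variable {R : Type*} [Ring R] [StarRing R]

/-- `B` with `1` in the additional slot. -/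
def Bt (N : ℕ) (U f g : R) : Matrix (IdO N) (IdO N) R :=
  Matrix.of fun x y => match x, y with
    | none, none => 1
    | some x, some y => Bm N U f g x y
    | none, some _ => 0
    | some _, none => 0

/-- `G` with the two by two matrix `q` in the slots `inl N`, `none`. -/
def Gt (N : ℕ) (U f g : R) (q : Fin 2 → Fin 2 → R) : Matrix (IdO N) (IdO N) R :=
  Matrix.of fun x y => match x, y with
    | none, none => q 1 1
    | none, some y => if y = Sum.inl (Fin.last N) then q 1 0 else 0
    | some x, none => if x = Sum.inl (Fin.last N) then q 0 1 else 0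
    | some x, some y => Gm N U f g (q 0 0) x y

/-- The row vector with `1` at the distinguished index. -/
def et (R : Type*) [Ring R] (N : ℕ) : Matrix Unit (IdO N) R :=
  Matrix.of fun _ x => if x = oo then 1 else 0

/-- A row vector. -/
def rowO {N : ℕ} (v : IdO N → R) : Matrix Unit (IdO N) R := Matrix.of fun _ x => v x

/-- The row `P`. -/
def Pt {N : ℕ} (U f g : R) (v : IdO N → R) : Matrix Unit (IdO N) R :=
  s1 U * rowO v * (Bt N U f g)ᴴ + s1 (1 - U * star U) * et R N

/-- The element `u`. -/
def ut {N : ℕ} (U f g : R) (q : Fin 2 → Fin 2 → R) (v : IdO N → R) : Matrix Unit Unit R :=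
  s1 U + Pt U f g v * (Gt N U f g q - Bt N U f g) * (rowO v)ᴴ

/-- The two by two matrix is unitary. -/
structure UQ (q : Fin 2 → Fin 2 → R) : Prop where
  u1 : ∀ i j, ∑ k, star (q k i) * q k j = if i = j then 1 else 0
  u2 : ∀ i j, ∑ k, q i k * star (q j k) = if i = j then 1 else 0

/-! ### Auxiliary material -/

/-- A matrix extended by the entry `c` in the additional slot. -/
def cha_ex {N : ℕ} (c : R) (X : Matrix (Idx N) (Idx N) R) : Matrix (IdO N) (IdO N) R :=
  Matrix.of fun x y => match x, y with
    | none, none => c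
    | some x, some y => X x y
    | none, some _ => 0
    | some _, none => 0

omit [StarRing R] in
theorem cha_ex_mul {N : ℕ} (c d : R) (X Y : Matrix (Idx N) (Idx N) R) :
    cha_ex c X * cha_ex d Y = cha_ex (c * d) (X * Y) := by
  ext x y
  rw [Matrix.mul_apply, Fintype.sum_option]
  rcases x with _ | x <;> rcases y with _ | y
  · simp [cha_ex]
  · simp [cha_ex]
  · simp [cha_ex]
  · simp [cha_ex, Matrix.mul_apply]

theorem cha_ex_star {N : ℕ} (c : R) (X : Matrix (Idx N) (Idx N) R) :
    (cha_ex c X)ᴴ = cha_ex (star c) Xᴴ := by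
  ext x y
  rcases x with _ | x <;> rcases y with _ | y <;> simp [cha_ex, Matrix.conjTranspose_apply]

omit [StarRing R] in
theorem cha_ex_one {N : ℕ} : (cha_ex 1 1 : Matrix (IdO N) (IdO N) R) = 1 := by
  ext x y
  rcases x with _ | x <;> rcases y with _ | y <;> simp [cha_ex, Matrix.one_apply]

theorem cha_Bt (N : ℕ) (U f g : R) : Bt N U f g = cha_ex 1 (Bm N U f g) := by
  ext x y
  rcases x with _ | x <;> rcases y with _ | y <;> rfl

omit [StarRing R] in
theorem cha_et (N : ℕ) (x : IdO N) (u : Unit) : et R N u x = if x = oo then 1 else 0 := rfl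

omit [StarRing R] in
theorem cha_sum (N : ℕ) (F : IdO N → R) :
    ∑ x, (if x = oo then (1 : R) else 0) * F x = F oo := by
  simp

omit [StarRing R] in
theorem cha_et_mul {N : ℕ} (X : Matrix (IdO N) (IdO N) R) (u : Unit) (y : IdO N) :
    (et R N * X) u y = X oo y := by
  rw [Matrix.mul_apply]
  simp only [cha_et]
  rw [cha_sum]

omit [StarRing R] in
theorem cha_s1_et {N : ℕ} (c : R) (u : Unit) (y : IdO N) :
    (s1 c * et R N) u y = if y = oo then c else 0 := by
  rw [Matrix.mul_apply]
  simp only [Finset.univ_unique, Finset.sum_singleton, cha_et, s1, Matrix.of_apply]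
  split_ifs <;> simp

omit [StarRing R] in
theorem cha_s1_er {N : ℕ} (c : R) (u : Unit) (y : Idx N) :
    (s1 c * er R N) u y = if y = Sum.inl 0 then c else 0 := by
  rw [Matrix.mul_apply]
  simp only [Finset.univ_unique, Finset.sum_singleton, matsb_er, s1, Matrix.of_apply]
  split_ifs <;> simp

theorem cha_mid {N : ℕ} (c : R) :
    (et R N)ᴴ * s1 c * et R N = cha_ex 0 ((er R N)ᴴ * s1 c * er R N) := by
  ext x y
  rw [Matrix.mul_assoc, Matrix.mul_assoc, Matrix.mul_apply]
  simp only [Finset.univ_unique, Finset.sum_singleton, Matrix.conjTranspose_apply, cha_et,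
    cha_s1_et]
  rcases x with _ | x <;> rcases y with _ | y
  · simp [cha_ex]
  · simp [cha_ex]
  · simp [cha_ex]
  · simp only [cha_ex, Matrix.of_apply]
    rw [Matrix.mul_apply]
    simp only [Finset.univ_unique, Finset.sum_singleton, Matrix.conjTranspose_apply, matsb_er,
      cha_s1_er, Option.some.injEq]

omit [StarRing R] in
theorem cha_sub {N : ℕ} (X : Matrix (Idx N) (Idx N) R) :
    (1 : Matrix (IdO N) (IdO N) R) - cha_ex 0 X = cha_ex 1 (1 - X) := by
  rw [← cha_ex_one]
  ext x y
  rcases x with _ | x <;> rcases y with _ | y <;> simp [cha_ex]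

/-- `G` is unitary. Compare `Gm_unitary` in `Mats.lean`; the block on the slots `inl N`, `none` is `q`,
the blocks on the slots `inl j`, `inr j` are `[[U, -f], [g, U*]]`. -/
theorem Gt_unitary (N : ℕ) {U f g : R} {q : Fin 2 → Fin 2 → R} (h : Rel0 U f g 1) (hq : UQ q) :
    (Gt N U f g q)ᴴ * Gt N U f g q = 1 ∧ Gt N U f g q * (Gt N U f g q)ᴴ = 1 := by
  have e1 : star U * U + g * g = 1 := by rw [h.gg]; abel
  have e2 : U * star U + f * f = 1 := by rw [h.ff]; abel
  have e3 : f * f + U * star U = 1 := by rw [h.ff]; abel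
  have e4 : g * g + star U * U = 1 := by rw [h.gg]; abel
  have l1 : ∀ k : Fin N, (Fin.last N = k.castSucc) = False := fun k =>
    eq_false (Fin.castSucc_lt_last k).ne'
  have l2 : ∀ k : Fin N, (k.castSucc = Fin.last N) = False := fun k =>
    eq_false (Fin.castSucc_lt_last k).ne
  have a00 := hq.u1 0 0
  have a01 := hq.u1 0 1
  have a10 := hq.u1 1 0
  have a11 := hq.u1 1 1
  have b00 := hq.u2 0 0
  have b01 := hq.u2 0 1
  have b10 := hq.u2 1 0
  have b11 := hq.u2 1 1
  simp only [Fin.sum_univ_two, if_true, zero_ne_one, one_ne_zero, if_false] at a00 a01 a10 a11 b00 b01 b10 b11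
  rw [add_comm] at a00 a01 a10 a11 b00 b01 b10 b11
  constructor
  · ext x y
    rw [Matrix.mul_apply, Fintype.sum_option, Fintype.sum_sum_type]
    rcases x with _ | i | j <;> rcases y with _ | i' | j'
    · simp [Gt, Gm, a11]
    · induction i' using Fin.lastCases with
      | last => simp [Gt, Gm, Matrix.one_apply, a10]
      | cast k => simp [Gt, Gm, Matrix.one_apply, l1, l2]
    · simp [Gt, Gm, Matrix.one_apply, l1, l2]
    · induction i using Fin.lastCases with
      | last => simp [Gt, Gm, Matrix.one_apply, a01]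
      | cast k => simp [Gt, Gm, Matrix.one_apply, l1, l2]
    · induction i using Fin.lastCases with
      | last =>
        induction i' using Fin.lastCases with
        | last => simp [Gt, Gm, Matrix.one_apply, l1, l2, a00]
        | cast k => simp [Gt, Gm, Matrix.one_apply, l1, l2]
      | cast k =>
        induction i' using Fin.lastCases with
        | last => simp [Gt, Gm, Matrix.one_apply, l1, l2]
        | cast l =>
          by_cases hkl : l = k
          · subst hkl
            simp [Gt, Gm, Matrix.one_apply, l1, l2, h.gs, e1]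
          · simp [Gt, Gm, Matrix.one_apply, l1, l2, hkl, Ne.symm hkl]
    · induction i using Fin.lastCases with
      | last => simp [Gt, Gm, Matrix.one_apply, l1, l2]
      | cast k =>
        by_cases hkl : j' = k
        · subst hkl
          simp [Gt, Gm, Matrix.one_apply, l1, l2, h.gs, h.Uf]
        · simp [Gt, Gm, Matrix.one_apply, l1, l2, hkl, Ne.symm hkl]
    · simp [Gt, Gm, Matrix.one_apply, l1, l2]
    · induction i' using Fin.lastCases with
      | last => simp [Gt, Gm, Matrix.one_apply, l1, l2]
      | cast k =>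
        by_cases hkl : j = k
        · subst hkl
          simp [Gt, Gm, Matrix.one_apply, l1, l2, h.fs, h.fU]
        · simp [Gt, Gm, Matrix.one_apply, l1, l2, hkl, Ne.symm hkl]
    · by_cases hkl : j' = j
      · subst hkl
        simp [Gt, Gm, Matrix.one_apply, l1, l2, h.fs, e3]
      · simp [Gt, Gm, Matrix.one_apply, l1, l2, hkl, Ne.symm hkl]
  · ext x y
    rw [Matrix.mul_apply, Fintype.sum_option, Fintype.sum_sum_type]
    rcases x with _ | i | j <;> rcases y with _ | i' | j'
    · simp [Gt, Gm, b11]
    · induction i' using Fin.lastCases with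
      | last => simp [Gt, Gm, Matrix.one_apply, l1, l2, b10]
      | cast k => simp [Gt, Gm, Matrix.one_apply, l1, l2]
    · simp [Gt, Gm, Matrix.one_apply, l1, l2]
    · induction i using Fin.lastCases with
      | last => simp [Gt, Gm, Matrix.one_apply, l1, l2, b01]
      | cast k => simp [Gt, Gm, Matrix.one_apply, l1, l2]
    · induction i using Fin.lastCases with
      | last =>
        induction i' using Fin.lastCases with
        | last => simp [Gt, Gm, Matrix.one_apply, l1, l2, b00]
        | cast k => simp [Gt, Gm, Matrix.one_apply, l1, l2]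
      | cast k =>
        induction i' using Fin.lastCases with
        | last => simp [Gt, Gm, Matrix.one_apply, l1, l2]
        | cast l =>
          by_cases hkl : l = k
          · subst hkl
            simp [Gt, Gm, Matrix.one_apply, l1, l2, h.fs, e2]
          · simp [Gt, Gm, Matrix.one_apply, l1, l2, hkl, Ne.symm hkl]
    · induction i using Fin.lastCases with
      | last => simp [Gt, Gm, Matrix.one_apply, l1, l2]
      | cast k =>
        by_cases hkl : j' = k
        · subst hkl
          simp [Gt, Gm, Matrix.one_apply, l1, l2, h.gs, h.fU]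
        · simp [Gt, Gm, Matrix.one_apply, l1, l2, hkl, Ne.symm hkl]
    · simp [Gt, Gm, Matrix.one_apply, l1, l2]
    · induction i' using Fin.lastCases with
      | last => simp [Gt, Gm, Matrix.one_apply, l1, l2]
      | cast k =>
        by_cases hkl : j = k
        · subst hkl
          simp [Gt, Gm, Matrix.one_apply, l1, l2, h.fs, h.Uf]
        · simp [Gt, Gm, Matrix.one_apply, l1, l2, hkl, Ne.symm hkl]
    · by_cases hkl : j' = j
      · subst hkl
        simp [Gt, Gm, Matrix.one_apply, l1, l2, h.gs, e4]
      · simp [Gt, Gm, Matrix.one_apply, l1, l2, hkl, Ne.symm hkl]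

theorem et_mul_Bt (N : ℕ) (U f g : R) : et R N * Bt N U f g = s1 U * et R N := by
  ext u y
  rw [cha_et_mul, cha_s1_et]
  rcases y with _ | y
  · simp [Bt]
  · have h1 := congrFun (congrFun (er_mul_Bm N U f g) u) y
    rw [cha_s1_er, Matrix.mul_apply] at h1
    simp only [matsb_er] at h1
    rw [matsb_sum] at h1
    simp only [Option.some.injEq]
    exact h1

theorem et_mul_Bt_star (N : ℕ) (U f g : R) : et R N * (Bt N U f g)ᴴ = s1 (star U) * et R N := by
  ext u y
  rw [cha_et_mul, cha_s1_et, Matrix.conjTranspose_apply]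
  rcases y with _ | y
  · simp [Bt]
  · have h1 := congrFun (congrFun (er_mul_Bm_star N U f g) u) y
    rw [cha_s1_er, Matrix.mul_apply] at h1
    simp only [matsb_er] at h1
    rw [matsb_sum, Matrix.conjTranspose_apply] at h1
    simp only [Option.some.injEq]
    exact h1

theorem et_mul_et_star (N : ℕ) : et R N * (et R N)ᴴ = 1 := by
  ext u u'
  rw [Matrix.mul_apply]
  simp only [cha_et, Matrix.conjTranspose_apply]
  rw [cha_sum]
  simp

/-- From `Bm_star_mul`. -/
theorem Bt_star_mul (N : ℕ) {U f g w : R} (h : Rel0 U f g w) :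
    (Bt N U f g)ᴴ * Bt N U f g = 1 - (et R N)ᴴ * s1 (1 - star U * U) * et R N := by
  rw [cha_Bt, cha_ex_star, cha_ex_mul, star_one, one_mul, Bm_star_mul N h, cha_mid, cha_sub]

/-- From `Bm_mul_star`. -/
theorem Bt_mul_star (N : ℕ) {U f g w : R} (h : Rel0 U f g w) :
    Bt N U f g * (Bt N U f g)ᴴ = 1 - (et R N)ᴴ * s1 (1 - U * star U) * et R N := by
  rw [cha_Bt, cha_ex_star, cha_ex_mul, star_one, one_mul, Bm_mul_star N h, cha_mid, cha_sub]

omit [StarRing R] in
theorem cha_V {N : ℕ} (v : IdO N → R) (h0 : v oo = 1) (u : Unit) (x : IdO N) :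
    (rowO v - et R N) u x = if x = oo then 0 else v x := by
  rw [Matrix.sub_apply, cha_et]
  by_cases hx : x = oo
  · subst hx
    simp [rowO, h0]
  · simp [rowO, hx]

theorem cha_rowO_et {N : ℕ} (v : IdO N → R) (h0 : v oo = 1) : rowO v * (et R N)ᴴ = 1 := by
  ext u u'
  rw [Matrix.mul_apply]
  simp only [cha_et, Matrix.conjTranspose_apply, apply_ite star, star_one, star_zero]
  simp [rowO, h0]

theorem cha_ee {N : ℕ} (X : Matrix (IdO N) (IdO N) R) (x z : IdO N) :
    ((1 - (et R N)ᴴ * et R N) * X : Matrix (IdO N) (IdO N) R) x z =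
      if x = oo then 0 else X x z := by
  rw [Matrix.sub_mul, Matrix.one_mul, Matrix.sub_apply, Matrix.mul_assoc, Matrix.mul_apply]
  simp only [Finset.univ_unique, Finset.sum_singleton, Matrix.conjTranspose_apply, cha_et,
    cha_et_mul]
  by_cases hx : x = oo
  · subst hx
    simp
  · simp [hx]

theorem cha_absorbed {N : ℕ} (v : IdO N → R) (h0 : v oo = 1) (X : Matrix (IdO N) (IdO N) R)
    (hX : ∀ x y z, x ≠ oo → y ≠ oo → star (v x) * v y * X y z = if x = y then X y z else 0) :
    (rowO v - et R N)ᴴ * (rowO v - et R N) * X = (1 - (et R N)ᴴ * et R N) * X := by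
  ext x z
  rw [cha_ee, Matrix.mul_assoc, Matrix.mul_apply]
  simp only [Finset.univ_unique, Finset.sum_singleton, Matrix.conjTranspose_apply]
  rw [Matrix.mul_apply, Finset.mul_sum]
  simp only [cha_V v h0]
  by_cases hx : x = oo
  · subst hx
    simp
  · simp only [if_neg hx]
    rw [Finset.sum_eq_single x]
    · rw [if_neg hx, ← mul_assoc, hX x x z hx hx, if_pos rfl]
    · intro y _ hy
      by_cases hy0 : y = oo
      · simp [hy0]
      · rw [if_neg hy0, ← mul_assoc, hX x y z hx hy0, if_neg (Ne.symm hy)]
    · intro h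
      exact absurd (Finset.mem_univ x) h

/-- The absorption relations of the row `v`. -/
structure RelA {N : ℕ} (U f g : R) (q : Fin 2 → Fin 2 → R) (v : IdO N → R) : Prop where
  v0 : v oo = 1
  gv : ∀ x, x ≠ oo → g * v x = 0
  aD : ∀ x y a b, x ≠ oo → y ≠ oo → star (v x) * v y * (Gt N U f g q - Bt N U f g) a b =
    if x = y then (Gt N U f g q - Bt N U f g) a b else 0
  aDs : ∀ x y a b, x ≠ oo → y ≠ oo → star (v x) * v y * star ((Gt N U f g q - Bt N U f g) a b) =
    if x = y then star ((Gt N U f g q - Bt N U f g) a b) else 0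
  aM : ∀ x y a b, x ≠ oo → y ≠ oo →
    star (v x) * v y * ((Bt N U f g)ᴴ * (Gt N U f g q - Bt N U f g)) a b =
    if x = y then ((Bt N U f g)ᴴ * (Gt N U f g q - Bt N U f g)) a b else 0

/-- Unitarity of `u`: `chain_abstract` for the index set `IdO N`.

The hypotheses: `hPe` by `v0`; `hE`: `(1 - U* U) v_x = g (g v_x) = 0` for `x ≠ oo`;
`hD`: the column `oo` of `D = G - B` has the only nonzero entry `g` at `some (inr 0)` (compare
`D_col_zero`; here `0 < N` is used), and `g * v x = 0`; `hC`: the entry `(x, z)` of `V* V D*` is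
`∑ y ≠ oo, v_x* v_y D*_{yz}` for `x ≠ oo` and `0` for `x = oo` (`aDs`); `hA` in the same way (`aM`);
`hB`: `V* e B* D`: `e B* = U* e`, so the entries are `v_x* U* D_{oo z}`; the row `oo` of `D` is
`-f` at `some (inr 0)` and `0` otherwise (the entry at `oo` is `U - U`, the entry at `none` is `0` since
`0 ≠ N`), and `v_x* U* f = v_x* g U* = (g v_x)* U* = 0`. -/
theorem ct_unitary {N : ℕ} (hN : 0 < N) {U f g : R} {q : Fin 2 → Fin 2 → R} {v : IdO N → R}
    (h0 : Rel0 U f g 1) (hq : UQ q) (h1 : RelA U f g q v) :
    (ut U f g q v)ᴴ * ut U f g q v = 1 ∧ ut U f g q v * (ut U f g q v)ᴴ = 1 := by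
  have eq1 : s1 (1 - U * star U) = 1 - s1 U * (s1 U)ᴴ := by
    rw [s1_sub, s1_one, s1_mul, s1_star]
  have ep1 : s1 (1 - star U * U) = 1 - (s1 U)ᴴ * s1 U := by
    rw [s1_sub, s1_one, s1_mul, s1_star]
  have hl : (0 : Fin (N + 1)) ≠ Fin.last N := by
    intro h
    have := congrArg Fin.val h
    simp at this
    omega
  have key := chain_abstract (s1 U) (et R N) (rowO v) (Gt N U f g q) (Bt N U f g)
    (et_mul_et_star N) (Gt_unitary N h0 hq).1 (Gt_unitary N h0 hq).2
    (et_mul_Bt N U f g) (by rw [s1_star]; exact et_mul_Bt_star N U f g)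
    (by rw [← ep1]; exact Bt_star_mul N h0) (by rw [← eq1]; exact Bt_mul_star N h0)
    (cha_rowO_et v h1.v0) ?_ ?_ ?_ ?_ ?_
  · unfold ut Pt
    rw [eq1]
    exact key
  · -- hE
    rw [← ep1, ← sub_eq_zero, ← Matrix.mul_sub]
    ext u x
    rw [Matrix.mul_apply]
    simp only [Finset.univ_unique, Finset.sum_singleton, cha_V v h1.v0, s1, Matrix.of_apply,
      Matrix.zero_apply]
    by_cases hx : x = oo
    · rw [if_pos hx, mul_zero]
    · rw [if_neg hx, ← h0.gg, mul_assoc, h1.gv x hx, mul_zero]
  · -- hD
    ext x y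
    rw [Matrix.mul_apply]
    simp only [Finset.univ_unique, Finset.sum_singleton, cha_V v h1.v0, Matrix.zero_apply]
    by_cases hy : y = oo
    · rw [if_pos hy, mul_zero]
    · rw [if_neg hy, Matrix.mul_apply]
      have e : ∑ t, (Gt N U f g q - Bt N U f g) x t * (et R N)ᴴ t default =
          (Gt N U f g q - Bt N U f g) x oo := by
        rw [Finset.sum_eq_single oo]
        · simp [Matrix.conjTranspose_apply, cha_et]
        · intro b _ hb
          simp [Matrix.conjTranspose_apply, cha_et, hb]
        · intro h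
          exact absurd (Finset.mem_univ _) h
      rw [e]
      rcases x with _ | x
      · have e2 : (Gt N U f g q - Bt N U f g) none oo = 0 := by
          rw [Matrix.sub_apply]
          simp [Gt, Bt, hl]
        rw [e2, zero_mul]
      · have e2 : (Gt N U f g q - Bt N U f g) (some x) oo =
            (Gm N U f g (q 0 0) - Bm N U f g) x (Sum.inl 0) := by
          rw [Matrix.sub_apply, Matrix.sub_apply]
          rfl
        rw [e2, D_col_zero N U f g (q 0 0) hN x]
        rcases x with i | j
        · exact zero_mul _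
        · show (if (j : ℕ) = 0 then g else 0) * v y = 0
          split_ifs
          · exact h1.gv y hy
          · exact zero_mul _
  · -- hC
    refine cha_absorbed v h1.v0 _ fun x y z hx hy => ?_
    rw [Matrix.conjTranspose_apply]
    exact h1.aDs x y z y hx hy
  · -- hA
    exact cha_absorbed v h1.v0 _ fun x y z hx hy => h1.aM x y y z hx hy
  · -- hB
    rw [Matrix.mul_assoc, ← Matrix.mul_assoc (et R N), et_mul_Bt_star, Matrix.mul_assoc (s1 _)]
    ext x z
    rw [Matrix.mul_apply]
    simp only [Finset.univ_unique, Finset.sum_singleton, Matrix.conjTranspose_apply,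
      cha_V v h1.v0, Matrix.zero_apply]
    by_cases hx : x = oo
    · rw [if_pos hx, star_zero, zero_mul]
    · rw [if_neg hx, Matrix.mul_apply]
      simp only [Finset.univ_unique, Finset.sum_singleton, s1, Matrix.of_apply]
      rw [cha_et_mul]
      have hvg : star (v x) * g = 0 := by
        have := congrArg star (h1.gv x hx)
        rwa [star_mul, h0.gs, star_zero] at this
      rcases z with _ | z
      · have e2 : (Gt N U f g q - Bt N U f g) oo none = 0 := by
          rw [Matrix.sub_apply]
          simp [Gt, Bt, hl]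
        rw [e2, mul_zero, mul_zero]
      · have e2 : (Gt N U f g q - Bt N U f g) oo (some z) =
            (Gm N U f g (q 0 0) - Bm N U f g) (Sum.inl 0) z := by
          rw [Matrix.sub_apply, Matrix.sub_apply]
          rfl
        rw [e2]
        rcases z with i' | j'
        · rw [chain3_Dll, if_neg hl]
          simp
        · rw [chain3_Dlr, if_neg (Fin.succ_ne_zero j').symm, zero_sub, mul_neg]
          have h3 : star U * (if (0 : Fin (N + 1)) = j'.castSucc then f else 0) =
              if (0 : Fin (N + 1)) = j'.castSucc then g * star U else 0 := by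
            split_ifs
            · exact h0.Uf
            · exact mul_zero _
          rw [h3, mul_neg]
          split_ifs
          · rw [← mul_assoc, hvg, zero_mul, neg_zero]
          · rw [mul_zero, neg_zero]

/-- `P P* = U P' P'* U* + (1 - U U*)`.

Proof. As in `chain_abstract`: `P B = U P'`, `P e* = 1`, and
`P P* = P B B* P* + P (1 - B B*) P* = (U P') (U P')* + P e* (1 - U U*) e P*`. -/
theorem Pt_mul_star {N : ℕ} {U f g : R} {q : Fin 2 → Fin 2 → R} {v : IdO N → R}
    (h0 : Rel0 U f g 1) (h1 : RelA U f g q v) :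
    Pt U f g v * (Pt U f g v)ᴴ = s1 U * (rowO v * (rowO v)ᴴ) * s1 (star U) +
      s1 (1 - U * star U) := by
  have e1 := et_mul_Bt N U f g
  have e2 := et_mul_Bt_star N U f g
  have e3 := et_mul_et_star (R := R) N
  have e4 := Bt_star_mul N h0
  have e5 := cha_rowO_et v h1.v0
  have e6 : et R N * (rowO v)ᴴ = 1 := by
    have := congrArg Matrix.conjTranspose e5
    rwa [Matrix.conjTranspose_mul, Matrix.conjTranspose_conjTranspose,
      Matrix.conjTranspose_one] at this
  have e7 : Bt N U f g * (et R N)ᴴ = (et R N)ᴴ * s1 U := by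
    have := congrArg Matrix.conjTranspose e2
    rwa [Matrix.conjTranspose_mul, Matrix.conjTranspose_conjTranspose,
      Matrix.conjTranspose_mul, s1_star, star_star] at this
  have e8 : (Bt N U f g)ᴴ * (et R N)ᴴ = (et R N)ᴴ * s1 (star U) := by
    have := congrArg Matrix.conjTranspose e1
    rwa [Matrix.conjTranspose_mul, Matrix.conjTranspose_mul, s1_star] at this
  have e9 : star (1 - U * star U) = 1 - U * star U := by
    rw [star_sub, star_one, star_mul, star_star]
  have hT : (Pt U f g v)ᴴ =
      Bt N U f g * ((rowO v)ᴴ * s1 (star U)) + (et R N)ᴴ * s1 (1 - U * star U) := by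
    unfold Pt
    rw [Matrix.conjTranspose_add, Matrix.conjTranspose_mul, Matrix.conjTranspose_mul,
      Matrix.conjTranspose_mul, Matrix.conjTranspose_conjTranspose, s1_star, s1_star, e9]
  rw [hT]
  unfold Pt
  rw [Matrix.add_mul, Matrix.mul_add, Matrix.mul_add]
  have t1 : s1 U * rowO v * (Bt N U f g)ᴴ * (Bt N U f g * ((rowO v)ᴴ * s1 (star U))) =
      s1 U * (rowO v * (rowO v)ᴴ) * s1 (star U) - s1 (U * (1 - star U * U) * star U) := by
    have : s1 U * rowO v * (Bt N U f g)ᴴ * (Bt N U f g * ((rowO v)ᴴ * s1 (star U))) =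
        s1 U * (rowO v * ((Bt N U f g)ᴴ * Bt N U f g) * (rowO v)ᴴ) * s1 (star U) := by
      simp only [Matrix.mul_assoc]
    rw [this, e4, Matrix.mul_sub, Matrix.mul_one, Matrix.sub_mul]
    have : rowO v * ((et R N)ᴴ * s1 (1 - star U * U) * et R N) * (rowO v)ᴴ =
        (rowO v * (et R N)ᴴ) * s1 (1 - star U * U) * (et R N * (rowO v)ᴴ) := by
      simp only [Matrix.mul_assoc]
    rw [this, e5, e6, Matrix.one_mul, Matrix.mul_one, Matrix.mul_sub, Matrix.sub_mul, s1_mul,
      s1_mul]
  have t2 : s1 U * rowO v * (Bt N U f g)ᴴ * ((et R N)ᴴ * s1 (1 - U * star U)) =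
      s1 (U * star U * (1 - U * star U)) := by
    have : s1 U * rowO v * (Bt N U f g)ᴴ * ((et R N)ᴴ * s1 (1 - U * star U)) =
        s1 U * rowO v * ((Bt N U f g)ᴴ * (et R N)ᴴ) * s1 (1 - U * star U) := by
      simp only [Matrix.mul_assoc]
    rw [this, e8]
    have : s1 U * rowO v * ((et R N)ᴴ * s1 (star U)) * s1 (1 - U * star U) =
        s1 U * (rowO v * (et R N)ᴴ) * s1 (star U) * s1 (1 - U * star U) := by
      simp only [Matrix.mul_assoc]
    rw [this, e5, Matrix.mul_one, s1_mul, s1_mul]
  have t3 : s1 (1 - U * star U) * et R N * (Bt N U f g * ((rowO v)ᴴ * s1 (star U))) =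
      s1 ((1 - U * star U) * U * star U) := by
    have : s1 (1 - U * star U) * et R N * (Bt N U f g * ((rowO v)ᴴ * s1 (star U))) =
        s1 (1 - U * star U) * (et R N * Bt N U f g) * (rowO v)ᴴ * s1 (star U) := by
      simp only [Matrix.mul_assoc]
    rw [this, e1]
    have : s1 (1 - U * star U) * (s1 U * et R N) * (rowO v)ᴴ * s1 (star U) =
        s1 (1 - U * star U) * s1 U * (et R N * (rowO v)ᴴ) * s1 (star U) := by
      simp only [Matrix.mul_assoc]
    rw [this, e6, Matrix.mul_one, s1_mul, s1_mul]
  have t4 : s1 (1 - U * star U) * et R N * ((et R N)ᴴ * s1 (1 - U * star U)) =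
      s1 ((1 - U * star U) * (1 - U * star U)) := by
    have : s1 (1 - U * star U) * et R N * ((et R N)ᴴ * s1 (1 - U * star U)) =
        s1 (1 - U * star U) * (et R N * (et R N)ᴴ) * s1 (1 - U * star U) := by
      simp only [Matrix.mul_assoc]
    rw [this, e3, Matrix.mul_one, s1_mul]
  rw [t1, t2, t3, t4]
  have t5 : (1 - U * star U : R) = U * star U * (1 - U * star U) - U * (1 - star U * U) * star U +
      ((1 - U * star U) * U * star U + (1 - U * star U) * (1 - U * star U)) := by
    noncomm_ring
  have t6 : s1 (1 - U * star U : R) = s1 (U * star U * (1 - U * star U)) -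
      s1 (U * (1 - star U * U) * star U) + (s1 ((1 - U * star U) * U * star U) +
      s1 ((1 - U * star U) * (1 - U * star U))) := by
    conv_lhs => rw [t5]
    ext
    simp [s1]
  rw [t6]
  abel

end H7c
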