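import Pool.Agent.H.MP_7b4a29_c.ChA

/-!
# The chain with an additional slot: intertwining
-/

open Matrix H47

namespace H7c

variable {R : Type*} [Ring R] [StarRing R]

/-- The abstract intertwining (`chain_inter`) without the exact relation between `Op`, `Op'` and
`G`: in the last step of the proof of `chain_inter` the term `P (Op G - G Op') P'*` remains. -/
theorem chain_inter' {I : Type*} [Fintype I] [DecidableEq I]
    (U φ ψ : Matrix Unit Unit R) (e P' : Matrix Unit I R) (G B : Matrix I I R)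
    (Om Om' Op Op' : Matrix I I R)
    (heB : e * B = U * e)
    (hBB : Bᴴ * B = 1 - eᴴ * (1 - Uᴴ * U) * e) (hPe : P' * eᴴ = 1)
    (h1 : φ * U = U * ψ) (h2 : ψ * Uᴴ = Uᴴ * φ) (h3 : ψ * P' = P' * Om')
    (h4 : P'ᴴ * ψ = Om' * P'ᴴ) (h5 : Om' * Bᴴ = Bᴴ * Om) (h6 : φ * e = e * Om) :
    φ * (U + (U * P' * Bᴴ + (1 - U * Uᴴ) * e) * (G - B) * P'ᴴ) -
        (U + (U * P' * Bᴴ + (1 - U * Uᴴ) * e) * (G - B) * P'ᴴ) * ψ =
      (U * P' * Bᴴ + (1 - U * Uᴴ) * e) * ((Om - Op) * G - G * (Om' - Op') +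
        (Op * G - G * Op')) * P'ᴴ := by
  obtain ⟨P, hPd⟩ : ∃ P : Matrix Unit I R, P = U * P' * Bᴴ + (1 - U * Uᴴ) * e := ⟨_, rfl⟩
  rw [← hPd]
  have k4 : P * B = U * P' := by
    calc P * B = U * P' * (Bᴴ * B) + (1 - U * Uᴴ) * (e * B) := by
          rw [hPd, Matrix.add_mul]; simp only [Matrix.mul_assoc]
      _ = U * P' * (1 - eᴴ * (1 - Uᴴ * U) * e) + (1 - U * Uᴴ) * (U * e) := by rw [hBB, heB]
      _ = U * P' - U * (P' * eᴴ) * ((1 - Uᴴ * U) * e) + (1 - U * Uᴴ) * (U * e) := by
          rw [Matrix.mul_sub, Matrix.mul_one]; simp only [Matrix.mul_assoc]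
      _ = U * P' - U * ((1 - Uᴴ * U) * e) + (1 - U * Uᴴ) * (U * e) := by
          rw [hPe, Matrix.mul_one]
      _ = U * P' := by
          simp only [Matrix.sub_mul, Matrix.mul_sub, Matrix.one_mul, Matrix.mul_assoc]
          abel
  have kP : φ * P = P * Om := by
    calc φ * P = (φ * U) * (P' * Bᴴ) + (φ * e - (φ * U) * (Uᴴ * e)) := by
          rw [hPd]
          simp only [Matrix.sub_mul, Matrix.mul_sub, Matrix.mul_add, Matrix.one_mul,
            Matrix.mul_assoc]
      _ = U * ((ψ * P') * Bᴴ) + (φ * e - U * ((ψ * Uᴴ) * e)) := by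
          rw [h1]; simp only [Matrix.mul_assoc]
      _ = U * (P' * (Om' * Bᴴ)) + (φ * e - U * (Uᴴ * (φ * e))) := by
          rw [h3, h2]; simp only [Matrix.mul_assoc]
      _ = U * (P' * (Bᴴ * Om)) + (e * Om - U * (Uᴴ * (e * Om))) := by rw [h5, h6]
      _ = P * Om := by
          rw [hPd]
          simp only [Matrix.sub_mul, Matrix.add_mul, Matrix.one_mul, Matrix.mul_assoc]
  have ku : U + P * (G - B) * P'ᴴ = U + P * G * P'ᴴ - U * P' * P'ᴴ := by
    rw [Matrix.mul_sub, k4, Matrix.sub_mul]; abel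
  rw [ku]
  have k1 : φ * (U + P * G * P'ᴴ - U * P' * P'ᴴ) =
      U * ψ + P * Om * G * P'ᴴ - U * P' * Om' * P'ᴴ := by
    calc φ * (U + P * G * P'ᴴ - U * P' * P'ᴴ)
        = φ * U + (φ * P) * (G * P'ᴴ) - (φ * U) * (P' * P'ᴴ) := by
          simp only [Matrix.mul_sub, Matrix.mul_add, Matrix.mul_assoc]
      _ = U * ψ + (P * Om) * (G * P'ᴴ) - U * ((ψ * P') * P'ᴴ) := by
          rw [h1, kP]; simp only [Matrix.mul_assoc]
      _ = U * ψ + P * Om * G * P'ᴴ - U * P' * Om' * P'ᴴ := by
          rw [h3]; simp only [Matrix.mul_assoc]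
  have k2 : (U + P * G * P'ᴴ - U * P' * P'ᴴ) * ψ =
      U * ψ + P * G * Om' * P'ᴴ - U * P' * Om' * P'ᴴ := by
    calc (U + P * G * P'ᴴ - U * P' * P'ᴴ) * ψ
        = U * ψ + P * G * (P'ᴴ * ψ) - U * P' * (P'ᴴ * ψ) := by
          simp only [Matrix.sub_mul, Matrix.add_mul, Matrix.mul_assoc]
      _ = U * ψ + P * G * Om' * P'ᴴ - U * P' * Om' * P'ᴴ := by
          rw [h4]; simp only [Matrix.mul_assoc]
  have k3 : (Om - Op) * G - G * (Om' - Op') + (Op * G - G * Op') = Om * G - G * Om' := by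
    rw [Matrix.sub_mul, Matrix.mul_sub]; abel
  rw [k1, k2, k3]
  simp only [Matrix.mul_sub, Matrix.sub_mul, Matrix.mul_assoc]
  abel

/-- Diagonal entries: `a k` at `inl k`, `b j` at `inr j`, `t` at the additional slot. -/
def dO (N : ℕ) (a b : ℕ → R) (t : R) : IdO N → R
  | none => t
  | some (.inl k) => a k
  | some (.inr j) => b j

/-- The intertwining relations, at one function: `a k`, `b k` are the values of the two chains. -/
structure RelB {N : ℕ} (U f g : R) (v : IdO N → R) (a b : ℕ → R) (t : R) : Prop where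
  U1 : ∀ k ≤ N, a k * U = U * b k
  U2 : ∀ k ≤ N, b k * star U = star U * a k
  ff : ∀ k ≤ N, a k * f = f * a k
  gg : ∀ k ≤ N, b k * g = g * b k
  v1 : ∀ x, b 0 * v x = v x * dO N b (fun j => a (j + 1)) t x
  v2 : ∀ x, star (v x) * b 0 = dO N b (fun j => a (j + 1)) t x * star (v x)

/-- Concrete intertwining.

Proof. `chain_inter'` with `Om = diagonal (dO N a (b (· + 1)) t)`,
`Om' = diagonal (dO N b (a (· + 1)) t)`, `Op = diagonal (dO N a b t)`, `Op' = diagonal (dO N b a t)`.
`h5` as in `chain_intertwine` (and `t` at `none`).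
`Op G - G Op'` vanishes in the blocks `(inl j, inr j)`, `j < N`: `a j U = U b j`,
`a j f = f a j`, `b j g = g b j`, `b j U* = U* a j`. -/
theorem ct_inter {N : ℕ} {U f g : R} {q : Fin 2 → Fin 2 → R} {v : IdO N → R} {a b : ℕ → R} {t : R}
    (h0 : Rel0 U f g 1) (hv : v oo = 1) (h2 : RelB U f g v a b t) :
    s1 (a 0) * ut U f g q v - ut U f g q v * s1 (b 0) =
      Pt U f g v * ((diagonal (dO N a (fun j => b (j + 1)) t) - diagonal (dO N a b t)) *
          Gt N U f g q -
        Gt N U f g q * (diagonal (dO N b (fun j => a (j + 1)) t) - diagonal (dO N b a t)) +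
        (diagonal (dO N a b t) * Gt N U f g q - Gt N U f g q * diagonal (dO N b a t))) *
      (rowO v)ᴴ := by
  have hq : (1 : Matrix Unit Unit R) - s1 U * (s1 U)ᴴ = s1 (1 - U * star U) := by
    rw [s1_star, ← s1_mul, s1_sub, s1_one]
  have hp : (1 : Matrix Unit Unit R) - (s1 U)ᴴ * s1 U = s1 (1 - star U * U) := by
    rw [s1_star, ← s1_mul, s1_sub, s1_one]
  have hle : ∀ i : Fin (N + 1), (i : ℕ) ≤ N := fun i => by omega
  have hlj : ∀ j : Fin N, (j : ℕ) + 1 ≤ N := fun j => by omega
  have hve : rowO v * (et R N)ᴴ = 1 := by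
    ext i j
    have h1 : ∀ x : Fin (N + 1), v (some (Sum.inl x)) * star (if x = 0 then (1 : R) else 0) =
        if x = 0 then v (some (Sum.inl x)) else 0 := by
      intro x
      by_cases hx : x = 0
      · simp [hx]
      · simp [hx]
    simp [rowO, et, Matrix.mul_apply, Matrix.conjTranspose_apply, h1]
    exact hv
  have key := chain_inter' (s1 U) (s1 (a 0)) (s1 (b 0)) (et R N) (rowO v) (Gt N U f g q)
    (Bt N U f g) (diagonal (dO N a (fun j => b (j + 1)) t))
    (diagonal (dO N b (fun j => a (j + 1)) t))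
    (diagonal (dO N a b t)) (diagonal (dO N b a t))
    (et_mul_Bt N U f g) (by rw [hp]; exact Bt_star_mul N h0) hve
    (by rw [← s1_mul, ← s1_mul, h2.U1 0 (Nat.zero_le _)])
    (by rw [s1_star, ← s1_mul, ← s1_mul, h2.U2 0 (Nat.zero_le _)])
    ?_ ?_ ?_ ?_
  · rw [hq] at key
    exact key
  · ext u x
    rw [Matrix.mul_diagonal, Matrix.mul_apply]
    simpa [s1, rowO] using h2.v1 x
  · ext x u
    rw [Matrix.diagonal_mul, Matrix.mul_apply]
    simpa [s1, rowO] using h2.v2 x
  · ext x y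
    rw [Matrix.diagonal_mul, Matrix.mul_diagonal, Matrix.conjTranspose_apply]
    rcases x with _ | (i | j) <;> rcases y with _ | (i' | j')
    · simp [Bt, dO]
    · simp [Bt]
    · simp [Bt]
    · simp [Bt]
    · by_cases hi : i' = i
      · subst hi
        simpa [Bt, Bm, dO] using h2.U2 i' (hle i')
      · simp [Bt, Bm, hi]
    · by_cases hi : i = j'.succ
      · subst hi
        simpa [Bt, Bm, dO, h0.gs] using h2.gg (j' + 1) (hlj j')
      · simp [Bt, Bm, hi]
    · simp [Bt]
    · by_cases hi : i' = j.succ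
      · subst hi
        simpa [Bt, Bm, dO, h0.fs] using h2.ff (j + 1) (hlj j)
      · simp [Bt, Bm, hi]
    · by_cases hi : j' = j
      · subst hi
        simpa [Bt, Bm, dO] using h2.U1 (j' + 1) (hlj j')
      · simp [Bt, Bm, hi]
  · ext u x
    rw [Matrix.mul_diagonal, Matrix.mul_apply]
    by_cases hx : x = oo
    · subst hx
      simp [s1, et, dO]
    · simp [s1, et, hx]

/-- The entries of the last term: it is supported in the slots `inl N`, `none`, where it is
`diag(a N, t) q - q diag(b N, t)`. -/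
theorem ct_defect {N : ℕ} {U f g : R} {q : Fin 2 → Fin 2 → R} {v : IdO N → R} {a b : ℕ → R} {t : R}
    (h0 : Rel0 U f g 1) (h2 : RelB U f g v a b t) (x y : IdO N) :
    (diagonal (dO N a b t) * Gt N U f g q - Gt N U f g q * diagonal (dO N b a t)) x y =
      match x, y with
      | none, none => t * q 1 1 - q 1 1 * t
      | none, some y => if y = Sum.inl (Fin.last N) then t * q 1 0 - q 1 0 * b N else 0
      | some x, none => if x = Sum.inl (Fin.last N) then a N * q 0 1 - q 0 1 * t else 0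
      | some x, some y => if x = Sum.inl (Fin.last N) ∧ y = Sum.inl (Fin.last N) then
          a N * q 0 0 - q 0 0 * b N else 0 := by
  have hle : ∀ i : Fin (N + 1), (i : ℕ) ≤ N := fun i => by omega
  have hlj : ∀ j : Fin N, (j : ℕ) ≤ N := fun j => by omega
  rw [Matrix.sub_apply, Matrix.diagonal_mul, Matrix.mul_diagonal]
  rcases x with _ | (i | j) <;> rcases y with _ | (i' | j')
  · simp [Gt, dO]
  · by_cases hi : i' = Fin.last N
    · subst hi
      simp [Gt, dO]
    · simp [Gt, dO, hi]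
  · simp [Gt]
  · by_cases hi : i = Fin.last N
    · subst hi
      simp [Gt, dO]
    · simp [Gt, dO, hi]
  · by_cases hi : i = i'
    · subst hi
      by_cases hl : i = Fin.last N
      · subst hl
        simp [Gt, Gm, dO]
      · have := h2.U1 i (hle i)
        simp [Gt, Gm, dO, hl, this]
    · by_cases hl : i = Fin.last N
      · subst hl
        have hi' : ¬ (i' = Fin.last N) := fun h => hi h.symm
        simp [Gt, Gm, hi, hi']
      · simp [Gt, Gm, hi, hl]
  · by_cases hi : i = j'.castSucc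
    · subst hi
      have := h2.ff j' (hlj j')
      simp [Gt, Gm, dO, this]
    · simp [Gt, Gm, hi]
  · simp [Gt]
  · by_cases hi : i' = j.castSucc
    · subst hi
      have := h2.gg j (hlj j)
      simp [Gt, Gm, dO, this]
    · simp [Gt, Gm, hi]
  · by_cases hi : j = j'
    · subst hi
      have := h2.U2 j (hlj j)
      simp [Gt, Gm, dO, this]
    · simp [Gt, Gm, hi]

end H7c
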