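import Pool.Agent.H.MP_47f0a1_an.CircI
import Pool.Agent.H.MP_47f0a1_an.ModelR

/-!
# Circular intertwiners between two homomorphisms with the same trace
-/

open MeasureTheory H47

namespace H7c

variable {A : Type} [Ring A] [StarRing A] [Algebra ℂ A] [StarModule ℂ A] {τ : A →ₗ[ℂ] ℂ}
  {K : Type} [NormedAddCommGroup K] [InnerProductSpace ℂ K] [CompleteSpace K]
  (M : FModel A τ K)
  {Z : Type} [MetricSpace Z] [CompactSpace Z] [MeasurableSpace Z] [BorelSpace Z]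
  {ν : Measure Z} [IsProbabilityMeasure ν]

/-- `(ℓ_{σ (2j)} + i ℓ_{σ (2j+1)})/√2`. -/
noncomputable def cga (σ : ℕ → ℕ) (j : ℕ) : K →L[ℂ] K :=
  (((Real.sqrt 2)⁻¹ : ℝ) : ℂ) • (M.ell (σ (2 * j)) + Complex.I • M.ell (σ (2 * j + 1)))

/-- `(ℓ_{σ (2j)} - i ℓ_{σ (2j+1)})/√2`. -/
noncomputable def cgb (σ : ℕ → ℕ) (j : ℕ) : K →L[ℂ] K :=
  (((Real.sqrt 2)⁻¹ : ℝ) : ℂ) • (M.ell (σ (2 * j)) - Complex.I • M.ell (σ (2 * j + 1)))

variable {S : Set ℕ} {σ : ℕ → ℕ} (hσ : Function.Injective σ) (hS : ∀ j, σ j ∉ S)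

include hσ hS

/-- The common computation behind `cga_cga`, `cgb_cgb` and `cgb_cga`. -/
theorem circg_aux (c ε η : ℂ) (i j : ℕ) (x : K →L[ℂ] K) (hx : x ∈ M.E S) :
    star (c • (M.ell (σ (2 * i)) + ε • M.ell (σ (2 * i + 1)))) * x *
      (c • (M.ell (σ (2 * j)) + η • M.ell (σ (2 * j + 1)))) =
    if i = j then algebraMap ℂ (K →L[ℂ] K) (star c * c * (1 + star ε * η) * M.st x) else 0 := by
  have e1 : ∀ p q : ℕ, σ p = σ q ↔ p = q := fun p q => hσ.eq_iff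
  have h1 : star (M.ell (σ (2 * i))) * x * M.ell (σ (2 * j + 1)) = 0 := by
    rw [M.compress S _ _ (hS _) (hS _) x hx, if_neg (by rw [e1]; omega)]
  have h2 : star (M.ell (σ (2 * i + 1))) * x * M.ell (σ (2 * j)) = 0 := by
    rw [M.compress S _ _ (hS _) (hS _) x hx, if_neg (by rw [e1]; omega)]
  rw [star_smul, star_add, star_smul]
  simp only [smul_mul_assoc, mul_smul_comm, add_mul, mul_add, smul_add, h1, h2, smul_zero,
    add_zero, zero_add]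
  rw [M.compress S _ _ (hS _) (hS _) x hx, M.compress S _ _ (hS _) (hS _) x hx]
  by_cases h : i = j
  · subst h
    rw [if_pos rfl, if_pos rfl, if_pos rfl]
    simp only [Algebra.algebraMap_eq_smul_one, smul_smul, ← add_smul]
    congr 1
    ring
  · rw [if_neg (by rw [e1]; omega), if_neg (by rw [e1]; omega), if_neg h]
    simp only [smul_zero, add_zero]

/-- `a_i* x a_j = δ st x` for `x ∈ E S`. From `FModel.compress`, as in `circT_aux`, `ca_ca`. -/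
theorem cga_cga (i j : ℕ) (x : K →L[ℂ] K) (hx : x ∈ M.E S) :
    star (cga M σ i) * x * cga M σ j =
      if i = j then algebraMap ℂ (K →L[ℂ] K) (M.st x) else 0 := by
  have h := circg_aux M hσ hS (((Real.sqrt 2)⁻¹ : ℝ) : ℂ) Complex.I Complex.I i j x hx
  rw [FModel.circT_sq] at h
  have h2 : (1 / 2 : ℂ) * (1 + star Complex.I * Complex.I) * M.st x = M.st x := by
    rw [RCLike.star_def, Complex.conj_I, neg_mul, Complex.I_mul_I]
    ring
  rw [h2] at h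
  exact h

theorem cgb_cgb (i j : ℕ) (x : K →L[ℂ] K) (hx : x ∈ M.E S) :
    star (cgb M σ i) * x * cgb M σ j =
      if i = j then algebraMap ℂ (K →L[ℂ] K) (M.st x) else 0 := by
  have h := circg_aux M hσ hS (((Real.sqrt 2)⁻¹ : ℝ) : ℂ) (-Complex.I) (-Complex.I) i j x hx
  rw [FModel.circT_sq] at h
  have h2 : (1 / 2 : ℂ) * (1 + star (-Complex.I) * (-Complex.I)) * M.st x = M.st x := by
    rw [star_neg, RCLike.star_def, Complex.conj_I, neg_neg, mul_neg, Complex.I_mul_I]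
    ring
  rw [h2] at h
  simp only [neg_smul, ← sub_eq_add_neg] at h
  exact h

theorem cgb_cga (i j : ℕ) (x : K →L[ℂ] K) (hx : x ∈ M.E S) :
    star (cgb M σ i) * x * cga M σ j = 0 := by
  have h := circg_aux M hσ hS (((Real.sqrt 2)⁻¹ : ℝ) : ℂ) (-Complex.I) Complex.I i j x hx
  have h2 : (1 + star (-Complex.I) * Complex.I) = 0 := by
    rw [star_neg, RCLike.star_def, Complex.conj_I, neg_neg, Complex.I_mul_I]
    ring
  rw [h2, mul_zero, zero_mul, map_zero, ite_self] at h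
  simp only [neg_smul, ← sub_eq_add_neg] at h
  exact h

omit hσ in
/-- From `FModel.kill`. -/
theorem cga_kill (j : ℕ) (x : K →L[ℂ] K) (hx : x ∈ M.E S) :
    star (cga M σ j) (x M.Om) = 0 ∧ star (cgb M σ j) (x M.Om) = 0 := by
  constructor
  · have h0 : star (cga M σ j) = (starRingEnd ℂ) (((Real.sqrt 2)⁻¹ : ℝ) : ℂ) •
        (star (M.ell (σ (2 * j))) + (starRingEnd ℂ) Complex.I • star (M.ell (σ (2 * j + 1)))) := by
      rw [cga, star_smul, star_add, star_smul]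
      rfl
    rw [h0]
    simp only [smul_apply, add_apply, M.kill S _ (hS _) x hx, smul_zero, add_zero]
  · have h0 : star (cgb M σ j) = (starRingEnd ℂ) (((Real.sqrt 2)⁻¹ : ℝ) : ℂ) •
        (star (M.ell (σ (2 * j))) - (starRingEnd ℂ) Complex.I • star (M.ell (σ (2 * j + 1)))) := by
      rw [cgb, star_smul, star_sub, star_smul]
      rfl
    rw [h0]
    simp only [smul_apply, sub_apply, M.kill S _ (hS _) x hx, smul_zero, sub_zero]

omit hσ hS in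
theorem circg_add (j : ℕ) : cga M σ j + star (cgb M σ j) =
    (((Real.sqrt 2)⁻¹ : ℝ) : ℂ) • (M.s (σ (2 * j)) + Complex.I • M.s (σ (2 * j + 1))) := by
  rw [cga, cgb, star_smul, star_sub, star_smul, RCLike.star_def, Complex.conj_ofReal,
    Complex.conj_I, neg_smul, sub_neg_eq_add]
  simp only [FModel.s, smul_add]
  abel

omit hσ hS [MeasurableSpace Z] [BorelSpace Z] in
/-- As `sum_inc_le`, for any star homomorphism. -/
theorem circg_sum_le {ι : Type*} [Fintype ι] (ψ : C(Z, ℂ) →⋆ₐ[ℂ] (K →L[ℂ] K)) (b : ι → C(Z, ℂ))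
    (C : ℝ) (hb : ∀ x, ∑ j, ‖b j x‖ ^ 2 ≤ C ^ 2) (ξ : K) :
    ∑ j, ‖ψ (b j) ξ‖ ^ 2 ≤ C ^ 2 * ‖ξ‖ ^ 2 := by
  have incSum_norm_sq : ∀ (x : K →L[ℂ] K) (ξ : K),
      ((‖x ξ‖ ^ 2 : ℝ) : ℂ) = inner ℂ ξ ((star x * x) ξ) := by
    intro x ξ
    rw [mul_apply_eq_comp, ContinuousLinearMap.star_eq_adjoint,
      ContinuousLinearMap.adjoint_inner_right, inner_self_eq_norm_sq_to_K]
    norm_cast
  obtain ⟨c, hc⟩ : ∃ c : C(Z, ℂ), ∀ x, c x = ((Real.sqrt (C ^ 2 - ∑ j, ‖b j x‖ ^ 2) : ℝ) : ℂ) :=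
    ⟨⟨fun x => ((Real.sqrt (C ^ 2 - ∑ j, ‖b j x‖ ^ 2) : ℝ) : ℂ), by fun_prop⟩, fun _ => rfl⟩
  have h1 : star c * c + ∑ j, star (b j) * b j = algebraMap ℂ C(Z, ℂ) ((C ^ 2 : ℝ) : ℂ) := by
    ext x
    have h2 : (star c * c) x = ((C ^ 2 - ∑ j, ‖b j x‖ ^ 2 : ℝ) : ℂ) := by
      rw [ContinuousMap.mul_apply, ContinuousMap.star_apply, hc x]
      have h3 : 0 ≤ C ^ 2 - ∑ j, ‖b j x‖ ^ 2 := sub_nonneg.2 (hb x)
      rw [RCLike.star_def, Complex.conj_ofReal, ← Complex.ofReal_mul, Real.mul_self_sqrt h3]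
    have h4 : ∀ j, (star (b j) * b j) x = ((‖b j x‖ ^ 2 : ℝ) : ℂ) := by
      intro j
      rw [ContinuousMap.mul_apply, ContinuousMap.star_apply, RCLike.star_def,
        ← Complex.normSq_eq_conj_mul_self, Complex.normSq_eq_norm_sq]
    have h5 : (algebraMap ℂ C(Z, ℂ) ((C ^ 2 : ℝ) : ℂ)) x = ((C ^ 2 : ℝ) : ℂ) := rfl
    rw [ContinuousMap.add_apply, ContinuousMap.sum_apply, h2, Finset.sum_congr rfl fun j _ => h4 j,
      h5]
    push_cast
    ring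
  have h2 := congrArg ψ h1
  rw [map_add, map_sum, map_mul, map_star] at h2
  have h3 : ((‖ψ c ξ‖ ^ 2 + ∑ j, ‖ψ (b j) ξ‖ ^ 2 : ℝ) : ℂ) =
      ((C ^ 2 * ‖ξ‖ ^ 2 : ℝ) : ℂ) := by
    have h4 : inner ℂ ξ ((star (ψ c) * ψ c + ∑ j, ψ (star (b j) * b j)) ξ) =
        inner ℂ ξ ((ψ (algebraMap ℂ C(Z, ℂ) ((C ^ 2 : ℝ) : ℂ))) ξ) := by rw [h2]
    rw [add_apply, inner_add_right, sum_apply,
      inner_sum] at h4
    rw [Complex.ofReal_add, Complex.ofReal_sum, incSum_norm_sq]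
    have h5 : ∀ j, (((‖ψ (b j) ξ‖ ^ 2 : ℝ)) : ℂ) = inner ℂ ξ ((ψ (star (b j) * b j)) ξ) := by
      intro j
      rw [incSum_norm_sq, map_mul, map_star]
    rw [Finset.sum_congr rfl fun j _ => h5 j, h4, AlgHomClass.commutes]
    rw [Algebra.algebraMap_eq_smul_one, smul_apply,
      one_apply_eq_self, inner_smul_right, inner_self_eq_norm_sq_to_K]
    push_cast
    rfl
  have h4 := Complex.ofReal_injective h3
  have h5 := sq_nonneg ‖ψ c ξ‖
  linarith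

omit hσ hS in
/-- As `norm_inc_Om_sq`. -/
theorem circg_norm_Om_sq (φ : C(Z, ℂ) →⋆ₐ[ℂ] (K →L[ℂ] K)) (tφ : ∀ f, M.st (φ f) = intL ν f)
    (a : C(Z, ℂ)) : ‖φ a M.Om‖ ^ 2 = (intL ν (star a * a)).re := by
  rw [← tφ (star a * a), map_mul, map_star, M.st_star_mul, Complex.ofReal_re]

omit hσ hS in
/-- As `circI_coef`. -/
theorem circg_coef (φ : C(Z, ℂ) →⋆ₐ[ℂ] (K →L[ℂ] K)) (tφ : ∀ f, M.st (φ f) = intL ν f)
    (m : ℝ) (hm : 0 < m) (g : C(Z, ℂ)) (hg : intL ν (star g * g) = m) :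
    M.st (star ((((Real.sqrt m)⁻¹ : ℝ) : ℂ) • φ g) * ((((Real.sqrt m)⁻¹ : ℝ) : ℂ) • φ g))
      = 1 := by
  have h1 : star ((((Real.sqrt m)⁻¹ : ℝ) : ℂ) • φ g) * ((((Real.sqrt m)⁻¹ : ℝ) : ℂ) • φ g) =
      ((((Real.sqrt m)⁻¹ : ℝ) : ℂ) * (((Real.sqrt m)⁻¹ : ℝ) : ℂ)) • φ (star g * g) := by
    rw [star_smul, smul_mul_smul_comm, map_mul, map_star, Complex.star_def, Complex.conj_ofReal]
  rw [h1, map_smul, tφ, hg, smul_eq_mul, ← Complex.ofReal_mul, ← Complex.ofReal_mul,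
    ← mul_inv, Real.mul_self_sqrt hm.le, inv_mul_cancel₀ hm.ne', Complex.ofReal_one]

omit hσ hS in
/-- The sum `∑ m_j^{-1/2} φ (a_j) c_j ψ (b_j)`, `c_j = cga j + star (cgb j)`. -/
noncomputable def cgT {n : ℕ} (σ : ℕ → ℕ) (m : Fin n → ℝ) (φ ψ : C(Z, ℂ) →⋆ₐ[ℂ] (K →L[ℂ] K))
    (a b : Fin n → C(Z, ℂ)) : K →L[ℂ] K :=
  ∑ j, (((Real.sqrt (m j))⁻¹ : ℝ) : ℂ) •
    (φ (a j) * (cga M σ j + star (cgb M σ j)) * ψ (b j))

variable (φ ψ : C(Z, ℂ) →⋆ₐ[ℂ] (K →L[ℂ] K)) (hφ : ∀ f, φ f ∈ M.E S) (hψ : ∀ f, ψ f ∈ M.E S)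
  (tφ : ∀ f, M.st (φ f) = intL ν f) (tψ : ∀ f, M.st (ψ f) = intL ν f)

include hφ hψ tφ tψ

/-- Norm bound, as in `norm_cT_le` (`cre_norm_le` with `B = M.E S`; `∑ ‖ψ (b_j) ξ‖² ≤ Cb² ‖ξ‖²`
because `∑ ψ (b_j)* ψ (b_j) = ψ (∑ |b_j|²)`). -/
theorem norm_cgT_le {n : ℕ} (m : Fin n → ℝ) (hm : ∀ j, 0 < m j) (a b : Fin n → C(Z, ℂ))
    (Ca Cb : ℝ) (hCa : 0 ≤ Ca) (hCb : 0 ≤ Cb)
    (ha : ∀ j, (intL ν (star (a j) * a j)).re ≤ Ca ^ 2 * m j)
    (hb : ∀ j, (intL ν (star (b j) * b j)).re ≤ Cb ^ 2 * m j)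
    (ha' : ∀ x, ∑ j, ‖a j x‖ ^ 2 ≤ Ca ^ 2) (hb' : ∀ x, ∑ j, ‖b j x‖ ^ 2 ≤ Cb ^ 2) :
    ‖cgT M σ m φ ψ a b‖ ≤ 2 * (Ca * Cb) := by
  have hsq : ∀ j, ‖(((Real.sqrt (m j))⁻¹ : ℝ) : ℂ)‖ ^ 2 = (m j)⁻¹ := by
    intro j
    rw [Complex.norm_real, Real.norm_eq_abs, sq_abs, inv_pow, Real.sq_sqrt (hm j).le]
  have hst : ∀ j, star (((Real.sqrt (m j))⁻¹ : ℝ) : ℂ) = (((Real.sqrt (m j))⁻¹ : ℝ) : ℂ) := by
    intro j
    rw [RCLike.star_def, Complex.conj_ofReal]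
  -- compression hypotheses
  have hca : ∀ s t : Fin n, ∀ x ∈ M.E S, star (cga M σ s) * x * cga M σ t =
      if s = t then algebraMap ℂ (K →L[ℂ] K) (inner ℂ M.Om (x M.Om)) else 0 := by
    intro s t x hx
    have h := cga_cga M hσ hS s t x hx
    simp only [Fin.val_inj] at h
    exact h
  have hcb : ∀ s t : Fin n, ∀ x ∈ M.E S, star (cgb M σ s) * x * cgb M σ t =
      if s = t then algebraMap ℂ (K →L[ℂ] K) (inner ℂ M.Om (x M.Om)) else 0 := by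
    intro s t x hx
    have h := cgb_cgb M hσ hS s t x hx
    simp only [Fin.val_inj] at h
    exact h
  have hmemφ : ∀ (c : ℂ) (y : C(Z, ℂ)), c • φ y ∈ M.E S := fun c y =>
    SMulMemClass.smul_mem _ (hφ y)
  have hmemψ : ∀ (c : ℂ) (y : C(Z, ℂ)), c • ψ y ∈ M.E S := fun c y =>
    SMulMemClass.smul_mem _ (hψ y)
  have hnormφ : ∀ (j : Fin n) (y : C(Z, ℂ)),
      ‖((((Real.sqrt (m j))⁻¹ : ℝ) : ℂ) • φ y) M.Om‖ ^ 2 =
        (m j)⁻¹ * (intL ν (star y * y)).re := by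
    intro j y
    have h : ((((Real.sqrt (m j))⁻¹ : ℝ) : ℂ) • φ y) M.Om =
        (((Real.sqrt (m j))⁻¹ : ℝ) : ℂ) • (φ y M.Om) := rfl
    rw [h, norm_smul, mul_pow, hsq, circg_norm_Om_sq M φ tφ]
  have hnormψ : ∀ (j : Fin n) (y : C(Z, ℂ)),
      ‖((((Real.sqrt (m j))⁻¹ : ℝ) : ℂ) • ψ y) M.Om‖ ^ 2 =
        (m j)⁻¹ * (intL ν (star y * y)).re := by
    intro j y
    have h : ((((Real.sqrt (m j))⁻¹ : ℝ) : ℂ) • ψ y) M.Om =
        (((Real.sqrt (m j))⁻¹ : ℝ) : ℂ) • (ψ y M.Om) := rfl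
    rw [h, norm_smul, mul_pow, hsq, circg_norm_Om_sq M ψ tψ]
  -- the first sum
  have h1 := (cre_norm_le (M.E S) M.Om (fun j : Fin n => cga M σ j) hca
    (fun j => (((Real.sqrt (m j))⁻¹ : ℝ) : ℂ) • φ (a j))
    (fun j => ψ (b j)) (fun j => hmemφ _ _) (Ca * Cb) (mul_nonneg hCa hCb) (by
      intro ξ
      have e1 : ∀ j ∈ Finset.univ, ‖((((Real.sqrt (m j))⁻¹ : ℝ) : ℂ) •
          φ (a j)) M.Om‖ ^ 2 * ‖ψ (b j) ξ‖ ^ 2 ≤
          Ca ^ 2 * ‖ψ (b j) ξ‖ ^ 2 := by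
        intro j _
        refine mul_le_mul_of_nonneg_right ?_ (sq_nonneg _)
        rw [hnormφ, inv_mul_le_iff₀ (hm j), mul_comm (m j)]
        exact ha j
      refine (Finset.sum_le_sum e1).trans ?_
      rw [← Finset.mul_sum, mul_pow, mul_assoc]
      exact mul_le_mul_of_nonneg_left (circg_sum_le ψ b Cb hb' ξ) (sq_nonneg _))).1
  -- the second sum
  have h2 := (cre_norm_le (M.E S) M.Om (fun j : Fin n => cgb M σ j) hcb
    (fun j => (((Real.sqrt (m j))⁻¹ : ℝ) : ℂ) • ψ (star (b j)))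
    (fun j => φ (star (a j))) (fun j => hmemψ _ _) (Ca * Cb)
    (mul_nonneg hCa hCb) (by
      intro ξ
      have e1 : ∀ j ∈ Finset.univ, ‖((((Real.sqrt (m j))⁻¹ : ℝ) : ℂ) •
          ψ (star (b j))) M.Om‖ ^ 2 * ‖φ (star (a j)) ξ‖ ^ 2 ≤
          Cb ^ 2 * ‖φ (star (a j)) ξ‖ ^ 2 := by
        intro j _
        refine mul_le_mul_of_nonneg_right ?_ (sq_nonneg _)
        rw [hnormψ, star_star, mul_comm (b j), inv_mul_le_iff₀ (hm j), mul_comm (m j)]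
        exact hb j
      refine (Finset.sum_le_sum e1).trans ?_
      rw [← Finset.mul_sum, mul_comm Ca Cb, mul_pow, mul_assoc]
      refine mul_le_mul_of_nonneg_left (circg_sum_le φ (fun j => star (a j)) Ca ?_ ξ)
        (sq_nonneg _)
      intro x
      have e3 : ∀ j, ‖(star (a j)) x‖ = ‖a j x‖ := fun j => by
        rw [ContinuousMap.star_apply, norm_star]
      simp only [e3]
      exact ha' x)).2
  have h3 : cgT M σ m φ ψ a b =
      (∑ j : Fin n, ((((Real.sqrt (m j))⁻¹ : ℝ) : ℂ) • φ (a j)) * cga M σ j *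
        ψ (b j)) +
      ∑ j : Fin n, star (φ (star (a j))) * star (cgb M σ j) *
        star ((((Real.sqrt (m j))⁻¹ : ℝ) : ℂ) • ψ (star (b j))) := by
    rw [cgT, ← Finset.sum_add_distrib]
    refine Finset.sum_congr rfl fun j _ => ?_
    rw [star_smul, hst, ← map_star, ← map_star, star_star, star_star]
    simp only [smul_mul_assoc, mul_smul_comm, mul_add, add_mul, smul_add]
  rw [h3]
  refine (norm_add_le _ _).trans ?_
  rw [two_mul]
  exact add_le_add h1 h2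

/-- As `isCirc_cT`. -/
theorem isCirc_cgT {F : Finset C(Z, ℂ)} {ε : ℝ} (P : Part ν F ε) :
    IsCirc M.Om (cgT M σ P.m φ ψ P.h P.h) := by
  classical
  have hm1 : ∀ j, intL ν (star (P.h j) * P.h j) = P.m j := fun j => by
    rw [P.sa j, P.mass j]
  let c : Fin P.n → ℂ := fun j => (((Real.sqrt (P.m j))⁻¹ : ℝ) : ℂ)
  have hc : ∀ j, c j = (((Real.sqrt (P.m j))⁻¹ : ℝ) : ℂ) := fun j => rfl
  have hcs : ∀ j, star (c j) = c j := fun j => by
    rw [hc, Complex.star_def, Complex.conj_ofReal]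
  let L : K →L[ℂ] K := ∑ j : Fin P.n, (c j • φ (P.h j)) * cga M σ j * ψ (P.h j)
  let R : K →L[ℂ] K := ∑ j : Fin P.n, (c j • ψ (P.h j)) * cgb M σ j * φ (P.h j)
  have hL : L = ∑ j : Fin P.n, (c j • φ (P.h j)) * cga M σ j * ψ (P.h j) := rfl
  have hR : R = ∑ j : Fin P.n, (c j • ψ (P.h j)) * cgb M σ j * φ (P.h j) := rfl
  have hmemφ : ∀ (c : ℂ) (y : C(Z, ℂ)), c • φ y ∈ M.E S := fun c y =>
    SMulMemClass.smul_mem _ (hφ y)
  have hmemψ : ∀ (c : ℂ) (y : C(Z, ℂ)), c • ψ y ∈ M.E S := fun c y =>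
    SMulMemClass.smul_mem _ (hψ y)
  have hLs : star L = ∑ j : Fin P.n, ψ (P.h j) * star (cga M σ j) *
      (c j • φ (P.h j)) := by
    rw [hL, star_sum]
    refine Finset.sum_congr rfl fun j _ => ?_
    rw [star_mul, star_mul, star_smul, ← map_star, ← map_star, P.sa j, hcs, mul_assoc]
  have hRs : star R = ∑ j : Fin P.n, φ (P.h j) * star (cgb M σ j) *
      (c j • ψ (P.h j)) := by
    rw [hR, star_sum]
    refine Finset.sum_congr rfl fun j _ => ?_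
    rw [star_mul, star_mul, star_smul, ← map_star, ← map_star, P.sa j, hcs, mul_assoc]
  have hfa : ∀ s t : Fin P.n, ∀ x ∈ M.E S, star (cga M σ s) * x * cga M σ t =
      if s = t then algebraMap ℂ (K →L[ℂ] K) (M.st x) else 0 := by
    intro s t x hx
    have h := cga_cga M hσ hS s t x hx
    simp only [Fin.val_inj] at h
    exact h
  have hfb : ∀ s t : Fin P.n, ∀ x ∈ M.E S, star (cgb M σ s) * x * cgb M σ t =
      if s = t then algebraMap ℂ (K →L[ℂ] K) (M.st x) else 0 := by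
    intro s t x hx
    have h := cgb_cgb M hσ hS s t x hx
    simp only [Fin.val_inj] at h
    exact h
  refine ⟨L, R, ?_, ?_, ?_, ?_, ?_, ?_⟩
  · rw [hL, hRs, cgT, ← Finset.sum_add_distrib]
    refine Finset.sum_congr rfl fun j _ => ?_
    rw [← hc, mul_add, add_mul, smul_add, smul_mul_assoc, smul_mul_assoc, mul_smul_comm]
  · rw [hL, cre_mul (M.E S) M.st (fun j : Fin P.n => cga M σ j) (fun j : Fin P.n => cga M σ j)
      hfa (fun j => c j • φ (P.h j)) (fun j => ψ (P.h j)) (fun j => c j • φ (P.h j))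
      (fun j => ψ (P.h j)) (fun j => hmemφ _ _) (fun j => hmemφ _ _)]
    have h1 : ∀ j : Fin P.n, M.st (star (c j • φ (P.h j)) *
        (c j • φ (P.h j))) • (star (ψ (P.h j)) * ψ (P.h j)) =
        ψ (P.h j * P.h j) := by
      intro j
      rw [hc, circg_coef M φ tφ (P.m j) (P.pos j) _ (hm1 j), one_smul, ← map_star, P.sa j,
        map_mul]
    rw [Finset.sum_congr rfl fun j _ => h1 j, ← map_sum, P.sum, map_one]
  · rw [hR, cre_mul (M.E S) M.st (fun j : Fin P.n => cgb M σ j) (fun j : Fin P.n => cgb M σ j)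
      hfb (fun j => c j • ψ (P.h j)) (fun j => φ (P.h j)) (fun j => c j • ψ (P.h j))
      (fun j => φ (P.h j)) (fun j => hmemψ _ _) (fun j => hmemψ _ _)]
    have h1 : ∀ j : Fin P.n, M.st (star (c j • ψ (P.h j)) *
        (c j • ψ (P.h j))) • (star (φ (P.h j)) * φ (P.h j)) =
        φ (P.h j * P.h j) := by
      intro j
      rw [hc, circg_coef M ψ tψ (P.m j) (P.pos j) _ (hm1 j), one_smul, ← map_star, P.sa j,
        map_mul]
    rw [Finset.sum_congr rfl fun j _ => h1 j, ← map_sum, P.sum, map_one]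
  · rw [hL, hR]
    refine cre_mul_zero (M.E S) (fun j : Fin P.n => cgb M σ j) (fun j : Fin P.n => cga M σ j) ?_
      (fun j => c j • ψ (P.h j)) (fun j => φ (P.h j))
      (fun j => c j • φ (P.h j)) (fun j => ψ (P.h j))
      (fun j => hmemψ _ _) (fun j => hmemφ _ _)
    intro s t x hx
    exact cgb_cga M hσ hS s t x hx
  · rw [hLs, sum_apply]
    refine Finset.sum_eq_zero fun j _ => ?_
    rw [mul_smul_comm, smul_apply, mul_apply_eq_comp, mul_apply_eq_comp,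
      (cga_kill M hS j _ (hφ _)).1, map_zero, smul_zero]
  · rw [hRs, sum_apply]
    refine Finset.sum_eq_zero fun j _ => ?_
    rw [mul_smul_comm, smul_apply, mul_apply_eq_comp, mul_apply_eq_comp,
      (cga_kill M hS j _ (hψ _)).2, map_zero, smul_zero]

omit hσ hS tφ tψ in
theorem cgT_mem {n : ℕ} (σ : ℕ → ℕ) (m : Fin n → ℝ) (a b : Fin n → C(Z, ℂ)) :
    cgT M σ m φ ψ a b ∈ M.E Set.univ := by
  have hle : M.E S ≤ M.E Set.univ := M.E_mono (Set.subset_univ S)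
  rw [cgT]
  refine sum_mem fun j _ => ?_
  refine SMulMemClass.smul_mem _ (mul_mem (mul_mem (hle (hφ _)) ?_) (hle (hψ _)))
  rw [circg_add]
  exact SMulMemClass.smul_mem _ (add_mem (M.s_mem _ _ (Set.mem_univ _))
    (SMulMemClass.smul_mem _ (M.s_mem _ _ (Set.mem_univ _))))

/-- As `exists_T`. -/
theorem exists_TG [ν.IsOpenPosMeasure] (F : Finset C(Z, ℂ)) (ε : ℝ) (hε : 0 < ε) :
    ∃ T : K →L[ℂ] K, T ∈ M.E Set.univ ∧ IsCirc M.Om T ∧
      ∀ a ∈ F, ‖φ a * T - T * ψ a‖ ≤ ε := by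
  classical
  obtain ⟨P⟩ := exists_part ν F (ε / 4) (by positivity)
  refine ⟨cgT M σ P.m φ ψ P.h P.h, cgT_mem M φ ψ hφ hψ σ P.m P.h P.h,
    isCirc_cgT M hσ hS φ ψ hφ hψ tφ tψ P, ?_⟩
  intro a ha
  let k : Fin P.n → C(Z, ℂ) := fun j => a * P.h j - a (P.z j) • P.h j
  have hk : ∀ j, k j = a * P.h j - a (P.z j) • P.h j := fun j => rfl
  have hkx : ∀ j x, ‖k j x‖ ≤ ε / 4 * ‖P.h j x‖ := by
    intro j x
    have h1 : k j x = (a x - a (P.z j)) * P.h j x := by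
      rw [hk]
      simp only [ContinuousMap.sub_apply, ContinuousMap.mul_apply, ContinuousMap.smul_apply,
        smul_eq_mul]
      ring
    rw [h1]
    exact P.osc a ha j x
  have hkx2 : ∀ j x, ‖k j x‖ ^ 2 ≤ (ε / 4) ^ 2 * ‖P.h j x‖ ^ 2 := by
    intro j x
    have h1 := pow_le_pow_left₀ (norm_nonneg _) (hkx j x) 2
    rwa [mul_pow] at h1
  have hmh : ∀ j, ∫ x, ‖P.h j x‖ ^ 2 ∂ν = P.m j := by
    intro j
    have h1 := base_intL_star_mul ν (P.h j)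
    rw [P.sa j, P.mass j] at h1
    exact_mod_cast h1.symm
  have hint : ∀ g : C(Z, ℂ), Integrable (fun x => ‖g x‖ ^ 2) ν := by
    intro g
    have hcont : Continuous fun x => ‖g x‖ ^ 2 := (g.continuous.norm).pow 2
    exact BoundedContinuousFunction.integrable ν
      (BoundedContinuousFunction.mkOfCompact ⟨fun x => ‖g x‖ ^ 2, hcont⟩)
  have hkm : ∀ j, (intL ν (star (k j) * k j)).re ≤ (ε / 4) ^ 2 * P.m j := by
    intro j
    rw [base_intL_star_mul, Complex.ofReal_re, ← hmh j, ← integral_const_mul]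
    exact integral_mono (hint _) ((hint _).const_mul _) (hkx2 j)
  have hhm : ∀ j, (intL ν (star (P.h j) * P.h j)).re ≤ 1 ^ 2 * P.m j := by
    intro j
    rw [base_intL_star_mul, Complex.ofReal_re, hmh j, one_pow, one_mul]
  have hks : ∀ x, ∑ j, ‖k j x‖ ^ 2 ≤ (ε / 4) ^ 2 := by
    intro x
    calc ∑ j, ‖k j x‖ ^ 2 ≤ ∑ j, (ε / 4) ^ 2 * ‖P.h j x‖ ^ 2 :=
          Finset.sum_le_sum fun j _ => hkx2 j x
      _ = (ε / 4) ^ 2 := by rw [← Finset.mul_sum, FModel.circI_sum_sq P x, mul_one]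
  have hhs : ∀ x, ∑ j, ‖P.h j x‖ ^ 2 ≤ 1 ^ 2 := by
    intro x
    rw [FModel.circI_sum_sq P x, one_pow]
  have e4 : 0 ≤ ε / 4 := by positivity
  have n1 := norm_cgT_le M hσ hS φ ψ hφ hψ tφ tψ P.m P.pos k P.h (ε / 4) 1 e4 zero_le_one
    hkm hhm hks hhs
  have n2 := norm_cgT_le M hσ hS φ ψ hφ hψ tφ tψ P.m P.pos P.h k 1 (ε / 4) zero_le_one e4
    hhm hkm hhs hks
  have key : φ a * cgT M σ P.m φ ψ P.h P.h - cgT M σ P.m φ ψ P.h P.h * ψ a =
      cgT M σ P.m φ ψ k P.h - cgT M σ P.m φ ψ P.h k := by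
    rw [cgT, cgT, cgT, Finset.mul_sum, Finset.sum_mul, ← Finset.sum_sub_distrib,
      ← Finset.sum_sub_distrib]
    refine Finset.sum_congr rfl fun j _ => ?_
    have h1 : φ (k j) = φ a * φ (P.h j) - a (P.z j) • φ (P.h j) := by
      rw [hk, map_sub, map_mul, map_smul]
    have h2 : ψ (k j) = ψ (P.h j) * ψ a - a (P.z j) • ψ (P.h j) := by
      rw [hk, mul_comm a, map_sub, map_mul, map_smul]
    rw [h1, h2, mul_smul_comm, smul_mul_assoc, ← smul_sub, ← smul_sub]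
    congr 1
    rw [sub_mul, sub_mul, mul_sub, smul_mul_assoc, smul_mul_assoc, mul_smul_comm]
    simp only [mul_assoc]
    abel
  rw [key]
  calc ‖cgT M σ P.m φ ψ k P.h - cgT M σ P.m φ ψ P.h k‖ ≤ ‖cgT M σ P.m φ ψ k P.h‖ +
        ‖cgT M σ P.m φ ψ P.h k‖ := norm_sub_le _ _
    _ ≤ 2 * (ε / 4 * 1) + 2 * (1 * (ε / 4)) := add_le_add n1 n2
    _ = ε := by ring

end H7c
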