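import Pool.Agent.H.MP_7b4a29_c.Row

/-!
# Composition of rows
-/

open Filter Topology

namespace H7c

variable {I : Ix} {S N : Sz I} {P : Type} [CStarAlgebra P]

section rowc

variable {ι κ : Type} [Fintype ι] [DecidableEq ι] [Fintype κ] [DecidableEq κ]

/-- Norm bound for composite rows. -/
theorem rowc_comp_norm (z : κ → P) (x : ι → P) (C D : ℝ) (hC : 0 ≤ C)
    (hz : ‖∑ i, z i * star (z i)‖ ≤ C ^ 2) (hx : ‖∑ i, x i * star (x i)‖ ≤ D ^ 2) :
    ‖∑ p : ι × κ, (z p.2 * x p.1) * star (z p.2 * x p.1)‖ ≤ (C * D) ^ 2 := by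
  have h1 := MM.norm_sand_le
    (MM.of (fun i j : κ => if i = j then (∑ s, x s * star (x s)) else 0)) z z C C hC hC hz hz
  have h2 := MM.norm_diag_le (fun _ : κ => ∑ s, x s * star (x s)) (D ^ 2) (by positivity)
    (fun _ => hx)
  have e : ∑ p : ι × κ, (z p.2 * x p.1) * star (z p.2 * x p.1) =
      ∑ i, ∑ j, z i * MM.e (MM.of (fun i j : κ => if i = j then (∑ s, x s * star (x s)) else 0))
        i j * star (z j) := by
    simp only [MM.e_of]
    rw [Fintype.sum_prod_type, Finset.sum_comm]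
    refine Finset.sum_congr rfl fun i _ => ?_
    rw [Finset.sum_eq_single i]
    · rw [if_pos rfl, Finset.mul_sum, Finset.sum_mul]
      refine Finset.sum_congr rfl fun s _ => ?_
      rw [star_mul]
      simp only [mul_assoc]
    · intro j _ hj
      rw [if_neg (Ne.symm hj), mul_zero, zero_mul]
    · intro h
      exact absurd (Finset.mem_univ _) h
  rw [e]
  refine h1.trans ?_
  calc C * C * ‖MM.of (fun i j : κ => if i = j then (∑ s, x s * star (x s)) else 0)‖
      ≤ C * C * D ^ 2 := mul_le_mul_of_nonneg_left h2 (by positivity)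
    _ = (C * D) ^ 2 := by ring

theorem rowc_e_amp_scl (a : MM ι P) (x : MM κ ℂ) (p q : ι × κ) :
    MM.e (MM.amp κ a * MM.scl ι P x) p q =
      MM.e a p.1 q.1 * algebraMap ℂ P (MM.e x p.2 q.2) := by
  rw [MM.e_mul, Finset.sum_eq_single (q.1, p.2)]
  · rw [MM.e_amp, MM.e_scl, if_pos rfl, if_pos rfl]
  · intro r _ hr
    rw [MM.e_amp, MM.e_scl]
    by_cases h2 : p.2 = r.2
    · by_cases h3 : r.1 = q.1
      · exact absurd (Prod.ext h3 h2.symm : r = (q.1, p.2)) hr
      · rw [if_neg h3, mul_zero]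
    · rw [if_neg h2, zero_mul]
  · intro h
    exact absurd (Finset.mem_univ _) h

theorem rowc_e_uno (b : P) (i j : Unit) : MM.e (MM.uno P b) i j = b := MM.e_of _ _ _

theorem rowc_sandL_apply (x y : ι → P) (a : MM ι P) :
    sandL x y a = ∑ i, ∑ j, x i * MM.e a i j * star (y j) := rfl

theorem rowc_sum3 (g : ι → ι → κ → P) :
    ∑ s, ∑ t, ∑ j, g s t j = ∑ j, ∑ s, ∑ t, g s t j := by
  rw [Finset.sum_comm]
  have h1 : ∀ t : ι, ∑ s, ∑ j, g s t j = ∑ j, ∑ s, g s t j := fun t => Finset.sum_comm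
  simp only [h1]
  rw [Finset.sum_comm]
  refine Finset.sum_congr rfl fun j _ => ?_
  exact Finset.sum_comm

/-- The pointwise form of `sand_comp`. -/
theorem rowc_sand_comp (z w : Unit × κ → P) (z' w' : κ → P) (x y : ι → P) (α : MM ι P)
    (ξ : MM κ ℂ) (hz : ∀ i, z' i = z ((), i)) (hw : ∀ i, w' i = w ((), i)) :
    sandL z w (MM.amp κ (MM.uno P (sandL x y α)) * MM.scl Unit P ξ) =
      sandL (fun p : ι × κ => z' p.2 * x p.1) (fun p : ι × κ => w' p.2 * y p.1)
        (MM.amp κ α * MM.scl ι P ξ) := by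
  rw [rowc_sandL_apply z w, rowc_sandL_apply (fun p : ι × κ => z' p.2 * x p.1)]
  simp only [rowc_e_amp_scl, rowc_e_uno, Fintype.sum_prod_type, hz, hw]
  rw [Fintype.sum_unique]
  refine Eq.trans ?_ Finset.sum_comm
  refine Finset.sum_congr rfl fun i _ => ?_
  rw [Fintype.sum_unique, rowc_sum3]
  refine Finset.sum_congr rfl fun j _ => ?_
  rw [rowc_sandL_apply, Finset.sum_mul, Finset.mul_sum, Finset.sum_mul]
  refine Finset.sum_congr rfl fun s _ => ?_
  rw [Finset.sum_mul, Finset.mul_sum, Finset.sum_mul]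
  refine Finset.sum_congr rfl fun t _ => ?_
  have hc : star (y t) * algebraMap ℂ P (MM.e ξ i j) =
      algebraMap ℂ P (MM.e ξ i j) * star (y t) := (Algebra.commutes _ _).symm
  rw [star_mul]
  calc z ((), i) * (x s * MM.e α s t * star (y t) * algebraMap ℂ P (MM.e ξ i j)) *
        star (w ((), j))
      = z ((), i) * x s * (MM.e α s t * (star (y t) * algebraMap ℂ P (MM.e ξ i j))) *
        star (w ((), j)) := by simp only [mul_assoc]
    _ = z ((), i) * x s * (MM.e α s t * algebraMap ℂ P (MM.e ξ i j)) *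
        (star (y t) * star (w ((), j))) := by rw [hc]; simp only [mul_assoc]

theorem rowc_sandL_bd {L : Type} {ty : L → Type} [∀ l, Fintype (ty l)] [∀ l, DecidableEq (ty l)]
    {X Y : ∀ l, ty l → P} {C D : ℝ} (hC : 0 ≤ C) (hD : 0 ≤ D)
    (hX : ∀ l, ‖∑ i, X l i * star (X l i)‖ ≤ C ^ 2)
    (hY : ∀ l, ‖∑ i, Y l i * star (Y l i)‖ ≤ D ^ 2)
    {α : ∀ l, MM (ty l) P} (hα : Bd α) :
    Bd (A := fun _ => P) (fun l => sandL (X l) (Y l) (α l)) := by
  obtain ⟨E, hE⟩ := hα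
  refine ⟨C * D * E, fun l => ?_⟩
  change ‖∑ i, ∑ j, X l i * MM.e (α l) i j * star (Y l j)‖ ≤ C * D * E
  exact (MM.norm_sand_le (α l) (X l) (Y l) C D hC hD (hX l) (hY l)).trans
    (mul_le_mul_of_nonneg_left (hE l) (mul_nonneg hC hD))

/-- Flattening of matrices of matrices. -/
noncomputable def rowc_fl (ι κ : Type) [Fintype ι] [DecidableEq ι] [Fintype κ] [DecidableEq κ]
    (P : Type) [CStarAlgebra P] : MM ι (MM κ P) →⋆ₐ[ℂ] MM (ι × κ) P where
  toFun a := MM.of (fun p q => MM.e (MM.e a p.1 q.1) p.2 q.2)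
  map_one' := by
    refine MM.ext fun p q => ?_
    rw [MM.e_of, MM.e_one, MM.e_one]
    by_cases h1 : p.1 = q.1
    · rw [if_pos h1, MM.e_one]
      by_cases h2 : p.2 = q.2
      · rw [if_pos h2, if_pos (Prod.ext h1 h2)]
      · rw [if_neg h2, if_neg (fun h => h2 (by rw [h]))]
    · rw [if_neg h1, MM.e_zero, if_neg (fun h => h1 (by rw [h]))]
  map_mul' := by
    intro a b
    refine MM.ext fun p q => ?_
    rw [MM.e_of, MM.e_mul, MM.e_mul, MM.e_sum, Fintype.sum_prod_type]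
    refine Finset.sum_congr rfl fun k _ => ?_
    rw [MM.e_mul]
    refine Finset.sum_congr rfl fun r _ => ?_
    rw [MM.e_of, MM.e_of]
  map_zero' := by
    refine MM.ext fun p q => ?_
    rw [MM.e_of, MM.e_zero, MM.e_zero, MM.e_zero]
  map_add' := by
    intro a b
    refine MM.ext fun p q => ?_
    rw [MM.e_of, MM.e_add, MM.e_add, MM.e_add, MM.e_of, MM.e_of]
  commutes' := by
    intro c
    refine MM.ext fun p q => ?_
    rw [MM.e_of, MM.mmh_algebraMap, MM.mmh_algebraMap, MM.e_smul]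
    by_cases h1 : p.1 = q.1
    · rw [if_pos h1, MM.e_one]
      by_cases h2 : p.2 = q.2
      · rw [if_pos h2, if_pos (Prod.ext h1 h2)]
      · rw [if_neg h2, if_neg (fun h => h2 (by rw [h]))]
    · rw [if_neg h1, MM.e_zero, if_neg (fun h => h1 (by rw [h]))]
  map_star' := by
    intro a
    refine MM.ext fun p q => ?_
    rw [MM.e_of, MM.e_star, MM.e_star, MM.e_star, MM.e_of]

theorem rowc_e_fl (a : MM ι (MM κ P)) (p q : ι × κ) :
    MM.e (rowc_fl ι κ P a) p q = MM.e (MM.e a p.1 q.1) p.2 q.2 := MM.e_of _ _ _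

/-- The map `a ↦ (x ⊗ 1)* a (x ⊗ 1)`. -/
noncomputable def rowc_V (κ : Type) [Fintype κ] [DecidableEq κ] (x : ι → P) :
    MM (Unit × κ) P →ₗ[ℂ] MM (ι × κ) P where
  toFun a := MM.of (fun p q => star (x p.1) * MM.e a ((), p.2) ((), q.2) * x q.1)
  map_add' a b := by
    refine MM.ext fun p q => ?_
    rw [MM.e_of, MM.e_add, MM.e_add, MM.e_of, MM.e_of, mul_add, add_mul]
  map_smul' c a := by
    refine MM.ext fun p q => ?_
    rw [MM.e_of, MM.e_smul, RingHom.id_apply, MM.e_smul, MM.e_of, mul_smul_comm, smul_mul_assoc]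

theorem rowc_e_V (x : ι → P) (a : MM (Unit × κ) P) (p q : ι × κ) :
    MM.e (rowc_V κ x a) p q = star (x p.1) * MM.e a ((), p.2) ((), q.2) * x q.1 := MM.e_of _ _ _

theorem rowc_norm_V (x : ι → P) (D : ℝ) (hD : 0 ≤ D)
    (hx : ‖∑ i, x i * star (x i)‖ ≤ D ^ 2) (a : MM (Unit × κ) P) :
    ‖rowc_V κ x a‖ ≤ D * D * ‖a‖ := by
  let f : κ ≃ Unit × κ := ⟨fun k => ((), k), fun p => p.2, fun _ => rfl, fun _ => rfl⟩
  let a' : MM κ P := MM.ri f a
  have ha' : ‖a'‖ ≤ ‖a‖ := NonUnitalStarAlgHom.norm_apply_le (MM.ri f) a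
  let X' : ι → MM κ P := fun s => MM.of (fun i j => if i = j then x s else 0)
  have hX' : ‖∑ s, X' s * star (X' s)‖ ≤ D ^ 2 := by
    have e : ∑ s, X' s * star (X' s) =
        MM.of (fun i j : κ => if i = j then (∑ s, x s * star (x s)) else 0) := by
      refine MM.ext fun i j => ?_
      rw [MM.e_sum, MM.e_of]
      by_cases h : i = j
      · subst h
        rw [if_pos rfl]
        refine Finset.sum_congr rfl fun s _ => ?_
        rw [MM.e_mul, Finset.sum_eq_single i]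
        · rw [MM.e_star, MM.e_of, if_pos rfl]
        · intro k _ hk
          rw [MM.e_of, if_neg (Ne.symm hk), zero_mul]
        · intro h
          exact absurd (Finset.mem_univ _) h
      · rw [if_neg h]
        refine Finset.sum_eq_zero fun s _ => ?_
        rw [MM.e_mul]
        refine Finset.sum_eq_zero fun k _ => ?_
        rw [MM.e_star, MM.e_of, MM.e_of]
        by_cases hk : i = k
        · rw [if_neg (fun h' : j = k => h (hk.trans h'.symm)), star_zero, mul_zero]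
        · rw [if_neg hk, zero_mul]
    rw [e]
    exact MM.norm_diag_le (fun _ : κ => ∑ s, x s * star (x s)) (D ^ 2) (by positivity)
      (fun _ => hx)
  have hY' : ‖∑ s, (a' * X' s) * star (a' * X' s)‖ ≤ (‖a‖ * D) ^ 2 := by
    have e : ∑ s, (a' * X' s) * star (a' * X' s) = a' * (∑ s, X' s * star (X' s)) * star a' := by
      rw [Finset.mul_sum, Finset.sum_mul]
      refine Finset.sum_congr rfl fun s _ => ?_
      rw [star_mul]
      simp only [mul_assoc]
    rw [e]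
    calc ‖a' * (∑ s, X' s * star (X' s)) * star a'‖
        ≤ ‖a' * (∑ s, X' s * star (X' s))‖ * ‖star a'‖ := norm_mul_le _ _
      _ ≤ (‖a'‖ * ‖∑ s, X' s * star (X' s)‖) * ‖star a'‖ :=
          mul_le_mul_of_nonneg_right (norm_mul_le _ _) (norm_nonneg _)
      _ ≤ (‖a‖ * D ^ 2) * ‖a‖ := by
          rw [norm_star]
          exact mul_le_mul (mul_le_mul ha' hX' (norm_nonneg _) (norm_nonneg _)) ha'
            (norm_nonneg _) (by positivity)
      _ = (‖a‖ * D) ^ 2 := by ring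
  have h1 := MM.norm_gram_le X' (fun s => a' * X' s) D (‖a‖ * D) hD (by positivity) hX' hY'
  have h2 : rowc_V κ x a =
      rowc_fl ι κ P (MM.of (fun i j => star (X' i) * (a' * X' j))) := by
    refine MM.ext fun p q => ?_
    rw [rowc_e_V, rowc_e_fl, MM.e_of, MM.e_mul, Finset.sum_eq_single p.2]
    · rw [MM.e_mul, Finset.sum_eq_single q.2]
      · rw [MM.e_star, MM.e_of, MM.e_of, if_pos rfl, if_pos rfl, MM.e_ri, mul_assoc]
        rfl
      · intro k _ hk
        rw [MM.e_of, if_neg hk, mul_zero]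
      · intro h
        exact absurd (Finset.mem_univ _) h
    · intro k _ hk
      rw [MM.e_star, MM.e_of, if_neg hk, star_zero, zero_mul]
    · intro h
      exact absurd (Finset.mem_univ _) h
  rw [h2]
  calc ‖rowc_fl ι κ P (MM.of (fun i j => star (X' i) * (a' * X' j)))‖
      ≤ ‖MM.of (fun i j => star (X' i) * (a' * X' j))‖ :=
        NonUnitalStarAlgHom.norm_apply_le (rowc_fl ι κ P) _
    _ ≤ D * (‖a‖ * D) := h1
    _ = D * D * ‖a‖ := by ring

/-- First pointwise identity for `comp_ad`. -/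
theorem rowc_V1 (z : Unit × κ → P) (x : ι → P) (α : MM ι P) :
    rowc_V κ x (MM.of (fun i j => star (z i) * z j) * MM.amp κ (MM.uno P (sandL x x α))) =
      MM.of (fun p q : ι × κ => star (z ((), p.2) * x p.1) * (z ((), q.2) * x q.1)) *
        MM.amp κ (α * MM.of (fun i j => star (x i) * x j)) := by
  refine MM.ext fun p q => ?_
  have e1 : MM.e (MM.of (fun i j => star (z i) * z j) * MM.amp κ (MM.uno P (sandL x x α)))
      ((), p.2) ((), q.2) = star (z ((), p.2)) * z ((), q.2) * sandL x x α := by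
    rw [MM.e_mul, Finset.sum_eq_single ((), q.2)]
    · rw [MM.e_of, MM.e_amp, if_pos rfl, rowc_e_uno]
    · intro r _ hr
      rw [MM.e_amp, if_neg, mul_zero]
      intro h
      exact hr (Prod.ext (Subsingleton.elim _ _) h)
    · intro h
      exact absurd (Finset.mem_univ _) h
  have e2 : ∀ s, MM.e (α * MM.of (fun i j => star (x i) * x j)) s q.1 =
      ∑ t, MM.e α s t * (star (x t) * x q.1) := by
    intro s
    rw [MM.e_mul]
    refine Finset.sum_congr rfl fun t _ => ?_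
    rw [MM.e_of]
  rw [rowc_e_V, e1, MM.e_mul, Fintype.sum_prod_type, rowc_sandL_apply, Finset.mul_sum,
    Finset.mul_sum, Finset.sum_mul]
  refine Finset.sum_congr rfl fun s _ => ?_
  rw [Finset.sum_eq_single q.2]
  · rw [MM.e_of, MM.e_amp, if_pos rfl, e2, Finset.mul_sum, Finset.mul_sum, Finset.mul_sum,
      Finset.sum_mul]
    refine Finset.sum_congr rfl fun t _ => ?_
    rw [star_mul]
    simp only [mul_assoc]
  · intro k _ hk
    rw [MM.e_amp, if_neg hk, mul_zero]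
  · intro h
    exact absurd (Finset.mem_univ _) h

/-- Second pointwise identity for `comp_ad`. -/
theorem rowc_V2 (x : ι → P) (α : MM ι P) :
    rowc_V κ x (MM.amp κ (MM.uno P (sandL x x α))) =
      MM.amp κ (MM.of (fun i j => star (x i) * x j) * α *
        MM.of (fun i j => star (x i) * x j)) := by
  refine MM.ext fun p q => ?_
  rw [rowc_e_V, MM.e_amp, MM.e_amp]
  by_cases h : p.2 = q.2
  · rw [if_pos h, if_pos h, rowc_e_uno, MM.e_mul, rowc_sandL_apply, Finset.sum_comm,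
      Finset.mul_sum, Finset.sum_mul]
    refine Finset.sum_congr rfl fun t _ => ?_
    rw [MM.e_mul, MM.e_of, Finset.mul_sum, Finset.sum_mul, Finset.sum_mul]
    refine Finset.sum_congr rfl fun s _ => ?_
    rw [MM.e_of]
    simp only [mul_assoc]
  · rw [if_neg h, if_neg h, mul_zero, zero_mul]

end rowc

theorem rowc_ex_amp {x : ∀ l, MM (S.ty l) P} (hx : Bd x) :
    ∃ y : ∀ l, MM ((S.prod N).ty l) P, Bd y ∧ ampR S N (cl I x) = cl I y ∧
      ∀ l, y l = MM.amp (N.ty l) (x l) :=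
  ⟨fun l => MM.amp (N.ty l) (x l), Bd.map I (fun l => MM.amp (N.ty l)) hx, ampR_cl hx,
    fun _ => rfl⟩

theorem rowc_ex_scl {x : ∀ l, MM (N.ty l) ℂ} (hx : Bd x) :
    ∃ y : ∀ l, MM ((S.prod N).ty l) P, Bd y ∧ sclR S P N (cl I x) = cl I y ∧
      ∀ l, y l = MM.scl (S.ty l) P (x l) :=
  ⟨fun l => MM.scl (S.ty l) P (x l), Bd.map I (fun l => MM.scl (S.ty l) P) hx, sclR_cl hx,
    fun _ => rfl⟩

theorem rowc_ex_uno {x : I.L → P} (hx : Bd (A := fun _ => P) x) :
    ∃ y : ∀ l, MM ((Sz.one I).ty l) P, Bd y ∧ unoR P (cl I (A := fun _ => P) x) = cl I y ∧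
      ∀ l, y l = MM.uno P (x l) :=
  ⟨fun l => MM.uno P (x l), Bd.map I (fun _ => MM.uno P) hx, SQ.map_cl I _ hx, fun _ => rfl⟩

namespace Row

/-- The composite row `(x, i) ↦ Z_i X_x`. -/
noncomputable def comp (Z : Row N P) (X : Row S P) : Row (S.prod N) P where
  v l p := Z.v l p.2 * X.v l p.1
  bd := ⟨Z.nm * X.nm, mul_nonneg Z.nm_nonneg X.nm_nonneg, fun l =>
    rowc_comp_norm (Z.v l) (X.v l) Z.nm X.nm Z.nm_nonneg (Z.nm_spec l) (X.nm_spec l)⟩

/-- Sandwiching in two steps (only for elements `a ⊗ x`). -/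
theorem sand_comp (Z W : Row ((Sz.one I).prod N) P) (X Y : Row S P) (Z' W' : Row N P)
    (hZ : ∀ l i, Z'.v l i = Z.v l ((), i)) (hW : ∀ l i, W'.v l i = W.v l ((), i))
    (a : RM S P) (x : RM N ℂ) :
    sand Z W (ampR (Sz.one I) N (unoR P (sand X Y a)) * sclR (Sz.one I) P N x) =
      sand (comp Z' X) (comp W' Y) (ampR S N a * sclR S P N x) := by
  obtain ⟨α, hα, rfl⟩ := cl_surj I a
  obtain ⟨ξ, hξ, rfl⟩ := cl_surj I x
  have hb : Bd (A := fun _ => P) (fun l => sandL (X.v l) (Y.v l) (α l)) :=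
    rowc_sandL_bd X.nm_nonneg Y.nm_nonneg X.nm_spec Y.nm_spec hα
  obtain ⟨u, hbu, hu, hu'⟩ := rowc_ex_uno hb
  obtain ⟨y2, hb2, h2, h2'⟩ := rowc_ex_amp (N := N) hbu
  obtain ⟨y3, hb3, h3, h3'⟩ := rowc_ex_scl (S := Sz.one I) (P := P) hξ
  obtain ⟨y4, hb4, h4, h4'⟩ := rowc_ex_amp (N := N) hα
  obtain ⟨y5, hb5, h5, h5'⟩ := rowc_ex_scl (S := S) (P := P) hξ
  rw [sand_cl X Y hα, hu, h2, h3, ← cl_mul I hb2 hb3, sand_cl Z W (Bd.mul hb2 hb3), h4, h5,
    ← cl_mul I hb4 hb5, sand_cl (comp Z' X) (comp W' Y) (Bd.mul hb4 hb5)]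
  congr 1
  funext l
  rw [h2', h3', h4', h5', hu']
  exact rowc_sand_comp (Z.v l) (W.v l) (Z'.v l) (W'.v l) (X.v l) (Y.v l) (α l) (ξ l) (hZ l) (hW l)

/-- The row of size `N` underlying a row of size `1 × N`. -/
noncomputable def strip (Z : Row ((Sz.one I).prod N) P) : Row N P where
  v l i := Z.v l ((), i)
  bd := ⟨Z.nm, Z.nm_nonneg, fun l => by
    have h1 : ‖∑ p : Unit × N.ty l, Z.v l p * star (Z.v l p)‖ ≤ Z.nm ^ 2 := Z.nm_spec l
    rw [Fintype.sum_prod_type, Fintype.sum_unique] at h1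
    exact h1⟩

/-- The map `a ↦ (X ⊗ 1)* a (X ⊗ 1)` on classes. -/
noncomputable def rowc_VR (N : Sz I) (X : Row S P) :
    RM ((Sz.one I).prod N) P →ₗ[ℂ] RM (S.prod N) P :=
  SQ.lmap I (A := fun l => MM (((Sz.one I).prod N).ty l) P)
    (B := fun l => MM ((S.prod N).ty l) P) (fun l => rowc_V (N.ty l) (X.v l)) (X.nm * X.nm)
    (fun l x => rowc_norm_V (X.v l) X.nm X.nm_nonneg (X.nm_spec l) x)

theorem rowc_VR_cl (X : Row S P) {x : ∀ l, MM (((Sz.one I).prod N).ty l) P} (hx : Bd x) :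
    rowc_VR N X (cl I x) = cl I (A := fun l => MM ((S.prod N).ty l) P)
      (fun l => rowc_V (N.ty l) (X.v l) (x l)) :=
  SQ.lmap_cl I _ _ _ hx

/-- If `Z* Z` fixes `(X ζ' X*) ⊗ 1` and `X* X ζ' = ζ'`, `ζ' X* X = ζ'`, then `(Z X)* (Z X)` fixes
`ζ' ⊗ 1`.

Proof. In matrices: `(Z X)* (Z X) (ζ' ⊗ 1)` has the entries
`∑_y X_x* Z_i* Z_j X_y ζ'_{yz}`. Multiply the relation `Z* Z (X ζ' X* ⊗ 1) = X ζ' X* ⊗ 1` from the left by
`X_x*` and from the right by `X_z`, and use `∑_z' ζ'_{yz'} (X* X)_{z'z} = ζ'_{yz}`. All these are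
identities between classes of bounded families; the family of the differences is estimated with
`MM.norm_gram_le`-type bounds: with the row `X ⊗ 1` (a matrix of size `N × (S × N)`, of norm at most
`X.nm`), `(Z X)* (Z X) (ζ' ⊗ 1) - ζ' ⊗ 1 = (X ⊗ 1)* [Z* Z (X ζ' X* ⊗ 1) - X ζ' X* ⊗ 1] (X ⊗ 1)` modulo null
families. To estimate the norm of `(X ⊗ 1)* b (X ⊗ 1)` use the corner trick with the index type
`Option (S × N)`-like sums, or `S × N ⊕ N`. -/
theorem comp_ad (Z : Row ((Sz.one I).prod N) P) (X : Row S P) (ζ' : RM S P)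
    (h1 : gram X X * ζ' = ζ') (h2 : ζ' * gram X X = ζ')
    (h3 : gram Z Z * ampR (Sz.one I) N (unoR P (sand X X ζ')) =
      ampR (Sz.one I) N (unoR P (sand X X ζ'))) :
    gram (comp (strip Z) X) (comp (strip Z) X) * ampR S N ζ' = ampR S N ζ' := by
  have h4 := congrArg (rowc_VR N X) h3
  have hK1 : rowc_VR N X (gram Z Z * ampR (Sz.one I) N (unoR P (sand X X ζ'))) =
      gram (comp (strip Z) X) (comp (strip Z) X) * ampR S N (ζ' * gram X X) := by
    clear h1 h2 h3 h4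
    obtain ⟨α, hα, rfl⟩ := cl_surj I ζ'
    have hb : Bd (A := fun _ => P) (fun l => sandL (X.v l) (X.v l) (α l)) :=
      rowc_sandL_bd X.nm_nonneg X.nm_nonneg X.nm_spec X.nm_spec hα
    obtain ⟨u, hbu, hu, hu'⟩ := rowc_ex_uno hb
    obtain ⟨y2, hb2, h2, h2'⟩ := rowc_ex_amp (N := N) hbu
    have hg := gram_bd X X
    have hgz := gram_bd Z Z
    have hgc := gram_bd (comp (strip Z) X) (comp (strip Z) X)
    obtain ⟨y3, hb3, h3, h3'⟩ := rowc_ex_amp (N := N) (Bd.mul hα hg)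
    rw [sand_cl X X hα, hu, h2]
    unfold gram
    rw [← cl_mul I hgz hb2, rowc_VR_cl X (Bd.mul hgz hb2), ← cl_mul I hα hg, h3,
      ← cl_mul I hgc hb3]
    congr 1
    funext l
    rw [h2', h3', hu']
    exact rowc_V1 (Z.v l) (X.v l) (α l)
  have hK2 : rowc_VR N X (ampR (Sz.one I) N (unoR P (sand X X ζ'))) =
      ampR S N (gram X X * ζ' * gram X X) := by
    clear h1 h2 h3 h4
    obtain ⟨α, hα, rfl⟩ := cl_surj I ζ'
    have hb : Bd (A := fun _ => P) (fun l => sandL (X.v l) (X.v l) (α l)) :=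
      rowc_sandL_bd X.nm_nonneg X.nm_nonneg X.nm_spec X.nm_spec hα
    obtain ⟨u, hbu, hu, hu'⟩ := rowc_ex_uno hb
    obtain ⟨y2, hb2, h2, h2'⟩ := rowc_ex_amp (N := N) hbu
    have hg := gram_bd X X
    obtain ⟨y3, hb3, h3, h3'⟩ := rowc_ex_amp (N := N) (Bd.mul (Bd.mul hg hα) hg)
    rw [sand_cl X X hα, hu, h2, rowc_VR_cl X hb2]
    unfold gram
    rw [← cl_mul I hg hα, ← cl_mul I (Bd.mul hg hα) hg, h3]
    congr 1
    funext l
    rw [h2', h3', hu']
    exact rowc_V2 (X.v l) (α l)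
  rw [hK1, hK2, h1, h2] at h4
  exact h4

end Row

end H7c
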