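import Pool.Agent.H.MP_7b4a29_c.SQ0

/-!
# Matrix algebras over C*-algebras
-/

open Matrix

namespace H7c

/-- `ι × ι` matrices over `P`. -/
def MM (ι : Type) (P : Type) : Type := Matrix ι ι P

variable (ι : Type) [Fintype ι] [DecidableEq ι] (P : Type) [CStarAlgebra P]

/-- The C*-algebra structure is that of `CStarMatrix`. -/
noncomputable instance MM.instC : CStarAlgebra (MM ι P) :=
  letI := CStarAlgebra.spectralOrder P
  letI := CStarAlgebra.spectralOrderedRing P
  inferInstanceAs (CStarAlgebra (CStarMatrix ι ι P))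

/-- The identification with the star algebra of matrices. -/
noncomputable def MM.toM : MM ι P ≃⋆ₐ[ℂ] Matrix ι ι P where
  toFun a := a
  invFun a := a
  left_inv _ := rfl
  right_inv _ := rfl
  map_mul' _ _ := rfl
  map_add' _ _ := rfl
  map_star' _ := rfl
  map_smul' _ _ := rfl

variable {ι P}

/-- The entries. -/
noncomputable def MM.e (a : MM ι P) (i j : ι) : P := MM.toM ι P a i j

/-- The matrix with given entries. -/
noncomputable def MM.of (x : ι → ι → P) : MM ι P := (MM.toM ι P).symm (Matrix.of x)

namespace MM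

theorem e_of (x : ι → ι → P) (i j : ι) : e (of x) i j = x i j := rfl

theorem of_e (a : MM ι P) : of (e a) = a := rfl

theorem ext {a b : MM ι P} (h : ∀ i j, e a i j = e b i j) : a = b := by
  apply (MM.toM ι P).injective
  ext i j
  exact h i j

theorem e_add (a b : MM ι P) (i j : ι) : e (a + b) i j = e a i j + e b i j := by
  simp only [e, map_add, Matrix.add_apply]

theorem e_sub (a b : MM ι P) (i j : ι) : e (a - b) i j = e a i j - e b i j := by
  simp only [e, map_sub, Matrix.sub_apply]

theorem e_mul (a b : MM ι P) (i j : ι) : e (a * b) i j = ∑ k, e a i k * e b k j := by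
  simp only [e, map_mul, Matrix.mul_apply]

theorem e_star (a : MM ι P) (i j : ι) : e (star a) i j = star (e a j i) := by
  simp only [e, map_star, Matrix.star_apply]

theorem e_smul (c : ℂ) (a : MM ι P) (i j : ι) : e (c • a) i j = c • e a i j := by
  simp only [e, map_smul, Matrix.smul_apply]

theorem e_zero (i j : ι) : e (0 : MM ι P) i j = 0 := by
  simp only [e, map_zero, Matrix.zero_apply]

theorem e_one (i j : ι) : e (1 : MM ι P) i j = if i = j then 1 else 0 := by
  simp only [e, map_one, Matrix.one_apply]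

theorem e_sum {κ : Type*} (s : Finset κ) (a : κ → MM ι P) (i j : ι) :
    e (∑ k ∈ s, a k) i j = ∑ k ∈ s, e (a k) i j := by
  simp only [e, map_sum, Matrix.sum_apply]

theorem norm_e_le (a : MM ι P) (i j : ι) : ‖e a i j‖ ≤ ‖a‖ := by
  let _ := CStarAlgebra.spectralOrder P
  let _ := CStarAlgebra.spectralOrderedRing P
  exact CStarMatrix.norm_entry_le_norm (M := (a : CStarMatrix ι ι P)) (i := i) (j := j)

/-- Diagonal matrices. -/
noncomputable def mm_diag : (ι → P) →⋆ₙₐ[ℂ] MM ι P where
  toFun d := of (fun i j => if i = j then d i else 0)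
  map_smul' c d := by
    apply ext
    intro i j
    rw [e_smul, e_of, e_of]
    split_ifs
    · rfl
    · simp
  map_zero' := by
    apply ext
    intro i j
    rw [e_of, e_zero]
    split_ifs
    · rfl
    · rfl
  map_add' d d' := by
    apply ext
    intro i j
    rw [e_add, e_of, e_of, e_of]
    split_ifs
    · rfl
    · simp
  map_mul' d d' := by
    apply ext
    intro i j
    rw [e_mul, e_of]
    simp only [e_of, Pi.mul_apply, ite_mul, zero_mul, mul_ite, mul_zero]
    rw [Finset.sum_ite_eq']
    by_cases h : i = j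
    · subst h
      simp
    · simp [h]
  map_star' d := by
    apply ext
    intro i j
    rw [e_star, e_of, e_of]
    by_cases h : i = j
    · subst h
      simp
    · rw [if_neg h, if_neg (Ne.symm h), star_zero]

/-- The norm of a diagonal matrix. Proof: `d ↦ diagonal d` is a star homomorphism from the C*-algebra
`ι → P` (sup norm), so it is contractive. -/
theorem norm_diag_le (d : ι → P) (C : ℝ) (hC : 0 ≤ C) (h : ∀ i, ‖d i‖ ≤ C) :
    ‖of (fun i j => if i = j then d i else 0)‖ ≤ C := by
  have h1 : ‖(mm_diag : (ι → P) →⋆ₙₐ[ℂ] MM ι P) d‖ ≤ ‖d‖ :=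
    NonUnitalStarAlgHom.norm_apply_le (mm_diag : (ι → P) →⋆ₙₐ[ℂ] MM ι P) d
  exact h1.trans ((pi_norm_le_iff_of_nonneg hC).mpr h)

/-- Square roots. -/
theorem mm_sq {a C : ℝ} (hC : 0 ≤ C) (h : a * a ≤ C ^ 2) : a ≤ C := by
  by_contra hc
  push Not at hc
  nlinarith

/-- A matrix with one nonzero row. -/
theorem mm_row (i0 : ι) (x : ι → P) (C : ℝ) (hC : 0 ≤ C)
    (hx : ‖∑ i, x i * star (x i)‖ ≤ C ^ 2) :
    ‖of (fun i j => if i = i0 then x j else 0)‖ ≤ C := by
  set X : MM ι P := of (fun i j => if i = i0 then x j else 0) with hX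
  have h1 : X * star X = of (fun i j => if i = j then
      (if i = i0 then ∑ k, x k * star (x k) else 0) else 0) := by
    apply ext
    intro i j
    rw [e_mul, e_of]
    simp only [e_star, hX, e_of]
    by_cases hi : i = i0
    · subst hi
      by_cases hj : i = j
      · subst hj
        simp
      · simp [hj, Ne.symm hj]
    · simp [hi]
  have h2 : ‖X * star X‖ ≤ C ^ 2 := by
    rw [h1]
    refine norm_diag_le _ _ (by positivity) (fun i => ?_)
    split_ifs
    · exact hx
    · rw [norm_zero]
      positivity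
  rw [CStarRing.norm_self_mul_star] at h2
  exact mm_sq hC h2

/-- The norm of an elementary matrix. -/
theorem mm_single (i0 j0 : ι) (p : P) :
    ‖of (fun i j => if i = i0 then (if j = j0 then p else 0) else 0)‖ ≤ ‖p‖ := by
  refine mm_row i0 (fun j => if j = j0 then p else 0) ‖p‖ (norm_nonneg _) ?_
  have : ∑ i, (if i = j0 then p else 0) * star (if i = j0 then p else 0) = p * star p := by
    rw [Finset.sum_eq_single j0]
    · simp
    · intro b _ hb
      simp [hb]
    · intro h
      exact absurd (Finset.mem_univ _) h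
  rw [this, CStarRing.norm_self_mul_star, sq]

theorem norm_le_sum (a : MM ι P) : ‖a‖ ≤ ∑ i, ∑ j, ‖e a i j‖ := by
  have h1 : a = ∑ i0, ∑ j0, of (fun i j => if i = i0 then (if j = j0 then e a i0 j0 else 0) else 0) := by
    apply ext
    intro i j
    rw [e_sum]
    simp only [e_sum, e_of]
    rw [Finset.sum_eq_single i]
    · rw [Finset.sum_eq_single j]
      · simp
      · intro b _ hb
        simp [Ne.symm hb]
      · intro h
        exact absurd (Finset.mem_univ _) h
    · intro b _ hb
      simp [Ne.symm hb]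
    · intro h
      exact absurd (Finset.mem_univ _) h
  calc ‖a‖ = ‖∑ i0, ∑ j0, of (fun i j => if i = i0 then
        (if j = j0 then e a i0 j0 else 0) else 0)‖ := by rw [← h1]
    _ ≤ ∑ i, ∑ j, ‖e a i j‖ := by
        refine (norm_sum_le _ _).trans (Finset.sum_le_sum (fun i _ => ?_))
        refine (norm_sum_le _ _).trans (Finset.sum_le_sum (fun j _ => ?_))
        exact mm_single i j _

/-- Sandwich estimate for rows `x, y`.

Proof. Choose `i0`. Put `X` with the entries `x j` at `(i0, j)` and `0` elsewhere, `Y` in the same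
way. `X * star X` has the only entry `∑ x i * star (x i)` at `(i0, i0)`, so `‖X‖ ^ 2 ≤ C ^ 2`; the
element is the entry `(i0, i0)` of `X * a * star Y`. -/
theorem norm_sand_le (a : MM ι P) (x y : ι → P) (C D : ℝ) (hC : 0 ≤ C) (hD : 0 ≤ D)
    (hx : ‖∑ i, x i * star (x i)‖ ≤ C ^ 2) (hy : ‖∑ i, y i * star (y i)‖ ≤ D ^ 2) :
    ‖∑ i, ∑ j, x i * e a i j * star (y j)‖ ≤ C * D * ‖a‖ := by
  rcases isEmpty_or_nonempty ι with hι | ⟨⟨i0⟩⟩
  · rw [Finset.univ_eq_empty, Finset.sum_empty, norm_zero]
    positivity
  · set X : MM ι P := of (fun i j => if i = i0 then x j else 0) with hX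
    set Y : MM ι P := of (fun i j => if i = i0 then y j else 0) with hY
    have nX : ‖X‖ ≤ C := mm_row i0 x C hC hx
    have nY : ‖Y‖ ≤ D := mm_row i0 y D hD hy
    have h1 : e (X * a * star Y) i0 i0 = ∑ i, ∑ j, x i * e a i j * star (y j) := by
      rw [e_mul]
      simp only [e_mul, e_star, hX, hY, e_of, if_true, Finset.sum_mul]
      rw [Finset.sum_comm]
    rw [← h1]
    calc ‖e (X * a * star Y) i0 i0‖ ≤ ‖X * a * star Y‖ := norm_e_le _ _ _
      _ ≤ ‖X * a‖ * ‖star Y‖ := norm_mul_le _ _
      _ ≤ (‖X‖ * ‖a‖) * ‖Y‖ := by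
          rw [norm_star]
          gcongr
          exact norm_mul_le _ _
      _ ≤ (C * ‖a‖) * D := by gcongr
      _ = C * D * ‖a‖ := by ring

/-- Gram matrices: `star X * Y` in the notation of the proof of `norm_sand_le`. -/
theorem norm_gram_le (x y : ι → P) (C D : ℝ) (hC : 0 ≤ C) (hD : 0 ≤ D)
    (hx : ‖∑ i, x i * star (x i)‖ ≤ C ^ 2) (hy : ‖∑ i, y i * star (y i)‖ ≤ D ^ 2) :
    ‖of (fun i j => star (x i) * y j)‖ ≤ C * D := by
  rcases isEmpty_or_nonempty ι with hι | ⟨⟨i0⟩⟩
  · have : of (fun i j => star (x i) * y j) = (0 : MM ι P) := by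
      apply ext
      intro i
      exact hι.elim i
    rw [this, norm_zero]
    positivity
  · set X : MM ι P := of (fun i j => if i = i0 then x j else 0) with hX
    set Y : MM ι P := of (fun i j => if i = i0 then y j else 0) with hY
    have nX : ‖X‖ ≤ C := mm_row i0 x C hC hx
    have nY : ‖Y‖ ≤ D := mm_row i0 y D hD hy
    have h1 : of (fun i j => star (x i) * y j) = star X * Y := by
      apply ext
      intro i j
      rw [e_mul, e_of]
      simp only [e_star, hX, hY, e_of]
      rw [Finset.sum_eq_single i0]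
      · simp
      · intro b _ hb
        simp [hb]
      · intro h
        exact absurd (Finset.mem_univ _) h
    rw [h1]
    calc ‖star X * Y‖ ≤ ‖star X‖ * ‖Y‖ := norm_mul_le _ _
      _ ≤ C * D := by
          rw [norm_star]
          gcongr

end MM
end H7c
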