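import Pool.Agent.H.MP_7b4a29_c.TensA
import Pool.Agent.H.MP_7b4a29_c.MM

/-!
# Homomorphisms from `C(X, A)` given by commuting homomorphisms of `A` and of `C(X, ℂ)`
-/

open Filter Topology

namespace H7c

variable {X : Type} [TopologicalSpace X] [CompactSpace X] {A : Type} [CStarAlgebra A]
  [T2Space X] {D : Type} [CStarAlgebra D]

omit [T2Space X] in
/-- A partition of unity (squares) with small variation of `Φ`. -/
theorem tens_pou {E : Type} [PseudoMetricSpace E] (Φ : C(X, E)) (ε : ℝ) (hε : 0 < ε) :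
    ∃ (ι : Type) (_ : Fintype ι) (p : ι → X) (χ : ι → C(X, ℝ)),
      (∀ x, ∑ k, χ k x ^ 2 = 1) ∧ ∀ k x, χ k x ≠ 0 → dist (Φ x) (Φ (p k)) ≤ ε := by
  classical
  let g : X → C(X, ℝ) := fun q => ⟨fun x => max 0 (ε - dist (Φ x) (Φ q)),
    continuous_const.max (continuous_const.sub (Φ.continuous.dist continuous_const))⟩
  have hg : ∀ q x, g q x = max 0 (ε - dist (Φ x) (Φ q)) := fun _ _ => rfl
  have hU : ∀ q, IsOpen {x | 0 < g q x} := fun q => isOpen_lt continuous_const (g q).continuous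
  obtain ⟨t, ht⟩ := (isCompact_univ (X := X)).elim_finite_subcover (fun q => {x | 0 < g q x}) hU
    (fun x _ => by
      rw [Set.mem_iUnion]
      refine ⟨x, ?_⟩
      have h1 : g x x = ε := by
        rw [hg, dist_self, sub_zero, max_eq_right hε.le]
      simp only [Set.mem_ofPred_eq, h1]
      exact hε)
  let s : C(X, ℝ) := ⟨fun x => ∑ q ∈ t, g q x ^ 2,
    continuous_finsetSum _ fun q _ => (g q).continuous.pow 2⟩
  have hs : ∀ x, s x = ∑ q ∈ t, g q x ^ 2 := fun _ => rfl
  have hpos : ∀ x, 0 < s x := by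
    intro x
    have h1 := ht (Set.mem_univ x)
    rw [Set.mem_iUnion₂] at h1
    obtain ⟨q, hq, h2⟩ := h1
    have h2' : 0 < g q x := h2
    rw [hs]
    exact Finset.sum_pos' (fun _ _ => sq_nonneg _) ⟨q, hq, by positivity⟩
  refine ⟨{q // q ∈ t}, inferInstance, fun k => k.1, fun k =>
    ⟨fun x => g k.1 x / Real.sqrt (s x), (g k.1).continuous.div
      (Real.continuous_sqrt.comp s.continuous) fun x => (Real.sqrt_pos.2 (hpos x)).ne'⟩, ?_, ?_⟩
  · intro x
    have h1 : ∀ k : {q // q ∈ t}, (g k.1 x / Real.sqrt (s x)) ^ 2 = g k.1 x ^ 2 / s x := by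
      intro k
      rw [div_pow, Real.sq_sqrt (hpos x).le]
    have h2 : ∑ k : {q // q ∈ t}, g k.1 x ^ 2 / s x = (∑ q ∈ t, g q x ^ 2) / s x := by
      rw [← Finset.sum_div]
      congr 1
      exact Finset.sum_coe_sort t (fun q => g q x ^ 2)
    calc ∑ k : {q // q ∈ t}, (g k.1 x / Real.sqrt (s x)) ^ 2
        = ∑ k : {q // q ∈ t}, g k.1 x ^ 2 / s x := Finset.sum_congr rfl fun k _ => h1 k
      _ = s x / s x := by rw [h2, hs]
      _ = 1 := div_self (hpos x).ne'
  · intro k x hx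
    have h1 : g k.1 x ≠ 0 := by
      intro h2
      apply hx
      show g k.1 x / Real.sqrt (s x) = 0
      rw [h2, zero_div]
    rw [hg] at h1
    by_contra h2
    push Not at h2
    apply h1
    exact max_eq_left (by linarith)

omit [T2Space X] in
/-- The norm bound on finite sums. -/
theorem tens_bd (a : A →⋆ₐ[ℂ] D) (b : C(X, ℂ) →⋆ₐ[ℂ] D) (hab : ∀ x f, a x * b f = b f * a x)
    {ι : Type} [Fintype ι] (f : ι → C(X, ℂ)) (x : ι → A) :
    ‖∑ i, b (f i) * a (x i)‖ ≤ ‖∑ i, sc X A (f i) * cns X A (x i)‖ := by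
  classical
  set F : C(X, A) := ∑ i, sc X A (f i) * cns X A (x i) with hF
  set M : ℝ := ∑ i, ‖x i‖ with hM
  have hM0 : 0 ≤ M := Finset.sum_nonneg fun _ _ => norm_nonneg _
  refine le_of_forall_pos_le_add fun ε hε => ?_
  set δ : ℝ := ε / (M + 1) with hδ
  have hδ0 : 0 < δ := by positivity
  have hMδ : M * δ ≤ ε := by
    rw [hδ, ← mul_div_assoc, div_le_iff₀ (by positivity)]
    nlinarith
  let Φ : C(X, ι → ℂ) := ⟨fun y i => f i y, continuous_pi fun i => (f i).continuous⟩
  obtain ⟨κ, hκ, p, χ, h1, h2⟩ := tens_pou Φ δ hδ0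
  have h2' : ∀ k y, χ k y ≠ 0 → ∀ i, ‖f i y - f i (p k)‖ ≤ δ := by
    intro k y hy i
    have h3 := h2 k y hy
    have h4 := (dist_le_pi_dist (Φ y) (Φ (p k)) i).trans h3
    rwa [dist_eq_norm] at h4
  let χc : κ → C(X, ℂ) := fun k => ⟨fun y => ((χ k y : ℝ) : ℂ),
    Complex.continuous_ofReal.comp (χ k).continuous⟩
  have hχ : ∀ k y, χc k y = ((χ k y : ℝ) : ℂ) := fun _ _ => rfl
  have hstar : ∀ k, star (χc k) = χc k := by
    intro k
    ext y
    rw [ContinuousMap.star_apply, hχ, Complex.star_def, Complex.conj_ofReal]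
  have hone : ∑ k, χc k * χc k = 1 := by
    ext y
    rw [ContinuousMap.sum_apply, ContinuousMap.one_apply]
    have h3 : ∀ k, (χc k * χc k) y = ((χ k y ^ 2 : ℝ) : ℂ) := by
      intro k
      rw [ContinuousMap.mul_apply, hχ]
      push_cast
      ring
    rw [Finset.sum_congr rfl fun k _ => h3 k, ← Complex.ofReal_sum, h1]
    simp
  have hFp : ∀ y, F y = ∑ i, f i y • x i := by
    intro y
    rw [hF, ContinuousMap.sum_apply]
    refine Finset.sum_congr rfl fun i _ => ?_
    rw [ContinuousMap.mul_apply, sc_apply, cns_apply, Algebra.smul_def]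
  set V : D := ∑ k, b (χc k) * a (F (p k)) * b (χc k) with hV
  have hVn : ‖V‖ ≤ ‖F‖ := by
    have hrow : ‖∑ k, b (χc k) * star (b (χc k))‖ ≤ 1 ^ 2 := by
      have h3 : ∑ k, b (χc k) * star (b (χc k)) = 1 := by
        have h4 : ∀ k, b (χc k) * star (b (χc k)) = b (χc k * χc k) := by
          intro k
          rw [← map_star, hstar, map_mul]
        rw [Finset.sum_congr rfl fun k _ => h4 k, ← map_sum, hone, map_one]
      rw [h3]
      rcases subsingleton_or_nontrivial D with h5 | h5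
      · rw [Subsingleton.elim (1 : D) 0, norm_zero]
        norm_num
      · rw [CStarRing.norm_one]
        norm_num
    have hdiag := MM.norm_diag_le (fun k => a (F (p k))) ‖F‖ (norm_nonneg _) (fun k =>
      (NonUnitalStarAlgHom.norm_apply_le a (F (p k))).trans (F.norm_coe_le_norm (p k)))
    have h6 := MM.norm_sand_le (MM.of (fun i j => if i = j then a (F (p i)) else 0))
      (fun k => b (χc k)) (fun k => b (χc k)) 1 1 zero_le_one zero_le_one hrow hrow
    have h7 : ∑ i, ∑ j, b (χc i) * MM.e (MM.of (fun i j => if i = j then a (F (p i)) else 0)) i j *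
        star (b (χc j)) = V := by
      rw [hV]
      refine Finset.sum_congr rfl fun i _ => ?_
      rw [Finset.sum_eq_single i]
      · rw [MM.e_of, if_pos rfl, ← map_star, hstar]
      · intro j _ hj
        rw [MM.e_of, if_neg (Ne.symm hj), mul_zero, zero_mul]
      · intro h8
        exact absurd (Finset.mem_univ _) h8
    rw [h7] at h6
    calc ‖V‖ ≤ _ := h6
      _ ≤ 1 * 1 * ‖F‖ := by gcongr
      _ = ‖F‖ := by ring
  have hV2 : V = ∑ i, b (∑ k, f i (p k) • (χc k * χc k)) * a (x i) := by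
    have h3 : ∀ k, b (χc k) * a (F (p k)) * b (χc k) =
        ∑ i, (f i (p k)) • (b (χc k * χc k) * a (x i)) := by
      intro k
      rw [mul_assoc, hab, ← mul_assoc, ← map_mul, hFp, map_sum, Finset.mul_sum]
      refine Finset.sum_congr rfl fun i _ => ?_
      rw [map_smul, mul_smul_comm]
    rw [hV, Finset.sum_congr rfl fun k _ => h3 k, Finset.sum_comm]
    refine Finset.sum_congr rfl fun i _ => ?_
    rw [map_sum, Finset.sum_mul]
    refine Finset.sum_congr rfl fun k _ => ?_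
    rw [map_smul, smul_mul_assoc]
  have hdiff : ‖(∑ i, b (f i) * a (x i)) - V‖ ≤ M * δ := by
    rw [hV2, ← Finset.sum_sub_distrib, hM, Finset.sum_mul]
    refine (norm_sum_le _ _).trans (Finset.sum_le_sum fun i _ => ?_)
    rw [← sub_mul, ← map_sub]
    have h3 : ‖f i - ∑ k, f i (p k) • (χc k * χc k)‖ ≤ δ := by
      rw [ContinuousMap.norm_le _ hδ0.le]
      intro y
      have h4 : (f i - ∑ k, f i (p k) • (χc k * χc k)) y =
          ∑ k, ((χ k y ^ 2 : ℝ) : ℂ) * (f i y - f i (p k)) := by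
        rw [ContinuousMap.sub_apply, ContinuousMap.sum_apply]
        have h5 : f i y = ∑ k, ((χ k y ^ 2 : ℝ) : ℂ) * f i y := by
          rw [← Finset.sum_mul, ← Complex.ofReal_sum, h1]
          simp
        rw [h5, ← Finset.sum_sub_distrib]
        refine Finset.sum_congr rfl fun k _ => ?_
        rw [ContinuousMap.smul_apply, ContinuousMap.mul_apply, hχ, smul_eq_mul, mul_sub, ← h5]
        push_cast
        ring
      rw [h4]
      calc ‖∑ k, ((χ k y ^ 2 : ℝ) : ℂ) * (f i y - f i (p k))‖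
          ≤ ∑ k, χ k y ^ 2 * δ := by
            refine (norm_sum_le _ _).trans (Finset.sum_le_sum fun k _ => ?_)
            rw [norm_mul, Complex.norm_real, Real.norm_of_nonneg (sq_nonneg _)]
            by_cases h6 : χ k y = 0
            · rw [h6]
              simp
            · exact mul_le_mul_of_nonneg_left (h2' k y h6 i) (sq_nonneg _)
        _ = δ := by rw [← Finset.sum_mul, h1, one_mul]
    calc ‖b (f i - ∑ k, f i (p k) • (χc k * χc k)) * a (x i)‖
        ≤ ‖b (f i - ∑ k, f i (p k) • (χc k * χc k))‖ * ‖a (x i)‖ := norm_mul_le _ _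
      _ ≤ δ * ‖x i‖ := by
          gcongr
          · exact (NonUnitalStarAlgHom.norm_apply_le b _).trans h3
          · exact NonUnitalStarAlgHom.norm_apply_le a _
      _ = ‖x i‖ * δ := mul_comm _ _
  calc ‖∑ i, b (f i) * a (x i)‖ = ‖((∑ i, b (f i) * a (x i)) - V) + V‖ := by
        rw [sub_add_cancel]
    _ ≤ ‖(∑ i, b (f i) * a (x i)) - V‖ + ‖V‖ := norm_add_le _ _
    _ ≤ M * δ + ‖F‖ := add_le_add hdiff hVn
    _ ≤ ‖F‖ + ε := by linarith

/-- The graph of the homomorphism on the finite sums. -/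
def tens_gr (a : A →⋆ₐ[ℂ] D) (b : C(X, ℂ) →⋆ₐ[ℂ] D) (p : C(X, A) × D) : Prop :=
  ∃ (ι : Type) (_ : Fintype ι) (f : ι → C(X, ℂ)) (x : ι → A),
    p.1 = ∑ i, sc X A (f i) * cns X A (x i) ∧ p.2 = ∑ i, b (f i) * a (x i)

/-- The graph as a star subalgebra. -/
noncomputable def tens_sub (a : A →⋆ₐ[ℂ] D) (b : C(X, ℂ) →⋆ₐ[ℂ] D)
    (hab : ∀ x f, a x * b f = b f * a x) : StarSubalgebra ℂ (C(X, A) × D) where
  carrier := {p | tens_gr a b p}
  mul_mem' := by
    rintro p q ⟨ι, hι, f, x, h1, h2⟩ ⟨κ, hκ, g, y, h3, h4⟩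
    refine ⟨ι × κ, inferInstance, fun i => f i.1 * g i.2, fun i => x i.1 * y i.2, ?_, ?_⟩
    · rw [Prod.fst_mul, h1, h3, Finset.sum_mul_sum, Fintype.sum_prod_type]
      refine Finset.sum_congr rfl fun i _ => Finset.sum_congr rfl fun j _ => ?_
      rw [map_mul, map_mul, mul_assoc, mul_assoc, ← mul_assoc (cns X A (x i)), ← sc_cns_comm,
        mul_assoc]
    · rw [Prod.snd_mul, h2, h4, Finset.sum_mul_sum, Fintype.sum_prod_type]
      refine Finset.sum_congr rfl fun i _ => Finset.sum_congr rfl fun j _ => ?_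
      rw [map_mul, map_mul, mul_assoc, mul_assoc, ← mul_assoc (a (x i)), hab, mul_assoc]
  add_mem' := by
    rintro p q ⟨ι, hι, f, x, h1, h2⟩ ⟨κ, hκ, g, y, h3, h4⟩
    refine ⟨ι ⊕ κ, inferInstance, Sum.elim f g, Sum.elim x y, ?_, ?_⟩
    · rw [Prod.fst_add, h1, h3, Fintype.sum_sum_type]
      rfl
    · rw [Prod.snd_add, h2, h4, Fintype.sum_sum_type]
      rfl
  algebraMap_mem' := by
    intro r
    refine ⟨Unit, inferInstance, fun _ => algebraMap ℂ _ r, fun _ => 1, ?_, ?_⟩
    · rw [Fintype.sum_unique, map_one, mul_one, AlgHomClass.commutes]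
      rfl
    · rw [Fintype.sum_unique, map_one, mul_one, AlgHomClass.commutes]
      rfl
  star_mem' := by
    rintro p ⟨ι, hι, f, x, h1, h2⟩
    refine ⟨ι, hι, fun i => star (f i), fun i => star (x i), ?_, ?_⟩
    · rw [Prod.fst_star, h1, star_sum]
      refine Finset.sum_congr rfl fun i _ => ?_
      rw [star_mul, map_star, map_star, ← map_star, ← map_star, sc_cns_comm]
    · rw [Prod.snd_star, h2, star_sum]
      refine Finset.sum_congr rfl fun i _ => ?_
      rw [star_mul, ← map_star, ← map_star, hab]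

omit [T2Space X] in
theorem tens_mem (a : A →⋆ₐ[ℂ] D) (b : C(X, ℂ) →⋆ₐ[ℂ] D)
    (hab : ∀ x f, a x * b f = b f * a x) {p : C(X, A) × D} :
    p ∈ tens_sub a b hab ↔ tens_gr a b p := Iff.rfl

theorem tens_cl (a : A →⋆ₐ[ℂ] D) (b : C(X, ℂ) →⋆ₐ[ℂ] D)
    (hab : ∀ x f, a x * b f = b f * a x) {p : C(X, A) × D}
    (hp : p ∈ (tens_sub a b hab).topologicalClosure) : ‖p.2‖ ≤ ‖p.1‖ := by
  have h1 : IsClosed {p : C(X, A) × D | ‖p.2‖ ≤ ‖p.1‖} :=
    isClosed_le continuous_snd.norm continuous_fst.norm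
  have h2 : ((tens_sub a b hab : StarSubalgebra ℂ (C(X, A) × D)) : Set (C(X, A) × D)) ⊆
      {p : C(X, A) × D | ‖p.2‖ ≤ ‖p.1‖} := by
    intro p hp
    obtain ⟨ι, hι, f, x, h3, h4⟩ := (tens_mem a b hab).1 hp
    show ‖p.2‖ ≤ ‖p.1‖
    rw [h3, h4]
    exact tens_bd a b hab f x
  have h3 : p ∈ closure ((tens_sub a b hab : StarSubalgebra ℂ (C(X, A) × D)) :
      Set (C(X, A) × D)) := by
    rw [← StarSubalgebra.topologicalClosure_coe]
    exact hp
  exact closure_minimal h2 h1 h3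

theorem tens_ex (a : A →⋆ₐ[ℂ] D) (b : C(X, ℂ) →⋆ₐ[ℂ] D)
    (hab : ∀ x f, a x * b f = b f * a x) (F : C(X, A)) :
    ∃ d, (F, d) ∈ (tens_sub a b hab).topologicalClosure := by
  have h1 : ∀ n : ℕ, ∃ p : C(X, A) × D, p ∈ tens_sub a b hab ∧ ‖F - p.1‖ ≤ 1 / ((n : ℝ) + 1) := by
    intro n
    obtain ⟨m, g, x, h2⟩ := exists_approx F (1 / ((n : ℝ) + 1)) (by positivity)
    exact ⟨(∑ i, sc X A (g i) * cns X A (x i), ∑ i, b (g i) * a (x i)),
      ⟨Fin m, inferInstance, g, x, rfl, rfl⟩, h2⟩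
  choose p hp hpn using h1
  have ht : Tendsto (fun n => (p n).1) atTop (𝓝 F) := by
    rw [tendsto_iff_norm_sub_tendsto_zero]
    refine squeeze_zero (fun _ => norm_nonneg _) (fun n => ?_)
      tendsto_one_div_add_atTop_nhds_zero_nat
    rw [norm_sub_rev]
    exact hpn n
  have hc : CauchySeq fun n => (p n).2 := by
    have h3 := ht.cauchySeq
    rw [Metric.cauchySeq_iff] at h3 ⊢
    intro ε hε
    obtain ⟨N, hN⟩ := h3 ε hε
    refine ⟨N, fun m hm n hn => ?_⟩
    have h4 : p m - p n ∈ (tens_sub a b hab).topologicalClosure :=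
      StarSubalgebra.le_topologicalClosure _ (sub_mem (hp m) (hp n))
    have h5 := tens_cl a b hab h4
    rw [Prod.snd_sub, Prod.fst_sub] at h5
    have h6 := hN m hm n hn
    rw [dist_eq_norm] at h6 ⊢
    exact h5.trans_lt h6
  obtain ⟨d, hd⟩ := cauchySeq_tendsto_of_complete hc
  refine ⟨d, ?_⟩
  have h7 : Tendsto p atTop (𝓝 (F, d)) := by
    have h8 : Tendsto (fun n => ((p n).1, (p n).2)) atTop (𝓝 (F, d)) := ht.prodMk_nhds hd
    exact h8
  exact (StarSubalgebra.isClosed_topologicalClosure (tens_sub a b hab)).mem_of_tendsto h7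
    (Eventually.of_forall fun n => StarSubalgebra.le_topologicalClosure _ (hp n))

theorem tens_uniq (a : A →⋆ₐ[ℂ] D) (b : C(X, ℂ) →⋆ₐ[ℂ] D)
    (hab : ∀ x f, a x * b f = b f * a x) {F : C(X, A)} {d d' : D}
    (h1 : (F, d) ∈ (tens_sub a b hab).topologicalClosure)
    (h2 : (F, d') ∈ (tens_sub a b hab).topologicalClosure) : d = d' := by
  have h3 := tens_cl a b hab (sub_mem h1 h2)
  rw [Prod.snd_sub, Prod.fst_sub, sub_self, norm_zero] at h3
  exact sub_eq_zero.1 (norm_le_zero_iff.1 h3)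

/-- The homomorphism `f ⊗ a ↦ b f * a a`.

Proof. Call `(n, χ, y)` (with `χ k : C(X, ℝ)`, `k < n`, nonnegative, `∑ χ k ^ 2 = 1`, `y k : A`) an
`ε`-approximation of `F` if `‖F x - y k‖ ≤ ε` whenever `χ k x ≠ 0`; its value is
`V = ∑ b (χ k ^ 2) * a (y k) = ∑ b (χ k) * a (y k) * b (χ k)`. They exist for every `ε > 0`
(partition of unity; square roots). Since `∑ b (χ k) * star (b (χ k)) = 1`,
`‖∑ b (χ k) * a (z k) * b (χ k)‖ ≤ max ‖z k‖` (row times diagonal matrix times column;
see `MM.norm_sand_le`, `MM.norm_diag_le` in `MM.lean` of this folder).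
For two approximations `(χ, y)` and `(ψ, z)` of `F` use the common refinement `χ k * ψ m`: the
difference of the values is `∑ b (χ k ^ 2 * ψ m ^ 2) * a (y k - z m)`, which has norm at most
`ε + δ`. So the values of `1/n`-approximations converge, to a limit `t F` which does not depend on the
choices, and `‖t F - V‖ ≤ ε` for every `ε`-approximation. Additivity, multiplicativity: for
common refinements `V_F + V_G` is the value of an approximation of `F + G`, and
`V_F * V_G = ∑ b (χ k ^ 2 * ψ m ^ 2) * a (y k * z m)` is the value of an approximation of `F * G`. -/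
theorem exists_tens (a : A →⋆ₐ[ℂ] D) (b : C(X, ℂ) →⋆ₐ[ℂ] D) (hab : ∀ x f, a x * b f = b f * a x) :
    ∃ t : C(X, A) →⋆ₐ[ℂ] D, (∀ x, t (cns X A x) = a x) ∧ ∀ f, t (sc X A f) = b f := by
  choose t ht using tens_ex a b hab
  have hu : ∀ {F : C(X, A)} {d : D}, (F, d) ∈ (tens_sub a b hab).topologicalClosure → t F = d :=
    fun h => tens_uniq a b hab (ht _) h
  refine ⟨{ toFun := t
            map_one' := hu (one_mem _)
            map_mul' := fun F G => hu (mul_mem (ht F) (ht G))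
            map_zero' := hu (zero_mem _)
            map_add' := fun F G => hu (add_mem (ht F) (ht G))
            commutes' := fun r => hu (algebraMap_mem _ r)
            map_star' := fun F => hu (star_mem (ht F)) }, ?_, ?_⟩
  · intro x
    refine hu (StarSubalgebra.le_topologicalClosure _ ?_)
    refine ⟨Unit, inferInstance, fun _ => 1, fun _ => x, ?_, ?_⟩
    · rw [Fintype.sum_unique, map_one, one_mul]
    · rw [Fintype.sum_unique, map_one, one_mul]
  · intro f
    refine hu (StarSubalgebra.le_topologicalClosure _ ?_)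
    refine ⟨Unit, inferInstance, fun _ => f, fun _ => 1, ?_, ?_⟩
    · rw [Fintype.sum_unique, map_one, mul_one]
    · rw [Fintype.sum_unique, map_one, mul_one]

/-- The homomorphism given by commuting homomorphisms. -/
noncomputable def tens (a : A →⋆ₐ[ℂ] D) (b : C(X, ℂ) →⋆ₐ[ℂ] D)
    (hab : ∀ x f, a x * b f = b f * a x) : C(X, A) →⋆ₐ[ℂ] D := (exists_tens a b hab).choose

theorem tens_cns (a : A →⋆ₐ[ℂ] D) (b : C(X, ℂ) →⋆ₐ[ℂ] D) (hab : ∀ x f, a x * b f = b f * a x)
    (x : A) : tens a b hab (cns X A x) = a x := (exists_tens a b hab).choose_spec.1 x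

theorem tens_sc (a : A →⋆ₐ[ℂ] D) (b : C(X, ℂ) →⋆ₐ[ℂ] D) (hab : ∀ x f, a x * b f = b f * a x)
    (f : C(X, ℂ)) : tens a b hab (sc X A f) = b f := (exists_tens a b hab).choose_spec.2 f

/-- By `tens_ext`. -/
theorem tens_comp {D' : Type} [CStarAlgebra D'] (a : A →⋆ₐ[ℂ] D) (b : C(X, ℂ) →⋆ₐ[ℂ] D)
    (hab : ∀ x f, a x * b f = b f * a x) (φ : D →⋆ₐ[ℂ] D') (F : C(X, A)) :
    φ (tens a b hab F) = tens (φ.comp a) (φ.comp b) (fun x f => by
      simp only [StarAlgHom.comp_apply, ← map_mul, hab]) F := by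
  have h1 : φ.comp (tens a b hab) = tens (φ.comp a) (φ.comp b) (fun x f => by
      simp only [StarAlgHom.comp_apply, ← map_mul, hab]) := by
    refine tens_ext (fun x => ?_) fun f => ?_
    · rw [StarAlgHom.comp_apply, tens_cns, tens_cns, StarAlgHom.comp_apply]
    · rw [StarAlgHom.comp_apply, tens_sc, tens_sc, StarAlgHom.comp_apply]
  rw [← h1]
  rfl

/-- Continuity in a parameter: approximate `F` (`exists_approx`) and use that homomorphisms are
contractive. -/
theorem tens_path {T : Type} [TopologicalSpace T] (a : T → A →⋆ₐ[ℂ] D) (b : T → C(X, ℂ) →⋆ₐ[ℂ] D)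
    (hab : ∀ s x f, a s x * b s f = b s f * a s x) (ha : ∀ x, Continuous fun s => a s x)
    (hb : ∀ f, Continuous fun s => b s f) (F : C(X, A)) :
    Continuous fun s => tens (a s) (b s) (hab s) F := by
  refine continuous_of_uniform_approx_of_continuous fun u hu => ?_
  obtain ⟨ε, hε, h1⟩ := Metric.mem_uniformity_dist.1 hu
  obtain ⟨n, g, x, h2⟩ := exists_approx F (ε / 2) (by positivity)
  refine ⟨fun s => ∑ i, b s (g i) * a s (x i), ?_, fun s => h1 ?_⟩
  · exact continuous_finsetSum _ fun i _ => (hb (g i)).mul (ha (x i))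
  · have h3 : ∑ i, b s (g i) * a s (x i) =
        tens (a s) (b s) (hab s) (∑ i, sc X A (g i) * cns X A (x i)) := by
      rw [map_sum]
      refine Finset.sum_congr rfl fun i _ => ?_
      rw [map_mul, tens_sc, tens_cns]
    show dist (tens (a s) (b s) (hab s) F) (∑ i, b s (g i) * a s (x i)) < ε
    rw [h3, dist_eq_norm, ← map_sub]
    calc ‖tens (a s) (b s) (hab s) (F - ∑ i, sc X A (g i) * cns X A (x i))‖
        ≤ ‖F - ∑ i, sc X A (g i) * cns X A (x i)‖ := NonUnitalStarAlgHom.norm_apply_le _ _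
      _ ≤ ε / 2 := h2
      _ < ε := by linarith

end H7c
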