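import Pool.Agent.H.MP_7b4a29_c.CycM
import Pool.Agent.H.MP_7b4a29_c.RowC
import Pool.Agent.H.MP_7b4a29_c.Tens

/-!
# Composition of cycles with based homomorphisms
-/

open Filter Topology

namespace H7c

variable {I : Ix} {P : Type} [CStarAlgebra P] {τ : P →ₗ[ℂ] ℂ}

/-- Based homomorphisms `C(Y') → C(Y, RM N ℂ)`. -/
structure BH (N : Sz I) (Y : Type) [TopologicalSpace Y] [CompactSpace Y] (y0 : Y) (Y' : Type)
    [TopologicalSpace Y'] [CompactSpace Y'] (y0' : Y') where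
  h : C(Y', ℂ) →⋆ₐ[ℂ] C(Y, RM N ℂ)
  base : ∀ f, h f y0 = algebraMap ℂ (RM N ℂ) (f y0')

variable {S N : Sz I} {Y : Type} [TopologicalSpace Y] [CompactSpace Y] [T2Space Y] {y0 : Y}
  {Y' : Type} [TopologicalSpace Y'] [CompactSpace Y'] [T2Space Y'] {y0' : Y'}

/-- The extension of a cycle to functions with values in matrices. -/
noncomputable def ext (N : Sz I) (k : C(Y, ℂ) →⋆ₐ[ℂ] RM S P) :
    C(Y, RM N ℂ) →⋆ₐ[ℂ] RM (S.prod N) P :=
  tens (sclR S P N) ((ampR S N).comp k) (fun x f => (ampR_sclR_comm (k f) x).symm)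

theorem ext_cns (k : C(Y, ℂ) →⋆ₐ[ℂ] RM S P) (x : RM N ℂ) :
    ext N k (cns Y (RM N ℂ) x) = sclR S P N x := tens_cns _ _ _ x

theorem ext_sc (k : C(Y, ℂ) →⋆ₐ[ℂ] RM S P) (f : C(Y, ℂ)) :
    ext N k (sc Y (RM N ℂ) f) = ampR S N (k f) := tens_sc _ _ _ f

open scoped CStarAlgebra in
theorem cmp_cont {A B : Type} [CStarAlgebra A] [CStarAlgebra B] (φ : A →⋆ₐ[ℂ] B) :
    Continuous φ := map_continuous φ

theorem cmp_elem (c : CM τ Y y0 S) (g : C(Y, ℂ)) (x : RM N ℂ) :
    ext N c.κ (sc Y (RM N ℂ) g * cns Y (RM N ℂ) x) -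
      sclR S P N ((sc Y (RM N ℂ) g * cns Y (RM N ℂ) x) y0) =
      ampR S N (c.hat g) * sclR S P N x := by
  have h1 : (sc Y (RM N ℂ) g * cns Y (RM N ℂ) x) y0 = algebraMap ℂ (RM N ℂ) (g y0) * x := rfl
  rw [map_mul, ext_sc, ext_cns, h1, map_mul, AlgHomClass.commutes, ← sub_mul, Cyc.hat, map_sub,
    AlgHomClass.commutes]

/-- By `cxa_induction`: for `F = sc g * cns x` the difference is `ampR (hat g) * sclR x`. -/
theorem ext_sup (c : CM τ Y y0 S) (F : C(Y, RM N ℂ)) :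
    ampR S N c.ζ * (ext N c.κ F - sclR S P N (F y0)) = -(ext N c.κ F - sclR S P N (F y0)) := by
  have hc1 : Continuous fun F : C(Y, RM N ℂ) => ext N c.κ F - sclR S P N (F y0) :=
    (cmp_cont (ext N c.κ)).sub
      ((cmp_cont (sclR S P N)).comp (continuous_eval_const y0))
  refine cxa_induction (fun F => ampR S N c.ζ * (ext N c.κ F - sclR S P N (F y0)) =
    -(ext N c.κ F - sclR S P N (F y0))) ?_ ?_ ?_ ?_ F
  · rw [map_zero, ContinuousMap.zero_apply, map_zero, sub_zero, mul_zero, neg_zero]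
  · intro F G hF hG
    rw [map_add, ContinuousMap.add_apply, map_add, add_sub_add_comm, mul_add, hF, hG, neg_add]
  · intro f a
    rw [cmp_elem, ← mul_assoc, ← map_mul, c.zeta_hat, map_neg, neg_mul]
  · exact isClosed_eq (continuous_const.mul hc1) hc1.neg

variable (hτ : PTr τ) (hN : N.PB)

/-- The composition of a matrix cycle with a based homomorphism. -/
noncomputable def com (c : CM τ Y y0 S) (J : BH N Y y0 Y' y0') : CM τ Y' y0' (S.prod N) where
  κ := (ext N c.κ).comp J.h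
  ζ := ampR S N c.ζ
  u1 := by
    rw [← map_star, ← map_mul, c.u1, map_one]
  u2 := by
    rw [← map_star, ← map_mul, c.u2, map_one]
  j := by
    have h := ampR_J (S := S) hτ hN c.j
    rwa [map_sub, map_one] at h
  sup := by
    intro f
    have h := ext_sup c (J.h f)
    rw [J.base, AlgHomClass.commutes] at h
    exact h

theorem com_kappa (c : CM τ Y y0 S) (J : BH N Y y0 Y' y0') (f : C(Y', ℂ)) :
    (com hτ hN c J).κ f = ext N c.κ (J.h f) := rfl

theorem com_zeta (c : CM τ Y y0 S) (J : BH N Y y0 Y' y0') :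
    (com hτ hN c J).ζ = ampR S N c.ζ := rfl

/-- A cycle over `R1 I P` as a cycle of size one. -/
noncomputable def lft (c : C1 I τ Y y0) : CM τ Y y0 (Sz.one I) :=
  c.mapD (unoR P) (fun _ ha => unoR_J ha)

theorem lft_kappa (c : C1 I τ Y y0) (f : C(Y, ℂ)) : (lft c).κ f = unoR P (c.κ f) := rfl

theorem lft_hat (c : C1 I τ Y y0) (f : C(Y, ℂ)) : (lft c).hat f = unoR P (c.hat f) :=
  c.mapD_hat _ _ f

theorem lft_zeta (c : C1 I τ Y y0) : (lft c).ζ = unoR P c.ζ := rfl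

theorem cmp_com_hat (c : CM τ Y y0 S) (J : BH N Y y0 Y' y0') (f : C(Y', ℂ)) :
    (com hτ hN c J).hat f = ext N c.κ (J.h f) - sclR S P N (J.h f y0) := by
  rw [Cyc.hat, com_kappa, J.base, AlgHomClass.commutes]

theorem cmp_ind {S' : Sz I} {B : Type} [CStarAlgebra B] (c : CM τ Y y0 S) (d : CM τ Y y0 S')
    (Λ : RM (S.prod N) P →ₗ[ℂ] B) (Λ' : RM (S'.prod N) P →ₗ[ℂ] B) (hΛ : Continuous Λ)
    (hΛ' : Continuous Λ')
    (h : ∀ (g : C(Y, ℂ)) (x : RM N ℂ), Λ (ampR S N (c.hat g) * sclR S P N x) =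
      Λ' (ampR S' N (d.hat g) * sclR S' P N x)) (F : C(Y, RM N ℂ)) :
    Λ (ext N c.κ F - sclR S P N (F y0)) = Λ' (ext N d.κ F - sclR S' P N (F y0)) := by
  have hc1 : Continuous fun F : C(Y, RM N ℂ) => ext N c.κ F - sclR S P N (F y0) :=
    (cmp_cont (ext N c.κ)).sub
      ((cmp_cont (sclR S P N)).comp (continuous_eval_const y0))
  have hc2 : Continuous fun F : C(Y, RM N ℂ) => ext N d.κ F - sclR S' P N (F y0) :=
    (cmp_cont (ext N d.κ)).sub
      ((cmp_cont (sclR S' P N)).comp (continuous_eval_const y0))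
  refine cxa_induction (fun F => Λ (ext N c.κ F - sclR S P N (F y0)) =
    Λ' (ext N d.κ F - sclR S' P N (F y0))) ?_ ?_ ?_ ?_ F
  · rw [map_zero, ContinuousMap.zero_apply, map_zero, sub_zero, map_zero, map_zero, map_zero,
      sub_zero, map_zero]
  · intro F G hF hG
    rw [map_add, ContinuousMap.add_apply, map_add, add_sub_add_comm, map_add, hF, hG, ← map_add,
      ← add_sub_add_comm, ← map_add, ← map_add]
  · intro f a
    rw [cmp_elem, cmp_elem, h]
  · exact isClosed_eq (hΛ.comp hc1) (hΛ'.comp hc2)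

theorem cmp_com_hat_eq {c d : CM τ Y y0 S} (h : ∀ f, c.hat f = d.hat f)
    (J : BH N Y y0 Y' y0') (f : C(Y', ℂ)) :
    (com hτ hN c J).hat f = (com hτ hN d J).hat f := by
  rw [cmp_com_hat, cmp_com_hat]
  exact cmp_ind c d LinearMap.id LinearMap.id continuous_id continuous_id
    (fun g x => by rw [h]) (J.h f)

/-- Compressing first and composing then is the same as composing first and compressing then.

Proof. Let `c f^ = X d^ X*` (`hc`). Let `Z` be a row of size `1 × N`, adapted to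
`ampR (unoR c.ζ)`, and let `c1` be the compression of `com (lft c) J` by `Z`. Claim:
`c1.hat f = sand (comp (strip Z) X) (comp (strip Z) X) ((com d J).hat f)`. Indeed the two sides depend
linearly and continuously on `F = J.h f`: put, for `F : C(Y, RM N ℂ)`,
`L F = sand Z Z (ext (lft c).κ F - sclR (F y0))` and
`R F = sand (comp (strip Z) X) (comp (strip Z) X) (ext d.κ F - sclR (F y0))`; for `F = sc g * cns x` these are
`sand Z Z (ampR (unoR (c.hat g)) * sclR x)` and `sand .. (ampR (d.hat g) * sclR x)`, equal by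
`Row.sand_comp`. So `L = R` by `cxa_induction`. The row `comp (strip Z) X` is adapted to
`ampR d.ζ` by `Row.comp_ad` if `c.ζ - 1 = sand X X (d.ζ - 1)` (`hz`). Now `eqv_cmp`. -/
theorem eqvM_com_cmp_aux (d : CM τ Y y0 S) (X : Row S P) (hX : X.Ad d.ζ) (c : C1 I τ Y y0)
    (hc : ∀ f, c.hat f = Row.sand X X (d.hat f)) (hz : c.ζ = 1 + Row.sand X X (d.ζ - 1))
    (J : BH N Y y0 Y' y0') : EqvM (com hτ hN (lft c) J) (com hτ hN d J) := by
  intro Z X2 e1 e2 hZ hX2 he1 he2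
  have hz' : c.ζ - 1 = Row.sand X X (d.ζ - 1) := by rw [hz, add_sub_cancel_left]
  have hz2 : ampR (Sz.one I) N (unoR P (Row.sand X X (d.ζ - 1))) =
      (com hτ hN (lft c) J).ζ - 1 := by
    rw [← hz', map_sub, map_one, map_sub, map_one]
    rfl
  have hs : star (Row.gram X X) = Row.gram X X := Row.gram_star X X
  have had : (Row.comp (Row.strip Z) X).Ad (com hτ hN d J).ζ := by
    have h1 := Row.comp_ad Z X (d.ζ - 1) hX (d.zeta_sub_mul_of hs hX) (by
      rw [hz2]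
      exact hZ)
    rw [map_sub, map_one] at h1
    exact h1
  refine eqv_cmp (com hτ hN d J) (Row.comp (Row.strip Z) X) X2 had hX2 (fun f => ?_) he2
  rw [he1, cmp_com_hat, cmp_com_hat]
  refine cmp_ind (lft c) d (Row.sand Z Z)
    (Row.sand (Row.comp (Row.strip Z) X) (Row.comp (Row.strip Z) X)) (Row.sand_continuous _ _)
    (Row.sand_continuous _ _) (fun g x => ?_) (J.h f)
  rw [lft_hat, hc]
  exact Row.sand_comp Z Z X X (Row.strip Z) (Row.strip Z) (fun _ _ => rfl) (fun _ _ => rfl)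
    (d.hat g) x

/-- The same without the condition on `c.ζ`: compare with `cmp hτ X d hX`, which has the same `hat`
(`eqvM_of_hat`, `EqvM.trans`). -/
theorem eqvM_com_cmp (hR : Rowy I τ) (d : CM τ Y y0 S) (X : Row S P) (hX : X.Ad d.ζ)
    (c : C1 I τ Y y0) (hc : ∀ f, c.hat f = Row.sand X X (d.hat f))
    (J : BH N Y y0 Y' y0') : EqvM (com hτ hN (lft c) J) (com hτ hN d J) := by
  have h1 : EqvM (com hτ hN (lft c) J) (com hτ hN (lft (cmp hτ X d hX)) J) := by
    refine eqvM_of_hat hτ hR fun f => ?_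
    refine cmp_com_hat_eq hτ hN (fun g => ?_) J f
    rw [lft_hat, lft_hat, hc, cmp_hat]
  exact EqvM.trans hτ hR h1 (eqvM_com_cmp_aux hτ hN d X hX (cmp hτ X d hX)
    (cmp_hat hτ X d hX) (cmp_zeta hτ X d hX) J)

/-- The path of the compositions. -/
noncomputable def cmp_pth (p : Pth (J1 I τ) Y y0) (J : BH N Y y0 Y' y0') :
    Pth (JM ((Sz.one I).prod N) τ) Y' y0' where
  k s := (ext N ((unoR P).comp (p.k s))).comp J.h
  ζ := ampR (Sz.one I) N (unoR P p.ζ)
  u1 := (com hτ hN (lft (p.at 0)) J).u1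
  u2 := (com hτ hN (lft (p.at 0)) J).u2
  j := (com hτ hN (lft (p.at 0)) J).j
  sup s f := (com hτ hN (lft (p.at s)) J).sup f
  cont f := by
    refine tens_path (fun _ => sclR (Sz.one I) P N)
      (fun s => (ampR (Sz.one I) N).comp ((unoR P).comp (p.k s)))
      (fun s x f => (ampR_sclR_comm (unoR P (p.k s f)) x).symm) (fun x => continuous_const)
      (fun f => ?_) (J.h f)
    exact (cmp_cont (ampR (Sz.one I) N)).comp ((cmp_cont (unoR P)).comp (p.cont f))

/-- Composition preserves the equivalence.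

Proof. `Eqv.map` with `G c e` the relation: `e` is a compression (by some adapted row) of
`com (lft c) J`. For `Rel1`: `eqvM_com_cmp` twice and `EqvM.trans`. For `Rel2`: the path
`s ↦ ext N (unoR ∘ p.k s) (J.h f)` is continuous by `tens_path` (the ends have the same `κ` as the
given cycles), then `eqvM_of_path`. Any two compressions of one cycle are equivalent (`EqvM.refl`). -/
theorem eqvM_com_lft (hR : Rowy I τ) {c c' : C1 I τ Y y0} (h : Eqv c c')
    (J : BH N Y y0 Y' y0') : EqvM (com hτ hN (lft c) J) (com hτ hN (lft c') J) := by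
  intro X X' e e' hX hX' he he'
  refine Eqv.map (fun (c : C1 I τ Y y0) (e : C1 I τ Y' y0') =>
    ∃ Z : Row ((Sz.one I).prod N) P, Z.Ad (com hτ hN (lft c) J).ζ ∧
      ∀ f, e.hat f = Row.sand Z Z ((com hτ hN (lft c) J).hat f)) ?_ ?_ ?_ ?_ h
      ⟨X, hX, he⟩ ⟨X', hX', he'⟩
  · intro c
    obtain ⟨Z, hZ⟩ := hR ((Sz.one I).prod N) 1 (fun _ => (com hτ hN (lft c) J).ζ - 1)
      (fun _ => (com hτ hN (lft c) J).j)
    obtain ⟨e, he, -⟩ := exists_cmp hτ Z (com hτ hN (lft c) J) (hZ 0)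
    exact ⟨e, Z, hZ 0, he⟩
  · rintro c e e' ⟨Z, hZ, h1⟩ ⟨Z', hZ', h2⟩
    exact eqv_cmp (com hτ hN (lft c) J) Z Z' hZ hZ' h1 h2
  · rintro c c' e e' ⟨S, d, W, W', hW, hW', h3, h4⟩ ⟨Z, hZ, h1⟩ ⟨Z', hZ', h2⟩
    have k1 := eqvM_com_cmp hτ hN hR d W hW c h3 J
    have k2 := eqvM_com_cmp hτ hN hR d W' hW' c' h4 J
    exact EqvM.trans hτ hR k1 k2.symm Z Z' e e' hZ hZ' h1 h2
  · rintro c c' e e' ⟨p, h3, h4⟩ ⟨Z, hZ, h1⟩ ⟨Z', hZ', h2⟩
    have e0 : EqvM (com hτ hN (lft c) J) (com hτ hN (lft (p.at 0)) J) := by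
      refine eqvM_of_hat hτ hR fun f => ?_
      refine cmp_com_hat_eq hτ hN (fun g => ?_) J f
      rw [lft_hat, lft_hat, Cyc.hat, Cyc.hat, ← h3 g]
      rfl
    have e1 : EqvM (com hτ hN (lft (p.at 1)) J) (com hτ hN (lft c') J) := by
      refine eqvM_of_hat hτ hR fun f => ?_
      refine cmp_com_hat_eq hτ hN (fun g => ?_) J f
      rw [lft_hat, lft_hat, Cyc.hat, Cyc.hat, ← h4 g]
      rfl
    have e2 : EqvM (com hτ hN (lft (p.at 0)) J) (com hτ hN (lft (p.at 1)) J) :=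
      eqvM_of_path hτ hR (cmp_pth hτ hN p J) (fun f => rfl) (fun f => rfl)
    exact EqvM.trans hτ hR e0 (EqvM.trans hτ hR e2 e1) Z Z' e e' hZ hZ' h1 h2

/-- The same for matrix cycles: compress (`Rowy`, `cmp`), and use `eqvM_com_cmp`,
`eqvM_com_lft`, `EqvM.trans`. -/
theorem EqvM.com (hR : Rowy I τ) {S' : Sz I} {d : CM τ Y y0 S} {d' : CM τ Y y0 S'}
    (h : EqvM d d') (J : BH N Y y0 Y' y0') : EqvM (com hτ hN d J) (com hτ hN d' J) := by
  obtain ⟨X, hX⟩ := hR S 1 (fun _ => d.ζ - 1) (fun _ => d.j)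
  obtain ⟨X', hX'⟩ := hR S' 1 (fun _ => d'.ζ - 1) (fun _ => d'.j)
  obtain ⟨c, hc, -⟩ := exists_cmp hτ X d (hX 0)
  obtain ⟨c', hc', -⟩ := exists_cmp hτ X' d' (hX' 0)
  have k := h X X' c c' (hX 0) (hX' 0) hc hc'
  exact EqvM.trans hτ hR (eqvM_com_cmp hτ hN hR d X (hX 0) c hc J).symm
    (EqvM.trans hτ hR (eqvM_com_lft hτ hN hR k J)
      (eqvM_com_cmp hτ hN hR d' X' (hX' 0) c' hc' J))

/-- Homotopies of based homomorphisms. -/
theorem eqvM_com_path (hR : Rowy I τ) (d : CM τ Y y0 S) (J : unitInterval → BH N Y y0 Y' y0')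
    (hJ : ∀ f, Continuous fun s => (J s).h f) :
    EqvM (H7c.com hτ hN d (J 0)) (H7c.com hτ hN d (J 1)) := by
  let r : Pth (JM (S.prod N) τ) Y' y0' :=
    { k := fun s => (H7c.com hτ hN d (J s)).κ
      ζ := (H7c.com hτ hN d (J 0)).ζ
      u1 := (H7c.com hτ hN d (J 0)).u1
      u2 := (H7c.com hτ hN d (J 0)).u2
      j := (H7c.com hτ hN d (J 0)).j
      sup := fun s f => (H7c.com hτ hN d (J s)).sup f
      cont := fun f => (cmp_cont (ext N d.κ)).comp (hJ f) }
  exact eqvM_of_path hτ hR r (fun f => rfl) (fun f => rfl)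

/-- Restriction along a based map preserves the equivalence: `Eqv.map`; the relations are preserved
literally (`Cyc.push` for `Y`, `Pth` in the same way). -/
theorem Eqv.push {c c' : C1 I τ Y y0} (h : Eqv c c') (g : C(Y, Y')) (hg : g y0 = y0') :
    Eqv (c.push g hg) (c'.push g hg) := by
  refine Eqv.map (fun (c : C1 I τ Y y0) (e : C1 I τ Y' y0') => e = c.push g hg) ?_ ?_ ?_ ?_ h
    rfl rfl
  · intro c
    exact ⟨_, rfl⟩
  · rintro c e e' rfl rfl
    exact Eqv.refl _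
  · rintro c c' e e' ⟨S, d, W, W', hW, hW', h3, h4⟩ rfl rfl
    refine Eqv.rel1 ⟨S, d.push g hg, W, W', hW, hW', fun f => ?_, fun f => ?_⟩
    · rw [Cyc.push_hat, Cyc.push_hat, h3]
    · rw [Cyc.push_hat, Cyc.push_hat, h4]
  · rintro c c' e e' ⟨p, h3, h4⟩ rfl rfl
    refine Eqv.rel2 ⟨⟨fun s => ((p.at s).push g hg).κ, p.ζ, p.u1, p.u2, p.j, fun s f =>
      ((p.at s).push g hg).sup f, fun f => p.cont (f.comp g)⟩, fun f => ?_, fun f => ?_⟩
    · exact h3 (f.comp g)
    · exact h4 (f.comp g)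

theorem EqvM.push (hτ : PTr τ) (hR : Rowy I τ) {S' : Sz I} {d : CM τ Y y0 S}
    {d' : CM τ Y y0 S'} (h : EqvM d d') (g : C(Y, Y')) (hg : g y0 = y0') :
    EqvM (d.push g hg) (d'.push g hg) := by
  intro X X' e e' hX hX' he he'
  obtain ⟨c, hc, -⟩ := exists_cmp hτ X d hX
  obtain ⟨c', hc', -⟩ := exists_cmp hτ X' d' hX'
  have k := Eqv.push (h X X' c c' hX hX' hc hc') g hg
  have k1 : Eqv e (c.push g hg) := eqv_of_hat hτ fun f => by
    rw [Cyc.push_hat, hc, he, Cyc.push_hat]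
  have k2 : Eqv (c'.push g hg) e' := eqv_of_hat hτ fun f => by
    rw [Cyc.push_hat, hc', he', Cyc.push_hat]
  exact k1.trans (k.trans k2)

end H7c
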