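import Pool.Agent.H.MP_7b4a29_c.Cmp

/-!
# Relabelling, associativity of the composition, the unit
-/

open Filter Topology

namespace H7c

variable {I : Ix} {P : Type} [CStarAlgebra P] {τ : P →ₗ[ℂ] ℂ}

/-- Relabelling of sizes. -/
noncomputable def rel {S S' : Sz I} (e : ∀ l, S'.ty l ≃ S.ty l) (P : Type) [CStarAlgebra P] :
    RM S P →⋆ₐ[ℂ] RM S' P := SQ.map I (fun l => MM.ri (e l))

theorem rel_cl {S S' : Sz I} (e : ∀ l, S'.ty l ≃ S.ty l) {x : ∀ l, MM (S.ty l) P} (hx : Bd x) :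
    rel e P (cl I x) = cl I (fun l => MM.ri (e l) (x l)) := SQ.map_cl I _ hx

variable {S N N' : Sz I} {Y : Type} [TopologicalSpace Y] [CompactSpace Y] [T2Space Y] {y0 : Y}
  {Y' : Type} [TopologicalSpace Y'] [CompactSpace Y'] [T2Space Y'] {y0' : Y'}
  {Y'' : Type} [TopologicalSpace Y''] [CompactSpace Y''] [T2Space Y''] {y0'' : Y''}

theorem cmpb_ri_bd {S S' : Sz I} (e : ∀ l, S'.ty l ≃ S.ty l) {x : ∀ l, MM (S.ty l) P}
    (hx : Bd x) : Bd (A := fun l => MM (S'.ty l) P) (fun l => MM.ri (e l) (x l)) :=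
  Bd.map I (A := fun l => MM (S.ty l) P) (B := fun l => MM (S'.ty l) P)
    (fun l => MM.ri (e l)) hx

theorem cmpb_symm {S S' : Sz I} (e : ∀ l, S'.ty l ≃ S.ty l) (a : RM S P) :
    rel (fun l => (e l).symm) P (rel e P a) = a := by
  obtain ⟨x, hx, rfl⟩ := cl_surj I a
  rw [rel_cl e hx, rel_cl (fun l => (e l).symm) (cmpb_ri_bd e hx)]
  congr 1
  funext l
  refine MM.ext fun i j => ?_
  rw [MM.e_ri, MM.e_ri, Equiv.apply_symm_apply, Equiv.apply_symm_apply]

theorem cmpb_J {S S' : Sz I} (e : ∀ l, S'.ty l ≃ S.ty l) {a : RM S P} (ha : JM S τ a) :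
    JM S' τ (rel e P a) := by
  refine IsJ.map I (fun l => MM.ri (e l)) (fun l x => ?_) ha
  rw [MM.tr_apply, MM.tr_apply]
  simp only [MM.e_ri]
  exact Equiv.sum_comp (e l) (fun i => τ (MM.e x i i))

/-- Relabelled rows. -/
noncomputable def cmpb_row {S S' : Sz I} (e : ∀ l, S'.ty l ≃ S.ty l) (X : Row S' P) : Row S P where
  v l i := X.v l ((e l).symm i)
  bd := ⟨X.nm, X.nm_nonneg, fun l => by
    rw [Equiv.sum_comp (e l).symm (fun i => X.v l i * star (X.v l i))]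
    exact X.nm_spec l⟩

theorem cmpb_row_gram {S S' : Sz I} (e : ∀ l, S'.ty l ≃ S.ty l) (X : Row S' P) :
    rel e P (Row.gram (cmpb_row e X) (cmpb_row e X)) = Row.gram X X := by
  rw [Row.gram, rel_cl e (Row.gram_bd (cmpb_row e X) (cmpb_row e X)), Row.gram]
  congr 1
  funext l
  refine MM.ext fun i j => ?_
  rw [MM.e_ri, MM.e_of, MM.e_of]
  change star (X.v l ((e l).symm (e l i))) * X.v l ((e l).symm (e l j)) = _
  rw [Equiv.symm_apply_apply, Equiv.symm_apply_apply]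

theorem cmpb_row_sand {S S' : Sz I} (e : ∀ l, S'.ty l ≃ S.ty l) (X : Row S' P) (a : RM S P) :
    Row.sand (cmpb_row e X) (cmpb_row e X) a = Row.sand X X (rel e P a) := by
  obtain ⟨x, hx, rfl⟩ := cl_surj I a
  rw [rel_cl e hx, Row.sand_cl _ _ hx, Row.sand_cl _ _ (cmpb_ri_bd e hx)]
  congr 1
  funext l
  change ∑ i, ∑ j, X.v l ((e l).symm i) * MM.e (x l) i j * star (X.v l ((e l).symm j)) =
    ∑ i, ∑ j, X.v l i * MM.e (MM.ri (e l) (x l)) i j * star (X.v l j)
  rw [← Equiv.sum_comp (e l)]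
  refine Finset.sum_congr rfl fun i _ => ?_
  rw [← Equiv.sum_comp (e l)]
  refine Finset.sum_congr rfl fun j _ => ?_
  rw [MM.e_ri, Equiv.symm_apply_apply, Equiv.symm_apply_apply]

theorem cmpb_row_ad {S S' : Sz I} (e : ∀ l, S'.ty l ≃ S.ty l) (X : Row S' P) (a : RM S P)
    (h : Row.gram X X * rel e P a = rel e P a) :
    Row.gram (cmpb_row e X) (cmpb_row e X) * a = a := by
  rw [← cmpb_row_gram e X, ← map_mul] at h
  have h1 := congrArg (rel (fun l => (e l).symm) P) h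
  rw [cmpb_symm, cmpb_symm] at h1
  exact h1

omit [T2Space Y] in
/-- Relabelled cycles are equivalent.

Proof. Let `X`, `X'` be adapted rows for `d`, `d'`. Choose a row `X''` of size `S'` adapted to both
`d'.ζ` and to the relabelled `d.ζ` (`Rowy`). The row `X1 i = X'' (e.symm i)` of size `S` satisfies
`gram X1 X1 * a = a` iff `gram X'' X'' * rel e a = rel e a`, so it is adapted to `d.ζ`, and
`sand X1 X1 a = sand X'' X'' (rel e a)`. So `X`- and `X1`-compressions of `d` are equivalent, and the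
`X1`-compression of `d` has the same `hat` as the `X''`-compression of `d'`, which is equivalent to the
`X'`-compression of `d'`. -/
theorem eqvM_rel (hτ : PTr τ) (hR : Rowy I τ) {S' : Sz I} (e : ∀ l, S'.ty l ≃ S.ty l)
    (d : CM τ Y y0 S) (d' : CM τ Y y0 S') (h : ∀ f, d'.hat f = rel e P (d.hat f)) :
    EqvM d d' := by
  intro X X' c c' hX hX' h1 h2
  obtain ⟨Z, hZ⟩ := hR S' 2 ![d'.ζ - 1, rel e P (d.ζ - 1)] (by
    intro i
    fin_cases i
    · exact d'.j
    · exact cmpb_J e d.j)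
  have hZ1 : Z.Ad d'.ζ := hZ 0
  have hZ2 : Row.gram Z Z * rel e P (d.ζ - 1) = rel e P (d.ζ - 1) := hZ 1
  have hA : (cmpb_row e Z).Ad d.ζ := cmpb_row_ad e Z (d.ζ - 1) hZ2
  obtain ⟨c1, hc1, -⟩ := exists_cmp hτ (cmpb_row e Z) d hA
  have k1 : Eqv c c1 := eqv_cmp d X (cmpb_row e Z) hX hA h1 hc1
  have k2 : Eqv c1 c' := eqv_cmp d' Z X' hZ1 hX' (fun f => by
    rw [hc1, cmpb_row_sand, h]) h2
  exact k1.trans k2

theorem cmpb_tens_ev (J : BH N Y y0 Y' y0')
    (hab : ∀ (x : RM N' ℂ) (f : C(Y', ℂ)),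
      ((cns Y (RM (N.prod N') ℂ)).comp (sclR N ℂ N')) x *
        ((cmap Y (ampR N N')).comp J.h) f =
      ((cmap Y (ampR N N')).comp J.h) f * ((cns Y (RM (N.prod N') ℂ)).comp (sclR N ℂ N')) x)
    (F : C(Y', RM N' ℂ)) :
    tens ((cns Y (RM (N.prod N') ℂ)).comp (sclR N ℂ N')) ((cmap Y (ampR N N')).comp J.h) hab F y0 =
      sclR N ℂ N' (F y0') := by
  have h1 := tens_ext
    (s := (evx (RM (N.prod N') ℂ) y0).comp
      (tens ((cns Y (RM (N.prod N') ℂ)).comp (sclR N ℂ N')) ((cmap Y (ampR N N')).comp J.h) hab))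
    (t := (sclR N ℂ N').comp (evx (RM N' ℂ) y0')) (by
      intro x
      rw [StarAlgHom.comp_apply, StarAlgHom.comp_apply, tens_cns]
      rfl) (by
      intro f
      rw [StarAlgHom.comp_apply, StarAlgHom.comp_apply, tens_sc, StarAlgHom.comp_apply, evx_apply,
        evx_apply, cmap_apply, J.base, sc_apply, AlgHomClass.commutes, AlgHomClass.commutes])
  have h2 := congrArg (fun φ : C(Y', RM N' ℂ) →⋆ₐ[ℂ] RM (N.prod N') ℂ => φ F) h1
  exact h2

/-- The composition of based homomorphisms. -/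
noncomputable def BH.comp (J : BH N Y y0 Y' y0') (J' : BH N' Y' y0' Y'' y0'') :
    BH (N.prod N') Y y0 Y'' y0'' where
  h := (tens ((cns Y (RM (N.prod N') ℂ)).comp (sclR N ℂ N')) ((cmap Y (ampR N N')).comp J.h)
    (by
      intro x f
      refine ContinuousMap.ext fun y => ?_
      exact (ampR_sclR_comm (J.h f y) x).symm)).comp J'.h
  base := by
    intro f
    rw [StarAlgHom.comp_apply, cmpb_tens_ev, J'.base, AlgHomClass.commutes]

theorem cmpb_amp_bd {S : Sz I} (N : Sz I) {x : ∀ l, MM (S.ty l) P} (hx : Bd x) :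
    Bd (A := fun l => MM ((S.prod N).ty l) P) (fun l => MM.amp (N.ty l) (x l)) :=
  Bd.map I (A := fun l => MM (S.ty l) P) (B := fun l => MM ((S.prod N).ty l) P)
    (fun l => MM.amp (N.ty l)) hx

variable (P) in
theorem cmpb_scl_bd (S : Sz I) {N : Sz I} {x : ∀ l, MM (N.ty l) ℂ} (hx : Bd x) :
    Bd (A := fun l => MM ((S.prod N).ty l) P) (fun l => MM.scl (S.ty l) P (x l)) :=
  Bd.map I (A := fun l => MM (N.ty l) ℂ) (B := fun l => MM ((S.prod N).ty l) P)
    (fun l => MM.scl (S.ty l) P) hx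

theorem cmpb_ex_rel {S S' : Sz I} (e : ∀ l, S'.ty l ≃ S.ty l) {x : ∀ l, MM (S.ty l) P}
    (hx : Bd x) : ∃ y : ∀ l, MM (S'.ty l) P, Bd y ∧ rel e P (cl I x) = cl I y ∧
      ∀ l, y l = MM.ri (e l) (x l) :=
  ⟨_, cmpb_ri_bd e hx, rel_cl e hx, fun _ => rfl⟩

section cmpbM

variable {ι κ κ' : Type} [Fintype ι] [DecidableEq ι] [Fintype κ] [DecidableEq κ]
  [Fintype κ'] [DecidableEq κ']

theorem cmpb_m1 (ξ : MM κ ℂ) : MM.ri (Equiv.prodAssoc ι κ κ') (MM.scl ι P (MM.amp κ' ξ)) =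
    MM.amp κ' (MM.scl ι P ξ) := by
  refine MM.ext fun i j => ?_
  obtain ⟨⟨s, n⟩, n'⟩ := i
  obtain ⟨⟨t, m⟩, m'⟩ := j
  rw [MM.e_ri, MM.e_scl, MM.e_amp, MM.e_amp, MM.e_scl]
  change (if s = t then algebraMap ℂ P (if n' = m' then MM.e ξ n m else 0) else 0) =
    if n' = m' then (if s = t then algebraMap ℂ P (MM.e ξ n m) else 0) else 0
  by_cases h1 : s = t
  · rw [if_pos h1, if_pos h1]
    by_cases h2 : n' = m'
    · rw [if_pos h2, if_pos h2]
    · rw [if_neg h2, if_neg h2, map_zero]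
  · rw [if_neg h1, if_neg h1, ite_self]

theorem cmpb_m2 (α : MM ι P) : MM.ri (Equiv.prodAssoc ι κ κ') (MM.amp (κ × κ') α) =
    MM.amp κ' (MM.amp κ α) := by
  refine MM.ext fun i j => ?_
  obtain ⟨⟨s, n⟩, n'⟩ := i
  obtain ⟨⟨t, m⟩, m'⟩ := j
  rw [MM.e_ri, MM.e_amp, MM.e_amp, MM.e_amp]
  change (if (n, n') = (m, m') then MM.e α s t else 0) =
    if n' = m' then (if n = m then MM.e α s t else 0) else 0
  by_cases h2 : n' = m'
  · by_cases h1 : n = m
    · rw [if_pos h2, if_pos h1, if_pos (by rw [h1, h2])]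
    · rw [if_pos h2, if_neg h1, if_neg (fun h => h1 (congrArg Prod.fst h))]
  · rw [if_neg h2, if_neg (fun h => h2 (congrArg Prod.snd h))]

theorem cmpb_m3 (ξ : MM κ' ℂ) :
    MM.ri (Equiv.prodAssoc ι κ κ') (MM.scl ι P (MM.scl κ ℂ ξ)) = MM.scl (ι × κ) P ξ := by
  refine MM.ext fun i j => ?_
  obtain ⟨⟨s, n⟩, n'⟩ := i
  obtain ⟨⟨t, m⟩, m'⟩ := j
  rw [MM.e_ri, MM.e_scl, MM.e_scl, MM.e_scl]
  change (if s = t then algebraMap ℂ P (if n = m then algebraMap ℂ ℂ (MM.e ξ n' m') else 0)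
    else 0) = if (s, n) = (t, m) then algebraMap ℂ P (MM.e ξ n' m') else 0
  by_cases h1 : s = t
  · by_cases h2 : n = m
    · rw [if_pos h1, if_pos h2, if_pos (by rw [h1, h2])]
      rfl
    · rw [if_pos h1, if_neg h2, if_neg (fun h => h2 (congrArg Prod.snd h)), map_zero]
  · rw [if_neg h1, if_neg (fun h => h1 (congrArg Prod.fst h))]

theorem cmpb_m4 (e : κ' ≃ κ) (ξ : MM κ ℂ) :
    MM.ri (Equiv.prodCongr (Equiv.refl ι) e) (MM.scl ι P ξ) = MM.scl ι P (MM.ri e ξ) := by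
  refine MM.ext fun p q => ?_
  rw [MM.e_ri, MM.e_scl, MM.e_scl, MM.e_ri]
  rfl

theorem cmpb_m5 (e : κ' ≃ κ) (α : MM ι P) :
    MM.ri (Equiv.prodCongr (Equiv.refl ι) e) (MM.amp κ α) = MM.amp κ' α := by
  refine MM.ext fun p q => ?_
  rw [MM.e_ri, MM.e_amp, MM.e_amp]
  change (if e p.2 = e q.2 then MM.e α p.1 q.1 else 0) =
    if p.2 = q.2 then MM.e α p.1 q.1 else 0
  by_cases h3 : p.2 = q.2
  · rw [if_pos h3, if_pos (by rw [h3])]
  · rw [if_neg h3, if_neg (fun h4 => h3 (e.injective h4))]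

end cmpbM

/-- `ri (scl (amp x)) = amp (scl x)`. -/
theorem cmpb_rsa (x : RM N ℂ) :
    rel (S := S.prod (N.prod N')) (S' := (S.prod N).prod N')
      (fun _ => Equiv.prodAssoc _ _ _) P (sclR S P (N.prod N') (ampR N N' x)) =
      ampR (S.prod N) N' (sclR S P N x) := by
  obtain ⟨ξ, hξ, rfl⟩ := cl_surj I x
  obtain ⟨y1, b1, h1, k1⟩ := rowc_ex_amp (S := N) (N := N') hξ
  obtain ⟨y2, b2, h2, k2⟩ := rowc_ex_scl (S := S) (N := N.prod N') (P := P) b1
  obtain ⟨y3, b3, h3, k3⟩ := cmpb_ex_rel (S := S.prod (N.prod N')) (S' := (S.prod N).prod N')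
    (fun l => Equiv.prodAssoc (S.ty l) (N.ty l) (N'.ty l)) b2
  obtain ⟨y4, b4, h4, k4⟩ := rowc_ex_scl (S := S) (P := P) hξ
  obtain ⟨y5, b5, h5, k5⟩ := rowc_ex_amp (S := S.prod N) (N := N') b4
  rw [h1, h2, h4, h5]
  refine h3.trans ?_
  congr 1
  funext l
  rw [k3, k2, k1, k5, k4]
  exact cmpb_m1 (ξ l)

/-- `ri (amp a) = amp (amp a)`. -/
theorem cmpb_ra (a : RM S P) :
    rel (S := S.prod (N.prod N')) (S' := (S.prod N).prod N')
      (fun _ => Equiv.prodAssoc _ _ _) P (ampR S (N.prod N') a) =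
      ampR (S.prod N) N' (ampR S N a) := by
  obtain ⟨α, hα, rfl⟩ := cl_surj I a
  obtain ⟨y1, b1, h1, k1⟩ := rowc_ex_amp (S := S) (N := N.prod N') hα
  obtain ⟨y3, b3, h3, k3⟩ := cmpb_ex_rel (S := S.prod (N.prod N')) (S' := (S.prod N).prod N')
    (fun l => Equiv.prodAssoc (S.ty l) (N.ty l) (N'.ty l)) b1
  obtain ⟨y4, b4, h4, k4⟩ := rowc_ex_amp (S := S) (N := N) hα
  obtain ⟨y5, b5, h5, k5⟩ := rowc_ex_amp (S := S.prod N) (N := N') b4
  rw [h1, h4, h5]
  refine h3.trans ?_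
  congr 1
  funext l
  rw [k3, k1, k5, k4]
  exact cmpb_m2 (α l)

/-- `ri (scl (scl x)) = scl x`. -/
theorem cmpb_rss (x : RM N' ℂ) :
    rel (S := S.prod (N.prod N')) (S' := (S.prod N).prod N')
      (fun _ => Equiv.prodAssoc _ _ _) P (sclR S P (N.prod N') (sclR N ℂ N' x)) =
      sclR (S.prod N) P N' x := by
  obtain ⟨ξ, hξ, rfl⟩ := cl_surj I x
  obtain ⟨y1, b1, h1, k1⟩ := rowc_ex_scl (S := N) (N := N') (P := ℂ) hξ
  obtain ⟨y2, b2, h2, k2⟩ := rowc_ex_scl (S := S) (N := N.prod N') (P := P) b1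
  obtain ⟨y3, b3, h3, k3⟩ := cmpb_ex_rel (S := S.prod (N.prod N')) (S' := (S.prod N).prod N')
    (fun l => Equiv.prodAssoc (S.ty l) (N.ty l) (N'.ty l)) b2
  obtain ⟨y4, b4, h4, k4⟩ := rowc_ex_scl (S := S.prod N) (N := N') (P := P) hξ
  rw [h1, h2, h4]
  refine h3.trans ?_
  congr 1
  funext l
  rw [k3, k2, k1, k4]
  exact cmpb_m3 (ξ l)

theorem cmpb_cmap_cns {A B : Type} [CStarAlgebra A] [CStarAlgebra B] (φ : A →⋆ₐ[ℂ] B) (a : A) :
    cmap Y φ (cns Y A a) = cns Y B (φ a) := rfl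

theorem cmpb_cmap_sc {A B : Type} [CStarAlgebra A] [CStarAlgebra B] (φ : A →⋆ₐ[ℂ] B)
    (f : C(Y, ℂ)) : cmap Y φ (sc Y A f) = sc Y B f := by
  refine ContinuousMap.ext fun y => ?_
  rw [cmap_apply, sc_apply, sc_apply, AlgHomClass.commutes]

/-- The first tensor factor: `ext` for `N.prod N'` and `a ↦ a ⊗ 1`. Relabelling
`S × (N × N') → (S × N) × N'`. By `tens_ext`; the entrywise identities
`ri (scl (amp x)) = amp (scl x)`, `ri (amp a) = amp (amp a)` for the matrices. -/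
theorem ext_cmap_ampR (k : C(Y, ℂ) →⋆ₐ[ℂ] RM S P) (F : C(Y, RM N ℂ)) :
    rel (S := S.prod (N.prod N')) (S' := (S.prod N).prod N')
      (fun _ => Equiv.prodAssoc _ _ _) P (ext (N.prod N') k (cmap Y (ampR N N') F)) =
      ampR (S.prod N) N' (ext N k F) := by
  have h1 := tens_ext
    (s := (rel (S := S.prod (N.prod N')) (S' := (S.prod N).prod N')
      (fun _ => Equiv.prodAssoc _ _ _) P).comp ((ext (N.prod N') k).comp (cmap Y (ampR N N'))))
    (t := (ampR (S.prod N) N').comp (ext N k)) (by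
      intro x
      rw [StarAlgHom.comp_apply, StarAlgHom.comp_apply, StarAlgHom.comp_apply, cmpb_cmap_cns,
        ext_cns, ext_cns, cmpb_rsa]) (by
      intro f
      rw [StarAlgHom.comp_apply, StarAlgHom.comp_apply, StarAlgHom.comp_apply, cmpb_cmap_sc,
        ext_sc, ext_sc, cmpb_ra])
  exact congrArg (fun φ : C(Y, RM N ℂ) →⋆ₐ[ℂ] RM ((S.prod N).prod N') P => φ F) h1

/-- Associativity. The two homomorphisms `C(Y', RM N' ℂ) → RM ((S × N) × N') P`
`ext N' (ext N k ∘ J.h)` and `rel ∘ ext (N × N') k ∘ (tens ..)` agree on constants and on scalar functions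
(`ext_cmap_ampR`, and `ri (scl (scl x)) = scl x` for the matrices), hence by `tens_ext`. -/
theorem ext_comp (k : C(Y, ℂ) →⋆ₐ[ℂ] RM S P) (J : BH N Y y0 Y' y0') (J' : BH N' Y' y0' Y'' y0'')
    (f : C(Y'', ℂ)) :
    ext N' ((ext N k).comp J.h) (J'.h f) =
      rel (S := S.prod (N.prod N')) (S' := (S.prod N).prod N')
        (fun _ => Equiv.prodAssoc _ _ _) P (ext (N.prod N') k ((J.comp J').h f)) := by
  have hab : ∀ (x : RM N' ℂ) (f : C(Y', ℂ)),
      ((cns Y (RM (N.prod N') ℂ)).comp (sclR N ℂ N')) x *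
        ((cmap Y (ampR N N')).comp J.h) f =
      ((cmap Y (ampR N N')).comp J.h) f *
        ((cns Y (RM (N.prod N') ℂ)).comp (sclR N ℂ N')) x := by
    intro x f
    refine ContinuousMap.ext fun y => ?_
    exact (ampR_sclR_comm (J.h f y) x).symm
  have h1 := tens_ext (s := ext N' ((ext N k).comp J.h))
    (t := (rel (S := S.prod (N.prod N')) (S' := (S.prod N).prod N')
      (fun _ => Equiv.prodAssoc _ _ _) P).comp ((ext (N.prod N') k).comp
        (tens ((cns Y (RM (N.prod N') ℂ)).comp (sclR N ℂ N'))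
          ((cmap Y (ampR N N')).comp J.h) hab))) (by
      intro x
      rw [StarAlgHom.comp_apply, StarAlgHom.comp_apply, tens_cns, ext_cns,
        StarAlgHom.comp_apply, ext_cns, cmpb_rss]) (by
      intro f
      rw [StarAlgHom.comp_apply, StarAlgHom.comp_apply, tens_sc, ext_sc,
        StarAlgHom.comp_apply, StarAlgHom.comp_apply, ext_cmap_ampR])
  exact congrArg (fun φ : C(Y', RM N' ℂ) →⋆ₐ[ℂ] RM ((S.prod N).prod N') P => φ (J'.h f)) h1

theorem PB.prod (hN : N.PB) (hN' : N'.PB) : (N.prod N').PB := by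
  obtain ⟨k, C, h⟩ := hN
  obtain ⟨k', C', h'⟩ := hN'
  refine ⟨k + k', C * C', ?_⟩
  filter_upwards [h, h'] with l h1 h2
  have h3 : Fintype.card ((N.prod N').ty l) = Fintype.card (N.ty l) * Fintype.card (N'.ty l) :=
    Fintype.card_prod _ _
  rw [h3, Nat.cast_mul]
  calc (Fintype.card (N.ty l) : ℝ) * (Fintype.card (N'.ty l) : ℝ)
      ≤ (C * (I.w l : ℝ) ^ k) * (C' * (I.w l : ℝ) ^ k') :=
        mul_le_mul h1 h2 (Nat.cast_nonneg _) ((Nat.cast_nonneg _).trans h1)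
    _ = C * C' * (I.w l : ℝ) ^ (k + k') := by
        rw [pow_add]
        ring

/-- From `ext_comp` and `eqvM_rel`. -/
theorem eqvM_com_com (hτ : PTr τ) (hR : Rowy I τ) (hN : N.PB) (hN' : N'.PB) (d : CM τ Y y0 S)
    (J : BH N Y y0 Y' y0') (J' : BH N' Y' y0' Y'' y0'') :
    EqvM (com hτ hN' (com hτ hN d J) J') (com hτ (PB.prod hN hN') d (J.comp J')) := by
  refine (eqvM_rel hτ hR (S := S.prod (N.prod N')) (S' := (S.prod N).prod N')
    (fun _ => Equiv.prodAssoc _ _ _) (com hτ (PB.prod hN hN') d (J.comp J'))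
    (com hτ hN' (com hτ hN d J) J') (fun f => ?_)).symm
  rw [Cyc.hat, Cyc.hat, map_sub, AlgHomClass.commutes, com_kappa, com_kappa]
  congr 1
  exact ext_comp d.κ J J' f

/-- The rank one projections in `RM N ℂ` given by a coordinate. -/
noncomputable def prj (N : Sz I) (k : ∀ l, N.ty l) : RM N ℂ := cl I (fun l => MM.unit1 (k l))

theorem cmpb_unit1_sa {ι : Type} [Fintype ι] [DecidableEq ι] (k : ι) :
    star (MM.unit1 k : MM ι ℂ) = MM.unit1 k := by
  refine MM.ext fun i j => ?_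
  rw [MM.e_star, MM.unit1, MM.e_of, MM.e_of]
  by_cases h1 : i = k
  · by_cases h2 : j = k
    · rw [if_pos ⟨h2, h1⟩, if_pos ⟨h1, h2⟩, star_one]
    · rw [if_neg (fun h => h2 h.1), if_neg (fun h => h2 h.2), star_zero]
  · rw [if_neg (fun h => h1 h.2), if_neg (fun h => h1 h.1), star_zero]

theorem cmpb_unit1_mul {ι : Type} [Fintype ι] [DecidableEq ι] (k : ι) :
    (MM.unit1 k : MM ι ℂ) * MM.unit1 k = MM.unit1 k := by
  refine MM.ext fun i j => ?_
  rw [MM.e_mul, Finset.sum_eq_single k]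
  · change (if i = k ∧ k = k then (1 : ℂ) else 0) * (if k = k ∧ j = k then (1 : ℂ) else 0) =
      if i = k ∧ j = k then (1 : ℂ) else 0
    by_cases h1 : i = k
    · by_cases h2 : j = k
      · rw [if_pos ⟨h1, rfl⟩, if_pos ⟨rfl, h2⟩, if_pos ⟨h1, h2⟩, one_mul]
      · rw [if_neg (c := k = k ∧ j = k) (fun h => h2 h.2),
          if_neg (c := i = k ∧ j = k) (fun h => h2 h.2), mul_zero]
    · rw [if_neg (c := i = k ∧ k = k) (fun h => h1 h.1),
        if_neg (c := i = k ∧ j = k) (fun h => h1 h.1), zero_mul]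
  · intro r _ hr
    change (if i = k ∧ r = k then (1 : ℂ) else 0) * _ = 0
    rw [if_neg (fun h => hr h.2), zero_mul]
  · intro h
    exact absurd (Finset.mem_univ _) h

theorem cmpb_unit1_norm {ι : Type} [Fintype ι] [DecidableEq ι] (k : ι) :
    ‖(MM.unit1 k : MM ι ℂ)‖ ≤ 1 := by
  have h1 : ‖(MM.unit1 k : MM ι ℂ)‖ * ‖(MM.unit1 k : MM ι ℂ)‖ = ‖(MM.unit1 k : MM ι ℂ)‖ := by
    rw [← CStarRing.norm_star_mul_self, cmpb_unit1_sa, cmpb_unit1_mul]
  by_contra h
  have h2 := not_le.1 h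
  nlinarith

section cmpbCorner

variable {ι κ : Type} [Fintype ι] [DecidableEq ι] [Fintype κ] [DecidableEq κ]

theorem cmpb_e_amp_scl (a : MM ι P) (x : MM κ ℂ) (p q : ι × κ) :
    MM.e (MM.amp κ a * MM.scl ι P x) p q =
      MM.e a p.1 q.1 * algebraMap ℂ P (MM.e x p.2 q.2) := by
  rw [MM.e_mul, Finset.sum_eq_single (q.1, p.2)]
  · rw [MM.e_amp, MM.e_scl, if_pos rfl, if_pos rfl]
  · intro r _ hr
    rw [MM.e_amp, MM.e_scl]
    by_cases h2 : p.2 = r.2
    · by_cases h3 : r.1 = q.1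
      · exact absurd (Prod.ext h3 h2.symm : r = (q.1, p.2)) hr
      · rw [if_neg h3, mul_zero]
    · rw [if_neg h2, zero_mul]
  · intro h
    exact absurd (Finset.mem_univ _) h

/-- The embedding as a corner. -/
noncomputable def cmpb_th (ι : Type) [Fintype ι] [DecidableEq ι] (P : Type) [CStarAlgebra P]
    (k : κ) : MM ι P →⋆ₙₐ[ℂ] MM (ι × κ) P where
  toFun b := MM.amp κ b * MM.scl ι P (MM.unit1 k)
  map_smul' c b := by
    rw [map_smul, smul_mul_assoc]
    rfl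
  map_zero' := by
    rw [map_zero, zero_mul]
  map_add' a b := by
    rw [map_add, add_mul]
  map_mul' a b := by
    rw [mul_assoc, ← mul_assoc (MM.scl ι P (MM.unit1 k)), ← MM.amp_scl_comm b, mul_assoc,
      ← map_mul (MM.scl ι P), cmpb_unit1_mul, map_mul, mul_assoc]
  map_star' b := by
    rw [star_mul, ← map_star, ← map_star, cmpb_unit1_sa, ← MM.amp_scl_comm]

/-- The corner. -/
noncomputable def cmpb_corner (ι : Type) [Fintype ι] [DecidableEq ι] (P : Type) [CStarAlgebra P]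
    (k : κ) : MM (ι × κ) P →ₗ[ℂ] MM ι P where
  toFun a := MM.of (fun s t => MM.e a (s, k) (t, k))
  map_add' a b := by
    refine MM.ext fun i j => ?_
    rw [MM.e_of, MM.e_add, MM.e_add, MM.e_of, MM.e_of]
  map_smul' c a := by
    refine MM.ext fun i j => ?_
    rw [MM.e_of, MM.e_smul, RingHom.id_apply, MM.e_smul, MM.e_of]

theorem cmpb_e_corner (k : κ) (a : MM (ι × κ) P) (s t : ι) :
    MM.e (cmpb_corner ι P k a) s t = MM.e a (s, k) (t, k) := MM.e_of _ _ _

theorem cmpb_th_corner (k : κ) (a : MM (ι × κ) P) :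
    cmpb_th ι P k (cmpb_corner ι P k a) =
      MM.scl ι P (MM.unit1 k) * a * MM.scl ι P (MM.unit1 k) := by
  refine MM.ext fun p q => ?_
  change MM.e (MM.amp κ (cmpb_corner ι P k a) * MM.scl ι P (MM.unit1 k)) p q = _
  have hu : ∀ i j : κ, algebraMap ℂ P (MM.e (MM.unit1 k : MM κ ℂ) i j) =
      if i = k ∧ j = k then 1 else 0 := by
    intro i j
    rw [MM.unit1, MM.e_of]
    split_ifs
    · exact map_one _
    · exact map_zero _
  have h2 : ∀ r, MM.e (MM.scl ι P (MM.unit1 k) * a) p r =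
      if p.2 = k then MM.e a (p.1, k) r else 0 := by
    intro r
    rw [MM.e_mul, Finset.sum_eq_single (p.1, k)]
    · rw [MM.e_scl, if_pos rfl, hu]
      by_cases h : p.2 = k
      · rw [if_pos ⟨h, rfl⟩, if_pos h, one_mul]
      · rw [if_neg (fun h' => h h'.1), if_neg h, zero_mul]
    · intro r' _ hr
      rw [MM.e_scl]
      by_cases h3 : p.1 = r'.1
      · rw [if_pos h3, hu, if_neg, zero_mul]
        intro h'
        exact hr (Prod.ext h3.symm h'.2)
      · rw [if_neg h3, zero_mul]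
    · intro h
      exact absurd (Finset.mem_univ _) h
  rw [cmpb_e_amp_scl, cmpb_e_corner, hu, MM.e_mul, Finset.sum_eq_single (q.1, k)]
  · rw [h2, MM.e_scl, if_pos rfl, hu]
    by_cases h : p.2 = k
    · by_cases h' : q.2 = k
      · rw [if_pos ⟨h, h'⟩, if_pos h, if_pos ⟨rfl, h'⟩]
      · rw [if_neg (c := p.2 = k ∧ q.2 = k) (fun h'' => h' h''.2),
          if_neg (c := k = k ∧ q.2 = k) (fun h'' => h' h''.2), mul_zero, mul_zero]
    · rw [if_neg (fun h'' => h h''.1), if_neg h, mul_zero, zero_mul]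
  · intro r _ hr
    rw [MM.e_scl]
    by_cases h3 : r.1 = q.1
    · rw [if_pos h3, hu, if_neg, mul_zero]
      intro h'
      exact hr (Prod.ext h3 h'.1)
    · rw [if_neg h3, mul_zero]
  · intro h
    exact absurd (Finset.mem_univ _) h

theorem cmpb_th_inj (k : κ) : Function.Injective (cmpb_th ι P k) := by
  intro a b h
  refine MM.ext fun i j => ?_
  have h1 : MM.e (MM.amp κ a * MM.scl ι P (MM.unit1 k)) (i, k) (j, k) =
      MM.e (MM.amp κ b * MM.scl ι P (MM.unit1 k)) (i, k) (j, k) :=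
    congrArg (fun z : MM (ι × κ) P => MM.e z (i, k) (j, k)) h
  rw [cmpb_e_amp_scl, cmpb_e_amp_scl] at h1
  have h2 : MM.e (MM.unit1 k : MM κ ℂ) k k = 1 := by
    rw [MM.unit1, MM.e_of, if_pos ⟨rfl, rfl⟩]
  rw [h2, map_one, mul_one, mul_one] at h1
  exact h1

theorem cmpb_norm_scl (k : κ) : ‖MM.scl ι P (MM.unit1 k)‖ ≤ 1 :=
  (NonUnitalStarAlgHom.norm_apply_le (MM.scl ι P) (MM.unit1 k)).trans (cmpb_unit1_norm k)

theorem cmpb_norm_corner (k : κ) (a : MM (ι × κ) P) : ‖cmpb_corner ι P k a‖ ≤ 1 * ‖a‖ := by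
  rw [← NonUnitalStarAlgHom.norm_map (cmpb_th ι P k) (cmpb_th_inj k), cmpb_th_corner]
  calc ‖MM.scl ι P (MM.unit1 k) * a * MM.scl ι P (MM.unit1 k)‖
      ≤ ‖MM.scl ι P (MM.unit1 k) * a‖ * ‖MM.scl ι P (MM.unit1 k)‖ := norm_mul_le _ _
    _ ≤ (‖MM.scl ι P (MM.unit1 k)‖ * ‖a‖) * ‖MM.scl ι P (MM.unit1 k)‖ :=
        mul_le_mul_of_nonneg_right (norm_mul_le _ _) (norm_nonneg _)
    _ ≤ (1 * ‖a‖) * 1 :=
        mul_le_mul (mul_le_mul_of_nonneg_right (cmpb_norm_scl k) (norm_nonneg _))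
          (cmpb_norm_scl k) (norm_nonneg _) (by positivity)
    _ = 1 * ‖a‖ := mul_one _

/-- The bound of a column of the row. -/
theorem cmpb_col_bd (x : ι × κ → P) (k : κ) (C : ℝ) (hC : 0 ≤ C)
    (hx : ‖∑ p, x p * star (x p)‖ ≤ C ^ 2) : ‖∑ s, x (s, k) * star (x (s, k))‖ ≤ C ^ 2 := by
  have h1 := MM.norm_sand_le (MM.amp κ (1 : MM ι P) * MM.scl ι P (MM.unit1 k)) x x C C hC hC hx hx
  have hu : ∀ i j : κ, algebraMap ℂ P (MM.e (MM.unit1 k : MM κ ℂ) i j) =
      if i = k ∧ j = k then 1 else 0 := by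
    intro i j
    rw [MM.unit1, MM.e_of]
    split_ifs
    · exact map_one _
    · exact map_zero _
  have e : ∑ p, ∑ q, x p * MM.e (MM.amp κ (1 : MM ι P) * MM.scl ι P (MM.unit1 k)) p q *
      star (x q) = ∑ s, x (s, k) * star (x (s, k)) := by
    simp only [cmpb_e_amp_scl, hu, MM.e_one]
    rw [Fintype.sum_prod_type]
    refine Finset.sum_congr rfl fun s _ => ?_
    rw [Finset.sum_eq_single k]
    · rw [Finset.sum_eq_single (s, k)]
      · rw [if_pos rfl, if_pos ⟨rfl, rfl⟩, one_mul, mul_one]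
      · intro r _ hr
        by_cases h2 : s = r.1
        · rw [if_neg (c := k = k ∧ r.2 = k), mul_zero, mul_zero, zero_mul]
          intro h'
          exact hr (Prod.ext h2.symm h'.2)
        · rw [if_neg (c := s = r.1) h2, zero_mul, mul_zero, zero_mul]
      · intro h
        exact absurd (Finset.mem_univ _) h
    · intro n _ hn
      refine Finset.sum_eq_zero fun r _ => ?_
      rw [if_neg (c := n = k ∧ r.2 = k) (fun h' => hn h'.1), mul_zero, mul_zero, zero_mul]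
    · intro h
      exact absurd (Finset.mem_univ _) h
  rw [e] at h1
  refine h1.trans ?_
  have h2 : ‖MM.amp κ (1 : MM ι P) * MM.scl ι P (MM.unit1 k)‖ ≤ 1 := by
    rw [map_one, one_mul]
    exact cmpb_norm_scl k
  calc C * C * ‖MM.amp κ (1 : MM ι P) * MM.scl ι P (MM.unit1 k)‖ ≤ C * C * 1 :=
        mul_le_mul_of_nonneg_left h2 (by positivity)
    _ = C ^ 2 := by ring

theorem cmpb_m6 (x : ι × κ → P) (k : κ) (α : MM ι P) :
    sandL x x (MM.amp κ α * MM.scl ι P (MM.unit1 k)) =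
      sandL (fun s => x (s, k)) (fun s => x (s, k)) α := by
  change ∑ p : ι × κ, ∑ q : ι × κ, x p *
    MM.e (MM.amp κ α * MM.scl ι P (MM.unit1 k)) p q * star (x q) =
    ∑ s, ∑ t, x (s, k) * MM.e α s t * star (x (t, k))
  have hu : ∀ i j : κ, algebraMap ℂ P (MM.e (MM.unit1 k : MM κ ℂ) i j) =
      if i = k ∧ j = k then 1 else 0 := by
    intro i j
    rw [MM.unit1, MM.e_of]
    split_ifs
    · exact map_one _
    · exact map_zero _
  simp only [cmpb_e_amp_scl, hu]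
  rw [Fintype.sum_prod_type]
  refine Finset.sum_congr rfl fun s _ => ?_
  rw [Finset.sum_eq_single k]
  · rw [Fintype.sum_prod_type]
    refine Finset.sum_congr rfl fun t _ => ?_
    rw [Finset.sum_eq_single k]
    · rw [if_pos ⟨rfl, rfl⟩, mul_one]
    · intro m _ hm
      rw [if_neg (fun h => hm h.2), mul_zero, mul_zero, zero_mul]
    · intro h
      exact absurd (Finset.mem_univ _) h
  · intro n _ hn
    refine Finset.sum_eq_zero fun q _ => ?_
    rw [if_neg (fun h => hn h.1), mul_zero, mul_zero, zero_mul]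
  · intro h
    exact absurd (Finset.mem_univ _) h

theorem cmpb_m7 (k : κ) (α : MM ι P) : cmpb_corner ι P k (MM.amp κ α) = α := by
  refine MM.ext fun i j => ?_
  rw [cmpb_e_corner, MM.e_amp, if_pos rfl]

theorem cmpb_m8 (x : ι × κ → P) (k : κ) (α : MM ι P) :
    cmpb_corner ι P k (MM.of (fun i j => star (x i) * x j) * MM.amp κ α) =
      MM.of (fun s t => star (x (s, k)) * x (t, k)) * α := by
  refine MM.ext fun i j => ?_
  rw [cmpb_e_corner, MM.e_mul, MM.e_mul, Fintype.sum_prod_type]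
  refine Finset.sum_congr rfl fun s _ => ?_
  rw [Finset.sum_eq_single k]
  · rw [MM.e_of, MM.e_amp, if_pos rfl, MM.e_of]
  · intro m _ hm
    rw [MM.e_amp, if_neg (fun h => hm h), mul_zero]
  · intro h
    exact absurd (Finset.mem_univ _) h

end cmpbCorner

/-- The column `k` of a row of size `S × N`. -/
noncomputable def cmpb_col (X : Row (S.prod N) P) (k : ∀ l, N.ty l) : Row S P where
  v l s := X.v l (s, k l)
  bd := ⟨X.nm, X.nm_nonneg, fun l =>
    cmpb_col_bd (ι := S.ty l) (κ := N.ty l) (X.v l) (k l) X.nm X.nm_nonneg (X.nm_spec l)⟩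

theorem cmpb_prj_bd (N : Sz I) (k : ∀ l, N.ty l) :
    Bd (A := fun l => MM (N.ty l) ℂ) (fun l => MM.unit1 (k l)) :=
  ⟨1, fun l => cmpb_unit1_norm (k l)⟩

theorem cmpb_ex_prj (N : Sz I) (k : ∀ l, N.ty l) : ∃ y : ∀ l, MM (N.ty l) ℂ, Bd y ∧
    prj N k = cl I y ∧ ∀ l, y l = MM.unit1 (k l) :=
  ⟨_, cmpb_prj_bd N k, rfl, fun _ => rfl⟩

theorem cmpb_col_sand (X : Row (S.prod N) P) (k : ∀ l, N.ty l) (a : RM S P) :
    Row.sand X X (ampR S N a * sclR S P N (prj N k)) =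
      Row.sand (cmpb_col X k) (cmpb_col X k) a := by
  obtain ⟨α, hα, rfl⟩ := cl_surj I a
  obtain ⟨y0, b0, h0, k0⟩ := cmpb_ex_prj N k
  obtain ⟨y1, b1, h1, k1⟩ := rowc_ex_amp (N := N) hα
  obtain ⟨y2, b2, h2, k2⟩ := rowc_ex_scl (S := S) (P := P) b0
  rw [h0, h1, h2, Row.sand_cl _ _ hα, ← cl_mul I b1 b2, Row.sand_cl _ _ (Bd.mul b1 b2)]
  congr 1
  funext l
  rw [k1, k2, k0]
  exact cmpb_m6 (X.v l) (k l) (α l)

/-- The corner on classes. -/
noncomputable def cmpb_cornerR (S N : Sz I) (P : Type) [CStarAlgebra P] (k : ∀ l, N.ty l) :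
    RM (S.prod N) P →ₗ[ℂ] RM S P :=
  SQ.lmap I (A := fun l => MM ((S.prod N).ty l) P) (B := fun l => MM (S.ty l) P)
    (fun l => cmpb_corner (S.ty l) P (k l)) 1 (fun l x => cmpb_norm_corner (k l) x)

theorem cmpb_cornerR_cl (k : ∀ l, N.ty l) {x : ∀ l, MM ((S.prod N).ty l) P} (hx : Bd x) :
    cmpb_cornerR S N P k (cl I x) = cl I (A := fun l => MM (S.ty l) P)
      (fun l => cmpb_corner (S.ty l) P (k l) (x l)) :=
  SQ.lmap_cl I _ _ _ hx

theorem cmpb_col_ad (X : Row (S.prod N) P) (k : ∀ l, N.ty l) (a : RM S P)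
    (h : Row.gram X X * ampR S N a = ampR S N a) :
    Row.gram (cmpb_col X k) (cmpb_col X k) * a = a := by
  have h1 := congrArg (cmpb_cornerR S N P k) h
  have h2 : cmpb_cornerR S N P k (ampR S N a) = a := by
    clear h h1
    obtain ⟨α, hα, rfl⟩ := cl_surj I a
    obtain ⟨y1, b1, h1, k1⟩ := rowc_ex_amp (N := N) hα
    rw [h1, cmpb_cornerR_cl k b1]
    congr 1
    funext l
    rw [k1]
    exact cmpb_m7 (k l) (α l)
  have h3 : cmpb_cornerR S N P k (Row.gram X X * ampR S N a) =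
      Row.gram (cmpb_col X k) (cmpb_col X k) * a := by
    clear h h1 h2
    obtain ⟨α, hα, rfl⟩ := cl_surj I a
    have hg := Row.gram_bd X X
    have hg' := Row.gram_bd (cmpb_col X k) (cmpb_col X k)
    obtain ⟨y1, b1, h1, k1⟩ := rowc_ex_amp (N := N) hα
    rw [Row.gram, Row.gram, h1, ← cl_mul I hg b1, cmpb_cornerR_cl k (Bd.mul hg b1),
      ← cl_mul I hg' hα]
    congr 1
    funext l
    rw [k1]
    exact cmpb_m8 (X.v l) (k l) (α l)
  rw [h2, h3] at h1
  exact h1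

/-- The unit: a based homomorphism `f ↦ f e + f y0 (1 - e)` with a coordinate projection `e`.

Proof. `(com d J).hat f = ampR (d.hat f) * sclR e` (by linearity `ext (sc f * cns e) = ampR (κ f) * sclR e`).
Let `X'` be a row of size `S × N` adapted to `ampR d.ζ`; then `X s = X' (s, k)` is adapted to `d.ζ`, and
`sand X' X' (ampR a * sclR e) = sand X X a`, `gram X X` has the entries of `gram X' X'` at
`(s, k), (s', k)`. So `c'` with `c'.hat = sand X' X' ((com d J).hat)` satisfies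
`c'.hat f = sand X X (d.hat f)`, and `eqv_cmp` applies. -/
theorem eqvM_unit (hτ : PTr τ) (hN : N.PB) (d : CM τ Y y0 S) (k : ∀ l, N.ty l)
    (J : BH N Y y0 Y y0) (hJ : ∀ f y, J.h f y = f y • prj N k + f y0 • (1 - prj N k)) :
    EqvM (com hτ hN d J) d := by
  intro X' X2 c' c2 hX' hX2 h1 h2
  have hhat : ∀ f, (com hτ hN d J).hat f = ampR S N (d.hat f) * sclR S P N (prj N k) := by
    intro f
    have e1 : J.h f = sc Y (RM N ℂ) f * cns Y (RM N ℂ) (prj N k) +
        f y0 • cns Y (RM N ℂ) (1 - prj N k) := by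
      refine ContinuousMap.ext fun y => ?_
      rw [hJ, ContinuousMap.add_apply, ContinuousMap.mul_apply, sc_apply, cns_apply,
        ContinuousMap.smul_apply, cns_apply, Algebra.smul_def (f y) (prj N k)]
    rw [Cyc.hat, com_kappa, e1, map_add, map_mul, map_smul, ext_sc, ext_cns, ext_cns, Cyc.hat,
      map_sub, map_sub, map_one, AlgHomClass.commutes, sub_mul, smul_sub,
      ← Algebra.algebraMap_eq_smul_one, Algebra.smul_def]
    abel
  have hA : (cmpb_col X' k).Ad d.ζ := by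
    refine cmpb_col_ad X' k (d.ζ - 1) ?_
    have h3 : Row.gram X' X' * ((com hτ hN d J).ζ - 1) = (com hτ hN d J).ζ - 1 := hX'
    rw [com_zeta] at h3
    rw [map_sub, map_one]
    exact h3
  refine eqv_cmp d (cmpb_col X' k) X2 hA hX2 (fun f => ?_) h2
  rw [h1, hhat, cmpb_col_sand]

/-- Relabelling the size of a based homomorphism. -/
theorem eqvM_com_rel (hτ : PTr τ) (hR : Rowy I τ) (hN : N.PB) (hN' : N'.PB)
    (e : ∀ l, N'.ty l ≃ N.ty l) (d : CM τ Y y0 S) (J : BH N Y y0 Y' y0') (J' : BH N' Y y0 Y' y0')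
    (h : ∀ f y, J'.h f y = rel e ℂ (J.h f y)) :
    EqvM (com hτ hN d J) (com hτ hN' d J') := by
  refine eqvM_rel hτ hR (S := S.prod N) (S' := S.prod N')
    (fun l => Equiv.prodCongr (Equiv.refl _) (e l)) (com hτ hN d J) (com hτ hN' d J')
    (fun f => ?_)
  rw [Cyc.hat, Cyc.hat, map_sub, AlgHomClass.commutes, com_kappa, com_kappa]
  congr 1
  have e1 : J'.h f = cmap Y (rel e ℂ) (J.h f) := ContinuousMap.ext fun y => h f y
  rw [e1]
  have h1 := tens_ext (s := (ext N' d.κ).comp (cmap Y (rel e ℂ)))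
    (t := (rel (S := S.prod N) (S' := S.prod N')
      (fun l => Equiv.prodCongr (Equiv.refl _) (e l)) P).comp (ext N d.κ)) (by
      intro x
      rw [StarAlgHom.comp_apply, StarAlgHom.comp_apply, cmpb_cmap_cns, ext_cns, ext_cns]
      obtain ⟨ξ, hξ, rfl⟩ := cl_surj I x
      obtain ⟨y1, b1, h1, k1⟩ := cmpb_ex_rel e hξ
      obtain ⟨y2, b2, h2, k2⟩ := rowc_ex_scl (S := S) (P := P) b1
      obtain ⟨y3, b3, h3, k3⟩ := rowc_ex_scl (S := S) (P := P) hξ
      obtain ⟨y4, b4, h4, k4⟩ := cmpb_ex_rel (S := S.prod N) (S' := S.prod N')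
        (fun l => Equiv.prodCongr (Equiv.refl (S.ty l)) (e l)) b3
      rw [h1, h2, h3]
      refine Eq.trans ?_ h4.symm
      congr 1
      funext l
      rw [k2, k1, k4, k3]
      exact (cmpb_m4 (e l) (ξ l)).symm) (by
      intro g
      rw [StarAlgHom.comp_apply, StarAlgHom.comp_apply, cmpb_cmap_sc, ext_sc, ext_sc]
      obtain ⟨α, hα, h2⟩ := cl_surj I (d.κ g)
      rw [← h2]
      obtain ⟨y1, b1, h1, k1⟩ := rowc_ex_amp (N := N') hα
      obtain ⟨y3, b3, h3, k3⟩ := rowc_ex_amp (N := N) hα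
      obtain ⟨y4, b4, h4, k4⟩ := cmpb_ex_rel (S := S.prod N) (S' := S.prod N')
        (fun l => Equiv.prodCongr (Equiv.refl (S.ty l)) (e l)) b3
      rw [h1, h3]
      refine Eq.trans ?_ h4.symm
      congr 1
      funext l
      rw [k1, k4, k3]
      exact (cmpb_m5 (e l) (α l)).symm)
  exact congrArg (fun φ : C(Y, RM N ℂ) →⋆ₐ[ℂ] RM (S.prod N') P => φ (J.h f)) h1

/-- Composition on the right with a based map. -/
noncomputable def BH.post (J : BH N Y y0 Y' y0') (g : C(Y', Y'')) (hg : g y0' = y0'') :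
    BH N Y y0 Y'' y0'' where
  h := J.h.comp (ContinuousMap.compStarAlgHom' ℂ ℂ g)
  base := by
    intro f
    have := J.base (f.comp g)
    rw [ContinuousMap.comp_apply, hg] at this
    exact this

theorem BH.post_h (J : BH N Y y0 Y' y0') (g : C(Y', Y'')) (hg : g y0' = y0'') (f : C(Y'', ℂ)) :
    (J.post g hg).h f = J.h (f.comp g) := rfl

theorem com_post_hat (hτ : PTr τ) (hN : N.PB) (d : CM τ Y y0 S) (J : BH N Y y0 Y' y0')
    (g : C(Y', Y'')) (hg : g y0' = y0'') (f : C(Y'', ℂ)) :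
    (com hτ hN d (J.post g hg)).hat f = ((com hτ hN d J).push g hg).hat f := by
  rw [Cyc.push_hat, cmp_com_hat, cmp_com_hat, BH.post_h]

end H7c
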