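import Pool.Agent.H.MP_7b4a29_c.SQMap

/-!
# Sequences, double sequences
-/

open Filter Topology

namespace H7c

/-- Sequences. -/
def I0 : Ix := ⟨ℕ, atTop, inferInstance, id, tendsto_id⟩

/-- Double sequences, with the limit `n → ∞` of the limits `m → ∞`; the weight of `(n, m)` is `n`. -/
def I2 : Ix where
  L := ℕ × ℕ
  F := (atTop : Filter ℕ).curry atTop
  ne := by
    refine ⟨fun h => ?_⟩
    have h1 : ∀ᶠ p : ℕ × ℕ in (atTop : Filter ℕ).curry atTop, False := by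
      rw [h]
      exact eventually_bot
    rw [eventually_curry_iff] at h1
    obtain ⟨n, hn⟩ := h1.exists
    obtain ⟨m, hm⟩ := hn.exists
    exact hm
  w := Prod.fst
  tw := tendsto_fst.mono_left curry_le_prod

/-- Subsequences. -/
def subIx (σ : ℕ → ℕ) (hσ : StrictMono σ) : IxHom I0 I0 where
  f := σ
  t := hσ.tendsto_atTop
  w := Filter.Eventually.of_forall fun _ => hσ.le_apply

/-- The first coordinate. -/
def pi1 : IxHom I0 I2 where
  f := Prod.fst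
  t := tendsto_fst.mono_left curry_le_prod
  w := Filter.Eventually.of_forall fun _ => le_refl _

/-- The second coordinate: for fixed `n`, `n ≤ m` eventually in `m`. -/
def pi2 : IxHom I0 I2 where
  f := Prod.snd
  t := tendsto_snd.mono_left curry_le_prod
  w := by
    change ∀ᶠ p : ℕ × ℕ in (atTop : Filter ℕ).curry atTop, p.1 ≤ p.2
    rw [eventually_curry_iff]
    exact Filter.Eventually.of_forall fun n => eventually_ge_atTop n

/-- Combine a sequence of classes of sequences to a class of double sequences. -/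
noncomputable def cu {P : Type} [CStarAlgebra P] (a : ℕ → SQ I0 (fun _ => P)) :
    SQ I2 (fun _ => P) := cl I2 (fun p => SQ.rep I0 (a p.1) p.2)

variable {P : Type} [CStarAlgebra P] (a b : ℕ → SQ I0 (fun _ => P))

theorem sqcu_cl {x y : ℕ × ℕ → P} (hx : Bd x) (hy : Bd y)
    (h : ∀ n, cl I0 (A := fun _ => P) (fun m => x (n, m)) = cl I0 (fun m => y (n, m))) :
    cl I2 (A := fun _ => P) x = cl I2 y := by
  have h1 : Tendsto (fun l => ‖x l - y l‖) I2.F (𝓝 0) := by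
    rw [Metric.tendsto_nhds]
    intro ε hε
    change ∀ᶠ p : ℕ × ℕ in (atTop : Filter ℕ).curry atTop, dist ‖x p - y p‖ 0 < ε
    rw [eventually_curry_iff]
    refine Filter.Eventually.of_forall fun n => ?_
    obtain ⟨C, hC⟩ := hx
    obtain ⟨D, hD⟩ := hy
    have h2 := (cl_eq_iff I0 (A := fun _ => P) (x := fun m => x (n, m))
      (y := fun m => y (n, m)) ⟨C, fun m => hC _⟩ ⟨D, fun m => hD _⟩).mp (h n)
    exact (Metric.tendsto_nhds.mp h2) ε hε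
  exact (cl_eq_iff I2 hx hy).mpr h1

theorem sqcu_bd (ha : ∃ C : ℝ, ∀ n, ‖a n‖ ≤ C) :
    Bd (A := fun _ : ℕ × ℕ => P) (fun p => SQ.rep I0 (a p.1) p.2) := by
  obtain ⟨C, hC⟩ := ha
  exact ⟨C + 1, fun p => (SQ.norm_rep_le I0 (a p.1) p.2).trans (by linarith [hC p.1])⟩

theorem cu_add (ha : ∃ C : ℝ, ∀ n, ‖a n‖ ≤ C) (hb : ∃ C : ℝ, ∀ n, ‖b n‖ ≤ C) :
    cu (fun n => a n + b n) = cu a + cu b := by
  have hab : ∃ C : ℝ, ∀ n, ‖a n + b n‖ ≤ C := by
    obtain ⟨C, hC⟩ := ha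
    obtain ⟨D, hD⟩ := hb
    exact ⟨C + D, fun n => (norm_add_le _ _).trans (add_le_add (hC n) (hD n))⟩
  have h1 := sqcu_bd a ha
  have h2 := sqcu_bd b hb
  unfold cu
  refine Eq.trans ?_ (cl_add I2 (A := fun _ => P) h1 h2)
  refine sqcu_cl (sqcu_bd _ hab) (h1.add h2) fun n => ?_
  have e1 := SQ.cl_rep I0 (a n + b n)
  have e2 := cl_add I0 (SQ.rep_bd I0 (a n)) (SQ.rep_bd I0 (b n))
  rw [SQ.cl_rep, SQ.cl_rep] at e2
  exact e1.trans e2.symm

theorem cu_mul (ha : ∃ C : ℝ, ∀ n, ‖a n‖ ≤ C) (hb : ∃ C : ℝ, ∀ n, ‖b n‖ ≤ C) :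
    cu (fun n => a n * b n) = cu a * cu b := by
  have hab : ∃ C : ℝ, ∀ n, ‖a n * b n‖ ≤ C := by
    obtain ⟨C, hC⟩ := ha
    obtain ⟨D, hD⟩ := hb
    exact ⟨C * D, fun n => (norm_mul_le _ _).trans
      (mul_le_mul (hC n) (hD n) (norm_nonneg _) ((norm_nonneg _).trans (hC n)))⟩
  have h1 := sqcu_bd a ha
  have h2 := sqcu_bd b hb
  unfold cu
  refine Eq.trans ?_ (cl_mul I2 (A := fun _ => P) h1 h2)
  refine sqcu_cl (sqcu_bd _ hab) (h1.mul h2) fun n => ?_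
  have e1 := SQ.cl_rep I0 (a n * b n)
  have e2 := cl_mul I0 (SQ.rep_bd I0 (a n)) (SQ.rep_bd I0 (b n))
  rw [SQ.cl_rep, SQ.cl_rep] at e2
  exact e1.trans e2.symm

theorem cu_smul (c : ℂ) (ha : ∃ C : ℝ, ∀ n, ‖a n‖ ≤ C) : cu (fun n => c • a n) = c • cu a := by
  have hab : ∃ C : ℝ, ∀ n, ‖c • a n‖ ≤ C := by
    obtain ⟨C, hC⟩ := ha
    exact ⟨‖c‖ * C, fun n => (norm_smul_le _ _).trans
      (mul_le_mul_of_nonneg_left (hC n) (norm_nonneg _))⟩
  have h1 := sqcu_bd a ha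
  unfold cu
  refine Eq.trans ?_ (cl_smul I2 (A := fun _ => P) c h1)
  refine sqcu_cl (sqcu_bd _ hab) (h1.smul c) fun n => ?_
  have e1 := SQ.cl_rep I0 (c • a n)
  have e2 := cl_smul I0 c (SQ.rep_bd I0 (a n))
  rw [SQ.cl_rep] at e2
  exact e1.trans e2.symm

theorem cu_star (ha : ∃ C : ℝ, ∀ n, ‖a n‖ ≤ C) : cu (fun n => star (a n)) = star (cu a) := by
  have hab : ∃ C : ℝ, ∀ n, ‖star (a n)‖ ≤ C := by
    obtain ⟨C, hC⟩ := ha
    exact ⟨C, fun n => by rw [norm_star]; exact hC n⟩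
  have h1 := sqcu_bd a ha
  unfold cu
  refine Eq.trans ?_ (cl_star I2 (A := fun _ => P) h1)
  refine sqcu_cl (sqcu_bd _ hab) h1.star fun n => ?_
  have e1 := SQ.cl_rep I0 (star (a n))
  have e2 := cl_star I0 (SQ.rep_bd I0 (a n))
  rw [SQ.cl_rep] at e2
  exact e1.trans e2.symm

theorem norm_cu_le (C : ℝ) (hC : 0 ≤ C) (h : ∀ n, ‖a n‖ ≤ C) : ‖cu a‖ ≤ C := by
  refine le_of_forall_pos_le_add fun ε hε => ?_
  unfold cu
  refine norm_cl_le I2 (by linarith) (sqcu_bd a ⟨C, h⟩) ?_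
  change ∀ᶠ p : ℕ × ℕ in (atTop : Filter ℕ).curry atTop, ‖SQ.rep I0 (a p.1) p.2‖ ≤ C + ε
  rw [eventually_curry_iff]
  refine Filter.Eventually.of_forall fun n => ?_
  have h1 : ‖cl I0 (SQ.rep I0 (a n))‖ < C + ε := by
    rw [SQ.cl_rep]
    linarith [h n]
  exact (eventually_norm_lt I0 (SQ.rep_bd I0 (a n)) h1).mono fun m hm => hm.le

theorem cu_const (x : SQ I0 (fun _ => P)) : cu (fun _ => x) = SQ.re pi2 x := by
  rfl

theorem cu_cst (x : ℕ → P) (hx : Bd x) : cu (fun n => cst I0 P (x n)) = SQ.re pi1 (cl I0 x) := by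
  have hc : ∃ C : ℝ, ∀ n, ‖cst I0 P (x n)‖ ≤ C := by
    obtain ⟨C, hC⟩ := hx
    exact ⟨C, fun n => by rw [norm_cst]; exact hC n⟩
  have e := SQ.re_cl (A := fun _ => P) pi1 hx
  refine Eq.trans ?_ e.symm
  refine sqcu_cl (sqcu_bd _ hc) (Bd.re (A := fun _ => P) pi1 hx) fun n => ?_
  have e1 := SQ.cl_rep I0 (cst I0 P (x n))
  exact e1.trans (cst_apply I0 P (x n))

end H7c
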