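import Pool.Agent.H.MP_7b4a29_c.FamC
import Pool.Agent.H.MP_7b4a29_c.SQCu

/-!
# Double sequences of cycles
-/

open Filter Topology

namespace H7c

variable {P : Type} [CStarAlgebra P] {τ : P →ₗ[ℂ] ℂ}
  {Y : Type} [TopologicalSpace Y] [CompactSpace Y] [T2Space Y] {y0 : Y}
  {Y' : Type} [TopologicalSpace Y'] [CompactSpace Y'] [T2Space Y'] {y0' : Y'}

/-! ### Linear combinations -/

theorem cup_neg (a : ℕ → SQ I0 (fun _ => P)) (ha : ∃ C : ℝ, ∀ n, ‖a n‖ ≤ C) :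
    cu (fun n => -a n) = -cu a := by
  have h : (fun n => -a n) = fun n => (-1 : ℂ) • a n := by
    funext n
    rw [neg_one_smul]
  rw [h, cu_smul a (-1) ha, neg_one_smul]

theorem cup_zero : cu (fun _ => (0 : SQ I0 (fun _ => P))) = 0 := by
  rw [cu_const, map_zero]

theorem cup_sub (a b : ℕ → SQ I0 (fun _ => P)) (ha : ∃ C : ℝ, ∀ n, ‖a n‖ ≤ C)
    (hb : ∃ C : ℝ, ∀ n, ‖b n‖ ≤ C) : cu a - cu b = cu (fun n => a n - b n) := by
  have hb' : ∃ C : ℝ, ∀ n, ‖-b n‖ ≤ C := by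
    obtain ⟨C, hC⟩ := hb
    exact ⟨C, fun n => by rw [norm_neg]; exact hC n⟩
  have h : (fun n => a n - b n) = fun n => a n + -b n := by
    funext n
    rw [sub_eq_add_neg]
  rw [h, cu_add a (fun n => -b n) ha hb', cup_neg b hb, sub_eq_add_neg]

/-! ### Bounds -/

omit [T2Space Y] in
theorem cup_hat_dist (c : C1 I0 τ Y y0) (g g' : C(Y, ℂ)) (h : g y0 = g' y0) :
    ‖c.hat g - c.hat g'‖ ≤ ‖g - g'‖ := by
  have h1 : c.hat g - c.hat g' = c.κ (g - g') := by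
    rw [Cyc.hat, Cyc.hat, h, map_sub]
    abel
  rw [h1]
  exact NonUnitalStarAlgHom.norm_apply_le c.κ (g - g')

omit [T2Space Y] in
theorem cup_hat_norm (c : C1 I0 τ Y y0) (g : C(Y, ℂ)) : ‖c.hat g‖ ≤ 2 * ‖g‖ := by
  have h0 : c.hat g = c.hat g - c.hat (algebraMap ℂ C(Y, ℂ) (g y0)) := by
    rw [c.hat_const, sub_zero]
  rw [h0]
  have h2 : g y0 = (algebraMap ℂ C(Y, ℂ) (g y0)) y0 := rfl
  refine (cup_hat_dist c g (algebraMap ℂ C(Y, ℂ) (g y0)) h2).trans ?_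
  refine (norm_sub_le _ _).trans ?_
  have h1 : ‖algebraMap ℂ C(Y, ℂ) (g y0)‖ ≤ ‖g‖ := by
    rw [ContinuousMap.norm_le _ (norm_nonneg g)]
    intro x
    exact g.norm_coe_le_norm y0
  linarith

omit [T2Space Y] [T2Space Y'] in
theorem cup_comp_norm (f : C(Y', ℂ)) (g : C(Y, Y')) : ‖f.comp g‖ ≤ ‖f‖ := by
  rw [ContinuousMap.norm_le _ (norm_nonneg f)]
  intro x
  exact f.norm_coe_le_norm (g x)

omit [T2Space Y] [T2Space Y'] in
theorem cup_bd (c : C1 I0 τ Y y0) (h : ℕ → C(Y, Y')) (f : C(Y', ℂ)) :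
    ∃ C : ℝ, ∀ n, ‖c.hat (f.comp (h n))‖ ≤ C :=
  ⟨2 * ‖f‖, fun n => (cup_hat_norm c _).trans
    (mul_le_mul_of_nonneg_left (cup_comp_norm f (h n)) zero_le_two)⟩

/-- The cycle over `I2` given by a cycle over `I0` and a sequence of based maps. -/
theorem exists_cuCyc (hτ : PTr τ) (c : C1 I0 τ Y y0) (h : ℕ → C(Y, Y')) (h0 : ∀ n, h n y0 = y0') :
    ∃ d : C1 I2 τ Y' y0', (∀ f, d.hat f = cu (fun n => c.hat (f.comp (h n)))) ∧
      d.ζ = SQ.re pi2 c.ζ := by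
  have hz : ∀ (n : ℕ) (f : C(Y', ℂ)), (f.comp (h n)) y0 = f y0' := fun n f => by
    rw [ContinuousMap.comp_apply, h0]
  obtain ⟨H, hH⟩ : ∃ H : C(Y', ℂ) → R1 I2 P, ∀ f, H f = cu (fun n => c.hat (f.comp (h n))) :=
    ⟨_, fun _ => rfl⟩
  have hcz : ∃ C : ℝ, ∀ _ : ℕ, ‖c.ζ‖ ≤ C := ⟨‖c.ζ‖, fun _ => le_rfl⟩
  have s1 : ∀ f, SQ.re pi2 c.ζ * H f = -H f := by
    intro f
    rw [hH, ← cu_const, ← cu_mul (fun _ => c.ζ) _ hcz (cup_bd c h f), ← cup_neg _ (cup_bd c h f)]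
    congr 1
    funext n
    exact c.zeta_hat _
  have s2 : ∀ f g, H (f + g) = H f + H g := by
    intro f g
    rw [hH, hH, hH, ← cu_add _ _ (cup_bd c h f) (cup_bd c h g)]
    congr 1
    funext n
    rw [← c.hat_add]
    rfl
  have s3 : ∀ f g, H (f * g) = f y0' • H g + g y0' • H f + H f * H g := by
    intro f g
    have b1 : ∀ (a : ℂ) (f : C(Y', ℂ)), ∃ C : ℝ, ∀ n, ‖a • c.hat (f.comp (h n))‖ ≤ C := by
      intro a f
      obtain ⟨C, hC⟩ := cup_bd c h f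
      exact ⟨‖a‖ * C, fun n => (norm_smul_le _ _).trans
        (mul_le_mul_of_nonneg_left (hC n) (norm_nonneg a))⟩
    have b2 : ∃ C : ℝ, ∀ n, ‖f y0' • c.hat (g.comp (h n)) + g y0' • c.hat (f.comp (h n))‖ ≤ C := by
      obtain ⟨C, hC⟩ := b1 (f y0') g
      obtain ⟨D, hD⟩ := b1 (g y0') f
      exact ⟨C + D, fun n => (norm_add_le _ _).trans (add_le_add (hC n) (hD n))⟩
    have b3 : ∃ C : ℝ, ∀ n, ‖c.hat (f.comp (h n)) * c.hat (g.comp (h n))‖ ≤ C := by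
      obtain ⟨C, hC⟩ := cup_bd c h f
      obtain ⟨D, hD⟩ := cup_bd c h g
      exact ⟨C * D, fun n => (norm_mul_le _ _).trans
        (mul_le_mul (hC n) (hD n) (norm_nonneg _) ((norm_nonneg _).trans (hC n)))⟩
    rw [hH, hH, hH, ← cu_smul _ _ (cup_bd c h g), ← cu_smul _ _ (cup_bd c h f), ← cu_mul _ _ (cup_bd c h f) (cup_bd c h g),
      ← cu_add _ _ (b1 _ g) (b1 _ f), ← cu_add _ _ b2 b3]
    congr 1
    funext n
    have e := c.hat_mul (f.comp (h n)) (g.comp (h n))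
    rw [hz, hz] at e
    rw [← e]
    rfl
  have s4 : ∀ a : ℂ, H (algebraMap ℂ C(Y', ℂ) a) = 0 := by
    intro a
    rw [hH, ← cup_zero]
    congr 1
    funext n
    exact c.hat_const a
  have s5 : ∀ f, H (star f) = star (H f) := by
    intro f
    rw [hH, hH, ← cu_star _ (cup_bd c h f)]
    congr 1
    funext n
    rw [← c.hat_star]
    rfl
  obtain ⟨e, he1, he2, he3, he4⟩ : ∃ e : R1 I2 P, e = SQ.re pi2 c.ζ ∧ star e * e = 1 ∧
      e * star e = 1 ∧ J1 I2 τ (e - 1) :=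
    ⟨(Cyc.re pi2 hτ c).ζ, rfl, (Cyc.re pi2 hτ c).u1, (Cyc.re pi2 hτ c).u2, (Cyc.re pi2 hτ c).j⟩
  refine ⟨Cyc.mk' H e he2 he3 he4 (fun f => by rw [he1]; exact s1 f) s2 s3 s4 s5,
    fun f => ?_, he1⟩
  rw [← hH f]
  exact add_sub_cancel_left _ _

/-- The same for a sequence of homotopies: `Rel2` for the path
`s ↦ f y0' + cu (n ↦ c.hat (f ∘ hm (H n) s))`, with `ζ = SQ.re pi2 c.ζ`. -/
theorem eqv_cuCyc_hty (hτ : PTr τ) (c : C1 I0 τ Y y0) (H : ℕ → C(unitInterval × Y, Y'))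
    (h0 : ∀ n s, H n (s, y0) = y0') (hs : Eqs H) (d d' : C1 I2 τ Y' y0')
    (hd : ∀ f, d.hat f = cu (fun n => c.hat (f.comp (hm (H n) 0))))
    (hd' : ∀ f, d'.hat f = cu (fun n => c.hat (f.comp (hm (H n) 1)))) : Eqv d d' := by
  choose e he1 he2 using fun s : unitInterval =>
    exists_cuCyc (y0' := y0') hτ c (fun n => hm (H n) s) (fun n => h0 n s)
  have hk : ∀ s f, (e s).κ f = algebraMap ℂ (R1 I2 P) (f y0') +
      cu (fun n => c.hat (f.comp (hm (H n) s))) := by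
    intro s f
    rw [(e s).kappa_eq, he1]
  have hcont : ∀ f, Continuous fun s => (e s).κ f := by
    intro f
    rw [Metric.continuous_iff]
    intro s ε hε
    obtain ⟨δ, hδ, h⟩ := hs f (ε / 2) (half_pos hε)
    refine ⟨δ, hδ, fun s' hs' => ?_⟩
    rw [Subtype.dist_eq, Real.dist_eq] at hs'
    rw [dist_eq_norm, hk, hk, add_sub_add_left_eq_sub,
      cup_sub _ _ (cup_bd c _ f) (cup_bd c _ f)]
    refine lt_of_le_of_lt (norm_cu_le _ (ε / 2) (half_pos hε).le fun n => ?_) (half_lt_self hε)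
    refine (cup_hat_dist c _ _ ?_).trans ?_
    · change f (H n (s', y0)) = f (H n (s, y0))
      rw [h0, h0]
    · rw [ContinuousMap.norm_le _ (half_pos hε).le]
      intro x
      exact h s' s hs'.le n x
  refine Eqv.rel2 ⟨⟨fun s => (e s).κ, (e 0).ζ, (e 0).u1, (e 0).u2, (e 0).j, fun s f => ?_,
    hcont⟩, fun f => ?_, fun f => ?_⟩
  · rw [he2 0, ← he2 s]
    exact (e s).sup f
  · change (e 0).κ f = d.κ f
    rw [hk, d.kappa_eq, hd]
  · change (e 1).κ f = d'.κ f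
    rw [hk, d'.kappa_eq, hd']

/-- A constant sequence of maps: `cu_const`. -/
theorem cuCyc_const (hτ : PTr τ) (c : C1 I0 τ Y y0) (h : C(Y, Y')) (h0 : h y0 = y0')
    (d : C1 I2 τ Y' y0') (hd : ∀ f, d.hat f = cu (fun _ => c.hat (f.comp h))) :
    Eqv d (Cyc.re pi2 hτ (c.push h h0)) := by
  refine eqv_of_hat hτ fun f => ?_
  rw [hd, cu_const, Cyc.re_hat, Cyc.push_hat]

/-- `re pi1` of a family of homomorphisms. -/
theorem cu_fam {X : Type} [TopologicalSpace X] [CompactSpace X] (γ : C(X, ℂ) →⋆ₐ[ℂ] P)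
    (g : ℕ → C(X, Y)) (f : C(Y, ℂ)) :
    fam I2 γ (fun l => g l.1) f = cu (fun n => cst I0 P (γ (f.comp (g n)))) := by
  rw [cu_cst (fun n => γ (f.comp (g n))) (famc_bd I0 γ g f)]
  exact (fam_re I0 pi1 γ g f).symm

end H7c
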