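import Pool.Agent.H.MP_7b4a29_c.SQ

/-!
# Lifting unitaries; the diagonal argument
-/

open Filter Topology

namespace H7c

/-- The norm of a unitary is at most one. -/
theorem sqb_norm_le {B : Type*} [CStarAlgebra B] {v : B} (h : star v * v = 1) : ‖v‖ ≤ 1 := by
  have h1 : ‖v‖ * ‖v‖ ≤ 1 := by
    rw [← CStarRing.norm_star_mul_self, h]
    exact norm_one_le' _
  nlinarith [norm_nonneg v]

theorem sqb_bd {L : Type} {A : L → Type} [∀ l, CStarAlgebra (A l)] {x : ∀ l, A l}
    (h : ∀ l, star (x l) * x l = 1) : Bd x :=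
  ⟨1, fun l => sqb_norm_le (h l)⟩

/-- The function of the polar decomposition. -/
noncomputable def sqb_g (t : ℝ) : ℝ := (Real.sqrt (max t (1 / 2)))⁻¹

theorem sqb_g_pos (t : ℝ) : 0 < Real.sqrt (max t (1 / 2)) :=
  Real.sqrt_pos.2 (lt_of_lt_of_le (by norm_num) (le_max_right t (1 / 2)))

theorem sqb_g_continuous : Continuous sqb_g := by
  unfold sqb_g
  exact (Real.continuous_sqrt.comp (continuous_id.max continuous_const)).inv₀
    fun t => (sqb_g_pos t).ne'

theorem sqb_g_mul {t : ℝ} (h : |t - 1| ≤ 1 / 2) : sqb_g t * t * sqb_g t = 1 := by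
  have h1 : 1 / 2 ≤ t := by linarith [(abs_le.1 h).1]
  have h0 : 0 < t := by linarith
  have h2 : Real.sqrt t ≠ 0 := (Real.sqrt_pos.2 h0).ne'
  unfold sqb_g
  rw [max_eq_left h1]
  have h3 : t = Real.sqrt t * Real.sqrt t := (Real.mul_self_sqrt h0.le).symm
  calc (Real.sqrt t)⁻¹ * t * (Real.sqrt t)⁻¹
      = (Real.sqrt t)⁻¹ * (Real.sqrt t * Real.sqrt t) * (Real.sqrt t)⁻¹ := by rw [← h3]
    _ = 1 := by field_simp

theorem sqb_g_sub {t : ℝ} (h : |t - 1| ≤ 1 / 2) : |sqb_g t - 1| ≤ 2 * |t - 1| := by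
  have h1 : 1 / 2 ≤ t := by linarith [(abs_le.1 h).1]
  have h0 : 0 < t := by linarith
  have hs : 0 < Real.sqrt t := Real.sqrt_pos.2 h0
  have h3 : Real.sqrt t * Real.sqrt t = t := Real.mul_self_sqrt h0.le
  have h4 : 1 / 2 ≤ Real.sqrt t := by nlinarith
  unfold sqb_g
  rw [max_eq_left h1]
  have e : (Real.sqrt t)⁻¹ - 1 = (1 - t) * ((Real.sqrt t)⁻¹ * (1 + Real.sqrt t)⁻¹) := by
    have h5 : (1 + Real.sqrt t) ≠ 0 := by positivity
    field_simp
    nlinarith
  rw [e, abs_mul, abs_sub_comm 1 t, mul_comm]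
  refine mul_le_mul_of_nonneg_right ?_ (abs_nonneg _)
  rw [abs_of_pos (by positivity)]
  have h6 : (Real.sqrt t)⁻¹ ≤ 2 := by
    rw [inv_le_comm₀ hs (by norm_num)]
    linarith
  have h7 : (1 + Real.sqrt t)⁻¹ ≤ 1 := inv_le_one_of_one_le₀ (by linarith)
  calc (Real.sqrt t)⁻¹ * (1 + Real.sqrt t)⁻¹ ≤ 2 * 1 :=
        mul_le_mul h6 h7 (by positivity) (by norm_num)
    _ = 2 := by norm_num

/-- The unitary part of the polar decomposition of an almost unitary element. -/
theorem sqb_polar {B : Type*} [CStarAlgebra B] (x : B) (h1 : ‖star x * x - 1‖ ≤ 1 / 2)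
    (h2 : ‖x * star x - 1‖ ≤ 1 / 2) :
    ∃ v : B, star v * v = 1 ∧ v * star v = 1 ∧ ‖v - x‖ ≤ 4 * ‖star x * x - 1‖ := by
  rcases subsingleton_or_nontrivial B with hB | hB
  · refine ⟨1, Subsingleton.elim _ _, Subsingleton.elim _ _, ?_⟩
    rw [Subsingleton.elim ((1 : B) - x) 0, norm_zero]
    positivity
  have hsa : IsSelfAdjoint (star x * x) := IsSelfAdjoint.star_mul_self x
  have hsp : ∀ t ∈ spectrum ℝ (star x * x), |t - 1| ≤ ‖star x * x - 1‖ := by
    intro t ht
    have e : cfc (fun t : ℝ => t - 1) (star x * x) = star x * x - 1 := by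
      rw [cfc_sub (fun t : ℝ => t) (fun _ => 1) (star x * x) continuousOn_id
        continuousOn_const, cfc_id' ℝ (star x * x) hsa, cfc_const_one ℝ (star x * x) hsa]
    have := norm_apply_le_norm_cfc (fun t : ℝ => t - 1) (star x * x) ht
      (continuousOn_id.sub continuousOn_const) hsa
    rw [e, Real.norm_eq_abs] at this
    exact this
  have hc : ContinuousOn sqb_g (spectrum ℝ (star x * x)) := sqb_g_continuous.continuousOn
  have hcsa : star (cfc sqb_g (star x * x)) = cfc sqb_g (star x * x) :=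
    (cfc_predicate sqb_g (star x * x) : IsSelfAdjoint _).star_eq
  have hchc : cfc sqb_g (star x * x) * (star x * x) * cfc sqb_g (star x * x) = 1 := by
    have e : cfc sqb_g (star x * x) * (star x * x) * cfc sqb_g (star x * x)
        = cfc (fun t => sqb_g t * t * sqb_g t) (star x * x) := by
      rw [cfc_mul (fun t => sqb_g t * t) sqb_g (star x * x) (hc.mul continuousOn_id) hc,
        cfc_mul sqb_g (fun t => t) (star x * x) hc continuousOn_id, cfc_id' ℝ (star x * x) hsa]
    rw [e, cfc_congr (g := fun _ => 1), cfc_const_one ℝ (star x * x) hsa]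
    intro t ht
    exact sqb_g_mul ((hsp t ht).trans h1)
  have hcomm : Commute (cfc sqb_g (star x * x)) (star x * x) :=
    (Commute.refl (star x * x)).cfc_real sqb_g
  have hcc : cfc sqb_g (star x * x) * cfc sqb_g (star x * x) * (star x * x) = 1 := by
    rw [mul_assoc, hcomm.eq, ← mul_assoc]
    exact hchc
  have hxx : IsUnit (x * star x) := by
    have h3 : ‖1 - x * star x‖ < 1 := by
      rw [norm_sub_rev]
      linarith
    have h4 := isUnit_one_sub_of_norm_lt_one h3
    rwa [sub_sub_cancel] at h4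
  refine ⟨x * cfc sqb_g (star x * x), ?_, ?_, ?_⟩
  · rw [star_mul, hcsa]
    calc cfc sqb_g (star x * x) * star x * (x * cfc sqb_g (star x * x))
        = cfc sqb_g (star x * x) * (star x * x) * cfc sqb_g (star x * x) := by
          simp only [mul_assoc]
      _ = 1 := hchc
  · rw [star_mul, hcsa]
    refine hxx.mul_right_cancel ?_
    calc x * cfc sqb_g (star x * x) * (cfc sqb_g (star x * x) * star x) * (x * star x)
        = x * (cfc sqb_g (star x * x) * cfc sqb_g (star x * x) * (star x * x)) * star x := by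
          simp only [mul_assoc]
      _ = 1 * (x * star x) := by rw [hcc, mul_one, one_mul]
  · have hn : ‖x‖ ≤ 2 := by
      have h3 : ‖x‖ * ‖x‖ ≤ 3 / 2 := by
        rw [← CStarRing.norm_star_mul_self]
        calc ‖star x * x‖ = ‖(star x * x - 1) + 1‖ := by rw [sub_add_cancel]
          _ ≤ ‖star x * x - 1‖ + ‖(1 : B)‖ := norm_add_le _ _
          _ ≤ 1 / 2 + 1 := add_le_add h1 (norm_one_le' _)
          _ = 3 / 2 := by norm_num
      nlinarith [norm_nonneg x]
    have hn2 : ‖cfc sqb_g (star x * x) - 1‖ ≤ 2 * ‖star x * x - 1‖ := by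
      have e : cfc sqb_g (star x * x) - 1 = cfc (fun t => sqb_g t - 1) (star x * x) := by
        rw [cfc_sub sqb_g (fun _ => 1) (star x * x) hc continuousOn_const,
          cfc_const_one ℝ (star x * x) hsa]
      rw [e]
      refine norm_cfc_le (by positivity) fun t ht => ?_
      rw [Real.norm_eq_abs]
      exact (sqb_g_sub ((hsp t ht).trans h1)).trans
        (mul_le_mul_of_nonneg_left (hsp t ht) (by norm_num))
    calc ‖x * cfc sqb_g (star x * x) - x‖ = ‖x * (cfc sqb_g (star x * x) - 1)‖ := by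
          rw [mul_sub, mul_one]
      _ ≤ ‖x‖ * ‖cfc sqb_g (star x * x) - 1‖ := norm_mul_le _ _
      _ ≤ 2 * (2 * ‖star x * x - 1‖) := mul_le_mul hn hn2 (norm_nonneg _) (by norm_num)
      _ = 4 * ‖star x * x - 1‖ := by ring

variable (I : Ix) {A : I.L → Type} [∀ l, CStarAlgebra (A l)] {x y : ∀ l, A l}

/-- Unitaries lift to families of unitaries.

Proof. Let `x` represent `u`. Then `‖star x * x - 1‖ → 0` and `‖x * star x - 1‖ → 0`. Where both are
at most `1/2`, `h = star x * x` is invertible (spectrum in `[1/2, 3/2]`), `x` is invertible, and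
`v = x * cfc (fun t => (√(max t (1/2)))⁻¹) h` is unitary with `‖v - x‖ ≤ C ‖star x * x - 1‖`
(compare `H47.polar` in `Pool/Agent/H/MP_47f0a1_an/Util.lean`). Put `v = 1` elsewhere. -/
theorem exists_unitary_rep (u : SQ I A) (h1 : star u * u = 1) (h2 : u * star u = 1) :
    ∃ x : ∀ l, A l, (∀ l, star (x l) * x l = 1 ∧ x l * star (x l) = 1) ∧ cl I x = u := by
  obtain ⟨x, hx, hxu⟩ := cl_surj I u
  have t1 : Tendsto (fun l => ‖star (x l) * x l - 1‖) I.F (𝓝 0) := by
    refine (cl_eq_iff I (Bd.mul (Bd.star hx) hx) (Bd.one (A := A))).1 ?_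
    rw [cl_mul I (Bd.star hx) hx, cl_star I hx, hxu, h1, cl_one]
  have t2 : Tendsto (fun l => ‖x l * star (x l) - 1‖) I.F (𝓝 0) := by
    refine (cl_eq_iff I (Bd.mul hx (Bd.star hx)) (Bd.one (A := A))).1 ?_
    rw [cl_mul I hx (Bd.star hx), cl_star I hx, hxu, h2, cl_one]
  have key : ∀ l, ∃ v : A l, (star v * v = 1 ∧ v * star v = 1) ∧
      (‖star (x l) * x l - 1‖ ≤ 1 / 2 → ‖x l * star (x l) - 1‖ ≤ 1 / 2 →
        ‖v - x l‖ ≤ 4 * ‖star (x l) * x l - 1‖) := by
    intro l
    by_cases h : ‖star (x l) * x l - 1‖ ≤ 1 / 2 ∧ ‖x l * star (x l) - 1‖ ≤ 1 / 2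
    · obtain ⟨v, hv1, hv2, hv3⟩ := sqb_polar (x l) h.1 h.2
      exact ⟨v, ⟨hv1, hv2⟩, fun _ _ => hv3⟩
    · exact ⟨1, ⟨by simp, by simp⟩, fun ha hb => absurd ⟨ha, hb⟩ h⟩
  choose v hv hv' using key
  refine ⟨v, hv, ?_⟩
  rw [← hxu, cl_eq_iff I (sqb_bd fun l => (hv l).1) hx]
  have t3 : Tendsto (fun l => 4 * ‖star (x l) * x l - 1‖) I.F (𝓝 0) := by
    have t4 := t1.const_mul 4
    rwa [mul_zero] at t4
  refine squeeze_zero' (Eventually.of_forall fun l => norm_nonneg _) ?_ t3
  filter_upwards [t1.eventually (ge_mem_nhds (by norm_num : (0 : ℝ) < 1 / 2)),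
    t2.eventually (ge_mem_nhds (by norm_num : (0 : ℝ) < 1 / 2))] with l ha hb
  exact hv' l ha hb

/-- Families of unitaries are bounded. -/
theorem Bd.of_unitary (h : ∀ l, Star.star (x l) * x l = 1) : Bd x := sqb_bd h

/-- Diagonal argument. `Φ i l z` measures the failure of the `i`-th condition for `z` at the index
`l`. If for every `k` there is a family satisfying the first `k` conditions up to `1/(k+1)` then some
family satisfies all conditions in the limit.

Proof. `E k = {l | ∀ i ≤ k, Φ i l (x k l) ≤ 1/(k+1)} ∈ I.F`. For `l` let `K l` be the largest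
`k ≤ I.w l` with `l ∈ E k` (and `0` if there is none), `y l = x (K l) l`. For every `k₀`, eventually
`I.w l ≥ k₀` and `l ∈ E k₀`, hence `K l ≥ k₀` and `l ∈ E (K l)`. -/
theorem saturate {X : I.L → Type} (Φ : ℕ → ∀ l, X l → ℝ) (x : ℕ → ∀ l, X l)
    (h : ∀ k i, i ≤ k → ∀ᶠ l in I.F, Φ i l (x k l) ≤ 1 / (k + 1)) :
    ∃ y : ∀ l, X l, (∀ l, ∃ k, y l = x k l) ∧
      ∀ i, ∀ δ : ℝ, 0 < δ → ∀ᶠ l in I.F, Φ i l (y l) ≤ δ := by
  classical
  set P : I.L → ℕ → Prop := fun l k => ∀ i, i ≤ k → Φ i l (x k l) ≤ 1 / (k + 1) with hP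
  refine ⟨fun l => x (Nat.findGreatest (P l) (I.w l)) l, fun l => ⟨_, rfl⟩, ?_⟩
  intro i δ hδ
  obtain ⟨n, hn⟩ := exists_nat_one_div_lt hδ
  have hE : ∀ᶠ l in I.F, P l (max n i) := by
    have h1 : ∀ᶠ l in I.F, ∀ j ∈ Set.Iic (max n i),
        Φ j l (x (max n i) l) ≤ 1 / ((max n i : ℕ) + 1) :=
      (Filter.eventually_all_finite (Set.finite_Iic (max n i))).2
        fun j hj => h (max n i) j hj
    filter_upwards [h1] with l hl j hj
    exact hl j hj
  filter_upwards [hE, I.tw.eventually_ge_atTop (max n i)] with l hl hw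
  have h2 : P l (Nat.findGreatest (P l) (I.w l)) := Nat.findGreatest_spec hw hl
  have h3 : max n i ≤ Nat.findGreatest (P l) (I.w l) := Nat.le_findGreatest hw hl
  have h4 := h2 i ((le_max_right n i).trans h3)
  refine h4.trans (le_trans ?_ hn.le)
  have h5 : (n : ℝ) ≤ (Nat.findGreatest (P l) (I.w l) : ℝ) := by
    exact_mod_cast (le_max_left n i).trans h3
  exact one_div_le_one_div_of_le (by positivity) (by linarith)

end H7c
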