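import Pool.Agent.H.MP_7b4a29_c.JI
import Pool.Agent.H.MP_7b4a29_c.SQB

/-!
# Local units of the ideal
-/

open Filter Topology

namespace H7c

/-- The cut function. -/
noncomputable def cj_f (w t : ℝ) : ℝ := min 1 (w * max t 0)

theorem cj_f_cont (w : ℝ) : Continuous (cj_f w) := by
  unfold cj_f
  exact continuous_const.min (continuous_const.mul (continuous_id.max continuous_const))

theorem cj_f_nonneg {w : ℝ} (hw : 0 ≤ w) (t : ℝ) : 0 ≤ cj_f w t :=
  le_min zero_le_one (mul_nonneg hw (le_max_right _ _))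

theorem cj_f_le (w t : ℝ) : cj_f w t ≤ 1 := min_le_left _ _

theorem cj_f_sq {w : ℝ} (hw : 0 ≤ w) (t : ℝ) : cj_f w t * cj_f w t ≤ w * max t 0 :=
  (mul_le_of_le_one_right (cj_f_nonneg hw t) (cj_f_le w t)).trans (min_le_right _ _)

theorem cj_f_small {w : ℝ} (hw : 0 < w) {t : ℝ} (ht : 0 ≤ t) :
    (1 - cj_f w t) * t * (1 - cj_f w t) ≤ 1 / w := by
  have h0 := cj_f_nonneg hw.le t
  have h1 := cj_f_le w t
  by_cases h : 1 ≤ w * t
  · have h2 : cj_f w t = 1 := by
      unfold cj_f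
      rw [max_eq_left ht, min_eq_left h]
    rw [h2, sub_self, zero_mul, zero_mul]
    positivity
  · have h3 : t ≤ 1 / w := by
      rw [le_div_iff₀ hw]
      linarith [not_le.1 h, mul_comm w t]
    have h4 : (1 - cj_f w t) * t ≤ t := mul_le_of_le_one_left ht (by linarith)
    have h5 : (1 - cj_f w t) * t * (1 - cj_f w t) ≤ (1 - cj_f w t) * t :=
      mul_le_of_le_one_right (mul_nonneg (by linarith) ht) (by linarith)
    linarith

/-- The cut in one algebra. -/
theorem cj_one {B : Type} [CStarAlgebra B] {T : B →ₗ[ℂ] ℂ} (hT : PTr T) {n : ℕ} (x : Fin n → B)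
    (w : ℝ) (hw : 0 ≤ w) :
    ∃ e : B, star e = e ∧ ‖e‖ ≤ 1 ∧ ‖1 - e‖ ≤ 1 ∧
      (0 < w → ∀ i, ‖e * x i - x i‖ * ‖e * x i - x i‖ ≤ 1 / w) ∧
      nsq T e ≤ w * ∑ i, nsq T (x i) := by
  letI := CStarAlgebra.spectralOrder B
  haveI := CStarAlgebra.spectralOrderedRing B
  obtain ⟨h, hh⟩ : ∃ h : B, h = ∑ i, x i * star (x i) := ⟨_, rfl⟩
  have hpos : 0 ≤ h := by
    rw [hh]
    exact Finset.sum_nonneg fun i _ => mul_star_self_nonneg (x i)
  have hsa : IsSelfAdjoint h := IsSelfAdjoint.of_nonneg hpos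
  have hle : ∀ i, x i * star (x i) ≤ h := by
    intro i
    rw [hh]
    exact Finset.single_le_sum (f := fun i => x i * star (x i))
      (fun j _ => mul_star_self_nonneg (x j)) (Finset.mem_univ i)
  have hsp : ∀ t ∈ spectrum ℝ h, 0 ≤ t := fun t ht => spectrum_nonneg_of_nonneg hpos ht
  have hc : ContinuousOn (cj_f w) (spectrum ℝ h) := (cj_f_cont w).continuousOn
  have hc1 : ContinuousOn (fun t => 1 - cj_f w t) (spectrum ℝ h) :=
    (continuous_const.sub (cj_f_cont w)).continuousOn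
  have he1 : (1 : B) - cfc (cj_f w) h = cfc (fun t => 1 - cj_f w t) h := by
    rw [cfc_sub (fun _ => 1) (cj_f w) h continuousOn_const hc, cfc_const_one ℝ h hsa]
  have hse : star (cfc (cj_f w) h) = cfc (cj_f w) h :=
    (cfc_predicate (R := ℝ) (p := IsSelfAdjoint) (cj_f w) h).star_eq
  have hse1 : star (1 - cfc (cj_f w) h) = 1 - cfc (cj_f w) h := by
    rw [star_sub, star_one, hse]
  refine ⟨cfc (cj_f w) h, hse, ?_, ?_, ?_, ?_⟩
  · refine norm_cfc_le zero_le_one fun t _ => ?_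
    rw [Real.norm_eq_abs, abs_of_nonneg (cj_f_nonneg hw t)]
    exact cj_f_le w t
  · rw [he1]
    refine norm_cfc_le zero_le_one fun t _ => ?_
    rw [Real.norm_eq_abs, abs_of_nonneg (by linarith [cj_f_le w t])]
    linarith [cj_f_nonneg hw t]
  · intro hw' i
    have h1 : cfc (cj_f w) h * x i - x i = -((1 - cfc (cj_f w) h) * x i) := by
      rw [sub_mul, one_mul, neg_sub]
    rw [h1, norm_neg, ← CStarRing.norm_self_mul_star, star_mul, hse1]
    have h2 : (1 - cfc (cj_f w) h) * x i * (star (x i) * (1 - cfc (cj_f w) h))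
        = (1 - cfc (cj_f w) h) * (x i * star (x i)) * (1 - cfc (cj_f w) h) := by
      noncomm_ring
    rw [h2]
    have h3 : (1 - cfc (cj_f w) h) * (x i * star (x i)) * (1 - cfc (cj_f w) h)
        ≤ (1 - cfc (cj_f w) h) * h * (1 - cfc (cj_f w) h) := by
      have h4 := star_left_conjugate_le_conjugate (hle i) (1 - cfc (cj_f w) h)
      rwa [hse1] at h4
    have h5 : 0 ≤ (1 - cfc (cj_f w) h) * (x i * star (x i)) * (1 - cfc (cj_f w) h) := by
      have h6 := star_left_conjugate_nonneg (mul_star_self_nonneg (x i)) (1 - cfc (cj_f w) h)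
      rwa [hse1] at h6
    refine (CStarAlgebra.norm_le_norm_of_nonneg_of_le h5 h3).trans ?_
    have h7 : (1 - cfc (cj_f w) h) * h * (1 - cfc (cj_f w) h)
        = cfc (fun t => (1 - cj_f w t) * t * (1 - cj_f w t)) h := by
      rw [cfc_mul (fun t => (1 - cj_f w t) * t) (fun t => 1 - cj_f w t) h
        (hc1.mul continuousOn_id) hc1,
        cfc_mul (fun t => 1 - cj_f w t) (fun t => t) h hc1 continuousOn_id,
        cfc_id' ℝ h hsa, ← he1]
    rw [h7]
    refine norm_cfc_le (by positivity) fun t ht => ?_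
    have h8 := hsp t ht
    have h9 : 0 ≤ 1 - cj_f w t := by linarith [cj_f_le w t]
    rw [Real.norm_eq_abs, abs_of_nonneg (mul_nonneg (mul_nonneg h9 h8) h9)]
    exact cj_f_small hw' h8
  · have h1 : 0 ≤ cfc (fun t => w * t - cj_f w t * cj_f w t) h := by
      refine cfc_nonneg fun t ht => ?_
      have h2 := cj_f_sq hw t
      rw [max_eq_left (hsp t ht)] at h2
      linarith
    have h3 : cfc (fun t => w * t - cj_f w t * cj_f w t) h
        = (w : ℂ) • h - star (cfc (cj_f w) h) * cfc (cj_f w) h := by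
      rw [hse, cfc_sub (fun t => w * t) (fun t => cj_f w t * cj_f w t) h
        (continuousOn_const.mul continuousOn_id) (hc.mul hc),
        cfc_mul (cj_f w) (cj_f w) h hc hc, cfc_const_mul w (fun t => t) h continuousOn_id,
        cfc_id' ℝ h hsa, Complex.coe_smul]
    rw [h3, CStarAlgebra.nonneg_iff_eq_star_mul_self] at h1
    obtain ⟨s, hs⟩ := h1
    have h4 := (Complex.nonneg_iff.1 (hT.nonneg s)).1
    rw [← hs, map_sub, map_smul, smul_eq_mul, Complex.sub_re, Complex.re_ofReal_mul] at h4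
    have h5 : (T h).re = ∑ i, nsq T (x i) := by
      rw [hh, map_sum, Complex.re_sum]
      refine Finset.sum_congr rfl fun i _ => ?_
      unfold nsq
      rw [hT.tr]
    rw [h5] at h4
    unfold nsq at *
    linarith

variable (I : Ix) {A : I.L → Type} [∀ l, CStarAlgebra (A l)] {T : ∀ l, A l →ₗ[ℂ] ℂ}
  (hT : ∀ l, PTr (T l))

include hT

/-- Finitely many elements of the ideal have a common unit in the ideal.

Proof. Let `x i` be representatives of `a i` as in the definition of `IsJ`, put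
`h l = ∑ i, x i l * star (x i l)` and `e l = cfc (fun t => min 1 (w t)) (h l)` with `w = I.w l`
(for `t ≥ 0`; use `fun t => min 1 (w * max t 0)`). Then `0 ≤ e l ≤ 1`, so `‖e l‖ ≤ 1`, `‖1 - e l‖ ≤ 1`.
`‖(1 - e l) x i l‖² = ‖(1 - e) x x* (1 - e)‖ ≤ ‖(1 - e)² h‖ ≤ sup_t (1 - min 1 (w t))² t ≤ 1 / w`, so
`cl e * a i = a i`. And `e² ≤ e ≤ w h`, so `nsq e ≤ w T(h) = w ∑ nsq (star (x i)) = w ∑ nsq (x i)`, which
decreases rapidly. (If `I.w l = 0` everything at `l` is bounded, and `I.w l → ∞`.) -/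
theorem exists_cutJ (n : ℕ) (a : Fin n → SQ I A) (ha : ∀ i, IsJ I T (a i)) :
    ∃ e : SQ I A, IsJ I T e ∧ star e = e ∧ ‖e‖ ≤ 1 ∧ ‖1 - e‖ ≤ 1 ∧ ∀ i, e * a i = a i := by
  choose x hx hxa hxt using ha
  have hone := fun l => cj_one (hT l) (fun i => x i l) (I.w l : ℝ) (Nat.cast_nonneg _)
  choose e he1 he2 he3 he4 he5 using hone
  have hbe : Bd e := ⟨1, he2⟩
  refine ⟨cl I e, IsJ.of_rep I hbe fun k => ?_, ?_, ?_, ?_, fun i => ?_⟩
  · have h1 : Tendsto (fun l => ∑ i, (I.w l : ℝ) ^ (k + 1) * nsq (T l) (x i l)) I.F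
        (𝓝 (∑ i : Fin n, 0)) := tendsto_finsetSum _ fun i _ => hxt i (k + 1)
    rw [Finset.sum_const_zero] at h1
    refine squeeze_zero (fun l => mul_nonneg (by positivity) (nsq_nonneg (hT l) _))
      (fun l => ?_) h1
    have h2 := mul_le_mul_of_nonneg_left (he5 l) (by positivity : (0 : ℝ) ≤ (I.w l : ℝ) ^ k)
    refine h2.trans (le_of_eq ?_)
    rw [← Finset.mul_sum, pow_succ]
    ring
  · rw [← cl_star I hbe]
    congr 1
    exact funext he1
  · exact norm_cl_le I zero_le_one hbe (Eventually.of_forall he2)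
  · rw [← cl_one I, ← cl_sub I Bd.one hbe]
    exact norm_cl_le I zero_le_one (Bd.one.sub hbe) (Eventually.of_forall he3)
  · rw [← hxa i, ← cl_mul I hbe (hx i), cl_eq_iff I (hbe.mul (hx i)) (hx i)]
    have h1 : Tendsto (fun l => Real.sqrt (1 / (I.w l : ℝ))) I.F (𝓝 0) := by
      have h2 : Tendsto (fun l => (1 : ℝ) / (I.w l : ℝ)) I.F (𝓝 0) :=
        tendsto_one_div_atTop_nhds_zero_nat.comp I.tw
      have h3 := (Real.continuous_sqrt.tendsto 0).comp h2
      rwa [Real.sqrt_zero] at h3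
    refine squeeze_zero' (Eventually.of_forall fun l => norm_nonneg _) ?_ h1
    filter_upwards [I.tw.eventually_ge_atTop 1] with l hl
    have h4 : (0 : ℝ) < I.w l := by exact_mod_cast hl
    refine Real.le_sqrt_of_sq_le ?_
    rw [sq]
    exact he4 l h4 i

/-- Two-sided: apply `exists_cutJ` to the elements and their adjoints. -/
theorem exists_cutJ2 (n : ℕ) (a : Fin n → SQ I A) (ha : ∀ i, IsJ I T (a i)) :
    ∃ e : SQ I A, IsJ I T e ∧ star e = e ∧ ‖e‖ ≤ 1 ∧ ‖1 - e‖ ≤ 1 ∧
      ∀ i, e * a i = a i ∧ a i * e = a i := by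
  obtain ⟨e, h1, h2, h3, h4, h5⟩ := exists_cutJ I hT (n + n) (Fin.append a (fun i => star (a i)))
    (by
      intro i
      refine Fin.addCases (fun j => ?_) (fun j => ?_) i
      · rw [Fin.append_left]
        exact ha j
      · rw [Fin.append_right]
        exact (IsJ.idl I hT).star _ (ha j))
  refine ⟨e, h1, h2, h3, h4, fun i => ⟨?_, ?_⟩⟩
  · have h6 := h5 (Fin.castAdd n i)
    rwa [Fin.append_left] at h6
  · have h6 := h5 (Fin.natAdd n i)
    rw [Fin.append_right] at h6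
    have h7 := congrArg star h6
    rwa [star_mul, star_star, h2] at h7

end H7c
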