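import Pool.Agent.H.MP_7b4a29_c.JI

/-!
# Cycles: homomorphisms `C(Y) → D` which are scalar outside a small part
-/

open Filter Topology

namespace H7c

/-- A cycle over `(D, J)` based at `y0 : Y`: a homomorphism `κ : C(Y) → D` and a unitary `ζ`, equal to
`1` modulo `J`, which is `-1` on the support of the elements `κ f - f y0`. -/
structure Cyc {D : Type} [CStarAlgebra D] (J : D → Prop) (Y : Type) [TopologicalSpace Y]
    [CompactSpace Y] (y0 : Y) where
  κ : C(Y, ℂ) →⋆ₐ[ℂ] D
  ζ : D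
  u1 : star ζ * ζ = 1
  u2 : ζ * star ζ = 1
  j : J (ζ - 1)
  sup : ∀ f, ζ * (κ f - algebraMap ℂ D (f y0)) = -(κ f - algebraMap ℂ D (f y0))

namespace Cyc

variable {D : Type} [CStarAlgebra D] {J : D → Prop} {Y : Type} [TopologicalSpace Y]
  [CompactSpace Y] {y0 : Y} (c : Cyc J Y y0)

/-- The deviation from the scalar. -/
noncomputable def hat (f : C(Y, ℂ)) : D := c.κ f - algebraMap ℂ D (f y0)

theorem kappa_eq (f : C(Y, ℂ)) : c.κ f = algebraMap ℂ D (f y0) + c.hat f := by
  rw [hat]; abel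

theorem hat_add (f g : C(Y, ℂ)) : c.hat (f + g) = c.hat f + c.hat g := by
  simp only [hat, map_add, ContinuousMap.add_apply]
  abel

theorem hat_mul (f g : C(Y, ℂ)) :
    c.hat (f * g) = f y0 • c.hat g + g y0 • c.hat f + c.hat f * c.hat g := by
  have h1 := Algebra.commutes (R := ℂ) (g y0) (c.κ f)
  have h2 := Algebra.commutes (R := ℂ) (g y0) (algebraMap ℂ D (f y0))
  simp only [hat, map_mul, ContinuousMap.mul_apply, Algebra.smul_def]
  rw [mul_sub, mul_sub, mul_sub, sub_mul, sub_mul, h1, h2]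
  abel

theorem hat_smul (a : ℂ) (f : C(Y, ℂ)) : c.hat (a • f) = a • c.hat f := by
  simp only [hat, map_smul, ContinuousMap.smul_apply, smul_eq_mul, map_mul, smul_sub]
  rw [Algebra.smul_def a (algebraMap ℂ D (f y0))]

theorem hat_star (f : C(Y, ℂ)) : c.hat (star f) = star (c.hat f) := by
  simp only [hat, map_star, ContinuousMap.star_apply, star_sub]
  rw [algebraMap_star_comm]

theorem hat_one : c.hat 1 = 0 := by
  simp only [hat, map_one, ContinuousMap.one_apply, sub_self]

theorem hat_const (a : ℂ) : c.hat (algebraMap ℂ C(Y, ℂ) a) = 0 := by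
  have h1 : (algebraMap ℂ C(Y, ℂ) a) y0 = a := rfl
  rw [hat, AlgHomClass.commutes, h1, sub_self]

theorem zeta_hat (f : C(Y, ℂ)) : c.ζ * c.hat f = -c.hat f := c.sup f

/-- Apply `star` to `zeta_hat` for `star f` and multiply by `ζ` from the right. -/
theorem hat_zeta (f : C(Y, ℂ)) : c.hat f * c.ζ = -c.hat f := by
  have h1 := congrArg star (c.zeta_hat (star f))
  rw [star_mul, star_neg, ← c.hat_star, star_star] at h1
  have h2 := congrArg (fun x => x * c.ζ) h1
  simp only [mul_assoc, c.u1, mul_one, neg_mul] at h2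
  rw [eq_neg_iff_add_eq_zero, add_comm, ← eq_neg_iff_add_eq_zero]
  exact h2

theorem zeta_sub_hat (f : C(Y, ℂ)) : (c.ζ - 1) * c.hat f = (-2 : ℂ) • c.hat f := by
  rw [sub_mul, c.zeta_hat, one_mul, neg_smul, two_smul]
  abel

theorem hat_zeta_sub (f : C(Y, ℂ)) : c.hat f * (c.ζ - 1) = (-2 : ℂ) • c.hat f := by
  rw [mul_sub, c.hat_zeta, mul_one, neg_smul, two_smul]
  abel

/-- `hat f = -½ (ζ - 1) hat f`. -/
theorem hat_J (hJ : Idl J) (f : C(Y, ℂ)) : J (c.hat f) := by
  have h1 : c.hat f = (-(1 / 2) : ℂ) • ((c.ζ - 1) * c.hat f) := by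
    rw [c.zeta_sub_hat, smul_smul]
    norm_num
  rw [h1]
  exact hJ.smul _ _ (hJ.mul_right _ _ c.j)

/-- If `e * (ζ - 1) = ζ - 1` then `e * hat f = hat f`. -/
theorem mul_hat_of {e : D} (he : e * (c.ζ - 1) = c.ζ - 1) (f : C(Y, ℂ)) :
    e * c.hat f = c.hat f := by
  have h1 : c.hat f = (-(1 / 2) : ℂ) • ((c.ζ - 1) * c.hat f) := by
    rw [c.zeta_sub_hat, smul_smul]
    norm_num
  rw [h1, mul_smul_comm, ← mul_assoc, he]

/-- If `e = star e` and `e * (ζ - 1) = ζ - 1` then also `(ζ - 1) * e = ζ - 1`, because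
`ζ - 1 = -ζ * star (ζ - 1)`. -/
theorem zeta_sub_mul_of {e : D} (hs : star e = e) (he : e * (c.ζ - 1) = c.ζ - 1) :
    (c.ζ - 1) * e = c.ζ - 1 := by
  have h1 := congrArg star he
  rw [star_mul, hs] at h1
  have h2 : c.ζ - 1 = -(c.ζ * star (c.ζ - 1)) := by
    rw [star_sub, star_one, mul_sub, c.u2, mul_one]
    abel
  calc (c.ζ - 1) * e = -(c.ζ * star (c.ζ - 1)) * e := by rw [← h2]
    _ = -(c.ζ * (star (c.ζ - 1) * e)) := by rw [neg_mul, mul_assoc]
    _ = c.ζ - 1 := by rw [h1, ← h2]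

theorem hat_mul_of {e : D} (hs : star e = e) (he : e * (c.ζ - 1) = c.ζ - 1) (f : C(Y, ℂ)) :
    c.hat f * e = c.hat f := by
  have h1 : c.hat f = (-(1 / 2) : ℂ) • (c.hat f * (c.ζ - 1)) := by
    rw [c.hat_zeta_sub, smul_smul]
    norm_num
  rw [h1, smul_mul_assoc, mul_assoc, c.zeta_sub_mul_of hs he]

/-- `(ζ - 1)* + (ζ - 1) + (ζ - 1)* (ζ - 1) = 0`. -/
theorem zeta_rel1 : star (c.ζ - 1) + (c.ζ - 1) + star (c.ζ - 1) * (c.ζ - 1) = 0 := by
  rw [star_sub, star_one, sub_mul, mul_sub, c.u1, mul_one, one_mul]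
  abel

theorem zeta_rel2 : star (c.ζ - 1) + (c.ζ - 1) + (c.ζ - 1) * star (c.ζ - 1) = 0 := by
  rw [star_sub, star_one, sub_mul, mul_sub, c.u2, mul_one, one_mul]
  abel

variable (J Y y0) in
/-- The trivial cycle. -/
noncomputable def triv (hJ : Idl J) : Cyc J Y y0 where
  κ :=
    { toFun := fun f => algebraMap ℂ D (f y0)
      map_one' := by simp
      map_mul' := by intro f g; simp
      map_zero' := by simp
      map_add' := by intro f g; simp
      commutes' := by
        intro r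
        simp
      map_star' := by
        intro f
        change algebraMap ℂ D ((star f) y0) = star (algebraMap ℂ D (f y0))
        rw [ContinuousMap.star_apply, algebraMap_star_comm] }
  ζ := 1
  u1 := by simp
  u2 := by simp
  j := by
    rw [sub_self]
    exact hJ.zero
  sup := by
    intro f
    change 1 * (algebraMap ℂ D (f y0) - algebraMap ℂ D (f y0)) =
      -(algebraMap ℂ D (f y0) - algebraMap ℂ D (f y0))
    rw [sub_self, mul_zero, neg_zero]

theorem triv_hat (hJ : Idl J) (f : C(Y, ℂ)) : (triv J Y y0 hJ).hat f = 0 := by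
  change algebraMap ℂ D (f y0) - algebraMap ℂ D (f y0) = 0
  rw [sub_self]

variable {Y' : Type} [TopologicalSpace Y'] [CompactSpace Y'] {y0' : Y'}

/-- Restriction along a based map `g : Y → Y'`. -/
noncomputable def push (g : C(Y, Y')) (hg : g y0 = y0') : Cyc J Y' y0' where
  κ := c.κ.comp (ContinuousMap.compStarAlgHom' ℂ ℂ g)
  ζ := c.ζ
  u1 := c.u1
  u2 := c.u2
  j := c.j
  sup := by
    intro f
    have h := c.sup (f.comp g)
    rw [ContinuousMap.comp_apply, hg] at h
    exact h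

theorem push_kappa (g : C(Y, Y')) (hg : g y0 = y0') (f : C(Y', ℂ)) :
    (c.push g hg).κ f = c.κ (f.comp g) := rfl

theorem push_hat (g : C(Y, Y')) (hg : g y0 = y0') (f : C(Y', ℂ)) :
    (c.push g hg).hat f = c.hat (f.comp g) := by
  rw [hat, hat, push_kappa, ContinuousMap.comp_apply, hg]

variable {D' : Type} [CStarAlgebra D'] {J' : D' → Prop}

/-- Composition with a homomorphism. -/
noncomputable def mapD (φ : D →⋆ₐ[ℂ] D') (hφ : ∀ a, J a → J' (φ a)) : Cyc J' Y y0 where
  κ := φ.comp c.κ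
  ζ := φ c.ζ
  u1 := by
    rw [← map_star, ← map_mul, c.u1, map_one]
  u2 := by
    rw [← map_star, ← map_mul, c.u2, map_one]
  j := by
    have h := hφ _ c.j
    rwa [map_sub, map_one] at h
  sup := by
    intro f
    have h := congrArg φ (c.sup f)
    rw [map_mul, map_neg, map_sub, AlgHomClass.commutes] at h
    exact h

theorem mapD_kappa (φ : D →⋆ₐ[ℂ] D') (hφ : ∀ a, J a → J' (φ a)) (f : C(Y, ℂ)) :
    (c.mapD φ hφ).κ f = φ (c.κ f) := rfl

theorem mapD_hat (φ : D →⋆ₐ[ℂ] D') (hφ : ∀ a, J a → J' (φ a)) (f : C(Y, ℂ)) :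
    (c.mapD φ hφ).hat f = φ (c.hat f) := by
  rw [hat, hat, mapD_kappa, map_sub, AlgHomClass.commutes]

/-- Replace `κ` and `ζ`. -/
noncomputable def mk' (hat : C(Y, ℂ) → D) (ζ : D) (u1 : star ζ * ζ = 1) (u2 : ζ * star ζ = 1)
    (j : J (ζ - 1)) (sup : ∀ f, ζ * hat f = -hat f)
    (h1 : ∀ f g, hat (f + g) = hat f + hat g)
    (h2 : ∀ f g, hat (f * g) = f y0 • hat g + g y0 • hat f + hat f * hat g)
    (h3 : ∀ (a : ℂ), hat (algebraMap ℂ C(Y, ℂ) a) = 0)
    (h4 : ∀ f, hat (star f) = star (hat f)) : Cyc J Y y0 where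
  κ :=
    { toFun := fun f => algebraMap ℂ D (f y0) + hat f
      map_one' := by
        have h := h3 1
        rw [map_one] at h
        rw [h, ContinuousMap.one_apply, map_one, add_zero]
      map_mul' := by
        intro f g
        have h5 := Algebra.commutes (R := ℂ) (g y0) (hat f)
        change algebraMap ℂ D ((f * g) y0) + hat (f * g) =
          (algebraMap ℂ D (f y0) + hat f) * (algebraMap ℂ D (g y0) + hat g)
        rw [h2, ContinuousMap.mul_apply, map_mul, Algebra.smul_def, Algebra.smul_def, add_mul,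
          mul_add, mul_add, h5]
        abel
      map_zero' := by
        have h := h3 0
        rw [map_zero] at h
        change algebraMap ℂ D ((0 : C(Y, ℂ)) y0) + hat 0 = 0
        rw [h, ContinuousMap.zero_apply, map_zero, add_zero]
      map_add' := by
        intro f g
        change algebraMap ℂ D ((f + g) y0) + hat (f + g) =
          (algebraMap ℂ D (f y0) + hat f) + (algebraMap ℂ D (g y0) + hat g)
        rw [h1, ContinuousMap.add_apply, map_add]
        abel
      commutes' := by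
        intro r
        change algebraMap ℂ D ((algebraMap ℂ C(Y, ℂ) r) y0) + hat (algebraMap ℂ C(Y, ℂ) r) =
          algebraMap ℂ D r
        have h5 : (algebraMap ℂ C(Y, ℂ) r) y0 = r := rfl
        rw [h3, h5, add_zero]
      map_star' := by
        intro f
        change algebraMap ℂ D ((star f) y0) + hat (star f) = star (algebraMap ℂ D (f y0) + hat f)
        rw [h4, ContinuousMap.star_apply, star_add, algebraMap_star_comm] }
  ζ := ζ
  u1 := u1
  u2 := u2
  j := j
  sup := by
    intro f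
    change ζ * (algebraMap ℂ D (f y0) + hat f - algebraMap ℂ D (f y0)) =
      -(algebraMap ℂ D (f y0) + hat f - algebraMap ℂ D (f y0))
    rw [add_sub_cancel_left]
    exact sup f

end Cyc

end H7c
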