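import Pool.Agent.H.MP_7b4a29_c.Cmp
import Pool.Agent.H.MP_7b4a29_c.JQW

/-!
# Change of the index set and of the coefficients
-/

open Filter Topology

namespace H7c

variable {I : Ix} {P : Type} [CStarAlgebra P] {τ : P →ₗ[ℂ] ℂ}
  {Y : Type} [TopologicalSpace Y] [CompactSpace Y] [T2Space Y] {y0 : Y}
  {Y' : Type} [TopologicalSpace Y'] [CompactSpace Y'] [T2Space Y'] {y0' : Y'}

/-- `e` is a compression of the matrix cycle `d`. -/
def IsCmp {S : Sz I} (d : CM τ Y y0 S) (e : C1 I τ Y y0) : Prop :=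
  ∃ X : Row S P, X.Ad d.ζ ∧ ∀ f, e.hat f = Row.sand X X (d.hat f)

omit [T2Space Y] in
theorem eqvM_iff {S S' : Sz I} (d : CM τ Y y0 S) (d' : CM τ Y y0 S') :
    EqvM d d' ↔ ∀ e e', IsCmp d e → IsCmp d' e' → Eqv e e' := by
  constructor
  · rintro h e e' ⟨X, hX, he⟩ ⟨X', hX', he'⟩
    exact h X X' e e' hX hX' he he'
  · intro h X X' e e' hX hX' he he'
    exact h e e' ⟨X, hX, he⟩ ⟨X', hX', he'⟩

omit [T2Space Y] in
theorem exists_isCmp (hτ : PTr τ) (hR : Rowy I τ) {S : Sz I} (d : CM τ Y y0 S) :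
    ∃ e, IsCmp d e := by
  obtain ⟨X, hX⟩ := hR S 1 (fun _ => d.ζ - 1) (fun _ => d.j)
  obtain ⟨e, he, -⟩ := exists_cmp hτ X d (hX 0)
  exact ⟨e, X, hX 0, he⟩

omit [T2Space Y] in
/-- `c` itself is a compression of `lft c` (`Row.ofElt 1`). -/
theorem isCmp_lft (c : C1 I τ Y y0) : IsCmp (lft c) c := by
  refine ⟨Row.ofElt 1, ?_, fun f => ?_⟩
  · unfold Row.Ad
    rw [Row.gram_ofElt, star_one, mul_one, map_one, one_mul]
  · have h : (lft c).hat f = unoR P (c.hat f) := c.mapD_hat _ _ f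
    rw [h, Row.sand_ofElt, star_one, mul_one, one_mul]

omit [T2Space Y] in
theorem eqv_iff_lft (c c' : C1 I τ Y y0) (hτ : PTr τ) : EqvM (lft c) (lft c') ↔ Eqv c c' := by
  rw [eqvM_iff]
  constructor
  · intro h
    exact h c c' (isCmp_lft c) (isCmp_lft c')
  · rintro h e e' ⟨X, hX, he⟩ ⟨X', hX', he'⟩
    obtain ⟨Z, hZ, hc⟩ := isCmp_lft c
    obtain ⟨Z', hZ', hc'⟩ := isCmp_lft c'
    exact (eqv_cmp (lft c) X Z hX hZ he hc).trans
      (h.trans (eqv_cmp (lft c') Z' X' hZ' hX' hc' he'))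

omit [T2Space Y] in
/-- A compression of `d` is equivalent to `d`. -/
theorem IsCmp.eqvM {S : Sz I} {d : CM τ Y y0 S} {e : C1 I τ Y y0} (h : IsCmp d e)
    (hτ : PTr τ) (hR : Rowy I τ) : EqvM (lft e) d := by
  rw [eqvM_iff]
  rintro e1 e2 ⟨X, hX, he1⟩ ⟨X', hX', he2⟩
  obtain ⟨Z, hZ, he⟩ := isCmp_lft e
  obtain ⟨W, hW, hd⟩ := h
  exact (eqv_cmp (lft e) X Z hX hZ he1 he).trans (eqv_cmp d W X' hW hX' hd he2)

/-! ### Auxiliary: images of cycles -/

/-- The image of a path. -/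
noncomputable def cycf_pth {D D' : Type} [CStarAlgebra D] [CStarAlgebra D'] {J : D → Prop}
    {J' : D' → Prop} (p : Pth J Y y0) (ψ : D →⋆ₐ[ℂ] D') (hψ : ∀ a, J a → J' (ψ a)) :
    Pth J' Y y0 where
  k s := ψ.comp (p.k s)
  ζ := ψ p.ζ
  u1 := ((p.at 0).mapD (J' := J') ψ hψ).u1
  u2 := ((p.at 0).mapD (J' := J') ψ hψ).u2
  j := ((p.at 0).mapD (J' := J') ψ hψ).j
  sup s f := ((p.at s).mapD (J' := J') ψ hψ).sup f
  cont f := (cmp_cont ψ).comp (p.cont f)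

omit [T2Space Y] in
/-- Maps which are compatible with rows preserve the equivalence of cycles. -/
theorem cycf_eqv {I' : Ix} {P' : Type} [CStarAlgebra P'] {τ' : P' →ₗ[ℂ] ℂ}
    (ψ : R1 I P →⋆ₐ[ℂ] R1 I' P') (hψ : ∀ a, J1 I τ a → J1 I' τ' (ψ a))
    (σ : Sz I → Sz I') (Ψ : ∀ S, RM S P →⋆ₐ[ℂ] RM (σ S) P')
    (hΨ : ∀ S a, JM S τ a → JM (σ S) τ' (Ψ S a))
    (ρ : ∀ S, Row S P → Row (σ S) P')
    (h1 : ∀ S (X X' : Row S P) a, ψ (Row.sand X X' a) = Row.sand (ρ S X) (ρ S X') (Ψ S a))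
    (h2 : ∀ S (X X' : Row S P), Ψ S (Row.gram X X') = Row.gram (ρ S X) (ρ S X'))
    {c c' : C1 I τ Y y0} (h : Eqv c c') :
    Eqv (c.mapD (J' := J1 I' τ') ψ hψ) (c'.mapD (J' := J1 I' τ') ψ hψ) := by
  refine Eqv.map (fun (c : C1 I τ Y y0) (e : C1 I' τ' Y y0) => e = c.mapD ψ hψ) ?_ ?_ ?_ ?_ h
    rfl rfl
  · intro c
    exact ⟨_, rfl⟩
  · rintro c e e' rfl rfl
    exact Eqv.refl _
  · rintro c c' e e' ⟨S, d, W, W', hW, hW', h3, h4⟩ rfl rfl
    have hA : ∀ X : Row S P, X.Ad d.ζ → (ρ S X).Ad (Ψ S d.ζ) := by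
      intro X hX
      have h5 := congrArg (Ψ S) hX
      rw [map_mul, map_sub, map_one, h2] at h5
      exact h5
    refine Eqv.rel1 ⟨σ S, d.mapD (J' := JM (σ S) τ') (Ψ S) (hΨ S), ρ S W, ρ S W', hA W hW,
      hA W' hW', fun f => ?_, fun f => ?_⟩
    · rw [Cyc.mapD_hat, Cyc.mapD_hat, h3, h1]
    · rw [Cyc.mapD_hat, Cyc.mapD_hat, h4, h1]
  · rintro c c' e e' ⟨p, h3, h4⟩ rfl rfl
    refine Eqv.rel2 ⟨cycf_pth p ψ hψ, fun f => ?_, fun f => ?_⟩
    · exact congrArg ψ (h3 f)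
    · exact congrArg ψ (h4 f)

/-! ### Change of the index set -/

variable {I' : Ix} (φ : IxHom I I')

/-- Reindexing of rows. -/
def Row.re {S : Sz I} (X : Row S P) : Row (S.re φ) P where
  v l := X.v (φ.f l)
  bd := by
    obtain ⟨C, h0, h⟩ := X.bd
    exact ⟨C, h0, fun l => h _⟩

/-- Reindexing of matrix families. -/
noncomputable def reM (S : Sz I) (P : Type) [CStarAlgebra P] : RM S P →⋆ₐ[ℂ] RM (S.re φ) P :=
  SQ.re φ

theorem re_sand {S : Sz I} (X X' : Row S P) (a : RM S P) :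
    SQ.re φ (Row.sand X X' a) = Row.sand (X.re φ) (X'.re φ) (reM φ S P a) := by
  have ha := SQ.rep_bd I a
  have h1 : Row.sand X X' a = cl I (fun l => sandL (X.v l) (X'.v l) (SQ.rep I a l)) := by
    rw [← Row.sand_cl X X' ha, SQ.cl_rep]
  have h2 : Row.sand (X.re φ) (X'.re φ) (cl I' (fun l => SQ.rep I a (φ.f l)) : RM (S.re φ) P) =
      cl I' (fun l => sandL (X.v (φ.f l)) (X'.v (φ.f l)) (SQ.rep I a (φ.f l))) :=
    Row.sand_cl (X.re φ) (X'.re φ) (Bd.re φ ha)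
  rw [h1, SQ.re_cl φ (Row.row_sandL_bd X X' ha)]
  exact h2.symm

theorem re_gram {S : Sz I} (X X' : Row S P) :
    reM φ S P (Row.gram X X') = Row.gram (X.re φ) (X'.re φ) :=
  SQ.re_cl φ (Row.gram_bd X X')

theorem cycf_reM_J (hτ : PTr τ) (S : Sz I) (a : RM S P) (ha : JM S τ a) :
    JM (S.re φ) τ (reM φ S P a) :=
  IsJ.re I (fun _ => hτ.mat) φ ha

/-- Reindexing of cycles. -/
noncomputable def Cyc.re (hτ : PTr τ) (c : C1 I τ Y y0) : C1 I' τ Y y0 :=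
  c.mapD (SQ.re φ) (fun _ ha => IsJ.re I (fun _ => hτ) φ ha)

omit [T2Space Y] in
theorem Cyc.re_hat (hτ : PTr τ) (c : C1 I τ Y y0) (f : C(Y, ℂ)) :
    (Cyc.re φ hτ c).hat f = SQ.re φ (c.hat f) :=
  c.mapD_hat _ _ f

omit [T2Space Y] in
/-- `Eqv.map`; `Rel1`, `Rel2` are preserved. -/
theorem Eqv.re (hτ : PTr τ) {c c' : C1 I τ Y y0} (h : Eqv c c') :
    Eqv (Cyc.re φ hτ c) (Cyc.re φ hτ c') :=
  cycf_eqv (SQ.re φ) (fun _ ha => IsJ.re I (fun _ => hτ) φ ha) (fun S => S.re φ)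
    (fun S => reM φ S P) (fun S => cycf_reM_J φ hτ S) (fun _ X => X.re φ)
    (fun _ X X' a => re_sand φ X X' a) (fun _ X X' => re_gram φ X X') h

/-! ### Change of the coefficients -/

variable {P' : Type} [CStarAlgebra P'] {τ' : P' →ₗ[ℂ] ℂ} (Φ : P →⋆ₐ[ℂ] P')

variable (I) in
/-- The induced homomorphism of the families. -/
noncomputable def mapR1 : R1 I P →⋆ₐ[ℂ] R1 I P' := SQ.map I (fun _ => Φ)

/-- The induced homomorphism of the matrix families. -/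
noncomputable def mapRM (S : Sz I) : RM S P →⋆ₐ[ℂ] RM S P' := SQ.map I (fun _ => MM.mapH Φ)

/-- The image of a row. The bound: `∑ Φ (v i) * star (Φ (v i)) = Φ (∑ ..)`. -/
noncomputable def Row.mapP {S : Sz I} (X : Row S P) : Row S P' where
  v l i := Φ (X.v l i)
  bd := by
    obtain ⟨C, h0, h⟩ := X.bd
    refine ⟨C, h0, fun l => ?_⟩
    have e : ∑ i, Φ (X.v l i) * star (Φ (X.v l i)) = Φ (∑ i, X.v l i * star (X.v l i)) := by
      rw [map_sum]
      refine Finset.sum_congr rfl fun i _ => ?_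
      rw [map_mul, map_star]
    rw [e]
    exact (NonUnitalStarAlgHom.norm_apply_le Φ _).trans (h l)

theorem cycf_sandL {ι : Type} [Fintype ι] [DecidableEq ι] (x y : ι → P) (a : MM ι P) :
    Φ (sandL x y a) = sandL (fun i => Φ (x i)) (fun i => Φ (y i)) (MM.mapH Φ a) := by
  rw [row_sandL_apply, row_sandL_apply, map_sum]
  refine Finset.sum_congr rfl fun i _ => ?_
  rw [map_sum]
  refine Finset.sum_congr rfl fun j _ => ?_
  rw [map_mul, map_mul, map_star, MM.e_mapH]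

theorem cycf_mapRM_cl {S : Sz I} {x : ∀ l, MM (S.ty l) P} (hx : Bd x) :
    mapRM Φ S (cl I x) = cl I (fun l => MM.mapH Φ (x l)) := SQ.map_cl I _ hx

theorem cycf_mapR1_cl {x : ∀ _ : I.L, P} (hx : Bd (A := fun _ => P) x) :
    mapR1 I Φ (cl I x) = cl I (fun l => Φ (x l)) := SQ.map_cl I _ hx

theorem map_sand {S : Sz I} (X X' : Row S P) (a : RM S P) :
    mapR1 I Φ (Row.sand X X' a) = Row.sand (X.mapP Φ) (X'.mapP Φ) (mapRM Φ S a) := by
  have ha := SQ.rep_bd I a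
  have h1 : Row.sand X X' a = cl I (fun l => sandL (X.v l) (X'.v l) (SQ.rep I a l)) := by
    rw [← Row.sand_cl X X' ha, SQ.cl_rep]
  have h2 : mapRM Φ S a = cl I (fun l => MM.mapH Φ (SQ.rep I a l)) := by
    rw [← cycf_mapRM_cl Φ ha, SQ.cl_rep]
  have h3 : Bd (fun l => MM.mapH Φ (SQ.rep I a l)) := Bd.map I _ ha
  rw [h1, h2, Row.sand_cl (X.mapP Φ) (X'.mapP Φ) h3,
    cycf_mapR1_cl Φ (Row.row_sandL_bd X X' ha)]
  congr 1
  funext l
  exact cycf_sandL Φ _ _ _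

theorem map_gram {S : Sz I} (X X' : Row S P) :
    mapRM Φ S (Row.gram X X') = Row.gram (X.mapP Φ) (X'.mapP Φ) := by
  refine (SQ.map_cl I _ (Row.gram_bd X X')).trans ?_
  refine congrArg (cl I) ?_
  funext l
  refine MM.ext fun i j => ?_
  rw [MM.e_mapH, MM.e_of, MM.e_of, map_mul, map_star]
  rfl

theorem mapRM_ampR (S N : Sz I) (a : RM S P) :
    mapRM Φ (S.prod N) (ampR S N a) = ampR S N (mapRM Φ S a) := by
  have ha := SQ.rep_bd I a
  have b1 : Bd (fun l => MM.amp (N.ty l) (SQ.rep I a l)) := Bd.map I _ ha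
  have b2 : Bd (fun l => MM.mapH Φ (SQ.rep I a l)) := Bd.map I _ ha
  have h1 : mapRM Φ (S.prod N) (cl I (fun l => MM.amp (N.ty l) (SQ.rep I a l))) =
      cl I (fun l => MM.mapH Φ (MM.amp (N.ty l) (SQ.rep I a l))) := SQ.map_cl I _ b1
  have h2 : ampR S N (cl I (fun l => MM.mapH Φ (SQ.rep I a l))) =
      cl I (fun l => MM.amp (N.ty l) (MM.mapH Φ (SQ.rep I a l))) := ampR_cl b2
  have h3 : (fun l => MM.mapH Φ (MM.amp (N.ty l) (SQ.rep I a l))) =
      fun l => MM.amp (N.ty l) (MM.mapH Φ (SQ.rep I a l)) := by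
    funext l
    refine MM.ext fun p q => ?_
    rw [MM.e_mapH, MM.e_amp, MM.e_amp, MM.e_mapH]
    split_ifs
    · rfl
    · exact map_zero Φ
  rw [← SQ.cl_rep I a, ampR_cl ha, cycf_mapRM_cl Φ ha]
  exact h1.trans ((congrArg (cl I) h3).trans h2.symm)

theorem mapRM_sclR (S N : Sz I) (x : RM N ℂ) :
    mapRM Φ (S.prod N) (sclR S P N x) = sclR S P' N x := by
  have hx := SQ.rep_bd I x
  have b1 : Bd (fun l => MM.scl (S.ty l) P (SQ.rep I x l)) := Bd.map I _ hx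
  have h1 : mapRM Φ (S.prod N) (cl I (fun l => MM.scl (S.ty l) P (SQ.rep I x l))) =
      cl I (fun l => MM.mapH Φ (MM.scl (S.ty l) P (SQ.rep I x l))) := SQ.map_cl I _ b1
  have h2 : sclR S P' N (cl I (SQ.rep I x)) =
      cl I (fun l => MM.scl (S.ty l) P' (SQ.rep I x l)) := sclR_cl hx
  have h3 : (fun l => MM.mapH Φ (MM.scl (S.ty l) P (SQ.rep I x l))) =
      fun l => MM.scl (S.ty l) P' (SQ.rep I x l) := by
    funext l
    refine MM.ext fun p q => ?_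
    rw [MM.e_mapH, MM.e_scl, MM.e_scl]
    split_ifs
    · exact AlgHomClass.commutes Φ _
    · exact map_zero Φ
  rw [← SQ.cl_rep I x, sclR_cl hx]
  exact h1.trans ((congrArg (cl I) h3).trans h2.symm)

theorem cycf_mapRM_unoR (a : R1 I P) :
    mapRM Φ (Sz.one I) (unoR P a) = unoR P' (mapR1 I Φ a) := by
  have ha := SQ.rep_bd I a
  have b1 : Bd (A := fun _ => MM Unit P) (fun l : I.L => MM.uno P (SQ.rep I a l)) :=
    Bd.map I (fun _ => MM.uno P) ha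
  have b2 : Bd (A := fun _ => P') (fun l : I.L => Φ (SQ.rep I a l)) := Bd.map I (fun _ => Φ) ha
  have h0 : unoR P (cl I (SQ.rep I a)) = cl I (fun l => MM.uno P (SQ.rep I a l)) :=
    SQ.map_cl I _ ha
  have h1 : mapRM Φ (Sz.one I) (cl I (fun l => MM.uno P (SQ.rep I a l))) =
      cl I (fun l => MM.mapH Φ (MM.uno P (SQ.rep I a l))) := SQ.map_cl I _ b1
  have h2 : unoR P' (cl I (fun l => Φ (SQ.rep I a l))) =
      cl I (fun l => MM.uno P' (Φ (SQ.rep I a l))) := SQ.map_cl I _ b2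
  have h3 : (fun l => MM.mapH Φ (MM.uno P (SQ.rep I a l))) =
      fun l => MM.uno P' (Φ (SQ.rep I a l)) := by
    funext l
    refine MM.ext fun p q => ?_
    rw [MM.e_mapH, rowc_e_uno, rowc_e_uno]
  have h4 : mapR1 I Φ (cl I (SQ.rep I a)) = cl I (fun l => Φ (SQ.rep I a l)) :=
    cycf_mapR1_cl Φ ha
  rw [SQ.cl_rep] at h0 h4
  rw [h0, h4]
  exact h1.trans ((congrArg (cl I) h3).trans h2.symm)

theorem mapR1_J (hΦ : ∀ x, τ' (Φ x) = τ x) {a : R1 I P} (ha : J1 I τ a) :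
    J1 I τ' (mapR1 I Φ a) :=
  IsJ.map I (fun _ => Φ) (fun _ x => hΦ x) ha

theorem mapRM_J (hΦ : ∀ x, τ' (Φ x) = τ x) {S : Sz I} {a : RM S P} (ha : JM S τ a) :
    JM S τ' (mapRM Φ S a) := by
  refine IsJ.map I (fun _ => MM.mapH Φ) (fun l x => ?_) ha
  rw [MM.tr_apply, MM.tr_apply]
  refine Finset.sum_congr rfl fun i _ => ?_
  rw [MM.e_mapH, hΦ]

/-- The image of a cycle. -/
noncomputable def Cyc.mapP (hΦ : ∀ x, τ' (Φ x) = τ x) (c : C1 I τ Y y0) : C1 I τ' Y y0 :=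
  c.mapD (mapR1 I Φ) (fun _ ha => mapR1_J Φ hΦ ha)

omit [T2Space Y] in
theorem Cyc.mapP_hat (hΦ : ∀ x, τ' (Φ x) = τ x) (c : C1 I τ Y y0) (f : C(Y, ℂ)) :
    (c.mapP Φ hΦ).hat f = mapR1 I Φ (c.hat f) :=
  c.mapD_hat _ _ f

omit [T2Space Y] in
theorem Eqv.mapP (hΦ : ∀ x, τ' (Φ x) = τ x) {c c' : C1 I τ Y y0} (h : Eqv c c') :
    Eqv (c.mapP Φ hΦ) (c'.mapP Φ hΦ) :=
  cycf_eqv (mapR1 I Φ) (fun _ ha => mapR1_J Φ hΦ ha) (fun S => S)
    (fun S => mapRM Φ S) (fun _ _ ha => mapRM_J Φ hΦ ha) (fun _ X => X.mapP Φ)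
    (fun _ X X' a => map_sand Φ X X' a) (fun _ X X' => map_gram Φ X X') h

theorem cycf_com_mapP (hτ : PTr τ) (hτ' : PTr τ') (hΦ : ∀ x, τ' (Φ x) = τ x) {N : Sz I}
    (hN : N.PB) (c : C1 I τ Y y0) (J : BH N Y y0 Y' y0') (f : C(Y', ℂ)) :
    mapRM Φ ((Sz.one I).prod N) ((com hτ hN (lft c) J).hat f) =
      (com hτ' hN (lft (c.mapP Φ hΦ)) J).hat f := by
  have h1 : (mapRM Φ ((Sz.one I).prod N)).comp (ext N (lft c).κ) =
      ext N (lft (c.mapP Φ hΦ)).κ := by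
    refine tens_ext (fun x => ?_) fun g => ?_
    · rw [StarAlgHom.comp_apply, ext_cns, ext_cns, mapRM_sclR]
    · rw [StarAlgHom.comp_apply, ext_sc, ext_sc, mapRM_ampR, lft_kappa, lft_kappa,
        cycf_mapRM_unoR]
      rfl
  rw [cmp_com_hat, cmp_com_hat, map_sub, mapRM_sclR, ← h1]
  rfl

/-- The image of a compression of `c ∘ J` is a compression of `(Φ c) ∘ J`. By `tens_comp`:
`mapRM ∘ ext N k = ext N (mapRM ∘ k)`. -/
theorem isCmp_mapP (hτ : PTr τ) (hτ' : PTr τ') (hΦ : ∀ x, τ' (Φ x) = τ x) {N : Sz I} (hN : N.PB)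
    (c : C1 I τ Y y0) (J : BH N Y y0 Y' y0') (e : C1 I τ Y' y0')
    (h : IsCmp (com hτ hN (lft c) J) e) :
    IsCmp (com hτ' hN (lft (c.mapP Φ hΦ)) J) (e.mapP Φ hΦ) := by
  obtain ⟨X, hX, he⟩ := h
  refine ⟨X.mapP Φ, ?_, fun f => ?_⟩
  · have h5 := congrArg (mapRM Φ ((Sz.one I).prod N)) hX
    rw [map_mul, map_sub, map_one, map_gram, com_zeta, mapRM_ampR, lft_zeta,
      cycf_mapRM_unoR] at h5
    exact h5
  · rw [Cyc.mapP_hat, he, map_sand, cycf_com_mapP Φ hτ hτ' hΦ hN c J f]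

omit [T2Space Y] [T2Space Y'] in
theorem push_mapP (hΦ : ∀ x, τ' (Φ x) = τ x) (c : C1 I τ Y y0) (g : C(Y, Y')) (hg : g y0 = y0')
    (f : C(Y', ℂ)) : ((c.push g hg).mapP Φ hΦ).hat f = ((c.mapP Φ hΦ).push g hg).hat f := by
  rw [Cyc.mapP_hat, Cyc.push_hat, Cyc.push_hat, Cyc.mapP_hat]

/-! ### Reindexing and the homomorphism `JW` -/

variable {X : Type} [TopologicalSpace X] [CompactSpace X] [T2Space X] {B : Set X}
  {q : C(UnitAddCircle × X, Y)}
  {Yp : Type} [TopologicalSpace Yp] [CompactSpace Yp] [T2Space Yp] {yp : Yp}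
  {qp : C((UnitAddCircle × X) × T2, Yp)}

theorem cycf_re_cm (x : MM (Fin 2) ℂ) :
    (SQ.re φ (cm (Fin 2) I x) : RM (two I') ℂ) = cm (Fin 2) I' x :=
  SQ.re_cl φ (Bd.const (MM (Fin 2) ℂ) x)

theorem cycf_re_PP (y : T2) : (SQ.re φ (PP I y) : RM (two I') ℂ) = PP I' y := by
  obtain ⟨a, b⟩ := y
  obtain ⟨a, rfl⟩ := ic_surj a
  have h1 := congrArg (SQ.re φ) (PP_apply I a b)
  exact h1.trans ((cycf_re_cm φ _).trans (PP_apply I' a b).symm)

omit [T2Space X] in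
theorem cycf_re_WW [T2Space X] (z : (UnitAddCircle × X) × T2) :
    (SQ.re φ ((WW I X : C((UnitAddCircle × X) × T2, RM (two I) ℂ)) z) : RM (two I') ℂ) =
      (WW I' X : C((UnitAddCircle × X) × T2, RM (two I') ℂ)) z := by
  have h1 := congrArg (SQ.re φ) (WW_apply I z)
  have h2 := map_wz (SQ.re φ) (PP I z.2) (p2 I)
    (algebraMap ℂ (RM (two I) ℂ) (fourier 1 z.1.1 : ℂ))
  have h3 : (SQ.re φ (algebraMap ℂ (RM (two I) ℂ) (fourier 1 z.1.1 : ℂ)) : RM (two I') ℂ) =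
      algebraMap ℂ (RM (two I') ℂ) (fourier 1 z.1.1 : ℂ) := AlgHomClass.commutes _ _
  have h4 : (SQ.re φ (p2 I) : RM (two I') ℂ) = p2 I' := cycf_re_cm φ _
  have h5 := cycf_re_PP φ z.2
  have h6 : (wz (SQ.re φ (PP I z.2)) (SQ.re φ (p2 I))
      (SQ.re φ (algebraMap ℂ (RM (two I) ℂ) (fourier 1 z.1.1 : ℂ))) : RM (two I') ℂ) =
      wz (PP I' z.2) (p2 I') (algebraMap ℂ (RM (two I') ℂ) (fourier 1 z.1.1 : ℂ)) := by
    exact congr (congr (congrArg wz h5) h4) h3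
  exact h1.trans (h2.trans (h6.trans (WW_apply I' z).symm))

/-- The homomorphism `JW` for two index sets: both sides are determined by the (constant) families
`W(t, y)`; upstairs use `JW_h` and `map_uh` for `SQ.re φ`. -/
theorem re_JW_h (hq : IsQ (bB B) y0 q) (hqp : IsQ (Bp (bB B)) yp qp) (f : C(Y, ℂ)) (y : Yp) :
    (JW I' hq hqp).h f y = (SQ.re φ ((JW I hq hqp).h f y) : RM (two I') ℂ) := by
  obtain ⟨z, rfl⟩ := hqp.surj y
  have h1 := congrArg (SQ.re φ) (JW_h I hq hqp f z)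
  have h2 := map_uh (SQ.re φ) (uev (WW I X) z) (slc (f.comp q) z.1.2)
  have h3 : (mapU (SQ.re φ) (uev (WW I X) z) : unitary (RM (two I') ℂ)) =
      uev (WW I' X) z := Subtype.ext (cycf_re_WW φ z)
  have h4 : (uh (mapU (SQ.re φ) (uev (WW I X) z)) (slc (f.comp q) z.1.2) : RM (two I') ℂ) =
      uh (uev (WW I' X) z) (slc (f.comp q) z.1.2) :=
    congrArg (fun u : unitary (RM (two I') ℂ) => uh u (slc (f.comp q) z.1.2)) h3
  exact (h1.trans (h2.trans (h4.trans (JW_h I' hq hqp f z).symm))).symm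

theorem cycf_re_unoR (a : R1 I P) :
    (reM φ (Sz.one I) P (unoR P a) : RM (Sz.one I') P) = unoR P (SQ.re φ a) := by
  have ha := SQ.rep_bd I a
  have b1 : Bd (A := fun _ => MM Unit P) (fun l : I.L => MM.uno P (SQ.rep I a l)) :=
    Bd.map I (fun _ => MM.uno P) ha
  have h0 : unoR P (cl I (SQ.rep I a)) = cl I (fun l => MM.uno P (SQ.rep I a l)) :=
    SQ.map_cl I _ ha
  have h1 : (SQ.re φ (cl I (fun l => MM.uno P (SQ.rep I a l))) : RM (Sz.one I') P) =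
      cl I' (fun l => MM.uno P (SQ.rep I a (φ.f l))) := SQ.re_cl φ b1
  have h2 : unoR P (cl I' (fun l => SQ.rep I a (φ.f l))) =
      cl I' (fun l => MM.uno P (SQ.rep I a (φ.f l))) := SQ.map_cl I' _ (Bd.re φ ha)
  rw [SQ.cl_rep] at h0
  rw [h0]
  exact h1.trans h2.symm

theorem cycf_re_ampR (S N : Sz I) (a : RM S P) :
    (reM φ (S.prod N) P (ampR S N a) : RM ((S.re φ).prod (N.re φ)) P) =
      ampR (S.re φ) (N.re φ) (reM φ S P a) := by
  have ha := SQ.rep_bd I a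
  have b1 : Bd (fun l => MM.amp (N.ty l) (SQ.rep I a l)) := Bd.map I _ ha
  have h0 : ampR S N (cl I (SQ.rep I a)) = cl I (fun l => MM.amp (N.ty l) (SQ.rep I a l)) :=
    ampR_cl ha
  have h1 : (SQ.re φ (cl I (fun l => MM.amp (N.ty l) (SQ.rep I a l))) :
      RM ((S.re φ).prod (N.re φ)) P) =
      cl I' (fun l => MM.amp (N.ty (φ.f l)) (SQ.rep I a (φ.f l))) := SQ.re_cl φ b1
  have h2 : ampR (S.re φ) (N.re φ) (cl I' (fun l => SQ.rep I a (φ.f l)) : RM (S.re φ) P) =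
      cl I' (fun l => MM.amp (N.ty (φ.f l)) (SQ.rep I a (φ.f l))) :=
    ampR_cl (S := S.re φ) (N := N.re φ) (Bd.re φ ha)
  rw [SQ.cl_rep] at h0
  rw [h0]
  exact h1.trans h2.symm

theorem cycf_re_sclR (S N : Sz I) (x : RM N ℂ) :
    (reM φ (S.prod N) P (sclR S P N x) : RM ((S.re φ).prod (N.re φ)) P) =
      sclR (S.re φ) P (N.re φ) (reM φ N ℂ x) := by
  have hx := SQ.rep_bd I x
  have b1 : Bd (fun l => MM.scl (S.ty l) P (SQ.rep I x l)) := Bd.map I _ hx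
  have h0 : sclR S P N (cl I (SQ.rep I x)) = cl I (fun l => MM.scl (S.ty l) P (SQ.rep I x l)) :=
    sclR_cl hx
  have h1 : (SQ.re φ (cl I (fun l => MM.scl (S.ty l) P (SQ.rep I x l))) :
      RM ((S.re φ).prod (N.re φ)) P) =
      cl I' (fun l => MM.scl (S.ty (φ.f l)) P (SQ.rep I x (φ.f l))) := SQ.re_cl φ b1
  have h2 : sclR (S.re φ) P (N.re φ) (cl I' (fun l => SQ.rep I x (φ.f l)) : RM (N.re φ) ℂ) =
      cl I' (fun l => MM.scl (S.ty (φ.f l)) P (SQ.rep I x (φ.f l))) :=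
    sclR_cl (S := S.re φ) (N := N.re φ) (Bd.re φ hx)
  rw [SQ.cl_rep] at h0
  rw [h0]
  exact h1.trans h2.symm

/-- Reindexing of a compression of `c ∘ JW`. -/
theorem isCmp_re_JW (hτ : PTr τ) (hq : IsQ (bB B) y0 q) (hqp : IsQ (Bp (bB B)) yp qp)
    (c : C1 I τ Yp yp) (e : C1 I τ Y y0)
    (h : IsCmp (com hτ (two_PB I) (lft c) (JW I hq hqp)) e) :
    IsCmp (com hτ (two_PB I') (lft (Cyc.re φ hτ c)) (JW I' hq hqp)) (Cyc.re φ hτ e) := by
  obtain ⟨Z, hZ, he⟩ := h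
  have key : ∀ F : C(Yp, RM (two I) ℂ),
      (reM φ ((Sz.one I).prod (two I)) P (ext (two I) (lft c).κ F) :
        RM ((Sz.one I').prod (two I')) P) =
      ext (two I') (lft (Cyc.re φ hτ c)).κ
        ((cmap (X := Yp) (reM φ (two I) ℂ) F : C(Yp, RM (two I') ℂ))) := by
    have h1 : ((reM φ ((Sz.one I).prod (two I)) P).comp (ext (two I) (lft c).κ) :
        C(Yp, RM (two I) ℂ) →⋆ₐ[ℂ] RM ((Sz.one I').prod (two I')) P) =
        (ext (two I') (lft (Cyc.re φ hτ c)).κ).comp (cmap (X := Yp) (reM φ (two I) ℂ)) := by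
      refine tens_ext (fun x => ?_) fun g => ?_
      · have h2 : (cmap (X := Yp) (reM φ (two I) ℂ) (cns Yp (RM (two I) ℂ) x) :
            C(Yp, RM (two I') ℂ)) = cns Yp (RM (two I') ℂ) (reM φ (two I) ℂ x) := by
          ext y
          rfl
        have h3 := congrArg (ext (two I') (lft (Cyc.re φ hτ c)).κ) h2
        have h4 := congrArg (reM φ ((Sz.one I).prod (two I)) P)
          (ext_cns (N := two I) (lft c).κ x)
        refine h4.trans ((cycf_re_sclR φ (Sz.one I) (two I) x).trans ?_)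
        exact (h3.trans (ext_cns (N := two I') (lft (Cyc.re φ hτ c)).κ _)).symm
      · have h2 : (cmap (X := Yp) (reM φ (two I) ℂ) (sc Yp (RM (two I) ℂ) g) :
            C(Yp, RM (two I') ℂ)) = sc Yp (RM (two I') ℂ) g := by
          ext y
          exact AlgHomClass.commutes (reM φ (two I) ℂ) (g y)
        have h3 := congrArg (ext (two I') (lft (Cyc.re φ hτ c)).κ) h2
        have h4 := congrArg (reM φ ((Sz.one I).prod (two I)) P)
          (ext_sc (N := two I) (lft c).κ g)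
        refine h4.trans ((cycf_re_ampR φ (Sz.one I) (two I) _).trans ?_)
        refine (congrArg (ampR (Sz.one I') (two I')) (cycf_re_unoR φ (c.κ g))).trans ?_
        exact (h3.trans (ext_sc (N := two I') (lft (Cyc.re φ hτ c)).κ g)).symm
    intro F
    exact DFunLike.congr_fun h1 F
  have key2 : ∀ f : C(Y, ℂ), (cmap (X := Yp) (reM φ (two I) ℂ) ((JW I hq hqp).h f) :
      C(Yp, RM (two I') ℂ)) = (JW I' hq hqp).h f := by
    intro f
    ext y
    exact (re_JW_h φ hq hqp f y).symm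
  refine ⟨Z.re φ, ?_, fun f => ?_⟩
  · have h5 := congrArg (reM φ ((Sz.one I).prod (two I)) P) hZ
    rw [map_mul, map_sub, map_one, re_gram, com_zeta] at h5
    have h6 : (reM φ ((Sz.one I).prod (two I)) P (ampR (Sz.one I) (two I) (lft c).ζ) :
        RM ((Sz.one I').prod (two I')) P) = (com hτ (two_PB I') (lft (Cyc.re φ hτ c))
          (JW I' hq hqp)).ζ := by
      refine (cycf_re_ampR φ (Sz.one I) (two I) _).trans ?_
      exact congrArg (ampR (Sz.one I') (two I')) (cycf_re_unoR φ c.ζ)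
    rw [h6] at h5
    exact h5
  · have h7 : (reM φ ((Sz.one I).prod (two I)) P
        ((com hτ (two_PB I) (lft c) (JW I hq hqp)).hat f) : RM ((Sz.one I').prod (two I')) P) =
        (com hτ (two_PB I') (lft (Cyc.re φ hτ c)) (JW I' hq hqp)).hat f := by
      rw [cmp_com_hat, cmp_com_hat, map_sub, ← key2 f]
      refine congr (congrArg HSub.hSub (key _)) ?_
      exact cycf_re_sclR φ (Sz.one I) (two I) _
    rw [Cyc.re_hat, he, re_sand]
    exact congrArg (Row.sand (S := (Sz.one I').prod (two I')) (Z.re φ) (Z.re φ)) h7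

end H7c
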