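import Pool.Agent.H.MP_7b4a29_c.Row
import Pool.Agent.H.MP_7b4a29_c.Cyc

/-!
# Compression of cycles by rows; equivalence of cycles
-/

open Filter Topology

namespace H7c

variable {I : Ix} {P : Type} [CStarAlgebra P] {τ : P →ₗ[ℂ] ℂ}
  {Y : Type} [TopologicalSpace Y] [CompactSpace Y] {y0 : Y}

variable (I τ Y y0) in
/-- Cycles over `R1 I P`. -/
abbrev C1 : Type := Cyc (J1 I τ) Y y0

variable (τ Y y0) in
/-- Cycles over `RM S P`. -/
abbrev CM (S : Sz I) : Type := Cyc (JM S τ) Y y0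

/-- A row is adapted to `ζ` if `X* X (ζ - 1) = ζ - 1`. -/
def Row.Ad {S : Sz I} (X : Row S P) (ζ : RM S P) : Prop := Row.gram X X * (ζ - 1) = ζ - 1

section cmp

variable (hτ : PTr τ) {S : Sz I}

include hτ in
/-- `J1` is an ideal. -/
theorem J1.idl : Idl (J1 I τ) := IsJ.idl I (fun _ => hτ)

include hτ in
/-- `JM` is an ideal. -/
theorem JM.idl (S : Sz I) : Idl (JM S τ) := IsJ.idl I (fun _ => hτ.mat)

include hτ in
/-- Compression of a cycle by an adapted row: `κ' f = f y0 + X (κ f - f y0) X*`,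
`ζ' = 1 + X (ζ - 1) X*`. -/
theorem exists_cmp (X : Row S P) (c : CM τ Y y0 S) (hX : X.Ad c.ζ) :
    ∃ d : C1 I τ Y y0, (∀ f, d.hat f = Row.sand X X (c.hat f)) ∧
      d.ζ = 1 + Row.sand X X (c.ζ - 1) := by
  have hs : star (Row.gram X X) = Row.gram X X := Row.gram_star X X
  have hX' : Row.gram X X * (c.ζ - 1) = c.ζ - 1 := hX
  have g1 : ∀ a, Row.sand X X a * Row.sand X X (c.ζ - 1) = Row.sand X X (a * (c.ζ - 1)) := by
    intro a
    rw [Row.sand_mul, mul_assoc, hX']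
  have g2 : ∀ a, Row.sand X X (c.ζ - 1) * Row.sand X X a = Row.sand X X ((c.ζ - 1) * a) := by
    intro a
    rw [Row.sand_mul, c.zeta_sub_mul_of hs hX']
  have g3 : ∀ f a, Row.sand X X (c.hat f) * Row.sand X X a = Row.sand X X (c.hat f * a) := by
    intro f a
    rw [Row.sand_mul, c.hat_mul_of hs hX']
  have hst : star (1 + Row.sand X X (c.ζ - 1)) = 1 + Row.sand X X (star (c.ζ - 1)) := by
    rw [star_add, star_one, Row.sand_star]
  have u1 : star (1 + Row.sand X X (c.ζ - 1)) * (1 + Row.sand X X (c.ζ - 1)) = 1 := by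
    rw [hst]
    have h1 := congrArg (Row.sand X X) c.zeta_rel1
    rw [map_add, map_add, map_zero, ← g1] at h1
    calc (1 + Row.sand X X (star (c.ζ - 1))) * (1 + Row.sand X X (c.ζ - 1))
        = 1 + (Row.sand X X (star (c.ζ - 1)) + Row.sand X X (c.ζ - 1) +
            Row.sand X X (star (c.ζ - 1)) * Row.sand X X (c.ζ - 1)) := by
          rw [add_mul, one_mul, mul_add, mul_one]
          abel
      _ = 1 := by rw [h1, add_zero]
  have u2 : (1 + Row.sand X X (c.ζ - 1)) * star (1 + Row.sand X X (c.ζ - 1)) = 1 := by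
    rw [hst]
    have h1 := congrArg (Row.sand X X) c.zeta_rel2
    rw [map_add, map_add, map_zero, ← g2] at h1
    calc (1 + Row.sand X X (c.ζ - 1)) * (1 + Row.sand X X (star (c.ζ - 1)))
        = 1 + (Row.sand X X (star (c.ζ - 1)) + Row.sand X X (c.ζ - 1) +
            Row.sand X X (c.ζ - 1) * Row.sand X X (star (c.ζ - 1))) := by
          rw [add_mul, one_mul, mul_add, mul_one]
          abel
      _ = 1 := by rw [h1, add_zero]
  have hj : J1 I τ (1 + Row.sand X X (c.ζ - 1) - 1) := by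
    rw [add_sub_cancel_left]
    exact Row.sand_J X X hτ c.j
  have hsup : ∀ f, (1 + Row.sand X X (c.ζ - 1)) * Row.sand X X (c.hat f) =
      -Row.sand X X (c.hat f) := by
    intro f
    rw [add_mul, one_mul, g2, c.zeta_sub_hat, map_smul]
    rw [show (-2 : ℂ) = -1 + -1 by norm_num, add_smul, neg_one_smul]
    abel
  refine ⟨Cyc.mk' (fun f => Row.sand X X (c.hat f)) (1 + Row.sand X X (c.ζ - 1)) u1 u2 hj hsup
    ?_ ?_ ?_ ?_, ?_, rfl⟩
  · intro f g
    rw [c.hat_add, map_add]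
  · intro f g
    rw [g3, c.hat_mul, map_add, map_add, map_smul, map_smul]
  · intro a
    rw [c.hat_const, map_zero]
  · intro f
    rw [c.hat_star, Row.sand_star]
  · intro f
    exact add_sub_cancel_left _ _

/-- Compression of a cycle by an adapted row. -/
noncomputable def cmp (X : Row S P) (c : CM τ Y y0 S) (hX : X.Ad c.ζ) : C1 I τ Y y0 :=
  (exists_cmp hτ X c hX).choose

theorem cmp_hat (X : Row S P) (c : CM τ Y y0 S) (hX : X.Ad c.ζ) (f : C(Y, ℂ)) :
    (cmp hτ X c hX).hat f = Row.sand X X (c.hat f) := (exists_cmp hτ X c hX).choose_spec.1 f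

theorem cmp_zeta (X : Row S P) (c : CM τ Y y0 S) (hX : X.Ad c.ζ) :
    (cmp hτ X c hX).ζ = 1 + Row.sand X X (c.ζ - 1) := (exists_cmp hτ X c hX).choose_spec.2

end cmp

/-- Two compressions of one cycle. -/
def Rel1 (c c' : C1 I τ Y y0) : Prop :=
  ∃ (S : Sz I) (d : CM τ Y y0 S) (X X' : Row S P), X.Ad d.ζ ∧ X'.Ad d.ζ ∧
    (∀ f, c.hat f = Row.sand X X (d.hat f)) ∧ ∀ f, c'.hat f = Row.sand X' X' (d.hat f)

/-- Paths with a common `ζ` in an algebra. -/
structure Pth {D : Type} [CStarAlgebra D] (J : D → Prop) (Y : Type) [TopologicalSpace Y]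
    [CompactSpace Y] (y0 : Y) where
  k : unitInterval → C(Y, ℂ) →⋆ₐ[ℂ] D
  ζ : D
  u1 : star ζ * ζ = 1
  u2 : ζ * star ζ = 1
  j : J (ζ - 1)
  sup : ∀ s f, ζ * (k s f - algebraMap ℂ D (f y0)) = -(k s f - algebraMap ℂ D (f y0))
  cont : ∀ f, Continuous fun s => k s f

/-- The members of a path are cycles. -/
noncomputable def Pth.at {D : Type} [CStarAlgebra D] {J : D → Prop} (p : Pth J Y y0)
    (s : unitInterval) : Cyc J Y y0 :=
  ⟨p.k s, p.ζ, p.u1, p.u2, p.j, p.sup s⟩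

/-- Homotopic cycles. -/
def Rel2 (c c' : C1 I τ Y y0) : Prop :=
  ∃ p : Pth (J1 I τ) Y y0, (∀ f, p.k 0 f = c.κ f) ∧ ∀ f, p.k 1 f = c'.κ f

/-- Equivalence of cycles. -/
def Eqv : C1 I τ Y y0 → C1 I τ Y y0 → Prop := Relation.EqvGen (fun c c' => Rel1 c c' ∨ Rel2 c c')

theorem Eqv.refl (c : C1 I τ Y y0) : Eqv c c := Relation.EqvGen.refl c

theorem Eqv.symm {c c' : C1 I τ Y y0} (h : Eqv c c') : Eqv c' c := Relation.EqvGen.symm _ _ h

theorem Eqv.trans {c c' c'' : C1 I τ Y y0} (h : Eqv c c') (h' : Eqv c' c'') : Eqv c c'' :=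
  Relation.EqvGen.trans _ _ _ h h'

theorem Eqv.rel1 {c c' : C1 I τ Y y0} (h : Rel1 c c') : Eqv c c' :=
  Relation.EqvGen.rel _ _ (Or.inl h)

theorem Eqv.rel2 {c c' : C1 I τ Y y0} (h : Rel2 c c') : Eqv c c' :=
  Relation.EqvGen.rel _ _ (Or.inr h)

/-- A map between cycles which preserves both relations preserves the equivalence. -/
theorem Eqv.map {I' : Ix} {P' : Type} [CStarAlgebra P'] {τ' : P' →ₗ[ℂ] ℂ} {Y' : Type}
    [TopologicalSpace Y'] [CompactSpace Y'] {y0' : Y'}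
    (G : C1 I τ Y y0 → C1 I' τ' Y' y0' → Prop) (hG : ∀ c, ∃ e, G c e)
    (h0 : ∀ c e e', G c e → G c e' → Eqv e e')
    (h1 : ∀ c c' e e', Rel1 c c' → G c e → G c' e' → Eqv e e')
    (h2 : ∀ c c' e e', Rel2 c c' → G c e → G c' e' → Eqv e e')
    {c c' : C1 I τ Y y0} {e e' : C1 I' τ' Y' y0'} (h : Eqv c c') (he : G c e) (he' : G c' e') :
    Eqv e e' := by
  have key : ∀ c c' : C1 I τ Y y0, Relation.EqvGen (fun c c' => Rel1 c c' ∨ Rel2 c c') c c' →
      ∀ e e' : C1 I' τ' Y' y0', G c e → G c' e' → Eqv e e' := by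
    intro c c' h
    induction h with
    | rel x y hxy =>
      intro e e' he he'
      rcases hxy with hxy | hxy
      · exact h1 _ _ _ _ hxy he he'
      · exact h2 _ _ _ _ hxy he he'
    | refl x =>
      intro e e' he he'
      exact h0 _ _ _ he he'
    | symm x y _ ih =>
      intro e e' he he'
      exact (ih e' e he' he).symm
    | trans x y z _ _ ih1 ih2 =>
      intro e e' he he'
      obtain ⟨e'', he''⟩ := hG y
      exact (ih1 e e'' he he'').trans (ih2 e'' e' he'' he')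
  exact key c c' h e e' he he'

/-- Conjugation by a unitary. Proof: `Rel1` with `S = Sz.one I`, `d = c.mapD (unoR P)`,
`X = Row.ofElt 1`, `X' = Row.ofElt u` (`Row.sand_ofElt`, `Row.gram_ofElt`, `unoR_J`). -/
theorem eqv_conj (hτ : PTr τ) {c c' : C1 I τ Y y0} (u : R1 I P) (hu : star u * u = 1)
    (h : ∀ f, c'.hat f = u * c.hat f * star u) : Eqv c c' := by
  have h1 : ∀ f, (c.mapD (J' := JM (Sz.one I) τ) (unoR P) (fun _ ha => unoR_J ha)).hat f =
      unoR P (c.hat f) := fun f => c.mapD_hat _ _ f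
  refine Eqv.rel1 ⟨Sz.one I, c.mapD (unoR P) (fun _ ha => unoR_J ha), Row.ofElt 1,
    Row.ofElt u, ?_, ?_, fun f => ?_, fun f => ?_⟩
  · unfold Row.Ad
    rw [Row.gram_ofElt, star_one, mul_one, map_one, one_mul]
  · unfold Row.Ad
    rw [Row.gram_ofElt, hu, map_one, one_mul]
  · rw [h1, Row.sand_ofElt, star_one, mul_one, one_mul]
  · rw [h1, Row.sand_ofElt, h]

/-- The element `ζ` is irrelevant: `eqv_conj` for `u = 1`. -/
theorem eqv_of_hat (hτ : PTr τ) {c c' : C1 I τ Y y0} (h : ∀ f, c'.hat f = c.hat f) :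
    Eqv c c' := by
  refine eqv_conj hτ 1 (by rw [star_one, one_mul]) fun f => ?_
  rw [h, star_one, mul_one, one_mul]

theorem eqv_of_kappa (hτ : PTr τ) {c c' : C1 I τ Y y0} (h : ∀ f, c'.κ f = c.κ f) :
    Eqv c c' := by
  refine eqv_of_hat hτ fun f => ?_
  unfold Cyc.hat
  rw [h]

/-- Two compressions of one cycle are equivalent. -/
theorem eqv_cmp {S : Sz I} (d : CM τ Y y0 S) (X X' : Row S P) (hX : X.Ad d.ζ) (hX' : X'.Ad d.ζ)
    {c c' : C1 I τ Y y0} (h : ∀ f, c.hat f = Row.sand X X (d.hat f))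
    (h' : ∀ f, c'.hat f = Row.sand X' X' (d.hat f)) : Eqv c c' :=
  Eqv.rel1 ⟨S, d, X, X', hX, hX', h, h'⟩

/-- Compressions of the ends of a path of matrix cycles. For `X = X'` this is `Rel2` for the path
`s ↦ f y0 + X (k s f - f y0) X*` (`exists_cmp` for the members, all with the same `ζ`, and
`Row.sand_continuous`); in general combine with `eqv_cmp`. -/
theorem eqv_cmp_path (hτ : PTr τ) {S : Sz I} (p : Pth (JM S τ) Y y0) (X X' : Row S P)
    (hX : X.Ad p.ζ) (hX' : X'.Ad p.ζ) {c c' : C1 I τ Y y0}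
    (h : ∀ f, c.hat f = Row.sand X X ((p.at 0).hat f))
    (h' : ∀ f, c'.hat f = Row.sand X' X' ((p.at 1).hat f)) : Eqv c c' := by
  have hd : ∀ s, ∃ d : C1 I τ Y y0, (∀ f, d.hat f = Row.sand X X ((p.at s).hat f)) ∧
      d.ζ = 1 + Row.sand X X (p.ζ - 1) := fun s => exists_cmp hτ X (p.at s) hX
  choose d hd hz using hd
  have hk : ∀ s f, (d s).κ f = algebraMap ℂ (R1 I P) (f y0) +
      Row.sand X X (p.k s f - algebraMap ℂ (RM S P) (f y0)) := by
    intro s f
    rw [(d s).kappa_eq, hd s f]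
    rfl
  have hr : Rel2 (d 0) (d 1) := by
    refine ⟨⟨fun s => (d s).κ, (d 0).ζ, (d 0).u1, (d 0).u2, (d 0).j, fun s f => ?_,
      fun f => ?_⟩, fun f => rfl, fun f => rfl⟩
    · rw [hz 0, ← hz s]
      exact (d s).sup f
    · have h1 : Continuous fun s => algebraMap ℂ (R1 I P) (f y0) +
          Row.sand X X (p.k s f - algebraMap ℂ (RM S P) (f y0)) :=
        continuous_const.add ((Row.sand_continuous X X).comp ((p.cont f).sub continuous_const))
      exact h1.congr fun s => (hk s f).symm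
  have e1 : Eqv c (d 0) := eqv_of_hat hτ fun f => by rw [hd 0 f, h f]
  have e2 : Eqv (d 1) c' := eqv_cmp (p.at 1) X X' hX hX' (hd 1) h'
  exact e1.trans ((Eqv.rel2 hr).trans e2)

/-- The hypothesis that enough rows exist. -/
def Rowy (I : Ix) {P : Type} [CStarAlgebra P] (τ : P →ₗ[ℂ] ℂ) : Prop :=
  ∀ (S : Sz I) (n : ℕ) (a : Fin n → RM S P), (∀ i, JM S τ (a i)) →
    ∃ X : Row S P, ∀ i, Row.gram X X * a i = a i

/-- Equivalence of matrix cycles of the same or of different sizes: some compressions are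
equivalent. -/
def EqvM {S S' : Sz I} (d : CM τ Y y0 S) (d' : CM τ Y y0 S') : Prop :=
  ∀ (X : Row S P) (X' : Row S' P) (c c' : C1 I τ Y y0), X.Ad d.ζ → X'.Ad d'.ζ →
    (∀ f, c.hat f = Row.sand X X (d.hat f)) → (∀ f, c'.hat f = Row.sand X' X' (d'.hat f)) →
    Eqv c c'

theorem EqvM.refl {S : Sz I} (d : CM τ Y y0 S) : EqvM d d :=
  fun X X' _ _ hX hX' h h' => eqv_cmp d X X' hX hX' h h'

theorem EqvM.symm {S S' : Sz I} {d : CM τ Y y0 S} {d' : CM τ Y y0 S'} (h : EqvM d d') :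
    EqvM d' d :=
  fun X X' c c' hX hX' h1 h2 => (h X' X c' c hX' hX h2 h1).symm

/-- Transitivity needs a compression of the cycle in the middle (`Rowy` for the element `ζ - 1`,
`exists_cmp`). -/
theorem EqvM.trans (hτ : PTr τ) (hR : Rowy I τ) {S S' S'' : Sz I} {d : CM τ Y y0 S}
    {d' : CM τ Y y0 S'} {d'' : CM τ Y y0 S''} (h : EqvM d d') (h' : EqvM d' d'') :
    EqvM d d'' := by
  intro X X'' c c'' hX hX'' h1 h2
  obtain ⟨X', hX'⟩ := hR S' 1 (fun _ => d'.ζ - 1) (fun _ => d'.j)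
  have hA : X'.Ad d'.ζ := hX' 0
  obtain ⟨c', hc', -⟩ := exists_cmp hτ X' d' hA
  exact (h X X' c c' hX hA h1 hc').trans (h' X' X'' c' c'' hA hX'' hc' h2)

/-- `EqvM` for the same size and the same `hat`: choose a row adapted to both `ζ`'s, by `Rowy` for the
two elements `d.ζ - 1`, `d'.ζ - 1`; then `eqv_cmp` twice and `eqv_of_hat`. -/
theorem eqvM_of_hat (hτ : PTr τ) (hR : Rowy I τ) {S : Sz I} {d d' : CM τ Y y0 S}
    (h : ∀ f, d.hat f = d'.hat f) : EqvM d d' := by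
  intro X X' c c' hX hX' h1 h2
  obtain ⟨Z, hZ⟩ := hR S 2 ![d.ζ - 1, d'.ζ - 1] (by
    intro i
    fin_cases i
    · exact d.j
    · exact d'.j)
  have hZ1 : Z.Ad d.ζ := hZ 0
  have hZ2 : Z.Ad d'.ζ := hZ 1
  obtain ⟨e, he, -⟩ := exists_cmp hτ Z d hZ1
  obtain ⟨e', he', -⟩ := exists_cmp hτ Z d' hZ2
  have k1 : Eqv c e := eqv_cmp d X Z hX hZ1 h1 he
  have k2 : Eqv e e' := eqv_of_hat hτ fun f => by rw [he, he', h]
  have k3 : Eqv e' c' := eqv_cmp d' Z X' hZ2 hX' he' h2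
  exact k1.trans (k2.trans k3)

/-- Homotopy in matrices: a row adapted to `d.ζ, d'.ζ, p.ζ`, then `eqv_cmp` and `eqv_cmp_path`. -/
theorem eqvM_of_path (hτ : PTr τ) (hR : Rowy I τ) {S : Sz I} {d d' : CM τ Y y0 S}
    (p : Pth (JM S τ) Y y0) (h : ∀ f, p.k 0 f = d.κ f) (h' : ∀ f, p.k 1 f = d'.κ f) :
    EqvM d d' := by
  intro X X' c c' hX hX' h1 h2
  obtain ⟨Z, hZ⟩ := hR S 3 ![d.ζ - 1, d'.ζ - 1, p.ζ - 1] (by
    intro i
    fin_cases i
    · exact d.j
    · exact d'.j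
    · exact p.j)
  have hZ1 : Z.Ad d.ζ := hZ 0
  have hZ2 : Z.Ad d'.ζ := hZ 1
  have hZ3 : Z.Ad p.ζ := hZ 2
  obtain ⟨e, he, -⟩ := exists_cmp hτ Z d hZ1
  obtain ⟨e', he', -⟩ := exists_cmp hτ Z d' hZ2
  have q0 : ∀ f, (p.at 0).hat f = d.hat f := fun f =>
    congrArg (fun z => z - algebraMap ℂ (RM S P) (f y0)) (h f)
  have q1 : ∀ f, (p.at 1).hat f = d'.hat f := fun f =>
    congrArg (fun z => z - algebraMap ℂ (RM S P) (f y0)) (h' f)
  have k1 : Eqv c e := eqv_cmp d X Z hX hZ1 h1 he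
  have k2 : Eqv e e' := eqv_cmp_path hτ p Z Z hZ3 hZ3 (fun f => by rw [he, q0])
    (fun f => by rw [he', q1])
  have k3 : Eqv e' c' := eqv_cmp d' Z X' hZ2 hX' he' h2
  exact k1.trans (k2.trans k3)

end H7c
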