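import Pool.Agent.H.MP_7b4a29_an.Defs

/-!
# Definitions for the statement of the full answer
-/

open MeasureTheory

namespace H7c

open H47 H7b

universe u v w

/-- The normalized surface measure of the unit sphere of the four-dimensional Euclidean space. -/
noncomputable def sphm : Measure (Metric.sphere (0 : EuclideanSpace ℝ (Fin 4)) 1) :=
  ((volume : Measure (EuclideanSpace ℝ (Fin 4))).toSphere Set.univ)⁻¹ •
    (volume : Measure (EuclideanSpace ℝ (Fin 4))).toSphere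

/-- For every reduced free product `(B, τ)` of infinitely many copies of `C([0,1])` (Lebesgue
measure), the reduced free products of `(C(Z), μ)` and `(B, τ)` and of `(C(Z'), μ')` and `(B, τ)`
exist, and any two such algebras are isomorphic as C*-algebras. -/
def SameProd {Z Z' : Type} [TopologicalSpace Z] [MeasurableSpace Z] [TopologicalSpace Z']
    [MeasurableSpace Z'] (μ : Measure Z) (μ' : Measure Z') : Prop :=
  ∀ (B : Type u) [CStarAlgebra B] (τ : B →ₗ[ℂ] ℂ)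
    (ι : ℕ → C(unitInterval, ℂ) →⋆ₐ[ℂ] B), FreeInf B τ ι →
    (∃ (P : Type) (_ : CStarAlgebra P) (σ : P →ₗ[ℂ] ℂ) (a : C(Z, ℂ) →⋆ₐ[ℂ] P) (b : B →⋆ₐ[ℂ] P),
      FreeProdZ μ τ P σ a b) ∧
    (∃ (Q : Type) (_ : CStarAlgebra Q) (σ : Q →ₗ[ℂ] ℂ) (a : C(Z', ℂ) →⋆ₐ[ℂ] Q) (b : B →⋆ₐ[ℂ] Q),
      FreeProdZ μ' τ Q σ a b) ∧
    ∀ (P : Type v) [CStarAlgebra P] (σ : P →ₗ[ℂ] ℂ) (a : C(Z, ℂ) →⋆ₐ[ℂ] P) (b : B →⋆ₐ[ℂ] P),
      FreeProdZ μ τ P σ a b →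
    ∀ (Q : Type w) [CStarAlgebra Q] (σ' : Q →ₗ[ℂ] ℂ) (a' : C(Z', ℂ) →⋆ₐ[ℂ] Q)
      (b' : B →⋆ₐ[ℂ] Q), FreeProdZ μ' τ Q σ' a' b' → Nonempty (P ≃⋆ₐ[ℂ] Q)

end H7c
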