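import Pool.Agent.H.MP_7b4a29_c.SQCu
import Pool.Agent.H.MP_7b4a29_c.SQB

/-!
# Exact homomorphisms from asymptotic ones
-/

open Filter Topology

namespace H7c

/-- The constant families are closed. -/
theorem ethm_closed (I : Ix) (P : Type) [CStarAlgebra P] :
    IsClosed (Set.range (cst I P)) := by
  have h : Isometry (cst I P) := AddMonoidHomClass.isometry_of_norm (cst I P) (norm_cst I P)
  exact h.isClosedEmbedding.isClosed_range

/-- Uniform approximate unitary equivalence of the tails, by contradiction. -/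
theorem ethm_step {P : Type} [CStarAlgebra P] {ι : Type} (x : ι → ℕ → P)
    (hx : ∀ i, Bd (A := fun _ : ℕ => P) (x i))
    (h : ∀ (σ σ' : ℕ → ℕ), StrictMono σ → StrictMono σ' →
      ∃ u : SQ I0 (fun _ => P), star u * u = 1 ∧ u * star u = 1 ∧
        ∀ i, u * cl I0 (A := fun _ => P) (fun n => x i (σ n)) =
          cl I0 (A := fun _ => P) (fun n => x i (σ' n)) * u)
    (F : Finset ι) (ε : ℝ) (hε : 0 < ε) :
    ∃ K : ℕ, ∀ m n, K ≤ m → K ≤ n → ∃ u : P, star u * u = 1 ∧ u * star u = 1 ∧
      ∀ i ∈ F, ‖u * x i n - x i m * u‖ ≤ ε := by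
  by_contra hcon
  push Not at hcon
  choose M N hM hN hbad using hcon
  let s : ℕ → ℕ := fun j => Nat.rec 0 (fun _ t => max (M t) (N t) + 1) j
  have hs : ∀ j, s (j + 1) = max (M (s j)) (N (s j)) + 1 := fun j => rfl
  have hσ : StrictMono (fun j => N (s j)) := by
    refine strictMono_nat_of_lt_succ fun j => ?_
    have h1 := hN (s (j + 1))
    have h2 := le_max_right (M (s j)) (N (s j))
    have h3 := hs j
    omega
  have hσ' : StrictMono (fun j => M (s j)) := by
    refine strictMono_nat_of_lt_succ fun j => ?_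
    have h1 := hM (s (j + 1))
    have h2 := le_max_left (M (s j)) (N (s j))
    have h3 := hs j
    omega
  obtain ⟨u, hu1, hu2, hu3⟩ := h _ _ hσ hσ'
  obtain ⟨v, hv, hvu⟩ := exists_unitary_rep I0 u hu1 hu2
  have hvb : Bd (A := fun _ : ℕ => P) v := sqb_bd fun l => (hv l).1
  have hb : ∀ i, Bd (A := fun _ : ℕ => P) (fun l => x i (N (s l))) := by
    intro i
    obtain ⟨C, hC⟩ := hx i
    exact ⟨C, fun l => hC _⟩
  have hb' : ∀ i, Bd (A := fun _ : ℕ => P) (fun l => x i (M (s l))) := by
    intro i
    obtain ⟨C, hC⟩ := hx i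
    exact ⟨C, fun l => hC _⟩
  have ht : ∀ i, Tendsto (fun l : ℕ => ‖v l * x i (N (s l)) - x i (M (s l)) * v l‖) I0.F
      (𝓝 0) := by
    intro i
    refine (cl_eq_iff I0 (A := fun _ => P) (Bd.mul hvb (hb i)) (Bd.mul (hb' i) hvb)).1 ?_
    have e1 := cl_mul I0 (A := fun _ => P) hvb (hb i)
    have e2 := cl_mul I0 (A := fun _ => P) (hb' i) hvb
    rw [hvu] at e1 e2
    exact e1.trans ((hu3 i).trans e2.symm)
  have hev : ∀ᶠ l : ℕ in I0.F, ∀ i ∈ F, ‖v l * x i (N (s l)) - x i (M (s l)) * v l‖ ≤ ε :=
    (Filter.eventually_all_finset F).2 fun i _ => (ht i).eventually (ge_mem_nhds hε)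
  obtain ⟨l, hl⟩ := @Filter.Eventually.exists ℕ _ I0.F I0.ne hev
  obtain ⟨i, hi, hlt⟩ := hbad (s l) (v l) (hv l).1 (hv l).2
  exact absurd (hl i hi) (not_le.2 hlt)

/-- A homomorphism into the sequence algebra whose subsequences are all unitarily equivalent is
unitarily equivalent to an honest homomorphism, after passing to a subsequence.

Proof. Let `a f` be represented by `x f n` (`SQ.rep`). For every finite `F` and `ε > 0` there is `n₀`
such that for all `m, n ≥ n₀` there is a unitary `u` with `‖u * x f n - x f m * u‖ ≤ ε` for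
`f ∈ F`: otherwise there are strictly increasing sequences `m_k`, `n_k` of counterexamples; by hypothesis
there is a unitary `u` of `SQ I0` with `u * re (a f) = re' (a f) * u` for the two subsequences; lift it to
unitaries `u k` (`exists_unitary_rep`); for large `k` this contradicts the choice.
Let `f i` be dense in `C(Z, ℂ)` (separable), containing sums and products is not needed. Choose `n_k`
increasing with unitaries `u_k`, `‖u_k * x f n_{k+1} * star u_k - x f n_k‖ ≤ 2^{-k}` for
`f ∈ {f 0, …, f k}`, and put `U_0 = 1`, `U_{k+1} = U_k u_k`. Then `U_k x f n_k U_k*` is a Cauchy sequence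
for `f = f i`, hence for all `f` (as `‖x f n‖ ≤ ‖f‖ + o(1)` and differences: use
`‖x f n - x f' n‖ ≤ ‖f - f'‖ + o(1)`), with a limit `α f`. `α` is a star homomorphism because
`x (f g) n - x f n x g n → 0` etc. The class of `U_k` is the unitary. -/
theorem exists_exact {P : Type} [CStarAlgebra P] {Z : Type} [MetricSpace Z] [CompactSpace Z]
    (a : C(Z, ℂ) →⋆ₐ[ℂ] SQ I0 (fun _ => P))
    (h : ∀ (σ σ' : ℕ → ℕ) (hσ : StrictMono σ) (hσ' : StrictMono σ'),
      ∃ u : SQ I0 (fun _ => P), star u * u = 1 ∧ u * star u = 1 ∧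
        ∀ f, u * SQ.re (subIx σ hσ) (a f) = SQ.re (subIx σ' hσ') (a f) * u) :
    ∃ (α : C(Z, ℂ) →⋆ₐ[ℂ] P) (σ : ℕ → ℕ) (hσ : StrictMono σ) (U : SQ I0 (fun _ => P)),
      star U * U = 1 ∧ U * star U = 1 ∧
        ∀ f, cst I0 P (α f) * U = U * SQ.re (subIx σ hσ) (a f) := by
  classical
  obtain ⟨d, hd⟩ := TopologicalSpace.exists_dense_seq (C(Z, ℂ))
  -- representatives
  let x : C(Z, ℂ) → ℕ → P := fun f => SQ.rep I0 (a f)
  have hx : ∀ f, Bd (A := fun _ : ℕ => P) (x f) := fun f => SQ.rep_bd I0 (a f)
  have hstep := fun k : ℕ => ethm_step x hx (fun σ σ' hσ hσ' => h σ σ' hσ hσ')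
    ((Finset.range (k + 1)).image d) ((1 / 2 : ℝ) ^ k) (by positivity)
  choose T hT using hstep
  let σ : ℕ → ℕ := fun j => Nat.rec (T 0) (fun k t => max (t + 1) (T (k + 1))) j
  have hσs : ∀ k, σ (k + 1) = max (σ k + 1) (T (k + 1)) := fun k => rfl
  have hσ : StrictMono σ := strictMono_nat_of_lt_succ fun k => by
    have h1 := le_max_left (σ k + 1) (T (k + 1))
    have h2 := hσs k
    omega
  have hTσ : ∀ k, T k ≤ σ k := by
    intro k
    cases k with
    | zero => exact le_refl _
    | succ k =>
      rw [hσs]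
      exact le_max_right _ _
  have hu := fun k : ℕ => hT k (σ k) (σ (k + 1)) (hTσ k)
    ((hTσ k).trans (hσ (Nat.lt_succ_self k)).le)
  choose u hu1 hu2 hu3 using hu
  let U : ℕ → P := fun j => Nat.rec (1 : P) (fun k t => t * u k) j
  have hUs : ∀ k, U (k + 1) = U k * u k := fun k => rfl
  have hU : ∀ k, star (U k) * U k = 1 ∧ U k * star (U k) = 1 := by
    intro k
    induction k with
    | zero =>
      have e : U 0 = 1 := rfl
      rw [e]
      simp
    | succ k ih =>
      rw [hUs]
      constructor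
      · calc star (U k * u k) * (U k * u k) = star (u k) * (star (U k) * U k) * u k := by
              rw [star_mul]; noncomm_ring
          _ = 1 := by rw [ih.1, mul_one, hu1]
      · calc U k * u k * star (U k * u k) = U k * (u k * star (u k)) * star (U k) := by
              rw [star_mul]; noncomm_ring
          _ = 1 := by rw [hu2, mul_one, ih.2]
  have hUb : Bd (A := fun _ : ℕ => P) U := sqb_bd fun l => (hU l).1
  let W : SQ I0 (fun _ => P) := cl I0 (A := fun _ => P) U
  have hWs : cl I0 (A := fun _ => P) (fun l => star (U l)) = star W :=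
    cl_star I0 (A := fun _ => P) hUb
  have hW1 : star W * W = 1 := by
    have e := cl_mul I0 (A := fun _ => P) hUb.star hUb
    refine Eq.trans (congrArg (fun z => z * W) hWs.symm) ?_
    refine e.symm.trans ?_
    have e2 : (fun l : ℕ => star (U l) * U l) = fun _ => (1 : P) := by
      funext l
      exact (hU l).1
    exact (congrArg (cl I0 (A := fun _ => P)) e2).trans (cl_one I0)
  have hW2 : W * star W = 1 := by
    have e := cl_mul I0 (A := fun _ => P) hUb hUb.star
    refine Eq.trans (congrArg (fun z => W * z) hWs.symm) ?_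
    refine e.symm.trans ?_
    have e2 : (fun l : ℕ => U l * star (U l)) = fun _ => (1 : P) := by
      funext l
      exact (hU l).2
    exact (congrArg (cl I0 (A := fun _ => P)) e2).trans (cl_one I0)
  -- the conjugated homomorphism
  let b : C(Z, ℂ) → SQ I0 (fun _ => P) := fun f => W * SQ.re (subIx σ hσ) (a f) * star W
  have hbn : ∀ f g, ‖b f - b g‖ ≤ ‖f - g‖ := by
    intro f g
    have e : b f - b g = W * SQ.re (subIx σ hσ) (a (f - g)) * star W := by
      change W * SQ.re (subIx σ hσ) (a f) * star W - W * SQ.re (subIx σ hσ) (a g) * star W = _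
      rw [map_sub, map_sub]
      noncomm_ring
    rw [e]
    have hn1 : ‖W‖ ≤ 1 := sqb_norm_le hW1
    have hn2 : ‖star W‖ ≤ 1 := by rw [norm_star]; exact hn1
    have hn3 : ‖SQ.re (subIx σ hσ) (a (f - g))‖ ≤ ‖f - g‖ :=
      (NonUnitalStarAlgHom.norm_apply_le (SQ.re (subIx σ hσ)) (a (f - g))).trans
        (NonUnitalStarAlgHom.norm_apply_le a (f - g))
    calc ‖W * SQ.re (subIx σ hσ) (a (f - g)) * star W‖
        ≤ ‖W * SQ.re (subIx σ hσ) (a (f - g))‖ * ‖star W‖ := norm_mul_le _ _
      _ ≤ (‖W‖ * ‖SQ.re (subIx σ hσ) (a (f - g))‖) * ‖star W‖ :=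
          mul_le_mul_of_nonneg_right (norm_mul_le _ _) (norm_nonneg _)
      _ ≤ (1 * ‖f - g‖) * 1 := by
          refine mul_le_mul (mul_le_mul hn1 hn3 (norm_nonneg _) zero_le_one) hn2
            (norm_nonneg _) (by positivity)
      _ = ‖f - g‖ := by ring
  have hbc : Continuous b := by
    have hl : LipschitzWith 1 b := LipschitzWith.of_dist_le_mul fun f g => by
      rw [dist_eq_norm, dist_eq_norm, NNReal.coe_one, one_mul]
      exact hbn f g
    exact hl.continuous
  have hbd : ∀ i, b (d i) ∈ Set.range (cst I0 P) := by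
    intro i
    let y : ℕ → P := fun k => U k * x (d i) (σ k) * star (U k)
    have hxs : Bd (A := fun _ : ℕ => P) (fun k => x (d i) (σ k)) := by
      obtain ⟨C, hC⟩ := hx (d i)
      exact ⟨C, fun l => hC _⟩
    have hyb : Bd (A := fun _ : ℕ => P) y := Bd.mul (Bd.mul hUb hxs) hUb.star
    have hby : b (d i) = cl I0 (A := fun _ => P) y := by
      have e1 := cl_mul I0 (A := fun _ => P) hUb hxs
      have e2 := cl_mul I0 (A := fun _ => P) (Bd.mul hUb hxs) hUb.star
      refine Eq.trans ?_ e2.symm
      have e3 : W * SQ.re (subIx σ hσ) (a (d i)) =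
          cl I0 (A := fun _ => P) (fun l => U l * x (d i) (σ l)) := e1.symm
      change W * SQ.re (subIx σ hσ) (a (d i)) * star W = _
      rw [e3]
      exact congrArg (fun z => cl I0 (A := fun _ => P) (fun l => U l * x (d i) (σ l)) * z)
        hWs.symm
    have hstepy : ∀ k, i ≤ k → dist (y k) (y (k + 1)) ≤ (1 / 2 : ℝ) ^ k := by
      intro k hk
      have h3 := hu3 k (d i) (Finset.mem_image.2 ⟨i, Finset.mem_range.2 (by omega), rfl⟩)
      have e : y (k + 1) - y k =
          U k * (u k * x (d i) (σ (k + 1)) - x (d i) (σ k) * u k) * star (U k * u k) := by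
        change U k * u k * x (d i) (σ (k + 1)) * star (U k * u k) -
          U k * x (d i) (σ k) * star (U k) = _
        have e2 : U k * x (d i) (σ k) * star (U k) =
            U k * x (d i) (σ k) * (u k * star (u k)) * star (U k) := by
          rw [hu2, mul_one]
        rw [e2, star_mul]
        noncomm_ring
      have hn1 : ‖U k‖ ≤ 1 := sqb_norm_le (hU k).1
      have hn2 : ‖star (U k * u k)‖ ≤ 1 := by
        rw [norm_star]
        exact sqb_norm_le (hU (k + 1)).1
      rw [dist_comm, dist_eq_norm, e]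
      calc ‖U k * (u k * x (d i) (σ (k + 1)) - x (d i) (σ k) * u k) * star (U k * u k)‖
          ≤ ‖U k * (u k * x (d i) (σ (k + 1)) - x (d i) (σ k) * u k)‖ *
              ‖star (U k * u k)‖ := norm_mul_le _ _
        _ ≤ (‖U k‖ * ‖u k * x (d i) (σ (k + 1)) - x (d i) (σ k) * u k‖) *
              ‖star (U k * u k)‖ :=
            mul_le_mul_of_nonneg_right (norm_mul_le _ _) (norm_nonneg _)
        _ ≤ (1 * (1 / 2 : ℝ) ^ k) * 1 := by
            refine mul_le_mul (mul_le_mul hn1 h3 (norm_nonneg _) zero_le_one) hn2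
              (norm_nonneg _) (by positivity)
        _ = (1 / 2 : ℝ) ^ k := by ring
    have hcs : CauchySeq (fun k => y (k + i)) := by
      refine cauchySeq_of_le_geometric (1 / 2) 1 (by norm_num) fun k => ?_
      have h1 := hstepy (k + i) (by omega)
      have e : k + 1 + i = k + i + 1 := by omega
      rw [e]
      refine h1.trans ?_
      rw [pow_add, one_mul]
      have h2 : (1 / 2 : ℝ) ^ i ≤ 1 := pow_le_one₀ (by norm_num) (by norm_num)
      have h3 : (0 : ℝ) ≤ (1 / 2 : ℝ) ^ k := by positivity
      nlinarith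
    obtain ⟨p, hp⟩ := cauchySeq_tendsto_of_complete hcs
    have hp' : Tendsto y atTop (𝓝 p) := (tendsto_add_atTop_iff_nat i).1 hp
    refine ⟨p, ?_⟩
    rw [hby, cst_apply]
    refine (cl_eq_iff I0 (A := fun _ => P) (Bd.const P p) hyb).2 ?_
    change Tendsto (fun l : ℕ => ‖p - y l‖) atTop (𝓝 0)
    have h1 : Tendsto (fun l : ℕ => p - y l) atTop (𝓝 (p - p)) := tendsto_const_nhds.sub hp'
    rw [sub_self] at h1
    simpa using h1.norm
  have hball : ∀ f, b f ∈ Set.range (cst I0 P) := by
    intro f
    have hcl : IsClosed (b ⁻¹' Set.range (cst I0 P)) := (ethm_closed I0 P).preimage hbc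
    have hsub : Set.range d ⊆ b ⁻¹' Set.range (cst I0 P) := by
      rintro _ ⟨i, rfl⟩
      exact hbd i
    have h1 := hcl.closure_subset_iff.2 hsub
    exact h1 (hd f)
  choose α hα using hball
  have hinj : Function.Injective (cst I0 P) :=
    (AddMonoidHomClass.isometry_of_norm (cst I0 P) (norm_cst I0 P)).injective
  have hcan : ∀ z : SQ I0 (fun _ => P), W * z * star W * (W * star W) = W * z * star W := by
    intro z
    rw [hW2, mul_one]
  let α' : C(Z, ℂ) →⋆ₐ[ℂ] P :=
    { toFun := α
      map_one' := by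
        apply hinj
        rw [hα, map_one]
        change W * SQ.re (subIx σ hσ) (a 1) * star W = 1
        rw [map_one, map_one, mul_one, hW2]
      map_mul' := by
        intro f g
        apply hinj
        rw [hα, map_mul, hα, hα]
        change W * SQ.re (subIx σ hσ) (a (f * g)) * star W =
          W * SQ.re (subIx σ hσ) (a f) * star W * (W * SQ.re (subIx σ hσ) (a g) * star W)
        rw [map_mul, map_mul]
        calc W * (SQ.re (subIx σ hσ) (a f) * SQ.re (subIx σ hσ) (a g)) * star W
            = W * SQ.re (subIx σ hσ) (a f) * 1 * SQ.re (subIx σ hσ) (a g) * star W := by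
              rw [mul_one]; simp only [mul_assoc]
          _ = W * SQ.re (subIx σ hσ) (a f) * (star W * W) * SQ.re (subIx σ hσ) (a g) *
              star W := by rw [hW1]
          _ = _ := by simp only [mul_assoc]
      map_zero' := by
        apply hinj
        rw [hα, map_zero]
        change W * SQ.re (subIx σ hσ) (a 0) * star W = 0
        rw [map_zero, map_zero, mul_zero, zero_mul]
      map_add' := by
        intro f g
        apply hinj
        rw [hα, map_add, hα, hα]
        change W * SQ.re (subIx σ hσ) (a (f + g)) * star W =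
          W * SQ.re (subIx σ hσ) (a f) * star W + W * SQ.re (subIx σ hσ) (a g) * star W
        rw [map_add, map_add, mul_add, add_mul]
      commutes' := by
        intro c
        apply hinj
        rw [hα, AlgHomClass.commutes]
        change W * SQ.re (subIx σ hσ) (a (algebraMap ℂ C(Z, ℂ) c)) * star W =
          algebraMap ℂ (SQ I0 (fun _ => P)) c
        rw [AlgHomClass.commutes, AlgHomClass.commutes, Algebra.algebraMap_eq_smul_one,
          mul_smul_comm, mul_one, smul_mul_assoc]
        exact congrArg (fun z => c • z) hW2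
      map_star' := by
        intro f
        apply hinj
        rw [hα, map_star, hα]
        change W * SQ.re (subIx σ hσ) (a (star f)) * star W =
          star (W * SQ.re (subIx σ hσ) (a f) * star W)
        rw [map_star, map_star, star_mul, star_mul, star_star, mul_assoc] }
  refine ⟨α', σ, hσ, W, hW1, hW2, fun f => ?_⟩
  have e : cst I0 P (α' f) = b f := hα f
  rw [e]
  change W * SQ.re (subIx σ hσ) (a f) * star W * W = _
  rw [mul_assoc, hW1, mul_one]

/-- Unitary equivalence of constant families gives approximate unitary equivalence. -/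
theorem approx_of_cst {P : Type} [CStarAlgebra P] {I : Ix} {ι : Type} (a b : ι → P)
    (u : SQ I (fun _ => P)) (h1 : star u * u = 1) (h2 : u * star u = 1)
    (h : ∀ i, u * cst I P (b i) = cst I P (a i) * u) (F : Finset ι) (ε : ℝ) (hε : 0 < ε) :
    ∃ w : P, star w * w = 1 ∧ w * star w = 1 ∧ ∀ i ∈ F, ‖w * b i - a i * w‖ ≤ ε := by
  obtain ⟨v, hv, hvu⟩ := exists_unitary_rep I u h1 h2
  have hvb : Bd (A := fun _ : I.L => P) v := sqb_bd fun l => (hv l).1
  have ht : ∀ i, Tendsto (fun l => ‖v l * b i - a i * v l‖) I.F (𝓝 0) := by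
    intro i
    refine (cl_eq_iff I (A := fun _ => P) (Bd.mul hvb (Bd.const P (b i)))
      (Bd.mul (Bd.const P (a i)) hvb)).1 ?_
    have e1 := cl_mul I (A := fun _ => P) hvb (Bd.const P (b i))
    have e2 := cl_mul I (A := fun _ => P) (Bd.const P (a i)) hvb
    rw [hvu] at e1 e2
    exact e1.trans ((h i).trans e2.symm)
  have hev : ∀ᶠ l in I.F, ∀ i ∈ F, ‖v l * b i - a i * v l‖ ≤ ε :=
    (Filter.eventually_all_finset F).2 fun i _ => (ht i).eventually (ge_mem_nhds hε)
  obtain ⟨l, hl⟩ := hev.exists
  exact ⟨v l, (hv l).1, (hv l).2, hl⟩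

end H7c
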