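import Pool.Agent.H.MP_7b4a29_c.IsQ

/-!
# Based homotopies
-/

open Filter Topology

namespace H7c

section lifts

variable {X Y X' Y' : Type} [TopologicalSpace X] [CompactSpace X] [TopologicalSpace Y] [T2Space Y]
  [TopologicalSpace X'] [TopologicalSpace Y'] {B : Set X} {y0 : Y} {q : C(X, Y)}
  {B' : Set X'} {y0' : Y'} {q' : C(X', Y')}

/-- Based maps defined upstairs. -/
theorem IsQ.exists_map (hq : IsQ B y0 q) (hq' : IsQ B' y0' q') (g : C(X, X'))
    (hg : ∀ x ∈ B, g x ∈ B') (hne : B.Nonempty) :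
    ∃ h : C(Y, Y'), h y0 = y0' ∧ ∀ x, h (q x) = q' (g x) := by
  obtain ⟨h, hh⟩ := hq.exists_lift (q'.comp g) y0' (fun x hx => (hq'.base (g x)).2 (hg x hx))
  refine ⟨h, ?_, hh⟩
  obtain ⟨x, hx⟩ := hne
  have h1 := hh x
  rw [(hq.base x).2 hx] at h1
  rw [h1]
  exact (hq'.base (g x)).2 (hg x hx)

/-- Based homotopies defined upstairs: `id × q` is again a quotient map (a closed map between compact
Hausdorff spaces; `X` need not be Hausdorff for the argument: `id × q` is a continuous surjection from a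
compact space to a Hausdorff space, hence closed). -/
theorem IsQ.exists_hty (hq : IsQ B y0 q) (hq' : IsQ B' y0' q') (G : C(unitInterval × X, X'))
    (hG : ∀ s, ∀ x ∈ B, G (s, x) ∈ B') (hne : B.Nonempty) :
    ∃ H : C(unitInterval × Y, Y'), (∀ s, H (s, y0) = y0') ∧ ∀ s x, H (s, q x) = q' (G (s, x)) := by
  obtain ⟨Q, hQ⟩ : ∃ Q : C(unitInterval × X, unitInterval × Y), ∀ s x, Q (s, x) = (s, q x) :=
    ⟨⟨fun p => (p.1, q p.2), continuous_fst.prodMk (q.continuous.comp continuous_snd)⟩,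
      fun _ _ => rfl⟩
  have hs : Function.Surjective Q := by
    rintro ⟨s, y⟩
    obtain ⟨x, rfl⟩ := hq.surj y
    exact ⟨(s, x), hQ s x⟩
  have hQQ : IsQuotientMap (Q : unitInterval × X → unitInterval × Y) :=
    (Q.continuous.isClosedMap).isQuotientMap Q.continuous hs
  have hF : Function.FactorsThrough (q'.comp G) Q := by
    rintro ⟨s, x⟩ ⟨s', x'⟩ h
    rw [hQ, hQ, Prod.mk.injEq] at h
    obtain ⟨rfl, h⟩ := h
    by_cases hx : x ∈ B
    · have h1 : q x' = y0 := by rw [← h]; exact (hq.base x).2 hx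
      have h2 : q' (G (s, x)) = y0' := (hq'.base _).2 (hG s x hx)
      have h3 : q' (G (s, x')) = y0' := (hq'.base _).2 (hG s x' ((hq.base x').1 h1))
      exact h2.trans h3.symm
    · rw [hq.inj x x' h hx]
  have hl : ∀ s x, (hQQ.lift (q'.comp G) hF) (s, q x) = q' (G (s, x)) := by
    intro s x
    have h1 := DFunLike.congr_fun (hQQ.lift_comp (q'.comp G) hF) (s, x)
    rw [ContinuousMap.comp_apply, hQ] at h1
    exact h1
  refine ⟨hQQ.lift (q'.comp G) hF, fun s => ?_, hl⟩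
  obtain ⟨x, hx⟩ := hne
  have h1 := hl s x
  rw [(hq.base x).2 hx] at h1
  rw [h1]
  exact (hq'.base _).2 (hG s x hx)

end lifts

variable {I : Ix} {N S : Sz I} {P : Type} [CStarAlgebra P] {τ : P →ₗ[ℂ] ℂ}
  {Y : Type} [TopologicalSpace Y] [CompactSpace Y] [T2Space Y] {y0 : Y}
  {Y' : Type} [TopologicalSpace Y'] [CompactSpace Y'] [T2Space Y'] {y0' : Y'}
  {Y'' : Type} [TopologicalSpace Y''] [CompactSpace Y''] [T2Space Y''] {y0'' : Y''}

/-- The member of a homotopy. -/
def hm (H : C(unitInterval × Y, Y')) (s : unitInterval) : C(Y, Y') :=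
  ⟨fun y => H (s, y), H.continuous.comp (Continuous.prodMk_right s)⟩

/-- Continuity of the composition with the members of a homotopy (`ContinuousMap.curry`). -/
theorem hm_continuous {E : Type} [TopologicalSpace E] (H : C(unitInterval × Y, Y'))
    (f : C(Y', E)) : Continuous fun s => f.comp (hm H s) :=
  ((f.comp H).curry).continuous

/-- Homotopic maps induce equivalent cycles: a `Pth` with `k s f = d.κ (f.comp (hm H s))`. -/
theorem eqvM_push_hty (hτ : PTr τ) (hR : Rowy I τ) (d : CM τ Y y0 S)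
    (H : C(unitInterval × Y, Y')) (h0 : ∀ s, H (s, y0) = y0') :
    EqvM (d.push (hm H 0) (h0 0)) (d.push (hm H 1) (h0 1)) := by
  obtain ⟨p, hp⟩ : ∃ p : Pth (JM S τ) Y' y0', ∀ s f, p.k s f = d.κ (f.comp (hm H s)) :=
    ⟨⟨fun s => (d.push (hm H s) (h0 s)).κ, d.ζ, d.u1, d.u2, d.j,
      fun s f => (d.push (hm H s) (h0 s)).sup f,
      fun f => (isq_cont d.κ).comp (hm_continuous H f)⟩, fun _ _ => rfl⟩
  exact eqvM_of_path hτ hR p (fun f => hp 0 f) (fun f => hp 1 f)

/-- Cycles over `R1 I P` (`Rel2`). -/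
theorem eqv_push_hty (c : C1 I τ Y y0)
    (H : C(unitInterval × Y, Y')) (h0 : ∀ s, H (s, y0) = y0') :
    Eqv (c.push (hm H 0) (h0 0)) (c.push (hm H 1) (h0 1)) := by
  obtain ⟨p, hp⟩ : ∃ p : Pth (J1 I τ) Y' y0', ∀ s f, p.k s f = c.κ (f.comp (hm H s)) :=
    ⟨⟨fun s => (c.push (hm H s) (h0 s)).κ, c.ζ, c.u1, c.u2, c.j,
      fun s f => (c.push (hm H s) (h0 s)).sup f,
      fun f => (isq_cont c.κ).comp (hm_continuous H f)⟩, fun _ _ => rfl⟩
  exact Eqv.rel2 ⟨p, fun f => hp 0 f, fun f => hp 1 f⟩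

/-- Homotopic maps on the left of a based homomorphism, and another based homomorphism
in front. -/
theorem eqvM_comp_pre_hty {Z : Type} [TopologicalSpace Z] [CompactSpace Z] [T2Space Z] {z0 : Z}
    {M : Sz I} (hτ : PTr τ) (hR : Rowy I τ) (hN : (M.prod N).PB)
    (d : CM τ Z z0 S) (J : BH M Z z0 Y y0) (J' : BH N Y' y0' Y'' y0'')
    (H : C(unitInterval × Y, Y')) (h0 : ∀ s, H (s, y0) = y0') :
    EqvM (com hτ hN d (J.comp (J'.pre (hm H 0) (h0 0))))
      (com hτ hN d (J.comp (J'.pre (hm H 1) (h0 1)))) := by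
  refine eqvM_com_path hτ hN hR d (fun s => J.comp (J'.pre (hm H s) (h0 s))) fun f => ?_
  exact BH.comp_path J (fun s => J'.pre (hm H s) (h0 s))
    (fun g => hm_continuous H (J'.h g)) f

end H7c
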