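import Pool.Agent.H.MP_7b4a29_c.Osum
import Pool.Agent.H.MP_7b4a29_c.Hty
import Pool.Agent.H.MP_47f0a1_an.Base

/-!
# Homomorphisms and cycles given by families of maps
-/

open Filter Topology MeasureTheory H47

namespace H7c

section fam

variable (I : Ix) {P : Type} [CStarAlgebra P]
  {X : Type} [TopologicalSpace X] [CompactSpace X] {Y : Type} [TopologicalSpace Y] [CompactSpace Y]
  {W : Type} [TopologicalSpace W] [CompactSpace W]

/-- Homomorphisms are contractions. -/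
theorem famc_norm {P : Type} [CStarAlgebra P] {X : Type} [TopologicalSpace X] [CompactSpace X]
    (γ : C(X, ℂ) →⋆ₐ[ℂ] P) (f : C(X, ℂ)) : ‖γ f‖ ≤ ‖f‖ :=
  NonUnitalStarAlgHom.norm_apply_le γ f

theorem famc_bd (γ : C(X, ℂ) →⋆ₐ[ℂ] P) (g : I.L → C(X, Y)) (f : C(Y, ℂ)) :
    Bd (A := fun _ : I.L => P) (fun l => γ (f.comp (g l))) :=
  ⟨‖f‖, fun l => (famc_norm γ _).trans
    ((ContinuousMap.norm_le _ (norm_nonneg f)).2 fun x => f.norm_coe_le_norm (g l x))⟩

/-- The homomorphism `f ↦ (γ (f ∘ g l))_l`. -/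
noncomputable def fam (γ : C(X, ℂ) →⋆ₐ[ℂ] P) (g : I.L → C(X, Y)) : C(Y, ℂ) →⋆ₐ[ℂ] R1 I P where
  toFun f := cl I (fun l => γ (f.comp (g l)))
  map_one' := by
    have h : (fun l => γ ((1 : C(Y, ℂ)).comp (g l))) = fun _ : I.L => (1 : P) := by
      funext l
      rw [ContinuousMap.one_comp, map_one]
    rw [h]
    exact cl_one I
  map_mul' := by
    intro f f'
    have h : (fun l => γ ((f * f').comp (g l))) =
        fun l : I.L => γ (f.comp (g l)) * γ (f'.comp (g l)) := by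
      funext l
      rw [ContinuousMap.mul_comp, map_mul]
    rw [h]
    exact cl_mul I (famc_bd I γ g f) (famc_bd I γ g f')
  map_zero' := by
    have h : (fun l => γ ((0 : C(Y, ℂ)).comp (g l))) = fun _ : I.L => (0 : P) := by
      funext l
      rw [ContinuousMap.zero_comp, map_zero]
    rw [h]
    exact cl_zero I
  map_add' := by
    intro f f'
    have h : (fun l => γ ((f + f').comp (g l))) =
        fun l : I.L => γ (f.comp (g l)) + γ (f'.comp (g l)) := by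
      funext l
      rw [ContinuousMap.add_comp, map_add]
    rw [h]
    exact cl_add I (famc_bd I γ g f) (famc_bd I γ g f')
  commutes' := by
    intro r
    have h : (fun l => γ ((algebraMap ℂ C(Y, ℂ) r).comp (g l))) =
        fun _ : I.L => algebraMap ℂ P r := by
      funext l
      exact AlgHomClass.commutes γ r
    rw [h]
    exact cl_algebraMap I r
  map_star' := by
    intro f
    have h : (fun l => γ ((star f).comp (g l))) = fun l : I.L => star (γ (f.comp (g l))) := by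
      funext l
      exact map_star γ (f.comp (g l))
    rw [h]
    exact cl_star I (famc_bd I γ g f)

theorem fam_bd (γ : C(X, ℂ) →⋆ₐ[ℂ] P) (g : I.L → C(X, ℂ)) (hg : ∃ C : ℝ, ∀ l, ‖g l‖ ≤ C) :
    Bd (A := fun _ : I.L => P) (fun l => γ (g l)) := by
  obtain ⟨C, hC⟩ := hg
  exact ⟨C, fun l => (famc_norm γ _).trans (hC l)⟩

theorem fam_apply (γ : C(X, ℂ) →⋆ₐ[ℂ] P) (g : I.L → C(X, Y)) (f : C(Y, ℂ)) :
    fam I γ g f = cl I (fun l => γ (f.comp (g l))) := rfl

theorem fam_const (γ : C(X, ℂ) →⋆ₐ[ℂ] P) (f : C(X, ℂ)) :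
    fam I γ (fun _ => ContinuousMap.id X) f = cst I P (γ f) := by
  rw [fam_apply, cst_apply, ContinuousMap.comp_id]

theorem fam_comp (γ : C(X, ℂ) →⋆ₐ[ℂ] P) (g : I.L → C(X, Y)) (h : C(Y, W)) (f : C(W, ℂ)) :
    fam I γ (fun l => h.comp (g l)) f = fam I γ g (f.comp h) := by
  rfl

theorem fam_re {I' : Ix} (φ : IxHom I I') (γ : C(X, ℂ) →⋆ₐ[ℂ] P) (g : I.L → C(X, Y))
    (f : C(Y, ℂ)) : SQ.re φ (fam I γ g f) = fam I' γ (fun l => g (φ.f l)) f := by
  rw [fam_apply, fam_apply]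
  exact SQ.re_cl φ (famc_bd I γ g f)

theorem fam_mapR1 {P' : Type} [CStarAlgebra P'] (Φ : P →⋆ₐ[ℂ] P') (γ : C(X, ℂ) →⋆ₐ[ℂ] P)
    (g : I.L → C(X, Y)) (f : C(Y, ℂ)) : mapR1 I Φ (fam I γ g f) = fam I (Φ.comp γ) g f := by
  rw [fam_apply, fam_apply, cycf_mapR1_cl Φ (famc_bd I γ g f)]
  rfl

/-- `‖fam γ g f - fam γ g' f‖ ≤ ε` if `‖f ∘ g l - f ∘ g' l‖ ≤ ε` for all `l`. -/
theorem fam_dist (γ : C(X, ℂ) →⋆ₐ[ℂ] P) (g g' : I.L → C(X, Y)) (f : C(Y, ℂ)) (ε : ℝ)
    (hε : 0 ≤ ε) (h : ∀ l x, ‖f (g l x) - f (g' l x)‖ ≤ ε) : ‖fam I γ g f - fam I γ g' f‖ ≤ ε := by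
  rw [fam_apply, fam_apply, ← cl_sub I (famc_bd I γ g f) (famc_bd I γ g' f)]
  refine norm_cl_le I hε ((famc_bd I γ g f).sub (famc_bd I γ g' f))
    (Eventually.of_forall fun l => ?_)
  rw [← map_sub]
  refine (famc_norm γ _).trans ((ContinuousMap.norm_le _ hε).2 fun x => ?_)
  exact h l x

end fam

/-- Families of homotopies, equicontinuous in the parameter. -/
def Eqs {L : Type} {X Y : Type} [TopologicalSpace X] [TopologicalSpace Y]
    (H : L → C(unitInterval × X, Y)) : Prop :=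
  ∀ (f : C(Y, ℂ)) (ε : ℝ), 0 < ε → ∃ δ : ℝ, 0 < δ ∧ ∀ s s' : unitInterval,
    |(s : ℝ) - s'| ≤ δ → ∀ l x, ‖f (H l (s, x)) - f (H l (s', x))‖ ≤ ε

/-- A family of homotopies obtained from one homotopy: uniform continuity of `f ∘ H` (compactness of
`unitInterval × X`). -/
theorem Eqs.of_one {L X Y : Type} [TopologicalSpace X] [CompactSpace X] [TopologicalSpace Y]
    (H : C(unitInterval × X, Y)) : Eqs (fun _ : L => H) := by
  intro f ε hε
  have hc : UniformContinuous ((f.comp H).curry) :=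
    CompactSpace.uniformContinuous_of_continuous ((f.comp H).curry).continuous
  obtain ⟨δ, hδ, h⟩ := Metric.uniformContinuous_iff.1 hc ε hε
  refine ⟨δ / 2, half_pos hδ, fun s s' hss _ x => ?_⟩
  have h1 : dist s s' < δ := by
    rw [Subtype.dist_eq, Real.dist_eq]
    linarith
  have h2 := (h h1).le
  rw [← dist_eq_norm]
  exact (ContinuousMap.dist_apply_le_dist (f := (f.comp H).curry s)
    (g := (f.comp H).curry s') x).trans h2

theorem Eqs.pre {L X Y W : Type} [TopologicalSpace X] [TopologicalSpace Y] [TopologicalSpace W]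
    {H : L → C(unitInterval × X, Y)} (h : Eqs H) (g : L → C(W, X)) :
    Eqs (fun l => (H l).comp ⟨fun p => (p.1, g l p.2), by fun_prop⟩) := by
  intro f ε hε
  obtain ⟨δ, hδ, h1⟩ := h f ε hε
  exact ⟨δ, hδ, fun s s' hss l x => h1 s s' hss l (g l x)⟩

theorem Eqs.post {L X Y W : Type} [TopologicalSpace X] [TopologicalSpace Y] [TopologicalSpace W]
    {H : L → C(unitInterval × X, Y)} (h : Eqs H) (g : C(Y, W)) :
    Eqs (fun l => g.comp (H l)) := by
  intro f ε hε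
  obtain ⟨δ, hδ, h1⟩ := h (f.comp g) ε hε
  exact ⟨δ, hδ, fun s s' hss l x => h1 s s' hss l x⟩

section small

variable {X : Type} [TopologicalSpace X] [CompactSpace X] [MeasurableSpace X]
  {Y : Type} [TopologicalSpace Y] [CompactSpace Y] [T2Space Y] {y0 : Y}

omit [T2Space Y] in
theorem famc_sup {I : Ix} {P : Type} [CStarAlgebra P] (γ : C(X, ℂ) →⋆ₐ[ℂ] P)
    {ω : I.L → C(X, ℂ)} (hb : Bd (A := fun _ : I.L => P) (fun l => γ (ω l)))
    (g : I.L → C(X, Y)) (hs : ∀ l x, g l x ≠ y0 → ω l x = -1) (f : C(Y, ℂ)) :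
    cl I (fun l => γ (ω l)) * (fam I γ g f - algebraMap ℂ _ (f y0)) =
      -(fam I γ g f - algebraMap ℂ _ (f y0)) := by
  have hk : Bd (A := fun _ : I.L => P)
      (fun l => γ (f.comp (g l) - algebraMap ℂ C(X, ℂ) (f y0))) := by
    have h := (famc_bd I γ g f).sub (Bd.const (L := I.L) P (algebraMap ℂ P (f y0)))
    refine (congrArg (Bd (A := fun _ : I.L => P)) ?_).mp h
    funext l
    rw [map_sub, AlgHomClass.commutes]
  have h1 : fam I γ g f - algebraMap ℂ (R1 I P) (f y0) =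
      cl I (fun l => γ (f.comp (g l) - algebraMap ℂ C(X, ℂ) (f y0))) := by
    rw [← cl_algebraMap I, fam_apply, ← cl_sub I (famc_bd I γ g f) (Bd.const P _)]
    congr 1
    funext l
    rw [map_sub, AlgHomClass.commutes]
  rw [h1, ← cl_mul I hb hk, ← cl_neg I hk]
  congr 1
  funext l
  rw [← map_mul, ← map_neg]
  congr 1
  ext x
  by_cases hx : g l x = y0
  · have h2 : (f.comp (g l) - algebraMap ℂ C(X, ℂ) (f y0)) x = 0 := by
      change f (g l x) - f y0 = 0
      rw [hx, sub_self]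
    rw [ContinuousMap.mul_apply, ContinuousMap.neg_apply, h2, mul_zero, neg_zero]
  · rw [ContinuousMap.mul_apply, ContinuousMap.neg_apply, hs l x hx, neg_one_mul]

/-- Unitary functions which are `1` except on very small sets. -/
structure SmF (I : Ix) (μ : Measure X) (ω : I.L → C(X, ℂ)) : Prop where
  un : ∀ l x, star (ω l x) * ω l x = 1
  sm : ∃ C : ℝ, ∀ l, ∫ x, ‖ω l x - 1‖ ^ 2 ∂μ ≤ C * (1 / 2) ^ (I.w l)

variable {I : Ix} {P : Type} [CStarAlgebra P] {τ : P →ₗ[ℂ] ℂ} (hτ : PTr τ) {μ : Measure X}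
  (γ : C(X, ℂ) →⋆ₐ[ℂ] P) (hγ : ∀ f, τ (γ f) = ∫ x, f x ∂μ)

include hτ hγ

omit hτ hγ in
theorem famc_ubd {ω : I.L → C(X, ℂ)} (hω : SmF I μ ω) :
    Bd (A := fun _ : I.L => P) (fun l => γ (ω l)) := by
  refine fam_bd I γ ω ⟨1, fun l => (ContinuousMap.norm_le _ zero_le_one).2 fun x => ?_⟩
  have h := congrArg norm (hω.un l x)
  rw [norm_mul, norm_star, norm_one] at h
  nlinarith [norm_nonneg (ω l x)]

/-- The class of the unitaries: `nsq (γ (ω - 1)) = ∫ |ω - 1|²`, `IsJ.of_two_pow`. -/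
theorem SmF.zeta {ω : I.L → C(X, ℂ)} (hω : SmF I μ ω) :
    star (cl I (fun l => γ (ω l))) * cl I (fun l => γ (ω l)) = 1 ∧
    cl I (fun l => γ (ω l)) * star (cl I (fun l => γ (ω l))) = 1 ∧
    J1 I τ (cl I (fun l => γ (ω l)) - 1) := by
  have hb := famc_ubd γ hω
  have hu : ∀ l, star (ω l) * ω l = 1 := fun l => ContinuousMap.ext (hω.un l)
  refine ⟨?_, ?_, ?_⟩
  · rw [← cl_star I hb, ← cl_mul I hb.star hb, ← cl_one I]
    congr 1
    funext l
    rw [← map_star, ← map_mul, hu, map_one]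
  · rw [← cl_star I hb, ← cl_mul I hb hb.star, ← cl_one I]
    congr 1
    funext l
    rw [← map_star, ← map_mul, mul_comm, hu, map_one]
  · have h1 : cl I (fun l => γ (ω l)) - 1 = cl I (fun l => γ (ω l) - (1 : P)) := by
      rw [cl_sub I hb Bd.one, cl_one]
    rw [h1]
    obtain ⟨C, hC⟩ := hω.sm
    refine IsJ.of_two_pow I (fun _ => hτ) (hb.sub Bd.one) C (Eventually.of_forall fun l => ?_)
    refine le_trans (le_of_eq ?_) (hC l)
    have h2 : γ (ω l) - (1 : P) = γ (ω l - 1) := by rw [map_sub, map_one]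
    rw [h2]
    unfold nsq
    rw [← map_star, ← map_mul, hγ]
    have h3 : ∀ x, (star (ω l - 1) * (ω l - 1)) x = ((‖ω l x - 1‖ ^ 2 : ℝ) : ℂ) := by
      intro x
      rw [ContinuousMap.mul_apply, ContinuousMap.star_apply, ContinuousMap.sub_apply,
        ContinuousMap.one_apply, mul_comm, Complex.star_def, Complex.mul_conj,
        Complex.normSq_eq_norm_sq]
    rw [integral_congr_ae (Eventually.of_forall h3), integral_complex_ofReal, Complex.ofReal_re]

/-- The cycle of a family of maps `g l` with small supports: `κ = fam γ g`, `ζ = cl (γ (ω l))`. -/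
theorem exists_colCyc {ω : I.L → C(X, ℂ)} (hω : SmF I μ ω) (g : I.L → C(X, Y))
    (hs : ∀ l x, g l x ≠ y0 → ω l x = -1) :
    ∃ c : C1 I τ Y y0, (∀ f, c.κ f = fam I γ g f) ∧ c.ζ = cl I (fun l => γ (ω l)) := by
  obtain ⟨h1, h2, h3⟩ := hω.zeta hτ γ hγ
  exact ⟨⟨fam I γ g, cl I (fun l => γ (ω l)), h1, h2, h3,
    fun f => famc_sup γ (famc_ubd γ hω) g hs f⟩, fun _ => rfl, rfl⟩

/-- A family of homotopies with small supports gives a path. -/
theorem exists_colPth {ω : I.L → C(X, ℂ)} (hω : SmF I μ ω) (G : I.L → C(unitInterval × X, Y))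
    (hs : ∀ l s x, G l (s, x) ≠ y0 → ω l x = -1) (hG : Eqs G) :
    ∃ p : Pth (J1 I τ) Y y0, (∀ s f, p.k s f = fam I γ (fun l => hm (G l) s) f) ∧
      p.ζ = cl I (fun l => γ (ω l)) := by
  obtain ⟨h1, h2, h3⟩ := hω.zeta hτ γ hγ
  refine ⟨⟨fun s => fam I γ (fun l => hm (G l) s), cl I (fun l => γ (ω l)), h1, h2, h3,
    fun s f => famc_sup γ (famc_ubd γ hω) _ (fun l x => hs l s x) f, fun f => ?_⟩,
    fun _ _ => rfl, rfl⟩
  rw [Metric.continuous_iff]
  intro s ε hε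
  obtain ⟨δ, hδ, h⟩ := hG f (ε / 2) (half_pos hε)
  refine ⟨δ, hδ, fun s' hs' => ?_⟩
  rw [Subtype.dist_eq, Real.dist_eq] at hs'
  rw [dist_eq_norm]
  refine lt_of_le_of_lt (fam_dist I γ _ _ f (ε / 2) (half_pos hε).le fun l x => ?_)
    (half_lt_self hε)
  exact h s' s hs'.le l x

/-- Cycles with the `κ` of the ends are equivalent (`Rel2`). -/
theorem eqv_colPth {ω : I.L → C(X, ℂ)} (hω : SmF I μ ω) (G : I.L → C(unitInterval × X, Y))
    (hs : ∀ l s x, G l (s, x) ≠ y0 → ω l x = -1) (hG : Eqs G) (c c' : C1 I τ Y y0)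
    (hc : ∀ f, c.κ f = fam I γ (fun l => hm (G l) 0) f)
    (hc' : ∀ f, c'.κ f = fam I γ (fun l => hm (G l) 1) f) : Eqv c c' := by
  obtain ⟨p, hp, -⟩ := exists_colPth hτ γ hγ hω G hs hG
  exact Eqv.rel2 ⟨p, fun f => by rw [hp, hc], fun f => by rw [hp, hc']⟩

end small

end H7c
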