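import Pool.Agent.H.MP_47f0a1_an.FinalB
import Pool.Agent.H.MP_7b4a29_an.Gen

/-!
# Homomorphisms and automorphisms of `C(Z) * C([0,1])^{*∞}`
-/

open MeasureTheory H47

namespace H7c

section relabel

variable {Z : Type} [MetricSpace Z] [CompactSpace Z] [MeasurableSpace Z] [BorelSpace Z]
  {μ : Measure Z} [IsProbabilityMeasure μ]
  {P : Type} [CStarAlgebra P] {tr : P →ₗ[ℂ] ℂ}
  {inc : C(Z, ℂ) →⋆ₐ[ℂ] P} {kap : ℕ → C(unitInterval, ℂ) →⋆ₐ[ℂ] P}

/-- The closed subalgebra generated by `C(Z)` and the copies with labels in `L`. -/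
noncomputable def PL (inc : C(Z, ℂ) →⋆ₐ[ℂ] P) (kap : ℕ → C(unitInterval, ℂ) →⋆ₐ[ℂ] P)
    (L : Set ℕ) : StarSubalgebra ℂ P :=
  (inc.range ⊔ ⨆ i : L, (kap i).range).topologicalClosure

theorem PL_inc (L : Set ℕ) (f : C(Z, ℂ)) : inc f ∈ PL inc kap L :=
  StarSubalgebra.le_topologicalClosure _
    ((le_sup_left : inc.range ≤ inc.range ⊔ ⨆ i : L, (kap i).range) ⟨f, rfl⟩)

theorem PL_kap {L : Set ℕ} {j : ℕ} (hj : j ∈ L) (f : C(unitInterval, ℂ)) :
    kap j f ∈ PL inc kap L :=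
  StarSubalgebra.le_topologicalClosure _
    ((le_sup_right : (⨆ i : L, (kap i).range) ≤ inc.range ⊔ ⨆ i : L, (kap i).range)
      ((le_iSup (fun i : L => (kap i).range) ⟨j, hj⟩) ⟨f, rfl⟩))

theorem PL_closed (L : Set ℕ) : IsClosed (PL inc kap L : Set P) :=
  StarSubalgebra.isClosed_topologicalClosure _

/-- `PL L` is the smallest closed star subalgebra that contains the generators. -/
theorem fina_PL_le (L : Set ℕ) (T : StarSubalgebra ℂ P) (hT : IsClosed (T : Set P))
    (h1 : ∀ f, inc f ∈ T) (h2 : ∀ j ∈ L, ∀ f, kap j f ∈ T) : PL inc kap L ≤ T := by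
  refine StarSubalgebra.topologicalClosure_minimal (sup_le ?_ (iSup_le ?_)) hT
  · rintro x ⟨f, rfl⟩
    exact h1 f
  · rintro ⟨j, hj⟩ x ⟨f, rfl⟩
    exact h2 j hj f

theorem PL_univ (h : IsPZ μ tr inc kap) (x : P) : x ∈ PL inc kap Set.univ := by
  have h1 : (⨆ i, famZ inc kap i) ≤ PL inc kap Set.univ :=
    pz_iSup_le_adjoin inc kap _ (fun f => PL_inc _ f) (fun j f => PL_kap (Set.mem_univ j) f)
  have h2 := StarSubalgebra.topologicalClosure_minimal h1 (PL_closed (inc := inc) (kap := kap) _)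
  rw [h.rfp.gen] at h2
  exact h2 StarSubalgebra.mem_top

/-- The members: `PL L` and the copies with labels outside `L`. -/
noncomputable def famL (inc : C(Z, ℂ) →⋆ₐ[ℂ] P) (kap : ℕ → C(unitInterval, ℂ) →⋆ₐ[ℂ] P)
    (L : Set ℕ) : Option {k : ℕ // k ∉ L} → StarSubalgebra ℂ P
  | none => PL inc kap L
  | some k => (kap k).range

/-- They are free: `free_group` for `famZ inc kap` and the map `Option ℕ → Option {k // k ∉ L}`
(`none`, and the labels in `L`, go to `none`), `free_closure`, `free_mono`. -/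
theorem free_famL (h : IsPZ μ tr inc kap) (L : Set ℕ) : IsFree tr (famL inc kap L) := by
  classical
  let e : Option ℕ → Option {k : ℕ // k ∉ L} := fun o =>
    match o with
    | none => none
    | some j => if hj : j ∈ L then none else some ⟨j, hj⟩
  have e0 : e none = none := rfl
  have e1 : ∀ j, j ∈ L → e (some j) = none := fun j hj => dif_pos hj
  have e2 : ∀ (j : ℕ) (hj : j ∉ L), e (some j) = some ⟨j, hj⟩ := fun j hj => dif_neg hj
  have hf := free_closure tr h.rfp.st.one h.rfp.st.continuous _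
    (free_group tr h.rfp.st.one (famZ inc kap) e h.rfp.free)
  refine free_mono tr _ _ ?_ hf
  rintro (_ | ⟨k, hk⟩)
  · refine fina_PL_le L _ (StarSubalgebra.isClosed_topologicalClosure _) (fun f => ?_)
      (fun j hj f => ?_)
    · exact StarSubalgebra.le_topologicalClosure _
        ((le_iSup (fun i : {i // e i = none} => famZ inc kap i.1) ⟨none, e0⟩) ⟨f, rfl⟩)
    · exact StarSubalgebra.le_topologicalClosure _
        ((le_iSup (fun i : {i // e i = none} => famZ inc kap i.1) ⟨some j, e1 j hj⟩) ⟨f, rfl⟩)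
  · rintro x ⟨f, rfl⟩
    exact StarSubalgebra.le_topologicalClosure _
      ((le_iSup (fun i : {i // e i = some ⟨k, hk⟩} => famZ inc kap i.1) ⟨some k, e2 k hk⟩)
        ⟨f, rfl⟩)

theorem gen_famL (h : IsPZ μ tr inc kap) (L : Set ℕ) :
    (⨆ i, famL inc kap L i).topologicalClosure = ⊤ := by
  refine top_unique ?_
  rw [← h.rfp.gen]
  refine StarSubalgebra.topologicalClosure_mono
    (pz_iSup_le_adjoin inc kap _ (fun f => ?_) (fun j f => ?_))
  · exact (le_iSup (famL inc kap L) none) (PL_inc L f)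
  · by_cases hj : j ∈ L
    · exact (le_iSup (famL inc kap L) none) (PL_kap hj f)
    · exact (le_iSup (famL inc kap L) (some ⟨j, hj⟩)) ⟨f, rfl⟩

theorem fina_continuous {P P' : Type} [CStarAlgebra P] [CStarAlgebra P'] (Φ : P →⋆ₐ[ℂ] P') :
    Continuous Φ :=
  AddMonoidHomClass.continuous_of_bound Φ 1 (fun x => by
    rw [one_mul]
    exact NonUnitalStarAlgHom.norm_apply_le Φ x)

/-- A homomorphism into `PL` is determined by generators. Images: if `Φ inc`, `Φ kap` are in a closed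
star subalgebra then so is `Φ x`. -/
theorem map_mem_of_gen (h : IsPZ μ tr inc kap) {P' : Type} [CStarAlgebra P'] (Φ : P →⋆ₐ[ℂ] P')
    (T : StarSubalgebra ℂ P') (hT : IsClosed (T : Set P')) (h1 : ∀ f, Φ (inc f) ∈ T)
    (h2 : ∀ j f, Φ (kap j f) ∈ T) (x : P) : Φ x ∈ T := by
  have h3 : PL inc kap Set.univ ≤ T.comap Φ :=
    fina_PL_le Set.univ _ (hT.preimage (fina_continuous Φ)) h1 (fun j _ f => h2 j f)
  exact h3 (PL_univ h x)

/-- Existence of homomorphisms into algebras with a faithful tracial state. -/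
theorem fina_hom (h : IsPZ μ tr inc kap) {P' : Type} [CStarAlgebra P'] {tr' : P' →ₗ[ℂ] ℂ}
    (h' : IsFT tr') (b : C(Z, ℂ) →⋆ₐ[ℂ] P') (κ : ℕ → C(unitInterval, ℂ) →⋆ₐ[ℂ] P')
    (hfree : IsFree tr' (famZ b κ)) (tb : ∀ f, tr' (b f) = intL μ f)
    (tκ : ∀ j f, tr' (κ j f) = ∫ x, f x) :
    ∃ Φ : P →⋆ₐ[ℂ] P', (∀ f, Φ (inc f) = b f) ∧ (∀ j f, Φ (kap j f) = κ j f) ∧
      (∀ x, tr' (Φ x) = tr x) ∧ ∀ x, ‖Φ x‖ = ‖x‖ := by
  let Γ : Option ℕ → StarSubalgebra ℂ (P × P') := fun o =>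
    match o with
    | none => (inc.prod b).range
    | some j => ((kap j).prod (κ j)).range
  obtain ⟨Φ, hΦ, hΦ2, hΦ3⟩ := univ_hom tr tr' h.rfp.st h'.st h.ft.faithful h'.faithful Γ
    (free_comp tr (StarAlgHom.fst ℂ P P') _ (famZ inc kap) (by
      rintro (_ | j) x ⟨a, rfl⟩
      · exact ⟨a, rfl⟩
      · exact ⟨a, rfl⟩) h.rfp.free _ (fun x => rfl))
    (free_comp tr' (StarAlgHom.snd ℂ P P') _ (famZ b κ) (by
      rintro (_ | j) x ⟨a, rfl⟩
      · exact ⟨a, rfl⟩
      · exact ⟨a, rfl⟩) hfree _ (fun x => rfl))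
    (by
      rintro (_ | j) z ⟨a, rfl⟩
      · change tr (inc a) = tr' (b a)
        rw [h.tr_inc, tb]
      · change tr (kap j a) = tr' (κ j a)
        rw [h.tr_kap, tκ])
    (by
      intro x
      have hle : (⨆ i, famZ inc kap i) ≤ (⨆ i, Γ i).map (StarAlgHom.fst ℂ P P') := by
        refine pz_iSup_le_adjoin inc kap _ (fun a => ?_) (fun j f => ?_)
        · refine ⟨(inc a, b a), ?_, rfl⟩
          exact (le_iSup Γ none) ⟨a, rfl⟩
        · refine ⟨(kap j f, κ j f), ?_, rfl⟩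
          exact (le_iSup Γ (some j)) ⟨f, rfl⟩
      have hx : x ∈ (⨆ i, famZ inc kap i).topologicalClosure := by
        rw [h.rfp.gen]
        trivial
      exact closure_mono hle hx)
  refine ⟨Φ, fun a => ?_, fun j f => ?_, hΦ2, hΦ3⟩
  · exact hΦ none (inc a, b a) ⟨a, rfl⟩
  · exact hΦ (some j) (kap j f, κ j f) ⟨f, rfl⟩

/-- Relabelling: `univ_ranges` for the families `famZ inc kap` and its reindexed family. -/
theorem exists_relabel (h : IsPZ μ tr inc kap) (g : ℕ → ℕ) (hg : Function.Injective g) :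
    ∃ N : P →⋆ₐ[ℂ] P, (∀ f, N (inc f) = inc f) ∧ (∀ j f, N (kap j f) = kap (g j) f) ∧
      (∀ x, tr (N x) = tr x) ∧ (∀ x, ‖N x‖ = ‖x‖) ∧ ∀ x, N x ∈ PL inc kap (Set.range g) := by
  have hf : IsFree tr (famZ inc fun j => kap (g j)) := by
    have h1 := free_reindex tr (famZ inc kap) (Option.map g) (Option.map_injective hg) h.rfp.free
    refine free_mono tr _ _ ?_ h1
    rintro (_ | j)
    · exact le_rfl
    · exact le_rfl
  obtain ⟨N, h1, h2, h3, h4⟩ := fina_hom h h.ft inc (fun j => kap (g j)) hf h.tr_inc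
    (fun j f => h.tr_kap (g j) f)
  refine ⟨N, h1, h2, h3, h4, ?_⟩
  refine map_mem_of_gen h N _ (PL_closed _) (fun f => ?_) (fun j f => ?_)
  · rw [h1]
    exact PL_inc _ f
  · rw [h2]
    exact PL_kap (Set.mem_range_self j) f

/-- The endomorphism which is conjugation by `u` on `PL L` and the identity on the other copies. -/
theorem fina_conj (h : IsPZ μ tr inc kap) (L : Set ℕ) (u : P) (hu : u ∈ PL inc kap L)
    (h1 : star u * u = 1) (h2 : u * star u = 1) :
    ∃ Φ : P →⋆ₐ[ℂ] P, (∀ x ∈ PL inc kap L, Φ x = u * x * star u) ∧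
      ∀ k, k ∉ L → ∀ f, Φ (kap k f) = kap k f := by
  let θ : Option {k : ℕ // k ∉ L} → (P →⋆ₐ[ℂ] P) := fun i =>
    match i with
    | none => aut_conj u h1 h2
    | some _ => StarAlgHom.id ℂ P
  obtain ⟨Φ, hΦ⟩ := aut_univ tr h.ft (famL inc kap L) (free_famL h L) (gen_famL h L) θ
    (by
      intro i x hx
      match i, hx with
      | none, hx => exact mul_mem (mul_mem hu hx) (star_mem hu)
      | some j, hx => exact hx)
    (by
      intro i x hx
      match i, hx with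
      | none, hx =>
        show tr (u * x * star u) = tr x
        rw [h.ft.tr, ← mul_assoc, h1, one_mul]
      | some j, hx => rfl)
  refine ⟨Φ, fun x hx => ?_, fun k hk f => ?_⟩
  · exact hΦ none x hx
  · exact hΦ (some ⟨k, hk⟩) (kap k f) ⟨f, rfl⟩

/-- Conjugation by a unitary of `PL L`, and the identity on the copies with labels outside `L`; the proof
is that of `H47.FModel.exists_aut` (`aut_univ`, `hom_ext_gen`). -/
theorem exists_autL (h : IsPZ μ tr inc kap) (L : Set ℕ) (u : P) (hu : u ∈ PL inc kap L)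
    (h1 : star u * u = 1) (h2 : u * star u = 1) :
    ∃ A : P ≃⋆ₐ[ℂ] P, (∀ x ∈ PL inc kap L, A x = u * x * star u) ∧
      ∀ k, k ∉ L → ∀ f, A (kap k f) = kap k f := by
  have hu' : star u ∈ PL inc kap L := star_mem hu
  obtain ⟨Φ, hΦ, hΦ'⟩ := fina_conj h L u hu h1 h2
  obtain ⟨Ψ, hΨ, hΨ'⟩ := fina_conj h L (star u) hu' (by rw [star_star]; exact h2)
    (by rw [star_star]; exact h1)
  have e1 : Ψ.comp Φ = StarAlgHom.id ℂ P := by
    refine hom_ext_gen (famL inc kap L) (gen_famL h L) _ _ ?_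
    rintro (_ | ⟨k, hk⟩) x hx
    · show Ψ (Φ x) = x
      rw [hΦ x hx, hΨ _ (mul_mem (mul_mem hu hx) hu'), star_star]
      calc star u * (u * x * star u) * u = (star u * u) * x * (star u * u) := by
            simp only [mul_assoc]
        _ = x := by rw [h1, one_mul, mul_one]
    · obtain ⟨f, rfl⟩ := hx
      show Ψ (Φ (kap k f)) = kap k f
      rw [hΦ' k hk, hΨ' k hk]
  have e2 : Φ.comp Ψ = StarAlgHom.id ℂ P := by
    refine hom_ext_gen (famL inc kap L) (gen_famL h L) _ _ ?_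
    rintro (_ | ⟨k, hk⟩) x hx
    · show Φ (Ψ x) = x
      rw [hΨ x hx, hΦ _ (mul_mem (mul_mem hu' hx) (by rw [star_star]; exact hu)), star_star]
      calc u * (star u * x * u) * star u = (u * star u) * x * (u * star u) := by
            simp only [mul_assoc]
        _ = x := by rw [h2, one_mul, mul_one]
    · obtain ⟨f, rfl⟩ := hx
      show Φ (Ψ (kap k f)) = kap k f
      rw [hΨ' k hk, hΦ' k hk]
  exact ⟨StarAlgEquiv.ofStarAlgHom Φ Ψ e1 e2, hΦ, hΦ'⟩

/-- A permutation of the labels with prescribed values on an initial segment. By induction on `m`: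
compose with a transposition. -/
theorem exists_perm_of (g : ℕ → ℕ) (hg : Function.Injective g) (m : ℕ) :
    ∃ π : Equiv.Perm ℕ, ∀ j < m, π j = g j := by
  induction m with
  | zero => exact ⟨1, fun j hj => absurd hj (Nat.not_lt_zero j)⟩
  | succ m ih =>
    obtain ⟨π, hπ⟩ := ih
    refine ⟨π.trans (Equiv.swap (π m) (g m)), fun j hj => ?_⟩
    rw [Equiv.trans_apply]
    rcases Nat.lt_succ_iff_lt_or_eq.1 hj with hj | rfl
    · rw [Equiv.swap_apply_of_ne_of_ne, hπ j hj]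
      · intro h1
        exact hj.ne (π.injective h1)
      · rw [hπ j hj]
        intro h1
        exact hj.ne (hg h1)
    · exact Equiv.swap_apply_left _ _

theorem exists_autP (h : IsPZ μ tr inc kap) (g : ℕ → ℕ) (hg : Function.Injective g) (m : ℕ) :
    ∃ A : P ≃⋆ₐ[ℂ] P, (∀ f, A (inc f) = inc f) ∧ ∀ j < m, ∀ f, A (kap j f) = kap (g j) f := by
  obtain ⟨π, hπ⟩ := exists_perm_of g hg m
  obtain ⟨N, a1, a2, -⟩ := exists_relabel h π π.injective
  obtain ⟨N', b1, b2, -⟩ := exists_relabel h π.symm π.symm.injective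
  have e1 : N'.comp N = StarAlgHom.id ℂ P := by
    refine pz_hom_ext h _ _ (fun f => ?_) (fun j f => ?_)
    · rw [StarAlgHom.comp_apply, a1, b1]
      rfl
    · rw [StarAlgHom.comp_apply, a2, b2, Equiv.symm_apply_apply]
      rfl
  have e2 : N.comp N' = StarAlgHom.id ℂ P := by
    refine pz_hom_ext h _ _ (fun f => ?_) (fun j f => ?_)
    · rw [StarAlgHom.comp_apply, b1, a1]
      rfl
    · rw [StarAlgHom.comp_apply, b2, a2, Equiv.apply_symm_apply]
      rfl
  refine ⟨StarAlgEquiv.ofStarAlgHom N N' e1 e2, a1, fun j hj f => ?_⟩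
  have h1 := a2 j f
  rw [hπ j hj] at h1
  exact h1

end relabel

section hom

variable {Z : Type} [MetricSpace Z] [CompactSpace Z] [MeasurableSpace Z] [BorelSpace Z]
  {μ : Measure Z} [IsProbabilityMeasure μ]
  {P : Type} [CStarAlgebra P] {tr : P →ₗ[ℂ] ℂ}
  {inc : C(Z, ℂ) →⋆ₐ[ℂ] P} {kap : ℕ → C(unitInterval, ℂ) →⋆ₐ[ℂ] P}
  {Z' : Type} [MetricSpace Z'] [CompactSpace Z'] [MeasurableSpace Z'] [BorelSpace Z']
  {μ' : Measure Z'} [IsProbabilityMeasure μ']
  {P' : Type} [CStarAlgebra P'] {tr' : P' →ₗ[ℂ] ℂ}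
  {inc' : C(Z', ℂ) →⋆ₐ[ℂ] P'} {kap' : ℕ → C(unitInterval, ℂ) →⋆ₐ[ℂ] P'}

/-- Homomorphisms `P → P'`: on `C(Z)` it is `b`, with values in `PL L`, and the `j`-th copy goes to the copy
with the label `g j ∉ L`.

Proof. `univ_ranges` for `famZ inc kap` and the family `b`, `kap' (g j)`; the freeness of the latter from
`free_famL` (`free_reindex`, `free_mono`). -/
theorem exists_homL (h : IsPZ μ tr inc kap) (h' : IsPZ μ' tr' inc' kap') (L : Set ℕ)
    (b : C(Z, ℂ) →⋆ₐ[ℂ] P') (hb : ∀ f, b f ∈ PL inc' kap' L) (tb : ∀ f, tr' (b f) = intL μ f)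
    (g : ℕ → ℕ) (hg : Function.Injective g) (hgL : ∀ j, g j ∉ L) :
    ∃ Φ : P →⋆ₐ[ℂ] P', (∀ f, Φ (inc f) = b f) ∧ (∀ j f, Φ (kap j f) = kap' (g j) f) ∧
      (∀ x, tr' (Φ x) = tr x) ∧ ∀ x, ‖Φ x‖ = ‖x‖ := by
  refine fina_hom h h'.ft b (fun j => kap' (g j)) ?_ tb (fun j f => h'.tr_kap (g j) f)
  let e : Option ℕ → Option {k : ℕ // k ∉ L} := Option.map fun j => ⟨g j, hgL j⟩
  have he : Function.Injective e := by
    refine Option.map_injective fun i j hij => hg ?_
    exact congrArg Subtype.val hij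
  refine free_mono tr' _ _ ?_ (free_reindex tr' (famL inc' kap' L) e he (free_famL h' L))
  rintro (_ | j)
  · rintro x ⟨f, rfl⟩
    exact hb f
  · exact le_rfl

end hom

end H7c
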