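import Pool.Agent.H.MP_7b4a29_c.FinA

/-!
# The final intertwining
-/

open MeasureTheory H47

namespace H7c

variable {Z : Type} [MetricSpace Z] [CompactSpace Z] [MeasurableSpace Z] [BorelSpace Z]
  {μ : Measure Z} [IsProbabilityMeasure μ]
  {P : Type} [CStarAlgebra P] {tr : P →ₗ[ℂ] ℂ}
  {inc : C(Z, ℂ) →⋆ₐ[ℂ] P} {kap : ℕ → C(unitInterval, ℂ) →⋆ₐ[ℂ] P}
  {Z' : Type} [MetricSpace Z'] [CompactSpace Z'] [MeasurableSpace Z'] [BorelSpace Z']
  {μ' : Measure Z'} [IsProbabilityMeasure μ']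
  {P' : Type} [CStarAlgebra P'] {tr' : P' →ₗ[ℂ] ℂ}
  {inc' : C(Z', ℂ) →⋆ₐ[ℂ] P'} {kap' : ℕ → C(unitInterval, ℂ) →⋆ₐ[ℂ] P'}

/-- The property which is provided by the theorem `core`. -/
def CoreP (tr : P →ₗ[ℂ] ℂ) (inc : C(Z, ℂ) →⋆ₐ[ℂ] P) (kap : ℕ → C(unitInterval, ℂ) →⋆ₐ[ℂ] P)
    (tr' : P' →ₗ[ℂ] ℂ) (inc' : C(Z', ℂ) →⋆ₐ[ℂ] P') (kap' : ℕ → C(unitInterval, ℂ) →⋆ₐ[ℂ] P')
    (α : C(Z', ℂ) →⋆ₐ[ℂ] P) (β : C(Z, ℂ) →⋆ₐ[ℂ] P') : Prop :=
  ∀ (Ψ : P →⋆ₐ[ℂ] P') (N : P' →⋆ₐ[ℂ] P') (j' : ℕ),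
    (∀ x, tr' (Ψ x) = tr x) → (∀ x, tr' (N x) = tr' x) → (∀ f, N (inc' f) = inc' f) →
    (∀ f, Ψ (inc f) = N (β f)) → (∀ f, Ψ (kap 0 f) = kap' j' f) →
    ∀ (F : Finset C(Z', ℂ)) (ε : ℝ), 0 < ε →
      ∃ u : P', star u * u = 1 ∧ u * star u = 1 ∧
        ∀ f ∈ F, ‖u * inc' f - Ψ (α f) * u‖ ≤ ε

variable {α : C(Z', ℂ) →⋆ₐ[ℂ] P} {β : C(Z, ℂ) →⋆ₐ[ℂ] P'}

theorem finb_l_inj : Function.Injective fun k : ℕ => 4 * (k / 3) + k % 3 := by
  intro a b hab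
  simp only at hab
  omega

theorem finb_l_range : Set.range (fun k : ℕ => 4 * (k / 3) + k % 3) = {k | k % 4 ≠ 3} := by
  ext k
  simp only [Set.mem_range, Set.mem_ofPred_eq]
  constructor
  · rintro ⟨j, rfl⟩
    omega
  · intro hk
    exact ⟨3 * (k / 4) + k % 4, by omega⟩

theorem finb_g1_inj : Function.Injective fun k : ℕ => 3 * (2 * k / 4) + 2 * k % 4 := by
  intro a b hab
  simp only at hab
  omega

theorem finb_g2_inj : Function.Injective fun j : ℕ => 3 * j + 1 := by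
  intro a b hab
  simp only at hab
  omega

theorem finb_two_inj : Function.Injective fun j : ℕ => 2 * j := by
  intro a b hab
  simp only at hab
  omega

theorem finb_odd_inj : Function.Injective fun j : ℕ => 2 * j + 1 := by
  intro a b hab
  simp only at hab
  omega

theorem finb_four_inj : Function.Injective fun j : ℕ => 4 * j + 3 := by
  intro a b hab
  simp only at hab
  omega

theorem finb_norm_le {A : Type*} [CStarAlgebra A] (u x y : A) (h1 : star u * u = 1)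
    (h2 : u * star u = 1) (ε : ℝ) (h : ‖u * x - y * u‖ ≤ ε) : ‖y - u * x * star u‖ ≤ ε := by
  have h5 : ‖u‖ ≤ 1 := by
    have h6 : ‖u‖ * ‖u‖ ≤ 1 := by
      rw [← CStarRing.norm_star_mul_self, h1]
      rcases subsingleton_or_nontrivial A with hA | hA
      · have : (1 : A) = 0 := Subsingleton.elim _ _
        rw [this, norm_zero]
        exact zero_le_one
      · exact CStarRing.norm_one.le
    nlinarith [norm_nonneg u]
  have h7 : y - u * x * star u = -(u * x - y * u) * star u := by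
    rw [neg_mul, sub_mul, mul_assoc y, h2, mul_one, neg_sub]
  rw [h7]
  refine (norm_mul_le _ _).trans ?_
  rw [norm_neg, norm_star]
  have h8 := norm_nonneg (u * x - y * u)
  calc ‖u * x - y * u‖ * ‖u‖ ≤ ‖u * x - y * u‖ * 1 := mul_le_mul_of_nonneg_left h5 h8
    _ ≤ ε := by rw [mul_one]; exact h

/-- The unitary can be chosen in the algebra with labels `k` with `k % 4 ≠ 3`.

Proof. Let `l k = 4 * (k / 3) + k % 3` (injective, with range `L = {k | k % 4 ≠ 3}`), and let `Nl` be the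
relabelling of `P'` by `l` (`exists_relabel`), `N` the relabelling of `P'` by
`g₁ k = 3 * (2 * k / 4) + 2 * k % 4` (`l (g₁ k) = 2 * k`) and `g₂ j = 3 * j + 1` (`l (g₂ j) = 4 * j + 1`; the ranges of
`g₁`, `g₂` are disjoint). `exists_homL` gives `Ψ₃ : P → P'` with `Ψ₃ ∘ inc = N ∘ β` (values in
`PL (range g₁)`), `Ψ₃ ∘ kap j = kap' (g₂ j)`. By `pz_hom_ext`, `Nl ∘ Ψ₃ = Ψ ∘ N₂` (`Nl ∘ N = N₂'` also by
`pz_hom_ext`). Take `u₃` from `hc` for `Ψ₃`, `N`, and `u = Nl u₃`. -/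
theorem fin_u (h : IsPZ μ tr inc kap) (h' : IsPZ μ' tr' inc' kap')
    (tβ : ∀ f, tr' (β f) = intL μ f) (hc : CoreP tr inc kap tr' inc' kap' α β)
    (N₂ : P →⋆ₐ[ℂ] P) (hN1 : ∀ f, N₂ (inc f) = inc f) (hN2 : ∀ j f, N₂ (kap j f) = kap (2 * j) f)
    (N₂' : P' →⋆ₐ[ℂ] P') (hN1' : ∀ f, N₂' (inc' f) = inc' f)
    (hN2' : ∀ j f, N₂' (kap' j f) = kap' (2 * j) f)
    (Ψ : P →⋆ₐ[ℂ] P') (hΨ1 : ∀ f, Ψ (inc f) = N₂' (β f))
    (hΨ2 : ∀ j f, Ψ (kap j f) = kap' (2 * j + 1) f) (F : Finset C(Z', ℂ)) (ε : ℝ) (hε : 0 < ε) :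
    ∃ u ∈ PL inc' kap' {k | k % 4 ≠ 3}, star u * u = 1 ∧ u * star u = 1 ∧
      ∀ f ∈ F, ‖u * inc' f - Ψ (N₂ (α f)) * u‖ ≤ ε := by
  obtain ⟨Nl, l1, l2, l3, l4, l5⟩ := exists_relabel h' _ finb_l_inj
  obtain ⟨N, n1, n2, n3, n4, n5⟩ := exists_relabel h' _ finb_g1_inj
  obtain ⟨Ψ₃, p1, p2, p3, p4⟩ := exists_homL h h'
    (Set.range fun k : ℕ => 3 * (2 * k / 4) + 2 * k % 4) (N.comp β) (fun f => n5 (β f))
    (fun f => by
      change tr' (N (β f)) = intL μ f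
      rw [n3, tβ]) _ finb_g2_inj (by
      rintro j ⟨k, hk⟩
      simp only at hk
      omega)
  obtain ⟨u, u1, u2, u3⟩ := hc Ψ₃ N 1 p3 n3 n1 p1 (fun f => p2 0 f) F ε hε
  have e1 : Nl.comp N = N₂' := by
    refine pz_hom_ext h' _ _ (fun f => ?_) (fun j f => ?_)
    · change Nl (N (inc' f)) = N₂' (inc' f)
      rw [n1, l1, hN1']
    · change Nl (N (kap' j f)) = N₂' (kap' j f)
      rw [n2, l2, hN2']
      congr 1
      have : 4 * ((3 * (2 * j / 4) + 2 * j % 4) / 3) + (3 * (2 * j / 4) + 2 * j % 4) % 3 = 2 * j := by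
        omega
      rw [this]
  have e2 : Nl.comp Ψ₃ = Ψ.comp N₂ := by
    refine pz_hom_ext h _ _ (fun f => ?_) (fun j f => ?_)
    · change Nl (Ψ₃ (inc f)) = Ψ (N₂ (inc f))
      rw [p1, hN1, hΨ1, ← e1]
      rfl
    · change Nl (Ψ₃ (kap j f)) = Ψ (N₂ (kap j f))
      rw [p2, l2, hN2, hΨ2]
      have : 4 * ((3 * j + 1) / 3) + (3 * j + 1) % 3 = 2 * (2 * j) + 1 := by omega
      rw [this]
  refine ⟨Nl u, ?_, ?_, ?_, fun f hf => ?_⟩
  · have := l5 u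
    rw [finb_l_range] at this
    exact this
  · rw [← map_star, ← map_mul, u1, map_one]
  · rw [← map_star, ← map_mul, u2, map_one]
  · have e3 : Ψ (N₂ (α f)) = Nl (Ψ₃ (α f)) := (DFunLike.congr_fun e2 (α f)).symm
    rw [e3, ← l1 f, ← map_mul, ← map_mul, ← map_sub, l4]
    exact u3 f hf

/-- The composition `Ψ ∘ Φ` is a limit of automorphisms.

Proof. As in `H47.FModel.endo_approx` (file `AutB`): `approx_of_gen` with the generators
`range inc' ∪ ⋃ j, range (kap' j)`. For a finite subset let `m` bound the labels; `u` from `fin_u`, the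
automorphism is `A = A₁ ∘ A₂` with `A₂` from `exists_autP` for `g j = 4 * j + 3` and `A₁` from `exists_autL` for
`L = {k | k % 4 ≠ 3}` and `u`. `A (kap' j f) = kap' (4 * j + 3) f = Ψ (Φ (kap' j f))` for `j < m`, and
`A (inc' f) = u * inc' f * star u`, `‖Ψ (Φ (inc' f)) - u * inc' f * star u‖ ≤ ε`. -/
theorem fin_half (h : IsPZ μ tr inc kap) (h' : IsPZ μ' tr' inc' kap')
    (tβ : ∀ f, tr' (β f) = intL μ f) (hc : CoreP tr inc kap tr' inc' kap' α β)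
    (N₂ : P →⋆ₐ[ℂ] P) (hN1 : ∀ f, N₂ (inc f) = inc f) (hN2 : ∀ j f, N₂ (kap j f) = kap (2 * j) f)
    (N₂' : P' →⋆ₐ[ℂ] P') (hN1' : ∀ f, N₂' (inc' f) = inc' f)
    (hN2' : ∀ j f, N₂' (kap' j f) = kap' (2 * j) f)
    (Ψ : P →⋆ₐ[ℂ] P') (hΨ1 : ∀ f, Ψ (inc f) = N₂' (β f))
    (hΨ2 : ∀ j f, Ψ (kap j f) = kap' (2 * j + 1) f)
    (Φ : P' →⋆ₐ[ℂ] P) (hΦ1 : ∀ f, Φ (inc' f) = N₂ (α f))
    (hΦ2 : ∀ j f, Φ (kap' j f) = kap (2 * j + 1) f) (F : Finset P') (ε : ℝ) (hε : 0 < ε) :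
    ∃ A : P' ≃⋆ₐ[ℂ] P', ∀ x ∈ F, ‖Ψ (Φ x) - A x‖ ≤ ε := by
  classical
  refine approx_of_gen (Set.range inc' ∪ ⋃ j, Set.range (kap' j)) ?_ (Ψ.comp Φ) ?_ F ε hε
  · refine top_unique ?_
    rw [← h'.rfp.gen]
    refine StarSubalgebra.topologicalClosure_mono ?_
    refine pz_iSup_le_adjoin inc' kap' _ (fun a => ?_) (fun j f => ?_)
    · exact StarAlgebra.subset_adjoin ℂ _ (Or.inl ⟨a, rfl⟩)
    · exact StarAlgebra.subset_adjoin ℂ _ (Or.inr (Set.mem_iUnion.2 ⟨j, f, rfl⟩))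
  · clear hε ε F
    intro F hF ε hε
    obtain ⟨m, hm⟩ : ∃ m : ℕ, ∀ x ∈ F, (∃ f, inc' f = x) ∨ ∃ j < m, ∃ f, kap' j f = x := by
      refine ⟨F.sup fun x => if hx : ∃ j f, kap' j f = x then hx.choose + 1 else 0, ?_⟩
      intro x hx
      by_cases h2 : ∃ a, inc' a = x
      · exact Or.inl h2
      · have h3 : ∃ j f, kap' j f = x := by
          rcases hF x hx with ⟨a, ha⟩ | h4
          · exact absurd ⟨a, ha⟩ h2
          · obtain ⟨j, f, hf⟩ := Set.mem_iUnion.1 h4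
            exact ⟨j, f, hf⟩
        refine Or.inr ⟨h3.choose, ?_, h3.choose_spec⟩
        have h5 := Finset.le_sup (f := fun x : P' =>
          if hx : ∃ j f, kap' j f = x then hx.choose + 1 else 0) hx
        simp only [dif_pos h3] at h5
        exact Nat.lt_of_succ_le h5
    obtain ⟨u, hu, u1, u2, u3⟩ := fin_u h h' tβ hc N₂ hN1 hN2 N₂' hN1' hN2' Ψ hΨ1 hΨ2
      (F.image fun x => if hx : ∃ a, inc' a = x then hx.choose else 0) ε hε
    obtain ⟨A₂, a1, a2⟩ := exists_autP h' _ finb_four_inj m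
    obtain ⟨A₁, b1, b2⟩ := exists_autL h' {k | k % 4 ≠ 3} u hu u1 u2
    refine ⟨A₂.trans A₁, fun x hx => ?_⟩
    by_cases h2 : ∃ a, inc' a = x
    · have h4 : h2.choose ∈ F.image fun x => if hx : ∃ a, inc' a = x then hx.choose else 0 := by
        refine Finset.mem_image.2 ⟨x, hx, ?_⟩
        rw [dif_pos h2]
      obtain ⟨f₀, h5, h6⟩ : ∃ f₀, ‖u * inc' f₀ - Ψ (N₂ (α f₀)) * u‖ ≤ ε ∧ inc' f₀ = x :=
        ⟨h2.choose, u3 _ h4, h2.choose_spec⟩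
      have h7 : (A₂.trans A₁) x = u * inc' f₀ * star u := by
        change A₁ (A₂ x) = _
        rw [← h6, a1]
        exact b1 _ (PL_inc _ _)
      have h8 : (Ψ.comp Φ) x = Ψ (N₂ (α f₀)) := by
        change Ψ (Φ x) = _
        rw [← hΦ1, h6]
      rw [h7, h8]
      exact finb_norm_le u _ _ u1 u2 ε h5
    · rcases hm x hx with h3 | ⟨j, hj, f, hf⟩
      · exact absurd h3 h2
      · have h7 : (A₂.trans A₁) x = kap' (4 * j + 3) f := by
          change A₁ (A₂ x) = _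
          rw [← hf, a2 j hj]
          exact b2 _ (by
            simp only [Set.mem_ofPred_eq, not_not]
            omega) f
        have h8 : (Ψ.comp Φ) x = kap' (4 * j + 3) f := by
          change Ψ (Φ x) = _
          rw [← hf, hΦ2, hΨ2]
          have : 2 * (2 * j + 1) + 1 = 4 * j + 3 := by omega
          rw [this]
        rw [h7, h8, sub_self, norm_zero]
        exact hε.le

/-- The isomorphism: `exists_relabel` for `2 * j` in both algebras, `exists_homL` for `N₂ ∘ α`,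
`N₂' ∘ β` and the labels `2 * j + 1`, `fin_half` twice, `intertwine` (`IsPZ.separable`). -/
theorem fin_iso (h : IsPZ μ tr inc kap) (h' : IsPZ μ' tr' inc' kap')
    (tα : ∀ f, tr (α f) = intL μ' f) (tβ : ∀ f, tr' (β f) = intL μ f)
    (hc : CoreP tr inc kap tr' inc' kap' α β) (hc' : CoreP tr' inc' kap' tr inc kap β α) :
    Nonempty (P ≃⋆ₐ[ℂ] P') := by
  obtain ⟨N₂, n1, n2, n3, n4, n5⟩ := exists_relabel h _ finb_two_inj
  obtain ⟨N₂', m1, m2, m3, m4, m5⟩ := exists_relabel h' _ finb_two_inj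
  have hodd : ∀ j : ℕ, 2 * j + 1 ∉ Set.range (fun j : ℕ => 2 * j) := by
    rintro j ⟨k, hk⟩
    simp only at hk
    omega
  obtain ⟨Ψ, p1, p2, p3, p4⟩ := exists_homL h h' (Set.range fun j : ℕ => 2 * j) (N₂'.comp β)
    (fun f => m5 (β f)) (fun f => by
      change tr' (N₂' (β f)) = intL μ f
      rw [m3, tβ]) _ finb_odd_inj hodd
  obtain ⟨Φ, q1, q2, q3, q4⟩ := exists_homL h' h (Set.range fun j : ℕ => 2 * j) (N₂.comp α)
    (fun f => n5 (α f)) (fun f => by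
      change tr (N₂ (α f)) = intL μ' f
      rw [n3, tα]) _ finb_odd_inj hodd
  haveI : TopologicalSpace.SeparableSpace P := h.separable
  haveI : TopologicalSpace.SeparableSpace P' := h'.separable
  exact intertwine Ψ Φ p4 q4
    (fun F ε hε => fin_half h' h tα hc' N₂' m1 m2 N₂ n1 n2 Φ q1 q2 Ψ p1 p2 F ε hε)
    (fun F ε hε => fin_half h h' tβ hc N₂ n1 n2 N₂' m1 m2 Ψ p1 p2 Φ q1 q2 F ε hε)

end H7c
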