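import Pool.Agent.H.MP_7b4a29_c.SphA
import Pool.Agent.H.MP_7b4a29_c.BTwo

/-!
# The three-sphere: the collapse map and its homotopy inverse
-/

open Filter Topology MeasureTheory

namespace H7c

/-- The subset of the sphere which is collapsed: one of the two complex coordinates is real and
nonnegative. -/
def AS : Set S3 := {z | ((z : E4) 1 = 0 ∧ 0 ≤ (z : E4) 0) ∨ ((z : E4) 3 = 0 ∧ 0 ≤ (z : E4) 2)}

theorem sphb_c0 : cC (0 : UnitAddCircle) = 1 := by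
  have h := (cs_coe 0).1
  rw [mul_zero, Real.cos_zero] at h
  exact h

theorem sphb_s0 : sC (0 : UnitAddCircle) = 0 := by
  have h := (cs_coe 0).2
  rw [mul_zero, Real.sin_zero] at h
  exact h

theorem sphb_pair (r : ℝ) (hr : 0 ≤ r) (x : UnitAddCircle) :
    (√r * sC x = 0 ∧ 0 ≤ √r * cC x) ↔ (r = 0 ∨ x = 0) := by
  constructor
  · rintro ⟨h1, h2⟩
    rcases hr.eq_or_lt with h0 | h0
    · exact Or.inl h0.symm
    · right
      have hs : 0 < √r := Real.sqrt_pos.2 h0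
      have h3 : sC x = 0 := by
        rcases mul_eq_zero.1 h1 with h4 | h4
        · exact absurd h4 hs.ne'
        · exact h4
      have h4 : 0 ≤ cC x := nonneg_of_mul_nonneg_right h2 hs
      have h5 := cs_sq x
      rw [h3] at h5
      have h6 : cC x = 1 := by nlinarith
      exact cs_inj (h6.trans sphb_c0.symm) (h3.trans sphb_s0.symm)
  · rintro (h | h)
    · rw [h, Real.sqrt_zero, zero_mul, zero_mul]
      exact ⟨rfl, le_refl 0⟩
    · rw [h, sphb_s0, sphb_c0, mul_zero, mul_one]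
      exact ⟨rfl, Real.sqrt_nonneg r⟩

theorem mem_AS (ρ : unitInterval) (x y : UnitAddCircle) :
    qS (ρ, (x, y)) ∈ AS ↔ (ρ = 0 ∨ ρ = 1 ∨ x = 0 ∨ y = 0) := by
  have h1 : qS (ρ, (x, y)) ∈ AS ↔
      ((√(ρ : ℝ) * sC x = 0 ∧ 0 ≤ √(ρ : ℝ) * cC x) ∨
        (√(1 - (ρ : ℝ)) * sC y = 0 ∧ 0 ≤ √(1 - (ρ : ℝ)) * cC y)) := Iff.rfl
  have h2 : ((ρ : ℝ) = 0) ↔ ρ = 0 := ⟨fun h => Subtype.ext h, fun h => congrArg Subtype.val h⟩
  have h3 : (1 - (ρ : ℝ) = 0) ↔ ρ = 1 := by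
    constructor
    · intro h
      refine Subtype.ext ?_
      show (ρ : ℝ) = 1
      linarith
    · intro h
      rw [h, Set.Icc.coe_one, sub_self]
  rw [h1, sphb_pair _ ρ.2.1, sphb_pair _ (by linarith [ρ.2.2]), h2, h3]
  constructor
  · rintro ((h | h) | (h | h))
    · exact Or.inl h
    · exact Or.inr (Or.inr (Or.inl h))
    · exact Or.inr (Or.inl h)
    · exact Or.inr (Or.inr (Or.inr h))
  · rintro (h | h | h | h)
    · exact Or.inl (Or.inl h)
    · exact Or.inr (Or.inl h)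
    · exact Or.inl (Or.inr h)
    · exact Or.inr (Or.inr h)

theorem a0_mem : a0 ∈ AS := (mem_AS hlf 0 0).2 (Or.inr (Or.inr (Or.inl rfl)))

theorem sphb_sq (z : S3) :
    (z : E4) 0 ^ 2 + (z : E4) 1 ^ 2 + (z : E4) 2 ^ 2 + (z : E4) 3 ^ 2 = 1 := by
  rw [← spha_norm_sq, mem_sphere_zero_iff_norm.1 z.2, one_pow]

theorem sphb_r : 0 < √(1 / 2 : ℝ) ∧ √(1 / 2 : ℝ) < 1 ∧ √(1 / 2 : ℝ) ^ 2 = 1 / 2 := by
  have h1 : √(1 / 2 : ℝ) ^ 2 = 1 / 2 := Real.sq_sqrt (by norm_num)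
  have h2 : 0 < √(1 / 2 : ℝ) := Real.sqrt_pos.2 (by norm_num)
  refine ⟨h2, ?_, h1⟩
  nlinarith

/-- The inner product with the base point: `(z 0 + z 2) / √2`. -/
noncomputable def ipr (z : S3) : ℝ := √(1 / 2) * ((z : E4) 0 + (z : E4) 2)

/-- The cut off function. -/
noncomputable def muS (z : S3) : ℝ := min 1 ((1 + ipr z) / (1 - √(1 / 2)))

/-- On `AS`: if `z 1 = 0 ≤ z 0` then `z 2 ≥ -√(1 - (z 0)²) ≥ -1`, so `z 0 + z 2 ≥ -1` and `ipr z ≥ -√(1/2)`. -/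
theorem muS_AS (z : S3) (hz : z ∈ AS) : muS z = 1 := by
  obtain ⟨r0, r1, r2⟩ := sphb_r
  have h1 := sphb_sq z
  have h2 : -1 ≤ (z : E4) 0 + (z : E4) 2 := by
    rcases hz with ⟨h3, h4⟩ | ⟨h3, h4⟩
    · have h5 : -1 ≤ (z : E4) 2 := by
        nlinarith [sq_nonneg ((z : E4) 0), sq_nonneg ((z : E4) 1), sq_nonneg ((z : E4) 3)]
      linarith
    · have h5 : -1 ≤ (z : E4) 0 := by
        nlinarith [sq_nonneg ((z : E4) 1), sq_nonneg ((z : E4) 2), sq_nonneg ((z : E4) 3)]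
      linarith
  refine min_eq_left ?_
  rw [le_div_iff₀ (by linarith)]
  show 1 * (1 - √(1 / 2)) ≤ 1 + √(1 / 2) * ((z : E4) 0 + (z : E4) 2)
  nlinarith

theorem muS_nonneg (z : S3) : 0 ≤ muS z := by
  obtain ⟨r0, r1, r2⟩ := sphb_r
  have h1 := sphb_sq z
  have h2 : (√(1 / 2) * ((z : E4) 0 + (z : E4) 2)) ^ 2 ≤ 1 := by
    rw [mul_pow, r2]
    nlinarith [sq_nonneg ((z : E4) 0 - (z : E4) 2), sq_nonneg ((z : E4) 1),
      sq_nonneg ((z : E4) 3)]
  have h3 : 0 ≤ 1 + ipr z := by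
    show 0 ≤ 1 + √(1 / 2) * ((z : E4) 0 + (z : E4) 2)
    nlinarith
  exact le_min zero_le_one (div_nonneg h3 (by linarith))

theorem sphb_muS_le (z : S3) : muS z ≤ 1 := min_le_left _ _

/-- The vector before the normalization. -/
noncomputable def vS (s : ℝ) (z : S3) : E4 :=
  (1 - s * muS z) • (z : E4) + (s * muS z) • (a0 : E4)

/-- It is not zero: otherwise `z` is a negative multiple of `a0`, so `z = -a0`, `ipr z = -1`, `muS z = 0` and
the vector is `z`. -/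
theorem vS_ne (s : unitInterval) (z : S3) : vS s z ≠ 0 := by
  intro h
  obtain ⟨r0, r1, r2⟩ := sphb_r
  obtain ⟨a1, a2, a3, a4⟩ := a0_coord
  have h1 := sphb_sq z
  obtain ⟨c, hc⟩ : ∃ c : ℝ, c = (s : ℝ) * muS z := ⟨_, rfl⟩
  have hv : ∀ i, (1 - c) * (z : E4) i + c * (a0 : E4) i = 0 := by
    intro i
    rw [hc]
    exact congrArg (fun v : E4 => v i) h
  have e0 := hv 0
  have e1 := hv 1
  have e2 := hv 2
  have e3 := hv 3
  rw [a1] at e0
  rw [a2] at e1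
  rw [a3] at e2
  rw [a4] at e3
  have hi : ipr z = √(1 / 2) * ((z : E4) 0 + (z : E4) 2) := rfl
  have f1 : (1 - c) * ipr z + c = 0 := by
    rw [hi]
    linear_combination √(1 / 2) * e0 + √(1 / 2) * e2 - 2 * c * r2
  have f2 : (1 - c) + c * ipr z = 0 := by
    rw [hi]
    linear_combination (z : E4) 0 * e0 + (z : E4) 1 * e1 + (z : E4) 2 * e2 + (z : E4) 3 * e3 -
      (1 - c) * h1
  have f3 : (1 - 2 * c) * (ipr z - 1) = 0 := by linear_combination f1 - f2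
  rcases mul_eq_zero.1 f3 with f4 | f4
  · have f5 : c = 1 / 2 := by linarith
    have f6 : ipr z = -1 := by
      rw [f5] at f1
      linarith
    have f7 : muS z = 0 := by
      show min 1 ((1 + ipr z) / (1 - √(1 / 2))) = 0
      rw [f6, add_neg_cancel, zero_div]
      exact min_eq_right zero_le_one
    rw [f7, mul_zero] at hc
    linarith
  · have f5 : ipr z = 1 := by linarith
    rw [f5] at f2
    linarith

theorem sphb_vcont : Continuous fun p : unitInterval × S3 => vS p.1 p.2 := by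
  have c0 : ∀ i : Fin 4, Continuous fun p : unitInterval × S3 => ((p.2 : S3) : E4) i := by
    intro i
    fun_prop
  have c1 : Continuous fun p : unitInterval × S3 => ipr p.2 :=
    continuous_const.mul ((c0 0).add (c0 2))
  have c2 : Continuous fun p : unitInterval × S3 => muS p.2 :=
    continuous_const.min ((continuous_const.add c1).div_const _)
  have c3 : Continuous fun p : unitInterval × S3 => (p.1 : ℝ) * muS p.2 :=
    (continuous_subtype_val.comp continuous_fst).mul c2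
  exact ((continuous_const.sub c3).smul (continuous_subtype_val.comp continuous_snd)).add
    (c3.smul continuous_const)

theorem sphb_nrm {v : E4} (hv : v ≠ 0) : ‖‖v‖⁻¹ • v‖ = 1 := by
  rw [norm_smul, norm_inv, norm_norm, inv_mul_cancel₀ (norm_ne_zero_iff.2 hv)]

/-- The normalized deformation. -/
noncomputable def sphb_H : C(unitInterval × S3, S3) :=
  ⟨fun p => ⟨‖vS p.1 p.2‖⁻¹ • vS p.1 p.2,
      mem_sphere_zero_iff_norm.2 (sphb_nrm (vS_ne p.1 p.2))⟩,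
    ((sphb_vcont.norm.inv₀ fun p => norm_ne_zero_iff.2 (vS_ne p.1 p.2)).smul
      sphb_vcont).subtype_mk fun p => mem_sphere_zero_iff_norm.2 (sphb_nrm (vS_ne p.1 p.2))⟩

theorem sphb_H_coe (s : unitInterval) (z : S3) :
    ((sphb_H (s, z) : S3) : E4) = ‖vS s z‖⁻¹ • vS s z := rfl

theorem sphb_H_eq (s : unitInterval) (z w : S3) (h : vS s z = (w : E4)) :
    sphb_H (s, z) = w := by
  refine Subtype.ext ?_
  rw [sphb_H_coe, h, mem_sphere_zero_iff_norm.1 w.2, inv_one, one_smul]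

/-- The deformation `H (s, z) = vS s z / ‖vS s z‖`. -/
theorem exists_HS : ∃ H : C(unitInterval × S3, S3), (∀ z, H (0, z) = z) ∧
    (∀ s, ∀ z ∈ AS, H (s, z) ∈ AS) ∧ (∀ z ∈ AS, H (1, z) = a0) ∧ ∀ s, H (s, a0) = a0 := by
  obtain ⟨r0, r1, r2⟩ := sphb_r
  obtain ⟨a1, a2, a3, a4⟩ := a0_coord
  refine ⟨sphb_H, fun z => ?_, fun s z hz => ?_, fun z hz => ?_, fun s => ?_⟩
  · refine sphb_H_eq 0 z z ?_
    rw [vS, Set.Icc.coe_zero, zero_mul, sub_zero, one_smul, zero_smul, add_zero]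
  · have hs0 := s.2.1
    have hs1 : 0 ≤ 1 - (s : ℝ) := by linarith [s.2.2]
    have hi : 0 ≤ ‖vS s z‖⁻¹ := inv_nonneg.2 (norm_nonneg _)
    have hv : ∀ i, (vS s z) i = (1 - (s : ℝ)) * (z : E4) i + (s : ℝ) * (a0 : E4) i := by
      intro i
      have h1 : vS s z = (1 - (s : ℝ)) • (z : E4) + (s : ℝ) • (a0 : E4) := by
        rw [vS, muS_AS z hz, mul_one]
      rw [h1]
      rfl
    have hc : ∀ i, ((sphb_H (s, z) : S3) : E4) i = ‖vS s z‖⁻¹ * (vS s z) i := fun i => rfl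
    rcases hz with ⟨h1, h2⟩ | ⟨h1, h2⟩
    · left
      refine ⟨?_, ?_⟩
      · rw [hc, hv, h1, a2, mul_zero, mul_zero, add_zero, mul_zero]
      · rw [hc, hv, a1]
        exact mul_nonneg hi (add_nonneg (mul_nonneg hs1 h2) (mul_nonneg hs0 r0.le))
    · right
      refine ⟨?_, ?_⟩
      · rw [hc, hv, h1, a4, mul_zero, mul_zero, add_zero, mul_zero]
      · rw [hc, hv, a3]
        exact mul_nonneg hi (add_nonneg (mul_nonneg hs1 h2) (mul_nonneg hs0 r0.le))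
  · refine sphb_H_eq 1 z a0 ?_
    rw [vS, muS_AS z hz, Set.Icc.coe_one, mul_one, sub_self, zero_smul, one_smul, zero_add]
  · refine sphb_H_eq s a0 a0 ?_
    rw [vS, muS_AS a0 a0_mem, mul_one, ← add_smul, sub_add_cancel, one_smul]

variable {Y3 : Type} [TopologicalSpace Y3] [CompactSpace Y3] [T2Space Y3] {y3 : Y3}
  {q3 : C((UnitAddCircle × Unit) × T2, Y3)} (hq3 : IsQ (Bp (bB (∅ : Set Unit))) y3 q3)

/-- The cube. -/
noncomputable def k3 : C(Cube 3, (UnitAddCircle × Unit) × T2) :=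
  ⟨fun v => ((ic (v 0), ()), (ic (v 1), ic (v 2))), by fun_prop⟩

include hq3

omit [TopologicalSpace Y3] [CompactSpace Y3] [T2Space Y3] hq3 in
theorem sphb_Bp (a : UnitAddCircle) (u : Unit) (b c : UnitAddCircle) :
    ((a, u), (b, c)) ∈ Bp (bB (∅ : Set Unit)) ↔ (a = 0 ∨ b = 0 ∨ c = 0) := by
  have h1 : ((a, u), (b, c)) ∈ Bp (bB (∅ : Set Unit)) ↔
      ((a = 0 ∨ u ∈ (∅ : Set Unit)) ∨ (b = 0 ∨ c = 0)) := Iff.rfl
  rw [h1]
  constructor
  · rintro ((h | h) | h)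
    · exact Or.inl h
    · exact absurd h (Set.notMem_empty _)
    · exact Or.inr h
  · rintro (h | h)
    · exact Or.inl (Or.inl h)
    · exact Or.inr h

omit [TopologicalSpace Y3] [CompactSpace Y3] [T2Space Y3] hq3 in
theorem sphb_bd (v : Cube 3) : k3 v ∈ Bp (bB (∅ : Set Unit)) ↔ v ∈ bd 3 := by
  have h1 : k3 v = ((ic (v 0), ()), (ic (v 1), ic (v 2))) := rfl
  have h2 : v ∈ bd 3 ↔ ∃ i, v i = 0 ∨ v i = 1 := Iff.rfl
  rw [h1, h2, sphb_Bp, btwo_ic0, btwo_ic0, btwo_ic0]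
  constructor
  · rintro (h | h | h)
    · exact ⟨0, h⟩
    · exact ⟨1, h⟩
    · exact ⟨2, h⟩
  · rintro ⟨i, h⟩
    fin_cases i
    · exact Or.inl h
    · exact Or.inr (Or.inl h)
    · exact Or.inr (Or.inr h)

/-- As `isQ_k5` in `BTwo.lean`. -/
theorem isQ_k3 : IsQ (bd 3) y3 (q3.comp k3) := by
  refine ⟨fun y => ?_, fun v => ?_, fun v v' h hv => ?_⟩
  · obtain ⟨z, hz⟩ := hq3.surj y
    obtain ⟨⟨a, u⟩, b, c⟩ := z
    obtain ⟨a', ha⟩ := ic_surj a
    obtain ⟨b', hb⟩ := ic_surj b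
    obtain ⟨c', hc⟩ := ic_surj c
    refine ⟨![a', b', c'], ?_⟩
    rw [← hz]
    show q3 ((ic a', ()), (ic b', ic c')) = _
    rw [ha, hb, hc]
  · show q3 (k3 v) = y3 ↔ v ∈ bd 3
    rw [hq3.base, sphb_bd]
  · have h1 : k3 v ∉ Bp (bB (∅ : Set Unit)) := fun h2 => hv ((sphb_bd v).1 h2)
    have h3 : k3 v = k3 v' := hq3.inj (k3 v) (k3 v') h h1
    have h4 : ∀ i, v i ≠ 0 ∧ v i ≠ 1 := by
      intro i
      by_contra h5
      apply hv
      refine ⟨i, ?_⟩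
      by_contra h6
      rw [not_or] at h6
      exact h5 h6
    have e0 : ic (v 0) = ic (v' 0) := congrArg (fun z => z.1.1) h3
    have e1 : ic (v 1) = ic (v' 1) := congrArg (fun z => z.2.1) h3
    have e2 : ic (v 2) = ic (v' 2) := congrArg (fun z => z.2.2) h3
    funext i
    fin_cases i
    · exact btwo_ic _ _ e0 (h4 0).1 (h4 0).2
    · exact btwo_ic _ _ e1 (h4 1).1 (h4 1).2
    · exact btwo_ic _ _ e2 (h4 2).1 (h4 2).2

/-- The collapse map of the sphere. `qS` is a quotient map (a continuous surjection from a compact space to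
a Hausdorff space), and `(ρ, x, y) ↦ q3 ((ic ρ, ()), (x, y))` is compatible with it by `qS_inj`: for `ρ = 0, 1`
the value is `y3`. -/
theorem exists_piS : ∃ π₀ : C(S3, Y3), IsQ AS y3 π₀ ∧
    ∀ (ρ : unitInterval) (x y : UnitAddCircle), π₀ (qS (ρ, (x, y))) = q3 ((ic ρ, ()), (x, y)) := by
  obtain ⟨F, hF⟩ : ∃ F : C(unitInterval × (UnitAddCircle × UnitAddCircle), Y3),
      ∀ (ρ : unitInterval) (x y : UnitAddCircle), F (ρ, (x, y)) = q3 ((ic ρ, ()), (x, y)) :=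
    ⟨⟨fun p => q3 ((ic p.1, ()), (p.2.1, p.2.2)), by fun_prop⟩, fun _ _ _ => rfl⟩
  have hv : ∀ (ρ : unitInterval) (x y : UnitAddCircle), (ρ = 0 ∨ ρ = 1) →
      q3 ((ic ρ, ()), (x, y)) = y3 := by
    intro ρ x y h
    rw [hq3.base, sphb_Bp]
    exact Or.inl ((btwo_ic0 ρ).2 h)
  have hQ : IsQuotientMap (qS : unitInterval × (UnitAddCircle × UnitAddCircle) → S3) :=
    (qS.continuous.isClosedMap).isQuotientMap qS.continuous qS_surj
  have hfac : Function.FactorsThrough F qS := by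
    rintro ⟨ρ, x, y⟩ ⟨ρ', x', y'⟩ h
    obtain ⟨h1, h2, h3⟩ := qS_inj h
    subst h1
    rw [hF, hF]
    by_cases h4 : ρ = 0
    · rw [hv _ _ _ (Or.inl h4), hv _ _ _ (Or.inl h4)]
    · by_cases h5 : ρ = 1
      · rw [hv _ _ _ (Or.inr h5), hv _ _ _ (Or.inr h5)]
      · rw [h2 h4, h3 h5]
  have hl : ∀ (ρ : unitInterval) (x y : UnitAddCircle),
      (hQ.lift F hfac) (qS (ρ, (x, y))) = q3 ((ic ρ, ()), (x, y)) := by
    intro ρ x y
    have h1 := DFunLike.congr_fun (hQ.lift_comp F hfac) (ρ, (x, y))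
    rw [← hF]
    exact h1
  refine ⟨hQ.lift F hfac, ⟨fun y => ?_, fun z => ?_, fun z z' h hz => ?_⟩, hl⟩
  · obtain ⟨z, hz⟩ := hq3.surj y
    obtain ⟨⟨a, u⟩, b, c⟩ := z
    obtain ⟨a', ha⟩ := ic_surj a
    refine ⟨qS (a', (b, c)), ?_⟩
    rw [hl, ha]
    exact hz
  · obtain ⟨⟨ρ, x, y⟩, rfl⟩ := qS_surj z
    rw [hl, hq3.base, sphb_Bp, mem_AS, btwo_ic0]
    constructor
    · rintro ((h | h) | h)
      · exact Or.inl h
      · exact Or.inr (Or.inl h)
      · exact Or.inr (Or.inr h)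
    · rintro (h | h | h)
      · exact Or.inl (Or.inl h)
      · exact Or.inl (Or.inr h)
      · exact Or.inr h
  · obtain ⟨⟨ρ, x, y⟩, rfl⟩ := qS_surj z
    obtain ⟨⟨ρ', x', y'⟩, rfl⟩ := qS_surj z'
    rw [hl, hl] at h
    rw [mem_AS] at hz
    have h0 : ρ ≠ 0 := fun h1 => hz (Or.inl h1)
    have h1 : ρ ≠ 1 := fun h1 => hz (Or.inr (Or.inl h1))
    have h2 : ((ic ρ, ()), (x, y)) ∉ Bp (bB (∅ : Set Unit)) := by
      rw [sphb_Bp, btwo_ic0]
      rintro ((h3 | h3) | h3)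
      · exact h0 h3
      · exact h1 h3
      · exact hz (Or.inr (Or.inr h3))
    have h3 := hq3.inj _ _ h h2
    have e0 : ic ρ = ic ρ' := congrArg (fun z => z.1.1) h3
    have e1 : x = x' := congrArg (fun z => z.2.1) h3
    have e2 : y = y' := congrArg (fun z => z.2.2) h3
    rw [btwo_ic _ _ e0 h0 h1, e1, e2]

/-- The map `p`, its homotopy inverse `K`, and the homotopies.

Proof. With `π₀` from `exists_piS` and `H` from `exists_HS`: `p z = π₀ (-z)`; `K₀ : Y3 → S3` with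
`K₀ (π₀ z) = H (1, z)` (`H (1, ·)` is constant on `AS`; as in `IsQ.exists_map`), `K y = -K₀ y`. The first homotopy is
`(s, z) ↦ -H (s, -z)`, the second is the descended homotopy `π₀ z ↦ π₀ (H (s, z))` (`IsQ.exists_hty`). -/
theorem exists_pK : ∃ (p : C(S3, Y3)) (K : C(Y3, S3)), p (-a0) = y3 ∧ K y3 = -a0 ∧
    (∀ (ρ : unitInterval) (x y : UnitAddCircle),
      p (qS (ρ, (x, y))) = q3 ((ic ρ, ()), (hsh x, hsh y))) ∧
    (∃ H : C(unitInterval × S3, S3), (∀ s, H (s, -a0) = -a0) ∧ (∀ z, H (0, z) = z) ∧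
      ∀ z, H (1, z) = K (p z)) ∧
    (∃ H : C(unitInterval × Y3, Y3), (∀ s, H (s, y3) = y3) ∧ (∀ y, H (0, y) = y) ∧
      ∀ y, H (1, y) = p (K y)) := by
  obtain ⟨π, hπ, hπq⟩ := exists_piS hq3
  obtain ⟨H, H0, HA, H1, Ha⟩ := exists_HS
  obtain ⟨K0, hK0⟩ := hπ.exists_lift (H.comp ⟨fun z => ((1 : unitInterval), z), by fun_prop⟩) a0
    (fun z hz => H1 z hz)
  have hK : ∀ z, K0 (π z) = H (1, z) := hK0
  obtain ⟨N, hN⟩ : ∃ N : C(S3, S3), ∀ z, N z = -z := ⟨⟨fun z => -z, continuous_neg⟩, fun _ => rfl⟩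
  obtain ⟨H2, h2a, h2b⟩ := hπ.exists_hty hπ H HA ⟨a0, a0_mem⟩
  have hy : π a0 = y3 := (hπ.base a0).2 a0_mem
  have hK3 : K0 y3 = a0 := by
    rw [← hy, hK, Ha]
  refine ⟨π.comp N, N.comp K0, ?_, ?_, fun ρ x y => ?_, ?_, ?_⟩
  · rw [ContinuousMap.comp_apply, hN, neg_neg, hy]
  · rw [ContinuousMap.comp_apply, hN, hK3]
  · rw [ContinuousMap.comp_apply, hN, qS_neg, hπq]
  · refine ⟨(N.comp H).comp ⟨fun p => (p.1, N p.2), by fun_prop⟩, fun s => ?_, fun z => ?_,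
      fun z => ?_⟩
    · show N (H (s, N (-a0))) = -a0
      rw [hN (-a0), neg_neg, Ha, hN]
    · show N (H (0, N z)) = z
      rw [H0, hN, hN, neg_neg]
    · show N (H (1, N z)) = N (K0 (π (N z)))
      rw [hK]
  · refine ⟨H2, h2a, fun y => ?_, fun y => ?_⟩
    · obtain ⟨z, rfl⟩ := hπ.surj y
      rw [h2b, H0]
    · obtain ⟨z, rfl⟩ := hπ.surj y
      rw [h2b]
      show π (H (1, z)) = π (N (N (K0 (π z))))
      rw [hN, hN, neg_neg, hK]

end H7c
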