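import Pool.Agent.H.MP_7b4a29_c.SphM

/-!
# The three-sphere: the surface measure, second part
-/

open Filter Topology MeasureTheory

namespace H7c

/-- The point of the sphere with real parameters. -/
noncomputable def qR (ρ θ₁ θ₂ : ℝ) : S3 :=
  qS (clp ρ, (((θ₁ / (2 * Real.pi) : ℝ) : UnitAddCircle), ((θ₂ / (2 * Real.pi) : ℝ) : UnitAddCircle)))

theorem qR_continuous : Continuous fun p : ℝ × ℝ × ℝ => qR p.1 p.2.1 p.2.2 := by
  unfold qR clp
  refine qS.continuous.comp ?_
  refine (continuous_projIcc.comp continuous_fst).prodMk (Continuous.prodMk ?_ ?_)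
  · exact (AddCircle.continuous_mk' 1).comp (by fun_prop)
  · exact (AddCircle.continuous_mk' 1).comp (by fun_prop)

/-- The integrand in polar coordinates. -/
noncomputable def sphn_K (f : C(S3, ℂ)) (p q : ℝ × ℝ) : ℂ :=
  if p.1 ^ 2 + q.1 ^ 2 < 1 then
    ((p.1 * q.1 : ℝ) : ℂ) * f (qR (p.1 ^ 2 / (p.1 ^ 2 + q.1 ^ 2)) p.2 q.2) else 0

theorem sphn_K_meas (f : C(S3, ℂ)) :
    StronglyMeasurable (Function.uncurry (sphn_K f)) := by
  refine Measurable.stronglyMeasurable ?_
  unfold Function.uncurry sphn_K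
  refine Measurable.ite (measurableSet_lt (by fun_prop) (by fun_prop)) ?_ measurable_const
  refine Measurable.mul (by fun_prop) ?_
  refine f.continuous.measurable.comp ?_
  have h := qR_continuous.measurable
  refine h.comp (g := fun p : ℝ × ℝ × ℝ => qR p.1 p.2.1 p.2.2)
    (f := fun a : (ℝ × ℝ) × (ℝ × ℝ) => (a.1.1 ^ 2 / (a.1.1 ^ 2 + a.2.1 ^ 2), a.1.2, a.2.2)) ?_
  fun_prop

theorem sphn_K_bd (f : C(S3, ℂ)) (p q : ℝ × ℝ) : ‖sphn_K f p q‖ ≤ ‖f‖ := by
  unfold sphn_K
  split_ifs with h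
  · rw [norm_mul]
    have h1 : ‖((p.1 * q.1 : ℝ) : ℂ)‖ ≤ 1 := by
      rw [Complex.norm_real, Real.norm_eq_abs, abs_le]
      constructor <;> nlinarith [sq_nonneg (p.1 + q.1), sq_nonneg (p.1 - q.1)]
    calc _ ≤ 1 * ‖f‖ := mul_le_mul h1 (f.norm_coe_le_norm _) (norm_nonneg _) zero_le_one
      _ = ‖f‖ := one_mul _
  · rw [norm_zero]
    exact norm_nonneg _

/-- The radial measure. -/
noncomputable def sphn_a : Measure ℝ := volume.restrict (Set.Ioo (0 : ℝ) 1)

/-- The angular measure. -/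
noncomputable def sphn_b : Measure ℝ := volume.restrict (Set.Ioo (-Real.pi) Real.pi)

instance : IsFiniteMeasure sphn_a := by
  unfold sphn_a
  infer_instance

instance : IsFiniteMeasure sphn_b := by
  unfold sphn_b
  infer_instance

theorem sphn_int {α : Type} [MeasurableSpace α] {μ : Measure α} [IsFiniteMeasure μ] {g : α → ℂ}
    (hg : StronglyMeasurable g) {C : ℝ} (hC : ∀ x, ‖g x‖ ≤ C) : Integrable g μ :=
  Integrable.of_bound hg.aestronglyMeasurable C (Eventually.of_forall hC)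

theorem sphn_ib {α : Type} [MeasurableSpace α] {μ : Measure α} [IsFiniteMeasure μ] {g : α → ℂ}
    {C : ℝ} (hC : ∀ x, ‖g x‖ ≤ C) : ‖∫ x, g x ∂μ‖ ≤ C * μ.real Set.univ :=
  norm_integral_le_of_norm_le_const (Eventually.of_forall hC)

theorem sphn_fub (k : ℝ × ℝ → ℝ × ℝ → ℂ) (hk : StronglyMeasurable (Function.uncurry k)) (C : ℝ)
    (hC : ∀ p q, ‖k p q‖ ≤ C) :
    ∫ p, ∫ q, k p q ∂(sphn_a.prod sphn_b) ∂(sphn_a.prod sphn_b) =
      ∫ θ₁, ∫ θ₂, ∫ r₁, ∫ r₂, k (r₁, θ₁) (r₂, θ₂) ∂sphn_a ∂sphn_a ∂sphn_b ∂sphn_b := by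
  rw [integral_prod_symm _ (sphn_int hk.integral_prod_right fun p => sphn_ib (hC p))]
  refine integral_congr_ae (Eventually.of_forall fun θ₁ => ?_)
  have h1 : ∀ r₁ : ℝ, ∫ q, k (r₁, θ₁) q ∂(sphn_a.prod sphn_b) =
      ∫ θ₂, ∫ r₂, k (r₁, θ₁) (r₂, θ₂) ∂sphn_a ∂sphn_b := fun r₁ => by
    exact integral_prod_symm (k (r₁, θ₁))
      (sphn_int (hk.comp_measurable measurable_prodMk_left) (hC _))
  simp only [h1]
  refine integral_integral_swap ?_
  refine sphn_int (C := C * sphn_a.real Set.univ) ?_ fun x => sphn_ib fun r => hC _ _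
  refine StronglyMeasurable.integral_prod_right (f := fun (x : ℝ × ℝ) r₂ => k (x.1, θ₁) (r₂, x.2)) ?_
  exact hk.comp_measurable (g := fun x : (ℝ × ℝ) × ℝ => ((x.1.1, θ₁), (x.2, x.1.2))) (by fun_prop)

theorem sphn_clp {x : ℝ} (h : x ∈ Set.Icc (0 : ℝ) 1) : ((clp x : unitInterval) : ℝ) = x := by
  unfold clp
  rw [Set.projIcc_of_mem _ h]

theorem sphn_Th (p q : ℝ × ℝ) :
    ‖Th (polarCoord.symm p, polarCoord.symm q)‖ ^ 2 = p.1 ^ 2 + q.1 ^ 2 := by
  rw [EuclideanSpace.norm_sq_eq]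
  simp only [Fin.sum_univ_four, Th, polarCoord_symm_apply, Real.norm_eq_abs, sq_abs]
  simp only [Matrix.cons_val_zero, Matrix.cons_val_one, Matrix.cons_val]
  linear_combination p.1 ^ 2 * Real.sin_sq_add_cos_sq p.2 + q.1 ^ 2 * Real.sin_sq_add_cos_sq q.2

theorem sphn_ball (f : C(S3, ℂ)) :
    ∫ x in Metric.ball (0 : E4) 1, f (dir x) =
      ∫ p in polarCoord.target, ∫ q in polarCoord.target, sphn_K f p q := by
  rw [← integral_indicator Metric.isOpen_ball.measurableSet]
  have hG : Integrable ((Metric.ball (0 : E4) 1).indicator fun x => f (dir x)) := by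
    rw [integrable_indicator_iff Metric.isOpen_ball.measurableSet]
    refine Measure.integrableOn_of_bounded (M := ‖f‖) measure_ball_lt_top.ne
      (f.continuous.measurable.comp dir_measurable).aestronglyMeasurable
      (Eventually.of_forall fun x => f.norm_coe_le_norm _)
  rw [int_E4 _ hG]
  refine setIntegral_congr_fun polarCoord.open_target.measurableSet fun p hp => ?_
  refine setIntegral_congr_fun polarCoord.open_target.measurableSet fun q hq => ?_
  have hp0 : 0 < p.1 := by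
    rw [polarCoord_target] at hp
    exact hp.1
  have hq0 : 0 < q.1 := by
    rw [polarCoord_target] at hq
    exact hq.1
  have hb : Th (polarCoord.symm p, polarCoord.symm q) ∈ Metric.ball (0 : E4) 1 ↔
      p.1 ^ 2 + q.1 ^ 2 < 1 := by
    rw [mem_ball_zero_iff, ← sphn_Th p q, sq_lt_one_iff₀ (norm_nonneg _)]
  unfold sphn_K
  by_cases h : p.1 ^ 2 + q.1 ^ 2 < 1
  · simp only [if_pos h]
    rw [Set.indicator_of_mem (hb.2 h)]
    have hm : p.1 ^ 2 / (p.1 ^ 2 + q.1 ^ 2) ∈ Set.Icc (0 : ℝ) 1 := by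
      constructor
      · positivity
      · rw [div_le_one (by positivity)]
        nlinarith [sq_nonneg q.1]
    rw [dir_polar p.1 p.2 q.1 q.2 hp0 hq0 (clp (p.1 ^ 2 / (p.1 ^ 2 + q.1 ^ 2))) (sphn_clp hm)]
    rfl
  · simp only [if_neg h]
    rw [Set.indicator_of_notMem (fun h' => h (hb.1 h')), mul_zero]

theorem sphn_tgt : (volume : Measure (ℝ × ℝ)).restrict
    (Set.Ioo (0 : ℝ) 1 ×ˢ Set.Ioo (-Real.pi) Real.pi) = sphn_a.prod sphn_b := by
  rw [sphn_a, sphn_b, Measure.prod_restrict, Measure.volume_eq_prod]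

theorem sphn_cut (g : ℝ × ℝ → ℂ) (hg : ∀ p : ℝ × ℝ, 1 ≤ p.1 → g p = 0) :
    ∫ p in polarCoord.target, g p = ∫ p, g p ∂(sphn_a.prod sphn_b) := by
  rw [← sphn_tgt]
  refine setIntegral_eq_of_subset_of_forall_sdiff_eq_zero polarCoord.open_target.measurableSet
    ?_ ?_
  · rw [polarCoord_target]
    exact Set.prod_mono Set.Ioo_subset_Ioi_self le_rfl
  · rintro p ⟨hp, hp'⟩
    rw [polarCoord_target] at hp
    refine hg p ?_
    by_contra h
    exact hp' ⟨⟨hp.1, not_le.1 h⟩, hp.2⟩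

theorem sphn_cut1 (g : ℝ → ℂ) (hg : ∀ r : ℝ, 1 ≤ r → g r = 0) :
    ∫ r in Set.Ioi (0 : ℝ), g r = ∫ r, g r ∂sphn_a := by
  refine setIntegral_eq_of_subset_of_forall_sdiff_eq_zero measurableSet_Ioi
    Set.Ioo_subset_Ioi_self ?_
  rintro r ⟨hr, hr'⟩
  refine hg r ?_
  by_contra h
  exact hr' ⟨hr, not_le.1 h⟩

theorem sphn_b_int (g : ℝ → ℂ) :
    ∫ θ in (-Real.pi)..Real.pi, g θ = ∫ θ, g θ ∂sphn_b := by
  rw [intervalIntegral.integral_of_le (by linarith [Real.pi_pos]), sphn_b,
    integral_Ioc_eq_integral_Ioo]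

/-- Proof. `int_E4` for `G = indicator of the ball * (f ∘ dir)`; `‖Th (..)‖² = r₁² + r₂²`, `dir_polar`. The integrand
is bounded with bounded support (`r₁, r₂ < 1`), so Fubini allows to integrate over `r₁`, `r₂` first;
`int_quarter` for `Φ ρ = f (qR ρ θ₁ θ₂)`. -/
theorem int_ball (f : C(S3, ℂ)) :
    ∫ x in Metric.ball (0 : E4) 1, f (dir x) =
      (1 / 8) * ∫ θ₁ in (-Real.pi)..Real.pi, ∫ θ₂ in (-Real.pi)..Real.pi,
        ∫ ρ in (0 : ℝ)..1, f (qR ρ θ₁ θ₂) := by
  have hz : ∀ p q : ℝ × ℝ, 1 ≤ p.1 → sphn_K f p q = 0 := fun p q h => by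
    unfold sphn_K
    rw [if_neg]
    nlinarith [sq_nonneg q.1]
  have hz' : ∀ p q : ℝ × ℝ, 1 ≤ q.1 → sphn_K f p q = 0 := fun p q h => by
    unfold sphn_K
    rw [if_neg]
    nlinarith [sq_nonneg p.1]
  rw [sphn_ball, sphn_cut _ fun p hp => by simp only [hz p _ hp, integral_zero]]
  have e1 : ∀ p : ℝ × ℝ, ∫ q in polarCoord.target, sphn_K f p q =
      ∫ q, sphn_K f p q ∂(sphn_a.prod sphn_b) := fun p => sphn_cut _ fun q hq => hz' p q hq
  simp only [e1]
  rw [sphn_fub (sphn_K f) (sphn_K_meas f) ‖f‖ (sphn_K_bd f)]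
  have e2 : ∀ θ₁ θ₂ : ℝ, ∫ r₁, ∫ r₂, sphn_K f (r₁, θ₁) (r₂, θ₂) ∂sphn_a ∂sphn_a =
      (1 / 8) * ∫ ρ in (0 : ℝ)..1, f (qR ρ θ₁ θ₂) := fun θ₁ θ₂ => by
    rw [← int_quarter (fun ρ => f (qR ρ θ₁ θ₂)) (f.continuous.comp
      (qR_continuous.comp (g := fun p : ℝ × ℝ × ℝ => qR p.1 p.2.1 p.2.2)
        (f := fun ρ : ℝ => (ρ, θ₁, θ₂)) (by fun_prop)))]
    rw [sphn_cut1]
    · refine integral_congr_ae (Eventually.of_forall fun r₁ => ?_)
      exact (sphn_cut1 (fun r₂ => sphn_K f (r₁, θ₁) (r₂, θ₂)) fun r hr => hz' _ _ hr).symm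
    · intro r hr
      have e3 : ∀ r₂ : ℝ, sphn_K f (r, θ₁) (r₂, θ₂) = 0 := fun r₂ => hz _ _ hr
      unfold sphn_K at e3
      simp only at e3
      simp only [e3, integral_zero]
  simp only [e2]
  simp only [integral_const_mul, sphn_b_int]

/-- `UnitAddCircle.intervalIntegral_preimage` (or `AddCircle.intervalIntegral_preimage`) and a substitution. -/
theorem int_angle (h : C(UnitAddCircle, ℂ)) :
    ∫ θ in (-Real.pi)..Real.pi, h ((θ / (2 * Real.pi) : ℝ) : UnitAddCircle) =
      2 * Real.pi * ∫ x : UnitAddCircle, h x := by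
  have hp := Real.pi_pos
  rw [intervalIntegral.integral_comp_div (fun t : ℝ => h (t : UnitAddCircle)) (by positivity)]
  have e1 : -Real.pi / (2 * Real.pi) = -(1 / 2) := by field_simp
  have e2 : Real.pi / (2 * Real.pi) = -(1 / 2) + 1 := by
    field_simp
    norm_num
  rw [e1, e2, UnitAddCircle.intervalIntegral_preimage (-(1 / 2)) (fun x => h x), Complex.real_smul]
  push_cast
  ring

/-- The integral over the interval. -/
theorem sphn_uI (g : ℝ → ℂ) : ∫ ρ in (0 : ℝ)..1, g ρ = ∫ ρ : unitInterval, g ρ := by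
  rw [intervalIntegral.integral_of_le zero_le_one, ← integral_Icc_eq_integral_Ioc,
    ← integral_subtype measurableSet_Icc]

theorem sphn_cont {X Y : Type} [TopologicalSpace X] [FirstCountableTopology X]
    [LocallyCompactSpace X] [TopologicalSpace Y] [CompactSpace Y] [SecondCountableTopology Y]
    [MeasurableSpace Y] [OpensMeasurableSpace Y] {μ : Measure Y} [IsFiniteMeasure μ]
    {F : X → Y → ℂ} (hF : Continuous (Function.uncurry F)) :
    Continuous fun x => ∫ y, F x y ∂μ := by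
  have h := continuous_parametric_integral_of_continuous (μ := μ) hF isCompact_univ
  simpa only [setIntegral_univ] using h

/-- The inner integral. -/
noncomputable def sphn_J (f : C(S3, ℂ)) : C(UnitAddCircle × UnitAddCircle, ℂ) :=
  ⟨fun p => ∫ ρ : unitInterval, f (qS (ρ, p)), sphn_cont (by
    unfold Function.uncurry
    fun_prop)⟩

/-- The second integral. -/
noncomputable def sphn_J2 (f : C(S3, ℂ)) : C(UnitAddCircle, ℂ) :=
  ⟨fun x => ∫ y : UnitAddCircle, sphn_J f (x, y), sphn_cont (by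
    unfold Function.uncurry
    fun_prop)⟩

/-- `int_ball` and `int_angle` twice, `integral_ic`. -/
theorem int_ball' (f : C(S3, ℂ)) :
    ∫ x in Metric.ball (0 : E4) 1, f (dir x) =
      (Real.pi ^ 2 / 2) * ∫ x : UnitAddCircle, ∫ y : UnitAddCircle, ∫ ρ : unitInterval,
        f (qS (ρ, (x, y))) := by
  rw [int_ball]
  have e1 : ∀ θ₁ θ₂ : ℝ, ∫ ρ in (0 : ℝ)..1, f (qR ρ θ₁ θ₂) =
      sphn_J f (((θ₁ / (2 * Real.pi) : ℝ) : UnitAddCircle),
        ((θ₂ / (2 * Real.pi) : ℝ) : UnitAddCircle)) := fun θ₁ θ₂ => by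
    rw [sphn_uI]
    refine integral_congr_ae (Eventually.of_forall fun ρ => ?_)
    simp only [qR, clp, Set.projIcc_val]
  simp only [e1]
  have e2 : ∀ x : UnitAddCircle, ∫ θ₂ in (-Real.pi)..Real.pi,
      sphn_J f (x, ((θ₂ / (2 * Real.pi) : ℝ) : UnitAddCircle)) =
      2 * Real.pi * sphn_J2 f x := fun x =>
    int_angle ⟨fun y => sphn_J f (x, y), by fun_prop⟩
  simp only [e2]
  rw [intervalIntegral.integral_const_mul, int_angle]
  change _ = _ * ∫ x : UnitAddCircle, sphn_J2 f x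
  ring

/-- The coordinates of the cube. -/
theorem sphn_cube : MeasurePreserving (fun v : Cube 3 => ((v 0, (v 1, v 2)) :
    unitInterval × (unitInterval × unitInterval))) volume volume := by
  have h1 := volume_preserving_piFinSuccAbove (fun _ : Fin 3 => unitInterval) 0
  have h2 := (MeasurePreserving.id (volume : Measure unitInterval)).prod
    (volume_preserving_finTwoArrow unitInterval)
  exact h2.comp h1

theorem sphn_cube_int (f : C(S3, ℂ)) :
    ∫ v : Cube 3, f (qS (v 0, (ic (v 1), ic (v 2)))) =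
      ∫ x : UnitAddCircle, ∫ y : UnitAddCircle, ∫ ρ : unitInterval, f (qS (ρ, (x, y))) := by
  have hc : Continuous fun p : unitInterval × (unitInterval × unitInterval) =>
      f (qS (p.1, (ic p.2.1, ic p.2.2))) := by fun_prop
  have e1 : ∫ v : Cube 3, f (qS (v 0, (ic (v 1), ic (v 2)))) =
      ∫ p : unitInterval × (unitInterval × unitInterval), f (qS (p.1, (ic p.2.1, ic p.2.2))) := by
    rw [← sphn_cube.map_eq, integral_map sphn_cube.aemeasurable hc.aestronglyMeasurable]
  rw [e1, Measure.volume_eq_prod, integral_prod_symm _ (hc.integrable_of_hasCompactSupport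
    (HasCompactSupport.of_compactSpace _))]
  have hc2 : Continuous fun p : unitInterval × unitInterval =>
      ∫ ρ : unitInterval, f (qS (ρ, (ic p.1, ic p.2))) := by
    refine sphn_cont ?_
    unfold Function.uncurry
    fun_prop
  rw [Measure.volume_eq_prod, integral_prod _ (hc2.integrable_of_hasCompactSupport
    (HasCompactSupport.of_compactSpace _))]
  have e2 : ∀ x : UnitAddCircle, ∫ t : unitInterval, ∫ ρ : unitInterval, f (qS (ρ, (x, ic t))) =
      sphn_J2 f x := fun x => integral_ic ⟨fun y => sphn_J f (x, y), by fun_prop⟩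
  simp only [e2]
  exact integral_ic (sphn_J2 f)

theorem sphn_total : (volume : Measure E4).toSphere.real Set.univ = 2 * Real.pi ^ 2 := by
  have h1 := int_toSphere 1
  rw [int_ball'] at h1
  have h3 : (volume : Measure UnitAddCircle).real Set.univ = 1 := by
    rw [measureReal_def, UnitAddCircle.measure_univ]
    rfl
  simp only [ContinuousMap.one_apply, integral_const, probReal_univ, h3, one_smul] at h1
  rw [Complex.real_smul, mul_one] at h1
  have h2 : (((volume : Measure E4).toSphere.real Set.univ : ℝ) : ℂ) =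
      ((2 * Real.pi ^ 2 : ℝ) : ℂ) := by
    rw [h1]
    push_cast
    ring
  exact Complex.ofReal_injective h2

/-- The normalized surface measure. Both sides are normalized: by `int_toSphere` and `int_ball'`,
`∫ f ∂toSphere = 2 π² * (iterated integral)`; take `f = 1` to see that the total mass is `2 π²`. The cube:
`MeasureTheory.volume_pi`, the measurable equivalence between `Cube 3` and
`unitInterval × (unitInterval × unitInterval)` (`MeasurableEquiv.piFinSuccAbove`, or
`measurePreserving_piFinSuccAbove`), Fubini, `integral_ic`. -/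
theorem int_sig3 (f : C(S3, ℂ)) :
    ∫ v : Cube 3, f (qS (v 0, (ic (v 1), ic (v 2)))) = ∫ z, f z ∂sig3 := by
  rw [sphn_cube_int, sig3, integral_smul_measure, int_toSphere, int_ball', ENNReal.toReal_inv,
    ← measureReal_def, sphn_total, Complex.real_smul]
  have hp : (Real.pi : ℂ) ≠ 0 := Complex.ofReal_ne_zero.2 Real.pi_ne_zero
  push_cast
  field_simp
  norm_num

/-- The same for real functions. -/
theorem int_sig3_real (f : C(S3, ℝ)) :
    ∫ v : Cube 3, f (qS (v 0, (ic (v 1), ic (v 2)))) = ∫ z, f z ∂sig3 := by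
  have h := int_sig3 ⟨fun z => (f z : ℂ), by fun_prop⟩
  simp only [ContinuousMap.coe_mk] at h
  rw [integral_complex_ofReal, integral_complex_ofReal] at h
  exact Complex.ofReal_injective h

end H7c
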