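import Pool.Agent.H.MP_7b4a29_c.GeoT
import Pool.Agent.H.MP_7b4a29_c.SphB
import Pool.Agent.H.MP_7b4a29_c.SphN
import Pool.Agent.H.MP_47f0a1_an.PeanoB

/-!
# The geometric data of the three-sphere
-/

open Filter Topology MeasureTheory

namespace H7c

/-- The point of the cube for `(ρ, x, y)`: every `hsh (ic a)` is `ic` of a point. -/
theorem exists_cube (ρ a b : unitInterval) : ∃ v : Cube 3, v 0 = ρ ∧ ic (v 1) = hsh (ic a) ∧
    ic (v 2) = hsh (ic b) := by
  obtain ⟨a', ha⟩ := ic_surj (hsh (ic a))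
  obtain ⟨b', hb⟩ := ic_surj (hsh (ic b))
  exact ⟨![ρ, a', b'], rfl, ha, hb⟩

/-- Integration along a measure preserving map. -/
theorem geos_mp {X Z E : Type} [MeasurableSpace X] [MeasurableSpace Z] [NormedAddCommGroup E]
    [NormedSpace ℝ E] {μ : Measure X} {ν : Measure Z} {φ : X → Z} (h : MeasurePreserving φ μ ν)
    (g : Z → E) (hg : AEStronglyMeasurable g ν) : ∫ x, g (φ x) ∂μ = ∫ y, g y ∂ν := by
  rw [← h.map_eq, integral_map h.measurable.aemeasurable (by rw [h.map_eq]; exact hg)]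

/-- The coordinates preserve the measure. -/
theorem geos_eval (i : Fin 3) : MeasurePreserving (fun v : Cube 3 => v i) volume volume :=
  measurePreserving_eval (fun _ : Fin 3 => (volume : Measure unitInterval)) i

/-- The measure of a neighbourhood of the middle of the cube. -/
theorem geos_vol (a : ℝ) (ha : 0 ≤ a) :
    (volume : Measure (Cube 3)).real {v : Cube 3 | |(v 0 : ℝ) - 1 / 2| < a} ≤ 2 * a := by
  have h1 : MeasurableSet {t : unitInterval | |(t : ℝ) - 1 / 2| < a} :=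
    (isOpen_lt (continuous_subtype_val.sub continuous_const).abs continuous_const).measurableSet
  have h2 : volume {v : Cube 3 | |(v 0 : ℝ) - 1 / 2| < a} =
      volume {t : unitInterval | |(t : ℝ) - 1 / 2| < a} :=
    (geos_eval 0).measure_preimage h1.nullMeasurableSet
  have h3 : (volume : Measure (Cube 3)).real {v : Cube 3 | |(v 0 : ℝ) - 1 / 2| < a} =
      (volume : Measure unitInterval).real {t : unitInterval | |(t : ℝ) - 1 / 2| < a} :=
    congrArg ENNReal.toReal h2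
  rw [h3]
  exact geot_vol a ha

/-- If the cosine is negative then the parameter is in the middle. -/
theorem geos_mid (t : unitInterval) (h : cC (ic t) < 0) : 1 / 4 ≤ min (t : ℝ) (1 - t) := by
  have h1 : cC (ic t) = Real.cos (2 * Real.pi * (t : ℝ)) := (cs_coe (t : ℝ)).1
  rw [h1] at h
  have hpi := Real.pi_pos
  have t0 := t.2.1
  have t1 := t.2.2
  refine le_min ?_ ?_
  · by_contra h2
    rw [not_le] at h2
    refine absurd (Real.cos_nonneg_of_neg_pi_div_two_le_of_le ?_ ?_) (not_le.2 h)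
    · nlinarith
    · nlinarith
  · by_contra h2
    rw [not_le] at h2
    have h3 : Real.cos (2 * Real.pi * (t : ℝ)) =
        Real.cos (2 * Real.pi * (t : ℝ) - 2 * Real.pi) := (Real.cos_sub_two_pi _).symm
    rw [h3] at h
    refine absurd (Real.cos_nonneg_of_neg_pi_div_two_le_of_le ?_ ?_) (not_le.2 h)
    · nlinarith
    · nlinarith

variable {Y3 : Type} [TopologicalSpace Y3] [CompactSpace Y3] [T2Space Y3] {y3 : Y3}
  {q3 : C((UnitAddCircle × Unit) × T2, Y3)} (hq3 : IsQ (Bp (bB (∅ : Set Unit))) y3 q3)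

/-- The homotopies: in the cube coordinates `v` the value is
`q3 ((ccol (ic (v 0)), ()), (nn n (s, v 1), ccol (hsh (ic (v 2)))))`. -/
noncomputable def nS (q3 : C((UnitAddCircle × Unit) × T2, Y3)) (n : ℕ) :
    C(unitInterval × Cube 3, Y3) :=
  ⟨fun p => q3 ((ccol (some n) (ic (p.2 0)), ()), (nn n (p.1, p.2 1),
    ccol (some n) (hsh (ic (p.2 2))))), by
      have h := hsh_continuous
      fun_prop⟩

include hq3

/-- The collapse maps of `Y3` in the coordinates of the torus. -/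
theorem col_q3 {col : Option ℕ → C(Y3, Y3)} {om : ℕ → C(Y3, ℂ)}
    (h : ColD y3 (q3.comp k3) col om) (o : Option ℕ) (x y z : UnitAddCircle) :
    col o (q3 ((x, ()), (y, z))) = q3 ((ccol o x, ()), (ccol o y, ccol o z)) := by
  obtain ⟨a, rfl⟩ := ic_surj x
  obtain ⟨b, rfl⟩ := ic_surj y
  obtain ⟨c, rfl⟩ := ic_surj z
  rw [ccol_ic, ccol_ic, ccol_ic]
  exact h.cq o ![a, b, c]

theorem nS_zero {col : Option ℕ → C(Y3, Y3)} {om : ℕ → C(Y3, ℂ)}
    (h : ColD y3 (q3.comp k3) col om) (p : C(S3, Y3))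
    (hp : ∀ (ρ : unitInterval) (x y : UnitAddCircle),
      p (qS (ρ, (x, y))) = q3 ((ic ρ, ()), (hsh x, hsh y))) (n : ℕ) (v : Cube 3) :
    nS q3 n (0, v) = col (some n) (p (qS (v 0, (ic (v 1), ic (v 2))))) := by
  rw [hp, col_q3 hq3 h, ← nn_zero]
  rfl

theorem nS_one (n : ℕ) (v : Cube 3) : nS q3 n (1, v) = y3 :=
  (hq3.base _).2 (Or.inr (Or.inl (nn_one n (v 1))))

theorem nS_supp (n : ℕ) (s : unitInterval) (v : Cube 3) (h : nS q3 n (s, v) ≠ y3) :
    onn n (v 1) = -1 :=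
  onn_neg n s (v 1) fun h1 => h ((hq3.base _).2 (Or.inr (Or.inl h1)))

/-- `nn_lip`; for `f : C(Y3, ℂ)` the function `f ∘ q3 ∘ (x, a, z ↦ ((x, ()), (ic a, z)))` is uniformly continuous on
the compact space `UnitAddCircle × unitInterval × UnitAddCircle`. -/
theorem eqs_nS : Eqs (nS q3) := by
  intro f ε hε
  obtain ⟨F, hF⟩ : ∃ F : C(UnitAddCircle × (unitInterval × UnitAddCircle), ℂ), ∀ x a z,
      F (x, (a, z)) = f (q3 ((x, ()), (ic a, z))) :=
    ⟨(f.comp q3).comp ⟨fun p => ((p.1, ()), (ic p.2.1, p.2.2)), by fun_prop⟩, fun _ _ _ => rfl⟩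
  have hc : UniformContinuous F := CompactSpace.uniformContinuous_of_continuous F.continuous
  obtain ⟨δ, hδ, h1⟩ := Metric.uniformContinuous_iff.1 hc ε hε
  refine ⟨δ / 2, half_pos hδ, fun s s' hs l v => ?_⟩
  have e1 : ∀ s : unitInterval, f (nS q3 l (s, v)) = F (ccol (some l) (ic (v 0)),
      (clp (nnv l s (v 1)), ccol (some l) (hsh (ic (v 2))))) := fun s => (hF _ _ _).symm
  rw [e1, e1]
  have h2 : dist (ccol (some l) (ic (v 0)),
      (clp (nnv l s (v 1)), ccol (some l) (hsh (ic (v 2))))) (ccol (some l) (ic (v 0)),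
      (clp (nnv l s' (v 1)), ccol (some l) (hsh (ic (v 2))))) < δ := by
    rw [Prod.dist_eq, Prod.dist_eq]
    refine max_lt ?_ (max_lt ?_ ?_)
    · change dist (ccol (some l) (ic (v 0))) (ccol (some l) (ic (v 0))) < δ
      rw [dist_self]
      exact hδ
    · change dist (clp (nnv l s (v 1))) (clp (nnv l s' (v 1))) < δ
      rw [Subtype.dist_eq, Real.dist_eq]
      exact lt_of_le_of_lt ((nn_lip l s s' (v 1)).trans hs) (half_lt_self hδ)
    · change dist (ccol (some l) (hsh (ic (v 2)))) (ccol (some l) (hsh (ic (v 2)))) < δ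
      rw [dist_self]
      exact hδ
  have h3 := (h1 h2).le
  rw [dist_eq_norm] at h3
  exact h3

/-- `om n ∘ p` differs from `1` only on a small set: `int_sig3_real`; `om n (p (qS (v 0, ..))) = 1` unless
`|v 0 - 1/2| < (1/2)^(n+1)` (`exists_cube`, `ColD.om2`), and `‖om n y - 1‖² ≤ 4`. The coordinate `v ↦ v 0` preserves the
measure. -/
theorem omS_small {col : Option ℕ → C(Y3, Y3)} {om : ℕ → C(Y3, ℂ)}
    (h : ColD y3 (q3.comp k3) col om) (p : C(S3, Y3))
    (hp : ∀ (ρ : unitInterval) (x y : UnitAddCircle),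
      p (qS (ρ, (x, y))) = q3 ((ic ρ, ()), (hsh x, hsh y))) (n : ℕ) :
    ∫ z, ‖om n (p z) - 1‖ ^ 2 ∂sig3 ≤ 8 * (1 / 2) ^ n := by
  have h0 := int_sig3_real ⟨fun z => ‖om n (p z) - 1‖ ^ 2,
    ((((om n).continuous.comp p.continuous).sub continuous_const).norm).pow 2⟩
  have h1 : ∫ z, ‖om n (p z) - 1‖ ^ 2 ∂sig3 =
      ∫ v : Cube 3, ‖om n (p (qS (v 0, (ic (v 1), ic (v 2))))) - 1‖ ^ 2 := h0.symm
  have h2 : ∀ v : Cube 3, v ∉ {v : Cube 3 | |(v 0 : ℝ) - 1 / 2| < (1 / 2) ^ (n + 1)} →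
      ‖om n (p (qS (v 0, (ic (v 1), ic (v 2))))) - 1‖ ^ 2 = 0 := by
    intro v hv
    have hv' : ¬ |(v 0 : ℝ) - 1 / 2| < (1 / 2) ^ (n + 1) := hv
    push Not at hv'
    obtain ⟨w, w0, w1, w2⟩ := exists_cube (v 0) (v 1) (v 2)
    have h3 : om n (q3 ((ic (w 0), ()), (ic (w 1), ic (w 2)))) = 1 :=
      h.om2 n w ⟨0, by rw [w0]; exact hv'⟩
    rw [hp, ← w1, ← w2, ← w0, h3, sub_self, norm_zero, zero_pow two_ne_zero]
  have h3 : ∀ x, ‖om n x‖ = 1 := by
    intro x
    have h4 := congrArg norm (h.ou n x)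
    rw [norm_mul, norm_star, norm_one, ← sq] at h4
    exact (pow_eq_one_iff_of_nonneg (norm_nonneg _) two_ne_zero).1 h4
  have h5 : ∀ y : Y3, ‖‖om n y - 1‖ ^ 2‖ ≤ 4 := by
    intro y
    have h6 : ‖om n y - 1‖ ≤ 2 := by
      refine (norm_sub_le _ _).trans ?_
      rw [h3, norm_one]
      norm_num
    rw [Real.norm_of_nonneg (by positivity)]
    nlinarith [norm_nonneg (om n y - 1)]
  rw [h1, ← setIntegral_eq_integral_of_forall_compl_eq_zero h2]
  have h6 := norm_setIntegral_le_of_norm_le_const (μ := (volume : Measure (Cube 3)))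
    (s := {v : Cube 3 | |(v 0 : ℝ) - 1 / 2| < (1 / 2) ^ (n + 1)})
    (f := fun v : Cube 3 => ‖om n (p (qS (v 0, (ic (v 1), ic (v 2))))) - 1‖ ^ 2) (C := 4)
    (measure_lt_top _ _) (fun v _ => h5 _)
  refine (le_abs_self _).trans (h6.trans ?_)
  have h7 := geos_vol ((1 / 2) ^ (n + 1)) (by positivity)
  have h8 : (0 : ℝ) < (1 / 2) ^ n := by positivity
  rw [pow_succ] at h7 ⊢
  linarith

/-- The function for the condition `nz`: `χ z = √2 * max 0 (-(z 0))`. -/
theorem exists_chiS : ∃ χ : C(S3, ℂ), χ (-a0) = 1 ∧ ∀ v : Cube 3,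
    χ (qS (v 0, (ic (v 1), ic (v 2)))) ≠ 0 → ∀ n, 1 ≤ n → onn n (v 1) = 1 := by
  have hc : Continuous fun z : S3 => (z : E4) 0 := by fun_prop
  refine ⟨⟨fun z => ((√2 * max 0 (-((z : E4) 0)) : ℝ) : ℂ), Complex.continuous_ofReal.comp
    (continuous_const.mul (continuous_const.max hc.neg))⟩, ?_, fun v hv n hn => ?_⟩
  · change ((√2 * max 0 (-(((-a0 : S3) : E4) 0)) : ℝ) : ℂ) = 1
    have h1 : ((-a0 : S3) : E4) 0 = -√(1 / 2) := by
      rw [← a0_coord.1]
      rfl
    rw [h1, neg_neg, max_eq_right (Real.sqrt_nonneg _), ← Real.sqrt_mul (by norm_num)]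
    norm_num
  · have hv' : ((√2 * max 0 (-(√((v 0 : unitInterval) : ℝ) * cC (ic (v 1)))) : ℝ) : ℂ) ≠ 0 := hv
    have h1 : cC (ic (v 1)) < 0 := by
      by_contra h2
      rw [not_lt] at h2
      refine hv' ?_
      rw [max_eq_left (neg_nonpos.2 (mul_nonneg (Real.sqrt_nonneg _) h2)), mul_zero,
        Complex.ofReal_zero]
    refine onn_one n (v 1) (le_trans ?_ (geos_mid (v 1) h1))
    have h2 : ((1 / 2 : ℝ)) ^ (n + 1) ≤ (1 / 2) ^ 2 :=
      pow_le_pow_of_le_one (by norm_num) (by norm_num) (by omega)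
    refine h2.trans (le_of_eq ?_)
    norm_num

/-- The data of the three-sphere: `k = 3`, `q = q3.comp k3` (`isQ_k3`), `col`, `om` from `exists_ColD`, `p`, `K` from
`exists_pK`; with a measure preserving map `c : [0, 1] → Cube 3` (`H47.exists_peano`):
`Q t = qS (c t 0, (ic (c t 1), ic (c t 2)))` (`int_sig3`), `N n (s, t) = nS q3 n (s, c t)` (`Eqs.pre`),
`on n t = onn n (c t 1)` (`onn_int`; `v ↦ v 1` preserves the measure). -/
theorem geoS : Nonempty (Geo S3 sig3 (-a0) Y3 y3) := by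
  obtain ⟨col, om, h⟩ := exists_ColD (by norm_num : 0 < 3) (isQ_k3 hq3)
  obtain ⟨p, K, hp0, hK0, hp, hkp, hpk⟩ := exists_pK hq3
  obtain ⟨c, hc⟩ := H47.exists_peano 3 (by norm_num)
  obtain ⟨χ, hχ0, hχ⟩ := exists_chiS hq3
  have hQc : Continuous fun v : Cube 3 => qS (v 0, (ic (v 1), ic (v 2))) := by fun_prop
  refine ⟨{
    k := 3
    q := q3.comp k3
    col := col
    om := om
    cd := h
    p := p
    K := K
    Q := ⟨fun t => qS (c t 0, (ic (c t 1), ic (c t 2))), hQc.comp c.continuous⟩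
    N := fun n => (nS q3 n).comp ⟨fun x => (x.1, c x.2), by fun_prop⟩
    on := fun n => (onn n).comp ⟨fun t => c t 1, by fun_prop⟩
    pz := hp0
    Kz := hK0
    sm := ⟨8, fun n => omS_small hq3 h p hp n⟩
    kp := hkp
    pk := hpk
    Qm := fun f => ?_
    N0 := fun n t => nS_zero hq3 h p hp n (c t)
    N1 := fun n t => nS_one hq3 n (c t)
    Ne := (eqs_nS hq3).pre fun _ => c
    nu := fun n t => onn_un n (c t 1)
    ns := fun n s t hn => nS_supp hq3 n s (c t) hn
    nm := ⟨8, fun n => ?_⟩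
    nz := ⟨χ, hχ0, 1, fun n hn t ht => hχ (c t) ht n hn⟩ }⟩
  · have h1 := geos_mp hc (fun v : Cube 3 => f (qS (v 0, (ic (v 1), ic (v 2)))))
      (f.continuous.comp hQc).aestronglyMeasurable
    exact h1.trans (int_sig3 f)
  · have h1 := geos_mp ((geos_eval 1).comp hc) (fun a : unitInterval => ‖onn n a - 1‖ ^ 2)
      ((((onn n).continuous.sub continuous_const).norm).pow 2).aestronglyMeasurable
    exact h1.le.trans (onn_int n)

end H7c
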