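import Pool.Agent.H.MP_7b4a29_c.Asm
import Pool.Agent.H.MP_7b4a29_c.GeoS
import Pool.Agent.H.MP_7b4a29_c.FinB
import Pool.Agent.H.MP_7b4a29_an.FinalAB

/-!
# Part (c)
-/

open MeasureTheory H47 H7b

namespace H7c

/-- The model of a measure space gives an algebra of type `IsPZ`. -/
theorem model_isPZ {Z : Type} [MetricSpace Z] [CompactSpace Z] [MeasurableSpace Z]
    [BorelSpace Z] {μ : Measure Z} [IsProbabilityMeasure μ]
    {K : Type} [NormedAddCommGroup K] [InnerProductSpace ℂ K] [CompleteSpace K]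
    (M : FModel C(Z, ℂ) (intL μ) K) (hc : M.Cyclic) : IsPZ μ M.trP M.incP M.kapP := by
  refine ⟨M.trP_incP, M.trP_kapP, ?_⟩
  have e : famZ M.incP M.kapP = M.famPZ := by
    funext i
    cases i <;> rfl
  rw [e]
  exact M.rfp_famPZ hc

theorem finC_closed : IsClosed (Bp (bB (∅ : Set Unit))) := by
  have h : Bp (bB (∅ : Set Unit)) =
      {z : (UnitAddCircle × Unit) × T2 | z.1.1 = 0} ∪ ({z | z.2.1 = 0} ∪ {z | z.2.2 = 0}) := by
    ext z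
    simp [Bp, bB, dT]
  rw [h]
  refine IsClosed.union ?_ (IsClosed.union ?_ ?_)
  · exact isClosed_eq (by fun_prop) continuous_const
  · exact isClosed_eq (by fun_prop) continuous_const
  · exact isClosed_eq (by fun_prop) continuous_const

/-- The free products with the circle and with the three-sphere are isomorphic. -/
theorem eqPZ_TS : EqPZ (volume : Measure UnitAddCircle) sig3 := by
  intro P P' _ _ tr tr' inc kap inc' kap' k k'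
  obtain ⟨K1, _, _, _, M1, hc1⟩ := exists_model C(UnitAddCircle, ℂ)
    (intL (volume : Measure UnitAddCircle)) (intL_isSt _)
  obtain ⟨K3, _, _, _, M3, hc3⟩ := exists_model C(S3, ℂ) (intL sig3) (intL_isSt _)
  obtain ⟨G1⟩ := geoT
  obtain ⟨Y3, _, _, _, y3, q3, hq3⟩ := exists_quot ((UnitAddCircle × Unit) × T2)
    (Bp (bB (∅ : Set Unit))) finC_closed ⟨((0, ()), (0, 0)), Or.inl (Or.inl rfl)⟩
  obtain ⟨G3⟩ := geoS hq3
  have k1 := model_isPZ M1 hc1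
  have k3 := model_isPZ M3 hc3
  obtain ⟨α, β, tα, tβ, c1, c2⟩ := core M1 G1 M3 hq3 G3
  obtain ⟨e1, -⟩ := k.unique k1
  obtain ⟨e3, -⟩ := k'.unique k3
  obtain ⟨e⟩ := fin_iso k1 k3 tα tβ c1 c2
  exact ⟨(e1.trans e).trans e3.symm⟩

/-- Part (c). -/
theorem part_c {B' P Q : Type*} [CStarAlgebra B'] [CStarAlgebra P] [CStarAlgebra Q]
    {τ : B' →ₗ[ℂ] ℂ} {ι : ℕ → C(unitInterval, ℂ) →⋆ₐ[ℂ] B'} (hB : FreeInf B' τ ι)
    {σ : P →ₗ[ℂ] ℂ} {a : C(circ, ℂ) →⋆ₐ[ℂ] P} {b : B' →⋆ₐ[ℂ] P}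
    (h : FreeProdZ (nrm (Measure.hausdorffMeasure (1 : ℝ)) circ) τ P σ a b)
    {σ' : Q →ₗ[ℂ] ℂ} {a' : C(S3, ℂ) →⋆ₐ[ℂ] Q} {b' : B' →⋆ₐ[ℂ] Q}
    (h' : FreeProdZ sig3 τ Q σ' a' b') : Nonempty (P ≃⋆ₐ[ℂ] Q) := by
  obtain ⟨e, he⟩ := exists_embC
  exact iso_of_models eqPZ_TS e (Homeomorph.refl S3) he (fun f => rfl) hB h h'

theorem exists_sph {B' : Type*} [CStarAlgebra B'] {τ : B' →ₗ[ℂ] ℂ}
    {ι : ℕ → C(unitInterval, ℂ) →⋆ₐ[ℂ] B'} (hB : FreeInf B' τ ι) :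
    ∃ (P : Type) (_ : CStarAlgebra P) (σ : P →ₗ[ℂ] ℂ) (a : C(S3, ℂ) →⋆ₐ[ℂ] P)
      (b : B' →⋆ₐ[ℂ] P), FreeProdZ sig3 τ P σ a b :=
  exists_of_model (Homeomorph.refl S3) (fun _ => rfl) hB

end H7c
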