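import Pool.Agent.H.MP_7b4a29_c.Defs
import Pool.Agent.H.MP_7b4a29_c.FinC
import Pool.Agent.H.MP_47f0a1_an.FinalB

/-!
# The full answer
-/

open MeasureTheory

namespace H7c

open H47 H7b

universe u v w

theorem full :
    (∃ (B : Type) (_ : CStarAlgebra B) (τ : B →ₗ[ℂ] ℂ)
      (ι : ℕ → C(unitInterval, ℂ) →⋆ₐ[ℂ] B), FreeInf B τ ι) ∧
    (∀ (z₀ A E c : ℂ) (R : ℝ), 0 < R → A ≠ E → Metric.sphere z₀ R ∩ segment ℝ A E = {c} →
      SameProd.{u, v, w} (nrm (Measure.hausdorffMeasure (1 : ℝ)) circ)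
        (nrm (Measure.hausdorffMeasure (1 : ℝ)) (loll z₀ R A E))) ∧
    (∀ (z₀ : ℂ) (r R : ℝ), 0 < r → r < R →
      SameProd.{u, v, w} (nrm (Measure.hausdorffMeasure (1 : ℝ)) circ)
        (nrm volume (annu z₀ r R))) ∧
    SameProd.{u, v, w} (nrm (Measure.hausdorffMeasure (1 : ℝ)) circ) sphm := by
  refine ⟨exists_freeInf, ?_, ?_, ?_⟩
  · intro z₀ A E c R hR hAE hX B _ τ ι hB
    exact ⟨exists_circ hB, exists_loll z₀ A E c R hR hAE hX hB,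
      fun P _ σ a b hP Q _ σ' a' b' hQ => part_a z₀ A E c R hR hAE hX hB hP hQ⟩
  · intro z₀ r R hr hrR B _ τ ι hB
    exact ⟨exists_circ hB, exists_annu z₀ r R hr hrR hB,
      fun P _ σ a b hP Q _ σ' a' b' hQ => part_b z₀ r R hr hrR hB hP hQ⟩
  · intro B _ τ ι hB
    exact ⟨exists_circ hB, exists_sph hB,
      fun P _ σ a b hP Q _ σ' a' b' hQ => part_c hB hP hQ⟩

end H7c
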