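import Pool.Agent.H.MP_7b4a29_c.Sz

/-!
# Rows
-/

open Filter Topology

namespace H7c

variable {I : Ix} (S : Sz I) (P : Type) [CStarAlgebra P]

/-- Bounded rows of size `S` over `P`. -/
structure Row where
  v : ∀ l, S.ty l → P
  bd : ∃ C : ℝ, 0 ≤ C ∧ ∀ l, ‖∑ i, v l i * star (v l i)‖ ≤ C ^ 2

variable {S P}

/-- The sandwich map `a ↦ ∑ x_i a_ij y_j*` on matrices. -/
noncomputable def sandL {ι : Type} [Fintype ι] [DecidableEq ι] (x y : ι → P) :
    MM ι P →ₗ[ℂ] P where
  toFun a := ∑ i, ∑ j, x i * MM.e a i j * star (y j)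
  map_add' a b := by
    simp only [MM.e_add, mul_add, add_mul, Finset.sum_add_distrib]
  map_smul' c a := by
    simp only [MM.e_smul, RingHom.id_apply, mul_smul_comm, smul_mul_assoc, Finset.smul_sum]

/-! ### Auxiliary material -/

section rowAux

variable {ι : Type} [Fintype ι] [DecidableEq ι] {τ : P →ₗ[ℂ] ℂ}

/-- The row as a matrix over `Option ι`. -/
noncomputable def row_X (x : ι → P) : MM (Option ι) P :=
  MM.of (fun p q => if p = none then (match q with
    | none => 0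
    | some i => x i) else 0)

theorem row_X_ns (x : ι → P) (i : ι) : MM.e (row_X x) none (some i) = x i := by
  rw [row_X, MM.e_of, if_pos rfl]

theorem row_X_nn (x : ι → P) : MM.e (row_X x) none none = 0 := by
  rw [row_X, MM.e_of, if_pos rfl]

theorem row_X_s (x : ι → P) (i : ι) (q : Option ι) : MM.e (row_X x) (some i) q = 0 := by
  rw [row_X, MM.e_of, if_neg (by simp)]

theorem row_norm_X (x : ι → P) (C : ℝ) (hC : 0 ≤ C)
    (hx : ‖∑ i, x i * star (x i)‖ ≤ C ^ 2) : ‖row_X x‖ ≤ C := by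
  have h1 : ‖row_X x * star (row_X x)‖ ≤ C ^ 2 := by
    refine (MM.norm_le_sum _).trans ?_
    rw [Fintype.sum_option]
    have h2 : ∀ i : ι, (∑ j, ‖MM.e (row_X x * star (row_X x)) (some i) j‖) = 0 := by
      intro i
      refine Finset.sum_eq_zero fun j _ => ?_
      rw [MM.e_mul, Finset.sum_eq_zero, norm_zero]
      intro k _
      rw [row_X_s, zero_mul]
    rw [Finset.sum_eq_zero (fun i _ => h2 i), add_zero, Fintype.sum_option]
    have h3 : ∀ i : ι, ‖MM.e (row_X x * star (row_X x)) none (some i)‖ = 0 := by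
      intro i
      rw [MM.e_mul, Finset.sum_eq_zero, norm_zero]
      intro k _
      rw [MM.e_star, row_X_s, star_zero, mul_zero]
    rw [Finset.sum_eq_zero (fun i _ => h3 i), add_zero, MM.e_mul, Fintype.sum_option]
    simp only [MM.e_star, row_X_nn, row_X_ns, zero_mul, zero_add]
    exact hx
  rw [CStarRing.norm_self_mul_star, ← sq] at h1
  exact (sq_le_sq₀ (norm_nonneg _) hC).1 h1

/-- The matrix extended by zero. -/
noncomputable def row_A (a : MM ι P) : MM (Option ι) P :=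
  MM.of (fun p q => match p, q with
    | some i, some j => MM.e a i j
    | _, _ => 0)

theorem row_A_ss (a : MM ι P) (i j : ι) : MM.e (row_A a) (some i) (some j) = MM.e a i j := by
  rw [row_A, MM.e_of]

theorem row_A_n (a : MM ι P) (q : Option ι) : MM.e (row_A a) none q = 0 := by
  rw [row_A, MM.e_of]

theorem row_A_sn (a : MM ι P) (i : ι) : MM.e (row_A a) (some i) none = 0 := by
  rw [row_A, MM.e_of]

theorem row_nsq_zero : nsq τ (0 : P) = 0 := by
  unfold nsq
  rw [mul_zero, map_zero, Complex.zero_re]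

theorem row_nsq_A (a : MM ι P) : nsq (MM.tr (Option ι) τ) (row_A a) = nsq (MM.tr ι τ) a := by
  rw [nsq_mat, nsq_mat, Fintype.sum_option]
  rw [Finset.sum_eq_zero (fun q _ => by rw [row_A_n, row_nsq_zero]), zero_add]
  refine Finset.sum_congr rfl fun i _ => ?_
  rw [Fintype.sum_option, row_A_sn, row_nsq_zero, zero_add]
  refine Finset.sum_congr rfl fun j _ => ?_
  rw [row_A_ss]

theorem row_e_XAY (a : MM ι P) (x y : ι → P) :
    MM.e (row_X x * row_A a * star (row_X y)) none none =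
      ∑ i, ∑ j, x i * MM.e a i j * star (y j) := by
  rw [MM.e_mul, Fintype.sum_option]
  simp only [MM.e_star, row_X_nn, row_X_ns, star_zero, mul_zero, zero_add, MM.e_mul,
    Fintype.sum_option, row_A_ss, row_A_sn, zero_mul, Finset.sum_mul]
  rw [Finset.sum_comm]

theorem row_nsq_sand (hτ : PTr τ) (a : MM ι P) (x y : ι → P) (C D : ℝ) (hC : 0 ≤ C) (hD : 0 ≤ D)
    (hx : ‖∑ i, x i * star (x i)‖ ≤ C ^ 2) (hy : ‖∑ i, y i * star (y i)‖ ≤ D ^ 2) :
    nsq τ (sandL x y a) ≤ C ^ 2 * D ^ 2 * nsq (MM.tr ι τ) a := by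
  have hT : PTr (MM.tr (Option ι) τ) := PTr.mat hτ
  have h0 : nsq τ (sandL x y a) ≤
      nsq (MM.tr (Option ι) τ) (row_X x * row_A a * star (row_X y)) := by
    rw [nsq_mat]
    have h1 : sandL x y a = MM.e (row_X x * row_A a * star (row_X y)) none none :=
      (row_e_XAY a x y).symm
    rw [h1]
    refine le_trans ?_ (Finset.single_le_sum (f := fun i => ∑ j, nsq τ
      (MM.e (row_X x * row_A a * star (row_X y)) i j))
      (fun i _ => Finset.sum_nonneg fun j _ => nsq_nonneg hτ _) (Finset.mem_univ none))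
    exact Finset.single_le_sum (f := fun j => nsq τ
      (MM.e (row_X x * row_A a * star (row_X y)) none j))
      (fun j _ => nsq_nonneg hτ _) (Finset.mem_univ none)
  have h1 := nsq_mul_le' hT (row_X x * row_A a) (star (row_X y))
  have h2 := nsq_mul_le hT (row_X x) (row_A a)
  rw [row_nsq_A] at h2
  rw [norm_star] at h1
  have hX := row_norm_X x C hC hx
  have hY := row_norm_X y D hD hy
  have hn : 0 ≤ nsq (MM.tr ι τ) a := nsq_nonneg (PTr.mat hτ) a
  have hX2 : ‖row_X x‖ ^ 2 ≤ C ^ 2 := pow_le_pow_left₀ (norm_nonneg _) hX 2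
  have hY2 : ‖row_X y‖ ^ 2 ≤ D ^ 2 := pow_le_pow_left₀ (norm_nonneg _) hY 2
  calc nsq τ (sandL x y a) ≤ ‖row_X y‖ ^ 2 * nsq (MM.tr (Option ι) τ) (row_X x * row_A a) :=
        h0.trans h1
    _ ≤ D ^ 2 * (C ^ 2 * nsq (MM.tr ι τ) a) := by
        refine mul_le_mul hY2 (h2.trans (mul_le_mul_of_nonneg_right hX2 hn))
          (nsq_nonneg hT _) (by positivity)
    _ = C ^ 2 * D ^ 2 * nsq (MM.tr ι τ) a := by ring

theorem row_sandL_apply (x y : ι → P) (a : MM ι P) :
    sandL x y a = ∑ i, ∑ j, x i * MM.e a i j * star (y j) := rfl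

theorem row_sandL_mul (x y z w : ι → P) (a b : MM ι P) :
    sandL x y a * sandL z w b =
      sandL x w (a * MM.of (fun i j => star (y i) * z j) * b) := by
  rw [row_sandL_apply, row_sandL_apply, row_sandL_apply, Finset.sum_mul]
  refine Finset.sum_congr rfl fun i _ => ?_
  rw [Finset.sum_mul]
  simp only [MM.e_mul, MM.e_of, Finset.sum_mul, Finset.mul_sum]
  refine (Finset.sum_comm).trans ?_
  refine Eq.trans ?_ (Finset.sum_comm)
  refine Finset.sum_congr rfl fun k _ => ?_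
  refine (Finset.sum_comm).trans ?_
  refine Finset.sum_congr rfl fun l _ => Finset.sum_congr rfl fun j _ => ?_
  simp only [mul_assoc]

theorem row_sandL_star (x y : ι → P) (a : MM ι P) :
    star (sandL x y a) = sandL y x (star a) := by
  simp only [row_sandL_apply, star_sum, star_mul, star_star, MM.e_star]
  rw [Finset.sum_comm]
  refine Finset.sum_congr rfl fun i _ => Finset.sum_congr rfl fun j _ => ?_
  rw [mul_assoc]

end rowAux

namespace Row

variable (X Y Z W : Row S P)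

/-- The norm bound of a row. -/
noncomputable def nm : ℝ := X.bd.choose

theorem nm_nonneg : 0 ≤ X.nm := X.bd.choose_spec.1

theorem nm_spec (l : I.L) : ‖∑ i, X.v l i * star (X.v l i)‖ ≤ X.nm ^ 2 :=
  X.bd.choose_spec.2 l

/-- The Gram matrix `X* Y`. -/
noncomputable def gram : RM S P := cl I (fun l => MM.of (fun i j => star (X.v l i) * Y.v l j))

theorem gram_bd : Bd (A := fun l => MM (S.ty l) P)
    (fun l => MM.of (fun i j => star (X.v l i) * Y.v l j)) :=
  ⟨X.nm * Y.nm, fun l => MM.norm_gram_le _ _ X.nm Y.nm X.nm_nonneg Y.nm_nonneg (X.nm_spec l)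
    (Y.nm_spec l)⟩

/-- The sandwich map `a ↦ X a Y*`. The bound is `MM.norm_sand_le`. -/
noncomputable def sand : RM S P →ₗ[ℂ] R1 I P :=
  SQ.lmap I (fun l => sandL (X.v l) (Y.v l)) (X.nm * Y.nm) (by
    intro l x
    exact MM.norm_sand_le x (X.v l) (Y.v l) X.nm Y.nm X.nm_nonneg Y.nm_nonneg (X.nm_spec l)
      (Y.nm_spec l))

theorem sand_cl {x : ∀ l, MM (S.ty l) P} (hx : Bd x) :
    sand X Y (cl I x) = cl I (fun l => sandL (X.v l) (Y.v l) (x l)) := by
  exact SQ.lmap_cl I _ _ _ hx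

theorem row_sandL_bd {x : ∀ l, MM (S.ty l) P} (hx : Bd x) :
    Bd (A := fun _ => P) (fun l => sandL (X.v l) (Y.v l) (x l)) := by
  obtain ⟨C, hC⟩ := hx
  refine ⟨X.nm * Y.nm * C, fun l => ?_⟩
  have h1 : ‖sandL (X.v l) (Y.v l) (x l)‖ ≤ X.nm * Y.nm * ‖x l‖ :=
    MM.norm_sand_le (x l) (X.v l) (Y.v l) X.nm Y.nm X.nm_nonneg Y.nm_nonneg (X.nm_spec l)
      (Y.nm_spec l)
  exact h1.trans (mul_le_mul_of_nonneg_left (hC l) (mul_nonneg X.nm_nonneg Y.nm_nonneg))

theorem norm_sand_le (a : RM S P) : ‖sand X Y a‖ ≤ X.nm * Y.nm * ‖a‖ := by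
  exact SQ.norm_lmap_le I _ _ _ (mul_nonneg X.nm_nonneg Y.nm_nonneg) a

theorem sand_continuous : Continuous (sand X Y) := by
  exact AddMonoidHomClass.continuous_of_bound (sand X Y) (X.nm * Y.nm) (norm_sand_le X Y)

/-- `(X a Y*) (Z b W*) = X (a (Y* Z) b) W*`. -/
theorem sand_mul (a b : RM S P) : sand X Y a * sand Z W b = sand X W (a * gram Y Z * b) := by
  obtain ⟨x, hx, rfl⟩ := cl_surj I a
  obtain ⟨y, hy, rfl⟩ := cl_surj I b
  have hg := gram_bd Y Z
  rw [gram, ← cl_mul I hx hg, ← cl_mul I (Bd.mul hx hg) hy, sand_cl X Y hx, sand_cl Z W hy,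
    sand_cl X W (Bd.mul (Bd.mul hx hg) hy),
    ← cl_mul I (row_sandL_bd X Y hx) (row_sandL_bd Z W hy)]
  congr 1
  funext l
  exact row_sandL_mul _ _ _ _ _ _

theorem sand_star (a : RM S P) : star (sand X Y a) = sand Y X (star a) := by
  obtain ⟨x, hx, rfl⟩ := cl_surj I a
  rw [← cl_star I hx, sand_cl X Y hx, sand_cl Y X hx.star, ← cl_star I (row_sandL_bd X Y hx)]
  congr 1
  funext l
  exact row_sandL_star _ _ _

theorem gram_star : star (gram X Y) = gram Y X := by
  rw [gram, gram, ← cl_star I (gram_bd X Y)]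
  congr 1
  funext l
  refine MM.ext fun i j => ?_
  rw [MM.e_star, MM.e_of, MM.e_of, star_mul, star_star]

/-- `nsq (∑ x_i a_ij y_j*) ≤ C² D² nsq a`: write the element as the corner of `X a Y*` in matrices over
`Option ι` as in `MM.norm_sand_le` and use `nsq_mul_le`, `nsq_mul_le'`, `nsq_mat`. -/
theorem sand_J {τ : P →ₗ[ℂ] ℂ} (hτ : PTr τ) {a : RM S P} (ha : JM S τ a) :
    J1 I τ (sand X Y a) := by
  obtain ⟨x, hx, rfl, h⟩ := ha
  refine ⟨fun l => sandL (X.v l) (Y.v l) (x l), row_sandL_bd X Y hx, (sand_cl X Y hx).symm,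
    fun k => ?_⟩
  have h1 := (h k).const_mul (X.nm ^ 2 * Y.nm ^ 2)
  rw [mul_zero] at h1
  refine squeeze_zero (fun l => mul_nonneg (by positivity) (nsq_nonneg hτ _)) (fun l => ?_) h1
  have h2 := row_nsq_sand hτ (x l) (X.v l) (Y.v l) X.nm Y.nm X.nm_nonneg Y.nm_nonneg
    (X.nm_spec l) (Y.nm_spec l)
  calc (I.w l : ℝ) ^ k * nsq τ (sandL (X.v l) (Y.v l) (x l))
      ≤ (I.w l : ℝ) ^ k * (X.nm ^ 2 * Y.nm ^ 2 * nsq (MM.tr (S.ty l) τ) (x l)) :=
        mul_le_mul_of_nonneg_left h2 (by positivity)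
    _ = X.nm ^ 2 * Y.nm ^ 2 * ((I.w l : ℝ) ^ k * nsq (MM.tr (S.ty l) τ) (x l)) := by ring

/-- The row of size one given by an element. -/
noncomputable def ofElt (u : R1 I P) : Row (Sz.one I) P where
  v l _ := SQ.rep I u l
  bd := by
    refine ⟨‖u‖ + 1, by positivity, fun l => ?_⟩
    have h1 : ∑ i : (Sz.one I).ty l, SQ.rep I u l * star (SQ.rep I u l) =
        SQ.rep I u l * star (SQ.rep I u l) := by
      change ∑ _i : Unit, SQ.rep I u l * star (SQ.rep I u l) = _
      rw [Fintype.sum_unique]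
    rw [h1, CStarRing.norm_self_mul_star, ← sq]
    exact pow_le_pow_left₀ (norm_nonneg _) (SQ.norm_rep_le I u l) 2

theorem sand_ofElt (u v : R1 I P) (a : R1 I P) :
    sand (ofElt u) (ofElt v) (unoR P a) = u * a * star v := by
  obtain ⟨x, hx, rfl⟩ := cl_surj I a
  have hu := SQ.rep_bd I u
  have hv := SQ.rep_bd I v
  have h1 : unoR P (cl I x) = cl I (fun l => MM.uno P (x l)) := SQ.map_cl I _ hx
  have h2 : Bd (A := fun l => MM ((Sz.one I).ty l) P) (fun l => MM.uno P (x l)) :=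
    Bd.map I (A := fun _ => P) (B := fun l => MM ((Sz.one I).ty l) P) (fun _ => MM.uno P) hx
  have h3 := sand_cl (ofElt u) (ofElt v) h2
  refine (congrArg (sand (ofElt u) (ofElt v)) h1).trans (h3.trans ?_)
  have h4 : u * cl I x * star v =
      cl I (fun l => SQ.rep I u l * x l * star (SQ.rep I v l)) := by
    rw [cl_mul I (Bd.mul hu hx) hv.star, cl_mul I hu hx, cl_star I hv, SQ.cl_rep, SQ.cl_rep]
  rw [h4]
  congr 1
  funext l
  change ∑ _i : Unit, ∑ _j : Unit, SQ.rep I u l * MM.e (MM.uno P (x l)) _i _j *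
    star (SQ.rep I v l) = _
  rw [Fintype.sum_unique, Fintype.sum_unique]
  congr 2

theorem gram_ofElt (u v : R1 I P) : gram (ofElt u) (ofElt v) = unoR P (star u * v) := by
  have hu := SQ.rep_bd I u
  have hv := SQ.rep_bd I v
  have h4 : star u * v = cl I (fun l => star (SQ.rep I u l) * SQ.rep I v l) := by
    rw [cl_mul I hu.star hv, cl_star I hu, SQ.cl_rep, SQ.cl_rep]
  have h1 : unoR P (cl I (fun l => star (SQ.rep I u l) * SQ.rep I v l)) =
      cl I (fun l => MM.uno P (star (SQ.rep I u l) * SQ.rep I v l)) :=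
    SQ.map_cl I _ (Bd.mul hu.star hv)
  rw [h4, h1, gram]
  rfl

end Row

end H7c
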