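import Pool.Agent.H.MP_7b4a29_c.CutJ
import Pool.Agent.H.MP_7b4a29_c.Row
import Pool.Agent.H.MP_47f0a1_an.ModelP
import Pool.Agent.H.MP_47f0a1_an.ModelR
import Pool.Agent.H.MP_47f0a1_an.NormL

/-!
# Families over a Fock model; creation operators with new labels
-/

open Filter Topology MeasureTheory H47

namespace H7c

section model

variable {Z : Type} [MetricSpace Z] [CompactSpace Z] [MeasurableSpace Z] [BorelSpace Z]
  {μ : Measure Z} [IsProbabilityMeasure μ]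
  {K : Type} [NormedAddCommGroup K] [InnerProductSpace ℂ K] [CompleteSpace K]
  (M : FModel C(Z, ℂ) (intL μ) K)

/-- The vacuum state is a positive trace on the algebra of the model (`st_tr`, `st_isSt`). -/
theorem ptr_trP : PTr M.trP :=
  ⟨fun x => M.st_isSt.nonneg (x : K →L[ℂ] K), fun x y => M.st_tr (intL_comm μ) x y x.2 y.2⟩

theorem trP_norm_le (x : M.PA) : ‖M.trP x‖ ≤ ‖x‖ := M.norm_st_le (x : K →L[ℂ] K)

variable (I : Ix)

/-- Families of operators. -/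
abbrev KK (I : Ix) (K : Type) [NormedAddCommGroup K] [InnerProductSpace ℂ K] [CompleteSpace K] :
    Type := SQ I (fun _ => K →L[ℂ] K)

/-- The inclusion. -/
noncomputable def inK : R1 I M.PA →⋆ₐ[ℂ] KK I K :=
  SQ.map I (fun _ => (M.E Set.univ).subtype)

theorem inK_cl {x : ∀ _ : I.L, M.PA} (hx : Bd x) :
    inK M I (cl I x) = cl I (fun l => (x l : K →L[ℂ] K)) := SQ.map_cl I _ hx

theorem fre_bd {x : ∀ _ : I.L, M.PA} (hx : Bd x) :
    Bd (A := fun _ => K →L[ℂ] K) (fun l => (x l : K →L[ℂ] K)) := hx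

theorem norm_inK (a : R1 I M.PA) : ‖inK M I a‖ = ‖a‖ := by
  obtain ⟨x, hx, rfl⟩ := cl_surj I a
  have hy := fre_bd M I hx
  rw [inK_cl M I hx]
  refine le_antisymm (le_of_forall_pos_le_add fun ε hε => ?_)
    (le_of_forall_pos_le_add fun ε hε => ?_)
  · refine norm_cl_le I (by positivity) hy ?_
    filter_upwards [eventually_norm_lt I hx (lt_add_of_pos_right _ hε)] with l hl
    exact hl.le
  · refine norm_cl_le I (by positivity) hx ?_
    filter_upwards [eventually_norm_lt I hy (lt_add_of_pos_right _ hε)] with l hl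
    exact hl.le

theorem inK_inj : Function.Injective (inK M I) := by
  intro a b h
  have h1 := norm_inK M I (a - b)
  rw [map_sub, h, sub_self, norm_zero] at h1
  exact sub_eq_zero.1 (norm_eq_zero.1 h1.symm)

theorem fre_am (c : ℂ) : ‖algebraMap ℂ (K →L[ℂ] K) c‖ ≤ ‖c‖ := by
  rw [Algebra.algebraMap_eq_smul_one]
  refine (norm_smul_le _ _).trans ?_
  exact mul_le_of_le_one_right (norm_nonneg _) ContinuousLinearMap.norm_id_le

theorem fre_tr (x : M.PA) : ‖((Algebra.linearMap ℂ (K →L[ℂ] K)) ∘ₗ M.trP) x‖ ≤ 1 * ‖x‖ := by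
  rw [one_mul]
  exact (fre_am (M.trP x)).trans (trP_norm_le M x)

theorem fre_tbd {x : ∀ _ : I.L, M.PA} (hx : Bd x) :
    Bd (A := fun _ => K →L[ℂ] K) (fun l => algebraMap ℂ (K →L[ℂ] K) (M.trP (x l))) := by
  obtain ⟨C, hC⟩ := hx
  exact ⟨C, fun l => ((fre_am _).trans (trP_norm_le M _)).trans (hC l)⟩

/-- The family of the traces, as a family of scalar operators. -/
noncomputable def tcK : R1 I M.PA →ₗ[ℂ] KK I K :=
  SQ.lmap I (fun _ => (Algebra.linearMap ℂ (K →L[ℂ] K)) ∘ₗ M.trP) 1 (fun _ x => fre_tr M x)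

theorem tcK_cl {x : ∀ _ : I.L, M.PA} (hx : Bd x) :
    tcK M I (cl I x) = cl I (fun l => algebraMap ℂ (K →L[ℂ] K) (M.trP (x l))) :=
  SQ.lmap_cl I _ _ _ hx

/-- The trace of an element of the ideal is zero: `‖τ x‖² ≤ nsq x`. -/
theorem tcK_J {a : R1 I M.PA} (ha : J1 I M.trP a) : tcK M I a = 0 := by
  obtain ⟨x, hx, rfl, h⟩ := ha
  rw [tcK_cl M I hx, cl_eq_zero_iff I (fre_tbd M I hx)]
  have h0 := h 0
  simp only [pow_zero, one_mul] at h0
  have h1 := (Real.continuous_sqrt.tendsto 0).comp h0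
  rw [Real.sqrt_zero] at h1
  refine squeeze_zero (fun l => norm_nonneg _) (fun l => ?_) h1
  refine (fre_am _).trans ?_
  have h2 := norm_T_mul_le (ptr_trP M) 1 (x l)
  have h3 : nsq M.trP (1 : M.PA) = 1 := by
    unfold nsq
    rw [star_one, one_mul, FModel.trP_apply]
    have h4 : M.st ((1 : M.PA) : K →L[ℂ] K) = 1 := M.st_one
    rw [h4, Complex.one_re]
  rw [star_one, one_mul, h3, one_mul] at h2
  exact Real.le_sqrt_of_sq_le h2

theorem tcK_mul_comm (a b : R1 I M.PA) : tcK M I (a * b) = tcK M I (b * a) := by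
  obtain ⟨x, hx, rfl⟩ := cl_surj I a
  obtain ⟨y, hy, rfl⟩ := cl_surj I b
  rw [← cl_mul I hx hy, ← cl_mul I hy hx, tcK_cl M I (Bd.mul hx hy), tcK_cl M I (Bd.mul hy hx)]
  congr 1
  funext l
  rw [(ptr_trP M).tr]

theorem tcK_central (a : R1 I M.PA) (x : KK I K) : tcK M I a * x = x * tcK M I a := by
  obtain ⟨y, hy, rfl⟩ := cl_surj I a
  obtain ⟨z, hz, rfl⟩ := cl_surj I x
  have ht := fre_tbd M I hy
  rw [tcK_cl M I hy, ← cl_mul I ht hz, ← cl_mul I hz ht]
  congr 1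
  funext l
  exact Algebra.commutes _ _

/-- The families with representatives in `E {j | j < k l}`. -/
def Sm (k : I.L → ℕ) : Set (R1 I M.PA) :=
  {a | ∃ x : ∀ _ : I.L, M.PA, Bd x ∧ cl I x = a ∧
    ∀ l, (x l : K →L[ℂ] K) ∈ M.E {j | j < k l}}

theorem fre_dense_aux (y : K →L[ℂ] K)
    (hy : y ∈ StarAlgebra.adjoin ℂ (Set.range M.inc ∪ M.s '' Set.univ)) :
    ∃ k : ℕ, y ∈ M.E {j | j < k} := by
  have hm : ∀ {k k' : ℕ}, k ≤ k' → M.E {j | j < k} ≤ M.E {j | j < k'} := fun h =>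
    M.E_mono fun j hj => lt_of_lt_of_le hj h
  induction hy using StarAlgebra.adjoin_induction with
  | mem x hx =>
    rcases hx with ⟨a, rfl⟩ | ⟨j, _, rfl⟩
    · exact ⟨0, M.inc_mem _ a⟩
    · exact ⟨j + 1, M.s_mem _ j (Nat.lt_succ_self j)⟩
  | algebraMap c => exact ⟨0, (M.E _).algebraMap_mem c⟩
  | add x y _ _ hx hy =>
    obtain ⟨k, hk⟩ := hx
    obtain ⟨k', hk'⟩ := hy
    exact ⟨max k k', add_mem (hm (le_max_left _ _) hk) (hm (le_max_right _ _) hk')⟩
  | mul x y _ _ hx hy =>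
    obtain ⟨k, hk⟩ := hx
    obtain ⟨k', hk'⟩ := hy
    exact ⟨max k k', mul_mem (hm (le_max_left _ _) hk) (hm (le_max_right _ _) hk')⟩
  | star x _ hx =>
    obtain ⟨k, hk⟩ := hx
    exact ⟨k, star_mem hk⟩

theorem fre_dense (x : M.PA) (ε : ℝ) (hε : 0 < ε) :
    ∃ k : ℕ, ∃ y : M.PA, (y : K →L[ℂ] K) ∈ M.E {j | j < k} ∧ ‖x - y‖ < ε := by
  have hx : (x : K →L[ℂ] K) ∈ closure ((StarAlgebra.adjoin ℂ
      (Set.range M.inc ∪ M.s '' Set.univ) : StarSubalgebra ℂ (K →L[ℂ] K)) : Set (K →L[ℂ] K)) := x.2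
  obtain ⟨y, hy, hd⟩ := Metric.mem_closure_iff.1 hx ε hε
  obtain ⟨k, hk⟩ := fre_dense_aux M y hy
  refine ⟨k, ⟨y, M.E_mono (Set.subset_univ _) hk⟩, hk, ?_⟩
  rw [dist_eq_norm] at hd
  exact hd

theorem fre_mono {k k' : ℕ} (h : k ≤ k') {y : K →L[ℂ] K} (hy : y ∈ M.E {j | j < k}) :
    y ∈ M.E {j | j < k'} := M.E_mono (fun _ hj => lt_of_lt_of_le hj h) hy

/-- Every element is in `Sm k` for some `k`. Proof: the union of the `E {j | j < k}` is dense in
`E univ` (it is a star subalgebra whose closure contains the generators); take representatives and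
approximate them within `1 / (w l + 1)`. -/
theorem exists_Sm (n : ℕ) (a : Fin n → R1 I M.PA) : ∃ k, ∀ i, a i ∈ Sm M I k := by
  have h1 : ∀ i, ∃ x : ∀ _ : I.L, M.PA, Bd x ∧ cl I x = a i := fun i => cl_surj I (a i)
  choose x hx hxa using h1
  have hpos : ∀ l, (0 : ℝ) < 1 / ((I.w l : ℝ) + 1) := fun l => by positivity
  have h2 : ∀ i l, ∃ k : ℕ, ∃ y : M.PA, (y : K →L[ℂ] K) ∈ M.E {j | j < k} ∧
      ‖x i l - y‖ < 1 / ((I.w l : ℝ) + 1) := fun i l => fre_dense M (x i l) _ (hpos l)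
  choose k y hy hd using h2
  refine ⟨fun l => Finset.univ.sup fun i => k i l, fun i => ?_⟩
  have hb : Bd (fun l => x i l - y i l) := by
    refine ⟨1, fun l => (hd i l).le.trans ?_⟩
    rw [div_le_one (by positivity)]
    have : (0 : ℝ) ≤ (I.w l : ℝ) := Nat.cast_nonneg _
    linarith
  have hby : Bd (y i) := by
    have h3 := (hx i).sub hb
    have h4 : (fun l => x i l - (x i l - y i l)) = y i := by
      funext l
      exact sub_sub_cancel _ _
    rwa [h4] at h3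
  refine ⟨y i, hby, ?_, fun l => ?_⟩
  · rw [← hxa i, eq_comm, cl_eq_iff I (hx i) hby]
    have h5 : Tendsto (fun l => 1 / ((I.w l : ℝ) + 1)) I.F (𝓝 0) :=
      (tendsto_one_div_add_atTop_nhds_zero_nat (𝕜 := ℝ)).comp I.tw
    exact squeeze_zero (fun l => norm_nonneg _) (fun l => (hd i l).le) h5
  · exact fre_mono M (Finset.le_sup (f := fun i => k i l) (Finset.mem_univ i)) (hy i l)

theorem Sm_add {k : I.L → ℕ} {a b : R1 I M.PA} (ha : a ∈ Sm M I k) (hb : b ∈ Sm M I k) :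
    a + b ∈ Sm M I k := by
  obtain ⟨x, hx, rfl, h1⟩ := ha
  obtain ⟨y, hy, rfl, h2⟩ := hb
  exact ⟨fun l => x l + y l, hx.add hy, cl_add I hx hy, fun l => add_mem (h1 l) (h2 l)⟩

theorem Sm_mul {k : I.L → ℕ} {a b : R1 I M.PA} (ha : a ∈ Sm M I k) (hb : b ∈ Sm M I k) :
    a * b ∈ Sm M I k := by
  obtain ⟨x, hx, rfl, h1⟩ := ha
  obtain ⟨y, hy, rfl, h2⟩ := hb
  exact ⟨fun l => x l * y l, Bd.mul hx hy, cl_mul I hx hy, fun l => mul_mem (h1 l) (h2 l)⟩

theorem Sm_star {k : I.L → ℕ} {a : R1 I M.PA} (ha : a ∈ Sm M I k) : star a ∈ Sm M I k := by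
  obtain ⟨x, hx, rfl, h1⟩ := ha
  exact ⟨fun l => star (x l), hx.star, cl_star I hx, fun l => star_mem (h1 l)⟩

theorem Sm_smul {k : I.L → ℕ} {a : R1 I M.PA} (c : ℂ) (ha : a ∈ Sm M I k) :
    c • a ∈ Sm M I k := by
  obtain ⟨x, hx, rfl, h1⟩ := ha
  exact ⟨fun l => c • x l, hx.smul c, cl_smul I c hx, fun l => SMulMemClass.smul_mem c (h1 l)⟩

theorem Sm_one (k : I.L → ℕ) : (1 : R1 I M.PA) ∈ Sm M I k :=
  ⟨fun _ => 1, Bd.one, cl_one I, fun _ => one_mem _⟩

/-- Creation operators with new labels. -/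
noncomputable def fL {n : ℕ} (k : I.L → ℕ) (j : Fin n) : KK I K :=
  cl I (fun l => M.ell (k l + j))

theorem fre_lbd {n : ℕ} (k : I.L → ℕ) (j : Fin n) :
    Bd (A := fun _ => K →L[ℂ] K) (fun l : I.L => M.ell (k l + j)) :=
  ⟨1, fun _ => M.norm_ell_le _⟩

/-- Semicircular elements with new labels. -/
noncomputable def fS {n : ℕ} (k : I.L → ℕ) (j : Fin n) : R1 I M.PA :=
  cl I (fun l => (⟨M.s (k l + j), M.s_mem Set.univ _ (Set.mem_univ _)⟩ : M.PA))

theorem inK_fS {n : ℕ} (k : I.L → ℕ) (j : Fin n) :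
    inK M I (fS M I k j) = fL M I k j + star (fL M I k j) := by
  have hb : Bd (fun l : I.L => (⟨M.s (k l + j), M.s_mem Set.univ _ (Set.mem_univ _)⟩ : M.PA)) :=
    ⟨2, fun _ => M.norm_s_le _⟩
  have hl := fre_lbd M I k j
  rw [fS, inK_cl M I hb, fL, ← cl_star I hl, ← cl_add I hl hl.star]
  rfl

/-- The compression property (`FModel.compress`). -/
theorem fL_compress {n : ℕ} (k : I.L → ℕ) (i j : Fin n) {a : R1 I M.PA} (ha : a ∈ Sm M I k) :
    star (fL M I k i) * inK M I a * fL M I k j = if i = j then tcK M I a else 0 := by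
  obtain ⟨x, hx, rfl, h1⟩ := ha
  have hi := fre_lbd M I k i
  have hj := fre_lbd M I k j
  have hy := fre_bd M I hx
  have hc : ∀ l, star (M.ell (k l + i)) * (x l : K →L[ℂ] K) * M.ell (k l + j) =
      if i = j then algebraMap ℂ (K →L[ℂ] K) (M.trP (x l)) else 0 := by
    intro l
    have hi' : k l + (i : ℕ) ∉ {j | j < k l} := fun h => absurd h (by simp)
    have hj' : k l + (j : ℕ) ∉ {j | j < k l} := fun h => absurd h (by simp)
    rw [M.compress {j | j < k l} _ _ hi' hj' _ (h1 l)]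
    have he : (k l + (i : ℕ) = k l + (j : ℕ)) ↔ i = j := by
      rw [Nat.add_left_cancel_iff, Fin.ext_iff]
    simp only [he, FModel.trP_apply]
  rw [inK_cl M I hx, fL, fL, ← cl_star I hi, ← cl_mul I hi.star hy,
    ← cl_mul I (Bd.mul hi.star hy) hj, tcK_cl M I hx]
  simp only [hc]
  split_ifs
  · rfl
  · exact cl_zero I

end model

end H7c
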