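import Pool.Agent.H.MP_7b4a29_c.GTa

/-!
# Transfer matrices: paths; compression to two slots
-/

open Filter Topology

namespace H7c

variable {D : Type} [CStarAlgebra D] {J : D → Prop} {Y : Type} [TopologicalSpace Y]
  [CompactSpace Y] {y0 : Y}

/-! ### Auxiliary material -/

section gtb_aux

variable {ι : Type} [Fintype ι] [DecidableEq ι]

/-- The elements whose entries differ from the identity by elements of `J` form a monoid. -/
theorem gtb_J_mul (hJ : Idl J) {G S : MM ι D} (h1 : ∀ i j, J (MM.e (G - 1) i j))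
    (h2 : ∀ i j, J (MM.e (S - 1) i j)) (i j : ι) : J (MM.e (G * S - 1) i j) := by
  have h : G * S - 1 = (G - 1) * S + (S - 1) := by
    rw [sub_mul, one_mul]
    abel
  rw [h, MM.e_add, MM.e_mul]
  refine hJ.add _ _ (hJ.sum _ _ fun k _ => hJ.mul_right _ _ (h1 i k)) (h2 i j)

omit [Fintype ι] [DecidableEq ι] in
theorem gtb_oa {R : Type} [Ring R] (a b : R) : (1 + a) * (1 + b) = 1 + (a + b + a * b) := by
  noncomm_ring

/-- Diagonal matrices. -/
noncomputable def gtb_dg (x : ι → D) : MM ι D := (MM.mm_diag : (ι → D) →⋆ₙₐ[ℂ] MM ι D) x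

theorem gtb_dg_e (x : ι → D) (p q : ι) : MM.e (gtb_dg x) p q = if p = q then x p else 0 := rfl

theorem gtb_dg_sub (x y : ι → D) : gtb_dg x - gtb_dg y = gtb_dg (fun i => x i - y i) :=
  (map_sub (MM.mm_diag : (ι → D) →⋆ₙₐ[ℂ] MM ι D) x y).symm

/-- A function on `Option n`. -/
def gtb_x {n : Type} (a : D) (b : n → D) : Option n → D
  | none => a
  | some k => b k

theorem gtb_dgT {n : Type} [Fintype n] [DecidableEq n] (c : Cyc J Y y0) (T : n → Cyc J Y y0)
    (f : C(Y, ℂ)) : dgT c T f = gtb_dg (gtb_x (c.κ f) (fun k => (T k).κ f)) := by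
  refine MM.ext fun p q => ?_
  rw [dgT, MM.e_of, gtb_dg_e]
  cases p <;> rfl

/-- The vector of the transposition. -/
noncomputable def gtb_v (a b p : ι) : ℂ := (if p = a then 1 else 0) - (if p = b then 1 else 0)

omit [Fintype ι] in
theorem gtb_v_star (a b p : ι) : star (gtb_v a b p) = gtb_v a b p := by
  unfold gtb_v
  split_ifs <;> simp

theorem gtb_v_sum {a b : ι} (hab : a ≠ b) : ∑ k, gtb_v a b k * gtb_v a b k = 2 := by
  have h : ∀ k, gtb_v a b k * gtb_v a b k = (if k = a then 1 else 0) + (if k = b then 1 else 0) := by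
    intro k
    unfold gtb_v
    by_cases h1 : k = a
    · by_cases h2 : k = b
      · exact absurd (h1.symm.trans h2) hab
      · simp [h1, hab]
    · by_cases h2 : k = b
      · simp [h2, hab.symm]
      · simp [h1, h2]
  simp only [h, Finset.sum_add_distrib, Finset.sum_ite_eq', Finset.mem_univ, if_true]
  norm_num

/-- The element `d ⊗ q` where `q` is the projection on the vector `a - b`. -/
noncomputable def gtb_t (a b : ι) (d : D) : MM ι D :=
  MM.of (fun p q => (1 / 2 * (gtb_v a b p * gtb_v a b q)) • d)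

theorem gtb_t_mul {a b : ι} (hab : a ≠ b) (d d' : D) :
    gtb_t a b d * gtb_t a b d' = gtb_t a b (d * d') := by
  refine MM.ext fun p q => ?_
  rw [MM.e_mul]
  simp only [gtb_t, MM.e_of, smul_mul_smul_comm]
  rw [← Finset.sum_smul]
  congr 1
  have h : ∀ k, 1 / 2 * (gtb_v a b p * gtb_v a b k) * (1 / 2 * (gtb_v a b k * gtb_v a b q)) =
      1 / 4 * (gtb_v a b p * gtb_v a b q) * (gtb_v a b k * gtb_v a b k) := fun k => by ring
  simp only [h]
  rw [← Finset.mul_sum, gtb_v_sum hab]
  ring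

theorem gtb_t_star (a b : ι) (d : D) : star (gtb_t a b d) = gtb_t a b (star d) := by
  refine MM.ext fun p q => ?_
  rw [MM.e_star]
  simp only [gtb_t, MM.e_of, star_smul]
  congr 1
  simp only [star_mul', gtb_v_star, star_div₀, star_one, star_ofNat]
  ring

theorem gtb_t_add (a b : ι) (d d' : D) : gtb_t a b (d + d') = gtb_t a b d + gtb_t a b d' := by
  refine MM.ext fun p q => ?_
  rw [MM.e_add]
  simp only [gtb_t, MM.e_of, smul_add]

theorem gtb_t_zero (a b : ι) : gtb_t a b (0 : D) = 0 := by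
  refine MM.ext fun p q => ?_
  rw [MM.e_zero]
  simp only [gtb_t, MM.e_of, smul_zero]

/-- The transposition of two slots. -/
theorem gtb_swap (hJ : Idl J) {ζ : D} (u1 : star ζ * ζ = 1) (u2 : ζ * star ζ = 1)
    (hj : J (ζ - 1)) {a b : ι} (hab : a ≠ b) :
    ∃ S : MM ι D, star S * S = 1 ∧ S * star S = 1 ∧ (∀ i j, J (MM.e (S - 1) i j)) ∧
      ∀ x : ι → D, (∀ i, ζ * x i = -x i) → (∀ i, x i * ζ = -x i) →
        S * gtb_dg x = gtb_dg (fun i => x (Equiv.swap a b i)) * S := by
  have r1 : star (ζ - 1) + (ζ - 1) + star (ζ - 1) * (ζ - 1) = 0 := by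
    rw [star_sub, star_one, sub_mul, mul_sub, u1, mul_one, one_mul]
    abel
  have r2 : star (ζ - 1) + (ζ - 1) + (ζ - 1) * star (ζ - 1) = 0 := by
    rw [star_sub, star_one, sub_mul, mul_sub, u2, mul_one, one_mul]
    abel
  refine ⟨1 + gtb_t a b (ζ - 1), ?_, ?_, ?_, ?_⟩
  · rw [star_add, star_one, gtb_t_star, gtb_oa, gtb_t_mul hab, ← gtb_t_add, ← gtb_t_add, r1,
      gtb_t_zero, add_zero]
  · rw [star_add, star_one, gtb_t_star, gtb_oa, gtb_t_mul hab, ← gtb_t_add, ← gtb_t_add,
      add_comm (ζ - 1), r2, gtb_t_zero, add_zero]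
  · intro i j
    rw [add_sub_cancel_left]
    exact hJ.smul _ _ hj
  · intro x hx1 hx2
    refine MM.ext fun p q => ?_
    rw [MM.e_mul, MM.e_mul]
    simp only [gtb_dg_e, mul_ite, mul_zero, ite_mul, zero_mul, Finset.sum_ite_eq,
      Finset.sum_ite_eq', Finset.mem_univ, if_true]
    rw [MM.e_add, MM.e_one]
    simp only [gtb_t, MM.e_of]
    have h1 : (ζ - 1) * x q = (-2 : ℂ) • x q := by
      rw [sub_mul, one_mul, hx1, show (-2 : ℂ) = -1 + -1 by norm_num, add_smul, neg_one_smul]
      abel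
    have h2 : x (Equiv.swap a b p) * (ζ - 1) = (-2 : ℂ) • x (Equiv.swap a b p) := by
      rw [mul_sub, mul_one, hx2, show (-2 : ℂ) = -1 + -1 by norm_num, add_smul, neg_one_smul]
      abel
    rw [add_mul, mul_add, smul_mul_assoc, mul_smul_comm, h1, h2, smul_smul, smul_smul,
      show 1 / 2 * (gtb_v a b p * gtb_v a b q) * (-2 : ℂ) = -(gtb_v a b p * gtb_v a b q) by ring]
    by_cases hp1 : p = a
    · subst hp1
      rw [Equiv.swap_apply_left]
      by_cases hq1 : q = p
      · subst hq1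
        simp [gtb_v, hab]
      · by_cases hq2 : q = b
        · subst hq2
          simp [gtb_v, hab, hab.symm]
        · simp [gtb_v, hab, hq1, hq2, Ne.symm hq1]
    · by_cases hp2 : p = b
      · subst hp2
        rw [Equiv.swap_apply_right]
        by_cases hq1 : q = p
        · subst hq1
          simp [gtb_v, hab, hab.symm]
        · by_cases hq2 : q = a
          · subst hq2
            simp [gtb_v, hab, hab.symm]
          · simp [gtb_v, hq1, hq2, Ne.symm hq1]
      · rw [Equiv.swap_apply_of_ne_of_ne hp1 hp2]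
        by_cases hq : p = q
        · subst hq
          simp [gtb_v, hp1, hp2]
        · simp [gtb_v, hp1, hp2, hq]

/-- Permutations of the slots. -/
theorem gtb_perm (hJ : Idl J) {ζ : D} (u1 : star ζ * ζ = 1) (u2 : ζ * star ζ = 1)
    (hj : J (ζ - 1)) (σ : Equiv.Perm ι) :
    ∃ S : MM ι D, star S * S = 1 ∧ S * star S = 1 ∧ (∀ i j, J (MM.e (S - 1) i j)) ∧
      ∀ x : ι → D, (∀ i, ζ * x i = -x i) → (∀ i, x i * ζ = -x i) →
        S * gtb_dg x = gtb_dg (fun i => x (σ i)) * S := by
  refine Equiv.Perm.swap_induction_on σ ?_ ?_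
  · refine ⟨1, by rw [star_one, one_mul], by rw [star_one, one_mul], fun i j => ?_,
      fun x _ _ => ?_⟩
    · rw [sub_self, MM.e_zero]
      exact hJ.zero
    · rw [one_mul, mul_one]
      rfl
  · rintro f a b hab ⟨G, g1, g2, g3, g4⟩
    obtain ⟨S, s1, s2, s3, s4⟩ := gtb_swap hJ u1 u2 hj hab
    refine ⟨G * S, ?_, ?_, gtb_J_mul hJ g3 s3, fun x hx1 hx2 => ?_⟩
    · rw [star_mul, mul_assoc, ← mul_assoc (star G), g1, one_mul, s1]
    · rw [star_mul, mul_assoc, ← mul_assoc S, s2, one_mul, g2]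
    · rw [mul_assoc, s4 x hx1 hx2, ← mul_assoc,
        g4 (fun i => x (Equiv.swap a b i)) (fun i => hx1 _) (fun i => hx2 _), mul_assoc]
      rfl

theorem gtb_mono {c c' : Cyc J Y y0} {F : Finset C(Y, ℂ)} {e e' : ℝ} (h : GTn c c' F e)
    (he : e ≤ e') : GTn c c' F e' := by
  obtain ⟨n, i1, i2, T, G, h1, h2, h3, h4⟩ := h
  exact ⟨n, i1, i2, T, G, h1, h2, h3, fun f hf => (h4 f hf).trans he⟩

end gtb_aux

/-- A chain of cycles with a common `ζ` and small steps: the errors do not add up.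

Proof by induction on `L`. `L = 0` and `L = 1`: `n` empty, `G = 1`. Let `L ≥ 2` and let
`(n, T', G')` be the data for `c 1, …, c L`. Take the index set `Option n` and
`T none = c 1`, `T (some k) = T' k`. Let `S` be the unitary `1 + (ζ - 1) ⊗ q` in the two slots `none`,
`some none`, where `q = ½ (1, -1; -1, 1)`, and `1` in the other slots:
`S * diag(c0.κ f, c1.κ f) = diag(c1.κ f, c0.κ f) * S` because `S * m = sw * m` and `m * S = m * sw` for
`m = diag(hat, hat)` (`ζ * hat = -hat = hat * ζ`), where `sw` is the swap. Let `G''` be `G'` in the slots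
`none`, `some (some k)` and `1` in the slot `some none` (`exists_embed`). Then for `G = G'' * S`
`G * dgT (c 0) T f - dgT (c L) T f * G
  = (G'' * diag(c1, c0, T') - diag(cL, c1, T') * G'') * S`, and the matrix in parentheses is block
diagonal: the error of `G'` in the slots `none`, `some (some k)` and `c0.κ f - c1.κ f` in the slot
`some none`. Its norm is at most the maximum of the norms of the two blocks. -/
theorem gtn_chain (hJ : Idl J) (L : ℕ) (c : ℕ → Cyc J Y y0) (ζ : D) (hζ : ∀ k, k ≤ L → (c k).ζ = ζ)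
    (F : Finset C(Y, ℂ)) (e : ℝ) (he : 0 ≤ e)
    (h : ∀ k, k < L → ∀ f ∈ F, ‖(c k).κ f - (c (k + 1)).κ f‖ ≤ e) : GTn (c 0) (c L) F e := by
  rcases L with _ | m
  · exact GTn.refl hJ (c 0) F e he
  obtain ⟨s, hs0, hs1⟩ : ∃ s : Equiv.Perm (Option (Fin m)),
      (((finSuccEquiv m).symm (s none) : Fin (m + 1)) : ℕ) = m ∧
      ∀ k : Fin m, (((finSuccEquiv m).symm (s (some k)) : Fin (m + 1)) : ℕ) = k := by
    refine ⟨((finSuccEquiv m).symm.trans ((finRotate (m + 1)).symm.trans (finSuccEquiv m))),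
      ?_, fun k => ?_⟩
    · simp only [Equiv.trans_apply, Equiv.symm_apply_apply, finSuccEquiv_symm_none]
      rw [show (finRotate (m + 1)).symm 0 = Fin.last m from
        (Equiv.symm_apply_eq _).2 finRotate_last.symm]
      rfl
    · simp only [Equiv.trans_apply, Equiv.symm_apply_apply, finSuccEquiv_symm_some]
      rw [show (finRotate (m + 1)).symm k.succ = k.castSucc from (Equiv.symm_apply_eq _).2 (by
        rw [show k.castSucc = ⟨k.1, k.2.trans_le m.le_succ⟩ from rfl, finRotate_of_lt k.2]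
        rfl)]
      rfl
  obtain ⟨v, hv⟩ : ∃ v : Option (Fin m) → ℕ,
      v = fun o => (((finSuccEquiv m).symm o : Fin (m + 1)) : ℕ) := ⟨_, rfl⟩
  have hv0 : v none = 0 := by
    rw [hv]
    simp only [finSuccEquiv_symm_none]
    rfl
  have hv1 : ∀ k : Fin m, v (some k) = k + 1 := by
    intro k
    rw [hv]
    simp only [finSuccEquiv_symm_some]
    rfl
  have hs0' : v (s none) = m := by rw [hv]; exact hs0
  have hs1' : ∀ k : Fin m, v (s (some k)) = k := fun k => by rw [hv]; exact hs1 k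
  have hvle : ∀ o, v o ≤ m := by
    intro o
    rw [hv]
    exact Nat.lt_succ_iff.1 (((finSuccEquiv m).symm o).2)
  obtain ⟨G, g1, g2, g3, g4⟩ := gtb_perm hJ (hζ 0 (Nat.zero_le _) ▸ (c 0).u1)
    (hζ 0 (Nat.zero_le _) ▸ (c 0).u2) (hζ 0 (Nat.zero_le _) ▸ (c 0).j) s
  refine ⟨Fin m, inferInstance, inferInstance, fun k => c (k + 1), G, g1, g2, g3,
    fun f hf => ?_⟩
  obtain ⟨x, hx⟩ : ∃ x : Option (Fin m) → D, x = fun o => (c (v o)).hat f := ⟨_, rfl⟩
  have hx1 : ∀ o, ζ * x o = -x o := by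
    intro o
    rw [hx, ← hζ (v o) ((hvle o).trans (Nat.le_succ m))]
    exact (c (v o)).zeta_hat f
  have hx2 : ∀ o, x o * ζ = -x o := by
    intro o
    rw [hx, ← hζ (v o) ((hvle o).trans (Nat.le_succ m))]
    exact (c (v o)).hat_zeta f
  have h5 := g4 x hx1 hx2
  have h6 : ∀ y : Option (Fin m) → D, gtb_dg (fun o => algebraMap ℂ D (f y0) + y o) =
      algebraMap ℂ (MM (Option (Fin m)) D) (f y0) + gtb_dg y := by
    intro y
    refine MM.ext fun p q => ?_
    rw [MM.e_add, Algebra.algebraMap_eq_smul_one (A := MM (Option (Fin m)) D), MM.e_smul,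
      MM.e_one, gtb_dg_e, gtb_dg_e]
    split_ifs
    · rw [Algebra.algebraMap_eq_smul_one]
    · rw [smul_zero, add_zero]
  have h7 : dgT (c 0) (fun k : Fin m => c (k + 1)) f =
      gtb_dg (fun o => algebraMap ℂ D (f y0) + x o) := by
    refine MM.ext fun p q => ?_
    rw [gtb_dg_e, dgT, MM.e_of]
    split_ifs with hpq
    · cases p with
      | none => rw [hx]; simp only [hv0]; exact (c 0).kappa_eq f
      | some k => rw [hx]; simp only [hv1]; exact (c (k + 1)).kappa_eq f
    · rfl
  have h8 : dgT (c (m + 1)) (fun k : Fin m => c (k + 1)) f =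
      gtb_dg (gtb_x ((c (m + 1)).κ f) (fun k : Fin m => (c (k.1 + 1)).κ f)) := gtb_dgT _ _ _
  have h9 : G * dgT (c 0) (fun k : Fin m => c (k + 1)) f =
      gtb_dg (fun o => algebraMap ℂ D (f y0) + x (s o)) * G := by
    rw [h7, h6, h6 (fun o => x (s o)), mul_add, add_mul, h5, Algebra.commutes]
  rw [h9, h8, ← sub_mul, gtb_dg_sub]
  refine (norm_mul_le _ _).trans ?_
  have h10 : ‖G‖ ≤ 1 := sqb_norm_le g1
  have h11 : ‖gtb_dg (fun o => algebraMap ℂ D (f y0) + x (s o) -
      gtb_x ((c (m + 1)).κ f) (fun k : Fin m => (c (k.1 + 1)).κ f) o)‖ ≤ e := by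
    refine MM.norm_diag_le _ e he fun o => ?_
    have h12 : algebraMap ℂ D (f y0) + x (s o) = (c (v (s o))).κ f := by
      rw [hx]
      exact ((c (v (s o))).kappa_eq f).symm
    rw [h12]
    cases o with
    | none =>
      rw [hs0']
      exact h m (Nat.lt_succ_self m) f hf
    | some k =>
      rw [hs1']
      exact h k (k.2.trans (Nat.lt_succ_self m)) f hf
  calc _ ≤ e * 1 := mul_le_mul h11 h10 (norm_nonneg _) he
    _ = e := mul_one e

variable {I : Ix} {P : Type} [CStarAlgebra P] {τ : P →ₗ[ℂ] ℂ}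

/-- Paths: subdivide `[0, 1]` such that the steps are at most `e` on `F` (uniform continuity). -/
theorem gtn_rel2 (hτ : PTr τ) {c c' : C1 I τ Y y0} (h : Rel2 c c') (F : Finset C(Y, ℂ)) (e : ℝ)
    (he : 0 < e) : GTn c c' F e := by
  obtain ⟨p, h0, h1⟩ := h
  have hc : Continuous (fun s : unitInterval => fun f : F => p.k s f.1) :=
    continuous_pi fun f => p.cont f.1
  have hu := CompactSpace.uniformContinuous_of_continuous hc
  obtain ⟨δ, hδ, hd⟩ := Metric.uniformContinuous_iff.1 hu e he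
  obtain ⟨L, hL⟩ := exists_nat_gt (1 / δ)
  have hL0 : 0 < (L : ℝ) := lt_trans (by positivity) hL
  obtain ⟨s, hs⟩ : ∃ s : ℕ → unitInterval,
      s = fun k : ℕ => (Set.projIcc (0 : ℝ) 1 zero_le_one ((k : ℝ) / L) : unitInterval) :=
    ⟨_, rfl⟩
  have hs0 : s 0 = 0 := by
    rw [hs]
    simp only [Nat.cast_zero, zero_div]
    exact Set.projIcc_left _
  have hs1 : s L = 1 := by
    rw [hs]
    simp only [div_self hL0.ne']
    exact Set.projIcc_right _
  have hst : ∀ k, dist (s k) (s (k + 1)) < δ := by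
    intro k
    have h2 := (LipschitzWith.projIcc (zero_le_one (α := ℝ))).dist_le_mul ((k : ℝ) / L)
      (((k + 1 : ℕ) : ℝ) / L)
    rw [hs]
    refine lt_of_le_of_lt h2 ?_
    rw [Real.dist_eq, NNReal.coe_one, one_mul, ← sub_div, Nat.cast_add, Nat.cast_one,
      sub_add_cancel_left, abs_div, abs_neg, abs_one, abs_of_pos hL0, div_lt_iff₀ hL0]
    rw [div_lt_iff₀ hδ] at hL
    linarith [mul_comm (L : ℝ) δ]
  have hchain := gtn_chain (J1.idl hτ) L (fun k => p.at (s k)) p.ζ (fun k _ => rfl) F e he.le (by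
    intro k _ f hf
    have h3 := hd (hst k)
    have h4 := (dist_le_pi_dist (fun f : F => p.k (s k) f.1) (fun f : F => p.k (s (k + 1)) f.1)
      ⟨f, hf⟩).trans h3.le
    rw [dist_eq_norm] at h4
    exact h4)
  refine GTn.congr hchain (fun f => ?_) (fun f => ?_)
  · rw [hs0]
    exact h0 f
  · rw [hs1]
    exact h1 f

/-- By induction over `Relation.EqvGen`: `gtn_rel1`, `gtn_rel2`, `GTn.refl`, `GTn.symm`,
`GTn.trans` (with `e / 2`). -/
theorem gtn_eqv (hτ : PTr τ) {c c' : C1 I τ Y y0} (h : Eqv c c') (F : Finset C(Y, ℂ)) (e : ℝ)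
    (he : 0 < e) : GTn c c' F e := by
  unfold Eqv at h
  induction h generalizing e with
  | rel x y hxy =>
    rcases hxy with hxy | hxy
    · exact gtb_mono (gtn_rel1 hτ hxy F) he.le
    · exact gtn_rel2 hτ hxy F e he
  | refl x => exact GTn.refl (J1.idl hτ) x F e he.le
  | symm x y _ ih => exact GTn.symm (J1.idl hτ) (ih e he)
  | trans x y z _ _ ih1 ih2 =>
    have h1 := GTn.trans (J1.idl hτ) (ih1 (e / 2) (by positivity)) (ih2 (e / 2) (by positivity))
    rwa [add_halves] at h1

/-- Rows in the algebra `R1 I P`. From `RowyS` for the size `Sz.con I n` and the classes of the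
matrices: a matrix over `R1 I P` is given by the class of the family of the matrices of
representatives (`SQ.rep`), and conversely the entries of a class are the classes of the entries. -/
theorem exists_colD (hR : RowyS I τ) {n : Type} [Fintype n] [DecidableEq n] (m : ℕ)
    (b : Fin m → MM n (R1 I P)) (hb : ∀ k i j, J1 I τ (MM.e (b k) i j)) :
    ∃ V : n → R1 I P, ‖∑ i, V i * star (V i)‖ ≤ 4 ∧
      ∀ k i j, ∑ a, star (V i) * V a * MM.e (b k) a j = MM.e (b k) i j := by
  have hb' : ∀ k i j, ∃ x : I.L → P, Bd (A := fun _ => P) x ∧ cl I x = MM.e (b k) i j ∧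
      ∀ r : ℕ, Tendsto (fun l => (I.w l : ℝ) ^ r * nsq τ (x l)) I.F (𝓝 0) := fun k i j => hb k i j
  choose x hx hxb hxt using hb'
  have hM : ∀ k, Bd (A := fun l => MM ((Sz.con I n).ty l) P)
      (fun l => MM.of (fun i j => x k i j l)) := by
    intro k
    have hx' : ∀ i j, ∃ C : ℝ, ∀ l, ‖x k i j l‖ ≤ C := fun i j => hx k i j
    choose C hC using hx'
    refine ⟨∑ i, ∑ j, C i j, fun l => (MM.norm_le_sum _).trans ?_⟩
    exact Finset.sum_le_sum fun i _ => Finset.sum_le_sum fun j _ => hC i j l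
  have hJ : ∀ k, JM (Sz.con I n) τ (cl I (A := fun l => MM ((Sz.con I n).ty l) P)
      (fun l => MM.of (fun i j => x k i j l))) := by
    intro k
    refine ⟨_, hM k, rfl, fun r => ?_⟩
    have h2 : Tendsto (fun l => ∑ i, ∑ j, (I.w l : ℝ) ^ r * nsq τ (x k i j l)) I.F
        (𝓝 (∑ _i : n, ∑ _j : n, (0 : ℝ))) :=
      tendsto_finsetSum _ fun i _ => tendsto_finsetSum _ fun j _ => hxt k i j r
    simp only [Finset.sum_const_zero] at h2
    refine h2.congr fun l => ?_
    have h3 : nsq (MM.tr n τ) (MM.of (fun i j => x k i j l)) =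
        ∑ i, ∑ j, nsq τ (x k i j l) := nsq_mat _
    simp only [← Finset.mul_sum]
    exact congrArg (fun z => (I.w l : ℝ) ^ r * z) h3.symm
  obtain ⟨X, hX4, hXg⟩ := hR (Sz.con I n) m _ hJ
  obtain ⟨u, hu⟩ : ∃ u : n → I.L → P, u = fun i l => X.v l i := ⟨_, rfl⟩
  have hub : ∀ i, Bd (A := fun _ => P) (u i) := by
    intro i
    refine ⟨2, fun l => ?_⟩
    have h1 : ‖∑ j, u j l * star (u j l)‖ ≤ (2 : ℝ) ^ 2 := by
      rw [hu]
      refine (hX4 l).trans (by norm_num)
    have h2 := MM.mm_row i (fun j => u j l) 2 (by norm_num) h1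
    refine le_trans ?_ h2
    have h3 := MM.norm_e_le (MM.of (fun p q => if p = i then u q l else 0)) i i
    rw [MM.e_of, if_pos rfl] at h3
    exact h3
  refine ⟨fun i => cl I (u i), ?_, fun k i j => ?_⟩
  · have h1 : ∑ i, cl I (u i) * star (cl I (u i)) =
        cl I (fun l => ∑ i : n, u i l * star (u i l)) := by
      rw [cl_sum I Finset.univ (fun i l => u i l * star (u i l))
        (fun i _ => (hub i).mul (hub i).star)]
      refine Finset.sum_congr rfl fun i _ => ?_
      rw [cl_mul I (hub i) (hub i).star, cl_star I (hub i)]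
    rw [h1]
    refine norm_cl_le I (by norm_num)
      (Bd.sum I Finset.univ (fun i l => u i l * star (u i l))
        (fun i _ => (hub i).mul (hub i).star)) (Eventually.of_forall fun l => ?_)
    rw [hu]
    exact hX4 l
  · obtain ⟨Gm, hGm⟩ : ∃ Gm : I.L → MM n P,
        Gm = fun l => MM.of (fun i j => star (X.v l i) * X.v l j) := ⟨_, rfl⟩
    obtain ⟨Mk, hMk⟩ : ∃ Mk : I.L → MM n P, Mk = fun l => MM.of (fun i j => x k i j l) :=
      ⟨_, rfl⟩
    have bG : Bd (A := fun _ => MM n P) Gm := by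
      rw [hGm]
      exact Row.gram_bd X X
    have bM : Bd (A := fun _ => MM n P) Mk := by
      rw [hMk]
      exact hM k
    have h3 : cl I (A := fun _ => MM n P) (fun l => Gm l * Mk l) =
        cl I (A := fun _ => MM n P) Mk := by
      refine (cl_mul I bG bM).trans ?_
      rw [hGm, hMk]
      exact hXg k
    have h4 := (cl_eq_iff I (Bd.mul bG bM) bM).1 h3
    have hs : Bd (A := fun _ => P) (fun l => ∑ a : n, star (u i l) * u a l * x k a j l) :=
      Bd.sum I Finset.univ (fun a l => star (u i l) * u a l * x k a j l)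
        (fun a _ => (((hub i).star).mul (hub a)).mul (hx k a j))
    have h5 : cl I (fun l => ∑ a : n, star (u i l) * u a l * x k a j l) = cl I (x k i j) := by
      rw [cl_eq_iff I hs (hx k i j)]
      refine squeeze_zero (fun l => norm_nonneg _) (fun l => ?_) h4
      have h6 : ∑ a : n, star (u i l) * u a l * x k a j l - x k i j l =
          MM.e (Gm l * Mk l - Mk l) i j := by
        rw [MM.e_sub, MM.e_mul, hu, hGm, hMk]
        rfl
      rw [h6]
      exact MM.norm_e_le _ _ _
    rw [← hxb k i j, ← h5, cl_sum I Finset.univ (fun a l => star (u i l) * u a l * x k a j l)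
        (fun a _ => (((hub i).star).mul (hub a)).mul (hx k a j))]
    refine Finset.sum_congr rfl fun a _ => ?_
    rw [cl_mul I (((hub i).star).mul (hub a)) (hx k a j), cl_mul I (hub i).star (hub a),
      cl_star I (hub i), hxb]

section gtb_rect

open Matrix

variable {α β : Type} [Fintype α] [DecidableEq α] [Fintype β] [DecidableEq β]

variable (β) in
/-- The upper left block. -/
noncomputable def gtb_l : MM α D →⋆ₙₐ[ℂ] MM (α ⊕ β) D where
  toFun a := (MM.toM (α ⊕ β) D).symm (Matrix.fromBlocks (MM.toM α D a) 0 0 0)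
  map_smul' c a := by
    rw [← map_smul, Matrix.fromBlocks_smul, map_smul]
    simp
  map_zero' := by
    rw [map_zero, Matrix.fromBlocks_zero, map_zero]
  map_add' a b := by
    rw [← map_add, Matrix.fromBlocks_add, map_add]
    simp
  map_mul' a b := by
    rw [← map_mul, Matrix.fromBlocks_multiply, map_mul]
    simp
  map_star' a := by
    rw [← map_star, Matrix.star_eq_conjTranspose, Matrix.fromBlocks_conjTranspose, map_star,
      Matrix.star_eq_conjTranspose]
    simp

variable (α) in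
/-- The lower right block. -/
noncomputable def gtb_r : MM β D →⋆ₙₐ[ℂ] MM (α ⊕ β) D where
  toFun a := (MM.toM (α ⊕ β) D).symm (Matrix.fromBlocks 0 0 0 (MM.toM β D a))
  map_smul' c a := by
    rw [← map_smul, Matrix.fromBlocks_smul, map_smul]
    simp
  map_zero' := by
    rw [map_zero, Matrix.fromBlocks_zero, map_zero]
  map_add' a b := by
    rw [← map_add, Matrix.fromBlocks_add, map_add]
    simp
  map_mul' a b := by
    rw [← map_mul, Matrix.fromBlocks_multiply, map_mul]
    simp
  map_star' a := by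
    rw [← map_star, Matrix.star_eq_conjTranspose, Matrix.fromBlocks_conjTranspose, map_star,
      Matrix.star_eq_conjTranspose]
    simp

theorem gtb_l_norm (a : MM α D) : ‖gtb_l β a‖ = ‖a‖ := by
  refine NonUnitalStarAlgHom.norm_map (gtb_l β) ?_ a
  intro x y hxy
  have h1 := (MM.toM (α ⊕ β) D).symm.injective hxy
  exact (MM.toM α D).injective (Matrix.fromBlocks_inj.1 h1).1

theorem gtb_r_norm (a : MM β D) : ‖gtb_r α a‖ = ‖a‖ := by
  refine NonUnitalStarAlgHom.norm_map (gtb_r α) ?_ a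
  intro x y hxy
  have h1 := (MM.toM (α ⊕ β) D).symm.injective hxy
  exact (MM.toM β D).injective (Matrix.fromBlocks_inj.1 h1).2.2.2

/-- The map `x ↦ w x w*` for a rectangular matrix `w`. -/
noncomputable def gtb_F (w : Matrix α β D) (x : MM β D) : MM α D :=
  (MM.toM α D).symm (w * MM.toM β D x * wᴴ)

theorem gtb_F_norm (w : Matrix α β D) (x : MM β D) {C : ℝ}
    (hw : ‖(MM.toM α D).symm (w * wᴴ)‖ ≤ C) : ‖gtb_F w x‖ ≤ C * ‖x‖ := by
  obtain ⟨W, hW⟩ : ∃ W : MM (α ⊕ β) D,
      W = (MM.toM (α ⊕ β) D).symm (Matrix.fromBlocks 0 w 0 0) := ⟨_, rfl⟩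
  have hs : star W = (MM.toM (α ⊕ β) D).symm (Matrix.fromBlocks 0 0 wᴴ 0) := by
    rw [hW, ← map_star, Matrix.star_eq_conjTranspose, Matrix.fromBlocks_conjTranspose]
    simp
  have h1 : W * star W = gtb_l β ((MM.toM α D).symm (w * wᴴ)) := by
    have e : gtb_l β ((MM.toM α D).symm (w * wᴴ)) =
        (MM.toM (α ⊕ β) D).symm (Matrix.fromBlocks (w * wᴴ) 0 0 0) := rfl
    rw [e, hs, hW, ← map_mul, Matrix.fromBlocks_multiply]
    simp
  have h2 : W * gtb_r α x * star W = gtb_l β (gtb_F w x) := by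
    have e : gtb_l β (gtb_F w x) =
        (MM.toM (α ⊕ β) D).symm (Matrix.fromBlocks (w * MM.toM β D x * wᴴ) 0 0 0) := rfl
    have e' : gtb_r α x = (MM.toM (α ⊕ β) D).symm (Matrix.fromBlocks 0 0 0 (MM.toM β D x)) := rfl
    rw [e, e', hs, hW, ← map_mul, ← map_mul, Matrix.fromBlocks_multiply,
      Matrix.fromBlocks_multiply]
    simp
  have h3 : ‖W‖ * ‖W‖ ≤ C := by
    rw [← CStarRing.norm_self_mul_star, h1, gtb_l_norm]
    exact hw
  rw [← gtb_l_norm (β := β), ← h2]
  calc ‖W * gtb_r α x * star W‖ ≤ ‖W * gtb_r α x‖ * ‖star W‖ := norm_mul_le _ _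
    _ ≤ ‖W‖ * ‖gtb_r α x‖ * ‖star W‖ :=
      mul_le_mul_of_nonneg_right (norm_mul_le _ _) (norm_nonneg _)
    _ = ‖W‖ * ‖W‖ * ‖x‖ := by
      rw [norm_star, gtb_r_norm]
      ring
    _ ≤ C * ‖x‖ := mul_le_mul_of_nonneg_right h3 (norm_nonneg _)

theorem gtb_F_add (w : Matrix α β D) (x y : MM β D) :
    gtb_F w (x + y) = gtb_F w x + gtb_F w y := by
  unfold gtb_F
  rw [map_add, Matrix.mul_add, Matrix.add_mul, map_add]

theorem gtb_F_sub (w : Matrix α β D) (x y : MM β D) :
    gtb_F w (x - y) = gtb_F w x - gtb_F w y := by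
  unfold gtb_F
  rw [map_sub, Matrix.mul_sub, Matrix.sub_mul, map_sub]

theorem gtb_comm {B : Type} [Ring B] [Algebra ℂ B] (a : ℂ) (z x x' : B) :
    (1 + z) * (algebraMap ℂ B a + x) - (algebraMap ℂ B a + x') * (1 + z) =
      x - x' + z * x - x' * z := by
  have h := Algebra.commutes a z
  simp only [mul_add, add_mul, one_mul, mul_one, h]
  abel

theorem gtb_F_zero (w : Matrix α β D) : gtb_F w (0 : MM β D) = 0 := by
  unfold gtb_F
  rw [map_zero, Matrix.mul_zero, Matrix.zero_mul, map_zero]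

theorem gtb_F_star (w : Matrix α β D) (x : MM β D) :
    star (gtb_F w x) = gtb_F w (star x) := by
  unfold gtb_F
  rw [← map_star, Matrix.star_eq_conjTranspose, Matrix.conjTranspose_mul,
    Matrix.conjTranspose_mul, Matrix.conjTranspose_conjTranspose, map_star,
    Matrix.star_eq_conjTranspose, Matrix.mul_assoc]

theorem gtb_F_mul (w : Matrix α β D) (x y : MM β D)
    (hy : wᴴ * w * MM.toM β D y = MM.toM β D y) :
    gtb_F w x * gtb_F w y = gtb_F w (x * y) := by
  unfold gtb_F
  rw [← map_mul, map_mul (MM.toM β D)]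
  congr 1
  calc w * MM.toM β D x * wᴴ * (w * MM.toM β D y * wᴴ)
      = w * (MM.toM β D x * (wᴴ * w * MM.toM β D y)) * wᴴ := by
        simp only [Matrix.mul_assoc]
    _ = w * (MM.toM β D x * MM.toM β D y) * wᴴ := by rw [hy]

theorem gtb_F_e (w : Matrix α β D) (x : MM β D) (i j : α) :
    MM.e (gtb_F w x) i j = ∑ q, (∑ p, w i p * MM.e x p q) * star (w j q) := by
  have h : MM.e (gtb_F w x) i j = (w * MM.toM β D x * wᴴ) i j := rfl
  rw [h, Matrix.mul_apply]
  refine Finset.sum_congr rfl fun q _ => ?_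
  rw [Matrix.mul_apply, Matrix.conjTranspose_apply]
  rfl

variable {n : Type} [Fintype n] [DecidableEq n]

/-- The rectangular matrix with the entries `1` and `V k`. -/
def gtb_w (V : n → D) : Matrix (Fin 2) (Option n) D := fun i p =>
  match p with
  | none => if i = 0 then 1 else 0
  | some k => if i = 0 then 0 else V k

theorem gtb_w_gram (V : n → D) (z : MM (Option n) D)
    (h : ∀ k q, ∑ a, star (V k) * V a * MM.e z (some a) q = MM.e z (some k) q) :
    (gtb_w V)ᴴ * gtb_w V * MM.toM (Option n) D z = MM.toM (Option n) D z := by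
  ext p q
  rw [Matrix.mul_assoc, Matrix.mul_apply, Fin.sum_univ_two, Matrix.conjTranspose_apply,
    Matrix.conjTranspose_apply, Matrix.mul_apply, Matrix.mul_apply, Fintype.sum_option,
    Fintype.sum_option]
  cases p with
  | none => simp [gtb_w]
  | some k =>
    have h1 := h k q
    simp only [mul_assoc, ← Finset.mul_sum] at h1
    simp only [gtb_w]
    simp only [if_true, star_zero, zero_mul, zero_add, one_ne_zero, if_false]
    exact h1

theorem gtb_w_norm (V : n → D) (hV : ‖∑ k, V k * star (V k)‖ ≤ 4) :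
    ‖(MM.toM (Fin 2) D).symm (gtb_w V * (gtb_w V)ᴴ)‖ ≤ 4 := by
  have h : (MM.toM (Fin 2) D).symm (gtb_w V * (gtb_w V)ᴴ) =
      MM.of (fun i j => if i = j then (if i = 0 then 1 else ∑ k, V k * star (V k)) else 0) := by
    refine MM.ext fun i j => ?_
    have e : MM.e ((MM.toM (Fin 2) D).symm (gtb_w V * (gtb_w V)ᴴ)) i j =
      (gtb_w V * (gtb_w V)ᴴ) i j := rfl
    rw [e, MM.e_of, Matrix.mul_apply, Fintype.sum_option]
    simp only [Matrix.conjTranspose_apply]
    fin_cases i <;> fin_cases j <;> simp [gtb_w]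
  rw [h]
  refine MM.norm_diag_le _ 4 (by norm_num) fun i => ?_
  split_ifs
  · exact (norm_one_le' D).trans (by norm_num)
  · exact hV

theorem gtb_w_diag (V : n → D) (d : Option n → D) :
    gtb_F (gtb_w V) (gtb_dg d) =
      m2 (d none) 0 0 (∑ k, V k * d (some k) * star (V k)) := by
  refine MM.ext fun i j => ?_
  rw [gtb_F_e]
  simp only [gtb_dg_e, mul_ite, mul_zero, Finset.sum_ite_eq', Finset.mem_univ, if_true]
  rw [Fintype.sum_option]
  unfold m2
  rw [MM.e_of]
  fin_cases i <;> fin_cases j <;> simp [gtb_w]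

theorem gtb_m2 {B : Type} [CStarAlgebra B] (a : ℂ) (x y : B) :
    m2 (algebraMap ℂ B a + x) 0 0 (algebraMap ℂ B a + y) =
      algebraMap ℂ (MM (Fin 2) B) a + m2 x 0 0 y := by
  refine MM.ext fun i j => ?_
  rw [MM.e_add, Algebra.algebraMap_eq_smul_one (A := MM (Fin 2) B), MM.e_smul, MM.e_one]
  unfold m2
  rw [MM.e_of, MM.e_of]
  fin_cases i <;> fin_cases j <;> simp [Algebra.algebraMap_eq_smul_one]

/-- The compression of the diagonal cycle. -/
theorem gtb_cycle (hJ : Idl J) (T : n → Cyc J Y y0) (V : n → D)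
    (hV : ∀ i j, star (V i) * V j * ((T j).ζ - 1) = if i = j then (T j).ζ - 1 else 0) :
    ∃ T' : Cyc J Y y0, ∀ f, T'.hat f = ∑ k, V k * (T k).hat f * star (V k) := by
  obtain ⟨ρ, hρ⟩ : ∃ ρ : (n → D) → D, ρ = fun x => ∑ k, V k * x k * star (V k) := ⟨_, rfl⟩
  have ρmul : ∀ x y : n → D, (∀ i j, star (V i) * V j * y j = if i = j then y j else 0) →
      ρ x * ρ y = ρ (fun k => x k * y k) := by
    intro x y hy
    rw [hρ]
    simp only
    rw [Finset.sum_mul]
    refine Finset.sum_congr rfl fun i _ => ?_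
    rw [Finset.mul_sum, Finset.sum_eq_single i]
    · have h1 := hy i i
      rw [if_pos rfl] at h1
      calc V i * x i * star (V i) * (V i * y i * star (V i))
          = V i * x i * (star (V i) * V i * y i) * star (V i) := by
            simp only [mul_assoc]
        _ = V i * (x i * y i) * star (V i) := by rw [h1]; simp only [mul_assoc]
    · intro j _ hj
      have h1 := hy i j
      rw [if_neg (fun h => hj h.symm)] at h1
      calc V i * x i * star (V i) * (V j * y j * star (V j))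
          = V i * x i * (star (V i) * V j * y j) * star (V j) := by
            simp only [mul_assoc]
        _ = 0 := by rw [h1, mul_zero, zero_mul]
    · intro h
      exact absurd (Finset.mem_univ _) h
  have ρadd : ∀ x y : n → D, ρ (fun k => x k + y k) = ρ x + ρ y := by
    intro x y
    rw [hρ]
    simp only [mul_add, add_mul, Finset.sum_add_distrib]
  have ρsmul : ∀ (a : ℂ) (x : n → D), ρ (fun k => a • x k) = a • ρ x := by
    intro a x
    rw [hρ]
    simp only [mul_smul_comm, smul_mul_assoc, Finset.smul_sum]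
  have ρstar : ∀ x : n → D, star (ρ x) = ρ (fun k => star (x k)) := by
    intro x
    rw [hρ]
    simp only [star_sum, star_mul, star_star, mul_assoc]
  have ρzero : ρ (fun _ => 0) = 0 := by
    rw [hρ]
    simp only [mul_zero, zero_mul, Finset.sum_const_zero]
  have hrel : ∀ i j (z : D), star (V i) * V j * (((T j).ζ - 1) * z) =
      if i = j then ((T j).ζ - 1) * z else 0 := by
    intro i j z
    rw [← mul_assoc, hV]
    split_ifs
    · rfl
    · exact zero_mul z
  have hst : ∀ j, star ((T j).ζ - 1) = ((T j).ζ - 1) * (-star (T j).ζ) := by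
    intro j
    rw [star_sub, star_one, mul_neg, sub_mul, (T j).u2, one_mul]
    abel
  have hhat : ∀ j f, (T j).hat f = ((T j).ζ - 1) * ((-(1 / 2) : ℂ) • (T j).hat f) := by
    intro j f
    rw [mul_smul_comm, (T j).zeta_sub_hat, smul_smul]
    norm_num
  have r1 : ∀ i j, star (V i) * V j * star ((T j).ζ - 1) =
      if i = j then star ((T j).ζ - 1) else 0 := by
    intro i j
    rw [hst]
    exact hrel i j _
  have r2 : ∀ f i j, star (V i) * V j * (T j).hat f = if i = j then (T j).hat f else 0 := by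
    intro f i j
    rw [hhat]
    exact hrel i j _
  have u1 : star (1 + ρ (fun k => (T k).ζ - 1)) * (1 + ρ (fun k => (T k).ζ - 1)) = 1 := by
    have h : (fun k => star ((T k).ζ - 1) + ((T k).ζ - 1) +
        star ((T k).ζ - 1) * ((T k).ζ - 1)) = fun _ => (0 : D) :=
      funext fun k => (T k).zeta_rel1
    rw [star_add, star_one, ρstar, gtb_oa, ρmul _ _ hV, ← ρadd, ← ρadd, h, ρzero, add_zero]
  have u2 : (1 + ρ (fun k => (T k).ζ - 1)) * star (1 + ρ (fun k => (T k).ζ - 1)) = 1 := by
    have h : (fun k => ((T k).ζ - 1) + star ((T k).ζ - 1) +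
        ((T k).ζ - 1) * star ((T k).ζ - 1)) = fun _ => (0 : D) :=
      funext fun k => by
        rw [add_comm ((T k).ζ - 1)]
        exact (T k).zeta_rel2
    rw [star_add, star_one, ρstar, gtb_oa, ρmul _ _ r1, ← ρadd, ← ρadd, h, ρzero, add_zero]
  have hj : J (1 + ρ (fun k => (T k).ζ - 1) - 1) := by
    rw [add_sub_cancel_left, hρ]
    exact hJ.sum _ _ fun k _ => hJ.mul_right _ _ (hJ.mul_left _ _ (T k).j)
  refine ⟨Cyc.mk' (fun f => ρ (fun k => (T k).hat f)) (1 + ρ (fun k => (T k).ζ - 1)) u1 u2 hj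
    ?_ ?_ ?_ ?_ ?_, ?_⟩
  · intro f
    rw [add_mul, one_mul, ρmul _ _ (r2 f)]
    have h : (fun k => ((T k).ζ - 1) * (T k).hat f) = fun k => (-2 : ℂ) • (T k).hat f :=
      funext fun k => (T k).zeta_sub_hat f
    rw [h, ρsmul, show (-2 : ℂ) = -1 + -1 by norm_num, add_smul, neg_one_smul]
    abel
  · intro f g
    simp only [Cyc.hat_add]
    exact ρadd _ _
  · intro f g
    rw [ρmul _ _ (r2 g)]
    simp only [Cyc.hat_mul]
    rw [ρadd, ρadd, ρsmul, ρsmul]
  · intro a
    simp only [Cyc.hat_const]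
    exact ρzero
  · intro f
    rw [ρstar]
    simp only [Cyc.hat_star]
  · intro f
    have h : ∀ z : D, algebraMap ℂ D (f y0) + z - algebraMap ℂ D (f y0) = z :=
      fun z => add_sub_cancel_left _ _
    refine (h (ρ (fun k => (T k).hat f))).trans ?_
    rw [hρ]

end gtb_rect

/-- Two slots are enough.

Proof. Let `(n, T, G)` be the data of `gtn_eqv` for `e / 4`. Choose `V : n → R1 I P` by
`exists_colD` for the finite family of matrices over `n`:
for every `k` the matrix `δ_ij δ_ik ((T k).ζ - 1)`; the matrices with the entries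
`(G - 1) (some i) (some j)`; for fixed second index, the matrices with the entries
`(G - 1) (some i) none` (in all columns); and the same for `star G`. Then
`Vs = (V i* V j)` satisfies `Vs * b = b` for these, and by taking adjoints also `b * Vs = b` for the
square blocks, and the corresponding relations for the row `(G - 1) none (some j)`.
Put `T'.hat f = ∑ k, V k * (T k).hat f * star (V k)`, `T'.ζ = 1 + ∑ k, V k * ((T k).ζ - 1) * star (V k)`
(`Cyc.mk'`), and `G' = 1 + W (G - 1) W*`, where `W` is the matrix `Option n → Fin 2` with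
`W 0 none = 1`, `W 1 (some k) = V k`, `0` elsewhere; i.e.
`G' = m2 G_00 (∑ G_0k V k*) (∑ V k G_k0) (1 + ∑ V k (G - 1)_kl V l*)`. Since `W* W (G - 1) = G - 1 =
(G - 1) W* W`, `G'` is unitary. With `dgT c T f = f y0 + h` and `dgT c' T f = f y0 + h'`, the
diagonal matrix for `T'` is `f y0 + W h W*`, and
`G' (f y0 + W h W*) - (f y0 + W h' W*) G' = W (G h - h' G) W* = W (G dgT c - dgT c' G) W*`, of norm at
most `‖W W*‖ e / 4 ≤ e`. -/
theorem exists_two (hτ : PTr τ) (hR : RowyS I τ) {c c' : C1 I τ Y y0} (h : Eqv c c')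
    (F : Finset C(Y, ℂ)) (e : ℝ) (he : 0 < e) :
    ∃ (T : C1 I τ Y y0) (G : MM (Fin 2) (R1 I P)), star G * G = 1 ∧ G * star G = 1 ∧
      (∀ i j, J1 I τ (MM.e (G - 1) i j)) ∧
      ∀ f ∈ F, ‖G * m2 (c.κ f) 0 0 (T.κ f) - m2 (c'.κ f) 0 0 (T.κ f) * G‖ ≤ e := by
  obtain ⟨n, i1, i2, T, G, g1, g2, g3, g4⟩ := gtn_eqv hτ h F (e / 4) (by positivity)
  have hJ : Idl (J1 I τ) := J1.idl hτ
  obtain ⟨z, hz⟩ : ∃ z, z = G - 1 := ⟨_, rfl⟩
  have hG : G = 1 + z := by rw [hz]; abel
  rw [← hz] at g3
  have g3s : ∀ i j, J1 I τ (MM.e (star z) i j) := by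
    intro i j
    rw [MM.e_star]
    exact hJ.star _ (g3 j i)
  obtain ⟨V, hV4, hV⟩ := exists_colD hR 5
    ![MM.of (fun a j => if a = j then (T j).ζ - 1 else 0),
      MM.of (fun a j => MM.e z (some a) (some j)),
      MM.of (fun a _ => MM.e z (some a) none),
      MM.of (fun a j => MM.e (star z) (some a) (some j)),
      MM.of (fun a _ => MM.e (star z) (some a) none)] (by
    intro k i j
    fin_cases k
    · show J1 I τ (if i = j then (T j).ζ - 1 else 0)
      split_ifs
      · exact (T j).j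
      · exact hJ.zero
    · exact g3 _ _
    · exact g3 _ _
    · exact g3s _ _
    · exact g3s _ _)
  have hT : ∀ i j, star (V i) * V j * ((T j).ζ - 1) = if i = j then (T j).ζ - 1 else 0 := by
    intro i j
    have h1 : ∑ a, star (V i) * V a * (if a = j then (T j).ζ - 1 else 0) =
      if i = j then (T j).ζ - 1 else 0 := hV 0 i j
    simpa using h1
  have hz1 : ∀ k q, ∑ a, star (V k) * V a * MM.e z (some a) q = MM.e z (some k) q := by
    intro k q
    cases q with
    | none => exact hV 2 k k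
    | some j => exact hV 1 k j
  have hz2 : ∀ k q, ∑ a, star (V k) * V a * MM.e (star z) (some a) q =
      MM.e (star z) (some k) q := by
    intro k q
    cases q with
    | none => exact hV 4 k k
    | some j => exact hV 3 k j
  obtain ⟨T', hT'⟩ := gtb_cycle hJ T V hT
  have hr : ∀ f i j, star (V i) * V j * (T j).hat f = if i = j then (T j).hat f else 0 := by
    intro f i j
    have h1 : (T j).hat f = ((T j).ζ - 1) * ((-(1 / 2) : ℂ) • (T j).hat f) := by
      rw [mul_smul_comm, (T j).zeta_sub_hat, smul_smul]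
      norm_num
    rw [h1, ← mul_assoc, hT]
    split_ifs
    · rfl
    · exact zero_mul _
  obtain ⟨w, hw⟩ : ∃ w, w = gtb_w V := ⟨_, rfl⟩
  have k1 := gtb_w_gram V z hz1
  have k2 := gtb_w_gram V (star z) hz2
  have k3 := gtb_w_norm V hV4
  have k4 : ∀ d : C1 I τ Y y0, ∀ f, Matrix.conjTranspose w * w * MM.toM (Option n) (R1 I P)
      (gtb_dg (gtb_x (d.hat f) (fun k => (T k).hat f))) = MM.toM (Option n) (R1 I P)
      (gtb_dg (gtb_x (d.hat f) (fun k => (T k).hat f))) := by
    intro d f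
    rw [hw]
    refine gtb_w_gram V _ fun k q => ?_
    simp only [gtb_dg_e]
    cases q with
    | none => simp
    | some j =>
      simp only [Option.some_inj, mul_ite, mul_zero, Finset.sum_ite_eq', Finset.mem_univ,
        if_true]
      refine (hr f k j).trans ?_
      by_cases hkj : k = j
      · subst hkj
        rw [if_pos rfl, if_pos rfl]
        rfl
      · rw [if_neg hkj, if_neg hkj]
  rw [← hw] at k1 k2 k3
  have k5 : ∀ d : C1 I τ Y y0, ∀ f, m2 (d.κ f) 0 0 (T'.κ f) =
      algebraMap ℂ (MM (Fin 2) (R1 I P)) (f y0) + gtb_F w (gtb_dg (gtb_x (d.hat f) (fun k => (T k).hat f))) := by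
    intro d f
    rw [hw, gtb_w_diag, ← gtb_m2]
    have e1 : (∑ k, V k * (T k).hat f * star (V k)) = T'.hat f := (hT' f).symm
    refine m2_congr (d.kappa_eq f) rfl rfl ?_
    exact (T'.kappa_eq f).trans (congrArg (fun z => algebraMap ℂ (R1 I P) (f y0) + z) e1.symm)
  have k6 : ∀ d : C1 I τ Y y0, ∀ f, dgT d T f =
      algebraMap ℂ (MM (Option n) (R1 I P)) (f y0) + gtb_dg (gtb_x (d.hat f) (fun k => (T k).hat f)) := by
    intro d f
    refine MM.ext fun p q => ?_
    rw [MM.e_add, Algebra.algebraMap_eq_smul_one (A := MM (Option n) (R1 I P)), MM.e_smul,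
      MM.e_one, dgT, MM.e_of, gtb_dg_e]
    by_cases hpq : p = q
    · rw [if_pos hpq, if_pos hpq, if_pos hpq, ← Algebra.algebraMap_eq_smul_one]
      cases p with
      | none => exact d.kappa_eq f
      | some k => exact (T k).kappa_eq f
    · rw [if_neg hpq, if_neg hpq, if_neg hpq, smul_zero, add_zero]
  refine ⟨T', 1 + gtb_F w z, ?_, ?_, ?_, ?_⟩
  · have h1 : star z + z + star z * z = 0 := by
      rw [hG, star_add, star_one, gtb_oa] at g1
      exact add_eq_left.1 g1
    rw [star_add, star_one, gtb_F_star, gtb_oa, gtb_F_mul w _ _ k1, ← gtb_F_add, ← gtb_F_add,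
      h1, gtb_F_zero, add_zero]
  · have h1 : z + star z + z * star z = 0 := by
      rw [hG, star_add, star_one, gtb_oa] at g2
      exact add_eq_left.1 g2
    rw [star_add, star_one, gtb_F_star, gtb_oa, gtb_F_mul w _ _ k2, ← gtb_F_add, ← gtb_F_add,
      h1, gtb_F_zero, add_zero]
  · intro i j
    rw [add_sub_cancel_left, gtb_F_e]
    exact hJ.sum _ _ fun q _ => hJ.mul_right _ _ (hJ.sum _ _ fun p _ =>
      hJ.mul_left _ _ (g3 p q))
  · intro f hf
    have h1 := g4 f hf
    obtain ⟨x, hx⟩ : ∃ x : MM (Option n) (R1 I P), x = gtb_dg (gtb_x (c.hat f) (fun k => (T k).hat f)) := ⟨_, rfl⟩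
    obtain ⟨x', hx'⟩ : ∃ x' : MM (Option n) (R1 I P), x' = gtb_dg (gtb_x (c'.hat f) (fun k => (T k).hat f)) := ⟨_, rfl⟩
    have m1 := k4 c f
    rw [k6 c f, k6 c' f, ← hx, ← hx'] at h1
    rw [← hx] at m1
    rw [k5 c f, k5 c' f, ← hx, ← hx']
    have e1 : (1 + gtb_F w z) * (algebraMap ℂ (MM (Fin 2) (R1 I P)) (f y0) + gtb_F w x) -
        (algebraMap ℂ (MM (Fin 2) (R1 I P)) (f y0) + gtb_F w x') * (1 + gtb_F w z) =
        gtb_F w (G * (algebraMap ℂ (MM (Option n) (R1 I P)) (f y0) + x) -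
          (algebraMap ℂ (MM (Option n) (R1 I P)) (f y0) + x') * G) := by
      rw [hG, gtb_comm, gtb_comm, gtb_F_sub, gtb_F_add, gtb_F_sub, ← gtb_F_mul w _ _ m1,
        ← gtb_F_mul w _ _ k1]
    rw [e1]
    refine (gtb_F_norm w _ k3).trans ?_
    calc 4 * ‖_‖ ≤ 4 * (e / 4) := mul_le_mul_of_nonneg_left h1 (by norm_num)
      _ = e := by ring

end H7c
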