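import Pool.Agent.H.MP_7b4a29_c.CubeH
import Pool.Agent.H.MP_7b4a29_c.FamC

/-!
# The collapse maps of a cube quotient
-/

open Filter Topology

namespace H7c

/-- `t ↦ min 1 (max 0 (2^(n+1) (t - 1/2) + 1/2))`. -/
noncomputable def phl (n : ℕ) : C(unitInterval, unitInterval) :=
  ⟨fun t => Set.projIcc (0 : ℝ) 1 zero_le_one (2 ^ (n + 1) * ((t : ℝ) - 1 / 2) + 1 / 2), by
    fun_prop⟩

/-- The identity for `none`. -/
noncomputable def phx : Option ℕ → C(unitInterval, unitInterval)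
  | none => ContinuousMap.id _
  | some n => phl n

/-- Values of `phl`. -/
theorem geoa_phl_apply (n : ℕ) (t : unitInterval) :
    phl n t = Set.projIcc (0 : ℝ) 1 zero_le_one (2 ^ (n + 1) * ((t : ℝ) - 1 / 2) + 1 / 2) := rfl

theorem geoa_phl_zero {n m : ℕ} (hnm : n ≤ m) (t : unitInterval)
    (ht : (t : ℝ) - 1 / 2 ≤ -(1 / 2) ^ (n + 2)) : phl m t = 0 := by
  rw [geoa_phl_apply]
  refine Set.projIcc_of_le_left zero_le_one ?_
  have h1 : (2 : ℝ) ^ (n + 1) ≤ 2 ^ (m + 1) := pow_le_pow_right₀ (by norm_num) (by omega)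
  have h2 : (2 : ℝ) ^ (n + 1) * (1 / 2) ^ (n + 2) = 1 / 2 := by
    rw [pow_succ (1 / 2 : ℝ) (n + 1), ← mul_assoc, ← mul_pow]
    norm_num
  have h3 : (0 : ℝ) < (1 / 2) ^ (n + 2) := by positivity
  have h4 : (2 : ℝ) ^ (m + 1) * ((t : ℝ) - 1 / 2) ≤ 2 ^ (m + 1) * (-(1 / 2) ^ (n + 2)) :=
    mul_le_mul_of_nonneg_left ht (by positivity)
  have h5 : (2 : ℝ) ^ (n + 1) * (1 / 2) ^ (n + 2) ≤ 2 ^ (m + 1) * (1 / 2) ^ (n + 2) :=
    mul_le_mul_of_nonneg_right h1 h3.le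
  linarith

theorem geoa_phl_one {n m : ℕ} (hnm : n ≤ m) (t : unitInterval)
    (ht : (1 / 2) ^ (n + 2) ≤ (t : ℝ) - 1 / 2) : phl m t = 1 := by
  rw [geoa_phl_apply]
  refine Set.projIcc_of_right_le zero_le_one ?_
  have h1 : (2 : ℝ) ^ (n + 1) ≤ 2 ^ (m + 1) := pow_le_pow_right₀ (by norm_num) (by omega)
  have h2 : (2 : ℝ) ^ (n + 1) * (1 / 2) ^ (n + 2) = 1 / 2 := by
    rw [pow_succ (1 / 2 : ℝ) (n + 1), ← mul_assoc, ← mul_pow]
    norm_num
  have h3 : (0 : ℝ) < (1 / 2) ^ (n + 2) := by positivity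
  have h4 : (2 : ℝ) ^ (m + 1) * (1 / 2) ^ (n + 2) ≤ 2 ^ (m + 1) * ((t : ℝ) - 1 / 2) :=
    mul_le_mul_of_nonneg_left ht (by positivity)
  have h5 : (2 : ℝ) ^ (n + 1) * (1 / 2) ^ (n + 2) ≤ 2 ^ (m + 1) * (1 / 2) ^ (n + 2) :=
    mul_le_mul_of_nonneg_right h1 h3.le
  linarith

theorem phx_ends (o : Option ℕ) : phx o 0 = 0 ∧ phx o 1 = 1 := by
  cases o with
  | none => exact ⟨rfl, rfl⟩
  | some n =>
    have h3 : ((1 / 2 : ℝ)) ^ (n + 2) ≤ 1 / 2 := by
      have h : ((1 / 2 : ℝ)) ^ (n + 2) ≤ (1 / 2) ^ 1 :=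
        pow_le_pow_of_le_one (by norm_num) (by norm_num) (by omega)
      simpa using h
    constructor
    · show phl n 0 = 0
      refine geoa_phl_zero le_rfl 0 ?_
      rw [Set.Icc.coe_zero]
      linarith
    · show phl n 1 = 1
      refine geoa_phl_one le_rfl 1 ?_
      rw [Set.Icc.coe_one]
      linarith

theorem geoa_phx_le (o : Option ℕ) (t : unitInterval) (ht : (t : ℝ) ≤ 1 / 2) :
    ((phx o t : unitInterval) : ℝ) ≤ t := by
  cases o with
  | none => exact le_refl _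
  | some n =>
    show ((phl n t : unitInterval) : ℝ) ≤ t
    rw [geoa_phl_apply, Set.coe_projIcc]
    have h1 : (1 : ℝ) ≤ 2 ^ (n + 1) := one_le_pow₀ (by norm_num)
    have h2 : (2 : ℝ) ^ (n + 1) * ((t : ℝ) - 1 / 2) ≤ 1 * ((t : ℝ) - 1 / 2) :=
      mul_le_mul_of_nonpos_right h1 (by linarith)
    refine max_le t.2.1 ((min_le_right _ _).trans ?_)
    linarith

theorem geoa_phx_ge (o : Option ℕ) (t : unitInterval) (ht : 1 / 2 ≤ (t : ℝ)) :
    (t : ℝ) ≤ (phx o t : unitInterval) := by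
  cases o with
  | none => exact le_refl _
  | some n =>
    show (t : ℝ) ≤ (phl n t : unitInterval)
    rw [geoa_phl_apply, Set.coe_projIcc]
    have h1 : (1 : ℝ) ≤ 2 ^ (n + 1) := one_le_pow₀ (by norm_num)
    have h2 : (1 : ℝ) * ((t : ℝ) - 1 / 2) ≤ 2 ^ (n + 1) * ((t : ℝ) - 1 / 2) :=
      mul_le_mul_of_nonneg_right h1 (by linarith)
    refine le_trans (le_min t.2.2 ?_) (le_max_right _ _)
    linarith

theorem geoa_bd_nonempty {k : ℕ} (k0 : 0 < k) : (bd k).Nonempty :=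
  ⟨fun _ => 0, ⟨0, k0⟩, Or.inl rfl⟩

/-- The cut off function `χ`. -/
noncomputable def geoa_chi (n : ℕ) (t : ℝ) : ℝ := min 1 (max 0 (2 - 2 ^ (n + 2) * |t - 1 / 2|))

theorem geoa_chi_one (n : ℕ) (t : ℝ) (ht : |t - 1 / 2| < (1 / 2) ^ (n + 2)) :
    geoa_chi n t = 1 := by
  unfold geoa_chi
  have h2 : (2 : ℝ) ^ (n + 2) * (1 / 2) ^ (n + 2) = 1 := by
    rw [← mul_pow]
    norm_num
  have h3 : (2 : ℝ) ^ (n + 2) * |t - 1 / 2| ≤ 2 ^ (n + 2) * (1 / 2) ^ (n + 2) :=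
    mul_le_mul_of_nonneg_left ht.le (by positivity)
  refine min_eq_left (le_trans ?_ (le_max_right _ _))
  linarith

theorem geoa_chi_zero (n : ℕ) (t : ℝ) (ht : (1 / 2) ^ (n + 1) ≤ |t - 1 / 2|) :
    geoa_chi n t = 0 := by
  unfold geoa_chi
  have h2 : (2 : ℝ) ^ (n + 2) * (1 / 2) ^ (n + 1) = 2 := by
    rw [pow_succ (2 : ℝ) (n + 1), mul_right_comm, ← mul_pow]
    norm_num
  have h3 : (2 : ℝ) ^ (n + 2) * (1 / 2) ^ (n + 1) ≤ 2 ^ (n + 2) * |t - 1 / 2| :=
    mul_le_mul_of_nonneg_left ht (by positivity)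
  rw [max_eq_left (by linarith)]
  exact min_eq_right zero_le_one

theorem geoa_chi_cont (n : ℕ) : Continuous (geoa_chi n) := by
  unfold geoa_chi
  fun_prop

/-- The function upstairs. -/
noncomputable def geoa_om (k n : ℕ) : C(Cube k, ℂ) :=
  ⟨fun v => Complex.exp (((Real.pi * ∏ i, geoa_chi n (v i : ℝ) : ℝ) : ℂ) * Complex.I), by
    refine Complex.continuous_exp.comp ((Complex.continuous_ofReal.comp
      (continuous_const.mul (continuous_finsetProd _ fun i _ => ?_))).mul continuous_const)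
    exact (geoa_chi_cont n).comp (continuous_subtype_val.comp (continuous_apply i))⟩

theorem geoa_om_apply (k n : ℕ) (v : Cube k) : geoa_om k n v =
    Complex.exp (((Real.pi * ∏ i, geoa_chi n (v i : ℝ) : ℝ) : ℂ) * Complex.I) := rfl

theorem geoa_om_norm (k n : ℕ) (v : Cube k) : star (geoa_om k n v) * geoa_om k n v = 1 := by
  have h1 : ‖geoa_om k n v‖ = 1 := by
    rw [geoa_om_apply, Complex.norm_exp_ofReal_mul_I]
  rw [mul_comm, Complex.star_def, Complex.mul_conj, Complex.normSq_eq_norm_sq, h1]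
  norm_num

theorem geoa_om_one (k n : ℕ) (v : Cube k) (h : ∀ i, |(v i : ℝ) - 1 / 2| < (1 / 2) ^ (n + 2)) :
    geoa_om k n v = -1 := by
  rw [geoa_om_apply, Finset.prod_eq_one fun i _ => geoa_chi_one n _ (h i), mul_one]
  exact Complex.exp_pi_mul_I

theorem geoa_om_zero (k n : ℕ) (v : Cube k)
    (h : ∃ i, (1 / 2) ^ (n + 1) ≤ |(v i : ℝ) - 1 / 2|) : geoa_om k n v = 1 := by
  obtain ⟨i, hi⟩ := h
  rw [geoa_om_apply, Finset.prod_eq_zero (Finset.mem_univ i) (geoa_chi_zero n _ hi), mul_zero,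
    Complex.ofReal_zero, zero_mul, Complex.exp_zero]

theorem geoa_bd_abs {k : ℕ} {v : Cube k} (hv : v ∈ bd k) : ∃ i, |(v i : ℝ) - 1 / 2| = 1 / 2 := by
  obtain ⟨i, hi⟩ := hv
  refine ⟨i, ?_⟩
  rcases hi with hi | hi
  · rw [hi, Set.Icc.coe_zero]
    norm_num
  · rw [hi, Set.Icc.coe_one]
    norm_num

/-- The coordinatewise map. -/
noncomputable def geoa_map (k : ℕ) (o : Option ℕ) : C(Cube k, Cube k) :=
  ⟨fun v i => phx o (v i), continuous_pi fun i => (phx o).continuous.comp (continuous_apply i)⟩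

theorem geoa_map_bd (k : ℕ) (o : Option ℕ) (v : Cube k) (hv : v ∈ bd k) :
    geoa_map k o v ∈ bd k := by
  obtain ⟨i, hi⟩ := hv
  refine ⟨i, ?_⟩
  rcases hi with hi | hi
  · left
    show phx o (v i) = 0
    rw [hi]
    exact (phx_ends o).1
  · right
    show phx o (v i) = 1
    rw [hi]
    exact (phx_ends o).2

/-- The collapse maps `col o` of a cube quotient, and unitary functions `om n` which are `-1` on a
small cube around the centre and `1` outside the double of that cube. -/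
structure ColD {k : ℕ} {Y : Type} [TopologicalSpace Y] (y0 : Y) (q : C(Cube k, Y))
    (col : Option ℕ → C(Y, Y)) (om : ℕ → C(Y, ℂ)) : Prop where
  hq : IsQ (bd k) y0 q
  k0 : 0 < k
  c0 : ∀ o, col o y0 = y0
  cn : ∀ y, col none y = y
  cq : ∀ o v, col o (q v) = q (fun i => phx o (v i))
  ou : ∀ n y, star (om n y) * om n y = 1
  om1 : ∀ n v, (∀ i, |(v i : ℝ) - 1 / 2| < (1 / 2) ^ (n + 2)) → om n (q v) = -1
  om2 : ∀ n v, (∃ i, (1 / 2) ^ (n + 1) ≤ |(v i : ℝ) - 1 / 2|) → om n (q v) = 1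

/-- They exist. `om n (q v) = exp (i π ∏ i, χ (v i))` with
`χ t = min 1 (max 0 (2 - 2^(n+2) |t - 1/2|))`. -/
theorem exists_ColD {k : ℕ} (k0 : 0 < k) {Y : Type} [TopologicalSpace Y] [CompactSpace Y]
    [T2Space Y] {y0 : Y} {q : C(Cube k, Y)} (hq : IsQ (bd k) y0 q) :
    ∃ (col : Option ℕ → C(Y, Y)) (om : ℕ → C(Y, ℂ)), ColD y0 q col om := by
  have h1 : ∀ o : Option ℕ, ∃ g : C(Y, Y), g y0 = y0 ∧ ∀ v, g (q v) = q (geoa_map k o v) :=
    fun o => hq.exists_map hq (geoa_map k o) (geoa_map_bd k o) (geoa_bd_nonempty k0)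
  choose col hc hcq using h1
  have h2 : ∀ n : ℕ, ∃ f : C(Y, ℂ), ∀ v, f (q v) = geoa_om k n v := by
    intro n
    refine hq.exists_lift (geoa_om k n) 1 fun v hv => geoa_om_zero k n v ?_
    obtain ⟨i, hi⟩ := geoa_bd_abs hv
    refine ⟨i, ?_⟩
    rw [hi]
    have h : ((1 / 2 : ℝ)) ^ (n + 1) ≤ (1 / 2) ^ 1 :=
      pow_le_pow_of_le_one (by norm_num) (by norm_num) (by omega)
    simpa using h
  choose om hom using h2
  refine ⟨col, om, ⟨hq, k0, hc, fun y => ?_, fun o v => hcq o v, fun n y => ?_, fun n v h => ?_,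
    fun n v h => ?_⟩⟩
  · obtain ⟨v, rfl⟩ := hq.surj y
    rw [hcq]
    rfl
  · obtain ⟨v, rfl⟩ := hq.surj y
    rw [hom]
    exact geoa_om_norm k n v
  · rw [hom]
    exact geoa_om_one k n v h
  · rw [hom]
    exact geoa_om_zero k n v h

/-- Complements of images of closed sets without boundary points are neighbourhoods of `y0`. -/
theorem geoa_nhds {k : ℕ} {Y : Type} [TopologicalSpace Y] [T2Space Y] {y0 : Y}
    {q : C(Cube k, Y)} (hq : IsQ (bd k) y0 q) (K : Set (Cube k)) (hK : IsClosed K)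
    (hb : ∀ v ∈ K, v ∉ bd k) : ∃ U ∈ 𝓝 y0, ∀ y ∈ U, ∃ v, q v = y ∧ v ∉ K := by
  have h1 : IsClosed (q '' K) := (hK.isCompact.image q.continuous).isClosed
  have h2 : y0 ∉ q '' K := by
    rintro ⟨v, hv, h3⟩
    exact hb v hv ((hq.base v).1 h3)
  refine ⟨(q '' K)ᶜ, h1.isOpen_compl.mem_nhds h2, fun y hy => ?_⟩
  obtain ⟨v, rfl⟩ := hq.surj y
  exact ⟨v, rfl, fun hv => hy ⟨v, hv, rfl⟩⟩

/-- Distance to a point of the boundary. -/
theorem geoa_dist_bd {k : ℕ} (w : Cube k) (i : Fin k) (t : unitInterval) (ht : t = 0 ∨ t = 1)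
    (δ : ℝ) (hd : |(w i : ℝ) - t| ≤ δ) : ∃ w' ∈ bd k, dist w w' ≤ δ := by
  classical
  refine ⟨Function.update w i t, ⟨i, ?_⟩, ?_⟩
  · rw [Function.update_self]
    exact ht
  · have hδ : 0 ≤ δ := (abs_nonneg _).trans hd
    rw [dist_pi_le_iff hδ]
    intro j
    by_cases hj : j = i
    · subst hj
      rw [Function.update_self, Subtype.dist_eq, Real.dist_eq]
      exact hd
    · rw [Function.update_of_ne hj, dist_self]
      exact hδ

variable {k : ℕ} {Y : Type} [TopologicalSpace Y] [CompactSpace Y] [T2Space Y] {y0 : Y}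
  {q : C(Cube k, Y)} {col : Option ℕ → C(Y, Y)} {om : ℕ → C(Y, ℂ)} (h : ColD y0 q col om)

include h

/-- `om n = 1` near `y0`, uniformly in `n`: on the complement of the image of the cube
`|v i - 1/2| ≤ 1/2 - 1/8`... take the neighbourhood `{q v | some |v i - 1/2| > 7/16 }`-type set; it suffices
that `om n (q v) = 1` if some `|v i - 1/2| ≥ 1/2`, and for `n ≥ 1` if some `|v i - 1/2| ≥ 1/4`. -/
theorem ColD.om_near : ∃ U ∈ 𝓝 y0, ∀ n, 1 ≤ n → ∀ y ∈ U, om n y = 1 := by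
  have k1 : IsClosed {v : Cube k | ∀ i, |(v i : ℝ) - 1 / 2| ≤ 1 / 4} := by
    rw [Set.setOf_forall]
    refine isClosed_iInter fun i => isClosed_le ?_ continuous_const
    exact ((continuous_subtype_val.comp (continuous_apply i)).sub continuous_const).abs
  have k2 : ∀ v ∈ {v : Cube k | ∀ i, |(v i : ℝ) - 1 / 2| ≤ 1 / 4}, v ∉ bd k := by
    intro v hv hb
    obtain ⟨i, hi⟩ := geoa_bd_abs hb
    have h2 := hv i
    rw [hi] at h2
    norm_num at h2
  obtain ⟨U, hU, h1⟩ := geoa_nhds h.hq {v | ∀ i, |(v i : ℝ) - 1 / 2| ≤ 1 / 4} k1 k2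
  refine ⟨U, hU, fun n hn y hy => ?_⟩
  obtain ⟨v, rfl, hv⟩ := h1 y hy
  refine h.om2 n v ?_
  have hv' : ¬ ∀ i, |(v i : ℝ) - 1 / 2| ≤ 1 / 4 := hv
  push Not at hv'
  obtain ⟨i, hi⟩ := hv'
  refine ⟨i, le_trans ?_ hi.le⟩
  have h2 : ((1 / 2 : ℝ)) ^ (n + 1) ≤ (1 / 2) ^ 2 :=
    pow_le_pow_of_le_one (by norm_num) (by norm_num) (by omega)
  refine h2.trans (le_of_eq ?_)
  norm_num

/-- Homotopies between the collapse maps (`line_hty`, `IsQ.exists_hty`), for families.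

`Eqs`: upstairs `|G (s, v) i - G (s', v) i| ≤ |s - s'|`, and `f ∘ q` is uniformly continuous.
Near `y0`: `phx o t ≤ t` for `t ≤ 1/2` and `phx o t ≥ t` for `t ≥ 1/2`, so if `v` has a coordinate within `δ`
of `0` or `1` then so has `G (s, v)`; and `f ∘ q = f y0` on the boundary.
Supports: if `|v i - 1/2| ≥ (1/2)^(n+2)` for some `i` then for `m ≥ n` `phl m (v i)` is `0` (if
`v i < 1/2`) or `1` (if `v i > 1/2`), so `G (s, v)` is in the boundary. -/
theorem ColD.exists_H {L : Type} (a b : L → Option ℕ) :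
    ∃ H : L → C(unitInterval × Y, Y), (∀ l s, H l (s, y0) = y0) ∧
      (∀ l y, H l (0, y) = col (a l) y) ∧ (∀ l y, H l (1, y) = col (b l) y) ∧ Eqs H ∧
      (∀ (f : C(Y, ℂ)) (ε : ℝ), 0 < ε → ∃ U ∈ 𝓝 y0, ∀ l s, ∀ y ∈ U,
        ‖f (H l (s, y)) - f y0‖ ≤ ε) ∧
      ∀ (n : ℕ) l, (∃ m, a l = some m ∧ n ≤ m) → (∃ m, b l = some m ∧ n ≤ m) → ∀ s y,
        H l (s, y) ≠ y0 → om n y = -1 := by
  have hG : ∀ l, ∃ G : C(unitInterval × Cube k, Cube k),
      (∀ s, ∀ v ∈ bd k, G (s, v) ∈ bd k) ∧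
      (∀ v, G (0, v) = fun i => phx (a l) (v i)) ∧ (∀ v, G (1, v) = fun i => phx (b l) (v i)) ∧
      ∀ s v i, ((G (s, v) i : unitInterval) : ℝ) =
        (1 - (s : ℝ)) * phx (a l) (v i) + s * phx (b l) (v i) :=
    fun l => line_hty (phx (a l)) (phx (b l)) (phx_ends _).1 (phx_ends _).2 (phx_ends _).1
      (phx_ends _).2
  choose G hGb hG0 hG1 hGv using hG
  have hH : ∀ l, ∃ H : C(unitInterval × Y, Y), (∀ s, H (s, y0) = y0) ∧
      ∀ s v, H (s, q v) = q (G l (s, v)) :=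
    fun l => h.hq.exists_hty h.hq (G l) (hGb l) (geoa_bd_nonempty h.k0)
  choose H hH0 hHq using hH
  have huc : ∀ (f : C(Y, ℂ)) (ε : ℝ), 0 < ε → ∃ δ : ℝ, 0 < δ ∧ ∀ v v' : Cube k,
      dist v v' ≤ δ → ‖f (q v) - f (q v')‖ ≤ ε := by
    intro f ε hε
    have hc : UniformContinuous (f.comp q) :=
      CompactSpace.uniformContinuous_of_continuous (f.comp q).continuous
    obtain ⟨δ, hδ, h1⟩ := Metric.uniformContinuous_iff.1 hc ε hε
    refine ⟨δ / 2, half_pos hδ, fun v v' hv => ?_⟩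
    have h2 := (h1 (lt_of_le_of_lt hv (half_lt_self hδ))).le
    rw [dist_eq_norm] at h2
    exact h2
  refine ⟨H, hH0, fun l y => ?_, fun l y => ?_, ?_, ?_, ?_⟩
  · obtain ⟨v, rfl⟩ := h.hq.surj y
    rw [hHq, hG0, h.cq]
  · obtain ⟨v, rfl⟩ := h.hq.surj y
    rw [hHq, hG1, h.cq]
  · intro f ε hε
    obtain ⟨δ, hδ, h1⟩ := huc f ε hε
    refine ⟨δ, hδ, fun s s' hs l y => ?_⟩
    obtain ⟨v, rfl⟩ := h.hq.surj y
    rw [hHq, hHq]
    refine h1 _ _ ?_
    rw [dist_pi_le_iff hδ.le]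
    intro i
    rw [Subtype.dist_eq, Real.dist_eq, hGv, hGv]
    have e : (1 - (s : ℝ)) * (phx (a l) (v i) : ℝ) + s * (phx (b l) (v i) : ℝ) -
        ((1 - (s' : ℝ)) * (phx (a l) (v i) : ℝ) + s' * (phx (b l) (v i) : ℝ)) =
        ((s : ℝ) - s') * ((phx (b l) (v i) : ℝ) - phx (a l) (v i)) := by ring
    rw [e, abs_mul]
    have h2 : |((phx (b l) (v i) : ℝ) - phx (a l) (v i))| ≤ 1 := by
      have a1 := (phx (a l) (v i)).2.1
      have a2 := (phx (a l) (v i)).2.2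
      have b1 := (phx (b l) (v i)).2.1
      have b2 := (phx (b l) (v i)).2.2
      rw [abs_le]
      constructor <;> linarith
    calc |(s : ℝ) - s'| * |((phx (b l) (v i) : ℝ) - phx (a l) (v i))|
        ≤ |(s : ℝ) - s'| * 1 := mul_le_mul_of_nonneg_left h2 (abs_nonneg _)
      _ ≤ δ := by rw [mul_one]; exact hs
  · intro f ε hε
    obtain ⟨δ, hδ, h1⟩ := huc f ε hε
    have hd0 : 0 < min δ (1 / 2) := lt_min hδ (by norm_num)
    have k1 : IsClosed {v : Cube k | ∀ i, min δ (1 / 2) ≤ (v i : ℝ) ∧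
        (v i : ℝ) ≤ 1 - min δ (1 / 2)} := by
      rw [Set.setOf_forall]
      refine isClosed_iInter fun i => ?_
      have hc : Continuous fun v : Cube k => (v i : ℝ) :=
        continuous_subtype_val.comp (continuous_apply i)
      exact (isClosed_le continuous_const hc).inter (isClosed_le hc continuous_const)
    have k2 : ∀ v ∈ {v : Cube k | ∀ i, min δ (1 / 2) ≤ (v i : ℝ) ∧
        (v i : ℝ) ≤ 1 - min δ (1 / 2)}, v ∉ bd k := by
      rintro v hv ⟨i, hi⟩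
      have h3 := hv i
      rcases hi with hi | hi
      · rw [hi, Set.Icc.coe_zero] at h3
        linarith [h3.1]
      · rw [hi, Set.Icc.coe_one] at h3
        linarith [h3.2]
    obtain ⟨U, hU, h2⟩ := geoa_nhds h.hq _ k1 k2
    refine ⟨U, hU, fun l s y hy => ?_⟩
    obtain ⟨v, rfl, hv⟩ := h2 y hy
    rw [hHq]
    have hex : ∃ w' ∈ bd k, dist (G l (s, v)) w' ≤ δ := by
      have hv' : ¬ ∀ i, min δ (1 / 2) ≤ (v i : ℝ) ∧ (v i : ℝ) ≤ 1 - min δ (1 / 2) := hv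
      push Not at hv'
      obtain ⟨i, hi⟩ := hv'
      have s0 := s.2.1
      have s1 := s.2.2
      have g0 := (G l (s, v) i).2.1
      have g1 := (G l (s, v) i).2.2
      have hm1 : min δ (1 / 2) ≤ δ := min_le_left _ _
      have hm2 : min δ (1 / 2) ≤ 1 / 2 := min_le_right _ _
      by_cases hvi : min δ (1 / 2) ≤ (v i : ℝ)
      · have h3 := hi hvi
        refine geoa_dist_bd _ i 1 (Or.inr rfl) δ ?_
        have a1 := geoa_phx_ge (a l) (v i) (by linarith)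
        have b1 := geoa_phx_ge (b l) (v i) (by linarith)
        have h4 : (v i : ℝ) ≤ (G l (s, v) i : ℝ) := by
          rw [hGv]
          have h5 := mul_le_mul_of_nonneg_left a1 (show 0 ≤ 1 - (s : ℝ) by linarith)
          have h6 := mul_le_mul_of_nonneg_left b1 s0
          linarith
        rw [Set.Icc.coe_one, abs_le]
        constructor <;> linarith
      · push Not at hvi
        refine geoa_dist_bd _ i 0 (Or.inl rfl) δ ?_
        have a1 := geoa_phx_le (a l) (v i) (by linarith)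
        have b1 := geoa_phx_le (b l) (v i) (by linarith)
        have h4 : (G l (s, v) i : ℝ) ≤ (v i : ℝ) := by
          rw [hGv]
          have h5 := mul_le_mul_of_nonneg_left a1 (show 0 ≤ 1 - (s : ℝ) by linarith)
          have h6 := mul_le_mul_of_nonneg_left b1 s0
          linarith
        rw [Set.Icc.coe_zero, abs_le]
        constructor <;> linarith
    obtain ⟨w', hw', hd⟩ := hex
    have h3 := h1 _ _ hd
    rw [(h.hq.base w').2 hw'] at h3
    exact h3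
  · rintro n l ⟨m, hm, hnm⟩ ⟨m', hm', hnm'⟩ s y hy
    obtain ⟨v, rfl⟩ := h.hq.surj y
    rw [hHq] at hy
    refine h.om1 n v fun i => ?_
    by_contra hcon
    push Not at hcon
    apply hy
    refine (h.hq.base _).2 ⟨i, ?_⟩
    rcases le_abs.1 hcon with h3 | h3
    · right
      refine Subtype.ext ?_
      rw [hGv, hm, hm']
      show (1 - (s : ℝ)) * (phl m (v i) : ℝ) + s * (phl m' (v i) : ℝ) = ((1 : unitInterval) : ℝ)
      rw [geoa_phl_one hnm _ h3, geoa_phl_one hnm' _ h3, Set.Icc.coe_one]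
      ring
    · left
      refine Subtype.ext ?_
      have h4 : (v i : ℝ) - 1 / 2 ≤ -(1 / 2) ^ (n + 2) := by linarith
      rw [hGv, hm, hm']
      show (1 - (s : ℝ)) * (phl m (v i) : ℝ) + s * (phl m' (v i) : ℝ) = ((0 : unitInterval) : ℝ)
      rw [geoa_phl_zero hnm _ h4, geoa_phl_zero hnm' _ h4, Set.Icc.coe_zero]
      ring

theorem ColD.supp {n m : ℕ} (hnm : n ≤ m) (y : Y) (hy : col (some m) y ≠ y0) : om n y = -1 := by
  obtain ⟨H, -, h0, -, -, -, h1⟩ := h.exists_H (L := Unit) (fun _ => some m) (fun _ => some m)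
  refine h1 n () ⟨m, rfl, hnm⟩ ⟨m, rfl, hnm⟩ 0 y ?_
  rw [h0]
  exact hy

end H7c
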