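import Pool.Agent.H.MP_7b4a29_c.UwG
import Pool.Agent.H.MP_7b4a29_c.Fre

/-!
# Families of intertwiners over a Fock model
-/

open Filter Topology MeasureTheory H47

namespace H7c

variable {Z : Type} [MetricSpace Z] [CompactSpace Z] [MeasurableSpace Z] [BorelSpace Z]
  {μ : Measure Z} [IsProbabilityMeasure μ]
  {K : Type} [NormedAddCommGroup K] [InnerProductSpace ℂ K] [CompleteSpace K]
  (M : FModel C(Z, ℂ) (intL μ) K)
  {Z2 : Type} [MetricSpace Z2] [CompactSpace Z2] [MeasurableSpace Z2] [BorelSpace Z2]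
  {ν : Measure Z2} [IsProbabilityMeasure ν] [ν.IsOpenPosMeasure]

/-- The relation between two homomorphisms which is needed in the main theorem: `C n l` are compact
sets of functions. -/
def Itw (I : Ix) (φ ψ : C(Z2, ℂ) →⋆ₐ[ℂ] M.PA) : Prop :=
  ∀ C : ℕ → I.L → Set C(Z2, ℂ), (∀ n l, IsCompact (C n l)) →
    ∃ U w : R1 I M.PA, ‖U‖ ≤ 1 ∧ star w * w = 1 ∧ w * star w = 1 ∧
      J1 I M.trP (1 - star U * U) ∧ J1 I M.trP (1 - U * star U) ∧ J1 I M.trP (w - U) ∧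
      ∀ (n : ℕ) (g : I.L → C(Z2, ℂ)), (∃ B : ℝ, ∀ l, ‖g l‖ ≤ B) → (∀ l, g l ∈ C n l) →
        cl I (fun l => φ (g l)) * U = U * cl I (fun l => ψ (g l))

/-- `τ((1 - U* U)²) ≤ τ(1 - U* U)` for a contraction `U`. -/
theorem uwM_nsq {B : Type} [CStarAlgebra B] {T : B →ₗ[ℂ] ℂ} (hT : PTr T) (U : B)
    (hU : ‖U‖ ≤ 1) : nsq T (1 - star U * U) ≤ (T (1 - star U * U)).re := by
  have h1 := nsq_mul_le hT (star U) U
  rw [norm_star] at h1
  have h2 : ‖U‖ ^ 2 * nsq T U ≤ 1 * nsq T U := by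
    refine mul_le_mul_of_nonneg_right ?_ (nsq_nonneg hT U)
    exact pow_le_one₀ (norm_nonneg U) hU
  have e1 : nsq T (1 - star U * U) =
      (T 1).re - 2 * nsq T U + nsq T (star U * U) := by
    unfold nsq
    have e : star (1 - star U * U) * (1 - star U * U) =
        1 - (star U * U + star U * U) + star (star U * U) * (star U * U) := by
      rw [star_sub, star_one, star_mul, star_star]
      noncomm_ring
    rw [e, map_add, map_sub, map_add, Complex.add_re, Complex.sub_re, Complex.add_re]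
    ring
  have e2 : (T (1 - star U * U)).re = (T 1).re - nsq T U := by
    unfold nsq
    rw [map_sub, Complex.sub_re]
  rw [e1, e2]
  linarith

/-- The choice at one index. -/
theorem uwM_one {S : Set ℕ} (hS : Sᶜ.Infinite) (φ ψ : C(Z2, ℂ) →⋆ₐ[ℂ] M.PA)
    (hφ : ∀ f, ((φ f : M.PA) : K →L[ℂ] K) ∈ M.E S) (hψ : ∀ f, ((ψ f : M.PA) : K →L[ℂ] K) ∈ M.E S)
    (tφ : ∀ f, M.trP (φ f) = intL ν f) (tψ : ∀ f, M.trP (ψ f) = intL ν f)
    {C : Set C(Z2, ℂ)} (hC : IsCompact C) {ε κ : ℝ} (hε : 0 < ε) (hκ : 0 < κ) (hκ1 : κ ≤ 1) :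
    ∃ U w : M.PA, ‖U‖ ≤ 1 ∧ star w * w = 1 ∧ w * star w = 1 ∧
      nsq M.trP (1 - star U * U) ≤ κ ∧ nsq M.trP (1 - U * star U) ≤ κ ∧
      nsq M.trP (w - U) ≤ κ ∧ ∀ a ∈ C, ‖φ a * U - U * ψ a‖ ≤ 3 * ε := by
  obtain ⟨t, -, htf, htc⟩ := hC.finite_cover_balls hε
  obtain ⟨U, w, hU, hw, hU1, hw1, hw2, hF, hk1, hk2⟩ :=
    exists_UwG M hS ((M.E Set.univ).subtype.comp φ) ((M.E Set.univ).subtype.comp ψ)
      hφ hψ tφ tψ (intL_comm μ) htf.toFinset ε κ hε hκ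
  have hT := ptr_trP M
  have hV1 : ‖(⟨U, hU⟩ : M.PA)‖ ≤ 1 := hU1
  have h3 : (M.trP (1 - star (⟨U, hU⟩ : M.PA) * ⟨U, hU⟩)).re ≤ κ := hk1
  refine ⟨⟨U, hU⟩, ⟨w, hw⟩, hV1, Subtype.ext hw1, Subtype.ext hw2, ?_, ?_, ?_, ?_⟩
  · exact (uwM_nsq hT _ hV1).trans h3
  · have h4 := uwM_nsq hT (star (⟨U, hU⟩ : M.PA)) (by rw [norm_star]; exact hV1)
    rw [star_star] at h4
    refine h4.trans ?_
    rw [map_sub, hT.tr, ← map_sub]
    exact h3
  · have h5 : nsq M.trP ((⟨w, hw⟩ : M.PA) - ⟨U, hU⟩) = ‖(w - U) M.Om‖ ^ 2 := by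
      have h6 : M.trP (star ((⟨w, hw⟩ : M.PA) - ⟨U, hU⟩) * ((⟨w, hw⟩ : M.PA) - ⟨U, hU⟩)) =
          M.st (star (w - U) * (w - U)) := rfl
      unfold nsq
      rw [h6, M.st_star_mul]
      exact Complex.ofReal_re _
    rw [h5]
    calc ‖(w - U) M.Om‖ ^ 2 ≤ κ ^ 2 := pow_le_pow_left₀ (norm_nonneg _) hk2 2
      _ ≤ κ := by nlinarith
  · intro a ha
    obtain ⟨b, hb, hab⟩ := Set.mem_iUnion₂.1 (htc ha)
    have hab' : ‖a - b‖ ≤ ε := by
      rw [← dist_eq_norm]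
      exact (Metric.mem_ball.1 hab).le
    have h7 : ‖φ b * (⟨U, hU⟩ : M.PA) - ⟨U, hU⟩ * ψ b‖ ≤ ε := hF b (htf.mem_toFinset.2 hb)
    have e : φ a * (⟨U, hU⟩ : M.PA) - ⟨U, hU⟩ * ψ a =
        φ (a - b) * (⟨U, hU⟩ : M.PA) + (φ b * (⟨U, hU⟩ : M.PA) - ⟨U, hU⟩ * ψ b) -
          ⟨U, hU⟩ * ψ (a - b) := by
      rw [map_sub, map_sub]
      noncomm_ring
    have h8 : ‖φ (a - b) * (⟨U, hU⟩ : M.PA)‖ ≤ ε := by
      refine (norm_mul_le _ _).trans ?_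
      have h9 : ‖φ (a - b)‖ ≤ ε := (NonUnitalStarAlgHom.norm_apply_le φ _).trans hab'
      calc ‖φ (a - b)‖ * ‖(⟨U, hU⟩ : M.PA)‖ ≤ ε * 1 :=
            mul_le_mul h9 hV1 (norm_nonneg _) hε.le
        _ = ε := mul_one ε
    have h10 : ‖(⟨U, hU⟩ : M.PA) * ψ (a - b)‖ ≤ ε := by
      refine (norm_mul_le _ _).trans ?_
      have h9 : ‖ψ (a - b)‖ ≤ ε := (NonUnitalStarAlgHom.norm_apply_le ψ _).trans hab'
      calc ‖(⟨U, hU⟩ : M.PA)‖ * ‖ψ (a - b)‖ ≤ 1 * ε :=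
            mul_le_mul hV1 h9 (norm_nonneg _) zero_le_one
        _ = ε := one_mul ε
    rw [e]
    refine (norm_sub_le _ _).trans ?_
    have h11 := norm_add_le (φ (a - b) * (⟨U, hU⟩ : M.PA)) (φ b * (⟨U, hU⟩ : M.PA) - ⟨U, hU⟩ * ψ b)
    linarith

/-- Two homomorphisms into `E S` with the same trace, `Sᶜ` infinite.

Proof. At the index `l` choose a finite `1/(w l + 1)`-net `F l` of the compact set
`⋃_{n ≤ w l} C n l`, and `U l`, `w l` by `exists_UwG` for `F l`, `ε = 1 / (w l + 1)` and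
`κ = 4 ^ (- w l)`. For `g` with `g l ∈ C n l`, `‖φ (g l) U - U ψ (g l)‖ ≤ 3 / (w l + 1)` as soon as
`n ≤ w l`. The two-norms: `1 - U* U ≥ 0`, of norm at most `1`, so
`nsq (1 - U* U) ≤ τ (1 - U* U) ≤ κ`; `nsq (1 - U U*) ≤ τ (1 - U U*) = τ (1 - U* U)`;
`nsq (w - U) = ‖(w - U) Ω‖² ≤ κ²`. All of them are at most `4 ^ (- w l)`, so that
`IsJ.of_two_pow` applies. -/
theorem itw_of (I : Ix) {S : Set ℕ} (hS : Sᶜ.Infinite) (φ ψ : C(Z2, ℂ) →⋆ₐ[ℂ] M.PA)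
    (hφ : ∀ f, ((φ f : M.PA) : K →L[ℂ] K) ∈ M.E S) (hψ : ∀ f, ((ψ f : M.PA) : K →L[ℂ] K) ∈ M.E S)
    (tφ : ∀ f, M.trP (φ f) = intL ν f) (tψ : ∀ f, M.trP (ψ f) = intL ν f) :
    Itw M I φ ψ := by
  intro C hC
  have hT := ptr_trP M
  have key : ∀ l : I.L, ∃ U w : M.PA, ‖U‖ ≤ 1 ∧ star w * w = 1 ∧ w * star w = 1 ∧
      nsq M.trP (1 - star U * U) ≤ (1 / 2) ^ I.w l ∧
      nsq M.trP (1 - U * star U) ≤ (1 / 2) ^ I.w l ∧
      nsq M.trP (w - U) ≤ (1 / 2) ^ I.w l ∧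
      ∀ a ∈ ⋃ n ∈ Set.Iic (I.w l), C n l, ‖φ a * U - U * ψ a‖ ≤ 3 * (1 / ((I.w l : ℝ) + 1)) := by
    intro l
    refine uwM_one M hS φ ψ hφ hψ tφ tψ ?_ (by positivity) (by positivity)
      (pow_le_one₀ (by norm_num) (by norm_num))
    exact (Set.finite_Iic (I.w l)).isCompact_biUnion fun n _ => hC n l
  choose U w hU hw1 hw2 hn1 hn2 hn3 hcom using key
  have bU : Bd (A := fun _ : I.L => M.PA) U := ⟨1, hU⟩
  have bw : Bd (A := fun _ : I.L => M.PA) w := Bd.of_unitary I hw1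
  refine ⟨cl I U, cl I w, norm_cl_le I zero_le_one bU (Eventually.of_forall hU), ?_, ?_, ?_, ?_,
    ?_, ?_⟩
  · rw [← cl_star I bw, ← cl_mul I bw.star bw, ← cl_one I]
    congr 1
    funext l
    exact hw1 l
  · rw [← cl_star I bw, ← cl_mul I bw bw.star, ← cl_one I]
    congr 1
    funext l
    exact hw2 l
  · rw [← cl_star I bU, ← cl_mul I bU.star bU, ← cl_one I, ← cl_sub I Bd.one (bU.star.mul bU)]
    refine IsJ.of_two_pow I (fun _ => hT) (Bd.one.sub (bU.star.mul bU)) 1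
      (Eventually.of_forall fun l => ?_)
    rw [one_mul]
    exact hn1 l
  · rw [← cl_star I bU, ← cl_mul I bU bU.star, ← cl_one I, ← cl_sub I Bd.one (bU.mul bU.star)]
    refine IsJ.of_two_pow I (fun _ => hT) (Bd.one.sub (bU.mul bU.star)) 1
      (Eventually.of_forall fun l => ?_)
    rw [one_mul]
    exact hn2 l
  · rw [← cl_sub I bw bU]
    refine IsJ.of_two_pow I (fun _ => hT) (bw.sub bU) 1 (Eventually.of_forall fun l => ?_)
    rw [one_mul]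
    exact hn3 l
  · intro n g hg hgC
    obtain ⟨B, hB⟩ := hg
    have b1 : Bd (A := fun _ : I.L => M.PA) (fun l => φ (g l)) :=
      ⟨B, fun l => (NonUnitalStarAlgHom.norm_apply_le φ _).trans (hB l)⟩
    have b2 : Bd (A := fun _ : I.L => M.PA) (fun l => ψ (g l)) :=
      ⟨B, fun l => (NonUnitalStarAlgHom.norm_apply_le ψ _).trans (hB l)⟩
    rw [← cl_mul I b1 bU, ← cl_mul I bU b2, cl_eq_iff I (b1.mul bU) (bU.mul b2)]
    have h1 : Tendsto (fun m : ℕ => 3 * (1 / ((m : ℝ) + 1))) atTop (𝓝 0) := by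
      have h2 := (tendsto_one_div_add_atTop_nhds_zero_nat (𝕜 := ℝ)).const_mul 3
      rwa [mul_zero] at h2
    refine squeeze_zero' (Eventually.of_forall fun l => norm_nonneg _) ?_ (h1.comp I.tw)
    filter_upwards [I.tw.eventually (eventually_ge_atTop n)] with l hl
    exact hcom l (g l) (Set.mem_iUnion₂.2 ⟨n, hl, hgC l⟩)

/-- The same homomorphism: `U = w = 1`. -/
theorem itw_refl (I : Ix) (φ : C(Z2, ℂ) →⋆ₐ[ℂ] M.PA) : Itw M I φ φ := by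
  intro C _
  have h0 : J1 I M.trP (0 : R1 I M.PA) := (IsJ.idl I (fun _ => ptr_trP M)).zero
  refine ⟨1, 1, norm_one_le' _, by rw [star_one, one_mul], by rw [star_one, one_mul], ?_, ?_, ?_,
    ?_⟩
  · rw [star_one, one_mul, sub_self]
    exact h0
  · rw [star_one, one_mul, sub_self]
    exact h0
  · rw [sub_self]
    exact h0
  · intro n g _ _
    rw [one_mul, mul_one]

end H7c
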