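import Pool.Agent.H.MP_7b4a29_c.FamC
import Pool.Agent.H.MP_7b4a29_c.AbsM
import Pool.Agent.H.MP_7b4a29_c.UwM

/-!
# Preparations for the main theorem
-/

open Filter Topology MeasureTheory H47

namespace H7c

/-- The family `g` of maps is equicontinuous at `z0`, with value `z0'`. -/
def Eqz {L : Type} {Z Z' : Type} [TopologicalSpace Z] [TopologicalSpace Z'] (z0 : Z) (z0' : Z')
    (g : L → C(Z, Z')) : Prop :=
  ∀ (f : C(Z', ℂ)) (ε : ℝ), 0 < ε → ∃ U ∈ 𝓝 z0, ∀ l, ∀ z ∈ U, ‖f (g l z) - f z0'‖ ≤ ε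

/-- Chains of families of maps with small steps. -/
def Chn {L : Type} {Z : Type} [TopologicalSpace Z] (z0 : Z) (h h' : L → C(Z, Z)) : Prop :=
  ∀ (F : Finset C(Z, ℂ)) (ε : ℝ), 0 < ε → ∃ (N : ℕ) (r : ℕ → L → C(Z, Z)), 0 < N ∧ r 0 = h ∧
    r N = h' ∧ (∀ k ≤ N, Eqz z0 z0 (r k)) ∧
    ∀ k < N, ∀ f ∈ F, ∀ l z, ‖f (r k l z) - f (r (k + 1) l z)‖ ≤ ε

theorem Chn.trans {L : Type} {Z : Type} [TopologicalSpace Z] {z0 : Z} {h h' h'' : L → C(Z, Z)}
    (a : Chn z0 h h') (b : Chn z0 h' h'') : Chn z0 h h'' := by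
  intro F ε hε
  obtain ⟨N1, r1, hN1, h10, h1N, h1e, h1s⟩ := a F ε hε
  obtain ⟨N2, r2, hN2, h20, h2N, h2e, h2s⟩ := b F ε hε
  refine ⟨N1 + N2, fun k => if k ≤ N1 then r1 k else r2 (k - N1), by omega, ?_, ?_, ?_, ?_⟩
  · simp only [if_pos (Nat.zero_le N1), h10]
  · simp only [if_neg (show ¬ N1 + N2 ≤ N1 by omega), Nat.add_sub_cancel_left, h2N]
  · intro k hk
    by_cases h : k ≤ N1
    · simp only [if_pos h]
      exact h1e k h
    · simp only [if_neg h]
      exact h2e (k - N1) (by omega)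
  · intro k hk f hf l z
    by_cases h : k < N1
    · simp only [if_pos h.le, if_pos (show k + 1 ≤ N1 from h)]
      exact h1s k h f hf l z
    · by_cases h3 : k = N1
      · subst h3
        simp only [if_pos le_rfl, if_neg (show ¬ k + 1 ≤ k by omega), Nat.add_sub_cancel_left]
        have h4 := h2s 0 hN2 f hf l z
        rw [h20, ← h1N, zero_add] at h4
        exact h4
      · simp only [if_neg (show ¬ k ≤ N1 by omega), if_neg (show ¬ k + 1 ≤ N1 by omega)]
        have h4 := h2s (k - N1) (by omega) f hf l z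
        rw [show k - N1 + 1 = k + 1 - N1 by omega] at h4
        exact h4

/-- From families of homotopies: subdivide `[0, 1]`. -/
theorem Chn.of_hty {L : Type} {Z : Type} [TopologicalSpace Z] [CompactSpace Z] {z0 : Z}
    (H : L → C(unitInterval × Z, Z)) (hs : Eqs H)
    (hz : ∀ (f : C(Z, ℂ)) (ε : ℝ), 0 < ε → ∃ U ∈ 𝓝 z0, ∀ l s, ∀ z ∈ U,
      ‖f (H l (s, z)) - f z0‖ ≤ ε) (h h' : L → C(Z, Z)) (h0 : ∀ l z, H l (0, z) = h l z)
    (h1 : ∀ l z, H l (1, z) = h' l z) : Chn z0 h h' := by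
  intro F ε hε
  have key : ∃ δ : ℝ, 0 < δ ∧ ∀ f ∈ F, ∀ s s' : unitInterval, |(s : ℝ) - s'| ≤ δ →
      ∀ l x, ‖f (H l (s, x)) - f (H l (s', x))‖ ≤ ε := by
    classical
    induction F using Finset.induction_on with
    | empty => exact ⟨1, one_pos, fun f hf => absurd hf (Finset.notMem_empty f)⟩
    | insert g F _ ih =>
      obtain ⟨δ1, hδ1, h2⟩ := ih
      obtain ⟨δ2, hδ2, h3⟩ := hs g ε hε
      refine ⟨min δ1 δ2, lt_min hδ1 hδ2, fun f hf s s' hss => ?_⟩
      rcases Finset.mem_insert.1 hf with rfl | hf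
      · exact h3 s s' (hss.trans (min_le_right _ _))
      · exact h2 f hf s s' (hss.trans (min_le_left _ _))
  obtain ⟨δ, hδ, h2⟩ := key
  obtain ⟨n, hn⟩ := exists_nat_one_div_lt hδ
  have hn0 : (0 : ℝ) < (n : ℝ) + 1 := by positivity
  refine ⟨n + 1, fun k l => (H l).comp
    ⟨fun z => (Set.projIcc (0 : ℝ) 1 zero_le_one ((k : ℝ) / ((n : ℝ) + 1)), z),
      by fun_prop⟩, Nat.succ_pos n, ?_, ?_, ?_, ?_⟩
  · funext l
    ext1 z
    rw [← h0]
    change H l (Set.projIcc (0 : ℝ) 1 zero_le_one (((0 : ℕ) : ℝ) / ((n : ℝ) + 1)), z) = _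
    rw [Nat.cast_zero, zero_div, Set.projIcc_left]
    rfl
  · funext l
    ext1 z
    rw [← h1]
    change H l (Set.projIcc (0 : ℝ) 1 zero_le_one (((n + 1 : ℕ) : ℝ) / ((n : ℝ) + 1)), z) = _
    rw [Nat.cast_succ, div_self hn0.ne', Set.projIcc_right]
    rfl
  · intro k _ f ε' hε'
    obtain ⟨U, hU, h3⟩ := hz f ε' hε'
    exact ⟨U, hU, fun l z hz => h3 l _ z hz⟩
  · intro k hk f hf l z
    have hk1 : (k : ℝ) + 1 ≤ (n : ℝ) + 1 := by exact_mod_cast hk
    have e1 : (k : ℝ) / ((n : ℝ) + 1) ∈ Set.Icc (0 : ℝ) 1 :=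
      ⟨by positivity, (div_le_one hn0).2 (by linarith)⟩
    have e2 : ((k + 1 : ℕ) : ℝ) / ((n : ℝ) + 1) ∈ Set.Icc (0 : ℝ) 1 :=
      ⟨by positivity, (div_le_one hn0).2 (by push_cast; exact hk1)⟩
    refine h2 f hf _ _ ?_ l z
    rw [Set.projIcc_of_mem _ e1, Set.projIcc_of_mem _ e2]
    change |(k : ℝ) / ((n : ℝ) + 1) - ((k + 1 : ℕ) : ℝ) / ((n : ℝ) + 1)| ≤ δ
    have e3 : (k : ℝ) / ((n : ℝ) + 1) - ((k + 1 : ℕ) : ℝ) / ((n : ℝ) + 1) =
        -(1 / ((n : ℝ) + 1)) := by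
      push_cast
      field_simp
      ring
    rw [e3, abs_neg, abs_of_pos (by positivity)]
    exact hn.le

variable {Z : Type} [MetricSpace Z] [CompactSpace Z] [MeasurableSpace Z] [BorelSpace Z]
  {μ : Measure Z} [IsProbabilityMeasure μ]
  {K : Type} [NormedAddCommGroup K] [InnerProductSpace ℂ K] [CompleteSpace K]
  (M : FModel C(Z, ℂ) (intL μ) K)
  {Z2 : Type} [MetricSpace Z2] [CompactSpace Z2] [MeasurableSpace Z2] [BorelSpace Z2]
  {ν : Measure Z2} [IsProbabilityMeasure ν] [ν.IsOpenPosMeasure] {I : Ix} {z0 : Z2}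

/-- If `γ f v = f z0 v` for all `f` then the same holds for families equicontinuous at `z0`.

Proof. Let `f`, `ε` be given and `U` as in `Eqz`. Take `χ : C(Z2, ℂ)` with values in `[0, 1]`,
`χ z0 = 1`, `χ = 0` outside `U`. Then `v = cst (γ χ) v`, and
`‖fam γ r f v - f z0 v‖ = ‖(cl (γ ((f ∘ r l - f z0) χ))) v‖ ≤ ε ‖v‖`. -/
theorem fam_mul_v {P : Type} [CStarAlgebra P] (γ : C(Z2, ℂ) →⋆ₐ[ℂ] P) (v : R1 I P)
    (hv : ∀ f, cst I P (γ f) * v = f z0 • v) {Y : Type} [TopologicalSpace Y] [CompactSpace Y]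
    {y0 : Y} (r : I.L → C(Z2, Y)) (hr : Eqz z0 y0 r) (f : C(Y, ℂ)) :
    fam I γ r f * v = f y0 • v := by
  rw [← sub_eq_zero, ← norm_le_zero_iff]
  refine le_of_forall_pos_le_add fun ε hε => ?_
  obtain ⟨U, hU, h1⟩ := hr f (ε / (‖v‖ + 1)) (by positivity)
  obtain ⟨δ, hδ, hball⟩ := Metric.mem_nhds_iff.1 hU
  obtain ⟨χ, hχ⟩ : ∃ χ : C(Z2, ℂ), χ = ⟨fun z => ((max 0 (1 - dist z z0 / δ) : ℝ) : ℂ),
    Complex.continuous_ofReal.comp (continuous_const.max
      (continuous_const.sub ((continuous_id.dist continuous_const).div_const δ)))⟩ := ⟨_, rfl⟩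
  have hχa : ∀ z, χ z = ((max 0 (1 - dist z z0 / δ) : ℝ) : ℂ) := by
    intro z
    rw [hχ]
    rfl
  have hχ1 : χ z0 = 1 := by
    rw [hχa, dist_self, zero_div, sub_zero, max_eq_right zero_le_one, Complex.ofReal_one]
  have hχn : ∀ z, ‖χ z‖ ≤ 1 := by
    intro z
    rw [hχa, Complex.norm_real, Real.norm_eq_abs, abs_of_nonneg (le_max_left _ _)]
    exact max_le zero_le_one (by
      have : 0 ≤ dist z z0 / δ := by positivity
      linarith)
  have hχ0 : ∀ z, z ∉ U → χ z = 0 := by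
    intro z hz
    rw [hχa, max_eq_left, Complex.ofReal_zero]
    by_contra h
    rw [not_le, sub_pos, div_lt_one hδ] at h
    exact hz (hball (Metric.mem_ball.2 h))
  have hv1 : cst I P (γ χ) * v = v := by rw [hv, hχ1, one_smul]
  have hb : Bd (A := fun _ : I.L => P) (fun l => γ (f.comp (r l))) := famc_bd I γ r f
  have h2 : fam I γ r f * v - f y0 • v =
      cl I (fun l => γ ((f.comp (r l) - algebraMap ℂ C(Z2, ℂ) (f y0)) * χ)) * v := by
    have h3 : (fun l => γ ((f.comp (r l) - algebraMap ℂ C(Z2, ℂ) (f y0)) * χ)) =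
        fun l : I.L => (γ (f.comp (r l)) - algebraMap ℂ P (f y0)) * γ χ := by
      funext l
      rw [map_mul, map_sub, AlgHomClass.commutes]
    rw [h3, cl_mul I (hb.sub (Bd.const P _)) (Bd.const P _), cl_sub I hb (Bd.const P _),
      cl_algebraMap, ← cst_apply, mul_assoc, hv1, sub_mul, ← fam_apply, ← Algebra.smul_def]
  rw [h2, zero_add]
  have h4 : ‖cl I (fun l => γ ((f.comp (r l) - algebraMap ℂ C(Z2, ℂ) (f y0)) * χ))‖ ≤
      ε / (‖v‖ + 1) := by
    have h5 : ∀ l, ‖γ ((f.comp (r l) - algebraMap ℂ C(Z2, ℂ) (f y0)) * χ)‖ ≤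
        ε / (‖v‖ + 1) := by
      intro l
      refine (famc_norm γ _).trans ((ContinuousMap.norm_le _ (by positivity)).2 fun z => ?_)
      rw [ContinuousMap.mul_apply, norm_mul]
      by_cases hz : z ∈ U
      · have h6 : ‖(f.comp (r l) - algebraMap ℂ C(Z2, ℂ) (f y0)) z‖ ≤ ε / (‖v‖ + 1) := h1 l z hz
        exact (mul_le_mul h6 (hχn z) (norm_nonneg _) (by positivity)).trans (by rw [mul_one])
      · rw [hχ0 z hz, norm_zero, mul_zero]
        positivity
    exact norm_cl_le I (by positivity) ⟨_, h5⟩ (Eventually.of_forall h5)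
  refine (norm_mul_le _ _).trans ((mul_le_mul_of_nonneg_right h4 (norm_nonneg v)).trans ?_)
  rw [div_mul_eq_mul_div, div_le_iff₀ (by positivity)]
  nlinarith [norm_nonneg v]

/-- The trace of the sum `cst γ ⊕ v κ v*`. -/
theorem trH_osum (γ : C(Z2, ℂ) →⋆ₐ[ℂ] M.PA) (hγ : ∀ f, M.trP (γ f) = intL ν f)
    (b : C(Z2, ℂ) →⋆ₐ[ℂ] R1 I M.PA) (v : R1 I M.PA) (κ : C1 I M.trP Z2 z0)
    (hb : ∀ f, b f = cst I M.PA (γ f) + v * κ.hat f * star v) : TrH M I ν b := by
  intro f
  have h1 : tcK M I (cst I M.PA (γ f)) = algebraMap ℂ (KK I K) (intL ν f) := by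
    rw [cst_apply, tcK_cl M I (Bd.const M.PA _), hγ]
    exact cl_algebraMap I _
  have hI := IsJ.idl I (fun _ : I.L => ptr_trP M)
  have h2 : tcK M I (v * κ.hat f * star v) = 0 :=
    tcK_J M I (hI.mul_right _ _ (hI.mul_left _ _ (κ.hat_J hI f)))
  rw [hb, map_add, h1, h2, add_zero]

/-- The contraction `D = 1 + ½ v (ζ - 1) v*`: `‖D‖ ≤ 1`, `D - 1 ∈ J`, it kills the cycle and commutes
with `b`. Here `D = ½ (1 + W)` with the unitary `W = 1 + v (ζ - 1) v*`; `D v hat f = 0` because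
`v* v (ζ - 1) hat f = -2 hat f`. -/
theorem exists_D {D : Type} [CStarAlgebra D] {J : D → Prop} (hJ : Idl J) {Y : Type}
    [TopologicalSpace Y] [CompactSpace Y] {y0 : Y} (v : D) (κ : Cyc J Y y0)
    (hv : star v * v * (κ.ζ - 1) = κ.ζ - 1) :
    ∃ E : D, ‖E‖ ≤ 1 ∧ J (E - 1) ∧ (∀ f, E * (v * κ.hat f * star v) = 0) ∧
      (∀ f, v * κ.hat f * star v * E = 0) ∧
      ∀ (b : C(Y, ℂ) →⋆ₐ[ℂ] D), (∀ f, b f * v = f y0 • v) → ∀ f, b f * E = E * b f := by
  obtain ⟨q, hq⟩ : ∃ q : D, q = v * (κ.ζ - 1) * star v := ⟨_, rfl⟩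
  have hq1 : star q + q + star q * q = 0 := by
    have h1 : star q * q = v * (star (κ.ζ - 1) * (star v * v * (κ.ζ - 1))) * star v := by
      rw [hq, star_mul, star_mul, star_star]
      simp only [mul_assoc]
    rw [h1, hv, hq, star_mul, star_mul, star_star, ← mul_assoc v (star (κ.ζ - 1)) (star v),
      ← add_mul, ← mul_add, ← add_mul, ← mul_add, κ.zeta_rel1, mul_zero, zero_mul]
  have hvs : star (κ.ζ - 1) * (star v * v) = star (κ.ζ - 1) := by
    have h1 := congrArg star hv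
    rwa [star_mul, star_mul, star_star] at h1
  have hW1 : star (1 + q) * (1 + q) = 1 := by
    have h1 : star (1 + q) * (1 + q) = 1 + (star q + q + star q * q) := by
      rw [star_add, star_one]
      noncomm_ring
    rw [h1, hq1, add_zero]
  obtain ⟨E, hE⟩ : ∃ E : D, E = 1 + (1 / 2 : ℂ) • q := ⟨_, rfl⟩
  have hhat : ∀ f, star v * v * κ.hat f = κ.hat f := fun f => κ.mul_hat_of hv f
  refine ⟨E, ?_, ?_, ?_, ?_, ?_⟩
  · have h1 : E = (1 / 2 : ℂ) • (1 + (1 + q)) := by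
      rw [hE, smul_add, smul_add, ← add_assoc, ← add_smul]
      norm_num
    rw [h1, norm_smul]
    have h2 : ‖(1 : D) + (1 + q)‖ ≤ 1 + 1 :=
      (norm_add_le _ _).trans (add_le_add (norm_one_le' _) (sqb_norm_le hW1))
    have h3 : ‖(1 / 2 : ℂ)‖ = 1 / 2 := by norm_num
    rw [h3]
    linarith
  · have h1 : E - 1 = (1 / 2 : ℂ) • q := by rw [hE]; abel
    rw [h1, hq]
    exact hJ.smul _ _ (hJ.mul_right _ _ (hJ.mul_left _ _ κ.j))
  · intro f
    have h1 : q * (v * κ.hat f * star v) = (-2 : ℂ) • (v * κ.hat f * star v) := by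
      calc q * (v * κ.hat f * star v)
          = v * ((κ.ζ - 1) * (star v * v * κ.hat f)) * star v := by
            rw [hq]
            simp only [mul_assoc]
        _ = (-2 : ℂ) • (v * κ.hat f * star v) := by
            rw [hhat, κ.zeta_sub_hat, mul_smul_comm, smul_mul_assoc]
    rw [hE, add_mul, one_mul, smul_mul_assoc, h1, smul_smul]
    norm_num
  · intro f
    have h1 : v * κ.hat f * star v * q = (-2 : ℂ) • (v * κ.hat f * star v) := by
      calc v * κ.hat f * star v * q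
          = v * (κ.hat f * (star v * v * (κ.ζ - 1))) * star v := by
            rw [hq]
            simp only [mul_assoc]
        _ = (-2 : ℂ) • (v * κ.hat f * star v) := by
            rw [hv, κ.hat_zeta_sub, mul_smul_comm, smul_mul_assoc]
    rw [hE, mul_add, mul_one, mul_smul_comm, h1, smul_smul]
    norm_num
  · intro b hb f
    have h1 : b f * q = f y0 • q := by
      rw [hq, ← mul_assoc, ← mul_assoc, hb, smul_mul_assoc, smul_mul_assoc]
    have h2 : star v * b f = f y0 • star v := by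
      have h3 := congrArg star (hb (star f))
      rw [star_mul, map_star, star_star, star_smul, ContinuousMap.star_apply, star_star] at h3
      exact h3
    have h4 : q * b f = f y0 • q := by
      rw [hq, mul_assoc, h2, mul_smul_comm]
    rw [hE, mul_add, add_mul, mul_one, one_mul, mul_smul_comm, smul_mul_assoc, h1, h4]

/-- Saturation: if two homomorphisms of `C(Z2, ℂ)` are approximately unitarily equivalent in
`R1 I P` on finite sets then they are unitarily equivalent. Proof: `C(Z2, ℂ)` is separable; unitaries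
of `R1 I P` are given by families of unitaries (`exists_unitary_rep`); `saturate` for the conditions
`‖z * b (f i) l - a (f i) l * z‖` (representatives), the values being unitaries. -/
theorem sat_unitary {P : Type} [CStarAlgebra P] (a b : C(Z2, ℂ) →⋆ₐ[ℂ] R1 I P)
    (h : ∀ (F : Finset C(Z2, ℂ)) (ε : ℝ), 0 < ε →
      ∃ u : R1 I P, star u * u = 1 ∧ u * star u = 1 ∧ ∀ f ∈ F, ‖u * b f - a f * u‖ ≤ ε) :
    ∃ u : R1 I P, star u * u = 1 ∧ u * star u = 1 ∧ ∀ f, u * b f = a f * u := by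
  obtain ⟨d, hd⟩ : ∃ d : ℕ → C(Z2, ℂ), DenseRange d :=
    ⟨TopologicalSpace.denseSeq C(Z2, ℂ), TopologicalSpace.denseRange_denseSeq C(Z2, ℂ)⟩
  have h1 : ∀ k : ℕ, ∃ x : ∀ _ : I.L, {z : P // star z * z = 1 ∧ z * star z = 1},
      ∀ i ≤ k, ‖cl I (fun l => (x l : P)) * b (d i) - a (d i) * cl I (fun l => (x l : P))‖ ≤
        1 / (2 * ((k : ℝ) + 1)) := by
    intro k
    classical
    obtain ⟨u, hu1, hu2, hu3⟩ := h ((Finset.range (k + 1)).image d) (1 / (2 * ((k : ℝ) + 1)))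
      (by positivity)
    obtain ⟨x, hx, hxu⟩ := exists_unitary_rep I u hu1 hu2
    refine ⟨fun l => ⟨x l, hx l⟩, fun i hi => ?_⟩
    change ‖cl I x * b (d i) - a (d i) * cl I x‖ ≤ _
    rw [hxu]
    exact hu3 _ (Finset.mem_image.2 ⟨i, Finset.mem_range.2 (by omega), rfl⟩)
  choose x hx using h1
  have hub : ∀ y : ∀ _ : I.L, {z : P // star z * z = 1 ∧ z * star z = 1},
      Bd (A := fun _ : I.L => P) (fun l => (y l : P)) := fun y => sqb_bd fun l => (y l).2.1
  obtain ⟨ra, hra⟩ : ∃ ra : ℕ → ∀ _ : I.L, P, ra = fun i => SQ.rep I (a (d i)) := ⟨_, rfl⟩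
  obtain ⟨rb, hrb⟩ : ∃ rb : ℕ → ∀ _ : I.L, P, rb = fun i => SQ.rep I (b (d i)) := ⟨_, rfl⟩
  have hra1 : ∀ i, Bd (A := fun _ : I.L => P) (ra i) := fun i => by
    rw [hra]
    exact SQ.rep_bd I (a (d i))
  have hrb1 : ∀ i, Bd (A := fun _ : I.L => P) (rb i) := fun i => by
    rw [hrb]
    exact SQ.rep_bd I (b (d i))
  have hra2 : ∀ i, cl I (ra i) = a (d i) := fun i => by
    rw [hra]
    exact SQ.cl_rep I (a (d i))
  have hrb2 : ∀ i, cl I (rb i) = b (d i) := fun i => by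
    rw [hrb]
    exact SQ.cl_rep I (b (d i))
  have hcl : ∀ (y : ∀ _ : I.L, {z : P // star z * z = 1 ∧ z * star z = 1}) i,
      cl I (fun l => (y l : P)) * b (d i) - a (d i) * cl I (fun l => (y l : P)) =
        cl I (fun l => (y l : P) * rb i l - ra i l * (y l : P)) := by
    intro y i
    rw [cl_sub I (Bd.mul (hub y) (hrb1 i)) (Bd.mul (hra1 i) (hub y)),
      cl_mul I (hub y) (hrb1 i), cl_mul I (hra1 i) (hub y), hra2, hrb2]
  obtain ⟨y, _, hy⟩ := saturate I (X := fun _ => {z : P // star z * z = 1 ∧ z * star z = 1})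
    (fun i l z => ‖(z : P) * rb i l - ra i l * (z : P)‖) x (by
      intro k i hi
      have h2 : ‖cl I (fun l => (x k l : P) * rb i l - ra i l * (x k l : P))‖ <
          1 / ((k : ℝ) + 1) := by
        rw [← hcl]
        refine (hx k i hi).trans_lt ?_
        have h3 : (0 : ℝ) < (k : ℝ) + 1 := by positivity
        exact one_div_lt_one_div_of_lt h3 (by linarith)
      filter_upwards [eventually_norm_lt I ((Bd.mul (hub (x k)) (hrb1 i)).sub
        (Bd.mul (hra1 i) (hub (x k)))) h2] with l hl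
      exact hl.le)
  obtain ⟨u, hu⟩ : ∃ u : R1 I P, u = cl I (fun l => (y l : P)) := ⟨_, rfl⟩
  have hyb := hub y
  refine ⟨u, ?_, ?_, ?_⟩
  · rw [hu, ← cl_star I hyb, ← cl_mul I hyb.star hyb, ← cl_one I]
    congr 1
    funext l
    exact (y l).2.1
  · rw [hu, ← cl_star I hyb, ← cl_mul I hyb hyb.star, ← cl_one I]
    congr 1
    funext l
    exact (y l).2.2
  · have h3 : ∀ i, u * b (d i) = a (d i) * u := by
      intro i
      rw [← sub_eq_zero, hu, hcl,
        cl_eq_zero_iff I ((Bd.mul hyb (hrb1 i)).sub (Bd.mul (hra1 i) hyb))]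
      exact ji_tendsto (fun l => norm_nonneg _) (hy i)
    have ca : Continuous a := (LipschitzWith.of_dist_le_mul (K := 1) fun f g => by
      rw [dist_eq_norm, dist_eq_norm, ← map_sub, NNReal.coe_one, one_mul]
      exact famc_norm a _).continuous
    have cb : Continuous b := (LipschitzWith.of_dist_le_mul (K := 1) fun f g => by
      rw [dist_eq_norm, dist_eq_norm, ← map_sub, NNReal.coe_one, one_mul]
      exact famc_norm b _).continuous
    have h4 : (fun f => u * b f) = fun f => a f * u :=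
      hd.equalizer (continuous_const.mul cb) (ca.mul continuous_const) (funext h3)
    exact fun f => congrFun h4 f

/-- The element `v` exists: `absb` for `cst γ`, `X = Unit`, `T = ` the evaluation at `z0` and the
element `κ.ζ - 1`. -/
theorem exists_v (γ : C(Z2, ℂ) →⋆ₐ[ℂ] M.PA) (hγ : ∀ f, M.trP (γ f) = intL ν f)
    (κ : C1 I M.trP Z2 z0) : ∃ v : R1 I M.PA, (∀ f, cst I M.PA (γ f) * v = f z0 • v) ∧
      star v * v * (κ.ζ - 1) = κ.ζ - 1 := by
  have hI := IsJ.idl I (fun _ : I.L => ptr_trP M)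
  have hT : TrH M I ν ((cst I M.PA).comp γ) := by
    intro f
    change tcK M I (cst I M.PA (γ f)) = _
    rw [cst_apply, tcK_cl M I (Bd.const M.PA _), hγ]
    exact cl_algebraMap I _
  obtain ⟨v, hv1, hv2, _, _⟩ := absb M I _ hT Unit
    (fun _ => (Cyc.triv (J1 I M.trP) Z2 z0 hI).κ) 1 (fun _ => κ.ζ - 1) (fun _ => κ.j)
  refine ⟨v (), fun f => ?_, ?_⟩
  · have h1 : cst I M.PA (γ f) * v () = v () * algebraMap ℂ _ (f z0) := hv1 () f
    rw [h1, Algebra.smul_def, Algebra.commutes]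
  · have h1 := hv2 () () 0
    rwa [if_pos rfl] at h1

end H7c
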