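import Pool.Agent.H.MP_7b4a29_c.GeoA
import Pool.Agent.H.MP_7b4a29_c.MainT0

/-!
# The geometric data
-/

open Filter Topology MeasureTheory

namespace H7c

/-- Geometric data for a space `Z2` with measure `ν` and base point `z0`, relative to a cube quotient
`Y`: based maps `p : Z2 → Y` and `K : Y → Z2`, inverse to each other up to homotopy; a measure preserving
map `Q : [0, 1] → Z2`, and homotopies `N n` of `col n ∘ p ∘ Q` to the constant map, supported where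
`on n = -1`, with functions `on n` on `[0, 1]`. -/
structure Geo (Z2 : Type) [MetricSpace Z2] [CompactSpace Z2] [MeasurableSpace Z2]
    (ν : Measure Z2) (z0 : Z2) (Y : Type) [TopologicalSpace Y] [CompactSpace Y] [T2Space Y]
    (y0 : Y) where
  k : ℕ
  q : C(Cube k, Y)
  col : Option ℕ → C(Y, Y)
  om : ℕ → C(Y, ℂ)
  cd : ColD y0 q col om
  p : C(Z2, Y)
  K : C(Y, Z2)
  Q : C(unitInterval, Z2)
  N : ℕ → C(unitInterval × unitInterval, Y)
  on : ℕ → C(unitInterval, ℂ)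
  pz : p z0 = y0
  Kz : K y0 = z0
  sm : ∃ C : ℝ, ∀ n, ∫ z, ‖om n (p z) - 1‖ ^ 2 ∂ν ≤ C * (1 / 2) ^ n
  kp : ∃ H : C(unitInterval × Z2, Z2), (∀ s, H (s, z0) = z0) ∧ (∀ z, H (0, z) = z) ∧
    ∀ z, H (1, z) = K (p z)
  pk : ∃ H : C(unitInterval × Y, Y), (∀ s, H (s, y0) = y0) ∧ (∀ y, H (0, y) = y) ∧
    ∀ y, H (1, y) = p (K y)
  Qm : ∀ f : C(Z2, ℂ), ∫ t : unitInterval, f (Q t) = ∫ z, f z ∂ν
  N0 : ∀ n t, N n (0, t) = col (some n) (p (Q t))
  N1 : ∀ n t, N n (1, t) = y0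
  Ne : Eqs N
  nu : ∀ n t, star (on n t) * on n t = 1
  ns : ∀ n s t, N n (s, t) ≠ y0 → on n t = -1
  nm : ∃ C : ℝ, ∀ n, ∫ t : unitInterval, ‖on n t - 1‖ ^ 2 ≤ C * (1 / 2) ^ n
  nz : ∃ χ : C(Z2, ℂ), χ z0 = 1 ∧ ∃ n₀, ∀ n, n₀ ≤ n → ∀ t, χ (Q t) ≠ 0 → on n t = 1

/-- Bump functions. -/
theorem geob_bump {Z2 : Type} [MetricSpace Z2] {z0 : Z2} {U : Set Z2} (hU : U ∈ 𝓝 z0) :
    ∃ χ : C(Z2, ℂ), χ z0 = 1 ∧ ∀ z, z ∉ U → χ z = 0 := by
  obtain ⟨δ, hδ, hball⟩ := Metric.mem_nhds_iff.1 hU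
  refine ⟨⟨fun z => ((max 0 (1 - dist z z0 / δ) : ℝ) : ℂ),
    Complex.continuous_ofReal.comp (continuous_const.max
      (continuous_const.sub ((continuous_id.dist continuous_const).div_const δ)))⟩, ?_, ?_⟩
  · change ((max 0 (1 - dist z0 z0 / δ) : ℝ) : ℂ) = 1
    rw [dist_self, zero_div, sub_zero, max_eq_right zero_le_one, Complex.ofReal_one]
  · intro z hz
    change ((max 0 (1 - dist z z0 / δ) : ℝ) : ℂ) = 0
    rw [max_eq_left, Complex.ofReal_zero]
    by_contra h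
    rw [not_le, sub_pos, div_lt_one hδ] at h
    exact hz (hball (Metric.mem_ball.2 h))

/-- A family of elements which fixes `χ` fixes `v`. -/
theorem geob_fix {I : Ix} {P : Type} [CStarAlgebra P] {X : Type} [TopologicalSpace X]
    [CompactSpace X] (γ : C(X, ℂ) →⋆ₐ[ℂ] P) (ω : I.L → C(X, ℂ))
    (hb : Bd (A := fun _ : I.L => P) (fun l => γ (ω l))) (v : R1 I P) (χ : C(X, ℂ))
    (hv : cst I P (γ χ) * v = v) (hχ : ∀ᶠ l in I.F, ω l * χ = χ) :
    cl I (fun l => γ (ω l)) * v = v := by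
  have hc : Bd (A := fun _ : I.L => P) (fun _ => γ χ) := Bd.const P _
  have h1 : cl I (fun l => γ (ω l)) * cst I P (γ χ) = cst I P (γ χ) := by
    rw [cst_apply, ← cl_mul I hb hc]
    refine cl_congr I (hb.mul hc) hc ?_
    filter_upwards [hχ] with l hl
    rw [← map_mul, hl]
  conv_lhs => rw [← hv, ← mul_assoc, h1]
  exact hv

/-- One homotopy is equicontinuous near a fixed point. -/
theorem geob_near {X W : Type} [TopologicalSpace X] [TopologicalSpace W] {x0 : X} {w0 : W}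
    (H : C(unitInterval × X, W)) (h0 : ∀ s, H (s, x0) = w0) (f : C(W, ℂ)) (ε : ℝ) (hε : 0 < ε) :
    ∃ U ∈ 𝓝 x0, ∀ s, ∀ x ∈ U, ‖f (H (s, x)) - f w0‖ ≤ ε := by
  obtain ⟨F, hF⟩ : ∃ F : C(X, C(unitInterval, ℂ)), ∀ x s, F x s = f (H (s, x)) :=
    ⟨((f.comp H).comp ⟨fun q : X × unitInterval => (q.2, q.1), by fun_prop⟩).curry,
      fun _ _ => rfl⟩
  refine ⟨F ⁻¹' Metric.ball (F x0) ε,
    F.continuous.continuousAt.preimage_mem_nhds (Metric.ball_mem_nhds _ hε), fun s x hx => ?_⟩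
  have h1 : ‖F x - F x0‖ ≤ ε := by
    rw [← dist_eq_norm]
    exact (Metric.mem_ball.1 hx).le
  have h2 := ((F x - F x0).norm_coe_le_norm s).trans h1
  rw [ContinuousMap.sub_apply, hF, hF, h0] at h2
  exact h2

namespace Geo

variable {Z2 : Type} [MetricSpace Z2] [CompactSpace Z2] [MeasurableSpace Z2]
  {ν : Measure Z2} {z0 : Z2} {Y : Type} [TopologicalSpace Y] [CompactSpace Y] [T2Space Y]
  {y0 : Y} (G : Geo Z2 ν z0 Y y0)

/-- The collapse maps at the index `l`. -/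
noncomputable def cw (I : Ix) : I.L → C(Z2, Y) := fun l => (G.col (some (I.w l))).comp G.p

/-- The unitary functions at the index `l`. -/
noncomputable def ow (I : Ix) : I.L → C(Z2, ℂ) := fun l => (G.om (I.w l)).comp G.p

theorem cw_z0 (I : Ix) (l : I.L) : G.cw I l z0 = y0 := by
  change G.col (some (I.w l)) (G.p z0) = y0
  rw [G.pz, G.cd.c0]

theorem cw_ow (I : Ix) (l : I.L) (z : Z2) (h : G.cw I l z ≠ y0) : G.ow I l z = -1 := by
  obtain ⟨H, _, h2, _, _, _, h6⟩ := G.cd.exists_H (L := Unit) (fun _ => some (I.w l))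
    (fun _ => some (I.w l))
  refine h6 (I.w l) () ⟨_, rfl, le_rfl⟩ ⟨_, rfl, le_rfl⟩ 0 (G.p z) ?_
  rw [h2]
  exact h

theorem smF (I : Ix) : SmF I ν (G.ow I) := by
  refine ⟨fun l x => G.cd.ou (I.w l) (G.p x), ?_⟩
  obtain ⟨C, hC⟩ := G.sm
  exact ⟨C, fun l => hC (I.w l)⟩

variable {I : Ix} {P : Type} [CStarAlgebra P] {τ : P →ₗ[ℂ] ℂ} (hτ : PTr τ)
  (γ : C(Z2, ℂ) →⋆ₐ[ℂ] P) (hγ : ∀ f, τ (γ f) = ∫ z, f z ∂ν)

include hτ hγ in
/-- The cycle of a homomorphism (`exists_colCyc`). -/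
theorem exists_cyc (I : Ix) : ∃ c : C1 I τ Y y0, (∀ f, c.κ f = fam I γ (G.cw I) f) ∧
    c.ζ = cl I (fun l => γ (G.ow I l)) :=
  exists_colCyc hτ γ hγ (G.smF I) (G.cw I) fun l x hx => G.cw_ow I l x hx

/-- `ow = 1` near `z0` (`ColD.om_near`): choose `χ : C(Z2, ℂ)` with `χ z0 = 1` and `χ = 0` outside the
preimage of the neighbourhood; `v = cst (γ χ) v` and `ow * χ = χ` as soon as `1 ≤ w l`. -/
theorem ow_v (v : R1 I P) (hv : ∀ f, cst I P (γ f) * v = f z0 • v) :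
    cl I (fun l => γ (G.ow I l)) * v = v := by
  obtain ⟨U, hU, h1⟩ := G.cd.om_near
  have hU2 : G.p ⁻¹' U ∈ 𝓝 z0 := by
    refine G.p.continuous.continuousAt.preimage_mem_nhds ?_
    rw [G.pz]
    exact hU
  obtain ⟨χ, hχ1, hχ0⟩ := geob_bump hU2
  exact geob_fix γ (G.ow I) (famc_ubd γ (G.smF I)) v χ (by rw [hv, hχ1, one_smul])
    (by
      filter_upwards [I.tw.eventually_ge_atTop 1] with l hl
      ext z
      rw [ContinuousMap.mul_apply]
      by_cases hz : G.p z ∈ U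
      · have h2 : G.ow I l z = 1 := h1 (I.w l) hl (G.p z) hz
        rw [h2, one_mul]
      · rw [hχ0 z hz, mul_zero])

/-- The chain from the identity to `K ∘ cw`: `Chn.of_hty` for the homotopy `kp` (`Eqs.of_one`; the
condition near `z0` by compactness of `[0, 1]`) and for the homotopies of `ColD.exists_H` from
`col none` to `col (some (w l))` (`Eqs.pre`, `Eqs.post`); `Chn.trans`. -/
theorem chn (I : Ix) : Chn z0 (fun _ : I.L => ContinuousMap.id Z2)
    (fun l => G.K.comp (G.cw I l)) := by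
  obtain ⟨H1, a0, a1, a2⟩ := G.kp
  have c1 : Chn z0 (fun _ : I.L => ContinuousMap.id Z2) (fun _ => G.K.comp G.p) := by
    refine Chn.of_hty (fun _ => H1) (Eqs.of_one H1) (fun f ε hε => ?_) _ _ (fun _ z => a1 z)
      (fun _ z => a2 z)
    obtain ⟨U, hU, h1⟩ := geob_near H1 a0 f ε hε
    exact ⟨U, hU, fun _ s z hz => h1 s z hz⟩
  obtain ⟨H, b0, b1, b2, b3, b4, _⟩ := G.cd.exists_H (L := I.L) (fun _ => none)
    (fun l => some (I.w l))
  refine c1.trans (Chn.of_hty (fun l => G.K.comp ((H l).comp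
    ⟨fun q => (q.1, G.p q.2), by fun_prop⟩)) ((b3.pre fun _ => G.p).post G.K)
    (fun f ε hε => ?_) _ _ (fun l z => ?_) (fun l z => ?_))
  · obtain ⟨U, hU, h1⟩ := b4 (f.comp G.K) ε hε
    refine ⟨G.p ⁻¹' U, G.p.continuous.continuousAt.preimage_mem_nhds (by rw [G.pz]; exact hU),
      fun l s z hz => ?_⟩
    have h2 := h1 l s (G.p z) hz
    change ‖f (G.K (H l (s, G.p z))) - f (G.K y0)‖ ≤ ε at h2
    rw [G.Kz] at h2
    exact h2
  · change G.K (H l (0, G.p z)) = G.K (G.p z)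
    rw [b1, G.cd.cn]
  · change G.K (H l (1, G.p z)) = G.K (G.col (some (I.w l)) (G.p z))
    rw [b2]

include hτ in
/-- The sum with the family `κ ∘ Q*` can be removed.

Proof. `exists_colPth` for the homomorphism `κap` of `C([0, 1])`, `ω l = on (w l)` and the homotopies
`h ∘ N (w l)` (`Eqs.post`, and reindexing) gives a path with `ζ = cl (κap (on (w l)))`. `ζ v = v`: with `χ`
from `nz`, `v = cst (κap (χ ∘ Q)) v` and `on n * (χ ∘ Q) = χ ∘ Q` for `n ≥ n₀`. At `s = 1` the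
homomorphism is `f ↦ f (h y0)`. Apply `eqv_csum_null`. -/
theorem nh {W : Type} [TopologicalSpace W] [CompactSpace W] [T2Space W] {w0 : W}
    (κap : C(unitInterval, ℂ) →⋆ₐ[ℂ] P) (hκ : ∀ f, τ (κap f) = ∫ x, f x) (h : C(Y, W))
    (h0 : h y0 = w0) (v : R1 I P) (hv : ∀ f : C(Z2, ℂ), cst I P (κap (f.comp G.Q)) * v = f z0 • v)
    (κ d : C1 I τ W w0) (hk : star v * v * (κ.ζ - 1) = κ.ζ - 1)
    (hd : ∀ f : C(W, ℂ), d.κ f = cl I (fun l => κap ((f.comp (h.comp (G.cw I l))).comp G.Q)) +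
      v * κ.hat f * star v) : Eqv d κ := by
  have hω : SmF I (volume : Measure unitInterval) (fun l => G.on (I.w l)) := by
    refine ⟨fun l x => G.nu (I.w l) x, ?_⟩
    obtain ⟨C, hC⟩ := G.nm
    exact ⟨C, fun l => hC (I.w l)⟩
  have hE : Eqs (fun l : I.L => h.comp (G.N (I.w l))) := by
    intro f ε hε
    obtain ⟨δ, hδ, h1⟩ := G.Ne.post h f ε hε
    exact ⟨δ, hδ, fun s s' hss l x => h1 s s' hss (I.w l) x⟩
  obtain ⟨p, hp1, hp2⟩ := exists_colPth hτ κap hκ hω (fun l : I.L => h.comp (G.N (I.w l)))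
    (y0 := w0) (fun l s x hx => by
      refine G.ns (I.w l) s x fun h2 => hx ?_
      change h (G.N (I.w l) (s, x)) = w0
      rw [h2, h0]) hE
  refine eqv_csum_null hτ p v κ d ?_ hk (fun f => ?_) (fun f => ?_)
  · obtain ⟨χ, hχ1, n₀, hχ⟩ := G.nz
    rw [hp2]
    refine geob_fix κap (fun l => G.on (I.w l)) (famc_ubd κap hω) v (χ.comp G.Q)
      (by rw [hv, hχ1, one_smul]) ?_
    filter_upwards [I.tw.eventually_ge_atTop n₀] with l hl
    ext t
    rw [ContinuousMap.mul_apply, ContinuousMap.comp_apply]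
    by_cases ht : χ (G.Q t) = 0
    · rw [ht, mul_zero]
    · rw [hχ (I.w l) hl t ht, one_mul]
  · rw [hp1, fam_apply, ← cl_algebraMap I]
    congr 1
    funext l
    have h2 : f.comp (hm (h.comp (G.N (I.w l))) 1) = algebraMap ℂ C(unitInterval, ℂ) (f w0) := by
      ext t
      change f (h (G.N (I.w l) (1, t))) = f w0
      rw [G.N1, h0]
    rw [h2, AlgHomClass.commutes]
  · rw [hd, hp1, fam_apply]
    congr 2
    funext l
    congr 1
    ext t
    change f (h (G.col (some (I.w l)) (G.p (G.Q t)))) = f (h (G.N (I.w l) (0, t)))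
    rw [G.N0]

include hγ in
/-- Reindexing of the cycle of a homomorphism.

Proof. Both cycles are given by families of the collapse maps. Put
`a l = if I'.w l ≤ I.w (φ.f l) then I.w (φ.f l) else I'.w l`; by `φ.w` and `cl_congr` the family of
`Cyc.re φ hτ c` is that of `col (some (a l)) ∘ p`, and `I'.w l ≤ a l` for all `l`. `ColD.exists_H` for
`some (a l)`, `some (I'.w l)` gives homotopies supported where `om (I'.w l) = -1`; `eqv_colPth`. -/
theorem col_re {I' : Ix} (φ : IxHom I I') (c : C1 I τ Y y0)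
    (hc : ∀ f, c.κ f = fam I γ (G.cw I) f) (e : C1 I' τ Y y0)
    (he : ∀ f, e.κ f = fam I' γ (G.cw I') f) : Eqv (Cyc.re φ hτ c) e := by
  classical
  obtain ⟨a, ha⟩ : ∃ a : I'.L → ℕ, a = fun l =>
    if I'.w l ≤ I.w (φ.f l) then I.w (φ.f l) else I'.w l := ⟨_, rfl⟩
  have ha1 : ∀ l, I'.w l ≤ a l := by
    intro l
    rw [ha]
    dsimp only
    split_ifs with h1
    · exact h1
    · exact le_rfl
  obtain ⟨H, b0, b1, b2, b3, _, b5⟩ := G.cd.exists_H (L := I'.L) (fun l => some (a l))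
    (fun l => some (I'.w l))
  refine eqv_colPth hτ γ hγ (G.smF I') (fun l => (H l).comp
    ⟨fun q => (q.1, G.p q.2), by fun_prop⟩) (fun l s x hx => ?_) (b3.pre fun _ => G.p) _ _
    (fun f => ?_) (fun f => ?_)
  · exact b5 (I'.w l) l ⟨_, rfl, ha1 l⟩ ⟨_, rfl, le_rfl⟩ s (G.p x) hx
  · have h1 : (Cyc.re φ hτ c).κ f = SQ.re φ (c.κ f) := rfl
    rw [h1, hc, fam_re, fam_apply, fam_apply]
    refine cl_congr I' (famc_bd I' γ _ f) (famc_bd I' γ _ f) ?_
    filter_upwards [φ.w] with l hl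
    congr 1
    ext z
    change f (G.col (some (I.w (φ.f l))) (G.p z)) = f (H l (0, G.p z))
    rw [b1, ha]
    dsimp only
    rw [if_pos hl]
  · rw [he, fam_apply, fam_apply]
    congr 1
    funext l
    congr 1
    ext z
    change f (G.col (some (I'.w l)) (G.p z)) = f (H l (1, G.p z))
    rw [b2]

end Geo

end H7c
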