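import Pool.Agent.H.MP_7b4a29_c.GeoA
import Pool.Agent.H.MP_7b4a29_c.Fz

/-!
# Homotopies on the circle
-/

open Filter Topology MeasureTheory

namespace H7c

/-- The shift by one half. -/
noncomputable def hsh (x : UnitAddCircle) : UnitAddCircle := x + ((1 / 2 : ℝ) : UnitAddCircle)

theorem hsh_continuous : Continuous hsh := by
  change Continuous (fun x : UnitAddCircle => x + ((1 / 2 : ℝ) : UnitAddCircle))
  exact continuous_id.add continuous_const

theorem geon_half : ((1 / 2 : ℝ) : UnitAddCircle) + ((1 / 2 : ℝ) : UnitAddCircle) = 0 := by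
  rw [← AddCircle.coe_add]
  have h : (1 / 2 : ℝ) + 1 / 2 = 1 := by norm_num
  rw [h]
  exact AddCircle.coe_period (1 : ℝ)

theorem hsh_hsh (x : UnitAddCircle) : hsh (hsh x) = x := by
  unfold hsh
  rw [add_assoc, geon_half, add_zero]

theorem geon_ic (t : unitInterval) : ic t = ((t : ℝ) : UnitAddCircle) := rfl

theorem geon_ic_zero : ic 0 = 0 := rfl

theorem geon_ic_one : ic 1 = 0 := AddCircle.coe_period (1 : ℝ)

theorem geon_hsh_le (t s : unitInterval) (h : (s : ℝ) = t + 1 / 2) : hsh (ic t) = ic s := by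
  rw [geon_ic, geon_ic, h, AddCircle.coe_add]
  rfl

theorem geon_hsh_ge (t s : unitInterval) (h : (s : ℝ) = t - 1 / 2) : hsh (ic t) = ic s := by
  have h1 : (t : ℝ) = s + 1 / 2 := by linarith
  rw [geon_ic, geon_ic, h1, hsh, AddCircle.coe_add, add_assoc, geon_half, add_zero]

/-- `ic t` is sent to `ic (t + 1/2)` or `ic (t - 1/2)`. -/
theorem hsh_ic (t : unitInterval) : (∃ s : unitInterval, (s : ℝ) = t + 1 / 2 ∧ hsh (ic t) = ic s) ∨
    ∃ s : unitInterval, (s : ℝ) = t - 1 / 2 ∧ hsh (ic t) = ic s := by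
  have h0 := t.2.1
  have h1 := t.2.2
  rcases le_or_gt (t : ℝ) (1 / 2) with ht | ht
  · left
    exact ⟨⟨(t : ℝ) + 1 / 2, ⟨by linarith, by linarith⟩⟩, rfl, geon_hsh_le _ _ rfl⟩
  · right
    exact ⟨⟨(t : ℝ) - 1 / 2, ⟨by linarith, by linarith⟩⟩, rfl, geon_hsh_ge _ _ rfl⟩

/-- Integration over the interval and over the circle. -/
theorem integral_ic (f : C(UnitAddCircle, ℂ)) :
    ∫ t : unitInterval, f (ic t) = ∫ x : UnitAddCircle, f x := by
  have h1 : ∫ t : unitInterval, f (ic t) = ∫ t in Set.Icc (0 : ℝ) 1, f (t : UnitAddCircle) :=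
    integral_subtype measurableSet_Icc (fun t : ℝ => f (t : UnitAddCircle))
  rw [h1, integral_Icc_eq_integral_Ioc, ← UnitAddCircle.integral_preimage 0 f, zero_add]

theorem integral_hsh (f : C(UnitAddCircle, ℂ)) :
    ∫ x : UnitAddCircle, f (hsh x) = ∫ x : UnitAddCircle, f x :=
  integral_add_right_eq_self (μ := (volume : Measure UnitAddCircle)) (fun x => f x)
    ((1 / 2 : ℝ) : UnitAddCircle)

/-- The collapse maps of the circle: `ic t ↦ ic (phx o t)`; they descend because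
`phx o 0 = 0`, `phx o 1 = 1`. -/
theorem exists_ccol (o : Option ℕ) : ∃ c : C(UnitAddCircle, UnitAddCircle),
    ∀ t, c (ic t) = ic (phx o t) := by
  obtain ⟨f, hf⟩ : ∃ f : ℝ → UnitAddCircle,
      f = fun x => ic (phx o (Set.projIcc 0 1 zero_le_one x)) := ⟨_, rfl⟩
  have hfc : Continuous f := by
    rw [hf]
    exact ic.continuous.comp ((phx o).continuous.comp continuous_projIcc)
  have hft : ∀ t : unitInterval, f (t : ℝ) = ic (phx o t) := by
    intro t
    rw [hf]
    simp only [Set.projIcc_val]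
  have hf0 : f 0 = 0 := by
    refine (hft 0).trans ?_
    rw [(phx_ends o).1, geon_ic_zero]
  have hf1 : f 1 = 0 := by
    refine (hft 1).trans ?_
    rw [(phx_ends o).2, geon_ic_one]
  have hcont : Continuous (AddCircle.liftIco (1 : ℝ) 0 f) :=
    AddCircle.liftIco_continuous (by rw [zero_add, hf0, hf1]) hfc.continuousOn
  refine ⟨⟨AddCircle.liftIco (1 : ℝ) 0 f, hcont⟩, fun t => ?_⟩
  change AddCircle.liftIco (1 : ℝ) 0 f ((t : ℝ) : AddCircle (1 : ℝ)) = ic (phx o t)
  by_cases ht : (t : ℝ) < 1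
  · rw [AddCircle.liftIco_coe_apply (by rw [zero_add]; exact ⟨t.2.1, ht⟩)]
    exact hft t
  · have ht1 : (t : ℝ) = 1 := le_antisymm t.2.2 (not_lt.1 ht)
    have ht2 : t = 1 := Subtype.ext ht1
    have h3 : ((t : ℝ) : AddCircle (1 : ℝ)) = ((0 : ℝ) : AddCircle (1 : ℝ)) := by
      rw [ht1, AddCircle.coe_period, QuotientAddGroup.mk_zero]
    rw [h3, AddCircle.liftIco_coe_apply (by rw [zero_add]; exact ⟨le_rfl, zero_lt_one⟩), hf0, ht2,
      (phx_ends o).2, geon_ic_one]

noncomputable def ccol (o : Option ℕ) : C(UnitAddCircle, UnitAddCircle) := (exists_ccol o).choose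

theorem ccol_ic (o : Option ℕ) (t : unitInterval) : ccol o (ic t) = ic (phx o t) :=
  (exists_ccol o).choose_spec t

/-- The cut off to `[0, 1]`. -/
noncomputable def clp (x : ℝ) : unitInterval := Set.projIcc (0 : ℝ) 1 zero_le_one x

/-- The value of the homotopy. -/
noncomputable def nnv (n : ℕ) (s a : ℝ) : ℝ :=
  if a ≤ 1 / 2 then 2 ^ (n + 1) * a + 1 / 2 + s / 2 else 2 ^ (n + 1) * (a - 1) + 1 / 2 - s / 2

theorem geon_clp_zero (x : ℝ) (h : x ≤ 0) : clp x = 0 := Set.projIcc_of_le_left zero_le_one h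

theorem geon_clp_one (x : ℝ) (h : 1 ≤ x) : clp x = 1 := Set.projIcc_of_right_le zero_le_one h

theorem geon_pow (n : ℕ) : (2 : ℝ) ≤ 2 ^ (n + 1) := by
  have h1 : (1 : ℝ) ≤ 2 ^ n := one_le_pow₀ (by norm_num)
  rw [pow_succ]
  linarith

/-- The homotopy is continuous: at `a = 1/2` both formulas give the point `0` of the circle
(`Continuous.if_le`). -/
theorem nn_continuous (n : ℕ) : Continuous fun p : unitInterval × unitInterval =>
    ic (clp (nnv n p.1 p.2)) := by
  have e : (fun p : unitInterval × unitInterval => ic (clp (nnv n p.1 p.2))) = fun p =>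
      if (p.2 : ℝ) ≤ 1 / 2 then ic (clp (2 ^ (n + 1) * (p.2 : ℝ) + 1 / 2 + p.1 / 2))
        else ic (clp (2 ^ (n + 1) * ((p.2 : ℝ) - 1) + 1 / 2 - p.1 / 2)) := by
    funext p
    unfold nnv
    by_cases h : (p.2 : ℝ) ≤ 1 / 2
    · rw [if_pos h, if_pos h]
    · rw [if_neg h, if_neg h]
  rw [e]
  have hc : Continuous clp := continuous_projIcc (h := zero_le_one)
  refine Continuous.if_le ?_ ?_ (by fun_prop) continuous_const ?_
  · exact ic.continuous.comp (hc.comp (by fun_prop))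
  · exact ic.continuous.comp (hc.comp (by fun_prop))
  · intro p hp
    have h1 := geon_pow n
    have h2 := p.1.2.1
    rw [hp, geon_clp_one _ (by linarith), geon_clp_zero _ (by linarith), geon_ic_one, geon_ic_zero]

/-- The homotopy from `ccol (some n) ∘ hsh ∘ ic` to a constant map. -/
noncomputable def nn (n : ℕ) : C(unitInterval × unitInterval, UnitAddCircle) :=
  ⟨fun p => ic (clp (nnv n p.1 p.2)), nn_continuous n⟩

theorem nn_apply (n : ℕ) (s a : unitInterval) : nn n (s, a) = ic (clp (nnv n s a)) := rfl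

theorem nn_zero (n : ℕ) (a : unitInterval) : nn n (0, a) = ccol (some n) (hsh (ic a)) := by
  have h0 := a.2.1
  have h1 := a.2.2
  have hs : ((0 : unitInterval) : ℝ) = 0 := rfl
  rw [nn_apply]
  rcases le_or_gt (a : ℝ) (1 / 2) with ha | ha
  · rw [geon_hsh_le a ⟨(a : ℝ) + 1 / 2, ⟨by linarith, by linarith⟩⟩ rfl, ccol_ic]
    congr 1
    change clp _ = phl n _
    rw [geoa_phl_apply]
    unfold clp nnv
    rw [if_pos ha, hs]
    congr 1
    ring
  · rw [geon_hsh_ge a ⟨(a : ℝ) - 1 / 2, ⟨by linarith, by linarith⟩⟩ rfl, ccol_ic]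
    congr 1
    change clp _ = phl n _
    rw [geoa_phl_apply]
    unfold clp nnv
    rw [if_neg (not_le.2 ha), hs]
    congr 1
    ring

theorem nn_one (n : ℕ) (a : unitInterval) : nn n (1, a) = 0 := by
  have h0 := a.2.1
  have h1 := a.2.2
  have hs : ((1 : unitInterval) : ℝ) = 1 := rfl
  have h2 := geon_pow n
  rw [nn_apply]
  unfold nnv
  rw [hs]
  rcases le_or_gt (a : ℝ) (1 / 2) with ha | ha
  · have h3 : 0 ≤ (2 : ℝ) ^ (n + 1) * a := by positivity
    rw [if_pos ha, geon_clp_one _ (by linarith), geon_ic_one]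
  · have h3 : (2 : ℝ) ^ (n + 1) * (a - 1) ≤ 0 :=
      mul_nonpos_of_nonneg_of_nonpos (by linarith) (by linarith)
    rw [if_neg (not_le.2 ha), geon_clp_zero _ (by linarith), geon_ic_zero]

/-- Lipschitz in `s`. -/
theorem nn_lip (n : ℕ) (s s' a : unitInterval) :
    |((clp (nnv n s a) : unitInterval) : ℝ) - (clp (nnv n s' a) : unitInterval)| ≤
      |(s : ℝ) - s'| := by
  have h1 : |((clp (nnv n s a) : unitInterval) : ℝ) - (clp (nnv n s' a) : unitInterval)| ≤
      |nnv n s a - nnv n s' a| := by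
    unfold clp
    exact Set.abs_projIcc_sub_projIcc zero_le_one
  refine h1.trans ?_
  unfold nnv
  by_cases ha : (a : ℝ) ≤ 1 / 2
  · rw [if_pos ha, if_pos ha]
    have e : (2 : ℝ) ^ (n + 1) * a + 1 / 2 + s / 2 - (2 ^ (n + 1) * a + 1 / 2 + s' / 2) =
        ((s : ℝ) - s') / 2 := by ring
    rw [e, abs_div, abs_of_pos (zero_lt_two : (0 : ℝ) < 2)]
    have := abs_nonneg ((s : ℝ) - s')
    linarith
  · rw [if_neg ha, if_neg ha]
    have e : (2 : ℝ) ^ (n + 1) * (a - 1) + 1 / 2 - s / 2 -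
        (2 ^ (n + 1) * (a - 1) + 1 / 2 - s' / 2) = -(((s : ℝ) - s') / 2) := by ring
    rw [e, abs_neg, abs_div, abs_of_pos (zero_lt_two : (0 : ℝ) < 2)]
    have := abs_nonneg ((s : ℝ) - s')
    linarith

/-- Unitary functions which are `-1` near `0` and `1`:
`exp (i π χ)` with `χ a = min 1 (max 0 (2 - 2^(n+2) * min a (1 - a)))`. -/
noncomputable def onn (n : ℕ) : C(unitInterval, ℂ) :=
  ⟨fun a => Complex.exp (Complex.I * Real.pi *
    (min 1 (max 0 (2 - 2 ^ (n + 2) * min (a : ℝ) (1 - a))) : ℝ)), by fun_prop⟩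

/-- The exponent. -/
noncomputable def geon_th (n : ℕ) (a : ℝ) : ℝ := min 1 (max 0 (2 - 2 ^ (n + 2) * min a (1 - a)))

theorem geon_onn (n : ℕ) (a : unitInterval) :
    onn n a = Complex.exp (Complex.I * Real.pi * (geon_th n a : ℝ)) := rfl

theorem geon_norm (n : ℕ) (a : unitInterval) : ‖onn n a‖ = 1 := by
  rw [geon_onn]
  have e : Complex.I * Real.pi * (geon_th n a : ℝ) =
      ((Real.pi * geon_th n a : ℝ) : ℂ) * Complex.I := by
    push_cast
    ring
  rw [e, Complex.norm_exp_ofReal_mul_I]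

theorem onn_un (n : ℕ) (a : unitInterval) : star (onn n a) * onn n a = 1 := by
  rw [mul_comm, Complex.star_def, Complex.mul_conj, Complex.normSq_eq_norm_sq, geon_norm]
  norm_num

theorem onn_neg (n : ℕ) (s a : unitInterval) (h : nn n (s, a) ≠ 0) : onn n a = -1 := by
  have s0 := s.2.1
  have s1 := s.2.2
  have hp : (2 : ℝ) ^ (n + 2) = 2 * 2 ^ (n + 1) := by
    rw [pow_succ (2 : ℝ) (n + 1)]
    ring
  rw [nn_apply] at h
  have h0 : 0 < nnv n s a := by
    by_contra hc
    rw [geon_clp_zero _ (not_lt.1 hc)] at h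
    exact h geon_ic_zero
  have h1 : nnv n s a < 1 := by
    by_contra hc
    rw [geon_clp_one _ (not_lt.1 hc)] at h
    exact h geon_ic_one
  have h2 : (2 : ℝ) ^ (n + 2) * min (a : ℝ) (1 - a) ≤ 1 := by
    unfold nnv at h0 h1
    by_cases ha : (a : ℝ) ≤ 1 / 2
    · rw [if_pos ha] at h0 h1
      have h3 : (2 : ℝ) ^ (n + 2) * min (a : ℝ) (1 - a) ≤ 2 ^ (n + 2) * a :=
        mul_le_mul_of_nonneg_left (min_le_left _ _) (by positivity)
      rw [hp] at h3 ⊢
      linarith
    · rw [if_neg ha] at h0 h1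
      have h3 : (2 : ℝ) ^ (n + 2) * min (a : ℝ) (1 - a) ≤ 2 ^ (n + 2) * (1 - a) :=
        mul_le_mul_of_nonneg_left (min_le_right _ _) (by positivity)
      rw [hp] at h3 ⊢
      linarith
  have h3 : geon_th n a = 1 := by
    unfold geon_th
    refine min_eq_left (le_trans ?_ (le_max_right _ _))
    linarith
  rw [geon_onn, h3, Complex.ofReal_one, mul_one, mul_comm]
  exact Complex.exp_pi_mul_I

theorem onn_one (n : ℕ) (a : unitInterval) (h : (1 / 2) ^ (n + 1) ≤ min (a : ℝ) (1 - a)) :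
    onn n a = 1 := by
  have h2 : (2 : ℝ) ^ (n + 2) * (1 / 2) ^ (n + 1) = 2 := by
    rw [pow_succ (2 : ℝ) (n + 1), mul_right_comm, ← mul_pow]
    norm_num
  have h3 : (2 : ℝ) ^ (n + 2) * (1 / 2) ^ (n + 1) ≤ 2 ^ (n + 2) * min (a : ℝ) (1 - a) :=
    mul_le_mul_of_nonneg_left h (by positivity)
  have h4 : geon_th n a = 0 := by
    unfold geon_th
    rw [max_eq_left (by linarith)]
    exact min_eq_right zero_le_one
  rw [geon_onn, h4, Complex.ofReal_zero, mul_zero, Complex.exp_zero]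

theorem onn_int (n : ℕ) : ∫ a : unitInterval, ‖onn n a - 1‖ ^ 2 ≤ 8 * (1 / 2) ^ n := by
  obtain ⟨S, hS⟩ : ∃ S : Set ℝ,
      S = Set.Icc 0 ((1 / 2) ^ (n + 1)) ∪ Set.Icc (1 - (1 / 2) ^ (n + 1)) 1 := ⟨_, rfl⟩
  have hSm : MeasurableSet S := by
    rw [hS]
    exact measurableSet_Icc.union measurableSet_Icc
  have hp : (0 : ℝ) < (1 / 2) ^ (n + 1) := by positivity
  have h1 : ∀ a : unitInterval, ‖onn n a - 1‖ ^ 2 ≤ S.indicator (fun _ => (4 : ℝ)) (a : ℝ) := by
    intro a
    by_cases ha : (a : ℝ) ∈ S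
    · rw [Set.indicator_of_mem ha]
      have h2 : ‖onn n a - 1‖ ≤ 2 := by
        refine (norm_sub_le _ _).trans ?_
        rw [geon_norm, norm_one]
        norm_num
      calc ‖onn n a - 1‖ ^ 2 ≤ 2 ^ 2 := pow_le_pow_left₀ (norm_nonneg _) h2 2
        _ = 4 := by norm_num
    · rw [Set.indicator_of_notMem ha, onn_one n a, sub_self, norm_zero]
      · norm_num
      · rw [hS] at ha
        refine le_min ?_ ?_
        · by_contra hc
          exact ha (Or.inl ⟨a.2.1, (not_le.1 hc).le⟩)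
        · by_contra hc
          refine ha (Or.inr ⟨?_, a.2.2⟩)
          have := not_le.1 hc
          linarith
  have hI : Integrable (fun a : unitInterval => S.indicator (fun _ => (4 : ℝ)) (a : ℝ)) := by
    have h2 : (fun a : unitInterval => S.indicator (fun _ => (4 : ℝ)) (a : ℝ)) =
        ((fun a : unitInterval => (a : ℝ)) ⁻¹' S).indicator (fun _ => (4 : ℝ)) := by
      funext a
      rfl
    rw [h2]
    exact (integrable_const (4 : ℝ)).indicator (measurable_subtype_coe hSm)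
  have h2 : ∫ a : unitInterval, ‖onn n a - 1‖ ^ 2 ≤
      ∫ a : unitInterval, S.indicator (fun _ => (4 : ℝ)) (a : ℝ) :=
    integral_mono_of_nonneg (Eventually.of_forall fun a => by positivity) hI
      (Eventually.of_forall h1)
  have h3 : ∫ a : unitInterval, S.indicator (fun _ => (4 : ℝ)) (a : ℝ) =
      ∫ t in Set.Icc (0 : ℝ) 1, S.indicator (fun _ => (4 : ℝ)) t :=
    integral_subtype measurableSet_Icc (fun t : ℝ => S.indicator (fun _ => (4 : ℝ)) t)
  have h4 : ∫ t in Set.Icc (0 : ℝ) 1, S.indicator (fun _ => (4 : ℝ)) t =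
      (volume.restrict (Set.Icc (0 : ℝ) 1)).real S • (4 : ℝ) := integral_indicator_const _ hSm
  have hfin : volume S ≠ ⊤ := by
    rw [hS]
    exact ((measure_union_le _ _).trans_lt (ENNReal.add_lt_top.2
      ⟨measure_Icc_lt_top, measure_Icc_lt_top⟩)).ne
  have h5 : (volume.restrict (Set.Icc (0 : ℝ) 1)).real S ≤ volume.real S :=
    ENNReal.toReal_mono hfin (Measure.restrict_apply_le _ _)
  have h6 : volume.real S ≤ 2 * (1 / 2) ^ (n + 1) := by
    rw [hS]
    refine (measureReal_union_le _ _).trans ?_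
    rw [Real.volume_real_Icc_of_le hp.le, Real.volume_real_Icc_of_le (by linarith)]
    linarith
  rw [h3, h4, smul_eq_mul] at h2
  refine h2.trans ?_
  rw [pow_succ] at h6
  have h7 : (0 : ℝ) < (1 / 2) ^ n := by positivity
  linarith

end H7c
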