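import Pool.Agent.H.MP_7b4a29_c.GeoB
import Pool.Agent.H.MP_7b4a29_c.GeoN

/-!
# The geometric data of the circle
-/

open Filter Topology MeasureTheory

namespace H7c

/-- The circle as a quotient of the one-dimensional cube. -/
noncomputable def q1 : C(Cube 1, UnitAddCircle) := ic.comp ⟨fun v => v 0, by fun_prop⟩

theorem geot_q1 (v : Cube 1) : q1 v = ic (v 0) := rfl

/-- Points of the interval with the same image on the circle. -/
theorem geot_ic (s t : unitInterval) (h : ic s = ic t) (h0 : s ≠ 0) (h1 : s ≠ 1) : s = t := by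
  have h2 : (((s : ℝ) - (t : ℝ) : ℝ) : UnitAddCircle) = 0 := by
    rw [AddCircle.coe_sub]
    exact sub_eq_zero.2 h
  obtain ⟨n, hn⟩ := (AddCircle.coe_eq_zero_iff (1 : ℝ)).1 h2
  rw [zsmul_eq_mul, mul_one] at hn
  have s0 : (0 : ℝ) < s := lt_of_le_of_ne s.2.1 fun h3 => h0 (Subtype.ext h3.symm)
  have s1 : (s : ℝ) < 1 := lt_of_le_of_ne s.2.2 fun h3 => h1 (Subtype.ext h3)
  have t0 := t.2.1
  have t1 := t.2.2
  have h3 : (n : ℝ) < 1 := by rw [hn]; linarith
  have h4 : (-1 : ℝ) < n := by rw [hn]; linarith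
  have h5 : n < 1 := by exact_mod_cast h3
  have h6 : -1 < n := by exact_mod_cast h4
  have h7 : n = 0 := by omega
  rw [h7, Int.cast_zero] at hn
  exact Subtype.ext (sub_eq_zero.1 hn.symm)

theorem geot_ic0 (s : unitInterval) : ic s = 0 ↔ (s = 0 ∨ s = 1) := by
  have e0 : ic 0 = 0 := by
    show (((0 : unitInterval) : ℝ) : UnitAddCircle) = 0
    rw [Set.Icc.coe_zero, QuotientAddGroup.mk_zero]
  have e1 : ic 1 = 0 := by
    show (((1 : unitInterval) : ℝ) : UnitAddCircle) = 0
    rw [Set.Icc.coe_one]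
    exact AddCircle.coe_period (1 : ℝ)
  constructor
  · intro h
    by_contra h1
    push Not at h1
    exact h1.1 (geot_ic s 0 (h.trans e0.symm) h1.1 h1.2)
  · rintro (h | h)
    · rw [h, e0]
    · rw [h, e1]

theorem geot_bd (v : Cube 1) : v ∈ bd 1 ↔ (v 0 = 0 ∨ v 0 = 1) := by
  constructor
  · rintro ⟨i, hi⟩
    rw [Subsingleton.elim i 0] at hi
    exact hi
  · exact fun h => ⟨0, h⟩

theorem isQ_q1 : IsQ (bd 1) (0 : UnitAddCircle) q1 := by
  refine ⟨fun x => ?_, fun v => ?_, fun v v' h1 h2 => ?_⟩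
  · obtain ⟨t, ht⟩ := ic_surj x
    exact ⟨fun _ => t, ht⟩
  · rw [geot_q1, geot_ic0, geot_bd]
  · rw [geot_bd] at h2
    push Not at h2
    rw [geot_q1, geot_q1] at h1
    funext i
    rw [Subsingleton.elim i 0]
    exact geot_ic _ _ h1 h2.1 h2.2

/-- The collapse maps of the circle. -/
theorem col_ccol {col : Option ℕ → C(UnitAddCircle, UnitAddCircle)} {om : ℕ → C(UnitAddCircle, ℂ)}
    (h : ColD (0 : UnitAddCircle) q1 col om) (o : Option ℕ) (x : UnitAddCircle) :
    col o x = ccol o x := by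
  obtain ⟨t, rfl⟩ := ic_surj x
  rw [ccol_ic]
  exact h.cq o (fun _ => t)

/-- Real functions: integration over the interval and over the circle. -/
theorem geot_integral (g : C(UnitAddCircle, ℝ)) :
    ∫ x : UnitAddCircle, g x = ∫ t : unitInterval, g (ic t) := by
  have h1 := integral_ic ⟨fun x => ((g x : ℝ) : ℂ), Complex.continuous_ofReal.comp g.continuous⟩
  have h2 : ∫ t : unitInterval, ((g (ic t) : ℝ) : ℂ) = ∫ x : UnitAddCircle, ((g x : ℝ) : ℂ) := h1
  rw [integral_complex_ofReal, integral_complex_ofReal] at h2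
  exact (Complex.ofReal_injective h2).symm

/-- The measure of a neighbourhood of the midpoint. -/
theorem geot_vol (a : ℝ) (ha : 0 ≤ a) :
    (volume : Measure unitInterval).real {t : unitInterval | |(t : ℝ) - 1 / 2| < a} ≤ 2 * a := by
  have h1 : volume {t : unitInterval | |(t : ℝ) - 1 / 2| < a} ≤ ENNReal.ofReal (2 * a) := by
    rw [unitInterval.volume_apply]
    refine (measure_mono (t := Set.Ioo (1 / 2 - a) (1 / 2 + a)) ?_).trans ?_
    · rintro x ⟨t, ht, rfl⟩
      have ht' : |(t : ℝ) - 1 / 2| < a := ht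
      rw [abs_lt] at ht'
      exact ⟨by linarith [ht'.1], by linarith [ht'.2]⟩
    · rw [Real.volume_Ioo]
      exact le_of_eq (by congr 1; ring)
  exact ENNReal.toReal_le_of_le_ofReal (by positivity) h1

/-- The set where `om n` is not `1` is small: `om n (ic t) = 1` unless `|t - 1/2| < (1/2)^(n+1)`, and
`‖om n x - 1‖² ≤ 4` (`integral_ic`). -/
theorem om_small {col : Option ℕ → C(UnitAddCircle, UnitAddCircle)}
    {om : ℕ → C(UnitAddCircle, ℂ)} (h : ColD (0 : UnitAddCircle) q1 col om) (n : ℕ) :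
    ∫ x : UnitAddCircle, ‖om n x - 1‖ ^ 2 ≤ 8 * (1 / 2) ^ n := by
  have h0 := geot_integral ⟨fun x => ‖om n x - 1‖ ^ 2,
    (((om n).continuous.sub continuous_const).norm).pow 2⟩
  have h1 : ∫ x : UnitAddCircle, ‖om n x - 1‖ ^ 2 =
      ∫ t : unitInterval, ‖om n (ic t) - 1‖ ^ 2 := h0
  have h2 : ∀ t : unitInterval, t ∉ {t : unitInterval | |(t : ℝ) - 1 / 2| < (1 / 2) ^ (n + 1)} →
      ‖om n (ic t) - 1‖ ^ 2 = 0 := by
    intro t ht
    have ht' : ¬ |(t : ℝ) - 1 / 2| < (1 / 2) ^ (n + 1) := ht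
    push Not at ht'
    have h3 : om n (ic t) = 1 := h.om2 n (fun _ => t) ⟨0, ht'⟩
    rw [h3, sub_self, norm_zero, zero_pow two_ne_zero]
  have h3 : ∀ x, ‖om n x‖ = 1 := by
    intro x
    have h4 := congrArg norm (h.ou n x)
    rw [norm_mul, norm_star, norm_one, ← sq] at h4
    exact (pow_eq_one_iff_of_nonneg (norm_nonneg _) two_ne_zero).1 h4
  have h5 : ∀ t : unitInterval, ‖‖om n (ic t) - 1‖ ^ 2‖ ≤ 4 := by
    intro t
    have h6 : ‖om n (ic t) - 1‖ ≤ 2 := by
      refine (norm_sub_le _ _).trans ?_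
      rw [h3, norm_one]
      norm_num
    rw [Real.norm_of_nonneg (by positivity)]
    nlinarith [norm_nonneg (om n (ic t) - 1)]
  rw [h1, ← setIntegral_eq_integral_of_forall_compl_eq_zero h2]
  have h6 := norm_setIntegral_le_of_norm_le_const (μ := (volume : Measure unitInterval))
    (s := {t : unitInterval | |(t : ℝ) - 1 / 2| < (1 / 2) ^ (n + 1)})
    (f := fun t : unitInterval => ‖om n (ic t) - 1‖ ^ 2) (C := 4)
    (measure_lt_top _ _) (fun t _ => h5 t)
  refine (le_abs_self _).trans (h6.trans ?_)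
  have h7 := geot_vol ((1 / 2) ^ (n + 1)) (by positivity)
  have h8 : (0 : ℝ) < (1 / 2) ^ n := by positivity
  rw [pow_succ] at h7 ⊢
  linarith

/-- `nn` is equicontinuous in the parameter: `nn_lip`, and `f ∘ ic` is uniformly continuous. -/
theorem eqs_nn : Eqs nn := by
  intro f ε hε
  have hc : UniformContinuous (f.comp ic) :=
    CompactSpace.uniformContinuous_of_continuous (f.comp ic).continuous
  obtain ⟨δ, hδ, h1⟩ := Metric.uniformContinuous_iff.1 hc ε hε
  refine ⟨δ / 2, half_pos hδ, fun s s' hs l a => ?_⟩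
  rw [nn_apply, nn_apply]
  have h2 : dist (clp (nnv l s a)) (clp (nnv l s' a)) < δ := by
    rw [Subtype.dist_eq, Real.dist_eq]
    exact lt_of_le_of_lt ((nn_lip l s s' a).trans hs) (half_lt_self hδ)
  have h3 := (h1 h2).le
  rw [dist_eq_norm] at h3
  exact h3

/-- Points of the circle near `0`. -/
theorem geot_near (s : unitInterval) (h : ‖ic s‖ < 1 / 4) :
    (s : ℝ) < 1 / 4 ∨ 3 / 4 < (s : ℝ) := by
  have h1 : ‖((s : ℝ) : UnitAddCircle)‖ < 1 / 4 := h
  rw [UnitAddCircle.norm_eq, abs_lt] at h1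
  have s0 := s.2.1
  have s1 := s.2.2
  rcases le_or_gt (round (s : ℝ)) 0 with h2 | h2
  · left
    have h3 : ((round (s : ℝ) : ℤ) : ℝ) ≤ 0 := by exact_mod_cast h2
    linarith [h1.2]
  · right
    have h3 : (1 : ℝ) ≤ ((round (s : ℝ) : ℤ) : ℝ) := by exact_mod_cast h2
    linarith [h1.1]

/-- If `hsh (ic t)` is near `0` then `t` is in the middle. -/
theorem geot_mid (t : unitInterval) (h : ‖hsh (ic t)‖ < 1 / 4) :
    1 / 4 ≤ min (t : ℝ) (1 - t) := by
  have t0 := t.2.1
  have t1 := t.2.2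
  rcases hsh_ic t with ⟨s, hs, h1⟩ | ⟨s, hs, h1⟩
  · have s1 := s.2.2
    rw [h1] at h
    refine le_min ?_ ?_
    · rcases geot_near s h with h2 | h2 <;> linarith
    · rcases geot_near s h with h2 | h2 <;> linarith
  · have s0 := s.2.1
    have s1 := s.2.2
    rw [h1] at h
    refine le_min ?_ ?_
    · rcases geot_near s h with h2 | h2 <;> linarith
    · rcases geot_near s h with h2 | h2 <;> linarith

/-- The data of the circle: `k = 1`, `q = q1`, `col`, `om` from `exists_ColD`, `p = K = id`,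
`Q t = hsh (ic t)`, `N = nn`, `on = onn`; `kp`, `pk` are the constant homotopies; `Qm` by `integral_ic`,
`integral_hsh`; `nz`: `χ x = max 0 (1 - 4 ‖x‖)`, `n₀ = 1`; if `χ (hsh (ic t)) ≠ 0` then
`|t - 1/2| < 1/4`, hence `min t (1 - t) ≥ 1/4 ≥ (1/2)^(n+1)`. -/
theorem geoT : Nonempty (Geo UnitAddCircle (volume : Measure UnitAddCircle) (0 : UnitAddCircle)
    UnitAddCircle (0 : UnitAddCircle)) := by
  obtain ⟨col, om, h⟩ := exists_ColD (Nat.zero_lt_one) isQ_q1
  refine ⟨{
    k := 1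
    q := q1
    col := col
    om := om
    cd := h
    p := ContinuousMap.id _
    K := ContinuousMap.id _
    Q := ⟨fun t => hsh (ic t), hsh_continuous.comp ic.continuous⟩
    N := nn
    on := onn
    pz := rfl
    Kz := rfl
    sm := ⟨8, fun n => om_small h n⟩
    kp := ⟨⟨fun q => q.2, continuous_snd⟩, fun _ => rfl, fun _ => rfl, fun _ => rfl⟩
    pk := ⟨⟨fun q => q.2, continuous_snd⟩, fun _ => rfl, fun _ => rfl, fun _ => rfl⟩
    Qm := fun f => ?_
    N0 := fun n t => ?_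
    N1 := nn_one
    Ne := eqs_nn
    nu := onn_un
    ns := onn_neg
    nm := ⟨8, onn_int⟩
    nz := ?_ }⟩
  · have h1 : ∫ t : unitInterval, f (hsh (ic t)) = ∫ x : UnitAddCircle, f (hsh x) :=
      integral_ic (f.comp ⟨hsh, hsh_continuous⟩)
    exact h1.trans (integral_hsh f)
  · rw [nn_zero, ← col_ccol h]
    rfl
  · refine ⟨⟨fun x => ((max 0 (1 - 4 * ‖x‖) : ℝ) : ℂ), Complex.continuous_ofReal.comp
      (continuous_const.max (continuous_const.sub (continuous_const.mul continuous_norm)))⟩,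
      ?_, 1, fun n hn t ht => ?_⟩
    · change ((max 0 (1 - 4 * ‖(0 : UnitAddCircle)‖) : ℝ) : ℂ) = 1
      rw [norm_zero, mul_zero, sub_zero, max_eq_right zero_le_one, Complex.ofReal_one]
    · have ht' : ((max 0 (1 - 4 * ‖hsh (ic t)‖) : ℝ) : ℂ) ≠ 0 := ht
      have h1 : ‖hsh (ic t)‖ < 1 / 4 := by
        by_contra h2
        rw [not_lt] at h2
        refine ht' ?_
        rw [max_eq_left (by linarith), Complex.ofReal_zero]
      refine onn_one n t (le_trans ?_ (geot_mid t h1))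
      have h2 : ((1 / 2 : ℝ)) ^ (n + 1) ≤ (1 / 2) ^ 2 :=
        pow_le_pow_of_le_one (by norm_num) (by norm_num) (by omega)
      refine h2.trans (le_of_eq ?_)
      norm_num

end H7c
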