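import Pool.Agent.H.MP_7b4a29_c.CmpB

/-!
# Quotients by a closed subset; based homomorphisms defined upstairs
-/

open Filter Topology

namespace H7c

/-- `q` is the quotient map which collapses `B` to the point `y0`. -/
structure IsQ {X Y : Type} [TopologicalSpace X] [TopologicalSpace Y] (B : Set X) (y0 : Y)
    (q : C(X, Y)) : Prop where
  surj : Function.Surjective q
  base : ∀ x, q x = y0 ↔ x ∈ B
  inj : ∀ x x', q x = q x' → x ∉ B → x = x'

variable {X Y : Type} [TopologicalSpace X] [CompactSpace X] [TopologicalSpace Y] [T2Space Y]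
  {B : Set X} {y0 : Y} {q : C(X, Y)}

/-- Functions which are constant on `B` descend: `q` is a closed map, hence a quotient map. -/
theorem IsQ.exists_lift (hq : IsQ B y0 q) {E : Type} [TopologicalSpace E] (f : C(X, E)) (e0 : E)
    (hf : ∀ x ∈ B, f x = e0) : ∃ f' : C(Y, E), ∀ x, f' (q x) = f x := by
  have hQ : IsQuotientMap (q : X → Y) :=
    (q.continuous.isClosedMap).isQuotientMap q.continuous hq.surj
  have hF : Function.FactorsThrough f q := by
    intro x x' h
    by_cases hx : x ∈ B
    · have h1 : q x' = y0 := by rw [← h]; exact (hq.base x).2 hx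
      rw [hf x hx, hf x' ((hq.base x').1 h1)]
    · rw [hq.inj x x' h hx]
  refine ⟨hQ.lift f hF, fun x => ?_⟩
  exact DFunLike.congr_fun (hQ.lift_comp f hF) x

/-- The quotient exists: the one-point compactification of the complement of `B`
(`OnePoint {x // x ∉ B}`, which is compact and Hausdorff), or the quotient by a setoid. -/
theorem exists_quot (X : Type) [TopologicalSpace X] [CompactSpace X] [T2Space X] (B : Set X)
    (hB : IsClosed B) (hne : B.Nonempty) :
    ∃ (Y : Type) (_ : TopologicalSpace Y) (_ : CompactSpace Y) (_ : T2Space Y) (y0 : Y)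
      (q : C(X, Y)), IsQ B y0 q := by
  classical
  have hlc : LocallyCompactSpace {x : X // x ∉ B} :=
    IsOpen.locallyCompactSpace (s := Bᶜ) hB.isOpen_compl
  obtain ⟨g, hg⟩ : ∃ g : X → OnePoint {x : X // x ∉ B}, ∀ x, g x =
      if h : x ∉ B then ((⟨x, h⟩ : {x : X // x ∉ B}) : OnePoint {x : X // x ∉ B})
      else OnePoint.infty := ⟨_, fun _ => rfl⟩
  have g1 : ∀ x (h : x ∉ B), g x = ((⟨x, h⟩ : {x : X // x ∉ B}) : OnePoint {x : X // x ∉ B}) := by
    intro x h
    rw [hg, dif_pos h]
  have g2 : ∀ x, x ∈ B → g x = OnePoint.infty := by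
    intro x h
    rw [hg, dif_neg (not_not.2 h)]
  have hval : IsOpenEmbedding (Subtype.val : {x : X // x ∉ B} → X) :=
    IsOpen.isOpenEmbedding_subtypeVal (s := Bᶜ) hB.isOpen_compl
  have hc : Continuous g := by
    refine ⟨fun U hU => ?_⟩
    by_cases hi : OnePoint.infty ∈ U
    · rw [OnePoint.isOpen_iff_of_mem' hi] at hU
      have h1 : (g ⁻¹' U)ᶜ = Subtype.val ''
          (((fun x : {x : X // x ∉ B} => (x : OnePoint {x : X // x ∉ B})) ⁻¹' U)ᶜ) := by
        ext x
        simp only [Set.mem_compl_iff, Set.mem_preimage, Set.mem_image]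
        constructor
        · intro h2
          have h3 : x ∉ B := by
            intro h4
            apply h2
            rw [g2 x h4]
            exact hi
          refine ⟨⟨x, h3⟩, ?_, rfl⟩
          rw [g1 x h3] at h2
          exact h2
        · rintro ⟨y, h2, rfl⟩
          rw [g1 y.1 y.2]
          exact h2
      rw [← isClosed_compl_iff, h1]
      exact (hU.1.image continuous_subtype_val).isClosed
    · rw [OnePoint.isOpen_iff_of_notMem hi] at hU
      have h1 : g ⁻¹' U = Subtype.val ''
          ((fun x : {x : X // x ∉ B} => (x : OnePoint {x : X // x ∉ B})) ⁻¹' U) := by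
        ext x
        simp only [Set.mem_preimage, Set.mem_image]
        constructor
        · intro h2
          have h3 : x ∉ B := by
            intro h4
            apply hi
            rw [← g2 x h4]
            exact h2
          refine ⟨⟨x, h3⟩, ?_, rfl⟩
          rw [g1 x h3] at h2
          exact h2
        · rintro ⟨y, h2, rfl⟩
          rw [g1 y.1 y.2]
          exact h2
      rw [h1]
      exact hval.isOpenMap _ hU
  refine ⟨OnePoint {x : X // x ∉ B}, inferInstance, inferInstance, inferInstance,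
    OnePoint.infty, ⟨g, hc⟩, ⟨?_, ?_, ?_⟩⟩
  · intro y
    induction y using OnePoint.rec with
    | infty =>
      obtain ⟨x, hx⟩ := hne
      exact ⟨x, g2 x hx⟩
    | coe y => exact ⟨y.1, g1 y.1 y.2⟩
  · intro x
    change g x = OnePoint.infty ↔ x ∈ B
    constructor
    · intro h
      by_contra h1
      rw [g1 x h1] at h
      exact OnePoint.coe_ne_infty _ h
    · exact g2 x
  · intro x x' h hx
    change g x = g x' at h
    by_cases hx' : x' ∈ B
    · rw [g1 x hx, g2 x' hx'] at h
      exact absurd h (OnePoint.coe_ne_infty _)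
    · rw [g1 x hx, g1 x' hx'] at h
      exact congrArg Subtype.val (OnePoint.coe_injective h)

omit [CompactSpace X] [T2Space Y] in
/-- Change of `X` by a homeomorphism. -/
theorem IsQ.homeo (hq : IsQ B y0 q) {X' : Type} [TopologicalSpace X'] (e : X' ≃ₜ X)
    {B' : Set X'} (hB' : ∀ x, x ∈ B' ↔ e x ∈ B) :
    IsQ B' y0 (q.comp ⟨e, e.continuous⟩) := by
  refine ⟨?_, ?_, ?_⟩
  · intro y
    obtain ⟨x, hx⟩ := hq.surj y
    refine ⟨e.symm x, ?_⟩
    change q (e (e.symm x)) = y
    rw [Homeomorph.apply_symm_apply, hx]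
  · intro x
    change q (e x) = y0 ↔ x ∈ B'
    rw [hB', hq.base]
  · intro x x' h hx
    have h1 : e x ∉ B := fun h2 => hx ((hB' x).2 h2)
    exact e.injective (hq.inj (e x) (e x') h h1)

variable [CompactSpace Y] {I : Ix} {N : Sz I}
  {Y' : Type} [TopologicalSpace Y'] [CompactSpace Y'] [T2Space Y'] {y0' : Y'}

/-- Based homomorphisms defined upstairs (`IsQ.exists_lift`; uniqueness of the lift by surjectivity
gives the homomorphism property). -/
theorem exists_BH (hq : IsQ B y0 q) (k : C(Y', ℂ) →⋆ₐ[ℂ] C(X, RM N ℂ))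
    (hk : ∀ f, ∀ x ∈ B, k f x = algebraMap ℂ (RM N ℂ) (f y0')) :
    ∃ J : BH N Y y0 Y' y0', ∀ f x, J.h f (q x) = k f x := by
  choose t ht using fun f => hq.exists_lift (k f) _ (hk f)
  have hu : ∀ {F G : C(Y, RM N ℂ)}, (∀ x, F (q x) = G (q x)) → F = G := by
    intro F G h
    ext1 y
    obtain ⟨x, rfl⟩ := hq.surj y
    exact h x
  refine ⟨⟨{ toFun := t
             map_one' := hu fun x => by
               rw [ht, map_one]
               rfl
             map_mul' := fun f g => hu fun x => by
               rw [ht, map_mul, ContinuousMap.mul_apply, ContinuousMap.mul_apply, ht, ht]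
             map_zero' := hu fun x => by
               rw [ht, map_zero]
               rfl
             map_add' := fun f g => hu fun x => by
               rw [ht, map_add, ContinuousMap.add_apply, ContinuousMap.add_apply, ht, ht]
             commutes' := fun r => hu fun x => by
               rw [ht, AlgHomClass.commutes]
               rfl
             map_star' := fun f => hu fun x => by
               rw [ht, map_star, ContinuousMap.star_apply, ContinuousMap.star_apply, ht] },
    fun f => ?_⟩, fun f x => ht f x⟩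
  obtain ⟨x, hx⟩ := hq.surj y0
  have h1 := ht f x
  rw [hk f x ((hq.base x).1 hx), hx] at h1
  exact h1

/-- Based homomorphisms defined upstairs. -/
noncomputable def BH.ofQ (hq : IsQ B y0 q) (k : C(Y', ℂ) →⋆ₐ[ℂ] C(X, RM N ℂ))
    (hk : ∀ f, ∀ x ∈ B, k f x = algebraMap ℂ (RM N ℂ) (f y0')) : BH N Y y0 Y' y0' :=
  (exists_BH hq k hk).choose

theorem BH.ofQ_h (hq : IsQ B y0 q) (k : C(Y', ℂ) →⋆ₐ[ℂ] C(X, RM N ℂ))
    (hk : ∀ f, ∀ x ∈ B, k f x = algebraMap ℂ (RM N ℂ) (f y0')) (f : C(Y', ℂ)) (x : X) :
    (BH.ofQ hq k hk).h f (q x) = k f x := (exists_BH hq k hk).choose_spec f x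

/-- Continuity in a parameter: `‖(ofQ k).h f - (ofQ k').h f‖ ≤ ‖k f - k' f‖`. -/
theorem BH.ofQ_path (hq : IsQ B y0 q) {T : Type} [TopologicalSpace T]
    (k : T → C(Y', ℂ) →⋆ₐ[ℂ] C(X, RM N ℂ))
    (hk : ∀ s f, ∀ x ∈ B, k s f x = algebraMap ℂ (RM N ℂ) (f y0'))
    (hc : ∀ f, Continuous fun s => k s f) (f : C(Y', ℂ)) :
    Continuous fun s => (BH.ofQ hq (k s) (hk s)).h f := by
  rw [continuous_iff_continuousAt]
  intro s0
  have h1 := (hc f).continuousAt (x := s0)
  rw [ContinuousAt, tendsto_iff_dist_tendsto_zero] at h1 ⊢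
  refine squeeze_zero (fun _ => dist_nonneg) (fun s => ?_) h1
  rw [ContinuousMap.dist_le dist_nonneg]
  intro y
  obtain ⟨x, rfl⟩ := hq.surj y
  rw [BH.ofQ_h, BH.ofQ_h]
  exact ContinuousMap.dist_apply_le_dist x

/-- Based homomorphisms agreeing upstairs have the same `h`. -/
theorem BH.ext_q (hq : IsQ B y0 q) {J J' : BH N Y y0 Y' y0'}
    (h : ∀ f x, J.h f (q x) = J'.h f (q x)) : J.h = J'.h := by
  refine StarAlgHom.ext fun f => ?_
  ext1 y
  obtain ⟨x, rfl⟩ := hq.surj y
  exact h f x

/-- Cycles only see `J.h`. -/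
theorem eqvM_of_h {P : Type} [CStarAlgebra P] {τ : P →ₗ[ℂ] ℂ} (hτ : PTr τ) (hR : Rowy I τ)
    (hN : N.PB) {S : Sz I} (d : CM τ Y y0 S) {J J' : BH N Y y0 Y' y0'} (h : J.h = J'.h) :
    EqvM (com hτ hN d J) (com hτ hN d J') := by
  obtain ⟨k, hk⟩ := J
  obtain ⟨k', hk'⟩ := J'
  have h' : k = k' := h
  subst h'
  exact EqvM.refl _

variable {Y'' : Type} [TopologicalSpace Y''] [CompactSpace Y''] [T2Space Y''] {y0'' : Y''}

/-- Composition on the left with a based map. -/
noncomputable def BH.pre (J : BH N Y' y0' Y'' y0'') (g : C(Y, Y')) (hg : g y0 = y0') :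
    BH N Y y0 Y'' y0'' where
  h :=
    { toFun := fun f => (J.h f).comp g
      map_one' := by
        rw [map_one]
        rfl
      map_mul' := by
        intro f f'
        rw [map_mul]
        rfl
      map_zero' := by
        rw [map_zero]
        rfl
      map_add' := by
        intro f f'
        rw [map_add]
        rfl
      commutes' := by
        intro r
        rw [AlgHomClass.commutes]
        rfl
      map_star' := by
        intro f
        rw [map_star]
        rfl }
  base := by
    intro f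
    change J.h f (g y0) = _
    rw [hg]
    exact J.base f

theorem BH.pre_h (J : BH N Y' y0' Y'' y0'') (g : C(Y, Y')) (hg : g y0 = y0') (f : C(Y'', ℂ))
    (y : Y) : (J.pre g hg).h f y = J.h f (g y) := rfl

/-- The value of a composite: `(J.comp J').h f y = ext (evaluation of J at y) (J'.h f)`, where
`k = (amp ∘ ev_y ∘ J.h)`. By `tens_comp` for the evaluation at `y`. -/
theorem BH.comp_apply {N' : Sz I} (J : BH N Y y0 Y' y0') (J' : BH N' Y' y0' Y'' y0'')
    (f : C(Y'', ℂ)) (y : Y) :
    (J.comp J').h f y = ext N' ((evx (RM N ℂ) y).comp J.h) (J'.h f) := by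
  have h1 : ∀ hab, (evx (RM (N.prod N') ℂ) y).comp
      (tens ((cns Y (RM (N.prod N') ℂ)).comp (sclR N ℂ N')) ((cmap Y (ampR N N')).comp J.h) hab) =
      ext N' ((evx (RM N ℂ) y).comp J.h) := by
    intro hab
    refine tens_ext (fun a => ?_) fun g => ?_
    · rw [StarAlgHom.comp_apply, tens_cns, ext_cns]
      rfl
    · rw [StarAlgHom.comp_apply, tens_sc, ext_sc]
      rfl
  exact DFunLike.congr_fun (h1 _) (J'.h f)

open scoped CStarAlgebra in
theorem isq_cont {D D' : Type} [CStarAlgebra D] [CStarAlgebra D'] (t : D →⋆ₐ[ℂ] D') :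
    Continuous t := map_continuous t

/-- Composition with a continuous path of based homomorphisms. -/
theorem BH.comp_path {N' : Sz I} (J : BH N Y y0 Y' y0') {T : Type} [TopologicalSpace T]
    (J' : T → BH N' Y' y0' Y'' y0'') (hc : ∀ f, Continuous fun s => (J' s).h f)
    (f : C(Y'', ℂ)) : Continuous fun s => (J.comp (J' s)).h f := by
  have h1 : ∀ t : C(Y', RM N' ℂ) →⋆ₐ[ℂ] C(Y, RM (N.prod N') ℂ),
      Continuous fun s => t ((J' s).h f) := fun t => (isq_cont t).comp (hc f)
  exact h1 _

end H7c
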