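import Pool.Agent.H.MP_7b4a29_c.MMH
import Pool.Agent.H.MP_47f0a1_an.StateA

/-!
# Positive traces and the two-norm
-/

open scoped ComplexOrder

namespace H7c

/-- A positive tracial functional. -/
structure PTr {A : Type} [CStarAlgebra A] (T : A →ₗ[ℂ] ℂ) : Prop where
  nonneg : ∀ x, 0 ≤ T (star x * x)
  tr : ∀ x y, T (x * y) = T (y * x)

/-- The square of the two-norm. -/
noncomputable def nsq {A : Type} [CStarAlgebra A] (T : A →ₗ[ℂ] ℂ) (x : A) : ℝ :=
  (T (star x * x)).re

variable {A : Type} [CStarAlgebra A] {T : A →ₗ[ℂ] ℂ}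

theorem PTr.of_ft (h : H47.IsFT T) : PTr T := ⟨h.st.nonneg, h.tr⟩

theorem nsq_nonneg (h : PTr T) (x : A) : 0 ≤ nsq T x := by
  exact (Complex.nonneg_iff.1 (h.nonneg x)).1

theorem nsq_star (h : PTr T) (x : A) : nsq T (star x) = nsq T x := by
  unfold nsq
  rw [star_star, h.tr]

theorem nsq_smul (c : ℂ) (x : A) : nsq T (c • x) = ‖c‖ ^ 2 * nsq T x := by
  unfold nsq
  rw [star_smul, smul_mul_smul_comm, map_smul, smul_eq_mul,
    show star c * c = ((‖c‖ ^ 2 : ℝ) : ℂ) by
      rw [mul_comm, Complex.star_def, Complex.mul_conj, Complex.normSq_eq_norm_sq],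
    Complex.re_ofReal_mul]

theorem nsq_neg (x : A) : nsq T (-x) = nsq T x := by
  unfold nsq
  rw [star_neg, neg_mul_neg]

theorem tr_par (x y : A) : nsq T (x + y) + nsq T (x - y) = 2 * nsq T x + 2 * nsq T y := by
  unfold nsq
  rw [← Complex.add_re, ← map_add,
    show star (x + y) * (x + y) + star (x - y) * (x - y)
      = (2 : ℂ) • (star x * x) + (2 : ℂ) • (star y * y) by
        rw [star_add, star_sub, two_smul, two_smul]; noncomm_ring,
    map_add, map_smul, map_smul, smul_eq_mul, smul_eq_mul, Complex.add_re]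
  have h2 : (2 : ℂ) = ((2 : ℝ) : ℂ) := by norm_num
  rw [h2, Complex.re_ofReal_mul, Complex.re_ofReal_mul]

/-- From `nsq (x + y) + nsq (x - y) = 2 nsq x + 2 nsq y`. -/
theorem nsq_add_le (h : PTr T) (x y : A) : nsq T (x + y) ≤ 2 * nsq T x + 2 * nsq T y := by
  have h1 := nsq_nonneg h (x - y)
  have h2 : nsq T (x + y) + nsq T (x - y) = 2 * nsq T x + 2 * nsq T y := tr_par x y
  linarith

theorem nsq_sub_le (h : PTr T) (x y : A) : nsq T (x - y) ≤ 2 * nsq T x + 2 * nsq T y := by
  have h1 := nsq_nonneg h (x + y)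
  have h2 : nsq T (x + y) + nsq T (x - y) = 2 * nsq T x + 2 * nsq T y := tr_par x y
  linarith

/-- `T (y* x* x y) ≤ ‖x‖² T (y* y)`: `‖x‖² - x* x = z* z` (compare `H47.IsSt.mul_le`). -/
theorem nsq_mul_le (h : PTr T) (x y : A) : nsq T (x * y) ≤ ‖x‖ ^ 2 * nsq T y := by
  letI := CStarAlgebra.spectralOrder A
  haveI := CStarAlgebra.spectralOrderedRing A
  have h1 : star x * x ≤ algebraMap ℝ A (‖x‖ ^ 2) := CStarAlgebra.star_mul_le_algebraMap_norm_sq
  rw [← sub_nonneg, CStarAlgebra.nonneg_iff_eq_star_mul_self] at h1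
  obtain ⟨z, hz⟩ := h1
  have h2 := (Complex.nonneg_iff.1 (h.nonneg (z * y))).1
  have e : star (z * y) * (z * y)
      = ((‖x‖ ^ 2 : ℝ) : ℂ) • (star y * y) - star (x * y) * (x * y) := by
    rw [star_mul, star_mul, show star y * star z * (z * y) = star y * (star z * z) * y by
      noncomm_ring, ← hz, mul_sub, sub_mul, Algebra.algebraMap_eq_smul_one, mul_smul_comm, mul_one,
      smul_mul_assoc, ← Complex.coe_smul]
    congr 1
    noncomm_ring
  rw [e, map_sub, map_smul, smul_eq_mul, Complex.sub_re, Complex.re_ofReal_mul] at h2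
  unfold nsq
  linarith

/-- By `nsq_star` and `nsq_mul_le`. -/
theorem nsq_mul_le' (h : PTr T) (x y : A) : nsq T (x * y) ≤ ‖y‖ ^ 2 * nsq T x := by
  rw [← nsq_star h, star_mul, ← norm_star y, ← nsq_star h x]
  exact nsq_mul_le h (star y) (star x)

/-- A positive functional commutes with the involution. -/
theorem tr_star (h : PTr T) (x : A) : T (star x) = (starRingEnd ℂ) (T x) := by
  have h0 := (Complex.nonneg_iff.1 (h.nonneg x)).2
  have hone := (Complex.nonneg_iff.1 (h.nonneg 1)).2
  rw [star_one, one_mul] at hone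
  have h1 := (Complex.nonneg_iff.1 (h.nonneg (1 + x))).2
  have h2 := (Complex.nonneg_iff.1 (h.nonneg (1 + Complex.I • x))).2
  have e1 : star (1 + x) * (1 + x) = 1 + x + star x + star x * x := by
    rw [star_add, star_one]; noncomm_ring
  have e2 : star (1 + Complex.I • x) * (1 + Complex.I • x)
      = 1 + Complex.I • x - Complex.I • star x + star x * x := by
    have hI : star Complex.I = - Complex.I := by simp
    rw [star_add, star_one, star_smul, hI, add_mul, mul_add, mul_add, smul_mul_smul_comm]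
    have : -Complex.I * Complex.I = 1 := by simp
    rw [this, one_smul, one_mul, mul_one, one_mul, neg_smul]
    abel
  rw [e1] at h1
  rw [e2] at h2
  simp only [map_add, map_sub, map_smul, smul_eq_mul, Complex.add_im, Complex.sub_im,
    Complex.mul_im, Complex.I_re, Complex.I_im, zero_mul, one_mul] at h1 h2
  rw [← h0, ← hone] at h1 h2
  apply Complex.ext
  · rw [Complex.conj_re]; linarith
  · rw [Complex.conj_im]; linarith

/-- Cauchy–Schwarz. -/
theorem norm_T_mul_le (h : PTr T) (x y : A) : ‖T (star x * y)‖ ^ 2 ≤ nsq T x * nsq T y := by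
  let c : PreInnerProductSpace.Core ℂ A :=
    { inner := fun x y => T (star x * y)
      conj_inner_symm := by
        intro x y
        rw [← tr_star h, star_mul, star_star]
      re_inner_nonneg := fun x => (Complex.nonneg_iff.1 (h.nonneg x)).1
      add_left := by
        intro x y z
        rw [star_add, add_mul, map_add]
      smul_left := by
        intro x y r
        rw [star_smul, smul_mul_assoc, map_smul, smul_eq_mul]
        rfl }
  have key := @InnerProductSpace.Core.inner_mul_inner_self_le ℂ A _ _ _ c x y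
  have e : ‖T (star y * x)‖ = ‖T (star x * y)‖ := by
    have : T (star y * x) = (starRingEnd ℂ) (T (star x * y)) := by
      rw [← tr_star h, star_mul, star_star]
    rw [this, RCLike.norm_conj]
  change ‖T (star x * y)‖ * ‖T (star y * x)‖
    ≤ (T (star x * x)).re * (T (star y * y)).re at key
  rw [e] at key
  rw [sq]
  exact key

/-- `nsq x ≤ ‖x‖² T 1`. -/
theorem nsq_le_norm (h : PTr T) (x : A) : nsq T x ≤ ‖x‖ ^ 2 * (T 1).re := by
  have h1 := nsq_mul_le h x 1
  rw [mul_one] at h1
  have h2 : nsq T (1 : A) = (T 1).re := by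
    unfold nsq
    rw [star_one, one_mul]
  rwa [h2] at h1

variable {ι : Type} [Fintype ι] [DecidableEq ι]

/-- The trace on matrices, not normalized. -/
noncomputable def MM.tr (ι : Type) [Fintype ι] [DecidableEq ι] (T : A →ₗ[ℂ] ℂ) :
    MM ι A →ₗ[ℂ] ℂ where
  toFun a := ∑ i, T (MM.e a i i)
  map_add' a b := by
    simp only [MM.e_add, map_add, Finset.sum_add_distrib]
  map_smul' c a := by
    simp only [MM.e_smul, map_smul, Finset.smul_sum, RingHom.id_apply]

theorem MM.tr_apply (a : MM ι A) : MM.tr ι T a = ∑ i, T (MM.e a i i) := rfl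

theorem PTr.mat (h : PTr T) : PTr (MM.tr ι T) := by
  refine ⟨fun a => ?_, fun a b => ?_⟩
  · rw [MM.tr_apply]
    refine Finset.sum_nonneg fun i _ => ?_
    rw [MM.e_mul, map_sum]
    refine Finset.sum_nonneg fun k _ => ?_
    rw [MM.e_star]
    exact h.nonneg _
  · rw [MM.tr_apply, MM.tr_apply]
    simp only [MM.e_mul, map_sum]
    rw [Finset.sum_comm]
    refine Finset.sum_congr rfl fun i _ => Finset.sum_congr rfl fun k _ => ?_
    exact h.tr _ _

theorem nsq_mat (a : MM ι A) : nsq (MM.tr ι T) a = ∑ i, ∑ j, nsq T (MM.e a i j) := by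
  unfold nsq
  rw [MM.tr_apply, Complex.re_sum]
  simp only [MM.e_mul, map_sum, MM.e_star, Complex.re_sum]
  rw [Finset.sum_comm]

theorem nsq_amp {N : Type} [Fintype N] [DecidableEq N] (a : MM ι A) :
    nsq (MM.tr (ι × N) T) (MM.amp N a) = Fintype.card N * nsq (MM.tr ι T) a := by
  have h0 : nsq T (0 : A) = 0 := by
    unfold nsq
    rw [mul_zero, map_zero, Complex.zero_re]
  rw [nsq_mat, nsq_mat]
  simp only [MM.e_amp]
  rw [Fintype.sum_prod_type]
  have h1 : ∀ i : ι, ∀ n : N, (∑ q : ι × N, nsq T (if n = q.2 then MM.e a i q.1 else 0))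
      = ∑ j, nsq T (MM.e a i j) := by
    intro i n
    rw [Fintype.sum_prod_type]
    refine Finset.sum_congr rfl fun j _ => ?_
    rw [Finset.sum_eq_single n]
    · simp
    · intro m _ hm
      rw [if_neg (fun h => hm h.symm), h0]
    · intro h
      exact absurd (Finset.mem_univ n) h
  simp only [h1, Finset.sum_const, Finset.card_univ, nsmul_eq_mul]
  rw [← Finset.mul_sum]

end H7c
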