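import Pool.Agent.H.MP_7b4a29_c.SQMap
import Pool.Agent.H.MP_7b4a29_c.SQB
import Pool.Agent.H.MP_7b4a29_c.Tr

/-!
# The ideal of the classes with rapidly decreasing two-norm
-/

open Filter Topology

namespace H7c

/-- Closed two-sided star ideals of a C*-algebra, as predicates. -/
structure Idl {D : Type} [CStarAlgebra D] (J : D → Prop) : Prop where
  zero : J 0
  add : ∀ a b, J a → J b → J (a + b)
  smul : ∀ (c : ℂ) a, J a → J (c • a)
  mul_left : ∀ a b, J b → J (a * b)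
  mul_right : ∀ a b, J a → J (a * b)
  star : ∀ a, J a → J (star a)
  closed : ∀ a, (∀ ε : ℝ, 0 < ε → ∃ b, J b ∧ ‖a - b‖ ≤ ε) → J a

theorem ji_cfc {D : Type} [CStarAlgebra D] {J : D → Prop} (h : Idl J) (a : D) (ha : J a)
    (hsa : IsSelfAdjoint a) (f : ℝ → ℝ) (hf : Continuous f) (h0 : f 0 = 0) : J (cfc f a) := by
  rcases subsingleton_or_nontrivial D with hD | hD
  · rw [Subsingleton.elim (cfc f a) 0]
    exact h.zero
  refine h.closed _ fun ε hε => ?_
  obtain ⟨p, hp⟩ := exists_polynomial_near_of_continuousOn (-‖a‖) ‖a‖ f hf.continuousOn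
    (ε / 2) (by positivity)
  refine ⟨Polynomial.aeval a p.divX * a, h.mul_left _ _ ha, ?_⟩
  have e1 : Polynomial.aeval a p.divX * a = Polynomial.aeval a (p.divX * Polynomial.X) := by
    rw [map_mul, Polynomial.aeval_X]
  rw [e1]
  obtain ⟨q, hq⟩ : ∃ q : Polynomial ℝ, q = p.divX * Polynomial.X := ⟨_, rfl⟩
  rw [← hq, ← cfc_polynomial q a hsa, ← cfc_sub f q.eval a hf.continuousOn
    q.continuous.continuousOn]
  refine norm_cfc_le hε.le fun t ht => ?_
  have h1 : |t| ≤ ‖a‖ := by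
    rw [← Real.norm_eq_abs]
    exact spectrum.norm_le_norm_of_mem ht
  have h2 : |p.eval t - f t| < ε / 2 := hp t ⟨(abs_le.1 h1).1, (abs_le.1 h1).2⟩
  have h3 : |p.eval 0 - f 0| < ε / 2 :=
    hp 0 ⟨by linarith [norm_nonneg a], norm_nonneg a⟩
  have h4 : q.eval t = p.eval t - p.eval 0 := by
    rw [hq]
    have h5 := congrArg (Polynomial.eval t) (Polynomial.divX_mul_X_add p)
    rw [Polynomial.eval_add, Polynomial.eval_C, Polynomial.coeff_zero_eq_eval_zero] at h5
    linarith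
  rw [h4, Real.norm_eq_abs]
  rw [h0, sub_zero] at h3
  have h6 : f t - (p.eval t - p.eval 0) = -(p.eval t - f t) + p.eval 0 := by ring
  rw [h6]
  refine (abs_add_le _ _).trans ?_
  rw [abs_neg]
  linarith

theorem ji_tendsto {L : Type} {F : Filter L} {f : L → ℝ} (h0 : ∀ l, 0 ≤ f l)
    (h : ∀ δ : ℝ, 0 < δ → ∀ᶠ l in F, f l ≤ δ) : Tendsto f F (𝓝 0) := by
  rw [Metric.tendsto_nhds]
  intro ε hε
  filter_upwards [h (ε / 2) (by positivity)] with l hl
  rw [Real.dist_eq, sub_zero, abs_of_nonneg (h0 l)]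
  linarith

theorem ji_nsq_zero {B : Type} [CStarAlgebra B] (T : B →ₗ[ℂ] ℂ) : nsq T 0 = 0 := by
  unfold nsq
  rw [mul_zero, map_zero, Complex.zero_re]

namespace Idl

variable {D : Type} [CStarAlgebra D] {J : D → Prop} (h : Idl J)

include h

theorem neg {a : D} (ha : J a) : J (-a) := by
  have := h.smul (-1) a ha
  rwa [neg_one_smul] at this

theorem sub {a b : D} (ha : J a) (hb : J b) : J (a - b) := by
  rw [sub_eq_add_neg]
  exact h.add _ _ ha (h.neg hb)

theorem sum {κ : Type*} (s : Finset κ) (a : κ → D) (ha : ∀ k ∈ s, J (a k)) : J (∑ k ∈ s, a k) := by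
  classical
  induction s using Finset.induction_on with
  | empty => simpa using h.zero
  | insert i s hi ih =>
    rw [Finset.sum_insert hi]
    exact h.add _ _ (ha _ (Finset.mem_insert_self _ _))
      (ih fun k hk => ha k (Finset.mem_insert_of_mem hk))

/-- Continuous functional calculus with a function vanishing at `0`.

Proof. For `ε > 0` there is a real polynomial `p` with `|f - p| ≤ ε/2` on `[-‖a‖, ‖a‖]`
(Weierstrass); replace `p` by `p - p(0)`, so `|f - p| ≤ ε` and `p(0) = 0`. Then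
`‖cfc f a - p(a)‖ ≤ ε` and `p(a)` is a multiple of `a`. -/
theorem cfc (a : D) (ha : J a) (hsa : IsSelfAdjoint a) (f : ℝ → ℝ) (hf : Continuous f)
    (h0 : f 0 = 0) : J (cfc f a) := ji_cfc h a ha hsa f hf h0

end Idl

variable (I : Ix) {A : I.L → Type} [∀ l, CStarAlgebra (A l)]

/-- The class has a representative whose two-norm decreases faster than every power of the weight. -/
def IsJ (T : ∀ l, A l →ₗ[ℂ] ℂ) (a : SQ I A) : Prop :=
  ∃ x : ∀ l, A l, Bd x ∧ cl I x = a ∧
    ∀ k : ℕ, Tendsto (fun l => (I.w l : ℝ) ^ k * nsq (T l) (x l)) I.F (𝓝 0)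

variable {T : ∀ l, A l →ₗ[ℂ] ℂ} (hT : ∀ l, PTr (T l))

include hT

/-- It is a closed two-sided star ideal.

Proof. `nsq_add_le, nsq_smul, nsq_star, nsq_mul_le, nsq_mul_le'`. Closedness: for every `n` let
`x_n` be a representative, as in the definition, of some `b_n` with `‖a - b_n‖ ≤ 1/(n+1)`, and let `y`
represent `a`. Apply `saturate`, or directly: let `E n` be the set of the `l` with
`w l ^ k * nsq (x_n l) ≤ 1/(n+1)` for `k ≤ n` and `‖y l - x_n l‖ ≤ 2/(n+1)`; choose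
`n = K l → ∞` with `l ∈ E (K l)` and put `x l = x_{K l} l` (`x l = 0` if there is no such `n`). -/
theorem IsJ.idl : Idl (IsJ I T) where
  zero := by
    refine ⟨fun l => 0, Bd.zero, cl_zero I, fun k => ?_⟩
    simp only [ji_nsq_zero, mul_zero]
    exact tendsto_const_nhds
  add := by
    rintro a b ⟨x, hx, hxa, hxt⟩ ⟨y, hy, hyb, hyt⟩
    refine ⟨fun l => x l + y l, hx.add hy, by rw [cl_add I hx hy, hxa, hyb], fun k => ?_⟩
    have h1 := ((hxt k).const_mul 2).add ((hyt k).const_mul 2)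
    rw [mul_zero, add_zero] at h1
    refine squeeze_zero (fun l => mul_nonneg (by positivity) (nsq_nonneg (hT l) _))
      (fun l => ?_) h1
    have h2 := mul_le_mul_of_nonneg_left (nsq_add_le (hT l) (x l) (y l))
      (by positivity : (0 : ℝ) ≤ (I.w l : ℝ) ^ k)
    linarith
  smul := by
    rintro c a ⟨x, hx, hxa, hxt⟩
    refine ⟨fun l => c • x l, hx.smul c, by rw [cl_smul I c hx, hxa], fun k => ?_⟩
    have h1 := (hxt k).const_mul (‖c‖ ^ 2)
    rw [mul_zero] at h1
    refine h1.congr fun l => ?_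
    rw [nsq_smul]
    ring
  mul_left := by
    rintro a b ⟨x, hx, hxb, hxt⟩
    refine ⟨fun l => SQ.rep I a l * x l, (SQ.rep_bd I a).mul hx,
      by rw [cl_mul I (SQ.rep_bd I a) hx, SQ.cl_rep, hxb], fun k => ?_⟩
    have h1 := (hxt k).const_mul ((‖a‖ + 1) ^ 2)
    rw [mul_zero] at h1
    refine squeeze_zero (fun l => mul_nonneg (by positivity) (nsq_nonneg (hT l) _))
      (fun l => ?_) h1
    have h2 : nsq (T l) (SQ.rep I a l * x l) ≤ (‖a‖ + 1) ^ 2 * nsq (T l) (x l) :=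
      (nsq_mul_le (hT l) _ _).trans (mul_le_mul_of_nonneg_right
        (pow_le_pow_left₀ (norm_nonneg _) (SQ.norm_rep_le I a l) 2) (nsq_nonneg (hT l) _))
    have h3 := mul_le_mul_of_nonneg_left h2 (by positivity : (0 : ℝ) ≤ (I.w l : ℝ) ^ k)
    linarith
  mul_right := by
    rintro a b ⟨x, hx, hxa, hxt⟩
    refine ⟨fun l => x l * SQ.rep I b l, hx.mul (SQ.rep_bd I b),
      by rw [cl_mul I hx (SQ.rep_bd I b), SQ.cl_rep, hxa], fun k => ?_⟩
    have h1 := (hxt k).const_mul ((‖b‖ + 1) ^ 2)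
    rw [mul_zero] at h1
    refine squeeze_zero (fun l => mul_nonneg (by positivity) (nsq_nonneg (hT l) _))
      (fun l => ?_) h1
    have h2 : nsq (T l) (x l * SQ.rep I b l) ≤ (‖b‖ + 1) ^ 2 * nsq (T l) (x l) :=
      (nsq_mul_le' (hT l) _ _).trans (mul_le_mul_of_nonneg_right
        (pow_le_pow_left₀ (norm_nonneg _) (SQ.norm_rep_le I b l) 2) (nsq_nonneg (hT l) _))
    have h3 := mul_le_mul_of_nonneg_left h2 (by positivity : (0 : ℝ) ≤ (I.w l : ℝ) ^ k)
    linarith
  star := by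
    rintro a ⟨x, hx, hxa, hxt⟩
    refine ⟨fun l => Star.star (x l), hx.star, by rw [cl_star I hx, hxa], fun k => ?_⟩
    refine (hxt k).congr fun l => ?_
    rw [nsq_star (hT l)]
  closed := by
    intro a ha
    have h1 : ∀ k : ℕ, ∃ x : ∀ l, A l, Bd x ∧ ‖a - cl I x‖ ≤ 1 / (k + 2) ∧
        ∀ i : ℕ, Tendsto (fun l => (I.w l : ℝ) ^ i * nsq (T l) (x l)) I.F (𝓝 0) := by
      intro k
      obtain ⟨b, ⟨x, hx, hxb, hxt⟩, hb⟩ := ha (1 / (k + 2)) (by positivity)
      exact ⟨x, hx, by rw [hxb]; exact hb, hxt⟩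
    choose x hx hxa hxt using h1
    have h2 : ∀ k : ℕ, ∀ᶠ l in I.F, ‖SQ.rep I a l - x k l‖ < 1 / (k + 1) := by
      intro k
      refine eventually_norm_lt I ((SQ.rep_bd I a).sub (hx k)) ?_
      rw [cl_sub I (SQ.rep_bd I a) (hx k), SQ.cl_rep]
      refine (hxa k).trans_lt (one_div_lt_one_div_of_lt (by positivity) (by linarith))
    obtain ⟨z, -, hz⟩ := saturate I
      (fun i l (z : A l) => max ‖SQ.rep I a l - z‖ ((I.w l : ℝ) ^ i * nsq (T l) z)) x (by
        intro k i _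
        have h3 : (0 : ℝ) < 1 / (k + 1) := by positivity
        filter_upwards [h2 k, (hxt k i).eventually (ge_mem_nhds h3)] with l hl hl'
        exact max_le hl.le hl')
    classical
    have h4 : ∀ᶠ l in I.F, (if ‖SQ.rep I a l - z l‖ ≤ 1 then z l else 0) = z l := by
      filter_upwards [hz 0 1 one_pos] with l hl
      exact if_pos ((le_max_left _ _).trans hl)
    have h5 : Bd (fun l => if ‖SQ.rep I a l - z l‖ ≤ 1 then z l else 0) := by
      refine ⟨‖a‖ + 2, fun l => ?_⟩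
      dsimp only
      split_ifs with h
      · have h6 : z l = SQ.rep I a l - (SQ.rep I a l - z l) := by abel
        rw [h6]
        refine (norm_sub_le _ _).trans ?_
        have := SQ.norm_rep_le I a l
        linarith
      · rw [norm_zero]
        positivity
    refine ⟨_, h5, ?_, fun k => ?_⟩
    · refine ((cl_eq_iff I h5 (SQ.rep_bd I a)).2 ?_).trans (SQ.cl_rep I a)
      refine ji_tendsto (fun l => norm_nonneg _) fun δ hδ => ?_
      filter_upwards [h4, hz 0 δ hδ] with l hl hl'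
      rw [hl, norm_sub_rev]
      exact (le_max_left _ _).trans hl'
    · refine ji_tendsto (fun l => mul_nonneg (by positivity) (nsq_nonneg (hT l) _)) fun δ hδ => ?_
      filter_upwards [h4, hz k δ hδ] with l hl hl'
      rw [hl]
      exact (le_max_right _ _).trans hl'

omit hT in
/-- A family with exact values: `IsJ` for the class of `x` if `nsq (x l)` decreases rapidly. -/
theorem IsJ.of_rep {x : ∀ l, A l} (hx : Bd x)
    (h : ∀ k : ℕ, Tendsto (fun l => (I.w l : ℝ) ^ k * nsq (T l) (x l)) I.F (𝓝 0)) :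
    IsJ I T (cl I x) := ⟨x, hx, rfl, h⟩

omit hT in
/-- A convenient criterion: `nsq (x l) ≤ C 2^{- w l}` eventually. -/
theorem IsJ.of_two_pow (hT : ∀ l, PTr (T l)) {x : ∀ l, A l} (hx : Bd x) (C : ℝ)
    (h : ∀ᶠ l in I.F, nsq (T l) (x l) ≤ C * (1 / 2) ^ (I.w l)) : IsJ I T (cl I x) := by
  refine IsJ.of_rep I hx fun k => ?_
  have h1 : Tendsto (fun n : ℕ => (n : ℝ) ^ k * (1 / 2 : ℝ) ^ n) atTop (𝓝 0) :=
    tendsto_pow_const_mul_const_pow_of_abs_lt_one k (by rw [abs_of_pos] <;> norm_num)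
  have h2 := (h1.comp I.tw).const_mul C
  rw [mul_zero] at h2
  refine squeeze_zero' (Eventually.of_forall fun l => mul_nonneg (by positivity)
    (nsq_nonneg (hT l) _)) ?_ h2
  filter_upwards [h] with l hl
  have h3 := mul_le_mul_of_nonneg_left hl (by positivity : (0 : ℝ) ≤ (I.w l : ℝ) ^ k)
  simp only [Function.comp]
  linarith

omit hT in
theorem IsJ.map {B : I.L → Type} [∀ l, CStarAlgebra (B l)] {T' : ∀ l, B l →ₗ[ℂ] ℂ}
    (φ : ∀ l, A l →⋆ₐ[ℂ] B l) (hφ : ∀ l x, T' l (φ l x) = T l x) {a : SQ I A}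
    (ha : IsJ I T a) : IsJ I T' (SQ.map I φ a) := by
  obtain ⟨x, hx, rfl, hxt⟩ := ha
  refine ⟨fun l => φ l (x l), Bd.map I φ hx, (SQ.map_cl I φ hx).symm, fun k => ?_⟩
  refine (hxt k).congr fun l => ?_
  unfold nsq
  rw [← map_star, ← map_mul, hφ]

omit hT in
theorem IsJ.re {I' : Ix} (hT : ∀ l, PTr (T l)) (φ : IxHom I I') {a : SQ I A}
    (ha : IsJ I T a) : IsJ I' (fun l => T (φ.f l)) (SQ.re φ a) := by
  obtain ⟨x, hx, rfl, hxt⟩ := ha
  refine ⟨fun l => x (φ.f l), Bd.re φ hx, (SQ.re_cl φ hx).symm, fun k => ?_⟩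
  refine squeeze_zero' (Eventually.of_forall fun l => mul_nonneg (by positivity)
    (nsq_nonneg (hT _) _)) ?_ ((hxt k).comp φ.t)
  filter_upwards [φ.w] with l hl
  have h1 : (I'.w l : ℝ) ^ k ≤ (I.w (φ.f l) : ℝ) ^ k :=
    pow_le_pow_left₀ (by positivity) (by exact_mod_cast hl) k
  exact mul_le_mul_of_nonneg_right h1 (nsq_nonneg (hT _) _)

end H7c
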