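import Pool.Agent.H.MP_7b4a29_c.MM

/-!
# Homomorphisms between matrix algebras
-/

open Matrix

namespace H7c

namespace MM

variable {ι : Type} [Fintype ι] [DecidableEq ι] {P : Type} [CStarAlgebra P]

/-! ### Auxiliary entries -/

theorem mmh_algebraMap (c : ℂ) (i j : ι) :
    e (algebraMap ℂ (MM ι P) c) i j = c • (if i = j then (1 : P) else 0) := by
  rw [Algebra.algebraMap_eq_smul_one, e_smul, e_one]

/-! ### Structural homomorphisms -/

variable {P' : Type} [CStarAlgebra P']

/-- Entrywise application of a homomorphism. -/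
noncomputable def mapH (φ : P →⋆ₐ[ℂ] P') : MM ι P →⋆ₐ[ℂ] MM ι P' where
  toFun a := of (fun i j => φ (e a i j))
  map_one' := by
    refine ext fun i j => ?_
    rw [e_of, e_one, e_one]
    split_ifs
    · exact map_one φ
    · exact map_zero φ
  map_mul' := by
    intro a b
    refine ext fun i j => ?_
    rw [e_of, e_mul, e_mul, map_sum]
    refine Finset.sum_congr rfl fun k _ => ?_
    rw [map_mul, e_of, e_of]
  map_zero' := by
    refine ext fun i j => ?_
    rw [e_of, e_zero, e_zero]
    exact map_zero φ
  map_add' := by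
    intro a b
    refine ext fun i j => ?_
    rw [e_of, e_add, e_add, e_of, e_of]
    exact map_add φ _ _
  commutes' := by
    intro c
    refine ext fun i j => ?_
    rw [e_of, mmh_algebraMap, mmh_algebraMap, map_smul]
    split_ifs
    · rw [map_one]
    · rw [map_zero]
  map_star' := by
    intro a
    refine ext fun i j => ?_
    rw [e_of, e_star, e_star, e_of]
    exact map_star φ _

theorem e_mapH (φ : P →⋆ₐ[ℂ] P') (a : MM ι P) (i j : ι) : e (mapH φ a) i j = φ (e a i j) :=
  e_of _ _ _

/-- An injective homomorphism is isometric on matrices. -/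
theorem norm_mapH (φ : P →⋆ₐ[ℂ] P') (hφ : Function.Injective φ) (a : MM ι P) :
    ‖mapH φ a‖ = ‖a‖ := by
  refine NonUnitalStarAlgHom.norm_map (mapH φ) ?_ a
  intro x y hxy
  refine ext fun i j => hφ ?_
  rw [← e_mapH, ← e_mapH, hxy]

variable (N : Type) [Fintype N] [DecidableEq N]

/-- `a ↦ a ⊗ 1`. -/
noncomputable def amp : MM ι P →⋆ₐ[ℂ] MM (ι × N) P where
  toFun a := of (fun p q => if p.2 = q.2 then e a p.1 q.1 else 0)
  map_one' := by
    refine ext fun p q => ?_
    rw [e_of, e_one, e_one]
    by_cases h1 : p.2 = q.2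
    · by_cases h2 : p.1 = q.1
      · rw [if_pos h1, if_pos h2, if_pos (Prod.ext h2 h1)]
      · rw [if_pos h1, if_neg h2, if_neg (fun h => h2 (by rw [h]))]
    · rw [if_neg h1, if_neg (fun h => h1 (by rw [h]))]
  map_mul' := by
    intro a b
    refine ext fun p q => ?_
    rw [e_of]
    by_cases h1 : p.2 = q.2
    · rw [if_pos h1, e_mul, e_mul]
      simp only [e_of]
      rw [Fintype.sum_prod_type]
      refine Finset.sum_congr rfl fun k _ => ?_
      rw [Finset.sum_eq_single p.2]
      · rw [if_pos rfl, if_pos h1]
      · intro l _ hl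
        rw [if_neg (fun h => hl h.symm), zero_mul]
      · intro h
        exact absurd (Finset.mem_univ _) h
    · rw [if_neg h1, e_mul]
      simp only [e_of]
      rw [Fintype.sum_prod_type]
      refine (Finset.sum_eq_zero fun k _ => Finset.sum_eq_zero fun l _ => ?_).symm
      by_cases h2 : p.2 = l
      · rw [if_neg (fun h : l = q.2 => h1 (h2.trans h)), mul_zero]
      · rw [if_neg h2, zero_mul]
  map_zero' := by
    refine ext fun p q => ?_
    rw [e_of, e_zero, e_zero]
    split_ifs <;> rfl
  map_add' := by
    intro a b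
    refine ext fun p q => ?_
    rw [e_of, e_add, e_add, e_of, e_of]
    split_ifs
    · rfl
    · rw [add_zero]
  commutes' := by
    intro c
    refine ext fun p q => ?_
    rw [e_of, mmh_algebraMap, mmh_algebraMap]
    by_cases h1 : p.2 = q.2
    · by_cases h2 : p.1 = q.1
      · rw [if_pos h1, if_pos h2, if_pos (Prod.ext h2 h1)]
      · rw [if_pos h1, if_neg h2, if_neg (fun h => h2 (by rw [h]))]
    · rw [if_neg h1, if_neg (fun h => h1 (by rw [h])), smul_zero]
  map_star' := by
    intro a
    refine ext fun p q => ?_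
    rw [e_of, e_star, e_star, e_of]
    by_cases h1 : p.2 = q.2
    · rw [if_pos h1, if_pos h1.symm]
    · rw [if_neg h1, if_neg (fun h => h1 h.symm), star_zero]

theorem e_amp (a : MM ι P) (p q : ι × N) :
    e (amp N a) p q = if p.2 = q.2 then e a p.1 q.1 else 0 := e_of _ _ _

variable (ι P) {N}

/-- `x ↦ 1 ⊗ x` for scalar matrices `x`. -/
noncomputable def scl : MM N ℂ →⋆ₐ[ℂ] MM (ι × N) P where
  toFun x := of (fun p q => if p.1 = q.1 then algebraMap ℂ P (e x p.2 q.2) else 0)
  map_one' := by
    refine ext fun p q => ?_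
    rw [e_of, e_one, e_one]
    by_cases h1 : p.1 = q.1
    · by_cases h2 : p.2 = q.2
      · rw [if_pos h1, if_pos h2, if_pos (Prod.ext h1 h2), map_one]
      · rw [if_pos h1, if_neg h2, if_neg (fun h => h2 (by rw [h])), map_zero]
    · rw [if_neg h1, if_neg (fun h => h1 (by rw [h]))]
  map_mul' := by
    intro a b
    refine ext fun p q => ?_
    rw [e_of]
    by_cases h1 : p.1 = q.1
    · rw [if_pos h1, e_mul, e_mul, map_sum]
      simp only [e_of]
      rw [Fintype.sum_prod_type, Finset.sum_eq_single p.1]
      · refine Finset.sum_congr rfl fun k _ => ?_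
        rw [if_pos rfl, if_pos h1, map_mul]
      · intro l _ hl
        refine Finset.sum_eq_zero fun k _ => ?_
        rw [if_neg (fun h => hl h.symm), zero_mul]
      · intro h
        exact absurd (Finset.mem_univ _) h
    · rw [if_neg h1, e_mul]
      simp only [e_of]
      rw [Fintype.sum_prod_type]
      refine (Finset.sum_eq_zero fun k _ => Finset.sum_eq_zero fun l _ => ?_).symm
      by_cases h2 : p.1 = k
      · rw [if_neg (fun h : k = q.1 => h1 (h2.trans h)), mul_zero]
      · rw [if_neg h2, zero_mul]
  map_zero' := by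
    refine ext fun p q => ?_
    rw [e_of, e_zero, e_zero, map_zero]
    split_ifs <;> rfl
  map_add' := by
    intro a b
    refine ext fun p q => ?_
    rw [e_of, e_add, e_add, e_of, e_of]
    split_ifs
    · rw [map_add]
    · rw [add_zero]
  commutes' := by
    intro c
    refine ext fun p q => ?_
    rw [e_of, mmh_algebraMap, mmh_algebraMap]
    by_cases h1 : p.1 = q.1
    · by_cases h2 : p.2 = q.2
      · rw [if_pos h1, if_pos h2, if_pos (Prod.ext h1 h2), smul_eq_mul, mul_one,
          Algebra.algebraMap_eq_smul_one]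
      · rw [if_pos h1, if_neg h2, if_neg (fun h => h2 (by rw [h])), smul_zero, smul_zero,
          map_zero]
    · rw [if_neg h1, if_neg (fun h => h1 (by rw [h])), smul_zero]
  map_star' := by
    intro a
    refine ext fun p q => ?_
    rw [e_of, e_star, e_star, e_of]
    by_cases h1 : p.1 = q.1
    · rw [if_pos h1, if_pos h1.symm, algebraMap_star_comm]
    · rw [if_neg h1, if_neg (fun h => h1 h.symm), star_zero]

variable {ι P}

theorem e_scl (x : MM N ℂ) (p q : ι × N) :
    e (scl ι P x) p q = if p.1 = q.1 then algebraMap ℂ P (e x p.2 q.2) else 0 := e_of _ _ _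

theorem amp_scl_comm (a : MM ι P) (x : MM N ℂ) :
    amp N a * scl ι P x = scl ι P x * amp N a := by
  refine ext fun p q => ?_
  have h1 : e (amp N a * scl ι P x) p q =
      e a p.1 q.1 * algebraMap ℂ P (e x p.2 q.2) := by
    rw [e_mul, Finset.sum_eq_single (q.1, p.2)]
    · rw [e_amp, e_scl, if_pos rfl, if_pos rfl]
    · intro r _ hr
      rw [e_amp, e_scl]
      by_cases h2 : p.2 = r.2
      · by_cases h3 : r.1 = q.1
        · exact absurd (Prod.ext h3 h2.symm : r = (q.1, p.2)) hr
        · rw [if_neg h3, mul_zero]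
      · rw [if_neg h2, zero_mul]
    · intro h
      exact absurd (Finset.mem_univ _) h
  have h2 : e (scl ι P x * amp N a) p q =
      algebraMap ℂ P (e x p.2 q.2) * e a p.1 q.1 := by
    rw [e_mul, Finset.sum_eq_single (p.1, q.2)]
    · rw [e_amp, e_scl, if_pos rfl, if_pos rfl]
    · intro r _ hr
      rw [e_amp, e_scl]
      by_cases h2 : p.1 = r.1
      · by_cases h3 : r.2 = q.2
        · exact absurd (Prod.ext h2.symm h3 : r = (p.1, q.2)) hr
        · rw [if_neg h3, mul_zero]
      · rw [if_neg h2, zero_mul]
    · intro h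
      exact absurd (Finset.mem_univ _) h
  rw [h1, h2, Algebra.commutes]

/-- Relabelling. -/
noncomputable def ri {κ : Type} [Fintype κ] [DecidableEq κ] (f : κ ≃ ι) :
    MM ι P →⋆ₐ[ℂ] MM κ P where
  toFun a := of (fun i j => e a (f i) (f j))
  map_one' := by
    refine ext fun i j => ?_
    rw [e_of, e_one, e_one]
    by_cases h : i = j
    · rw [if_pos h, if_pos (by rw [h])]
    · rw [if_neg h, if_neg (fun h' => h (f.injective h'))]
  map_mul' := by
    intro a b
    refine ext fun i j => ?_
    rw [e_of, e_mul, e_mul]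
    simp only [e_of]
    exact (Equiv.sum_comp f (fun k => e a (f i) k * e b k (f j))).symm
  map_zero' := by
    refine ext fun i j => ?_
    rw [e_of, e_zero, e_zero]
  map_add' := by
    intro a b
    refine ext fun i j => ?_
    rw [e_of, e_add, e_add, e_of, e_of]
  commutes' := by
    intro c
    refine ext fun i j => ?_
    rw [e_of, mmh_algebraMap, mmh_algebraMap]
    by_cases h : i = j
    · rw [if_pos h, if_pos (by rw [h])]
    · rw [if_neg h, if_neg (fun h' => h (f.injective h'))]
  map_star' := by
    intro a
    refine ext fun i j => ?_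
    rw [e_of, e_star, e_star, e_of]

theorem e_ri {κ : Type} [Fintype κ] [DecidableEq κ] (f : κ ≃ ι) (a : MM ι P) (i j : κ) :
    e (ri f a) i j = e a (f i) (f j) := e_of _ _ _

variable (P)

/-- `1 × 1` matrices. -/
noncomputable def uno : P →⋆ₐ[ℂ] MM Unit P where
  toFun a := of (fun _ _ => a)
  map_one' := by
    refine ext fun i j => ?_
    rw [e_of, e_one, if_pos (Subsingleton.elim i j)]
  map_mul' := by
    intro a b
    refine ext fun i j => ?_
    rw [e_of, e_mul]
    simp only [e_of]
    rw [Fintype.sum_unique]
  map_zero' := by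
    refine ext fun i j => ?_
    rw [e_of, e_zero]
  map_add' := by
    intro a b
    refine ext fun i j => ?_
    rw [e_of, e_add, e_of, e_of]
  commutes' := by
    intro c
    refine ext fun i j => ?_
    rw [e_of, mmh_algebraMap, if_pos (Subsingleton.elim i j), Algebra.algebraMap_eq_smul_one]
  map_star' := by
    intro a
    refine ext fun i j => ?_
    rw [e_of, e_star, e_of]

/-- The inverse of `uno`. -/
noncomputable def ouno : MM Unit P →⋆ₐ[ℂ] P where
  toFun a := e a () ()
  map_one' := by
    rw [e_one, if_pos rfl]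
  map_mul' := by
    intro a b
    rw [e_mul, Fintype.sum_unique]
  map_zero' := by
    exact e_zero _ _
  map_add' := by
    intro a b
    exact e_add _ _ _ _
  commutes' := by
    intro c
    rw [mmh_algebraMap, if_pos rfl, Algebra.algebraMap_eq_smul_one]
  map_star' := by
    intro a
    exact e_star _ _ _

variable {P}

theorem ouno_uno (a : P) : ouno P (uno P a) = a := by
  exact e_of _ _ _

theorem uno_ouno (a : MM Unit P) : uno P (ouno P a) = a := by
  refine ext fun i j => ?_
  have h : e (uno P (ouno P a)) i j = e a () () := e_of _ _ _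
  rw [h]

/-- The diagonal matrix unit. -/
noncomputable def unit1 (i : ι) : MM ι P := of (fun j k => if j = i ∧ k = i then 1 else 0)

end MM
end H7c
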