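import Pool.Agent.H.MP_7b4a29_c.MainT0
import Pool.Agent.H.MP_7b4a29_c.GTb
import Pool.Agent.H.MP_7b4a29_c.RowyM

/-!
# The main theorem: approximate unitary equivalence of sums
-/

open Filter Topology MeasureTheory H47

namespace H7c

/-- Modulo the ideal: products with elements which are one modulo the ideal. -/
theorem maint_mid {D : Type} [CStarAlgebra D] {J : D → Prop} (hJ : Idl J) {E₁ E₂ U : D}
    (h1 : J (E₁ - 1)) (h2 : J (E₂ - 1)) : J (E₁ * U * E₂ - U) := by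
  have e : E₁ * U * E₂ - U = (E₁ - 1) * (U * E₂) + U * (E₂ - 1) := by noncomm_ring
  rw [e]
  exact hJ.add _ _ (hJ.mul_right _ _ h1) (hJ.mul_left _ _ h2)

theorem maint_neg {D : Type} [CStarAlgebra D] {J : D → Prop} (hJ : Idl J) {a : D} (h : J a) :
    J (-a) := by
  have := hJ.smul (-1) a h
  rwa [neg_one_smul] at this

theorem maint_sub {D : Type} [CStarAlgebra D] {J : D → Prop} (hJ : Idl J) {a b : D} (h : J a)
    (h' : J b) : J (a - b) := by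
  rw [sub_eq_add_neg]
  exact hJ.add _ _ h (maint_neg hJ h')

/-- Defects modulo the ideal. -/
theorem maint_def {D : Type} [CStarAlgebra D] {J : D → Prop} (hJ : Idl J) {U U₀ : D}
    (h : J (U₀ - U)) (h1 : J (1 - star U * U)) : J (1 - star U₀ * U₀) := by
  have e : 1 - star U₀ * U₀ = (1 - star U * U) - (star (U₀ - U) * U₀ + star U * (U₀ - U)) := by
    rw [star_sub]
    noncomm_ring
  rw [e]
  exact maint_sub hJ h1 (hJ.add _ _ (hJ.mul_right _ _ (hJ.star _ h)) (hJ.mul_left _ _ h))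

/-- The intertwining relation for the product. -/
theorem maint_int {D : Type} [Ring D] {E₁ E₂ U a b x y : D} (h : a * U = U * b)
    (h1 : a * E₁ = E₁ * a) (h2 : b * E₂ = E₂ * b) (h3 : x * E₁ = 0) (h4 : E₂ * y = 0) :
    (a + x) * (E₁ * U * E₂) = E₁ * U * E₂ * (b + y) := by
  have l : (a + x) * (E₁ * U * E₂) = E₁ * U * (b * E₂) := by
    calc (a + x) * (E₁ * U * E₂) = a * E₁ * (U * E₂) + x * E₁ * (U * E₂) := by noncomm_ring
      _ = E₁ * (a * U) * E₂ := by rw [h3, h1, zero_mul, add_zero]; noncomm_ring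
      _ = E₁ * U * (b * E₂) := by rw [h]; noncomm_ring
  have l' : E₁ * U * E₂ * (b + y) = E₁ * U * (E₂ * b) + E₁ * U * (E₂ * y) := by noncomm_ring
  rw [l, l', h4, mul_zero, add_zero, h2]

/-- The two by two matrix. -/
theorem maint_q {D : Type} [CStarAlgebra D] {w : D} (h1 : star w * w = 1) (h2 : w * star w = 1) :
    star (m2 w 0 0 (1 : D)) * m2 w 0 0 1 = 1 ∧ m2 w 0 0 (1 : D) * star (m2 w 0 0 1) = 1 := by
  constructor
  · rw [m2_star, m2_mul, m2_one]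
    refine m2_congr ?_ ?_ ?_ ?_ <;> simp [h1]
  · rw [m2_star, m2_mul, m2_one]
    refine m2_congr ?_ ?_ ?_ ?_ <;> simp [h2]

/-- The norm of a unitary. -/
theorem maint_un {D : Type} [CStarAlgebra D] {w : D} (h1 : star w * w = 1) : ‖w‖ ≤ 1 := by
  have h : ‖w‖ * ‖w‖ ≤ 1 := by
    rw [← CStarRing.norm_star_mul_self, h1]
    exact norm_one_le' _
  nlinarith [norm_nonneg w]

variable {Z : Type} [MetricSpace Z] [CompactSpace Z] [MeasurableSpace Z] [BorelSpace Z]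
  {μ : Measure Z} [IsProbabilityMeasure μ]
  {K : Type} [NormedAddCommGroup K] [InnerProductSpace ℂ K] [CompleteSpace K]
  (M : FModel C(Z, ℂ) (intL μ) K)
  {Z2 : Type} [MetricSpace Z2] [CompactSpace Z2] [MeasurableSpace Z2] [BorelSpace Z2]
  {ν : Measure Z2} [IsProbabilityMeasure ν] [ν.IsOpenPosMeasure] {I : Ix} {z0 : Z2}

/-- **Main theorem**, approximate form.

Proof. Given `F`, `ε` let `ε' = ε / 20`, `N`, `r` from `hc` for `F`, `ε'`. Let `f n` be dense in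
`C(Z2, ℂ)` and `C n l = {f n ∘ r k l | k ≤ N}` (finite, so compact). `U`, `w` from `hI` for `C`; then
`fam γ₁ (r k) f * U = U * fam γ₂ (r k) f` for `f = f n` and all `k ≤ N`, hence for all `f`. `E₁`, `E₂`
from `exists_D` for `(v₁, κ₁)`, `(v₂, κ₂)`, `U₀ = E₁ U E₂`. The homomorphisms
`a k = fam γ₁ (r k) ⊕ v₁ κ₁ v₁*`, `b k = fam γ₂ (r k) ⊕ v₂ κ₂ v₂*` (`osum`, `fam_mul_v`) satisfy
`a k f * U₀ = E₁ fam γ₁ (r k) f U E₂ = U₀ b k f`. `‖U₀‖ ≤ 1`; modulo the ideal `U₀ = U = w`, so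
`1 - U₀* U₀`, `1 - U₀ U₀*`, `w - U₀` are in the ideal. The cycle `w d₂ w*` (`Cyc` conjugated by `w`) is
equivalent to `d₂` (`eqv_conj`), hence to `d₁`; `exists_two` gives `T`, `G` for `w d₂ w*` and `d₁`,
and `q = G * m2 w 0 0 1` satisfies `‖q m2 (d₂.κ f) 0 0 (T.κ f) - m2 (d₁.κ f) 0 0 (T.κ f) q‖ ≤ ε'`,
`q - m2 U₀ 0 0 1` has entries in the ideal. Apply `mstar` (`J1.idl`, `absb` with `trH_osum` for `b 0`);
`b N = d₂.κ`, `a N = d₁.κ`. -/
theorem main_approx (γ₁ γ₂ : C(Z2, ℂ) →⋆ₐ[ℂ] M.PA) (h₂ : ∀ f, M.trP (γ₂ f) = intL ν f)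
    (hI : Itw M I γ₁ γ₂) (c : I.L → C(Z2, Z2))
    (hc : Chn z0 (fun _ : I.L => ContinuousMap.id Z2) c)
    (κ₁ κ₂ : C1 I M.trP Z2 z0) (v₁ v₂ : R1 I M.PA)
    (hv₁ : ∀ f, cst I M.PA (γ₁ f) * v₁ = f z0 • v₁)
    (hv₂ : ∀ f, cst I M.PA (γ₂ f) * v₂ = f z0 • v₂)
    (hw₁ : star v₁ * v₁ * (κ₁.ζ - 1) = κ₁.ζ - 1) (hw₂ : star v₂ * v₂ * (κ₂.ζ - 1) = κ₂.ζ - 1)
    (d₁ d₂ : C1 I M.trP Z2 z0)
    (hd₁ : ∀ f, d₁.κ f = fam I γ₁ c f + v₁ * κ₁.hat f * star v₁)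
    (hd₂ : ∀ f, d₂.κ f = fam I γ₂ c f + v₂ * κ₂.hat f * star v₂) (hE : Eqv d₁ d₂)
    (F : Finset C(Z2, ℂ)) (ε : ℝ) (hε : 0 < ε) :
    ∃ u : R1 I M.PA, star u * u = 1 ∧ u * star u = 1 ∧ ∀ f ∈ F,
      ‖u * (cst I M.PA (γ₂ f) + v₂ * κ₂.hat f * star v₂) -
        (cst I M.PA (γ₁ f) + v₁ * κ₁.hat f * star v₁) * u‖ ≤ ε := by
  obtain ⟨ε', hε'⟩ : ∃ ε' : ℝ, ε' = ε / 20 := ⟨_, rfl⟩
  have hε0 : 0 < ε' := by rw [hε']; positivity
  obtain ⟨N, r0, hN, hr0, hrN, hrz, hrs⟩ := hc F ε' hε0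
  -- the family, constant from `N` on
  obtain ⟨r, hr⟩ : ∃ r : ℕ → I.L → C(Z2, Z2), r = fun k => r0 (min k N) := ⟨_, rfl⟩
  have hrk : ∀ k ≤ N, r k = r0 k := fun k hk => by
    rw [hr]
    show r0 (min k N) = r0 k
    rw [min_eq_left hk]
  have hrz' : ∀ k, Eqz z0 z0 (r k) := fun k => by
    rw [hr]
    exact hrz _ (min_le_right _ _)
  -- the intertwiner
  have hne : Nonempty C(Z2, ℂ) := ⟨0⟩
  obtain ⟨fd, hfd⟩ := TopologicalSpace.exists_dense_seq C(Z2, ℂ)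
  obtain ⟨U, w, hU, hw1, hw2, hJ1, hJ2, hJ3, hint⟩ :=
    hI (fun n l => (fun k => (fd n).comp (r0 k l)) '' Set.Iic N)
      (fun n l => ((Set.finite_Iic N).image _).isCompact)
  have hTr := ptr_trP M
  have hJ : Idl (J1 I M.trP) := J1.idl hTr
  have hcom : ∀ k f, fam I γ₁ (r k) f * U = U * fam I γ₂ (r k) f := by
    intro k
    have hcl : IsClosed {f : C(Z2, ℂ) | fam I γ₁ (r k) f * U = U * fam I γ₂ (r k) f} := by
      have c1 : Continuous fun f => fam I γ₁ (r k) f := cmp_cont _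
      have c2 : Continuous fun f => fam I γ₂ (r k) f := cmp_cont _
      exact isClosed_eq (c1.mul continuous_const) (continuous_const.mul c2)
    have hsub : closure (Set.range fd) ⊆
        {f : C(Z2, ℂ) | fam I γ₁ (r k) f * U = U * fam I γ₂ (r k) f} := by
      refine closure_minimal ?_ hcl
      rintro _ ⟨n, rfl⟩
      show fam I γ₁ (r k) (fd n) * U = U * fam I γ₂ (r k) (fd n)
      rw [fam_apply, fam_apply]
      refine hint n (fun l => (fd n).comp (r k l)) ⟨‖fd n‖, fun l => ?_⟩ fun l => ?_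
      · rw [ContinuousMap.norm_le _ (norm_nonneg _)]
        intro x
        exact (fd n).norm_coe_le_norm _
      · refine ⟨min k N, Set.mem_Iic.2 (min_le_right k N), ?_⟩
        show (fd n).comp (r0 (min k N) l) = (fd n).comp (r k l)
        rw [hr]
    intro f
    exact hsub (by rw [hfd.closure_range]; exact Set.mem_univ f)
  -- the contractions
  obtain ⟨E₁, hE1, hE1J, hE1a, hE1b, hE1c⟩ := exists_D hJ v₁ κ₁ hw₁
  obtain ⟨E₂, hE2, hE2J, hE2a, hE2b, hE2c⟩ := exists_D hJ v₂ κ₂ hw₂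
  have A1 : ∀ k, Adp (fam I γ₁ (r k)) v₁ κ₁ := fun k =>
    ⟨fun f => fam_mul_v γ₁ v₁ hv₁ (r k) (hrz' k) f, hw₁⟩
  have A2 : ∀ k, Adp (fam I γ₂ (r k)) v₂ κ₂ := fun k =>
    ⟨fun f => fam_mul_v γ₂ v₂ hv₂ (r k) (hrz' k) f, hw₂⟩
  obtain ⟨U₀, hU₀⟩ : ∃ U₀, U₀ = E₁ * U * E₂ := ⟨_, rfl⟩
  have hUU : J1 I M.trP (U₀ - U) := by rw [hU₀]; exact maint_mid hJ hE1J hE2J
  have hnU : ‖U₀‖ ≤ 1 := by
    rw [hU₀]
    calc ‖E₁ * U * E₂‖ ≤ ‖E₁ * U‖ * ‖E₂‖ := norm_mul_le _ _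
      _ ≤ (‖E₁‖ * ‖U‖) * ‖E₂‖ := mul_le_mul_of_nonneg_right (norm_mul_le _ _) (norm_nonneg _)
      _ ≤ (1 * 1) * 1 := mul_le_mul (mul_le_mul hE1 hU (norm_nonneg _) zero_le_one) hE2
          (norm_nonneg _) (by norm_num)
      _ = 1 := by norm_num
  have hd1 : J1 I M.trP (1 - star U₀ * U₀) := maint_def hJ hUU hJ1
  have hd2 : J1 I M.trP (1 - U₀ * star U₀) := by
    have h1 : J1 I M.trP (star U₀ - star U) := by
      rw [← star_sub]
      exact hJ.star _ hUU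
    have := maint_def hJ (U := star U) (U₀ := star U₀) h1 (by rw [star_star]; exact hJ2)
    rwa [star_star] at this
  -- the conjugated cycle
  obtain ⟨d, hd⟩ := exists_csum hJ (Cyc.triv (J1 I M.trP) Z2 z0 hJ) w d₂ (one_mul w)
    (by rw [hw1, one_mul])
  have hdh : ∀ f, d.hat f = w * d₂.hat f * star w := by
    intro f
    rw [hd f, Cyc.triv_hat, zero_add]
  have hdk : ∀ f, d.κ f * w = w * d₂.κ f := by
    intro f
    rw [d.kappa_eq, d₂.kappa_eq, hdh, add_mul, mul_add, mul_assoc _ (star w), hw1, mul_one,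
      Algebra.commutes]
  have hEd : Eqv d d₁ := (eqv_conj hTr w hw1 hdh).symm.trans hE.symm
  obtain ⟨T, G, hG1, hG2, hGJ, hGi⟩ := exists_two hTr (rowyS M I) hEd F ε' hε0
  obtain ⟨m, hm⟩ : ∃ m, m = m2 w 0 0 (1 : R1 I M.PA) := ⟨_, rfl⟩
  have hm1 : star m * m = 1 := by rw [hm]; exact (maint_q hw1 hw2).1
  have hm2 : m * star m = 1 := by rw [hm]; exact (maint_q hw1 hw2).2
  obtain ⟨a, ha⟩ : ∃ a : ℕ → C(Z2, ℂ) →⋆ₐ[ℂ] R1 I M.PA,
      a = fun k => osum (fam I γ₁ (r k)) v₁ κ₁ (A1 k) := ⟨_, rfl⟩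
  obtain ⟨b, hb⟩ : ∃ b : ℕ → C(Z2, ℂ) →⋆ₐ[ℂ] R1 I M.PA,
      b = fun k => osum (fam I γ₂ (r k)) v₂ κ₂ (A2 k) := ⟨_, rfl⟩
  have hak : ∀ k f, a k f = fam I γ₁ (r k) f + v₁ * κ₁.hat f * star v₁ := by
    intro k f
    rw [ha]
    rfl
  have hbk : ∀ k f, b k f = fam I γ₂ (r k) f + v₂ * κ₂.hat f * star v₂ := by
    intro k f
    rw [hb]
    rfl
  have hr0' : r 0 = fun _ => ContinuousMap.id Z2 := (hrk 0 (Nat.zero_le N)).trans hr0
  have hrN' : r N = c := (hrk N le_rfl).trans hrN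
  have ha0 : ∀ f, a 0 f = cst I M.PA (γ₁ f) + v₁ * κ₁.hat f * star v₁ := by
    intro f
    rw [hak, hr0', fam_const]
  have hb0 : ∀ f, b 0 f = cst I M.PA (γ₂ f) + v₂ * κ₂.hat f * star v₂ := by
    intro f
    rw [hbk, hr0', fam_const]
  have haN : ∀ f, a N f = d₁.κ f := fun f => by rw [hak, hrN', hd₁]
  have hbN : ∀ f, b N f = d₂.κ f := fun f => by rw [hbk, hrN', hd₂]
  have hab : ∀ k ≤ N, ∀ f, a k f * U₀ = U₀ * b k f := by
    intro k _ f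
    rw [hak, hbk, hU₀]
    exact maint_int (hcom k f) (hE1c _ (A1 k).bv f) (hE2c _ (A2 k).bv f) (hE1b f) (hE2a f)
  have has : ∀ k < N, ∀ f ∈ F, ‖a k f - a (k + 1) f‖ ≤ ε' := by
    intro k hk f hf
    rw [hak, hak, add_sub_add_right_eq_sub, hrk k hk.le, hrk (k + 1) hk]
    exact fam_dist I γ₁ _ _ f ε' hε0.le (hrs k hk f hf)
  have hbs : ∀ k < N, ∀ f ∈ F, ‖b k f - b (k + 1) f‖ ≤ ε' := by
    intro k hk f hf
    rw [hbk, hbk, add_sub_add_right_eq_sub, hrk k hk.le, hrk (k + 1) hk]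
    exact fam_dist I γ₂ _ _ f ε' hε0.le (hrs k hk f hf)
  obtain ⟨u, hu1, hu2, hu⟩ := mstar hJ a b T.κ N hN (absb M I (b 0) (trH_osum M γ₂ h₂ (b 0) v₂ κ₂ hb0))
    U₀ hnU hd1 hd2 hab (G * m)
    (by
      rw [star_mul, mul_assoc, ← mul_assoc (star G), hG1, one_mul, hm1])
    (by
      rw [star_mul, mul_assoc, ← mul_assoc m, hm2, one_mul, hG2])
    (by
      intro i j
      have e : G * m - m2 U₀ 0 0 1 = (G - 1) * m + (m - m2 U₀ 0 0 1) := by noncomm_ring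
      have e2 : m - m2 U₀ 0 0 (1 : R1 I M.PA) = m2 (w - U₀) 0 0 0 := by
        rw [sub_eq_iff_eq_add, m2_add, hm]
        refine m2_congr ?_ ?_ ?_ ?_ <;> simp
      rw [e, e2, MM.e_add, MM.e_mul]
      refine hJ.add _ _ (hJ.sum _ _ fun k _ => hJ.mul_right _ _ (hGJ i k)) ?_
      have e3 : J1 I M.trP (w - U₀) := by
        have e4 : w - U₀ = (w - U) - (U₀ - U) := by abel
        rw [e4]
        exact maint_sub hJ hJ3 hUU
      unfold m2
      rw [MM.e_of]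
      fin_cases i <;> fin_cases j
      · exact e3
      · exact hJ.zero
      · exact hJ.zero
      · exact hJ.zero)
    F ε' hε0.le has hbs
    (by
      intro f hf
      rw [haN, hbN]
      have e : G * m * m2 (d₂.κ f) 0 0 (T.κ f) - m2 (d₁.κ f) 0 0 (T.κ f) * (G * m) =
          (G * m2 (d.κ f) 0 0 (T.κ f) - m2 (d₁.κ f) 0 0 (T.κ f) * G) * m := by
        have e1 : m * m2 (d₂.κ f) 0 0 (T.κ f) = m2 (d.κ f) 0 0 (T.κ f) * m := by
          rw [hm, m2_mul, m2_mul]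
          refine m2_congr ?_ ?_ ?_ ?_
          · rw [hdk]
          · simp
          · simp
          · simp
        rw [mul_assoc, e1]
        noncomm_ring
      rw [e]
      calc ‖(G * m2 (d.κ f) 0 0 (T.κ f) - m2 (d₁.κ f) 0 0 (T.κ f) * G) * m‖
          ≤ ‖G * m2 (d.κ f) 0 0 (T.κ f) - m2 (d₁.κ f) 0 0 (T.κ f) * G‖ * ‖m‖ := norm_mul_le _ _
        _ ≤ ε' * 1 := mul_le_mul (hGi f hf) (maint_un hm1) (norm_nonneg _) hε0.le
        _ = ε' := mul_one _)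
  refine ⟨u, hu1, hu2, fun f hf => ?_⟩
  have h := hu f hf
  rw [ha0, hb0] at h
  refine h.trans (le_of_eq ?_)
  rw [hε']
  ring

end H7c
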