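import Pool.Agent.H.MP_7b4a29_c.CycF

/-!
# Adding a cycle to a homomorphism or to a cycle
-/

open Filter Topology

namespace H7c

section abstract

variable {D : Type} [CStarAlgebra D] {J : D → Prop} {Y : Type} [TopologicalSpace Y]
  [CompactSpace Y] {y0 : Y}

/-- The element `v` is concentrated at `y0` for `b`, and is an isometry on the support of the
cycle `κ`. -/
structure Adp (b : C(Y, ℂ) →⋆ₐ[ℂ] D) (v : D) (κ : Cyc J Y y0) : Prop where
  bv : ∀ f, b f * v = f y0 • v
  vv : star v * v * (κ.ζ - 1) = κ.ζ - 1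

/-- `v* b f = f y0 • v*`: adjoints. -/
theorem Adp.vb {b : C(Y, ℂ) →⋆ₐ[ℂ] D} {v : D} {κ : Cyc J Y y0} (h : Adp b v κ) (f : C(Y, ℂ)) :
    star v * b f = f y0 • star v := by
  have h1 := congrArg star (h.bv (star f))
  rw [star_mul, star_smul, map_star, star_star, ContinuousMap.star_apply, star_star] at h1
  exact h1

theorem Adp.vvh {b : C(Y, ℂ) →⋆ₐ[ℂ] D} {v : D} {κ : Cyc J Y y0} (h : Adp b v κ) (f : C(Y, ℂ)) :
    star v * v * κ.hat f = κ.hat f ∧ κ.hat f * (star v * v) = κ.hat f := by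
  have hs : star (star v * v) = star v * v := by
    rw [star_mul, star_star]
  exact ⟨κ.mul_hat_of h.vv f, κ.hat_mul_of hs h.vv f⟩

theorem osum_mul (b : C(Y, ℂ) →⋆ₐ[ℂ] D) (v : D) (κ : Cyc J Y y0) (h : Adp b v κ)
    (f g : C(Y, ℂ)) : b (f * g) + v * κ.hat (f * g) * star v =
      (b f + v * κ.hat f * star v) * (b g + v * κ.hat g * star v) := by
  have e1 : b f * (v * κ.hat g * star v) = f y0 • (v * κ.hat g * star v) := by
    rw [mul_assoc v, ← mul_assoc (b f), h.bv, smul_mul_assoc]
  have e2 : v * κ.hat f * star v * b g = g y0 • (v * κ.hat f * star v) := by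
    rw [mul_assoc, h.vb, mul_smul_comm]
  have e3 : v * κ.hat f * star v * (v * κ.hat g * star v) =
      v * (κ.hat f * κ.hat g) * star v := by
    calc v * κ.hat f * star v * (v * κ.hat g * star v)
        = v * κ.hat f * (star v * v * κ.hat g) * star v := by simp only [mul_assoc]
      _ = v * (κ.hat f * κ.hat g) * star v := by
          rw [(h.vvh g).1]
          simp only [mul_assoc]
  rw [add_mul, mul_add, mul_add, e1, e2, e3, κ.hat_mul, map_mul, mul_add, mul_add, add_mul,
    add_mul, mul_smul_comm, mul_smul_comm, smul_mul_assoc, smul_mul_assoc]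
  abel

/-- The sum `f ↦ b f + v (κ f - f y0) v*`. -/
noncomputable def osum (b : C(Y, ℂ) →⋆ₐ[ℂ] D) (v : D) (κ : Cyc J Y y0) (h : Adp b v κ) :
    C(Y, ℂ) →⋆ₐ[ℂ] D where
  toFun f := b f + v * κ.hat f * star v
  map_one' := by
    rw [κ.hat_one, mul_zero, zero_mul, add_zero, map_one]
  map_mul' := by
    intro f g
    exact osum_mul b v κ h f g
  map_zero' := by
    have h0 := κ.hat_const 0
    rw [map_zero] at h0
    rw [h0, mul_zero, zero_mul, add_zero, map_zero]
  map_add' := by
    intro f g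
    rw [κ.hat_add, map_add, mul_add, add_mul]
    abel
  commutes' := by
    intro r
    rw [κ.hat_const, mul_zero, zero_mul, add_zero, AlgHomClass.commutes]
  map_star' := by
    intro f
    rw [κ.hat_star, map_star, star_add, star_mul, star_mul, star_star, mul_assoc]

theorem osum_apply (b : C(Y, ℂ) →⋆ₐ[ℂ] D) (v : D) (κ : Cyc J Y y0) (h : Adp b v κ)
    (f : C(Y, ℂ)) : osum b v κ h f = b f + v * κ.hat f * star v := rfl

theorem osum_hat_v (c : Cyc J Y y0) (v : D) (hc : c.ζ * v = v) (f : C(Y, ℂ)) :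
    c.hat f * v = 0 := by
  have h1 := congrArg (fun x => x * v) (c.hat_zeta_sub f)
  rw [mul_assoc, sub_mul, hc, one_mul, sub_self, mul_zero, smul_mul_assoc] at h1
  have h2 := h1.symm
  rw [smul_eq_zero] at h2
  rcases h2 with h2 | h2
  · norm_num at h2
  · exact h2

theorem osum_v_hat (c : Cyc J Y y0) (v : D) (hc : c.ζ * v = v) (f : C(Y, ℂ)) :
    star v * c.hat f = 0 := by
  have h1 := congrArg star (osum_hat_v c v hc (star f))
  rw [star_mul, c.hat_star, star_star, star_zero] at h1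
  exact h1

/-- the common `ζ` of the sum -/
theorem osum_zeta (hJ : Idl J) (c : Cyc J Y y0) (v : D) (κ : Cyc J Y y0) (hc : c.ζ * v = v)
    (hv : star v * v * (κ.ζ - 1) = κ.ζ - 1) :
    star (c.ζ * (1 + v * (κ.ζ - 1) * star v)) * (c.ζ * (1 + v * (κ.ζ - 1) * star v)) = 1 ∧
    (c.ζ * (1 + v * (κ.ζ - 1) * star v)) * star (c.ζ * (1 + v * (κ.ζ - 1) * star v)) = 1 ∧
    J (c.ζ * (1 + v * (κ.ζ - 1) * star v) - 1) ∧
    ∀ f, c.ζ * (1 + v * (κ.ζ - 1) * star v) * (c.hat f + v * κ.hat f * star v) =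
      -(c.hat f + v * κ.hat f * star v) := by
  have hs : star (star v * v) = star v * v := by
    rw [star_mul, star_star]
  have hv2 : (κ.ζ - 1) * (star v * v) = κ.ζ - 1 := κ.zeta_sub_mul_of hs hv
  have hst : star (1 + v * (κ.ζ - 1) * star v) = 1 + v * star (κ.ζ - 1) * star v := by
    rw [star_add, star_one, star_mul, star_mul, star_star, mul_assoc]
  refine ⟨?_, ?_, ?_, fun f => ?_⟩
  · have h1 : v * star (κ.ζ - 1) * star v * (v * (κ.ζ - 1) * star v) =
        v * (star (κ.ζ - 1) * (κ.ζ - 1)) * star v := by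
      calc v * star (κ.ζ - 1) * star v * (v * (κ.ζ - 1) * star v)
          = v * star (κ.ζ - 1) * (star v * v * (κ.ζ - 1)) * star v := by simp only [mul_assoc]
        _ = v * (star (κ.ζ - 1) * (κ.ζ - 1)) * star v := by
            rw [hv]
            simp only [mul_assoc]
    have h2 := congrArg (fun x => v * x * star v) κ.zeta_rel1
    rw [mul_zero, zero_mul, mul_add, mul_add, add_mul, add_mul] at h2
    rw [star_mul, mul_assoc, ← mul_assoc (star c.ζ), c.u1, one_mul, hst, add_mul, one_mul,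
      mul_add, mul_one, h1]
    calc 1 + v * (κ.ζ - 1) * star v + (v * star (κ.ζ - 1) * star v +
          v * (star (κ.ζ - 1) * (κ.ζ - 1)) * star v)
        = 1 + (v * star (κ.ζ - 1) * star v + v * (κ.ζ - 1) * star v +
          v * (star (κ.ζ - 1) * (κ.ζ - 1)) * star v) := by abel
      _ = 1 := by rw [h2, add_zero]
  · have h1 : v * (κ.ζ - 1) * star v * (v * star (κ.ζ - 1) * star v) =
        v * ((κ.ζ - 1) * star (κ.ζ - 1)) * star v := by
      calc v * (κ.ζ - 1) * star v * (v * star (κ.ζ - 1) * star v)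
          = v * ((κ.ζ - 1) * (star v * v)) * star (κ.ζ - 1) * star v := by simp only [mul_assoc]
        _ = v * ((κ.ζ - 1) * star (κ.ζ - 1)) * star v := by
            rw [hv2]
            simp only [mul_assoc]
    have h2 := congrArg (fun x => v * x * star v) κ.zeta_rel2
    rw [mul_zero, zero_mul, mul_add, mul_add, add_mul, add_mul] at h2
    have h3 : (1 + v * (κ.ζ - 1) * star v) * (1 + v * star (κ.ζ - 1) * star v) = 1 := by
      rw [add_mul, one_mul, mul_add, mul_one, h1]
      calc 1 + v * star (κ.ζ - 1) * star v + (v * (κ.ζ - 1) * star v +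
            v * ((κ.ζ - 1) * star (κ.ζ - 1)) * star v)
          = 1 + (v * star (κ.ζ - 1) * star v + v * (κ.ζ - 1) * star v +
            v * ((κ.ζ - 1) * star (κ.ζ - 1)) * star v) := by abel
        _ = 1 := by rw [h2, add_zero]
    rw [star_mul, hst, mul_assoc, ← mul_assoc (1 + v * (κ.ζ - 1) * star v), h3, one_mul, c.u2]
  · have h1 : c.ζ * (1 + v * (κ.ζ - 1) * star v) - 1 =
        (c.ζ - 1) + c.ζ * (v * (κ.ζ - 1) * star v) := by
      rw [mul_add, mul_one]
      abel
    rw [h1]
    exact hJ.add _ _ c.j (hJ.mul_left _ _ (hJ.mul_right _ _ (hJ.mul_left _ _ κ.j)))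
  · have h1 : (1 + v * (κ.ζ - 1) * star v) * c.hat f = c.hat f := by
      rw [add_mul, one_mul, mul_assoc, osum_v_hat c v hc f, mul_zero, add_zero]
    have h2 : (1 + v * (κ.ζ - 1) * star v) * (v * κ.hat f * star v) =
        -(v * κ.hat f * star v) := by
      have h3 : v * (κ.ζ - 1) * star v * (v * κ.hat f * star v) =
          v * ((κ.ζ - 1) * κ.hat f) * star v := by
        calc v * (κ.ζ - 1) * star v * (v * κ.hat f * star v)
            = v * ((κ.ζ - 1) * (star v * v)) * κ.hat f * star v := by simp only [mul_assoc]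
          _ = v * ((κ.ζ - 1) * κ.hat f) * star v := by
              rw [hv2]
              simp only [mul_assoc]
      rw [add_mul, one_mul, h3, κ.zeta_sub_hat, mul_smul_comm, smul_mul_assoc]
      rw [show (-2 : ℂ) = -1 + -1 by norm_num, add_smul, neg_one_smul]
      abel
    have h4 : c.ζ * (v * κ.hat f * star v) = v * κ.hat f * star v := by
      rw [mul_assoc v, ← mul_assoc c.ζ, hc]
    rw [mul_add, mul_assoc c.ζ, mul_assoc c.ζ, h1, h2, c.zeta_hat, mul_neg, h4]
    abel

/-- The sum of two cycles: if `c.ζ v = v` and `v* v (κ.ζ - 1) = κ.ζ - 1` then `c ⊕ v κ v*` is a cycle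
with `ζ = c.ζ (1 + v (κ.ζ - 1) v*)`.

Proof. `hat c f * v = -½ hat c f (c.ζ - 1) v = 0`, so `c.κ f * v = f y0 • v`. With `W = 1 + v (κ.ζ - 1) v*`,
a unitary: `W hat c f = hat c f` (as `v* hat c f = 0`), `c.ζ hat c f = -hat c f`,
`W v hat κ f v* = -v hat κ f v*` and `c.ζ v = v`. -/
theorem exists_csum (hJ : Idl J) (c : Cyc J Y y0) (v : D) (κ : Cyc J Y y0) (hc : c.ζ * v = v)
    (hv : star v * v * (κ.ζ - 1) = κ.ζ - 1) :
    ∃ d : Cyc J Y y0, ∀ f, d.hat f = c.hat f + v * κ.hat f * star v := by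
  obtain ⟨z1, z2, z3, z4⟩ := osum_zeta hJ c v κ hc hv
  refine ⟨Cyc.mk' (fun f => c.hat f + v * κ.hat f * star v)
    (c.ζ * (1 + v * (κ.ζ - 1) * star v)) z1 z2 z3 z4 ?_ ?_ ?_ ?_, ?_⟩
  · intro f g
    rw [c.hat_add, κ.hat_add, mul_add, add_mul]
    abel
  · intro f g
    have hs : star (star v * v) = star v * v := by
      rw [star_mul, star_star]
    have e0 : c.hat f * (v * κ.hat g * star v) = 0 := by
      rw [mul_assoc v, ← mul_assoc (c.hat f), osum_hat_v c v hc f, zero_mul]
    have e1 : v * κ.hat f * star v * c.hat g = 0 := by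
      rw [mul_assoc, osum_v_hat c v hc g, mul_zero]
    have e3 : v * κ.hat f * star v * (v * κ.hat g * star v) =
        v * (κ.hat f * κ.hat g) * star v := by
      calc v * κ.hat f * star v * (v * κ.hat g * star v)
          = v * κ.hat f * (star v * v * κ.hat g) * star v := by simp only [mul_assoc]
        _ = v * (κ.hat f * κ.hat g) * star v := by
            rw [κ.mul_hat_of hv g]
            simp only [mul_assoc]
    rw [add_mul, mul_add, mul_add, e0, e1, e3, c.hat_mul, κ.hat_mul, smul_add, smul_add, mul_add,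
      mul_add, add_mul, add_mul, mul_smul_comm, mul_smul_comm, smul_mul_assoc, smul_mul_assoc]
    abel
  · intro a
    rw [c.hat_const, κ.hat_const, mul_zero, zero_mul, add_zero]
  · intro f
    rw [c.hat_star, κ.hat_star, star_add, star_mul, star_mul, star_star, mul_assoc]
  · intro f
    exact add_sub_cancel_left _ _

/-- In the situation of `exists_csum`, `c.κ` and `v`, `κ` are as in `Adp`. -/
theorem adp_of_zeta (c : Cyc J Y y0) (v : D) (κ : Cyc J Y y0) (hc : c.ζ * v = v)
    (hv : star v * v * (κ.ζ - 1) = κ.ζ - 1) : Adp c.κ v κ := by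
  refine ⟨fun f => ?_, hv⟩
  rw [c.kappa_eq, add_mul, osum_hat_v c v hc f, add_zero, Algebra.smul_def]

end abstract

variable {I : Ix} {P : Type} [CStarAlgebra P] {τ : P →ₗ[ℂ] ℂ}
  {Y : Type} [TopologicalSpace Y] [CompactSpace Y] [T2Space Y] {y0 : Y}

/-- A path in the first summand; at the end the first summand is trivial.

Proof. `d` and the conjugate `v κ v*` of `κ` (a cycle: `exists_csum` for `Cyc.triv`, or `Cyc.mk'`) are the
ends of the path `s ↦ p.k s f + v (κ f)^ v*`, with the common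
`ζ = p.ζ (1 + v (κ.ζ - 1) v*)`, as in `exists_csum`; so `Rel2`. And `κ`, `v κ v*` are related by `Rel1`
with `S = Sz.one I`, `X = Row.ofElt 1`, `X' = Row.ofElt v` (`Row.gram_ofElt`: adapted since
`v* v (κ.ζ - 1) = κ.ζ - 1`). -/
theorem eqv_csum_null (hτ : PTr τ) (p : Pth (J1 I τ) Y y0) (v : R1 I P) (κ d : C1 I τ Y y0)
    (hp : p.ζ * v = v) (hv : star v * v * (κ.ζ - 1) = κ.ζ - 1)
    (h1 : ∀ f, p.k 1 f = algebraMap ℂ _ (f y0))
    (hd : ∀ f, d.κ f = p.k 0 f + v * κ.hat f * star v) : Eqv d κ := by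
  have hJ : Idl (J1 I τ) := J1.idl hτ
  have hA : ∀ s, Adp (p.k s) v κ := fun s => adp_of_zeta (p.at s) v κ hp hv
  obtain ⟨z1, z2, z3, -⟩ := osum_zeta hJ (p.at 0) v κ hp hv
  let q : Pth (J1 I τ) Y y0 :=
    { k := fun s => osum (p.k s) v κ (hA s)
      ζ := p.ζ * (1 + v * (κ.ζ - 1) * star v)
      u1 := z1
      u2 := z2
      j := z3
      sup := by
        intro s f
        have h4 := (osum_zeta hJ (p.at s) v κ hp hv).2.2.2 f
        have h5 : osum (p.k s) v κ (hA s) f - algebraMap ℂ (R1 I P) (f y0) =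
            (p.at s).hat f + v * κ.hat f * star v := by
          rw [osum_apply]
          exact add_sub_right_comm _ _ _
        rw [h5]
        exact h4
      cont := by
        intro f
        exact (p.cont f).add continuous_const }
  have e1 : Eqv d (q.at 1) := by
    refine Eqv.rel2 ⟨q, fun f => ?_, fun f => rfl⟩
    exact (hd f).symm
  refine e1.trans (Eqv.rel1 ⟨Sz.one I, lft κ, Row.ofElt v, Row.ofElt 1, ?_, ?_, fun f => ?_,
    fun f => ?_⟩)
  · unfold Row.Ad
    rw [Row.gram_ofElt, lft_zeta, ← map_one (unoR P), ← map_sub, ← map_mul, hv]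
  · unfold Row.Ad
    rw [Row.gram_ofElt, star_one, mul_one, map_one, one_mul]
  · rw [lft_hat, Row.sand_ofElt]
    change osum (p.k 1) v κ (hA 1) f - algebraMap ℂ (R1 I P) (f y0) = v * κ.hat f * star v
    rw [osum_apply, h1]
    exact add_sub_cancel_left _ _
  · rw [lft_hat, Row.sand_ofElt, star_one, mul_one, one_mul]

end H7c
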