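import Mathlib

/-!
# Bounded families modulo null families: the ring

`Ix` is an index set with a filter and a weight function that tends to infinity along the filter.
`SQ I A` is the quotient of the bounded families `(x l)`, `x l ∈ A l`, by the families with
`‖x l‖ → 0` along the filter.
-/

open Filter Topology

namespace H7c

/-- Index data: a filter with a weight tending to infinity along it. -/
structure Ix where
  L : Type
  F : Filter L
  ne : F.NeBot
  w : L → ℕ
  tw : Tendsto w F atTop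

instance (I : Ix) : I.F.NeBot := I.ne

variable (I : Ix) (A : I.L → Type) [∀ l, CStarAlgebra (A l)]

/-- Bounded families. -/
def Bd {L : Type} {A : L → Type} [∀ l, CStarAlgebra (A l)] (x : ∀ l, A l) : Prop :=
  ∃ C : ℝ, ∀ l, ‖x l‖ ≤ C

section bd

variable {L : Type} {A : L → Type} [∀ l, CStarAlgebra (A l)] {x y : ∀ l, A l}

theorem Bd.add (hx : Bd x) (hy : Bd y) : Bd (fun l => x l + y l) := by
  obtain ⟨C, hC⟩ := hx
  obtain ⟨D, hD⟩ := hy
  exact ⟨C + D, fun l => (norm_add_le _ _).trans (add_le_add (hC l) (hD l))⟩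

theorem Bd.sub (hx : Bd x) (hy : Bd y) : Bd (fun l => x l - y l) := by
  obtain ⟨C, hC⟩ := hx
  obtain ⟨D, hD⟩ := hy
  exact ⟨C + D, fun l => (norm_sub_le _ _).trans (add_le_add (hC l) (hD l))⟩

theorem Bd.mul (hx : Bd x) (hy : Bd y) : Bd (fun l => x l * y l) := by
  obtain ⟨C, hC⟩ := hx
  obtain ⟨D, hD⟩ := hy
  exact ⟨C * D, fun l => (norm_mul_le _ _).trans
    (mul_le_mul (hC l) (hD l) (norm_nonneg _) ((norm_nonneg _).trans (hC l)))⟩

theorem Bd.star (hx : Bd x) : Bd (fun l => Star.star (x l)) := by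
  obtain ⟨C, hC⟩ := hx
  exact ⟨C, fun l => by rw [norm_star]; exact hC l⟩

theorem Bd.smul (c : ℂ) (hx : Bd x) : Bd (fun l => c • x l) := by
  obtain ⟨C, hC⟩ := hx
  exact ⟨‖c‖ * C, fun l => (norm_smul_le _ _).trans
    (mul_le_mul_of_nonneg_left (hC l) (norm_nonneg _))⟩

theorem norm_one_le' (A : Type*) [CStarAlgebra A] : ‖(1 : A)‖ ≤ 1 := by
  nontriviality A
  exact le_of_eq CStarRing.norm_one

theorem Bd.one : Bd (fun l => (1 : A l)) := ⟨1, fun _ => norm_one_le' _⟩

theorem Bd.zero : Bd (fun l => (0 : A l)) := ⟨0, fun l => by simp⟩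

end bd

/-- The star algebra of bounded families. -/
def BF : StarSubalgebra ℂ (∀ l, A l) where
  carrier := {x | Bd x}
  mul_mem' hx hy := Bd.mul hx hy
  one_mem' := Bd.one
  add_mem' hx hy := Bd.add hx hy
  zero_mem' := Bd.zero
  algebraMap_mem' c := by
    have h := Bd.smul (A := A) c Bd.one
    have e : (fun l => c • (1 : A l)) = algebraMap ℂ (∀ l, A l) c := by
      funext l
      rw [Pi.algebraMap_apply, Algebra.algebraMap_eq_smul_one]
    rw [← e]
    exact h
  star_mem' hx := Bd.star hx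

theorem mem_BF {x : ∀ l, A l} : x ∈ BF I A ↔ Bd x := Iff.rfl

/-- Equality up to null families. -/
def nullCon : RingCon (BF I A) where
  r f g := Tendsto (fun l => ‖f.1 l - g.1 l‖) I.F (𝓝 0)
  iseqv := by
    refine ⟨fun f => by simp, fun {f g} h => ?_, fun {f g k} h1 h2 => ?_⟩
    · have e : (fun l => ‖g.1 l - f.1 l‖) = fun l => ‖f.1 l - g.1 l‖ := by
        funext l
        exact norm_sub_rev _ _
      rw [e]
      exact h
    · refine squeeze_zero (fun l => norm_nonneg _)
        (fun l => norm_sub_le_norm_sub_add_norm_sub (f.1 l) (g.1 l) (k.1 l)) ?_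
      have h3 := h1.add h2
      rwa [add_zero] at h3
  mul' := by
    intro f f' g g' h1 h2
    obtain ⟨C, hC⟩ := f'.2
    obtain ⟨D, hD⟩ := g.2
    have h3 : Tendsto (fun l => ‖f.1 l - f'.1 l‖ * D + C * ‖g.1 l - g'.1 l‖) I.F (𝓝 0) := by
      have h4 := (h1.mul_const D).add (h2.const_mul C)
      rwa [zero_mul, mul_zero, add_zero] at h4
    refine squeeze_zero (fun l => norm_nonneg _) (fun l => ?_) h3
    have e : (f * g).1 l - (f' * g').1 l =
        (f.1 l - f'.1 l) * g.1 l + f'.1 l * (g.1 l - g'.1 l) := by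
      change f.1 l * g.1 l - f'.1 l * g'.1 l = _
      noncomm_ring
    rw [e]
    refine (norm_add_le _ _).trans (add_le_add ?_ ?_)
    · exact (norm_mul_le _ _).trans (mul_le_mul_of_nonneg_left (hD l) (norm_nonneg _))
    · exact (norm_mul_le _ _).trans (mul_le_mul_of_nonneg_right (hC l) (norm_nonneg _))
  add' := by
    intro f f' g g' h1 h2
    refine squeeze_zero (fun l => norm_nonneg _) (fun l => ?_)
      (by have h3 := h1.add h2; rwa [add_zero] at h3)
    have e : (f + g).1 l - (f' + g').1 l = (f.1 l - f'.1 l) + (g.1 l - g'.1 l) := by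
      change (f.1 l + g.1 l) - (f'.1 l + g'.1 l) = _
      abel
    rw [e]
    exact norm_add_le _ _

/-- The quotient. -/
def SQ : Type := (nullCon I A).Quotient

end H7c
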