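import Pool.Agent.H.MP_7b4a29_c.SQ

/-!
# Homomorphisms between the algebras `SQ I A`
-/

open Filter Topology

namespace H7c

variable (I : Ix) {A B : I.L → Type} [∀ l, CStarAlgebra (A l)] [∀ l, CStarAlgebra (B l)]

theorem Bd.map {x : ∀ l, A l} (φ : ∀ l, A l →⋆ₐ[ℂ] B l) (hx : Bd x) :
    Bd (fun l => φ l (x l)) := by
  obtain ⟨C, hC⟩ := hx
  exact ⟨C, fun l => (NonUnitalStarAlgHom.norm_apply_le (φ l) (x l)).trans (hC l)⟩

/-- The class does not depend on the representative. -/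
theorem sqmap_cl (φ : ∀ l, A l →⋆ₐ[ℂ] B l) {x y : ∀ l, A l} (hx : Bd x) (hy : Bd y)
    (h : cl I x = cl I y) : cl I (fun l => φ l (x l)) = cl I (fun l => φ l (y l)) := by
  rw [cl_eq_iff I hx hy] at h
  rw [cl_eq_iff I (Bd.map I φ hx) (Bd.map I φ hy)]
  refine squeeze_zero (fun l => norm_nonneg _) (fun l => ?_) h
  rw [← map_sub]
  exact NonUnitalStarAlgHom.norm_apply_le (φ l) (x l - y l)

theorem sqmap_rep (φ : ∀ l, A l →⋆ₐ[ℂ] B l) {x : ∀ l, A l} (hx : Bd x) :
    cl I (fun l => φ l (SQ.rep I (cl I x) l)) = cl I (fun l => φ l (x l)) :=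
  sqmap_cl I φ (SQ.rep_bd I _) hx (SQ.cl_rep I _)

/-- A family of homomorphisms induces a homomorphism. All proofs: `cl_rep`, `cl_mul`, …, `map_cl`. -/
noncomputable def SQ.map (φ : ∀ l, A l →⋆ₐ[ℂ] B l) : SQ I A →⋆ₐ[ℂ] SQ I B where
  toFun a := cl I (fun l => φ l (SQ.rep I a l))
  map_one' := by
    have h := sqmap_rep I φ (x := fun l => (1 : A l)) Bd.one
    rw [cl_one] at h
    rw [h]
    simp only [map_one]
    exact cl_one I
  map_mul' := by
    intro a b
    have ha := SQ.rep_bd I a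
    have hb := SQ.rep_bd I b
    have h := sqmap_rep I φ (Bd.mul ha hb)
    rw [cl_mul I ha hb, SQ.cl_rep, SQ.cl_rep] at h
    rw [h, ← cl_mul I (Bd.map I φ ha) (Bd.map I φ hb)]
    simp only [map_mul]
  map_zero' := by
    have h := sqmap_rep I φ (x := fun l => (0 : A l)) Bd.zero
    rw [cl_zero] at h
    rw [h]
    simp only [map_zero]
    exact cl_zero I
  map_add' := by
    intro a b
    have ha := SQ.rep_bd I a
    have hb := SQ.rep_bd I b
    have h := sqmap_rep I φ (Bd.add ha hb)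
    rw [cl_add I ha hb, SQ.cl_rep, SQ.cl_rep] at h
    rw [h, ← cl_add I (Bd.map I φ ha) (Bd.map I φ hb)]
    simp only [map_add]
  commutes' := by
    intro c
    have hc : Bd (fun l => algebraMap ℂ (A l) c) := by
      have h1 : (fun l => algebraMap ℂ (A l) c) = fun l => c • (1 : A l) := by
        funext l
        exact Algebra.algebraMap_eq_smul_one c
      rw [h1]
      exact Bd.smul c Bd.one
    have h := sqmap_rep I φ hc
    rw [cl_algebraMap] at h
    rw [h]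
    simp only [AlgHomClass.commutes]
    exact cl_algebraMap I c
  map_star' := by
    intro a
    have ha := SQ.rep_bd I a
    have h := sqmap_rep I φ (Bd.star ha)
    rw [cl_star I ha, SQ.cl_rep] at h
    change cl I (fun l => φ l (SQ.rep I (star a) l)) = star (cl I (fun l => φ l (SQ.rep I a l)))
    rw [h, ← cl_star I (Bd.map I φ ha)]
    simp only [map_star]

theorem SQ.map_cl (φ : ∀ l, A l →⋆ₐ[ℂ] B l) {x : ∀ l, A l} (hx : Bd x) :
    SQ.map I φ (cl I x) = cl I (fun l => φ l (x l)) :=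
  sqmap_rep I φ hx

theorem SQ.map_id (a : SQ I A) : SQ.map I (fun l => StarAlgHom.id ℂ (A l)) a = a := by
  change cl I (fun l => StarAlgHom.id ℂ (A l) (SQ.rep I a l)) = a
  exact SQ.cl_rep I a

theorem SQ.map_comp {C : I.L → Type} [∀ l, CStarAlgebra (C l)] (φ : ∀ l, A l →⋆ₐ[ℂ] B l)
    (ψ : ∀ l, B l →⋆ₐ[ℂ] C l) (a : SQ I A) :
    SQ.map I ψ (SQ.map I φ a) = SQ.map I (fun l => (ψ l).comp (φ l)) a := by
  have h : SQ.map I φ a = cl I (fun l => φ l (SQ.rep I a l)) := rfl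
  rw [h, SQ.map_cl I ψ (Bd.map I φ (SQ.rep_bd I a))]
  rfl

theorem sqmap_lbd {x : ∀ l, A l} (φ : ∀ l, A l →ₗ[ℂ] B l) {C : ℝ}
    (hφ : ∀ l x, ‖φ l x‖ ≤ C * ‖x‖) (hx : Bd x) : Bd (fun l => φ l (x l)) := by
  obtain ⟨D, hD⟩ := hx
  refine ⟨|C| * D, fun l => (hφ l (x l)).trans ?_⟩
  exact (mul_le_mul_of_nonneg_right (le_abs_self C) (norm_nonneg _)).trans
    (mul_le_mul_of_nonneg_left (hD l) (abs_nonneg C))

theorem sqmap_lcl (φ : ∀ l, A l →ₗ[ℂ] B l) {C : ℝ} (hφ : ∀ l x, ‖φ l x‖ ≤ C * ‖x‖)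
    {x y : ∀ l, A l} (hx : Bd x) (hy : Bd y)
    (h : cl I x = cl I y) : cl I (fun l => φ l (x l)) = cl I (fun l => φ l (y l)) := by
  rw [cl_eq_iff I hx hy] at h
  rw [cl_eq_iff I (sqmap_lbd I φ hφ hx) (sqmap_lbd I φ hφ hy)]
  have h2 := h.const_mul C
  rw [mul_zero] at h2
  refine squeeze_zero (fun l => norm_nonneg _) (fun l => ?_) h2
  rw [← map_sub]
  exact hφ l (x l - y l)

theorem sqmap_lrep (φ : ∀ l, A l →ₗ[ℂ] B l) {C : ℝ} (hφ : ∀ l x, ‖φ l x‖ ≤ C * ‖x‖)
    {x : ∀ l, A l} (hx : Bd x) :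
    cl I (fun l => φ l (SQ.rep I (cl I x) l)) = cl I (fun l => φ l (x l)) :=
  sqmap_lcl I φ hφ (SQ.rep_bd I _) hx (SQ.cl_rep I _)

/-- A uniformly bounded family of linear maps induces a linear map. -/
noncomputable def SQ.lmap (φ : ∀ l, A l →ₗ[ℂ] B l) (C : ℝ)
    (hφ : ∀ l x, ‖φ l x‖ ≤ C * ‖x‖) : SQ I A →ₗ[ℂ] SQ I B where
  toFun a := cl I (fun l => φ l (SQ.rep I a l))
  map_add' := by
    intro a b
    have ha := SQ.rep_bd I a
    have hb := SQ.rep_bd I b
    have h := sqmap_lrep I φ hφ (Bd.add ha hb)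
    rw [cl_add I ha hb, SQ.cl_rep, SQ.cl_rep] at h
    rw [h, ← cl_add I (sqmap_lbd I φ hφ ha) (sqmap_lbd I φ hφ hb)]
    simp only [map_add]
  map_smul' := by
    intro c a
    have ha := SQ.rep_bd I a
    have h := sqmap_lrep I φ hφ (Bd.smul c ha)
    rw [cl_smul I c ha, SQ.cl_rep] at h
    rw [h, RingHom.id_apply, ← cl_smul I c (sqmap_lbd I φ hφ ha)]
    simp only [map_smul]

theorem SQ.lmap_cl (φ : ∀ l, A l →ₗ[ℂ] B l) (C : ℝ) (hφ : ∀ l x, ‖φ l x‖ ≤ C * ‖x‖)
    {x : ∀ l, A l} (hx : Bd x) : SQ.lmap I φ C hφ (cl I x) = cl I (fun l => φ l (x l)) :=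
  sqmap_lrep I φ hφ hx

theorem SQ.norm_lmap_le (φ : ∀ l, A l →ₗ[ℂ] B l) (C : ℝ) (hφ : ∀ l x, ‖φ l x‖ ≤ C * ‖x‖)
    (hC : 0 ≤ C) (a : SQ I A) : ‖SQ.lmap I φ C hφ a‖ ≤ C * ‖a‖ := by
  have ha := SQ.rep_bd I a
  refine le_of_forall_pos_le_add fun ε hε => ?_
  have hC1 : 0 < C + 1 := by linarith
  have hδ : 0 < ε / (C + 1) := div_pos hε hC1
  have h2 : C * (ε / (C + 1)) ≤ ε := by
    calc C * (ε / (C + 1)) ≤ (C + 1) * (ε / (C + 1)) :=
          mul_le_mul_of_nonneg_right (by linarith) hδ.le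
      _ = ε := by field_simp
  have hlt : ‖cl I (SQ.rep I a)‖ < ‖a‖ + ε / (C + 1) := by
    rw [SQ.cl_rep]
    linarith
  have hev := eventually_norm_lt I ha hlt
  refine norm_cl_le I (by positivity) (sqmap_lbd I φ hφ ha) ?_
  filter_upwards [hev] with l hl
  have h3 := mul_le_mul_of_nonneg_left hl.le hC
  rw [mul_add] at h3
  exact (hφ l _).trans (by linarith)

theorem Bd.const (P : Type) [CStarAlgebra P] {L : Type} (a : P) : Bd (fun _ : L => a) :=
  ⟨‖a‖, fun _ => le_rfl⟩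

/-- Constant families. -/
noncomputable def cst (P : Type) [CStarAlgebra P] : P →⋆ₐ[ℂ] SQ I (fun _ => P) where
  toFun a := cl I (fun _ => a)
  map_one' := cl_one I
  map_mul' := by
    intro a b
    exact cl_mul I (Bd.const P a) (Bd.const P b)
  map_zero' := cl_zero I
  map_add' := by
    intro a b
    exact cl_add I (Bd.const P a) (Bd.const P b)
  commutes' := by
    intro c
    exact cl_algebraMap I c
  map_star' := by
    intro a
    exact cl_star I (Bd.const P a)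

theorem cst_apply (P : Type) [CStarAlgebra P] (a : P) :
    cst I P a = cl I (fun _ => a) := rfl

theorem norm_cst (P : Type) [CStarAlgebra P] (a : P) : ‖cst I P a‖ = ‖a‖ := by
  rw [cst_apply]
  refine le_antisymm (norm_cl_le I (norm_nonneg a) (Bd.const P a)
    (Filter.Eventually.of_forall fun _ => le_rfl)) ?_
  by_contra hlt
  rw [not_le] at hlt
  have h := eventually_norm_lt I (Bd.const P a) hlt
  obtain ⟨l, hl⟩ := h.exists
  exact lt_irrefl _ hl

/-- Change of the index set. -/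
structure IxHom (I I' : Ix) where
  f : I'.L → I.L
  t : Tendsto f I'.F I.F
  w : ∀ᶠ l in I'.F, I'.w l ≤ I.w (f l)

variable {I} {I' : Ix}

theorem Bd.re {x : ∀ l, A l} (φ : IxHom I I') (hx : Bd x) : Bd (fun l => x (φ.f l)) := by
  obtain ⟨C, hC⟩ := hx
  exact ⟨C, fun l => hC _⟩

theorem sqmap_re (φ : IxHom I I') {x : ∀ l, A l} (hx : Bd x) :
    cl I' (fun l => SQ.rep I (cl I x) (φ.f l)) = cl I' (fun l => x (φ.f l)) := by
  have hr := SQ.rep_bd I (cl I x)
  have h := (cl_eq_iff I hr hx).1 (SQ.cl_rep I (cl I x))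
  rw [cl_eq_iff I' (Bd.re φ hr) (Bd.re φ hx)]
  exact h.comp φ.t

/-- Reindexing. -/
noncomputable def SQ.re (φ : IxHom I I') : SQ I A →⋆ₐ[ℂ] SQ I' (fun l => A (φ.f l)) where
  toFun a := cl I' (fun l => SQ.rep I a (φ.f l))
  map_one' := by
    have h := sqmap_re φ (x := fun l => (1 : A l)) Bd.one
    rw [cl_one] at h
    rw [h]
    exact cl_one I'
  map_mul' := by
    intro a b
    have ha := SQ.rep_bd I a
    have hb := SQ.rep_bd I b
    have h := sqmap_re φ (Bd.mul ha hb)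
    rw [cl_mul I ha hb, SQ.cl_rep, SQ.cl_rep] at h
    rw [h]
    exact cl_mul I' (Bd.re φ ha) (Bd.re φ hb)
  map_zero' := by
    have h := sqmap_re φ (x := fun l => (0 : A l)) Bd.zero
    rw [cl_zero] at h
    rw [h]
    exact cl_zero I'
  map_add' := by
    intro a b
    have ha := SQ.rep_bd I a
    have hb := SQ.rep_bd I b
    have h := sqmap_re φ (Bd.add ha hb)
    rw [cl_add I ha hb, SQ.cl_rep, SQ.cl_rep] at h
    rw [h]
    exact cl_add I' (Bd.re φ ha) (Bd.re φ hb)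
  commutes' := by
    intro c
    have hc : Bd (fun l => algebraMap ℂ (A l) c) := by
      have h1 : (fun l => algebraMap ℂ (A l) c) = fun l => c • (1 : A l) := by
        funext l
        exact Algebra.algebraMap_eq_smul_one c
      rw [h1]
      exact Bd.smul c Bd.one
    have h := sqmap_re φ hc
    rw [cl_algebraMap] at h
    rw [h]
    exact cl_algebraMap I' c
  map_star' := by
    intro a
    have ha := SQ.rep_bd I a
    have h := sqmap_re φ (Bd.star ha)
    rw [cl_star I ha, SQ.cl_rep] at h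
    change cl I' (fun l => SQ.rep I (star a) (φ.f l)) =
      star (cl I' (fun l => SQ.rep I a (φ.f l)))
    rw [h]
    exact cl_star I' (Bd.re φ ha)

theorem SQ.re_cl (φ : IxHom I I') {x : ∀ l, A l} (hx : Bd x) :
    SQ.re φ (cl I x) = cl I' (fun l => x (φ.f l)) :=
  sqmap_re φ hx

end H7c
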