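import Pool.Agent.H.MP_7b4a29_c.GeoN

/-!
# The three-sphere: parametrization
-/

open Filter Topology MeasureTheory

namespace H7c

/-- The four-dimensional Euclidean space. -/
abbrev E4 : Type := EuclideanSpace ℝ (Fin 4)

/-- The three-sphere. -/
abbrev S3 : Type := Metric.sphere (0 : E4) 1

/-- The normalized surface measure of the three-sphere. -/
noncomputable def sig3 : Measure S3 :=
  ((volume : Measure E4).toSphere Set.univ)⁻¹ • (volume : Measure E4).toSphere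

instance sig3_prob : IsProbabilityMeasure sig3 := by
  have : NeZero ((volume : Measure E4).toSphere) := ⟨Measure.toSphere_ne_zero _⟩
  unfold sig3
  infer_instance

instance sig3_pos : sig3.IsOpenPosMeasure := by
  unfold sig3
  exact Measure.isOpenPosMeasure_smul _ (ENNReal.inv_ne_zero.2 (measure_ne_top _ _))

/-- The real part of the point of the unit circle. -/
noncomputable def cC : C(UnitAddCircle, ℝ) :=
  ⟨fun x => (fourier 1 x : ℂ).re, by fun_prop⟩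

/-- The imaginary part. -/
noncomputable def sC : C(UnitAddCircle, ℝ) :=
  ⟨fun x => (fourier 1 x : ℂ).im, by fun_prop⟩

theorem spha_norm (x : UnitAddCircle) : ‖(fourier 1 x : ℂ)‖ = 1 := by
  rw [fourier_apply]
  exact Circle.norm_coe _

theorem spha_coe (t : ℝ) : (fourier 1 (t : UnitAddCircle) : ℂ) =
    Complex.exp (((2 * Real.pi * t : ℝ) : ℂ) * Complex.I) := by
  rw [fourier_coe_apply]
  congr 1
  push_cast
  ring

theorem cs_sq (x : UnitAddCircle) : cC x ^ 2 + sC x ^ 2 = 1 := by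
  have h := spha_norm x
  have h1 : ‖(fourier 1 x : ℂ)‖ ^ 2 = 1 := by rw [h, one_pow]
  rw [← Complex.normSq_eq_norm_sq, Complex.normSq_apply] at h1
  show (fourier 1 x : ℂ).re ^ 2 + (fourier 1 x : ℂ).im ^ 2 = 1
  refine Eq.trans ?_ h1
  ring

theorem cs_inj {x y : UnitAddCircle} (h : cC x = cC y) (h' : sC x = sC y) : x = y := by
  have h1 : (fourier 1 x : ℂ) = fourier 1 y := Complex.ext h h'
  rw [fourier_one, fourier_one] at h1
  exact AddCircle.injective_toCircle one_ne_zero (Circle.ext h1)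

theorem cs_surj (a b : ℝ) (h : a ^ 2 + b ^ 2 = 1) : ∃ x, cC x = a ∧ sC x = b := by
  have h1 : ‖(⟨a, b⟩ : ℂ)‖ = 1 := by
    have h2 : ‖(⟨a, b⟩ : ℂ)‖ ^ 2 = 1 := by
      rw [← Complex.normSq_eq_norm_sq, Complex.normSq_apply, ← h]
      ring
    nlinarith [norm_nonneg (⟨a, b⟩ : ℂ)]
  have h3 : (fourier 1 (((Complex.arg ⟨a, b⟩ / (2 * Real.pi) : ℝ)) : UnitAddCircle) : ℂ) =
      ⟨a, b⟩ := by
    rw [spha_coe]
    have h4 : 2 * Real.pi * (Complex.arg ⟨a, b⟩ / (2 * Real.pi)) = Complex.arg ⟨a, b⟩ := by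
      field_simp
    rw [h4]
    have h5 := Complex.norm_mul_exp_arg_mul_I (⟨a, b⟩ : ℂ)
    rw [h1, Complex.ofReal_one, one_mul] at h5
    exact h5
  exact ⟨_, congrArg Complex.re h3, congrArg Complex.im h3⟩

theorem cs_hsh (x : UnitAddCircle) : cC (hsh x) = -cC x ∧ sC (hsh x) = -sC x := by
  have h1 : (fourier 1 (hsh x) : ℂ) = -fourier 1 x := by
    have h2 := fourier_add_half_inv_index (T := 1) (n := 1) one_ne_zero one_pos x
    have h3 : ((1 : ℝ) / 2 / ((1 : ℤ) : ℝ)) = 1 / 2 := by norm_num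
    rw [h3] at h2
    exact h2
  exact ⟨congrArg Complex.re h1, congrArg Complex.im h1⟩

theorem cs_coe (t : ℝ) : cC (t : UnitAddCircle) = Real.cos (2 * Real.pi * t) ∧
    sC (t : UnitAddCircle) = Real.sin (2 * Real.pi * t) := by
  have h := spha_coe t
  have h1 := congrArg Complex.re h
  have h2 := congrArg Complex.im h
  rw [Complex.exp_ofReal_mul_I_re] at h1
  rw [Complex.exp_ofReal_mul_I_im] at h2
  exact ⟨h1, h2⟩

/-- The coordinates of the parametrization. -/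
noncomputable def qv (ρ : ℝ) (x y : UnitAddCircle) : E4 :=
  WithLp.toLp 2 ![√ρ * cC x, √ρ * sC x, √(1 - ρ) * cC y, √(1 - ρ) * sC y]

theorem spha_norm_sq (v : E4) : ‖v‖ ^ 2 = v 0 ^ 2 + v 1 ^ 2 + v 2 ^ 2 + v 3 ^ 2 := by
  rw [EuclideanSpace.real_norm_sq_eq, Fin.sum_univ_four]

theorem qv_norm (ρ : unitInterval) (x y : UnitAddCircle) : ‖qv ρ x y‖ = 1 := by
  have h1 : ‖qv ρ x y‖ ^ 2 = 1 := by
    rw [spha_norm_sq]
    show (√(ρ : ℝ) * cC x) ^ 2 + (√(ρ : ℝ) * sC x) ^ 2 + (√(1 - (ρ : ℝ)) * cC y) ^ 2 +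
      (√(1 - (ρ : ℝ)) * sC y) ^ 2 = 1
    have h2 := Real.sq_sqrt ρ.2.1
    have h3 := Real.sq_sqrt (show 0 ≤ 1 - (ρ : ℝ) by linarith [ρ.2.2])
    have h4 := cs_sq x
    have h5 := cs_sq y
    rw [mul_pow, mul_pow, mul_pow, mul_pow, h2, h3]
    linear_combination (ρ : ℝ) * h4 + (1 - (ρ : ℝ)) * h5
  nlinarith [norm_nonneg (qv ρ x y)]

theorem qv_continuous : Continuous fun p : unitInterval × (UnitAddCircle × UnitAddCircle) =>
    qv p.1 p.2.1 p.2.2 := by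
  refine (PiLp.continuous_toLp 2 _).comp (continuous_pi fun i => ?_)
  have c1 : Continuous fun p : unitInterval × (UnitAddCircle × UnitAddCircle) => cC p.2.1 :=
    cC.continuous.comp (continuous_fst.comp continuous_snd)
  have c2 : Continuous fun p : unitInterval × (UnitAddCircle × UnitAddCircle) => sC p.2.1 :=
    sC.continuous.comp (continuous_fst.comp continuous_snd)
  have c3 : Continuous fun p : unitInterval × (UnitAddCircle × UnitAddCircle) => cC p.2.2 :=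
    cC.continuous.comp (continuous_snd.comp continuous_snd)
  have c4 : Continuous fun p : unitInterval × (UnitAddCircle × UnitAddCircle) => sC p.2.2 :=
    sC.continuous.comp (continuous_snd.comp continuous_snd)
  have c5 : Continuous fun p : unitInterval × (UnitAddCircle × UnitAddCircle) => √(p.1 : ℝ) :=
    Real.continuous_sqrt.comp (continuous_subtype_val.comp continuous_fst)
  have c6 : Continuous fun p : unitInterval × (UnitAddCircle × UnitAddCircle) =>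
      √(1 - (p.1 : ℝ)) :=
    Real.continuous_sqrt.comp (continuous_const.sub (continuous_subtype_val.comp continuous_fst))
  fin_cases i
  · exact c5.mul c1
  · exact c5.mul c2
  · exact c6.mul c3
  · exact c6.mul c4

/-- The parametrization `(ρ, x, y) ↦ (√ρ e^{2πix}, √(1 - ρ) e^{2πiy})`. -/
noncomputable def qS : C(unitInterval × (UnitAddCircle × UnitAddCircle), S3) :=
  ⟨fun p => ⟨qv p.1 p.2.1 p.2.2, mem_sphere_zero_iff_norm.2 (qv_norm p.1 p.2.1 p.2.2)⟩,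
    qv_continuous.subtype_mk (fun p => mem_sphere_zero_iff_norm.2 (qv_norm p.1 p.2.1 p.2.2))⟩

theorem qS_coe (ρ : unitInterval) (x y : UnitAddCircle) :
    ((qS (ρ, (x, y)) : S3) : E4) = qv ρ x y := rfl

theorem qv_zero (ρ : ℝ) (x y : UnitAddCircle) : qv ρ x y 0 = √ρ * cC x := rfl

theorem qv_one (ρ : ℝ) (x y : UnitAddCircle) : qv ρ x y 1 = √ρ * sC x := rfl

theorem qv_two (ρ : ℝ) (x y : UnitAddCircle) : qv ρ x y 2 = √(1 - ρ) * cC y := rfl

theorem qv_three (ρ : ℝ) (x y : UnitAddCircle) : qv ρ x y 3 = √(1 - ρ) * sC y := rfl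

theorem spha_pair (r a b : ℝ) (hr : 0 ≤ r) (h : a ^ 2 + b ^ 2 = r) :
    ∃ x, √r * cC x = a ∧ √r * sC x = b := by
  rcases hr.eq_or_lt with h0 | h0
  · subst h0
    have ha : a = 0 := by nlinarith [sq_nonneg a, sq_nonneg b]
    have hb : b = 0 := by nlinarith [sq_nonneg a, sq_nonneg b]
    refine ⟨0, ?_, ?_⟩
    · rw [Real.sqrt_zero, zero_mul, ha]
    · rw [Real.sqrt_zero, zero_mul, hb]
  · have hs : 0 < √r := Real.sqrt_pos.2 h0
    obtain ⟨x, hx, hy⟩ := cs_surj (a / √r) (b / √r) (by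
      rw [div_pow, div_pow, Real.sq_sqrt hr, ← add_div, h, div_self h0.ne'])
    refine ⟨x, ?_, ?_⟩
    · rw [hx]
      field_simp
    · rw [hy]
      field_simp

theorem spha_ext {v w : E4} (h0 : v 0 = w 0) (h1 : v 1 = w 1) (h2 : v 2 = w 2)
    (h3 : v 3 = w 3) : v = w := by
  ext i
  fin_cases i
  · exact h0
  · exact h1
  · exact h2
  · exact h3

theorem qS_surj : Function.Surjective qS := by
  rintro ⟨v, hv⟩
  have h1 : ‖v‖ ^ 2 = 1 := by rw [mem_sphere_zero_iff_norm.1 hv, one_pow]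
  rw [spha_norm_sq] at h1
  have h2 : v 0 ^ 2 + v 1 ^ 2 ∈ Set.Icc (0 : ℝ) 1 :=
    ⟨by positivity, by nlinarith [sq_nonneg (v 2), sq_nonneg (v 3)]⟩
  obtain ⟨x, hx1, hx2⟩ := spha_pair (v 0 ^ 2 + v 1 ^ 2) (v 0) (v 1) h2.1 rfl
  obtain ⟨y, hy1, hy2⟩ := spha_pair (1 - (v 0 ^ 2 + v 1 ^ 2)) (v 2) (v 3)
    (by linarith [h2.2]) (by linarith)
  refine ⟨(⟨v 0 ^ 2 + v 1 ^ 2, h2⟩, (x, y)), Subtype.ext ?_⟩
  exact spha_ext hx1 hx2 hy1 hy2

theorem qS_inj {ρ ρ' : unitInterval} {x y x' y' : UnitAddCircle}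
    (h : qS (ρ, (x, y)) = qS (ρ', (x', y'))) :
    ρ = ρ' ∧ (ρ ≠ 0 → x = x') ∧ (ρ ≠ 1 → y = y') := by
  have hv : qv ρ x y = qv ρ' x' y' := congrArg Subtype.val h
  have e0 : √(ρ : ℝ) * cC x = √(ρ' : ℝ) * cC x' := congrArg (fun v : E4 => v 0) hv
  have e1 : √(ρ : ℝ) * sC x = √(ρ' : ℝ) * sC x' := congrArg (fun v : E4 => v 1) hv
  have e2 : √(1 - (ρ : ℝ)) * cC y = √(1 - (ρ' : ℝ)) * cC y' := congrArg (fun v : E4 => v 2) hv
  have e3 : √(1 - (ρ : ℝ)) * sC y = √(1 - (ρ' : ℝ)) * sC y' := congrArg (fun v : E4 => v 3) hv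
  have hr : (ρ : ℝ) = ρ' := by
    have k1 := Real.sq_sqrt ρ.2.1
    have k2 := Real.sq_sqrt ρ'.2.1
    have k3 := cs_sq x
    have k4 := cs_sq x'
    have k5 : (√(ρ : ℝ) * cC x) ^ 2 + (√(ρ : ℝ) * sC x) ^ 2 = ρ := by
      rw [mul_pow, mul_pow, k1]
      linear_combination (ρ : ℝ) * k3
    have k6 : (√(ρ' : ℝ) * cC x') ^ 2 + (√(ρ' : ℝ) * sC x') ^ 2 = ρ' := by
      rw [mul_pow, mul_pow, k2]
      linear_combination (ρ' : ℝ) * k4
    rw [← k5, ← k6, e0, e1]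
  have hr' : ρ = ρ' := Subtype.ext hr
  subst hr'
  refine ⟨rfl, fun h0 => ?_, fun h1 => ?_⟩
  · have hp : 0 < (ρ : ℝ) := lt_of_le_of_ne ρ.2.1 fun h2 => h0 (Subtype.ext h2.symm)
    have hs : √(ρ : ℝ) ≠ 0 := (Real.sqrt_pos.2 hp).ne'
    exact cs_inj (mul_left_cancel₀ hs e0) (mul_left_cancel₀ hs e1)
  · have hp : (ρ : ℝ) < 1 := lt_of_le_of_ne ρ.2.2 fun h2 => h1 (Subtype.ext h2)
    have hs : √(1 - (ρ : ℝ)) ≠ 0 := (Real.sqrt_pos.2 (by linarith)).ne'
    exact cs_inj (mul_left_cancel₀ hs e2) (mul_left_cancel₀ hs e3)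

/-- The antipodal map. -/
theorem qS_neg (ρ : unitInterval) (x y : UnitAddCircle) :
    -qS (ρ, (x, y)) = qS (ρ, (hsh x, hsh y)) := by
  obtain ⟨h1, h2⟩ := cs_hsh x
  obtain ⟨h3, h4⟩ := cs_hsh y
  refine Subtype.ext (spha_ext ?_ ?_ ?_ ?_)
  · show -(√(ρ : ℝ) * cC x) = √(ρ : ℝ) * cC (hsh x)
    rw [h1, mul_neg]
  · show -(√(ρ : ℝ) * sC x) = √(ρ : ℝ) * sC (hsh x)
    rw [h2, mul_neg]
  · show -(√(1 - (ρ : ℝ)) * cC y) = √(1 - (ρ : ℝ)) * cC (hsh y)
    rw [h3, mul_neg]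
  · show -(√(1 - (ρ : ℝ)) * sC y) = √(1 - (ρ : ℝ)) * sC (hsh y)
    rw [h4, mul_neg]

/-- The middle of the interval. -/
noncomputable def hlf : unitInterval := ⟨1 / 2, by norm_num, by norm_num⟩

/-- The base point `(1, 0, 1, 0) / √2`. -/
noncomputable def a0 : S3 := qS (hlf, ((0 : UnitAddCircle), (0 : UnitAddCircle)))

theorem a0_coord : (a0 : E4) 0 = √(1 / 2) ∧ (a0 : E4) 1 = 0 ∧ (a0 : E4) 2 = √(1 / 2) ∧
    (a0 : E4) 3 = 0 := by
  have h1 : cC (0 : UnitAddCircle) = 1 := by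
    have h := (cs_coe 0).1
    rw [mul_zero, Real.cos_zero] at h
    exact h
  have h2 : sC (0 : UnitAddCircle) = 0 := by
    have h := (cs_coe 0).2
    rw [mul_zero, Real.sin_zero] at h
    exact h
  refine ⟨?_, ?_, ?_, ?_⟩
  · show √(1 / 2 : ℝ) * cC 0 = √(1 / 2)
    rw [h1, mul_one]
  · show √(1 / 2 : ℝ) * sC 0 = 0
    rw [h2, mul_zero]
  · show √(1 - 1 / 2 : ℝ) * cC 0 = √(1 / 2)
    rw [h1, mul_one]
    norm_num
  · show √(1 - 1 / 2 : ℝ) * sC 0 = 0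
    rw [h2, mul_zero]

end H7c
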