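import Pool.Agent.H.MP_7b4a29_c.SphA

/-!
# The three-sphere: the surface measure, first part
-/

open Filter Topology MeasureTheory

namespace H7c

/-- Coordinates. -/
noncomputable def Th (p : (ℝ × ℝ) × (ℝ × ℝ)) : E4 :=
  WithLp.toLp 2 ![p.1.1, p.1.2, p.2.1, p.2.2]

/-- `Th` preserves the volume and is a measurable equivalence: `EuclideanSpace.volume_preserving_measurableEquiv`
(or its present name) and `MeasurableEquiv.piFinSuccAbove` / `measurePreserving_finTwoArrow`; or any other way. -/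
theorem sphm_meas : Measurable (fun p : (ℝ × ℝ) × (ℝ × ℝ) =>
    (![p.1.1, p.1.2, p.2.1, p.2.2] : Fin 4 → ℝ)) := by
  refine measurable_pi_iff.2 fun i => ?_
  fin_cases i
  · exact measurable_fst.comp measurable_fst
  · exact measurable_snd.comp measurable_fst
  · exact measurable_fst.comp measurable_snd
  · exact measurable_snd.comp measurable_snd

theorem sphm_mp : MeasurePreserving (fun p : (ℝ × ℝ) × (ℝ × ℝ) =>
    (![p.1.1, p.1.2, p.2.1, p.2.2] : Fin 4 → ℝ)) volume volume := by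
  refine ⟨sphm_meas, ?_⟩
  rw [volume_pi]
  symm
  refine Measure.pi_eq fun s hs => ?_
  rw [Measure.map_apply sphm_meas (MeasurableSet.univ_pi hs)]
  have h : ((fun p : (ℝ × ℝ) × (ℝ × ℝ) => (![p.1.1, p.1.2, p.2.1, p.2.2] : Fin 4 → ℝ)) ⁻¹'
      Set.univ.pi s) = (s 0 ×ˢ s 1) ×ˢ (s 2 ×ˢ s 3) := by
    ext p
    constructor
    · intro hp
      exact ⟨⟨hp 0 (Set.mem_univ _), hp 1 (Set.mem_univ _)⟩,
        ⟨hp 2 (Set.mem_univ _), hp 3 (Set.mem_univ _)⟩⟩
    · rintro ⟨⟨h0, h1⟩, h2, h3⟩ i -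
      fin_cases i
      · exact h0
      · exact h1
      · exact h2
      · exact h3
  rw [h, Measure.volume_eq_prod, Measure.prod_prod, Measure.volume_eq_prod, Measure.prod_prod,
    Measure.prod_prod, Fin.prod_univ_four]
  ring

theorem Th_mp : MeasurePreserving Th volume volume :=
  (PiLp.volume_preserving_toLp (Fin 4)).comp sphm_mp

theorem sphm_zero (p : (ℝ × ℝ) × (ℝ × ℝ)) : Th p 0 = p.1.1 := rfl

theorem sphm_one (p : (ℝ × ℝ) × (ℝ × ℝ)) : Th p 1 = p.1.2 := rfl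

theorem sphm_two (p : (ℝ × ℝ) × (ℝ × ℝ)) : Th p 2 = p.2.1 := rfl

theorem sphm_three (p : (ℝ × ℝ) × (ℝ × ℝ)) : Th p 3 = p.2.2 := rfl

theorem Th_emb : MeasurableEmbedding Th := by
  refine Th_mp.measurable.measurableEmbedding fun p q h => ?_
  have h0 := congrArg (fun v : E4 => v 0) h
  have h1 := congrArg (fun v : E4 => v 1) h
  have h2 := congrArg (fun v : E4 => v 2) h
  have h3 := congrArg (fun v : E4 => v 3) h
  exact Prod.ext (Prod.ext h0 h1) (Prod.ext h2 h3)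

/-- Integration over `E4` in two pairs of polar coordinates.

Proof. `Th_mp`, Fubini, and `integral_comp_polarCoord_symm` twice (for the inner integral, for every value of
the outer variable, and for the outer one); at the end combine the iterated integrals. For the integrability on
the product of the two targets, either apply the formula to `‖G‖` in the form of `lintegral` first
(`lintegral_comp_polarCoord_symm`), or state everything with iterated integrals as here. -/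
theorem int_E4 (G : E4 → ℂ) (hG : Integrable G) :
    ∫ x, G x = ∫ p in polarCoord.target, ∫ q in polarCoord.target,
      ((p.1 * q.1 : ℝ) : ℂ) * G (Th (polarCoord.symm p, polarCoord.symm q)) := by
  have h1 : ∫ x, G x = ∫ z : (ℝ × ℝ) × (ℝ × ℝ), G (Th z) :=
    (Th_mp.integral_comp Th_emb G).symm
  have hi : Integrable (fun z : (ℝ × ℝ) × (ℝ × ℝ) => G (Th z)) volume :=
    (Th_mp.integrable_comp_emb Th_emb).2 hG
  rw [h1]
  rw [Measure.volume_eq_prod] at hi ⊢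
  rw [integral_prod _ hi, ← integral_comp_polarCoord_symm]
  refine integral_congr_ae (Filter.Eventually.of_forall fun p => ?_)
  show p.1 • (∫ b, G (Th (polarCoord.symm p, b))) = ∫ q in polarCoord.target,
      ((p.1 * q.1 : ℝ) : ℂ) * G (Th (polarCoord.symm p, polarCoord.symm q))
  rw [← integral_comp_polarCoord_symm, ← integral_smul]
  refine integral_congr_ae (Filter.Eventually.of_forall fun q => ?_)
  show p.1 • q.1 • G (Th (polarCoord.symm p, polarCoord.symm q)) =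
      ((p.1 * q.1 : ℝ) : ℂ) * G (Th (polarCoord.symm p, polarCoord.symm q))
  rw [Complex.real_smul, Complex.real_smul, Complex.ofReal_mul, mul_assoc]

/-- The direction of a vector; `a0` for the vector `0`. -/
noncomputable def dir (x : E4) : S3 :=
  if h : x = 0 then a0 else ⟨‖x‖⁻¹ • x, by
    rw [mem_sphere_zero_iff_norm, norm_smul, norm_inv, norm_norm, inv_mul_cancel₀ (norm_ne_zero_iff.2 h)]⟩

theorem sphm_dir (x : E4) (hx : x ≠ 0) : (dir x : E4) = ‖x‖⁻¹ • x := by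
  unfold dir
  rw [dif_neg hx]

theorem dir_measurable : Measurable dir := by
  have hc : MeasurableSet (Metric.sphere (0 : E4) 1) := Metric.isClosed_sphere.measurableSet
  refine (MeasurableEmbedding.subtype_coe hc).measurable_comp_iff.1 ?_
  have h : (Subtype.val ∘ dir : E4 → E4) = fun x => if x = 0 then (a0 : E4) else ‖x‖⁻¹ • x := by
    funext x
    by_cases hx : x = 0
    · simp [dir, hx]
    · simp [dir, hx]
  rw [h]
  exact Measurable.ite (measurableSet_singleton (0 : E4)) measurable_const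
    (measurable_norm.inv.smul measurable_id)

open scoped Pointwise in
/-- The definition of the surface measure: `Measure.toSphere_apply'`; the set `Ioo 0 1 • s` is the set of the
`x ≠ 0` in the unit ball with `dir x ∈ s`. -/
theorem int_toSphere (f : C(S3, ℂ)) :
    ∫ z, f z ∂(volume : Measure E4).toSphere =
      4 * ∫ x in Metric.ball (0 : E4) 1, f (dir x) := by
  have key : (volume : Measure E4).toSphere =
      (4 : ENNReal) • Measure.map dir ((volume : Measure E4).restrict (Metric.ball 0 1)) := by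
    refine Measure.ext fun s hs => ?_
    rw [Measure.toSphere_apply' _ hs, finrank_euclideanSpace, Fintype.card_fin,
      Measure.smul_apply, Measure.map_apply dir_measurable hs,
      Measure.restrict_apply (dir_measurable hs),
      ← measure_sdiff_null (s := dir ⁻¹' s ∩ Metric.ball 0 1) (measure_singleton (0 : E4))]
    have he : (Set.Ioo (0 : ℝ) 1 • (Subtype.val '' s) : Set E4) =
        (dir ⁻¹' s ∩ Metric.ball 0 1) \ {0} := by
      ext x
      constructor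
      · rintro ⟨r, hr, v, ⟨z, hz, rfl⟩, rfl⟩
        have hn : ‖(z : E4)‖ = 1 := mem_sphere_zero_iff_norm.1 z.2
        have hrz : ‖r • (z : E4)‖ = r := by
          rw [norm_smul, hn, mul_one, Real.norm_of_nonneg hr.1.le]
        have h0 : r • (z : E4) ≠ 0 := by
          intro h0
          rw [h0, norm_zero] at hrz
          exact hr.1.ne hrz
        refine ⟨⟨?_, ?_⟩, h0⟩
        · have h1 : dir (r • (z : E4)) = z := by
            refine Subtype.ext ?_
            rw [sphm_dir _ h0, hrz, smul_smul, inv_mul_cancel₀ hr.1.ne', one_smul]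
          show dir (r • (z : E4)) ∈ s
          rw [h1]
          exact hz
        · show r • (z : E4) ∈ Metric.ball (0 : E4) 1
          rw [mem_ball_zero_iff, hrz]
          exact hr.2
      · rintro ⟨⟨h1, h2⟩, h3⟩
        have h3' : x ≠ 0 := h3
        have h4 : 0 < ‖x‖ := norm_pos_iff.2 h3'
        refine ⟨‖x‖, ⟨h4, mem_ball_zero_iff.1 h2⟩, (dir x : E4), ⟨dir x, h1, rfl⟩, ?_⟩
        show ‖x‖ • (dir x : E4) = x
        rw [sphm_dir _ h3', smul_smul, mul_inv_cancel₀ h4.ne', one_smul]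
    rw [he]
    rfl
  rw [key, integral_smul_measure, integral_map dir_measurable.aemeasurable
    f.continuous.aestronglyMeasurable]
  simp

/-- The direction in polar coordinates: for `p`, `q` in the target (positive radii),
`dir (r₁ e^{iθ₁}, r₂ e^{iθ₂}) = qS (r₁² / (r₁² + r₂²), θ₁ / 2π, θ₂ / 2π)`. -/
theorem dir_polar (r₁ θ₁ r₂ θ₂ : ℝ) (h1 : 0 < r₁) (h2 : 0 < r₂) (ρ : unitInterval)
    (hρ : (ρ : ℝ) = r₁ ^ 2 / (r₁ ^ 2 + r₂ ^ 2)) :
    dir (Th (polarCoord.symm (r₁, θ₁), polarCoord.symm (r₂, θ₂))) =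
      qS (ρ, (((θ₁ / (2 * Real.pi) : ℝ) : UnitAddCircle), ((θ₂ / (2 * Real.pi) : ℝ) : UnitAddCircle))) := by
  have hs : 0 < r₁ ^ 2 + r₂ ^ 2 := by positivity
  have hπ : ∀ θ : ℝ, 2 * Real.pi * (θ / (2 * Real.pi)) = θ := fun θ => by field_simp
  have e1 := cs_coe (θ₁ / (2 * Real.pi))
  have e2 := cs_coe (θ₂ / (2 * Real.pi))
  rw [hπ] at e1 e2
  set v : E4 := Th (polarCoord.symm (r₁, θ₁), polarCoord.symm (r₂, θ₂)) with hv
  have v0 : v 0 = r₁ * Real.cos θ₁ := rfl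
  have v1 : v 1 = r₁ * Real.sin θ₁ := rfl
  have v2 : v 2 = r₂ * Real.cos θ₂ := rfl
  have v3 : v 3 = r₂ * Real.sin θ₂ := rfl
  have hn : ‖v‖ = √(r₁ ^ 2 + r₂ ^ 2) := by
    rw [← Real.sqrt_sq (norm_nonneg v), spha_norm_sq, v0, v1, v2, v3]
    congr 1
    have c1 := Real.sin_sq_add_cos_sq θ₁
    have c2 := Real.sin_sq_add_cos_sq θ₂
    linear_combination r₁ ^ 2 * c1 + r₂ ^ 2 * c2
  have hp : 0 < √(r₁ ^ 2 + r₂ ^ 2) := Real.sqrt_pos.2 hs
  have h0 : v ≠ 0 := by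
    intro h0
    rw [h0, norm_zero] at hn
    exact hp.ne hn
  have s1 : √(ρ : ℝ) = (√(r₁ ^ 2 + r₂ ^ 2))⁻¹ * r₁ := by
    rw [hρ, Real.sqrt_div (sq_nonneg _), Real.sqrt_sq h1.le]
    ring
  have s2 : √(1 - (ρ : ℝ)) = (√(r₁ ^ 2 + r₂ ^ 2))⁻¹ * r₂ := by
    have h3 : 1 - (ρ : ℝ) = r₂ ^ 2 / (r₁ ^ 2 + r₂ ^ 2) := by
      rw [hρ]
      field_simp
      ring
    rw [h3, Real.sqrt_div (sq_nonneg _), Real.sqrt_sq h2.le]
    ring
  refine Subtype.ext ?_
  rw [sphm_dir _ h0, qS_coe, hn]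
  refine spha_ext ?_ ?_ ?_ ?_
  · show (√(r₁ ^ 2 + r₂ ^ 2))⁻¹ * v 0 = _
    rw [qv_zero, e1.1, s1, v0]
    ring
  · show (√(r₁ ^ 2 + r₂ ^ 2))⁻¹ * v 1 = _
    rw [qv_one, e1.2, s1, v1]
    ring
  · show (√(r₁ ^ 2 + r₂ ^ 2))⁻¹ * v 2 = _
    rw [qv_two, e2.1, s2, v2]
    ring
  · show (√(r₁ ^ 2 + r₂ ^ 2))⁻¹ * v 3 = _
    rw [qv_three, e2.2, s2, v3]
    ring

theorem sphm_radial : ∫ r in Set.Ioi (0 : ℝ), (if r ^ 2 < 1 then ((r ^ 3 : ℝ) : ℂ) else 0) =
    1 / 4 := by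
  have h : ∫ r in Set.Ioi (0 : ℝ), (if r ^ 2 < 1 then ((r ^ 3 : ℝ) : ℂ) else 0) =
      ∫ r in Set.Ioo (0 : ℝ) 1, ((r ^ 3 : ℝ) : ℂ) := by
    rw [← integral_indicator measurableSet_Ioi, ← integral_indicator measurableSet_Ioo]
    refine integral_congr_ae (Filter.Eventually.of_forall fun r => ?_)
    show (Set.Ioi (0 : ℝ)).indicator (fun r => if r ^ 2 < 1 then ((r ^ 3 : ℝ) : ℂ) else 0) r =
      (Set.Ioo (0 : ℝ) 1).indicator (fun r => ((r ^ 3 : ℝ) : ℂ)) r
    by_cases hr : 0 < r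
    · rw [Set.indicator_of_mem (show r ∈ Set.Ioi (0 : ℝ) from hr)]
      by_cases h1 : r < 1
      · rw [Set.indicator_of_mem (show r ∈ Set.Ioo (0 : ℝ) 1 from ⟨hr, h1⟩),
          if_pos (by nlinarith)]
      · rw [Set.indicator_of_notMem (fun h : r ∈ Set.Ioo (0 : ℝ) 1 => h1 h.2),
          if_neg (by nlinarith)]
    · rw [Set.indicator_of_notMem (show r ∉ Set.Ioi (0 : ℝ) from hr),
        Set.indicator_of_notMem (fun h : r ∈ Set.Ioo (0 : ℝ) 1 => hr h.1)]
  rw [h, ← integral_Ioc_eq_integral_Ioo, ← intervalIntegral.integral_of_le zero_le_one,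
    intervalIntegral.integral_ofReal, integral_pow]
  norm_num

theorem sphm_angle (Φ : ℝ → ℂ) (hΦ : Continuous Φ) :
    ∫ φ in Set.Ioo (-Real.pi) Real.pi, (if 0 < Real.cos φ ∧ 0 < Real.sin φ then
      ((Real.cos φ * Real.sin φ : ℝ) : ℂ) * Φ (Real.cos φ ^ 2) else 0) =
      (1 / 2) * ∫ ρ in (0 : ℝ)..1, Φ ρ := by
  have hpi := Real.pi_pos
  have h1 : ∀ φ ∈ Set.Ioo (-Real.pi) Real.pi,
      (0 < Real.cos φ ∧ 0 < Real.sin φ) ↔ φ ∈ Set.Ioo 0 (Real.pi / 2) := by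
    intro φ hφ
    constructor
    · rintro ⟨hc, hs⟩
      constructor
      · by_contra h
        rw [not_lt] at h
        have := Real.sin_nonpos_of_nonpos_of_neg_pi_le h hφ.1.le
        linarith
      · by_contra h
        rw [not_lt] at h
        have := Real.cos_nonpos_of_pi_div_two_le_of_le h (by linarith [hφ.2])
        linarith
    · intro h
      exact ⟨Real.cos_pos_of_mem_Ioo ⟨by linarith [h.1], h.2⟩,
        Real.sin_pos_of_pos_of_lt_pi h.1 (by linarith [h.2])⟩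
  have h2 : ∫ φ in Set.Ioo (-Real.pi) Real.pi, (if 0 < Real.cos φ ∧ 0 < Real.sin φ then
      ((Real.cos φ * Real.sin φ : ℝ) : ℂ) * Φ (Real.cos φ ^ 2) else 0) =
      ∫ φ in Set.Ioo 0 (Real.pi / 2),
        ((Real.cos φ * Real.sin φ : ℝ) : ℂ) * Φ (Real.cos φ ^ 2) := by
    rw [← integral_indicator measurableSet_Ioo, ← integral_indicator measurableSet_Ioo]
    refine integral_congr_ae (Filter.Eventually.of_forall fun φ => ?_)
    show (Set.Ioo (-Real.pi) Real.pi).indicator (fun φ => if 0 < Real.cos φ ∧ 0 < Real.sin φ then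
      ((Real.cos φ * Real.sin φ : ℝ) : ℂ) * Φ (Real.cos φ ^ 2) else 0) φ =
      (Set.Ioo 0 (Real.pi / 2)).indicator (fun φ =>
        ((Real.cos φ * Real.sin φ : ℝ) : ℂ) * Φ (Real.cos φ ^ 2)) φ
    by_cases hφ : φ ∈ Set.Ioo (-Real.pi) Real.pi
    · rw [Set.indicator_of_mem hφ]
      by_cases h : φ ∈ Set.Ioo 0 (Real.pi / 2)
      · rw [if_pos ((h1 φ hφ).2 h), Set.indicator_of_mem h]
      · rw [if_neg (fun hh => h ((h1 φ hφ).1 hh)), Set.indicator_of_notMem h]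
    · have h3 : φ ∉ Set.Ioo 0 (Real.pi / 2) := fun h =>
        hφ ⟨by linarith [h.1], by linarith [h.2]⟩
      rw [Set.indicator_of_notMem hφ, Set.indicator_of_notMem h3]
  rw [h2, ← integral_Ioc_eq_integral_Ioo, ← intervalIntegral.integral_of_le (by positivity)]
  have h3 := intervalIntegral.integral_deriv_smul_comp (a := 0) (b := Real.pi / 2)
    (f := fun φ => Real.cos φ ^ 2) (f' := fun φ => -(2 * (Real.cos φ * Real.sin φ))) (g := Φ)
    (fun φ _ => by
      have h4 := (Real.hasDerivAt_cos φ).pow 2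
      refine h4.congr_deriv ?_
      norm_num
      ring)
    (by fun_prop) hΦ
  have h5 : ∫ φ in (0 : ℝ)..(Real.pi / 2), (-(2 * (Real.cos φ * Real.sin φ))) •
      (Φ ∘ fun φ => Real.cos φ ^ 2) φ = (-2 : ℂ) * ∫ φ in (0 : ℝ)..(Real.pi / 2),
        ((Real.cos φ * Real.sin φ : ℝ) : ℂ) * Φ (Real.cos φ ^ 2) := by
    rw [← intervalIntegral.integral_const_mul]
    refine intervalIntegral.integral_congr fun φ _ => ?_
    show (-(2 * (Real.cos φ * Real.sin φ))) • Φ (Real.cos φ ^ 2) =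
      (-2 : ℂ) * (((Real.cos φ * Real.sin φ : ℝ) : ℂ) * Φ (Real.cos φ ^ 2))
    rw [Complex.real_smul]
    push_cast
    ring
  rw [h5] at h3
  simp only [Real.cos_zero, Real.cos_pi_div_two] at h3
  have h6 : ∫ x in (1 : ℝ)..0, Φ x = -∫ x in (0 : ℝ)..1, Φ x :=
    intervalIntegral.integral_symm _ _
  rw [one_pow, zero_pow two_ne_zero, h6] at h3
  linear_combination (-1 / 2 : ℂ) * h3

/-- The integrand on the plane. -/
noncomputable def sphmF (Φ : ℝ → ℂ) (p : ℝ × ℝ) : ℂ :=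
  if 0 < p.1 ∧ 0 < p.2 ∧ p.1 ^ 2 + p.2 ^ 2 < 1 then
    ((p.1 * p.2 : ℝ) : ℂ) * Φ (p.1 ^ 2 / (p.1 ^ 2 + p.2 ^ 2)) else 0

theorem sphm_integrable (Φ : ℝ → ℂ) (hΦ : Continuous Φ) : Integrable (sphmF Φ) := by
  set D : Set (ℝ × ℝ) := {p | 0 < p.1 ∧ 0 < p.2 ∧ p.1 ^ 2 + p.2 ^ 2 < 1} with hD
  have hDm : MeasurableSet D := by
    have m1 : MeasurableSet {p : ℝ × ℝ | 0 < p.1} := measurableSet_lt measurable_const measurable_fst
    have m2 : MeasurableSet {p : ℝ × ℝ | 0 < p.2} := measurableSet_lt measurable_const measurable_snd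
    have m3 : MeasurableSet {p : ℝ × ℝ | p.1 ^ 2 + p.2 ^ 2 < 1} :=
      measurableSet_lt ((measurable_fst.pow_const 2).add (measurable_snd.pow_const 2))
        measurable_const
    exact m1.inter (m2.inter m3)
  have hfin : volume D ≠ ⊤ := by
    have h1 : D ⊆ Set.Icc (0 : ℝ) 1 ×ˢ Set.Icc (0 : ℝ) 1 := by
      rintro p ⟨h1, h2, h3⟩
      exact ⟨⟨h1.le, by nlinarith⟩, ⟨h2.le, by nlinarith⟩⟩
    exact ne_top_of_le_ne_top (isCompact_Icc.prod isCompact_Icc).measure_lt_top.ne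
      (measure_mono h1)
  obtain ⟨C, hC⟩ := isCompact_Icc.exists_bound_of_continuousOn (s := Set.Icc (0 : ℝ) 1)
    hΦ.continuousOn
  have hm : Measurable fun p : ℝ × ℝ =>
      ((p.1 * p.2 : ℝ) : ℂ) * Φ (p.1 ^ 2 / (p.1 ^ 2 + p.2 ^ 2)) := by
    have m1 : Measurable fun p : ℝ × ℝ => ((p.1 * p.2 : ℝ) : ℂ) :=
      Complex.measurable_ofReal.comp (measurable_fst.mul measurable_snd)
    have m2 : Measurable fun p : ℝ × ℝ => p.1 ^ 2 / (p.1 ^ 2 + p.2 ^ 2) :=
      (measurable_fst.pow_const 2).div ((measurable_fst.pow_const 2).add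
        (measurable_snd.pow_const 2))
    exact m1.mul (hΦ.measurable.comp m2)
  have he : sphmF Φ = D.indicator fun p : ℝ × ℝ =>
      ((p.1 * p.2 : ℝ) : ℂ) * Φ (p.1 ^ 2 / (p.1 ^ 2 + p.2 ^ 2)) := by
    funext p
    by_cases hp : p ∈ D
    · rw [Set.indicator_of_mem hp]
      exact if_pos hp
    · rw [Set.indicator_of_notMem hp]
      exact if_neg hp
  rw [he, integrable_indicator_iff hDm]
  refine Measure.integrableOn_of_bounded (M := C) hfin hm.aestronglyMeasurable ?_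
  refine (ae_restrict_iff' hDm).2 (Filter.Eventually.of_forall fun p hp => ?_)
  obtain ⟨h1, h2, h3⟩ := hp
  have h4 : p.1 ^ 2 / (p.1 ^ 2 + p.2 ^ 2) ∈ Set.Icc (0 : ℝ) 1 :=
    ⟨by positivity, by
      rw [div_le_one (by positivity)]
      nlinarith [sq_nonneg p.2]⟩
  have h5 := hC _ h4
  have h6 : ‖((p.1 * p.2 : ℝ) : ℂ)‖ ≤ 1 := by
    rw [Complex.norm_real, Real.norm_of_nonneg (by positivity)]
    nlinarith
  rw [norm_mul]
  calc ‖((p.1 * p.2 : ℝ) : ℂ)‖ * ‖Φ (p.1 ^ 2 / (p.1 ^ 2 + p.2 ^ 2))‖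
      ≤ 1 * ‖Φ (p.1 ^ 2 / (p.1 ^ 2 + p.2 ^ 2))‖ :=
        mul_le_mul_of_nonneg_right h6 (norm_nonneg _)
    _ ≤ C := by
        rw [one_mul]
        exact h5

theorem sphm_polar (Φ : ℝ → ℂ) (p : ℝ × ℝ) (hp : 0 < p.1) :
    p.1 • sphmF Φ (polarCoord.symm p) =
      (if p.1 ^ 2 < 1 then ((p.1 ^ 3 : ℝ) : ℂ) else 0) *
        (if 0 < Real.cos p.2 ∧ 0 < Real.sin p.2 then
          ((Real.cos p.2 * Real.sin p.2 : ℝ) : ℂ) * Φ (Real.cos p.2 ^ 2) else 0) := by
  have hc := Real.sin_sq_add_cos_sq p.2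
  have e1 : (polarCoord.symm p).1 = p.1 * Real.cos p.2 := rfl
  have e2 : (polarCoord.symm p).2 = p.1 * Real.sin p.2 := rfl
  have e3 : (p.1 * Real.cos p.2) ^ 2 + (p.1 * Real.sin p.2) ^ 2 = p.1 ^ 2 := by
    linear_combination p.1 ^ 2 * hc
  unfold sphmF
  rw [e1, e2, e3]
  by_cases h1 : p.1 ^ 2 < 1
  · rw [if_pos h1]
    by_cases h2 : 0 < Real.cos p.2 ∧ 0 < Real.sin p.2
    · rw [if_pos h2, if_pos ⟨mul_pos hp h2.1, mul_pos hp h2.2, h1⟩]
      have e4 : (p.1 * Real.cos p.2) ^ 2 / p.1 ^ 2 = Real.cos p.2 ^ 2 := by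
        field_simp
      rw [e4, Complex.real_smul]
      push_cast
      ring
    · rw [if_neg h2, if_neg (fun h => h2 ⟨pos_of_mul_pos_right h.1 hp.le |> fun h => h,
        pos_of_mul_pos_right h.2.1 hp.le⟩), smul_zero, mul_zero]
  · rw [if_neg h1, if_neg (fun h => h1 h.2.2), smul_zero, zero_mul]

/-- The integral over the quarter of the disc.

Proof. Apply `integral_comp_polarCoord_symm` to
`(x, y) ↦ if 0 < x ∧ 0 < y ∧ x ^ 2 + y ^ 2 < 1 then x * y * Φ (x ^ 2 / (x ^ 2 + y ^ 2)) else 0`; in polar coordinates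
it is `r ^ 3 * cos φ * sin φ * Φ (cos φ ^ 2)` for `0 < r < 1`, `0 < φ < π / 2` (the second factor `r` included), so the
integral is `(∫ r in 0..1, r ^ 3) * ∫ φ in 0..π/2, cos φ * sin φ * Φ (cos φ ^ 2)`; substitute `ρ = cos φ ^ 2`
(`intervalIntegral.integral_comp_mul_deriv`): the second factor is `(1 / 2) ∫ ρ in 0..1, Φ ρ`. -/
theorem int_quarter (Φ : ℝ → ℂ) (hΦ : Continuous Φ) :
    ∫ r₁ in Set.Ioi (0 : ℝ), ∫ r₂ in Set.Ioi (0 : ℝ),
      (if r₁ ^ 2 + r₂ ^ 2 < 1 then ((r₁ * r₂ : ℝ) : ℂ) * Φ (r₁ ^ 2 / (r₁ ^ 2 + r₂ ^ 2)) else 0) =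
      (1 / 8) * ∫ ρ in (0 : ℝ)..1, Φ ρ := by
  have hF := sphm_integrable Φ hΦ
  have h1 : ∫ r₁ in Set.Ioi (0 : ℝ), ∫ r₂ in Set.Ioi (0 : ℝ),
      (if r₁ ^ 2 + r₂ ^ 2 < 1 then ((r₁ * r₂ : ℝ) : ℂ) * Φ (r₁ ^ 2 / (r₁ ^ 2 + r₂ ^ 2)) else 0) =
      ∫ z, sphmF Φ z := by
    rw [Measure.volume_eq_prod] at hF ⊢
    rw [integral_prod _ hF, ← integral_indicator measurableSet_Ioi]
    refine integral_congr_ae (Filter.Eventually.of_forall fun x => ?_)
    show (Set.Ioi (0 : ℝ)).indicator (fun r₁ => ∫ r₂ in Set.Ioi (0 : ℝ),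
      (if r₁ ^ 2 + r₂ ^ 2 < 1 then ((r₁ * r₂ : ℝ) : ℂ) * Φ (r₁ ^ 2 / (r₁ ^ 2 + r₂ ^ 2)) else 0)) x
        = ∫ y, sphmF Φ (x, y)
    by_cases hx : 0 < x
    · rw [Set.indicator_of_mem (show x ∈ Set.Ioi (0 : ℝ) from hx),
        ← integral_indicator measurableSet_Ioi]
      refine integral_congr_ae (Filter.Eventually.of_forall fun y => ?_)
      show (Set.Ioi (0 : ℝ)).indicator (fun r₂ => (if x ^ 2 + r₂ ^ 2 < 1 then
        ((x * r₂ : ℝ) : ℂ) * Φ (x ^ 2 / (x ^ 2 + r₂ ^ 2)) else 0)) y = sphmF Φ (x, y)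
      by_cases hy : 0 < y
      · rw [Set.indicator_of_mem (show y ∈ Set.Ioi (0 : ℝ) from hy)]
        by_cases hxy : x ^ 2 + y ^ 2 < 1
        · rw [if_pos hxy]
          exact (if_pos ⟨hx, hy, hxy⟩).symm
        · rw [if_neg hxy]
          exact (if_neg (fun h => hxy h.2.2)).symm
      · rw [Set.indicator_of_notMem (show y ∉ Set.Ioi (0 : ℝ) from hy)]
        exact (if_neg (fun h => hy h.2.1)).symm
    · rw [Set.indicator_of_notMem (show x ∉ Set.Ioi (0 : ℝ) from hx)]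
      have h2 : ∀ y, sphmF Φ (x, y) = 0 := fun y => if_neg (fun h => hx h.1)
      simp [h2]
  rw [h1, ← integral_comp_polarCoord_symm]
  have h3 : ∫ p in polarCoord.target, p.1 • sphmF Φ (polarCoord.symm p) =
      ∫ p in Set.Ioi (0 : ℝ) ×ˢ Set.Ioo (-Real.pi) Real.pi,
        (if p.1 ^ 2 < 1 then ((p.1 ^ 3 : ℝ) : ℂ) else 0) *
        (if 0 < Real.cos p.2 ∧ 0 < Real.sin p.2 then
          ((Real.cos p.2 * Real.sin p.2 : ℝ) : ℂ) * Φ (Real.cos p.2 ^ 2) else 0) := by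
    refine setIntegral_congr_fun polarCoord.open_target.measurableSet fun p hp => ?_
    exact sphm_polar Φ p hp.1
  rw [h3, Measure.volume_eq_prod]
  rw [setIntegral_prod_mul (fun r : ℝ => (if r ^ 2 < 1 then ((r ^ 3 : ℝ) : ℂ) else 0))
    (fun φ : ℝ => (if 0 < Real.cos φ ∧ 0 < Real.sin φ then
          ((Real.cos φ * Real.sin φ : ℝ) : ℂ) * Φ (Real.cos φ ^ 2) else 0)), sphm_radial,
    sphm_angle Φ hΦ]
  ring

end H7c
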