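import Pool.Agent.H.MP_7b4a29_c.JI

/-!
# Sizes; matrix algebras of varying size; rows
-/

open Filter Topology

namespace H7c

/-- A size: a finite index type for every `l`. -/
structure Sz (I : Ix) where
  ty : I.L → Type
  ft : ∀ l, Fintype (ty l)
  de : ∀ l, DecidableEq (ty l)

attribute [instance] Sz.ft Sz.de

namespace Sz

variable (I : Ix)

/-- The size one. -/
def one : Sz I := ⟨fun _ => Unit, fun _ => inferInstance, fun _ => inferInstance⟩

/-- A constant size. -/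
def con (n : Type) [Fintype n] [DecidableEq n] : Sz I :=
  ⟨fun _ => n, fun _ => inferInstance, fun _ => inferInstance⟩

variable {I}

/-- The product of sizes. -/
def prod (S N : Sz I) : Sz I :=
  ⟨fun l => S.ty l × N.ty l, fun _ => inferInstance, fun _ => inferInstance⟩

/-- Polynomially bounded sizes. -/
def PB (N : Sz I) : Prop :=
  ∃ (k : ℕ) (C : ℝ), ∀ᶠ l in I.F, (Fintype.card (N.ty l) : ℝ) ≤ C * (I.w l : ℝ) ^ k

/-- Reindexing. -/
def re {I' : Ix} (S : Sz I) (φ : IxHom I I') : Sz I' :=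
  ⟨fun l => S.ty (φ.f l), fun _ => inferInstance, fun _ => inferInstance⟩

end Sz

variable {I : Ix} (S : Sz I) (P : Type) [CStarAlgebra P]

/-- Families of matrices with entries in `P`. -/
abbrev RM : Type := SQ I (fun l => MM (S.ty l) P)

variable (I) in
/-- Families of elements of `P`. -/
abbrev R1 : Type := SQ I (fun _ => P)

variable {P}

/-- The ideal in `RM S P`. -/
abbrev JM (τ : P →ₗ[ℂ] ℂ) : RM S P → Prop := IsJ I (fun l => MM.tr (S.ty l) τ)

variable (I) in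
/-- The ideal in `R1 I P`. -/
abbrev J1 (τ : P →ₗ[ℂ] ℂ) : R1 I P → Prop := IsJ I (fun _ => τ)

variable (N : Sz I)

/-- `a ↦ a ⊗ 1`. -/
noncomputable def ampR : RM S P →⋆ₐ[ℂ] RM (S.prod N) P := SQ.map I (fun l => MM.amp (N.ty l))

variable (P) in
/-- `x ↦ 1 ⊗ x`. -/
noncomputable def sclR : RM N ℂ →⋆ₐ[ℂ] RM (S.prod N) P :=
  SQ.map I (fun l => MM.scl (S.ty l) P)

variable {S N}

theorem ampR_cl {x : ∀ l, MM (S.ty l) P} (hx : Bd x) :
    ampR S N (cl I x) = cl I (fun l => MM.amp (N.ty l) (x l)) := SQ.map_cl I _ hx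

theorem sclR_cl {x : ∀ l, MM (N.ty l) ℂ} (hx : Bd x) :
    sclR S P N (cl I x) = cl I (fun l => MM.scl (S.ty l) P (x l)) := SQ.map_cl I _ hx

theorem ampR_sclR_comm (a : RM S P) (x : RM N ℂ) :
    ampR S N a * sclR S P N x = sclR S P N x * ampR S N a := by
  have ha := SQ.rep_bd I a
  have hx := SQ.rep_bd I x
  have b1 : Bd (fun l => MM.amp (N.ty l) (SQ.rep I a l)) := Bd.map I _ ha
  have b2 : Bd (fun l => MM.scl (S.ty l) P (SQ.rep I x l)) := Bd.map I _ hx
  have e1 := cl_mul I b1 b2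
  have e2 := cl_mul I b2 b1
  have e3 : (fun l => MM.amp (N.ty l) (SQ.rep I a l) * MM.scl (S.ty l) P (SQ.rep I x l)) =
      fun l => MM.scl (S.ty l) P (SQ.rep I x l) * MM.amp (N.ty l) (SQ.rep I a l) :=
    funext fun l => MM.amp_scl_comm _ _
  rw [← SQ.cl_rep I a, ← SQ.cl_rep I x, ampR_cl ha, sclR_cl hx]
  refine e1.symm.trans (Eq.trans ?_ e2)
  rw [e3]

/-- `a ⊗ 1` is in the ideal for polynomially bounded `N` (`nsq_amp`). -/
theorem ampR_J {τ : P →ₗ[ℂ] ℂ} (hτ : PTr τ) (hN : N.PB) {a : RM S P} (ha : JM S τ a) :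
    JM (S.prod N) τ (ampR S N a) := by
  obtain ⟨x, hx, rfl, hk⟩ := ha
  obtain ⟨m, C, hC⟩ := hN
  refine ⟨fun l => MM.amp (N.ty l) (x l), Bd.map I _ hx, (ampR_cl hx).symm, fun k => ?_⟩
  have h1 := (hk (k + m)).const_mul C
  rw [mul_zero] at h1
  refine squeeze_zero' (Eventually.of_forall fun l => ?_) ?_ h1
  · exact mul_nonneg (pow_nonneg (Nat.cast_nonneg _) _) (nsq_nonneg hτ.mat _)
  · filter_upwards [hC] with l hl
    have h2 : nsq (MM.tr ((S.prod N).ty l) τ) (MM.amp (N.ty l) (x l)) =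
        Fintype.card (N.ty l) * nsq (MM.tr (S.ty l) τ) (x l) := nsq_amp (x l)
    have h3 : 0 ≤ nsq (MM.tr (S.ty l) τ) (x l) := nsq_nonneg hτ.mat _
    have h4 : (0 : ℝ) ≤ (I.w l : ℝ) ^ k := pow_nonneg (Nat.cast_nonneg _) _
    rw [h2]
    calc (I.w l : ℝ) ^ k * (Fintype.card (N.ty l) * nsq (MM.tr (S.ty l) τ) (x l))
        ≤ (I.w l : ℝ) ^ k * (C * (I.w l : ℝ) ^ m * nsq (MM.tr (S.ty l) τ) (x l)) :=
          mul_le_mul_of_nonneg_left (mul_le_mul_of_nonneg_right hl h3) h4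
      _ = C * ((I.w l : ℝ) ^ (k + m) * nsq (MM.tr (S.ty l) τ) (x l)) := by
          rw [pow_add]
          ring

variable (P) in
/-- `1 × 1` matrices. -/
noncomputable def unoR : R1 I P →⋆ₐ[ℂ] RM (Sz.one I) P := SQ.map I (fun _ => MM.uno P)

variable (P) in
noncomputable def ounoR : RM (Sz.one I) P →⋆ₐ[ℂ] R1 I P := SQ.map I (fun _ => MM.ouno P)

theorem ounoR_unoR (a : R1 I P) : ounoR P (unoR P a) = a := by
  have ha := SQ.rep_bd I a
  have h1 : unoR P (cl I (SQ.rep I a)) = cl I (fun l => MM.uno P (SQ.rep I a l)) :=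
    SQ.map_cl I _ ha
  have h2 : ounoR P (cl I (fun l => MM.uno P (SQ.rep I a l))) =
      cl I (fun l => MM.ouno P (MM.uno P (SQ.rep I a l))) :=
    SQ.map_cl I _ (Bd.map I (fun _ => MM.uno P) ha)
  have h3 : (fun l => MM.ouno P (MM.uno P (SQ.rep I a l))) = SQ.rep I a :=
    funext fun l => MM.ouno_uno _
  rw [h3, SQ.cl_rep] at h2
  rw [SQ.cl_rep] at h1
  rw [h1]
  exact h2

theorem unoR_ounoR (a : RM (Sz.one I) P) : unoR P (ounoR P a) = a := by
  have ha := SQ.rep_bd I a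
  have h1 : ounoR P (cl I (SQ.rep I a)) = cl I (fun l => MM.ouno P (SQ.rep I a l)) :=
    SQ.map_cl I _ ha
  have h2 : unoR P (cl I (fun l => MM.ouno P (SQ.rep I a l))) =
      cl I (fun l => MM.uno P (MM.ouno P (SQ.rep I a l))) :=
    SQ.map_cl I _ (Bd.map (A := fun _ => MM Unit P) I (fun _ => MM.ouno P) ha)
  have h3 : (fun l => MM.uno P (MM.ouno P (SQ.rep I a l))) = SQ.rep I a :=
    funext fun l => MM.uno_ouno _
  have h4 : cl I (SQ.rep I a) = a := SQ.cl_rep I a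
  have h5 : cl I (fun l => MM.uno P (MM.ouno P (SQ.rep I a l))) = a := by
    refine Eq.trans ?_ h4
    exact congrArg (cl I) h3
  have h6 : ounoR P a = cl I (fun l => MM.ouno P (SQ.rep I a l)) := by
    refine Eq.trans ?_ h1
    exact congrArg (ounoR P) h4.symm
  rw [h6]
  exact h2.trans h5

theorem unoR_J {τ : P →ₗ[ℂ] ℂ} {a : R1 I P} (ha : J1 I τ a) : JM (Sz.one I) τ (unoR P a) := by
  refine IsJ.map I (fun _ => MM.uno P) (fun l x => ?_) ha
  have h1 : MM.tr Unit τ (MM.uno P x) = ∑ i, τ (MM.e (MM.uno P x) i i) := MM.tr_apply _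
  have h2 : MM.e (MM.uno P x) () () = x := MM.e_of _ _ _
  have h3 : MM.tr Unit τ (MM.uno P x) = τ x := by
    rw [h1, Fintype.sum_unique]
    exact congrArg τ h2
  exact h3

end H7c
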