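import Mathlib

/-!
# Functions with values in a C*-algebra
-/

open Filter Topology
open scoped CStarAlgebra

namespace H7c

variable (X : Type) [TopologicalSpace X] [CompactSpace X] (A : Type) [CStarAlgebra A]

/-- Scalar functions. -/
noncomputable def sc : C(X, ℂ) →⋆ₐ[ℂ] C(X, A) where
  toFun f := ⟨fun x => algebraMap ℂ A (f x), (continuous_algebraMap ℂ A).comp f.continuous⟩
  map_one' := by
    ext x
    exact map_one (algebraMap ℂ A)
  map_mul' := by
    intro f g
    ext x
    exact map_mul (algebraMap ℂ A) (f x) (g x)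
  map_zero' := by
    ext x
    exact map_zero (algebraMap ℂ A)
  map_add' := by
    intro f g
    ext x
    exact map_add (algebraMap ℂ A) (f x) (g x)
  commutes' := by
    intro c
    ext x
    rfl
  map_star' := by
    intro f
    ext x
    exact algebraMap_star_comm (f x)

/-- Constant functions. -/
noncomputable def cns : A →⋆ₐ[ℂ] C(X, A) where
  toFun a := ContinuousMap.const X a
  map_one' := by
    rfl
  map_mul' := by
    intro a b
    rfl
  map_zero' := by
    rfl
  map_add' := by
    intro a b
    rfl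
  commutes' := by
    intro c
    rfl
  map_star' := by
    intro a
    rfl

variable {X A}

theorem sc_apply (f : C(X, ℂ)) (x : X) : sc X A f x = algebraMap ℂ A (f x) := rfl

theorem cns_apply (a : A) (x : X) : cns X A a x = a := rfl

theorem sc_cns_comm (f : C(X, ℂ)) (a : A) : sc X A f * cns X A a = cns X A a * sc X A f := by
  ext x
  exact Algebra.commutes (f x) a

variable (X) in
/-- Application of a homomorphism to the values. -/
noncomputable def cmap {B : Type} [CStarAlgebra B] (φ : A →⋆ₐ[ℂ] B) : C(X, A) →⋆ₐ[ℂ] C(X, B) where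
  toFun F := ⟨fun x => φ (F x), by
    exact (map_continuous φ).comp F.continuous⟩
  map_one' := by
    ext x
    exact map_one φ
  map_mul' := by
    intro F G
    ext x
    exact map_mul φ (F x) (G x)
  map_zero' := by
    ext x
    exact map_zero φ
  map_add' := by
    intro F G
    ext x
    exact map_add φ (F x) (G x)
  commutes' := by
    intro c
    ext x
    exact AlgHomClass.commutes φ c
  map_star' := by
    intro F
    ext x
    exact map_star φ (F x)

theorem cmap_apply {B : Type} [CStarAlgebra B] (φ : A →⋆ₐ[ℂ] B) (F : C(X, A)) (x : X) :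
    cmap X φ F x = φ (F x) := rfl

/-- Evaluation. -/
noncomputable def evx (A : Type) [CStarAlgebra A] (x : X) : C(X, A) →⋆ₐ[ℂ] A where
  toFun F := F x
  map_one' := rfl
  map_mul' _ _ := rfl
  map_zero' := rfl
  map_add' _ _ := rfl
  commutes' _ := rfl
  map_star' _ := rfl

theorem evx_apply (x : X) (F : C(X, A)) : evx A x F = F x := rfl

variable [T2Space X]

/-- Approximation.

Proof. Partition of unity subordinate to a finite cover by sets where `F` varies by at most `ε`. -/
theorem exists_approx (F : C(X, A)) (ε : ℝ) (hε : 0 < ε) :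
    ∃ (n : ℕ) (g : Fin n → C(X, ℂ)) (a : Fin n → A),
      ‖F - ∑ i, sc X A (g i) * cns X A (a i)‖ ≤ ε := by
  classical
  have hU : ∀ x : X, IsOpen {y : X | ‖F y - F x‖ < ε} := by
    intro x
    exact isOpen_lt (by fun_prop) continuous_const
  obtain ⟨t, ht⟩ := isCompact_univ.elim_finite_subcover (fun x : X => {y : X | ‖F y - F x‖ < ε}) hU
    (fun x _ => Set.mem_iUnion.2 ⟨x, by simpa using hε⟩)
  obtain ⟨f, hf⟩ := PartitionOfUnity.exists_isSubordinate (X := X) isClosed_univ
    (fun i : Fin t.card => {y : X | ‖F y - F (t.equivFin.symm i : X)‖ < ε}) (fun i => hU _) (by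
      intro y hy
      obtain ⟨x, hx⟩ := Set.mem_iUnion.1 (ht hy)
      obtain ⟨hxt, hx⟩ := Set.mem_iUnion.1 hx
      refine Set.mem_iUnion.2 ⟨t.equivFin ⟨x, hxt⟩, ?_⟩
      rw [Equiv.symm_apply_apply]
      exact hx)
  refine ⟨t.card, fun i => ⟨fun x => ((f i x : ℝ) : ℂ), Complex.continuous_ofReal.comp
    (f i).continuous⟩, fun i => F (t.equivFin.symm i : X), ?_⟩
  rw [ContinuousMap.norm_le _ hε.le]
  intro x
  have hsum : ∑ i, f i x = 1 := by
    rw [← finsum_eq_sum_of_fintype]
    exact f.sum_eq_one (Set.mem_univ x)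
  have h1 : (F - ∑ i, sc X A (⟨fun x => ((f i x : ℝ) : ℂ), Complex.continuous_ofReal.comp
      (f i).continuous⟩ : C(X, ℂ)) * cns X A (F (t.equivFin.symm i : X))) x =
      ∑ i, ((f i x : ℝ) : ℂ) • (F x - F (t.equivFin.symm i : X)) := by
    rw [ContinuousMap.sub_apply, ContinuousMap.sum_apply]
    have h2 : F x = ∑ i, ((f i x : ℝ) : ℂ) • F x := by
      rw [← Finset.sum_smul, ← Complex.ofReal_sum, hsum, Complex.ofReal_one, one_smul]
    conv_lhs => rw [h2]
    rw [← Finset.sum_sub_distrib]
    refine Finset.sum_congr rfl fun i _ => ?_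
    rw [ContinuousMap.mul_apply, sc_apply, cns_apply, smul_sub, ← Algebra.smul_def]
    rfl
  rw [h1]
  refine (norm_sum_le _ _).trans ?_
  have h3 : ∀ i ∈ Finset.univ, ‖((f i x : ℝ) : ℂ) • (F x - F (t.equivFin.symm i : X))‖ ≤
      f i x * ε := by
    intro i _
    rw [norm_smul, Complex.norm_real, Real.norm_of_nonneg (f.nonneg i x)]
    by_cases h0 : f i x = 0
    · rw [h0, zero_mul, zero_mul]
    · refine mul_le_mul_of_nonneg_left ?_ (f.nonneg i x)
      have h4 : x ∈ {y : X | ‖F y - F (t.equivFin.symm i : X)‖ < ε} :=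
        hf i (subset_closure h0)
      exact le_of_lt h4
  refine (Finset.sum_le_sum h3).trans ?_
  rw [← Finset.sum_mul, hsum, one_mul]

variable {D : Type} [CStarAlgebra D]

theorem tensa_induction (p : C(X, A) → Prop) (h0 : p 0) (hadd : ∀ F G, p F → p G → p (F + G))
    (hmul : ∀ f a, p (sc X A f * cns X A a)) (hcl : IsClosed {F | p F}) (F : C(X, A)) : p F := by
  have hF : F ∈ closure {F | p F} := by
    rw [Metric.mem_closure_iff]
    intro ε hε
    obtain ⟨n, g, a, h⟩ := exists_approx F (ε / 2) (by linarith)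
    refine ⟨∑ i, sc X A (g i) * cns X A (a i), ?_, ?_⟩
    · exact Finset.sum_induction _ p hadd h0 (fun i _ => hmul _ _)
    · rw [dist_eq_norm]
      linarith
  rw [hcl.closure_eq] at hF
  exact hF

theorem tens_ext {s t : C(X, A) →⋆ₐ[ℂ] D} (h1 : ∀ a, s (cns X A a) = t (cns X A a))
    (h2 : ∀ f, s (sc X A f) = t (sc X A f)) : s = t := by
  refine StarAlgHom.ext fun F => ?_
  refine tensa_induction (fun F => s F = t F) (by rw [map_zero, map_zero]) ?_ ?_ ?_ F
  · intro F G hF hG
    rw [map_add, map_add, hF, hG]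
  · intro f a
    rw [map_mul, map_mul, h1, h2]
  · exact isClosed_eq (map_continuous s) (map_continuous t)

/-- A closed-subspace induction principle. -/
theorem cxa_induction (p : C(X, A) → Prop) (h0 : p 0) (hadd : ∀ F G, p F → p G → p (F + G))
    (hmul : ∀ f a, p (sc X A f * cns X A a)) (hcl : IsClosed {F | p F}) (F : C(X, A)) : p F :=
  tensa_induction p h0 hadd hmul hcl F

end H7c
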