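import Pool.Agent.H.MP_7b4a29_c.GeoB
import Pool.Agent.H.MP_7b4a29_c.CuP
import Pool.Agent.H.MP_7b4a29_c.MainT
import Pool.Agent.H.MP_7b4a29_c.EThm

/-!
# The transfer theorem
-/

open Filter Topology MeasureTheory H47

namespace H7c

variable {Z : Type} [MetricSpace Z] [CompactSpace Z] [MeasurableSpace Z] [BorelSpace Z]
  {μ : Measure Z} [IsProbabilityMeasure μ]
  {K : Type} [NormedAddCommGroup K] [InnerProductSpace ℂ K] [CompleteSpace K]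
  (M : FModel C(Z, ℂ) (intL μ) K)
  {Z2 : Type} [MetricSpace Z2] [CompactSpace Z2] [MeasurableSpace Z2] [BorelSpace Z2]
  {ν : Measure Z2} [IsProbabilityMeasure ν] {z0 : Z2}
  {Y : Type} [TopologicalSpace Y] [CompactSpace Y] [T2Space Y] {y0 : Y}
  (G : Geo Z2 ν z0 Y y0)

/-- The homomorphism `f ↦ kap_j (f ∘ Q)`. -/
noncomputable def kq (j : ℕ) (Q : C(unitInterval, Z2)) : C(Z2, ℂ) →⋆ₐ[ℂ] M.PA :=
  (M.kapP j).comp (ContinuousMap.compStarAlgHom' ℂ ℂ Q)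

theorem kq_apply (j : ℕ) (Q : C(unitInterval, Z2)) (f : C(Z2, ℂ)) :
    kq M j Q f = M.kapP j (f.comp Q) := rfl

/-- `M.trP_kapP`, `G.Qm`. -/
theorem kq_tr (j : ℕ) (f : C(Z2, ℂ)) : M.trP (kq M j G.Q f) = intL ν f := by
  rw [kq_apply, M.trP_kapP]
  exact G.Qm f

/-- The sum of the family `K ∘ cw` and of a cycle is a cycle, and it is equivalent to the second
summand.

Proof. `G.exists_cyc` for `γ = kq M j G.Q`, restricted along `K` (`Cyc.push`, `fam_comp`); `exists_csum`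
(`G.ow_v`); `G.nh` for `h = K` and `κap = M.kapP j`. -/
theorem exists_kqsum {I : Ix} (j : ℕ) (v : R1 I M.PA) (κ : C1 I M.trP Z2 z0)
    (hv : ∀ f, cst I M.PA (kq M j G.Q f) * v = f z0 • v)
    (hk : star v * v * (κ.ζ - 1) = κ.ζ - 1) :
    ∃ d : C1 I M.trP Z2 z0, (∀ f, d.κ f = fam I (kq M j G.Q) (fun l => G.K.comp (G.cw I l)) f +
      v * κ.hat f * star v) ∧ Eqv d κ := by
  have hτ := ptr_trP M
  obtain ⟨c, hc, hz⟩ := G.exists_cyc hτ (kq M j G.Q) (fun f => kq_tr M G j f) I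
  have hcv : (c.push G.K G.Kz).ζ * v = v := by
    have h1 := G.ow_v (kq M j G.Q) v hv
    rw [← hz] at h1
    exact h1
  obtain ⟨d, hd⟩ := exists_csum (J1.idl hτ) (c.push G.K G.Kz) v κ hcv hk
  have hdk : ∀ f, d.κ f = fam I (kq M j G.Q) (fun l => G.K.comp (G.cw I l)) f +
      v * κ.hat f * star v := by
    intro f
    have h1 : (c.push G.K G.Kz).κ f = fam I (kq M j G.Q) (fun l => G.K.comp (G.cw I l)) f := by
      rw [Cyc.push_kappa, hc, fam_comp]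
    rw [← h1, d.kappa_eq, hd, (c.push G.K G.Kz).kappa_eq, add_assoc]
  exact ⟨d, hdk, G.nh hτ (M.kapP j) (fun f => M.trP_kapP j f) G.K G.Kz v hv κ d hk hdk⟩

/-- The data of a decomposition of a homomorphism `α` of `C(Z2)`: it is the sum of `kap_j ∘ Q*` and of
the cycle `κ`. -/
structure Dec (j : ℕ) (Q : C(unitInterval, Z2)) (α : C(Z2, ℂ) →⋆ₐ[ℂ] M.PA)
    (κ : C1 I0 M.trP Z2 z0) (U v : R1 I0 M.PA) : Prop where
  u1 : star U * U = 1
  u2 : U * star U = 1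
  cv : ∀ f, cst I0 M.PA (kq M j Q f) * v = f z0 • v
  vv : star v * v * (κ.ζ - 1) = κ.ζ - 1
  eq : ∀ f, cst I0 M.PA (α f) * U =
    U * (cst I0 M.PA (kq M j Q f) + v * κ.hat f * star v)

omit [T2Space Y] in
theorem thmt_re_cst {P : Type} [CStarAlgebra P] {I I' : Ix} (φ : IxHom I I') (a : P) :
    SQ.re φ (cst I P a) = cst I' P a := by
  rw [cst_apply, cst_apply]
  exact SQ.re_cl φ (Bd.const P a)

omit [T2Space Y] in
/-- Bound for the deviations. -/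
theorem thmt_hat_le {D : Type} [CStarAlgebra D] {J : D → Prop} {X : Type} [TopologicalSpace X]
    [CompactSpace X] {x0 : X} (c : Cyc J X x0) (f : C(X, ℂ)) : ‖c.hat f‖ ≤ 2 * ‖f‖ := by
  have h1 : ‖c.κ f‖ ≤ ‖f‖ := NonUnitalStarAlgHom.norm_apply_le c.κ f
  have h2 : ‖algebraMap ℂ D (f x0)‖ ≤ ‖f‖ := by
    rw [Algebra.algebraMap_eq_smul_one, norm_smul]
    calc ‖f x0‖ * ‖(1 : D)‖ ≤ ‖f‖ * 1 :=
          mul_le_mul (f.norm_coe_le_norm x0) (norm_one_le' D) (norm_nonneg _) (norm_nonneg _)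
      _ = ‖f‖ := mul_one _
  calc ‖c.hat f‖ ≤ ‖c.κ f‖ + ‖algebraMap ℂ D (f x0)‖ := norm_sub_le _ _
    _ ≤ 2 * ‖f‖ := by linarith

theorem thmt_comp_le {X X' : Type} [TopologicalSpace X] [CompactSpace X] [TopologicalSpace X']
    [CompactSpace X'] (f : C(X', ℂ)) (g : C(X, X')) : ‖f.comp g‖ ≤ ‖f‖ :=
  (ContinuousMap.norm_le _ (norm_nonneg f)).2 fun x => f.norm_coe_le_norm (g x)

/-- Conjugation of sums under `cu`. -/
theorem thmt_cu {P : Type} [CStarAlgebra P] (a b : ℕ → SQ I0 (fun _ => P))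
    (ha : ∃ C : ℝ, ∀ n, ‖a n‖ ≤ C) (hb : ∃ C : ℝ, ∀ n, ‖b n‖ ≤ C) (U v : SQ I0 (fun _ => P)) :
    cu (fun n => U * (a n + v * b n * star v) * star U) =
      SQ.re pi2 U * (cu a + SQ.re pi2 v * cu b * star (SQ.re pi2 v)) * star (SQ.re pi2 U) := by
  have hc : ∀ x : SQ I0 (fun _ => P), ∃ C : ℝ, ∀ _ : ℕ, ‖x‖ ≤ C := fun x => ⟨‖x‖, fun _ => le_rfl⟩
  have hm : ∀ x y : ℕ → SQ I0 (fun _ => P), (∃ C : ℝ, ∀ n, ‖x n‖ ≤ C) →
      (∃ C : ℝ, ∀ n, ‖y n‖ ≤ C) → ∃ C : ℝ, ∀ n, ‖x n * y n‖ ≤ C := by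
    rintro x y ⟨C, hC⟩ ⟨D, hD⟩
    exact ⟨C * D, fun n => (norm_mul_le _ _).trans
      (mul_le_mul (hC n) (hD n) (norm_nonneg _) ((norm_nonneg _).trans (hC n)))⟩
  have hp : ∀ x y : ℕ → SQ I0 (fun _ => P), (∃ C : ℝ, ∀ n, ‖x n‖ ≤ C) →
      (∃ C : ℝ, ∀ n, ‖y n‖ ≤ C) → ∃ C : ℝ, ∀ n, ‖x n + y n‖ ≤ C := by
    rintro x y ⟨C, hC⟩ ⟨D, hD⟩
    exact ⟨C + D, fun n => (norm_add_le _ _).trans (add_le_add (hC n) (hD n))⟩
  have k1 : ∃ C : ℝ, ∀ n, ‖v * b n‖ ≤ C := hm (fun _ => v) b (hc v) hb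
  have k2 : ∃ C : ℝ, ∀ n, ‖v * b n * star v‖ ≤ C := hm _ (fun _ => star v) k1 (hc _)
  have k3 : ∃ C : ℝ, ∀ n, ‖a n + v * b n * star v‖ ≤ C := hp _ _ ha k2
  have k4 : ∃ C : ℝ, ∀ n, ‖U * (a n + v * b n * star v)‖ ≤ C := hm (fun _ => U) _ (hc U) k3
  have e1 : cu (fun n => U * (a n + v * b n * star v) * star U) =
      cu (fun n => U * (a n + v * b n * star v)) * cu (fun _ => star U) :=
    cu_mul (fun n => U * (a n + v * b n * star v)) (fun _ => star U) k4 (hc _)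
  have e2 : cu (fun n => U * (a n + v * b n * star v)) =
      cu (fun _ => U) * cu (fun n => a n + v * b n * star v) :=
    cu_mul (fun _ => U) (fun n => a n + v * b n * star v) (hc _) k3
  have e3 : cu (fun n => a n + v * b n * star v) = cu a + cu (fun n => v * b n * star v) :=
    cu_add a (fun n => v * b n * star v) ha k2
  have e4 : cu (fun n => v * b n * star v) = cu (fun n => v * b n) * cu (fun _ => star v) :=
    cu_mul (fun n => v * b n) (fun _ => star v) k1 (hc _)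
  have e5 : cu (fun n => v * b n) = cu (fun _ => v) * cu b := cu_mul (fun _ => v) b (hc _) hb
  rw [e1, e2, e3, e4, e5, cu_const, cu_const, cu_const, cu_const, map_star, map_star]

/-- The cycle over `I2` given by `α`.

Proof. By `cu_fam` and `Dec.eq`, with `U₂ = SQ.re pi2 U`, `v₂ = SQ.re pi2 v` (`cu_const`, `cu_mul`, `cu_add`, `cu_star`),
`e.κ f = U₂ (fam I2 γ (cw) f + v₂ κ'.hat f v₂*) U₂*`, where `γ = kq M j G.Q` and `κ'` is the cycle of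
`exists_cuCyc` for `κ` and the maps `h n = col (some n) ∘ p`, `κ'.ζ = SQ.re pi2 κ.ζ`. So `e` is equivalent
(`eqv_conj`) to the cycle `d` with `d.κ f = fam I2 γ (cw) f + v₂ κ'.hat f v₂*` (`exists_csum` for the cycle of
`γ`, `G.ow_v`; or `Cyc` conjugated), and `d` to `κ'` (`G.nh` for `h = id`). By the homotopies from `col (some n)`
to `col none` (`ColD.exists_H`, composed with `p`), `eqv_cuCyc_hty` and `cuCyc_const`, `κ'` is equivalent
to `Cyc.re pi2 (κ.push p)`, hence (`Eqv.push`, `Eqv.re`) to `Cyc.re pi2 ((c.push K).push p)` and to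
`Cyc.re pi2 c` by `eqv_push_hty` for the homotopy `G.pk`. -/
theorem dec_I2 {j : ℕ} {α : C(Z2, ℂ) →⋆ₐ[ℂ] M.PA} {κ : C1 I0 M.trP Z2 z0} {U v : R1 I0 M.PA}
    (h : Dec M j G.Q α κ U v) (hα : ∀ f, M.trP (α f) = intL ν f) (c : C1 I0 M.trP Y y0)
    (hc : Eqv κ (c.push G.K G.Kz)) (e : C1 I2 M.trP Y y0)
    (he : ∀ f, e.κ f = fam I2 α (G.cw I2) f) : Eqv e (Cyc.re pi2 (ptr_trP M) c) := by
  have hτ := ptr_trP M
  obtain ⟨g, hg⟩ : ∃ g : ℕ → C(Z2, Y), g = fun n => (G.col (some n)).comp G.p := ⟨_, rfl⟩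
  have hg0 : ∀ n, g n z0 = y0 := by
    intro n
    rw [hg]
    change G.col (some n) (G.p z0) = y0
    rw [G.pz, G.cd.c0]
  have hgc : (G.cw I2) = fun l : I2.L => g l.1 := by
    rw [hg]
    rfl
  obtain ⟨U2, hU2⟩ : ∃ U2 : R1 I2 M.PA, U2 = SQ.re pi2 U := ⟨_, rfl⟩
  obtain ⟨v2, hv2⟩ : ∃ v2 : R1 I2 M.PA, v2 = SQ.re pi2 v := ⟨_, rfl⟩
  have u1 : star U2 * U2 = 1 := by rw [hU2, ← map_star, ← map_mul, h.u1, map_one]
  have u2 : U2 * star U2 = 1 := by rw [hU2, ← map_star, ← map_mul, h.u2, map_one]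
  have cv : ∀ f, cst I2 M.PA (kq M j G.Q f) * v2 = f z0 • v2 := by
    intro f
    have h1 := congrArg (SQ.re (A := fun _ => M.PA) pi2) (h.cv f)
    rw [map_mul, map_smul, thmt_re_cst, ← hv2] at h1
    exact h1
  obtain ⟨κ', hk1, hk2⟩ := exists_cuCyc hτ κ g hg0
  have vv : star v2 * v2 * (κ'.ζ - 1) = κ'.ζ - 1 := by
    have h1 := congrArg (SQ.re (A := fun _ => M.PA) pi2) h.vv
    rw [map_mul, map_mul, map_star, map_sub, map_one, ← hv2, ← hk2] at h1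
    exact h1
  -- the cycle of `γ`
  obtain ⟨c0, hc0, hz0⟩ := G.exists_cyc hτ (kq M j G.Q) (fun f => kq_tr M G j f) I2
  have hcv : c0.ζ * v2 = v2 := by
    have h1 := G.ow_v (kq M j G.Q) v2 cv
    rw [← hz0] at h1
    exact h1
  obtain ⟨d, hd⟩ := exists_csum (J1.idl hτ) c0 v2 κ' hcv vv
  have hdk : ∀ f, d.κ f = fam I2 (kq M j G.Q) (G.cw I2) f + v2 * κ'.hat f * star v2 := by
    intro f
    rw [← hc0, d.kappa_eq, hd, c0.kappa_eq, add_assoc]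
  -- `e` and `d`
  have hed : ∀ f, e.κ f = U2 * d.κ f * star U2 := by
    intro f
    have h1 : ∀ n, cst I0 M.PA (α (f.comp (g n))) =
        U * (cst I0 M.PA (kq M j G.Q (f.comp (g n))) + v * κ.hat (f.comp (g n)) * star v) *
          star U := by
      intro n
      rw [← h.eq, mul_assoc, h.u2, mul_one]
    have h2 : fam I2 α (fun l : I2.L => g l.1) f =
        cu (fun n => cst I0 M.PA (α (f.comp (g n)))) := cu_fam α g f
    have h3 : fam I2 (kq M j G.Q) (fun l : I2.L => g l.1) f =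
        cu (fun n => cst I0 M.PA (kq M j G.Q (f.comp (g n)))) := cu_fam (kq M j G.Q) g f
    have h4 : (fun n => cst I0 M.PA (α (f.comp (g n)))) = fun n =>
        U * (cst I0 M.PA (kq M j G.Q (f.comp (g n))) + v * κ.hat (f.comp (g n)) * star v) *
          star U := funext h1
    rw [he, hgc, h2, h4, thmt_cu (fun n => cst I0 M.PA (kq M j G.Q (f.comp (g n))))
      (fun n => κ.hat (f.comp (g n))) ?_ ?_ U v, ← h3, ← hU2, ← hv2, ← hk1, hdk, hgc]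
    · refine ⟨‖f‖, fun n => ?_⟩
      rw [norm_cst]
      exact (NonUnitalStarAlgHom.norm_apply_le _ _).trans (thmt_comp_le f (g n))
    · refine ⟨2 * ‖f‖, fun n => (thmt_hat_le κ _).trans ?_⟩
      linarith [thmt_comp_le f (g n)]
  have E1 : Eqv e d := by
    refine (eqv_conj hτ U2 u1 fun f => ?_).symm
    rw [Cyc.hat, hed, Cyc.hat, mul_sub, sub_mul, ← Algebra.commutes (f y0) U2, mul_assoc _ U2, u2,
      mul_one]
  have E2 : Eqv d κ' := G.nh hτ (M.kapP j) (fun f => M.trP_kapP j f) (ContinuousMap.id Y) rfl v2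
    cv κ' d vv hdk
  -- the homotopies to the constant family
  obtain ⟨H, H0, H1, H2, H3, -, -⟩ := G.cd.exists_H (fun n : ℕ => some n) (fun _ => none)
  obtain ⟨κ'', hk3, hk4⟩ := exists_cuCyc hτ κ (fun _ => G.p) (fun _ => G.pz)
  have E3 : Eqv κ' κ'' := by
    refine eqv_cuCyc_hty hτ κ (fun n => (H n).comp ⟨fun q => (q.1, G.p q.2), by fun_prop⟩)
      (fun n s => ?_) (H3.pre fun _ => G.p) κ' κ'' (fun f => ?_) (fun f => ?_)
    · change H n (s, G.p z0) = y0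
      rw [G.pz, H0]
    · rw [hk1]
      congr 1
      funext n
      congr 2
      ext z
      rw [hg]
      exact (H1 n (G.p z)).symm
    · rw [hk3]
      congr 1
      funext n
      congr 2
      ext z
      exact ((H2 n (G.p z)).trans (G.cd.cn _)).symm
  have E4 : Eqv κ'' (Cyc.re pi2 hτ (κ.push G.p G.pz)) := cuCyc_const hτ κ G.p G.pz κ'' hk3
  have E5 : Eqv (κ.push G.p G.pz) ((c.push G.K G.Kz).push G.p G.pz) := hc.push G.p G.pz
  obtain ⟨H', h0', h1', h2'⟩ := G.pk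
  have E6 : Eqv ((c.push G.K G.Kz).push G.p G.pz) c := by
    have h3 := eqv_push_hty c H' h0'
    have h4 : Eqv c (c.push (hm H' 0) (h0' 0)) := by
      refine eqv_of_kappa hτ fun f => ?_
      rw [Cyc.push_kappa]
      congr 1
      ext y
      exact congrArg f (h1' y)
    have h5 : Eqv ((c.push G.K G.Kz).push G.p G.pz) (c.push (hm H' 1) (h0' 1)) := by
      refine eqv_of_kappa hτ fun f => ?_
      rw [Cyc.push_kappa, Cyc.push_kappa, Cyc.push_kappa]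
      congr 1
      ext y
      exact congrArg f (h2' y)
    exact h5.trans (h3.symm.trans h4.symm)
  exact E1.trans (E2.trans (E3.trans (E4.trans ((E5.trans E6).re pi2 hτ))))

variable [ν.IsOpenPosMeasure]

/-- Approximate uniqueness of the sum of `kap_j ∘ Q*` with a cycle: `main_approx` for
`γ₁ = γ₂ = kq M j G.Q`, `itw_refl`, `G.chn`, and `d₁`, `d₂` from `exists_kqsum`. -/
theorem kqsum_approx {I : Ix} (j : ℕ) (κ₁ κ₂ : C1 I M.trP Z2 z0) (v₁ v₂ : R1 I M.PA)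
    (hv₁ : ∀ f, cst I M.PA (kq M j G.Q f) * v₁ = f z0 • v₁)
    (hv₂ : ∀ f, cst I M.PA (kq M j G.Q f) * v₂ = f z0 • v₂)
    (hw₁ : star v₁ * v₁ * (κ₁.ζ - 1) = κ₁.ζ - 1) (hw₂ : star v₂ * v₂ * (κ₂.ζ - 1) = κ₂.ζ - 1)
    (hE : Eqv κ₁ κ₂) (F : Finset C(Z2, ℂ)) (ε : ℝ) (hε : 0 < ε) :
    ∃ u : R1 I M.PA, star u * u = 1 ∧ u * star u = 1 ∧ ∀ f ∈ F,
      ‖u * (cst I M.PA (kq M j G.Q f) + v₂ * κ₂.hat f * star v₂) -
        (cst I M.PA (kq M j G.Q f) + v₁ * κ₁.hat f * star v₁) * u‖ ≤ ε := by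
  obtain ⟨d₁, hd₁, E₁⟩ := exists_kqsum M G j v₁ κ₁ hv₁ hw₁
  obtain ⟨d₂, hd₂, E₂⟩ := exists_kqsum M G j v₂ κ₂ hv₂ hw₂
  exact main_approx M (kq M j G.Q) (kq M j G.Q) (fun f => kq_tr M G j f) (itw_refl M I _)
    (fun l => G.K.comp (G.cw I l)) (G.chn I) κ₁ κ₂ v₁ v₂ hv₁ hv₂ hw₁ hw₂ d₁ d₂ hd₁ hd₂
    (E₁.trans (hE.trans E₂.symm)) F ε hε

omit [ν.IsOpenPosMeasure] in
include M in
/-- Scalars in the algebra of families are determined. -/
theorem thmt_inj {x y : ℂ} (h : algebraMap ℂ (KK I0 K) x = algebraMap ℂ (KK I0 K) y) : x = y := by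
  haveI : Nontrivial K := ⟨M.Om, 0, fun h0 => by
    have h1 := M.norm_Om
    rw [h0, norm_zero] at h1
    exact zero_ne_one h1⟩
  have h1 : algebraMap ℂ (KK I0 K) (x - y) = cst I0 (K →L[ℂ] K) (algebraMap ℂ _ (x - y)) :=
    (AlgHomClass.commutes (cst I0 (K →L[ℂ] K)) (x - y)).symm
  have h2 : ‖(algebraMap ℂ (K →L[ℂ] K) (x - y))‖ = 0 := by
    rw [← norm_cst I0, ← h1, map_sub, h, sub_self, norm_zero]
  rw [norm_algebraMap'] at h2
  exact sub_eq_zero.1 (norm_eq_zero.1 h2)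

/-- Existence of homomorphisms with a prescribed invariant.

Proof. `κ₀ = c.push K`, `v` from `exists_v` (with `kq_tr`), `a = osum (cst ∘ kq) v κ₀`. For two
subsequences, `SQ.re (subIx σ) (a f)` is the sum for `SQ.re v` and `Cyc.re (subIx σ) κ₀`, and these cycles
are equivalent by `hre` (`Eqv.push`); so `kqsum_approx` and `sat_unitary` give the hypothesis of
`exists_exact`. Take `κ = Cyc.re (subIx σ) κ₀`. The trace of `α`: apply `tcK` (`trH_osum`,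
`tcK_mul_comm`, `tcK_cl`). -/
theorem exists_dec (j : ℕ) (c : C1 I0 M.trP Y y0)
    (hre : ∀ σ hσ, Eqv (Cyc.re (subIx σ hσ) (ptr_trP M) c) c) :
    ∃ (α : C(Z2, ℂ) →⋆ₐ[ℂ] M.PA) (κ : C1 I0 M.trP Z2 z0) (U v : R1 I0 M.PA),
      Dec M j G.Q α κ U v ∧ Eqv κ (c.push G.K G.Kz) ∧ ∀ f, M.trP (α f) = intL ν f := by
  have hτ := ptr_trP M
  obtain ⟨κ₀, hκ₀⟩ : ∃ κ₀ : C1 I0 M.trP Z2 z0, κ₀ = c.push G.K G.Kz := ⟨_, rfl⟩
  obtain ⟨v, hv, hk⟩ := exists_v M (kq M j G.Q) (fun f => kq_tr M G j f) κ₀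
  have hA : Adp ((cst I0 M.PA).comp (kq M j G.Q)) v κ₀ := ⟨hv, hk⟩
  obtain ⟨a, ha⟩ : ∃ a : C(Z2, ℂ) →⋆ₐ[ℂ] R1 I0 M.PA,
      a = osum ((cst I0 M.PA).comp (kq M j G.Q)) v κ₀ hA := ⟨_, rfl⟩
  -- subsequences
  have hre1 : ∀ σ hσ, Eqv (Cyc.re (subIx σ hσ) hτ κ₀) κ₀ := by
    intro σ hσ
    rw [hκ₀]
    refine Eqv.trans (eqv_of_kappa hτ fun f => ?_) ((hre σ hσ).push G.K G.Kz)
    rfl
  have hre2 : ∀ σ hσ f, SQ.re (subIx σ hσ) (a f) = cst I0 M.PA (kq M j G.Q f) +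
      SQ.re (subIx σ hσ) v * (Cyc.re (subIx σ hσ) hτ κ₀).hat f *
        star (SQ.re (subIx σ hσ) v) := by
    intro σ hσ f
    have h1 : a f = cst I0 M.PA (kq M j G.Q f) + v * κ₀.hat f * star v := by
      rw [ha]
      rfl
    rw [h1, map_add, map_mul, map_mul, map_star, Cyc.re_hat, thmt_re_cst]
  have hre3 : ∀ σ hσ f, cst I0 M.PA (kq M j G.Q f) * SQ.re (subIx σ hσ) v =
      f z0 • (SQ.re (subIx σ hσ) v : R1 I0 M.PA) := by
    intro σ hσ f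
    have h1 := congrArg (SQ.re (A := fun _ => M.PA) (subIx σ hσ)) (hv f)
    rw [map_mul, map_smul, thmt_re_cst] at h1
    exact h1
  have hre4 : ∀ σ hσ, star (SQ.re (subIx σ hσ) v) * SQ.re (subIx σ hσ) v *
      ((Cyc.re (subIx σ hσ) hτ κ₀).ζ - 1) = (Cyc.re (subIx σ hσ) hτ κ₀).ζ - 1 := by
    intro σ hσ
    have h1 := congrArg (SQ.re (A := fun _ => M.PA) (subIx σ hσ)) hk
    rw [map_mul, map_mul, map_star, map_sub, map_one] at h1
    exact h1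
  obtain ⟨α, σ, hσ, U, u1, u2, hU⟩ := exists_exact a (by
    intro σ σ' hσ hσ'
    obtain ⟨u, h1, h2, h3⟩ := sat_unitary ((SQ.re (subIx σ' hσ')).comp a)
      ((SQ.re (subIx σ hσ)).comp a) (by
        intro F ε hε
        obtain ⟨u, h1, h2, h3⟩ := kqsum_approx M G j (Cyc.re (subIx σ' hσ') hτ κ₀)
          (Cyc.re (subIx σ hσ) hτ κ₀) (SQ.re (subIx σ' hσ') v) (SQ.re (subIx σ hσ) v)
          (hre3 σ' hσ') (hre3 σ hσ) (hre4 σ' hσ') (hre4 σ hσ)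
          ((hre1 σ' hσ').trans (hre1 σ hσ).symm) F ε hε
        refine ⟨u, h1, h2, fun f hf => ?_⟩
        have h4 := h3 f hf
        rw [← hre2, ← hre2] at h4
        exact h4)
    exact ⟨u, h1, h2, h3⟩)
  refine ⟨α, Cyc.re (subIx σ hσ) hτ κ₀, U, SQ.re (subIx σ hσ) v,
    ⟨u1, u2, hre3 σ hσ, hre4 σ hσ, fun f => ?_⟩, ?_, fun f => ?_⟩
  · rw [hU, hre2]
  · rw [← hκ₀]
    exact hre1 σ hσ
  · -- the trace
    have h1 : tcK M I0 (SQ.re (subIx σ hσ) (a f)) = algebraMap ℂ (KK I0 K) (intL ν f) :=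
      trH_osum M (kq M j G.Q) (fun f => kq_tr M G j f) ((SQ.re (subIx σ hσ)).comp a)
        (SQ.re (subIx σ hσ) v) (Cyc.re (subIx σ hσ) hτ κ₀) (fun f => hre2 σ hσ f) f
    have h2 : tcK M I0 (cst I0 M.PA (α f)) = algebraMap ℂ (KK I0 K) (intL ν f) := by
      have h3 : cst I0 M.PA (α f) = U * (SQ.re (subIx σ hσ) (a f) * star U) := by
        rw [← mul_assoc, ← hU, mul_assoc, u2, mul_one]
      rw [h3, tcK_mul_comm, mul_assoc, u1, mul_one, h1]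
    have h4 : tcK M I0 (cst I0 M.PA (α f)) = algebraMap ℂ (KK I0 K) (M.trP (α f)) := by
      rw [cst_apply, tcK_cl M I0 (Bd.const M.PA (α f))]
      exact cl_algebraMap I0 _
    exact thmt_inj M (h4.symm.trans h2)

/-- The transfer theorem. -/
theorem transfer (j : ℕ) (c : C1 I0 M.trP Y y0)
    (hre : ∀ σ hσ, Eqv (Cyc.re (subIx σ hσ) (ptr_trP M) c) c) :
    ∃ (α : C(Z2, ℂ) →⋆ₐ[ℂ] M.PA) (κ : C1 I0 M.trP Z2 z0) (U v : R1 I0 M.PA),
      Dec M j G.Q α κ U v ∧ Eqv κ (c.push G.K G.Kz) ∧ (∀ f, M.trP (α f) = intL ν f) ∧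
      ∀ e : C1 I2 M.trP Y y0, (∀ f, e.κ f = fam I2 α (G.cw I2) f) →
        Eqv e (Cyc.re pi2 (ptr_trP M) c) := by
  obtain ⟨α, κ, U, v, h1, h2, h3⟩ := exists_dec M G j c hre
  exact ⟨α, κ, U, v, h1, h2, h3, dec_I2 M G h1 h3 c h2⟩

end H7c
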