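import Pool.Agent.H.MP_7b4a29_c.ThmT

/-!
# The comparison theorem
-/

open Filter Topology MeasureTheory H47

namespace H7c

variable {Z : Type} [MetricSpace Z] [CompactSpace Z] [MeasurableSpace Z] [BorelSpace Z]
  {μ : Measure Z} [IsProbabilityMeasure μ]
  {K : Type} [NormedAddCommGroup K] [InnerProductSpace ℂ K] [CompleteSpace K]
  (M : FModel C(Z, ℂ) (intL μ) K)
  {Z2 : Type} [MetricSpace Z2] [CompactSpace Z2] [MeasurableSpace Z2] [BorelSpace Z2]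
  {ν : Measure Z2} [IsProbabilityMeasure ν] {z0 : Z2}
  {Y : Type} [TopologicalSpace Y] [CompactSpace Y] [T2Space Y] {y0 : Y}
  (G : Geo Z2 ν z0 Y y0)
  {K' : Type} [NormedAddCommGroup K'] [InnerProductSpace ℂ K'] [CompleteSpace K']
  (M' : FModel C(Z2, ℂ) (intL ν) K')
  (Φ : M.PA →⋆ₐ[ℂ] M'.PA) (hΦ : ∀ x, M'.trP (Φ x) = M.trP x)

theorem mapR1_cst (I : Ix) (x : M.PA) : mapR1 I Φ (cst I M.PA x) = cst I M'.PA (Φ x) := by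
  rw [cst_apply, cst_apply]
  exact cycf_mapR1_cl Φ (Bd.const M.PA x)

theorem re_cst {I I' : Ix} (φ : IxHom I I') (P : Type) [CStarAlgebra P] (x : P) :
    SQ.re φ (cst I P x) = cst I' P x := by
  rw [cst_apply, cst_apply]
  exact SQ.re_cl φ (Bd.const P x)

/-- `φ` followed by restriction to subsequences commutes: `κ` of both sides. -/
theorem re_mapP_push {I I' : Ix} (φ : IxHom I I') (c : C1 I M.trP Y y0) (g : C(Y, Z2))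
    (hg : g y0 = z0) :
    Eqv (Cyc.re φ (ptr_trP M') (Cyc.mapP Φ hΦ (c.push g hg)))
      ((Cyc.re φ (ptr_trP M') (Cyc.mapP Φ hΦ c)).push g hg) := by
  refine eqv_of_kappa (ptr_trP M') fun f => ?_
  rfl

variable [ν.IsOpenPosMeasure]

/-- Comparison with the inclusion `M'.incP`.

Proof. Put `κ₁ = Cyc.re pi1 (Cyc.mapP Φ κ)`, `U₁ = SQ.re pi1 (mapR1 I0 Φ U)`, `v₁ = SQ.re pi1 (mapR1 I0 Φ v)`.
By `Dec.eq`, `mapR1_cst`, `re_cst` and `hk`,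
`cst I2 (Φ (α f)) U₁ = U₁ (cst I2 (kq M' j' G.Q f) + v₁ κ₁.hat f v₁*)`.
Apply `main_approx` to `M'`, `I = I2`, `γ₁ = kq M' j' G.Q`, `γ₂ = M'.incP` (`itw_of` with `S = {j'}`,
`kap_mem`, `inc_mem`), `c = K ∘ cw` (`G.chn`), `κ₁`, `v₁`, `κ₂ = Cyc.triv`, `v₂ = 0`, `d₁` from `exists_kqsum`,
`d₂ = e.push K`. `d₁ ∼ κ₁ ∼ Cyc.re pi1 (Cyc.mapP Φ (c.push K)) ∼ (Cyc.re pi1 (Cyc.mapP Φ c)).push K ∼ e.push K`
(`Eqv.mapP`, `Eqv.re`, `re_mapP_push`, `Eqv.push`). With `sat_unitary` there is a unitary `w` with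
`w * cst (M'.incP f) = (cst (kq M' j' G.Q f) + v₁ κ₁.hat f v₁*) * w`, and
`(U₁ w) * cst (M'.incP f) = cst (Φ (α f)) * (U₁ w)`. `approx_of_cst`. -/
theorem thmV {j j' : ℕ} (hk : ∀ f, Φ (M.kapP j f) = M'.kapP j' f)
    {α : C(Z2, ℂ) →⋆ₐ[ℂ] M.PA} {κ : C1 I0 M.trP Z2 z0} {U v : R1 I0 M.PA}
    (h : Dec M j G.Q α κ U v) (c : C1 I0 M.trP Y y0)
    (hc : Eqv κ (c.push G.K G.Kz)) (e : C1 I2 M'.trP Y y0)
    (he : ∀ f, e.κ f = fam I2 M'.incP (G.cw I2) f)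
    (hE : Eqv (Cyc.re pi1 (ptr_trP M') (Cyc.mapP Φ hΦ c)) e) (F : Finset C(Z2, ℂ)) (ε : ℝ)
    (hε : 0 < ε) :
    ∃ u : M'.PA, star u * u = 1 ∧ u * star u = 1 ∧
      ∀ f ∈ F, ‖u * M'.incP f - Φ (α f) * u‖ ≤ ε := by
  have hτ' := ptr_trP M'
  have hJ : Idl (J1 I2 M'.trP) := J1.idl hτ'
  obtain ⟨Ψ, hΨ⟩ : ∃ Ψ : R1 I0 M.PA →⋆ₐ[ℂ] R1 I2 M'.PA,
      Ψ = (SQ.re (A := fun _ => M'.PA) pi1).comp (mapR1 I0 Φ) := ⟨_, rfl⟩
  have hΨc : ∀ x, Ψ (cst I0 M.PA x) = cst I2 M'.PA (Φ x) := by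
    intro x
    rw [hΨ, StarAlgHom.comp_apply, mapR1_cst]
    exact re_cst pi1 M'.PA (Φ x)
  have hkq : ∀ f, Φ (kq M j G.Q f) = kq M' j' G.Q f := fun f => hk _
  obtain ⟨κ₁, hκ₁⟩ : ∃ κ₁ : C1 I2 M'.trP Z2 z0, κ₁ = Cyc.re pi1 hτ' (Cyc.mapP Φ hΦ κ) :=
    ⟨_, rfl⟩
  have hκh : ∀ f, κ₁.hat f = Ψ (κ.hat f) := by
    intro f
    rw [hκ₁, Cyc.re_hat, Cyc.mapP_hat, hΨ]
    rfl
  have hκz : κ₁.ζ = Ψ κ.ζ := by
    rw [hκ₁, hΨ]
    rfl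
  obtain ⟨U₁, hU₁⟩ : ∃ U₁ : R1 I2 M'.PA, U₁ = Ψ U := ⟨_, rfl⟩
  obtain ⟨v₁, hv₁⟩ : ∃ v₁ : R1 I2 M'.PA, v₁ = Ψ v := ⟨_, rfl⟩
  have u1 : star U₁ * U₁ = 1 := by rw [hU₁, ← map_star, ← map_mul, h.u1, map_one]
  have u2 : U₁ * star U₁ = 1 := by rw [hU₁, ← map_star, ← map_mul, h.u2, map_one]
  have cv : ∀ f, cst I2 M'.PA (kq M' j' G.Q f) * v₁ = f z0 • v₁ := by
    intro f
    have h1 := congrArg Ψ (h.cv f)
    rw [map_mul, map_smul, hΨc, hkq, ← hv₁] at h1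
    exact h1
  have vv : star v₁ * v₁ * (κ₁.ζ - 1) = κ₁.ζ - 1 := by
    have h1 := congrArg Ψ h.vv
    rw [map_mul, map_mul, map_star, map_sub, map_one, ← hv₁, ← hκz] at h1
    exact h1
  have heq : ∀ f, cst I2 M'.PA (Φ (α f)) * U₁ =
      U₁ * (cst I2 M'.PA (kq M' j' G.Q f) + v₁ * κ₁.hat f * star v₁) := by
    intro f
    have h1 := congrArg Ψ (h.eq f)
    rw [map_mul, map_mul, map_add, map_mul, map_mul, map_star, hΨc, hΨc, hkq, ← hκh, ← hU₁,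
      ← hv₁] at h1
    exact h1
  obtain ⟨d₁, hd₁, E₁⟩ := exists_kqsum M' G j' v₁ κ₁ cv vv
  have hI : Itw M' I2 (kq M' j' G.Q) M'.incP :=
    itw_of M' I2 (S := {j'}) (Set.finite_singleton j').infinite_compl _ _
      (fun f => M'.kap_mem _ j' (Set.mem_singleton j') _) (fun f => M'.inc_mem _ f)
      (fun f => kq_tr M' G j' f) (fun f => M'.trP_incP f)
  have E₂ : Eqv d₁ (e.push G.K G.Kz) := by
    refine E₁.trans ?_
    have h1 : Eqv κ₁ (Cyc.re pi1 hτ' (Cyc.mapP Φ hΦ (c.push G.K G.Kz))) := by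
      rw [hκ₁]
      exact (hc.mapP Φ hΦ).re pi1 hτ'
    exact h1.trans ((re_mapP_push M M' Φ hΦ pi1 c G.K G.Kz).trans (hE.push G.K G.Kz))
  have hz : (Cyc.triv (J1 I2 M'.trP) Z2 z0 hJ).ζ = 1 := rfl
  obtain ⟨w, w1, w2, hw⟩ := sat_unitary
    (osum ((cst I2 M'.PA).comp (kq M' j' G.Q)) v₁ κ₁ ⟨cv, vv⟩)
    ((cst I2 M'.PA).comp M'.incP) (by
      intro F ε hε
      obtain ⟨u, h1, h2, h3⟩ := main_approx M' (kq M' j' G.Q) M'.incP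
        (fun f => M'.trP_incP f) hI (fun l => G.K.comp (G.cw I2 l)) (G.chn I2) κ₁
        (Cyc.triv (J1 I2 M'.trP) Z2 z0 hJ) v₁ 0 cv
        (fun f => by rw [mul_zero, smul_zero]) vv
        (by rw [hz, sub_self, mul_zero]) d₁ (e.push G.K G.Kz) hd₁
        (fun f => by
          rw [Cyc.push_kappa, he, fam_comp, zero_mul, zero_mul, add_zero]) E₂ F ε hε
      refine ⟨u, h1, h2, fun f hf => ?_⟩
      have h4 := h3 f hf
      rw [zero_mul, zero_mul, add_zero] at h4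
      exact h4)
  refine approx_of_cst (fun f => Φ (α f)) (fun f => M'.incP f) (U₁ * w) ?_ ?_ (fun f => ?_) F ε hε
  · rw [star_mul, mul_assoc, ← mul_assoc (star U₁), u1, one_mul, w1]
  · rw [star_mul, mul_assoc, ← mul_assoc w, w2, one_mul, u2]
  · have h1 : w * cst I2 M'.PA (M'.incP f) =
        (cst I2 M'.PA (kq M' j' G.Q f) + v₁ * κ₁.hat f * star v₁) * w := hw f
    rw [mul_assoc, h1, ← mul_assoc, ← heq, mul_assoc]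

end H7c
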