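import Pool.Agent.H.MP_7b4a29_c.CircG
import Pool.Agent.H.MP_47f0a1_an.CircW

/-!
# Almost unitary intertwiners between two homomorphisms with the same trace
-/

open MeasureTheory H47

namespace H7c

variable {A : Type} [Ring A] [StarRing A] [Algebra ℂ A] [StarModule ℂ A] {τ : A →ₗ[ℂ] ℂ}
  {K : Type} [NormedAddCommGroup K] [InnerProductSpace ℂ K] [CompleteSpace K]
  (M : FModel A τ K)
  {Z : Type} [MetricSpace Z] [CompactSpace Z] [MeasurableSpace Z] [BorelSpace Z]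
  {ν : Measure Z} [IsProbabilityMeasure ν] [ν.IsOpenPosMeasure]
  {S : Set ℕ} (hS : Sᶜ.Infinite)
  (φ ψ : C(Z, ℂ) →⋆ₐ[ℂ] (K →L[ℂ] K)) (hφ : ∀ f, φ f ∈ M.E S) (hψ : ∀ f, ψ f ∈ M.E S)
  (tφ : ∀ f, M.st (φ f) = intL ν f) (tψ : ∀ f, M.st (ψ f) = intL ν f)

include hS hφ hψ tφ tψ

/-- As `exists_U` in `CircU.lean`, with `exists_TG` in place of `exists_T` (`σ` an injective
enumeration of labels outside `S`; the homomorphisms `φ`, `ψ` in place of `a ↦ inc (a ∘ θ)`, `inc`). -/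
theorem exists_UG (F : Finset C(Z, ℂ)) (ε κ : ℝ) (hε : 0 < ε) (hκ : 0 < κ) :
    ∃ U : K →L[ℂ] K, U ∈ M.E Set.univ ∧ ‖U‖ ≤ 1 ∧
      (∀ a ∈ F, ‖φ a * U - U * ψ a‖ ≤ ε) ∧
      (M.st (1 - star U * U)).re ≤ κ ∧ ∀ n : ℕ, 1 ≤ n → M.st (U ^ n) = 0 := by
  classical
  obtain ⟨σ, hσ, hσS⟩ : ∃ σ : ℕ → ℕ, Function.Injective σ ∧ ∀ j, σ j ∉ S :=
    ⟨fun j => (hS.natEmbedding _ j : ℕ), fun i j h => (hS.natEmbedding _).injective
      (Subtype.ext h), fun j => (hS.natEmbedding _ j).2⟩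
  obtain ⟨η, hη, hη1, hgap⟩ := sc_gap κ hκ
  obtain ⟨F', hFF', hF'⟩ : ∃ F' : Finset C(Z, ℂ), F ⊆ F' ∧ ∀ a ∈ F', star a ∈ F' := by
    refine ⟨F ∪ F.image star, Finset.subset_union_left, fun a ha => ?_⟩
    rcases Finset.mem_union.1 ha with ha | ha
    · exact Finset.mem_union_right _ (Finset.mem_image_of_mem _ ha)
    · obtain ⟨b, hb, rfl⟩ := Finset.mem_image.1 ha
      rw [star_star]
      exact Finset.mem_union_left _ hb
  obtain ⟨C, hC⟩ : ∃ C : ℝ, ∀ a ∈ F', ‖ψ a‖ ≤ C :=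
    ⟨∑ a ∈ F', ‖ψ a‖, fun a ha =>
      Finset.single_le_sum (f := fun a => ‖ψ a‖) (fun _ _ => norm_nonneg _) ha⟩
  obtain ⟨η', hη', H⟩ := comm_cfc (gam η) (gam_continuous η hη) 4 C (ε / 4) (by linarith)
  have hsη : 0 < Real.sqrt η := Real.sqrt_pos.2 hη
  obtain ⟨ε₁, hε₁, hε₁a, hε₁b⟩ : ∃ ε₁ : ℝ, 0 < ε₁ ∧ ε₁ ≤ ε / 2 * Real.sqrt η ∧ 4 * ε₁ ≤ η' := by
    refine ⟨min (ε / 2 * Real.sqrt η) (η' / 4), lt_min (by positivity) (by positivity),
      min_le_left _ _, ?_⟩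
    have := min_le_right (ε / 2 * Real.sqrt η) (η' / 4)
    linarith
  obtain ⟨T, hT, hcirc, hTc⟩ := exists_TG M hσ hσS φ ψ hφ hψ tφ tψ F' ε₁ hε₁
  have hT2 : ‖T‖ ≤ 2 := hcirc.norm_le
  have hsT2 : ‖star T‖ ≤ 2 := by rw [norm_star]; exact hT2
  have hsa : IsSelfAdjoint (star T * T) := IsSelfAdjoint.star_mul_self T
  have hh4 : ‖star T * T‖ ≤ 4 := by
    calc ‖star T * T‖ ≤ ‖star T‖ * ‖T‖ := norm_mul_le _ _
      _ ≤ 2 * 2 := mul_le_mul hsT2 hT2 (norm_nonneg _) (by norm_num)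
      _ = 4 := by norm_num
  have hcomm : ∀ a ∈ F', ‖ψ a * (star T * T) - star T * T * ψ a‖ ≤ 4 * ε₁ := by
    intro a ha
    have h1 := hTc a ha
    have h2 := hTc (star a) (hF' a ha)
    have e : star (φ (star a) * T - T * ψ (star a)) = star T * φ a - ψ a * star T := by
      rw [star_sub, star_mul, star_mul, map_star, map_star, star_star, star_star]
    have h3 : ‖star T * φ a - ψ a * star T‖ ≤ ε₁ := by
      rw [← e, norm_star]
      exact h2
    have e2 : ψ a * (star T * T) - star T * T * ψ a =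
        star T * (φ a * T - T * ψ a) - (star T * φ a - ψ a * star T) * T := by
      rw [mul_sub, sub_mul]
      simp only [mul_assoc]
      abel
    rw [e2]
    calc ‖star T * (φ a * T - T * ψ a) - (star T * φ a - ψ a * star T) * T‖
        ≤ ‖star T * (φ a * T - T * ψ a)‖ + ‖(star T * φ a - ψ a * star T) * T‖ :=
        norm_sub_le _ _
      _ ≤ ‖star T‖ * ‖φ a * T - T * ψ a‖ + ‖star T * φ a - ψ a * star T‖ * ‖T‖ :=
        add_le_add (norm_mul_le _ _) (norm_mul_le _ _)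
      _ ≤ 2 * ε₁ + ε₁ * 2 :=
        add_le_add (mul_le_mul hsT2 h1 (norm_nonneg _) (by norm_num))
          (mul_le_mul h3 hT2 (norm_nonneg _) hε₁.le)
      _ = 4 * ε₁ := by ring
  have hgn : ‖cfc (gam η) (star T * T)‖ ≤ (Real.sqrt η)⁻¹ :=
    norm_cfc_le (inv_nonneg.2 hsη.le) fun t _ => circU_gam_le η hη t
  refine ⟨T * cfc (gam η) (star T * T), ?_, norm_U_le T η hη, ?_, ?_, ?_⟩
  · exact mul_mem hT (cfc_mem_of_isClosed (M.E _) (M.isClosed_E _) (star T * T)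
      (mul_mem (star_mem hT) hT) hsa _ (gam_continuous η hη))
  · intro a ha
    have ha' : a ∈ F' := hFF' ha
    have h1 := hTc a ha'
    have h2 := H (K →L[ℂ] K) (ψ a) (star T * T) hsa hh4 (hC a ha')
      ((hcomm a ha').trans hε₁b)
    have e3 : φ a * (T * cfc (gam η) (star T * T)) - T * cfc (gam η) (star T * T) * ψ a =
        (φ a * T - T * ψ a) * cfc (gam η) (star T * T) +
          T * (ψ a * cfc (gam η) (star T * T) - cfc (gam η) (star T * T) * ψ a) := by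
      rw [mul_sub, sub_mul]
      simp only [mul_assoc]
      abel
    rw [e3]
    calc ‖(φ a * T - T * ψ a) * cfc (gam η) (star T * T) +
          T * (ψ a * cfc (gam η) (star T * T) - cfc (gam η) (star T * T) * ψ a)‖
        ≤ ‖(φ a * T - T * ψ a) * cfc (gam η) (star T * T)‖ +
          ‖T * (ψ a * cfc (gam η) (star T * T) - cfc (gam η) (star T * T) * ψ a)‖ :=
        norm_add_le _ _
      _ ≤ ‖φ a * T - T * ψ a‖ * ‖cfc (gam η) (star T * T)‖ +
          ‖T‖ * ‖ψ a * cfc (gam η) (star T * T) - cfc (gam η) (star T * T) * ψ a‖ :=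
        add_le_add (norm_mul_le _ _) (norm_mul_le _ _)
      _ ≤ (ε / 2 * Real.sqrt η) * (Real.sqrt η)⁻¹ + 2 * (ε / 4) :=
        add_le_add (mul_le_mul (h1.trans hε₁a) hgn (norm_nonneg _) (by positivity))
          (mul_le_mul hT2 h2 (norm_nonneg _) (by norm_num))
      _ = ε := by
        rw [mul_assoc, mul_inv_cancel₀ hsη.ne']
        ring
  · have hc1 : Continuous fun t : ℝ => min 1 (t / η) :=
      continuous_const.min (continuous_id.div_const η)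
    have hc2 : Continuous fun t : ℝ => 1 - min 1 (t / η) := continuous_const.sub hc1
    have e : (1 : K →L[ℂ] K) - star (T * cfc (gam η) (star T * T)) *
        (T * cfc (gam η) (star T * T)) = cfc (fun t : ℝ => 1 - min 1 (t / η)) (star T * T) := by
      rw [star_U_mul_U T η hη, cfc_sub (fun _ : ℝ => (1 : ℝ)) (fun t : ℝ => min 1 (t / η))
        (star T * T) continuous_const.continuousOn hc1.continuousOn,
        cfc_const_one ℝ (star T * T) hsa]
    rw [e, M.st_apply, hcirc.st_cfc M.norm_Om _ hc2]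
    exact hgap
  · intro n hn
    rw [M.st_apply]
    exact hcirc.pow_zero (gam η) (gam_continuous η hη) n hn

/-- As `exists_Uw` in `CircW.lean`: `w = logU U p` with `p` from `exists_log`. -/
theorem exists_UwG (hτ : ∀ a b, τ (a * b) = τ (b * a)) (F : Finset C(Z, ℂ)) (ε κ : ℝ)
    (hε : 0 < ε) (hκ : 0 < κ) :
    ∃ U w : K →L[ℂ] K, U ∈ M.E Set.univ ∧ w ∈ M.E Set.univ ∧ ‖U‖ ≤ 1 ∧
      star w * w = 1 ∧ w * star w = 1 ∧ (∀ a ∈ F, ‖φ a * U - U * ψ a‖ ≤ ε) ∧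
      (M.st (1 - star U * U)).re ≤ κ ∧ ‖(w - U) M.Om‖ ≤ κ := by
  obtain ⟨p, κ₁, hκ₁, hp, hlog⟩ := M.exists_log hτ κ hκ
  obtain ⟨U, hUE, hU1, hint, hst, hpow⟩ := exists_UG M hS φ ψ hφ hψ tφ tψ F ε
    (min κ κ₁) hε (lt_min hκ hκ₁)
  exact ⟨U, logU U p, hUE, logU_mem (M.E _) (M.isClosed_E _) U hUE p, hU1,
    (logU_unitary U p hp).1, (logU_unitary U p hp).2, hint, hst.trans (min_le_left _ _),
    hlog U hUE hU1 (hst.trans (min_le_right _ _)) hpow⟩

end H7c
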