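import Pool.Agent.H.MP_7b4a29_c.Fz
import Pool.Agent.H.MP_7b4a29_c.Bl

/-!
# A path from `1` to the cyclic shift
-/

open Filter Topology

namespace H7c

/-- The spectrum of a matrix is finite. -/
theorem finite_spectrum {n : Type} [Fintype n] [DecidableEq n] (x : MM n ℂ) :
    (spectrum ℂ x).Finite := by
  have h := Matrix.finite_spectrum (MM.toM n ℂ x)
  rwa [AlgEquiv.spectrum_eq (MM.toM n ℂ) x] at h

theorem vpath_exp (θ s s' : ℝ) : ‖Complex.exp (Complex.I * ((s * θ : ℝ) : ℂ)) -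
    Complex.exp (Complex.I * ((s' * θ : ℝ) : ℂ))‖ ≤ |s - s'| * |θ| := by
  have h1 : Complex.exp (Complex.I * ((s * θ : ℝ) : ℂ)) -
      Complex.exp (Complex.I * ((s' * θ : ℝ) : ℂ)) =
      Complex.exp (((s' * θ : ℝ) : ℂ) * Complex.I) *
        (Complex.exp (Complex.I * (((s - s') * θ : ℝ) : ℂ)) - 1) := by
    rw [mul_sub, mul_one, ← Complex.exp_add]
    congr 2
    · push_cast
      ring
    · ring
  rw [h1, norm_mul, Complex.norm_exp_ofReal_mul_I, one_mul]
  refine (Real.norm_exp_I_mul_ofReal_sub_one_le).trans ?_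
  rw [Real.norm_eq_abs, abs_mul]

/-- A unitary matrix is connected to `1` by a path of unitaries with Lipschitz constant `π`.

Proof. The spectrum of `u` is finite, so every function is continuous on it; put
`p s = cfc (fun z => exp (i s arg z)) u`. Then `p 0 = 1`, `p 1 = cfc id u = u` (on the unit circle
`exp (i arg z) = z`), `p s` is unitary, and `|exp (i s θ) - exp (i s' θ)| ≤ |s - s'| |θ|`. -/
theorem exists_mpath {n : Type} [Fintype n] [DecidableEq n] (u : MM n ℂ)
    (h1 : star u * u = 1) (h2 : u * star u = 1) :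
    ∃ p : ℝ → MM n ℂ, (∀ s, star (p s) * p s = 1 ∧ p s * star (p s) = 1) ∧ p 0 = 1 ∧ p 1 = u ∧
      ∀ s s', ‖p s - p s'‖ ≤ Real.pi * |s - s'| := by
  have hu : u ∈ unitary (MM n ℂ) := Unitary.mem_iff.2 ⟨h1, h2⟩
  have hn : IsStarNormal u := isStarNormal_of_mem_unitary hu
  have hfin := finite_spectrum u
  have hc : ∀ f : ℂ → ℂ, ContinuousOn f (spectrum ℂ u) := fun f => hfin.continuousOn f
  have hcirc : ∀ z ∈ spectrum ℂ u, ‖z‖ = 1 := by
    intro z hz
    have := Unitary.spectrum_subset_circle (⟨u, hu⟩ : unitary (MM n ℂ)) hz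
    simpa using this
  let F : ℝ → ℂ → ℂ := fun s z => Complex.exp (Complex.I * ((s * Complex.arg z : ℝ) : ℂ))
  refine ⟨fun s => cfc (F s) u, fun s => ?_, ?_, ?_, fun s s' => ?_⟩
  · have h3 : cfc (F s) u ∈ unitary (MM n ℂ) := by
      rw [cfc_unitary_iff (F s) u hn (hc _)]
      intro z _
      have h4 : F s z = Complex.exp (((s * Complex.arg z : ℝ) : ℂ) * Complex.I) := by
        change Complex.exp _ = Complex.exp _
        rw [mul_comm]
      rw [Complex.star_def, ← Complex.normSq_eq_conj_mul_self, Complex.normSq_eq_norm_sq, h4,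
        Complex.norm_exp_ofReal_mul_I]
      simp
    exact Unitary.mem_iff.1 h3
  · change cfc (F 0) u = 1
    have h4 : F 0 = fun _ => (1 : ℂ) := by
      funext z
      change Complex.exp _ = 1
      simp
    rw [h4, cfc_const_one ℂ u]
  · change cfc (F 1) u = u
    have h4 : cfc (F 1) u = cfc (fun z : ℂ => z) u := by
      refine cfc_congr (R := ℂ) (a := u) (f := F 1) (g := fun z : ℂ => z) ?_
      intro z hz
      change Complex.exp _ = z
      rw [one_mul, mul_comm]
      have h5 := Complex.norm_mul_exp_arg_mul_I z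
      rw [hcirc z hz, Complex.ofReal_one, one_mul] at h5
      exact h5
    rw [h4, cfc_id' ℂ u]
  · change ‖cfc (F s) u - cfc (F s') u‖ ≤ _
    rw [← cfc_sub (F s) (F s') u (hc _) (hc _)]
    refine norm_cfc_le (by positivity) ?_
    intro z _
    refine (vpath_exp (Complex.arg z) s s').trans ?_
    rw [mul_comm]
    exact mul_le_mul_of_nonneg_right (Complex.abs_arg_le_pi z) (abs_nonneg _)

/-- A path in `RM N ℂ` from `1` to the class of a family of unitary matrices. -/
theorem exists_rpath {I : Ix} {N : Sz I} (u : ∀ l, MM (N.ty l) ℂ)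
    (h1 : ∀ l, star (u l) * u l = 1) (h2 : ∀ l, u l * star (u l) = 1) :
    ∃ p : unitInterval → unitary (RM N ℂ), (Continuous fun s => (p s : RM N ℂ)) ∧
      p 0 = 1 ∧ (p 1 : RM N ℂ) = cl I u := by
  have h := fun l => exists_mpath (u l) (h1 l) (h2 l)
  choose q hq1 hq2 hq3 hq4 using h
  have hb : ∀ s, Bd (fun l => q l s) := fun s => Bd.of_unitary I (fun l => (hq1 l s).1)
  have hb' : ∀ s, Bd (fun l => star (q l s)) := fun s => Bd.star (hb s)
  have hu : ∀ s : ℝ, cl I (fun l => q l s) ∈ unitary (RM N ℂ) := by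
    intro s
    rw [Unitary.mem_iff]
    constructor
    · rw [← cl_star I (hb s), ← cl_mul I (hb' s) (hb s)]
      have h3 : (fun l => star (q l s) * q l s) = fun l => 1 := funext fun l => (hq1 l s).1
      rw [h3]
      exact cl_one I
    · rw [← cl_star I (hb s), ← cl_mul I (hb s) (hb' s)]
      have h3 : (fun l => q l s * star (q l s)) = fun l => 1 := funext fun l => (hq1 l s).2
      rw [h3]
      exact cl_one I
  refine ⟨fun s => ⟨cl I (fun l => q l (s : ℝ)), hu s⟩, ?_, ?_, ?_⟩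
  · change Continuous fun s : unitInterval => cl I (fun l => q l (s : ℝ))
    have hlip : LipschitzWith (Real.toNNReal Real.pi)
        (fun s : unitInterval => cl I (fun l => q l (s : ℝ))) := by
      refine LipschitzWith.of_dist_le_mul ?_
      intro s s'
      rw [dist_eq_norm, ← cl_sub I (hb _) (hb _), Real.coe_toNNReal _ Real.pi_pos.le]
      refine norm_cl_le I (by positivity) (Bd.sub (hb _) (hb _)) (Eventually.of_forall fun l => ?_)
      exact hq4 l s s'
    exact hlip.continuous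
  · apply Subtype.ext
    change cl I (fun l => q l ((0 : unitInterval) : ℝ)) = 1
    have h3 : (fun l => q l ((0 : unitInterval) : ℝ)) = fun l => 1 := funext fun l => hq2 l
    rw [h3]
    exact cl_one I
  · change cl I (fun l => q l ((1 : unitInterval) : ℝ)) = cl I u
    have h3 : (fun l => q l ((1 : unitInterval) : ℝ)) = u := funext fun l => hq3 l
    rw [h3]

theorem exists_vpath (I : Ix) :
    ∃ p : unitInterval → unitary (RM (fz I) ℂ), (Continuous fun s => (p s : RM (fz I) ℂ)) ∧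
      p 0 = 1 ∧ p 1 = vv I := by
  obtain ⟨p, h1, h2, h3⟩ := exists_rpath (N := fz I) (shf I) (fun l => (shf_unitary I l).1)
    (fun l => (shf_unitary I l).2)
  exact ⟨p, h1, h2, Subtype.ext h3⟩

/-- The block homomorphism of the constant projection. -/
theorem bl_pp {I : Ix} (S : Sz I) :
    bl S ℂ (Fin 2) (BoD.pp (RM S ℂ)) = sclR S ℂ (Sz.con I (Fin 2)) (cm (Fin 2) I (mu 1 1)) := by
  unfold BoD.pp
  rw [bl_m2, map_zero, map_one]
  simp only [zero_mul, one_mul, zero_add]

theorem vpath_unit {ι : Type} [Fintype ι] [DecidableEq ι] (k : ι) :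
    MM.amp (Fin 2) (MM.unit1 k : MM ι ℂ) * MM.scl ι ℂ (mu (0 : Fin 2) 0 : MM (Fin 2) ℂ) =
      (MM.unit1 (k, (0 : Fin 2)) : MM (ι × Fin 2) ℂ) := by
  apply MM.ext
  rintro ⟨p1, p2⟩ ⟨q1, q2⟩
  refine (rowc_e_amp_scl _ _ (p1, p2) (q1, q2)).trans ?_
  unfold MM.unit1 mu
  rw [MM.e_of, MM.e_of, MM.e_of]
  by_cases h1 : p1 = k <;> by_cases h2 : q1 = k <;> by_cases h3 : p2 = 0 <;>
    by_cases h4 : q2 = 0 <;> simp [h1, h2, h3, h4]

/-- The coordinate projection of a product. -/
theorem bl_prj {I : Ix} (S : Sz I) (k : ∀ l, S.ty l) :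
    bl S ℂ (Fin 2) (m2 (prj S k) 0 0 0) =
      prj (S.prod (Sz.con I (Fin 2))) (fun l => (k l, (0 : Fin 2))) := by
  have hb1 : Bd (fun l => (MM.unit1 (k l) : MM (S.ty l) ℂ)) := by
    refine ⟨1, fun l => ?_⟩
    have h1 : (MM.unit1 (k l) : MM (S.ty l) ℂ) =
        MM.of (fun i j => if i = j then (if i = k l then (1 : ℂ) else 0) else 0) := by
      apply MM.ext
      intro i j
      unfold MM.unit1
      rw [MM.e_of, MM.e_of]
      by_cases h : i = j
      · subst h
        simp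
      · rw [if_neg h, if_neg]
        rintro ⟨h3, h4⟩
        exact h (h3.trans h4.symm)
    change ‖(MM.unit1 (k l) : MM (S.ty l) ℂ)‖ ≤ 1
    rw [h1]
    refine MM.norm_diag_le _ 1 zero_le_one fun i => ?_
    split_ifs
    · simp
    · simp
  have hb2 : Bd (fun _ : I.L => (mu (0 : Fin 2) 0 : MM (Fin 2) ℂ)) := Bd.const (MM (Fin 2) ℂ) _
  rw [bl_m2, map_zero]
  simp only [zero_mul, add_zero]
  have e1 : ampR S (Sz.con I (Fin 2)) (prj S k) =
      cl I (fun l => MM.amp (Fin 2) (MM.unit1 (k l) : MM (S.ty l) ℂ)) := ampR_cl hb1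
  have e2 : sclR S ℂ (Sz.con I (Fin 2)) (cm (Fin 2) I (mu 0 0)) =
      cl I (fun l => MM.scl (S.ty l) ℂ (mu (0 : Fin 2) 0 : MM (Fin 2) ℂ)) := sclR_cl hb2
  rw [e1, e2]
  have b1 : Bd (fun l => MM.amp (Fin 2) (MM.unit1 (k l) : MM (S.ty l) ℂ)) :=
    Bd.map I (fun l => MM.amp (Fin 2)) hb1
  have b2 : Bd (fun l => MM.scl (S.ty l) ℂ (mu (0 : Fin 2) 0 : MM (Fin 2) ℂ)) :=
    Bd.map I (fun l => MM.scl (S.ty l) ℂ) hb2
  refine (cl_mul I b1 b2).symm.trans ?_
  unfold prj
  congr 1
  funext l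
  exact vpath_unit (k l)

theorem vpath_m2_zero {B : Type} [CStarAlgebra B] : m2 (0 : B) 0 0 0 = 0 := by
  apply MM.ext
  intro i j
  rw [MM.e_zero]
  fin_cases i <;> fin_cases j <;> rfl

theorem prj_orth {I : Ix} (S : Sz I) (k : ∀ l, S.ty l) :
    bl S ℂ (Fin 2) (m2 (prj S k) 0 0 0) * bl S ℂ (Fin 2) (BoD.pp (RM S ℂ)) = 0 ∧
    bl S ℂ (Fin 2) (BoD.pp (RM S ℂ)) * bl S ℂ (Fin 2) (m2 (prj S k) 0 0 0) = 0 := by
  unfold BoD.pp
  constructor
  · rw [← map_mul, m2_mul]
    simp only [mul_zero, zero_mul, add_zero]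
    rw [vpath_m2_zero, map_zero]
  · rw [← map_mul, m2_mul]
    simp only [mul_zero, zero_mul, add_zero]
    rw [vpath_m2_zero, map_zero]

/-- The homomorphism given by a scalar unitary is the evaluation (`uh_ext`). -/
theorem uh_scal {D : Type} [CStarAlgebra D] (u : unitary D) (t : UnitAddCircle)
    (hu : (u : D) = algebraMap ℂ D (fourier 1 t : ℂ)) (f : C(UnitAddCircle, ℂ)) :
    uh u f = algebraMap ℂ D (f t) := by
  have h := uh_eq u ((StarAlgHom.ofId ℂ D).comp (ContinuousMap.evalStarAlgHom ℂ ℂ t)) hu.symm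
  rw [← h]
  rfl

end H7c
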